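import Pool.Agent.H107_ZS.Defs
import Pool.Agent.H327R4.Pure.Stubs2

/-!
# Crossed products of free minimal actions of amenable groups: definitions (C*-algebras)
-/

set_option autoImplicit false

namespace Pool.Agent.H107ZS

open Topology Pool.Agent.H327R4.Pure
open scoped CStarAlgebra ComplexOrder

universe u v w

section cross

variable {G : Type u} [Group G] {X : Type v} [TopologicalSpace X] [CompactSpace X]
  [MulAction G X] [ContinuousConstSMul G X] {A : Type w} [CStarAlgebra A]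

/-- `A`, with the embedding `ι` of `C(X)`, the unitaries `u g` and the map `E : A → C(X)`, is the
reduced crossed product of `C(X)` by the action of the discrete group `G` on the compact space `X`
(for amenable `G` this is also the full crossed product): `(ι, u)` is a covariant pair, the finite
sums `∑ ι (f_g) u_g` are dense, and `E` is a faithful positive map with `E (ι (f) u_g) = f` for
`g = 1` and `= 0` for `g ≠ 1`. -/
structure IsCross (ι : C(X, ℂ) →⋆ₐ[ℂ] A) (u : G →* unitary A) (E : A →L[ℂ] C(X, ℂ)) : Prop where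
  cov : ∀ (g : G) (f : C(X, ℂ)), (u g : A) * ι f * star (u g : A) = ι (f.comp (tr g⁻¹))
  dense : DenseRange fun c : G →₀ C(X, ℂ) => c.sum fun g f => ι f * (u g : A)
  coeff_one : ∀ f : C(X, ℂ), E (ι f) = f
  coeff_ne : ∀ (g : G) (f : C(X, ℂ)), g ≠ 1 → E (ι f * (u g : A)) = 0
  pos : ∀ (a : A) (x : X), 0 ≤ E (star a * a) x
  faithful : ∀ a : A, E (star a * a) = 0 → a = 0

/-- matrices over a crossed product: `B = M_n(A)`, with the diagonal copies of `C(X)` and `G`, the
matrix units `e k l` and the entries `E k l` of the conditional expectation onto `M_n(C(X))` -/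
structure IsMCross {n : ℕ} {B : Type w} [CStarAlgebra B] (ι : C(X, ℂ) →⋆ₐ[ℂ] B)
    (u : G →* unitary B) (e : Fin n → Fin n → B) (E : Fin n → Fin n → B →L[ℂ] C(X, ℂ)) : Prop where
  cov : ∀ (g : G) (f : C(X, ℂ)), (u g : B) * ι f * star (u g : B) = ι (f.comp (tr g⁻¹))
  e_mul : ∀ i j k l, e i j * e k l = if j = k then e i l else 0
  e_star : ∀ i j, star (e i j) = e j i
  e_sum : ∑ i, e i i = 1
  e_comm : ∀ i j f, e i j * ι f = ι f * e i j
  e_commu : ∀ i j (g : G), e i j * (u g : B) = (u g : B) * e i j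
  dense : DenseRange fun c : Fin n × Fin n × G →₀ C(X, ℂ) =>
    c.sum fun p f => ι f * e p.1 p.2.1 * (u p.2.2 : B)
  coeff : ∀ i j (f : C(X, ℂ)), E i j (ι f * e i j) = f
  coeff_ne : ∀ i j k l (g : G) (f : C(X, ℂ)), ¬ (i = k ∧ j = l ∧ g = 1) →
    E i j (ι f * e k l * (u g : B)) = 0
  pos : ∀ (i : Fin n) (b : B) (x : X), 0 ≤ E i i (star b * b) x

end cross

section mcross

variable {G : Type u} [Group G] {X : Type v} [TopologicalSpace X] [CompactSpace X]
  [MulAction G X] [ContinuousConstSMul G X] {B : Type w} [CStarAlgebra B] {n : ℕ}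

/-- `Re ∑ E_kk(b)` -/
noncomputable def Ft (E : Fin n → Fin n → B →L[ℂ] C(X, ℂ)) (b : B) : C(X, ℝ) :=
  ⟨fun x => (∑ k, E k k b x).re, by fun_prop⟩

/-- finite propagation: `b` is a finite sum `∑ ι (f) e_kl u_g` with `g ∈ K` -/
def Prp (ι : C(X, ℂ) →⋆ₐ[ℂ] B) (u : G →* unitary B) (e : Fin n → Fin n → B) (K : Finset G)
    (b : B) : Prop :=
  ∃ f : Fin n → Fin n → G → C(X, ℂ), b = ∑ g ∈ K, ∑ k, ∑ l, ι (f k l g) * e k l * (u g : B)

/-- the compression of `b` at the point `x` to the finite set `S`: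
the matrix `(E_kl (u_s^* b u_t) (x))` with indices `(k, s), (l, t)` -/
noncomputable def Cmp (u : G →* unitary B) (E : Fin n → Fin n → B →L[ℂ] C(X, ℂ)) (S : Finset G)
    (x : X) (b : B) : Matrix (Fin n × S) (Fin n × S) ℂ :=
  fun p q => E p.1 q.1 (star (u p.2 : B) * b * (u q.2 : B)) x

/-- `∑ m_(k,s),(l,t) u_s ι(f) e_kl u_t^*` -/
noncomputable def Th (ι : C(X, ℂ) →⋆ₐ[ℂ] B) (u : G →* unitary B) (e : Fin n → Fin n → B)
    (S : Finset G) (f : C(X, ℂ)) (m : Matrix (Fin n × S) (Fin n × S) ℂ) : B :=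
  ∑ p : Fin n × S, ∑ q : Fin n × S,
    m p q • ((u p.2 : B) * ι f * e p.1 q.1 * star (u q.2 : B))

end mcross

end Pool.Agent.H107ZS
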