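import Pool.Agent.H107_ZS.Defs

/-!
# Statements of the steps (dynamics)

`StX` is a statement, `t_X : StX` its proof (in the file `TX.lean`).
-/

set_option autoImplicit false

namespace Pool.Agent.H107ZS

open Topology

universe u v w

/-! ## dynamics -/

/-- Lebesgue covering dimension at most `d`: every finite open cover has a finite open refinement
such that every point lies in at most `d + 1` members. -/
def DimLE (X : Type u) [TopologicalSpace X] (d : ℕ) : Prop :=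
  ∀ (ι : Type) [Finite ι] (U : ι → Set X), (∀ i, IsOpen (U i)) → (⋃ i, U i) = Set.univ →
    ∃ (κ : Type) (_ : Finite κ) (V : κ → Set X), (∀ k, IsOpen (V k)) ∧ (⋃ k, V k) = Set.univ ∧
      (∀ k, ∃ i, V k ⊆ U i) ∧ ∀ x, Nat.card {k // x ∈ V k} ≤ d + 1

/-- KL: if for every `H`-invariant state some `Λ (φ n) > 0` (`φ` increasing) then some `φ n` has
positive averages over all Følner sets, uniformly. -/
def StKL : Prop := ∀ (G : Type u) [Group G] [Countable G] (Y : Type u) [TopologicalSpace Y]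
  [CompactSpace Y] [Nonempty Y] [MulAction G Y] [ContinuousConstSMul G Y] (H : Subgroup G)
  (φ : ℕ → C(Y, ℝ)), (∀ n y, φ n y ≤ φ (n + 1) y) →
  (∀ Λ : C(Y, ℝ) →ₗ[ℝ] ℝ, InvState H Λ → ∃ n, 0 < Λ (φ n)) →
  ∃ (n : ℕ) (K : Finset G) (ε γ : ℝ), (K : Set G) ⊆ H ∧ 0 < ε ∧ 0 < γ ∧
    ∀ S : Finset G, (S : Set G) ⊆ H → Fol K ε S → ∀ y, γ * S.card ≤ ∑ s ∈ S, φ n (s • y)

/-- AM: Følner sets of subgroups -/
def StAM : Prop := ∀ (G : Type u) [Group G], Amenable G → ∀ (H : Subgroup G) (K : Finset G)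
  (ε : ℝ), 0 < ε → (K : Set G) ⊆ H → ∃ S : Finset G, (S : Set G) ⊆ H ∧ Fol K ε S

/-- TR: transitivity of transport -/
def StTR : Prop := ∀ (G : Type u) [Group G] (Y : Type u) [TopologicalSpace Y] [MulAction G Y]
  [ContinuousConstSMul G Y] (H : Subgroup G) (a b c : C(Y, ℕ)), Sub H a b → Sub H b c → Sub H a c

/-- a division of `Y` into finite cells: `y` is in the cell of the base point `(c y)⁻¹ y`, and
`c = 1` exactly at the base points -/
structure Cell {G : Type u} [Group G] {Y : Type u} [TopologicalSpace Y] [MulAction G Y]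
    (K : Subgroup G) (c : Y → G) : Prop where
  cont : IsLocallyConstant c
  mem : ∀ y, c y ∈ K
  base : ∀ y, c ((c y)⁻¹ • y) = 1

/-- CE: existence of cell structures with large cells -/
def StCE : Prop := ∀ (G : Type u) [Group G] (Y : Type u) [TopologicalSpace Y] [CompactSpace Y]
  [T2Space Y] [TotallyDisconnectedSpace Y] [MulAction G Y] [ContinuousConstSMul G Y],
  FreeAct G Y → ∀ (K : Subgroup G) (E : Finset G), (E : Set G) ⊆ K → E.Nonempty →
  ∃ c : Y → G, Cell K c ∧ ∀ v, c v = 1 → E.card ≤ Set.ncard {k : G | c (k • v) = k}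

/-- CM: matching inside the cells -/
def StCM : Prop := ∀ (G : Type u) [Group G] (Y : Type u) [TopologicalSpace Y] [CompactSpace Y]
  [MulAction G Y] [ContinuousConstSMul G Y] (H : Subgroup G) (c : Y → G), Cell H c →
  ∀ a b : C(Y, ℕ), (∀ v, c v = 1 →
    ∑ᶠ k ∈ {k : G | c (k • v) = k}, a (k • v) ≤ ∑ᶠ k ∈ {k : G | c (k • v) = k}, b (k • v)) →
  Sub H a b

/-- STEP: the main step -/
def StSTEP : Prop := ∀ (G : Type u) [Group G] [Countable G] (Y : Type u) [TopologicalSpace Y]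
  [CompactSpace Y] [T2Space Y] [TotallyDisconnectedSpace Y] [MulAction G Y]
  [ContinuousConstSMul G Y], Amenable G → FreeAct G Y → ∀ H : Subgroup G,
  (∀ (F : Finset G) (L : ℕ), (F : Set G) ⊆ H →
    ∃ K N : Subgroup G, K ≤ H ∧ N ≤ H ∧ (∃ E : Finset G, (E : Set G) ⊆ K ∧ L ≤ E.card) ∧
      Comp N Y ∧ ∀ g ∈ F, ∀ k ∈ K, g * k * g⁻¹ ∈ N) → Comp H Y

/-- FIN: comparison for finite groups -/
def StFIN : Prop := ∀ (G : Type u) [Group G] [Countable G] (Y : Type u) [TopologicalSpace Y]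
  [CompactSpace Y] [T2Space Y] [TotallyDisconnectedSpace Y] [MulAction G Y]
  [ContinuousConstSMul G Y], FreeAct G Y → ∀ H : Subgroup G, Finite H → Comp H Y

/-- CYC: comparison for infinite cyclic groups -/
def StCYC : Prop := ∀ (G : Type u) [Group G] [Countable G] (Y : Type u) [TopologicalSpace Y]
  [CompactSpace Y] [T2Space Y] [TotallyDisconnectedSpace Y] [MulAction G Y]
  [ContinuousConstSMul G Y], FreeAct G Y → ∀ z : G, (∀ n : ℕ, 0 < n → z ^ n ≠ 1) →
  Comp (Subgroup.zpowers z) Y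

/-- MIC: micro-supported groups are tame -/
def StMIC : Prop := ∀ (G : Type u) [Group G], MicroSupported G → Tame (⊤ : Subgroup G)

/-- CY: castles with small remainder on totally disconnected spaces -/
def StCY : Prop := ∀ (G : Type u) [Group G] [Countable G] (Y : Type u) [TopologicalSpace Y]
  [CompactSpace Y] [T2Space Y] [TotallyDisconnectedSpace Y] [MulAction G Y]
  [ContinuousConstSMul G Y], Amenable G → FreeAct G Y → ∀ (K : Finset G) (ε ρ : ℝ), 0 < ε →
  0 < ρ → ∃ (m : ℕ) (S : Fin m → Finset G) (V : Fin m → Set Y), (∀ j, Fol K ε (S j)) ∧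
    (∀ j, IsClopen (V j)) ∧ Levels S V ∧
    ∀ Λ : C(Y, ℝ) →ₗ[ℝ] ℝ, InvState (⊤ : Subgroup G) Λ → ∀ f : C(Y, ℝ),
      (∀ y, 0 ≤ f y ∧ f y ≤ 1) → (∀ j, ∀ s ∈ S j, ∀ y ∈ V j, f (s • y) = 0) → Λ f ≤ ρ

/-- ZE: zero-dimensional extensions with small boundaries -/
def StZE : Prop := ∀ (G : Type u) [Group G] [Countable G] (X : Type u) [TopologicalSpace X]
  [CompactSpace X] [TopologicalSpace.MetrizableSpace X] [MulAction G X]
  [ContinuousConstSMul G X] (d : ℕ), FreeAct G X → DimLE X d →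
  ∃ (Y : Type u) (_ : TopologicalSpace Y) (_ : CompactSpace Y) (_ : T2Space Y)
    (_ : TotallyDisconnectedSpace Y) (_ : MulAction G Y) (_ : ContinuousConstSMul G Y)
    (π : Y → X), Continuous π ∧ Function.Surjective π ∧ (∀ (g : G) y, π (g • y) = g • π y) ∧
    (∀ (x : X) (F : Finset Y), (∀ y ∈ F, π y = x) → F.card ≤ 2 ^ d) ∧
    ∀ A : Set Y, IsClopen A → ∃ C : ℕ, ∀ (x : X) (F : Finset G),
      (∀ g ∈ F, (∃ y ∈ A, π y = g • x) ∧ ∃ y, y ∉ A ∧ π y = g • x) → F.card ≤ C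

/-- CP: castles on `X` -/
def StCP : Prop := ∀ (G : Type u) [Group G] [Countable G] [Infinite G] (X : Type u)
  [TopologicalSpace X] [CompactSpace X] [T2Space X] [Nonempty X] [MulAction G X]
  [ContinuousConstSMul G X] (Y : Type u) [TopologicalSpace Y] [CompactSpace Y] [T2Space Y]
  [TotallyDisconnectedSpace Y] [MulAction G Y] [ContinuousConstSMul G Y] (π : Y → X) (p : ℕ),
  Amenable G → MinAct G X → FreeAct G X → Continuous π → Function.Surjective π →
  (∀ (g : G) y, π (g • y) = g • π y) →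
  (∀ (x : X) (F : Finset Y), (∀ y ∈ F, π y = x) → F.card ≤ p) →
  (∀ A : Set Y, IsClopen A → ∃ C : ℕ, ∀ (x : X) (F : Finset G),
    (∀ g ∈ F, (∃ y ∈ A, π y = g • x) ∧ ∃ y, y ∉ A ∧ π y = g • x) → F.card ≤ C) →
  Comp (⊤ : Subgroup G) Y → CastleProp G X (p * p)

end Pool.Agent.H107ZS
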