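import Pool.Agent.H107_ZS.CDefs
import Pool.Agent.H107_ZS.DStubs
import Pool.Agent.H667R5.TW.Defs

/-!
# Statements of the steps (C*-algebras)

`StX` is a statement, `t_X : StX` its proof (in the file `TX.lean`).
-/

set_option autoImplicit false

namespace Pool.Agent.H107ZS

open Topology Pool.Agent.H327R4.Pure
open scoped CStarAlgebra ComplexOrder

universe u v w

/-! ## C*-algebras -/

/-- SIM: crossed products of free minimal actions are simple -/
def StSIM : Prop := ∀ (G : Type u) [Group G] (X : Type u) [TopologicalSpace X] [CompactSpace X]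
  [T2Space X] [Nonempty X] [MulAction G X] [ContinuousConstSMul G X] (A : Type u)
  [CStarAlgebra A] (ι : C(X, ℂ) →⋆ₐ[ℂ] A) (u : G →* unitary A) (E : A →L[ℂ] C(X, ℂ)),
  FreeAct G X → MinAct G X → IsCross ι u E → SimpleC A

/-- NUC: crossed products by amenable groups are nuclear -/
def StNUC : Prop := ∀ (G : Type u) [Group G] (X : Type u) [TopologicalSpace X] [CompactSpace X]
  [T2Space X] [Nonempty X] [MulAction G X] [ContinuousConstSMul G X] (A : Type u)
  [CStarAlgebra A] [PartialOrder A] [StarOrderedRing A] (ι : C(X, ℂ) →⋆ₐ[ℂ] A)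
  (u : G →* unitary A) (E : A →L[ℂ] C(X, ℂ)), Amenable G → IsCross ι u E →
  Pool.Agent.H667R5.TW.NuclearC A

/-- INF: not finite dimensional -/
def StINF : Prop := ∀ (G : Type u) [Group G] (X : Type u) [TopologicalSpace X] [CompactSpace X]
  [T2Space X] [Infinite X] [MulAction G X] [ContinuousConstSMul G X] (A : Type u)
  [CStarAlgebra A] (ι : C(X, ℂ) →⋆ₐ[ℂ] A) (u : G →* unitary A) (E : A →L[ℂ] C(X, ℂ)),
  IsCross ι u E → ¬ FiniteDimensional ℂ A

/-- EX: the reduced crossed product exists -/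
def StEX : Prop := ∀ (G : Type u) [Group G] (X : Type u) [TopologicalSpace X] [CompactSpace X]
  [T2Space X] [MulAction G X] [ContinuousConstSMul G X], ∃ (A : Type u) (_ : CStarAlgebra A)
  (ι : C(X, ℂ) →⋆ₐ[ℂ] A) (u : G →* unitary A) (E : A →L[ℂ] C(X, ℂ)), IsCross ι u E

/-- SC: strict comparison -/
def StSC : Prop := ∀ (G : Type u) [Group G] [Countable G] [Infinite G] (X : Type u)
  [TopologicalSpace X] [CompactSpace X] [T2Space X] [Nonempty X] [MulAction G X]
  [ContinuousConstSMul G X] (A : Type u) [CStarAlgebra A] [PartialOrder A] [StarOrderedRing A]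
  (ι : C(X, ℂ) →⋆ₐ[ℂ] A) (u : G →* unitary A) (E : A →L[ℂ] C(X, ℂ)) (M : ℕ),
  Amenable G → FreeAct G X → CastleProp G X M → IsCross ι u E → SC A

/-- MC: matrices over a crossed product -/
def StMC : Prop := ∀ (G : Type u) [Group G] (X : Type u) [TopologicalSpace X] [CompactSpace X]
  [MulAction G X] [ContinuousConstSMul G X] (A : Type u) [CStarAlgebra A] [PartialOrder A]
  [StarOrderedRing A] (ι : C(X, ℂ) →⋆ₐ[ℂ] A) (u : G →* unitary A) (E : A →L[ℂ] C(X, ℂ)) (n : ℕ),
  0 < n → IsCross ι u E →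
  ∃ (ι' : C(X, ℂ) →⋆ₐ[ℂ] MM n A) (u' : G →* unitary (MM n A)) (e : Fin n → Fin n → MM n A)
    (E' : Fin n → Fin n → MM n A →L[ℂ] C(X, ℂ)), IsMCross ι' u' e E' ∧
    ∀ k l M, E' k l M = E (M k l)

/-- TS: invariant states give tracial states -/
def StTS : Prop := ∀ (G : Type u) [Group G] (X : Type u) [TopologicalSpace X] [CompactSpace X]
  [MulAction G X] [ContinuousConstSMul G X] (A : Type u) [CStarAlgebra A]
  (ι : C(X, ℂ) →⋆ₐ[ℂ] A) (u : G →* unitary A) (E : A →L[ℂ] C(X, ℂ)), IsCross ι u E →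
  ∀ Λ : C(X, ℝ) →ₗ[ℝ] ℝ, InvState (⊤ : Subgroup G) Λ → ∃ T : Tr A, T.f 1 = 1 ∧
    ∀ (a : A) (f : C(X, ℝ)), (∀ x, f x = (E a x).re) → (T.f a).re = Λ f

end Pool.Agent.H107ZS
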