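import Pool.Agent.H107_ZS.DStubs

/-!
# Statements of the steps (dynamics, second part)
-/

set_option autoImplicit false

namespace Pool.Agent.H107ZS

open Topology

universe u v w

/-- ZE1: maps from a space of dimension at most `d` to `ℝ^(d+1)` can be pushed off a point -/
def StZE1 : Prop := ∀ (X : Type u) [TopologicalSpace X] [CompactSpace X] [T2Space X] (d : ℕ),
  DimLE X d → ∀ (F : C(X, Fin (d + 1) → ℝ)) (p : Fin (d + 1) → ℝ) (ε : ℝ), 0 < ε →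
  ∃ F' : C(X, Fin (d + 1) → ℝ), (∀ x, dist (F' x) (F x) < ε) ∧ ∀ x, F' x ≠ p

/-- ZE2: sequences of functions without common values `1/2` along `P` are dense -/
def StZE2 : Prop := ∀ (G : Type u) [Group G] (X : Type u) [TopologicalSpace X] [CompactSpace X]
  [T2Space X] [MulAction G X] [ContinuousConstSMul G X] (d : ℕ), FreeAct G X → DimLE X d →
  ∀ P : Fin (d + 1) → ℕ × G, Function.Injective P →
  ∀ (Φ : BoundedContinuousFunction (ℕ × X) ℝ) (ε : ℝ), 0 < ε →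
  ∃ Φ' : BoundedContinuousFunction (ℕ × X) ℝ, dist Φ Φ' < ε ∧
    ∀ x, ∃ i, Φ' ((P i).1, (P i).2 • x) ≠ 1 / 2

/-- COL: colouring a cover of multiplicity `p` -/
def StCOL : Prop := ∀ (G : Type u) [Group G] (X : Type u) [TopologicalSpace X] [CompactSpace X]
  [T2Space X] [MulAction G X] [ContinuousConstSMul G X] (p n : ℕ) (D : Fin n → Set X)
  (g : Fin n → G) (R W : Set X), (∀ i, IsClosed (D i)) → IsOpen W → (∀ x ∈ R, ∃ i, x ∈ D i) →
  (∀ i, ∀ x ∈ D i, g i • x ∈ W) →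
  (∀ (z : X) (F : Finset (Fin n)), (∀ i ∈ F, ∃ x ∈ D i, g i • x = z) → F.card ≤ p) →
  MSub G (p * p) R W

/-- ND: closed sets which are met at most `C` times have such neighbourhoods -/
def StND : Prop := ∀ (G : Type u) [Group G] (X : Type u) [TopologicalSpace X] [CompactSpace X]
  [T2Space X] [MulAction G X] [ContinuousConstSMul G X] (D : Set X) (S : Finset G) (C : ℕ),
  IsClosed D → (∀ (x : X) (F : Finset G), F ⊆ S → (∀ g ∈ F, g • x ∈ D) → F.card ≤ C) →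
  ∃ O : Set X, IsOpen O ∧ D ⊆ O ∧
    ∀ (x : X) (F : Finset G), F ⊆ S → (∀ g ∈ F, g • x ∈ closure O) → F.card ≤ C

/-- CHI: cut-off functions on Følner sets -/
def StCHI : Prop := ∀ (G : Type u) [Group G] (K : Finset G) (N : ℕ) (θ : ℝ), 0 < N → 0 < θ →
  ∃ (K' : Finset G) (ε : ℝ), 0 < ε ∧ ∀ S : Finset G, Fol K' ε S →
    ∃ (χ : G → ℝ) (T : Finset G), (∀ s, 0 ≤ χ s ∧ χ s ≤ 1) ∧ (∀ s, s ∉ S → χ s = 0) ∧
      (∀ g ∈ K, ∀ s, |χ (g * s) - χ s| ≤ 1 / N) ∧ (∀ g ∈ K, ∀ s, χ s ≠ 0 → g * s ∈ S) ∧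
      T ⊆ S ∧ (1 - θ) * S.card ≤ T.card ∧
      ∀ t ∈ T, ∀ w : List G, w.length ≤ N → (∀ x ∈ w, x ∈ K) → χ (w.prod * t) = 1

/-- SW: open sets which meet few levels -/
def StSW : Prop := ∀ (G : Type u) [Group G] [Infinite G] (X : Type u) [TopologicalSpace X]
  [CompactSpace X] [T2Space X] [Nonempty X] [MulAction G X] [ContinuousConstSMul G X],
  FreeAct G X → ∀ β : ℝ, 0 < β →
  ∃ (W : Set X) (n : ℕ) (O : Fin n → Set X) (K : Finset G) (ε : ℝ), IsOpen W ∧ W.Nonempty ∧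
    (∀ i, IsOpen (O i)) ∧ (∀ x, ∃ i, x ∈ O i) ∧ 0 < ε ∧
    ∀ S : Finset G, Fol K ε S → ∀ (V : Set X) (T : Finset G), T ⊆ S →
      (∀ s ∈ S, ∃ i, ∀ x ∈ V, s • x ∈ O i) → (∀ s ∈ T, ∃ x ∈ V, s • x ∈ W) →
      (T.card : ℝ) ≤ β * S.card

/-- SPL: equidistributed splitting in the cells -/
def StSPL : Prop := ∀ (G : Type u) [Group G] (Y : Type u) [TopologicalSpace Y] [CompactSpace Y]
  [MulAction G Y] [ContinuousConstSMul G Y] (K : Subgroup G) (c : Y → G), Cell K c →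
  ∀ (a : C(Y, ℕ)) (W : ℕ), 0 < W → ∃ b : Fin W → C(Y, ℕ), (∀ y, ∑ i, b i y = a y) ∧
    ∀ i v, c v = 1 →
      W * ∑ᶠ k ∈ {k : G | c (k • v) = k}, b i (k • v) ≤
          ∑ᶠ k ∈ {k : G | c (k • v) = k}, a (k • v) + W ∧
      ∑ᶠ k ∈ {k : G | c (k • v) = k}, a (k • v) ≤
          W * ∑ᶠ k ∈ {k : G | c (k • v) = k}, b i (k • v) + W

/-- INT: an invariant state is determined by the sums over the cells -/
def StINT : Prop := ∀ (G : Type u) [Group G] (Y : Type u) [TopologicalSpace Y] [CompactSpace Y]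
  [MulAction G Y] [ContinuousConstSMul G Y] (K : Subgroup G) (c : Y → G), Cell K c →
  ∀ Λ : C(Y, ℝ) →ₗ[ℝ] ℝ, InvState K Λ → ∀ f g : C(Y, ℝ),
    (∀ v, c v = 1 → ∑ᶠ k ∈ {k : G | c (k • v) = k}, f (k • v) ≤
      ∑ᶠ k ∈ {k : G | c (k • v) = k}, g (k • v)) → Λ f ≤ Λ g

end Pool.Agent.H107ZS
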