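import Pool.Agent.H107_ZS.CStubs
import Pool.Agent.H107_ZS.DStubs2

/-!
# Statements of the steps (C*-algebras, second part)
-/

set_option autoImplicit false

namespace Pool.Agent.H107ZS

open Topology Pool.Agent.H327R4.Pure
open scoped CStarAlgebra ComplexOrder

universe u v w

/-- PI: partial isometries into a projection -/
def StPI : Prop := ∀ (N : Type u) [Fintype N] [DecidableEq N] (κ : Type) [Fintype κ]
  [DecidableEq κ] (q : Matrix N N ℂ) (r : κ → Matrix N N ℂ), IsStarProjection q →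
  (∀ α, IsStarProjection (r α)) → ∑ α, (r α).trace.re ≤ q.trace.re →
  ∃ v : κ → Matrix N N ℂ, (∀ α β, v α * star (v β) = if α = β then r α else 0) ∧
    ∀ α, v α * q = v α

/-- the compression of `b` at `x`, cut off by `χ` -/
noncomputable def CmpX {G : Type u} [Group G] {X : Type v} [TopologicalSpace X]
    {B : Type w} [CStarAlgebra B] {n : ℕ} (u : G →* unitary B)
    (E : Fin n → Fin n → B →L[ℂ] C(X, ℂ)) (S : Finset G) (χ : G → ℝ) (x : X) (b : B) :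
    Matrix (Fin n × S) (Fin n × S) ℂ :=
  fun p q => (χ p.2 : ℂ) * (χ q.2 : ℂ) * Cmp u E S x b p q

/-- MUL: products of elements of finite propagation -/
def StMUL : Prop := ∀ (G : Type u) [Group G] (X : Type u) [TopologicalSpace X] [CompactSpace X]
  [MulAction G X] [ContinuousConstSMul G X] (B : Type u) [CStarAlgebra B] (n : ℕ)
  (ι : C(X, ℂ) →⋆ₐ[ℂ] B) (u : G →* unitary B) (e : Fin n → Fin n → B)
  (E : Fin n → Fin n → B →L[ℂ] C(X, ℂ)), IsMCross ι u e E →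
  (∀ (b : B) (K : Finset G), Prp ι u e K b → ∀ (g : G), g ∉ K → ∀ k l,
    E k l (b * star (u g : B)) = 0) ∧
  (∀ (b z : B) (K L : Finset G), Prp ι u e K b → Prp ι u e L z → ∀ (r s : G) (k l : Fin n) (x : X)
    (S : Finset G), (∀ g ∈ L, g * s ∈ S) →
    E k l (star (u r : B) * (b * z) * (u s : B)) x =
      ∑ t ∈ S, ∑ j, E k j (star (u r : B) * b * (u t : B)) x *
        E j l (star (u t : B) * z * (u s : B)) x) ∧
  (∀ (b : B) (k l : Fin n) (s : G) (x : X),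
    E k l (star (u s : B) * b * (u s : B)) x = E k l b (s • x)) ∧
  (∀ (b : B) (k l k' l' : Fin n) (x : X), E k l (e k k' * b * e l' l) x = E k' l' b x)

/-- LOC: polynomials of the cut-off compression are local -/
def StLOC : Prop := ∀ (G : Type u) [Group G] [DecidableEq G] (X : Type u) [TopologicalSpace X]
  [CompactSpace X]
  [MulAction G X] [ContinuousConstSMul G X] (B : Type u) [CStarAlgebra B] (n : ℕ)
  (ι : C(X, ℂ) →⋆ₐ[ℂ] B) (u : G →* unitary B) (e : Fin n → Fin n → B)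
  (E : Fin n → Fin n → B →L[ℂ] C(X, ℂ)), IsMCross ι u e E →
  ∀ (K : Finset G) (b : B), Prp ι u e K b → ∀ (P : Polynomial ℝ) (S : Finset G) (χ : G → ℝ)
    (x : X) (s : G) (hs : s ∈ S), (∀ g, g ∉ S → χ g = 0) →
    (∀ w : List G, w.length ≤ P.natDegree → (∀ g ∈ w, g ∈ K) → χ (w.prod * s) = 1) →
    ∀ k l : Fin n, (Polynomial.aeval (CmpX u E S χ x b) P) (k, ⟨s, hs⟩) (l, ⟨s, hs⟩) =
      E k l (Polynomial.aeval b P) (s • x)

/-- POS: compressions are positive and unital -/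
def StPOS : Prop := ∀ (G : Type u) [Group G] [DecidableEq G] (X : Type u) [TopologicalSpace X]
  [CompactSpace X]
  [MulAction G X] [ContinuousConstSMul G X] (B : Type u) [CStarAlgebra B] (n : ℕ)
  (ι : C(X, ℂ) →⋆ₐ[ℂ] B) (u : G →* unitary B) (e : Fin n → Fin n → B)
  (E : Fin n → Fin n → B →L[ℂ] C(X, ℂ)), IsMCross ι u e E →
  ∀ (S : Finset G) (x : X), Cmp u E S x 1 = 1 ∧ ∀ b : B, (Cmp u E S x (star b * b)).PosSemidef

/-- RANK: the comparison of the ranks -/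
def StRANK : Prop := ∀ (G : Type u) [Group G] [DecidableEq G] (X : Type u) [TopologicalSpace X]
  [CompactSpace X]
  [MulAction G X] [ContinuousConstSMul G X] (B : Type u) [CStarAlgebra B] [PartialOrder B]
  [StarOrderedRing B] (n : ℕ) (ι : C(X, ℂ) →⋆ₐ[ℂ] B) (u : G →* unitary B)
  (e : Fin n → Fin n → B) (E : Fin n → Fin n → B →L[ℂ] C(X, ℂ)), IsMCross ι u e E →
  ∀ (a b : B) (ε δ θ : ℝ), 0 ≤ a → 0 ≤ b → 0 < ε → 0 < δ → 0 < θ →
  ∃ (κ δ' C τ : ℝ) (N : ℕ), 0 < κ ∧ 4 * κ ≤ δ' ∧ κ ≤ ε ∧ 0 < C ∧ 0 < τ ∧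
    ∀ (a' b' : B) (K : Finset G), IsSelfAdjoint a' → IsSelfAdjoint b' → Prp ι u e K a' →
      Prp ι u e K b' → ‖a - a'‖ ≤ κ → ‖b - b'‖ ≤ κ →
      ∀ (S T : Finset G) (χ : G → ℝ), T ⊆ S → (∀ s, 0 ≤ χ s ∧ χ s ≤ 1) →
        (∀ s, s ∉ S → χ s = 0) →
        (∀ t ∈ T, ∀ w : List G, w.length ≤ N → (∀ g ∈ w, g ∈ K) → χ (w.prod * t) = 1) →
        (1 - τ) * S.card ≤ T.card → ∀ x : X,
        ∃ p q : Matrix (Fin n × S) (Fin n × S) ℂ, IsStarProjection p ∧ IsStarProjection q ∧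
          ((ε : ℂ) • (1 : Matrix (Fin n × S) (Fin n × S) ℂ) + (C : ℂ) • p -
            CmpX u E S χ x a').PosSemidef ∧
          (CmpX u E S χ x b' + (κ : ℂ) • (1 : Matrix (Fin n × S) (Fin n × S) ℂ) -
            (δ' : ℂ) • q).PosSemidef ∧
          p.trace.re + ∑ s ∈ S, (Ft E (phi δ b) - Ft E (phi ε a)) (s • x) ≤
            q.trace.re + θ * S.card

/-- GAP: uniform gap -/
def StGAP : Prop := ∀ (G : Type u) [Group G] [Countable G] (X : Type u) [TopologicalSpace X]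
  [CompactSpace X] [Nonempty X] [MulAction G X] [ContinuousConstSMul G X] (B : Type u)
  [CStarAlgebra B] [PartialOrder B] [StarOrderedRing B] (n : ℕ) (ι : C(X, ℂ) →⋆ₐ[ℂ] B)
  (u : G →* unitary B) (e : Fin n → Fin n → B) (E : Fin n → Fin n → B →L[ℂ] C(X, ℂ)),
  IsMCross ι u e E → ∀ (a b : B) (ε : ℝ), 0 ≤ a → 0 ≤ b → 0 < ε →
  (∀ Λ : C(X, ℝ) →ₗ[ℝ] ℝ, InvState (⊤ : Subgroup G) Λ →
    ∃ δ : ℝ, 0 < δ ∧ Λ (Ft E (phi ε a)) < Λ (Ft E (phi δ b))) →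
  ∃ (δ ε' γ : ℝ) (K : Finset G), 0 < δ ∧ 0 < ε' ∧ 0 < γ ∧ ∀ S : Finset G, Fol K ε' S → ∀ x : X,
    γ * S.card ≤ ∑ s ∈ S, (Ft E (phi δ b) - Ft E (phi ε a)) (s • x)

/-- COM: almost central cut-offs -/
def StCOM : Prop := ∀ (G : Type u) [Group G] (X : Type u) [TopologicalSpace X] [CompactSpace X]
  [MulAction G X] [ContinuousConstSMul G X] (B : Type u) [CStarAlgebra B] (n : ℕ)
  (ι : C(X, ℂ) →⋆ₐ[ℂ] B) (u : G →* unitary B) (e : Fin n → Fin n → B)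
  (E : Fin n → Fin n → B →L[ℂ] C(X, ℂ)), IsMCross ι u e E →
  ∀ (f : Fin n → Fin n → G → C(X, ℂ)) (K : Finset G) (h h' : C(X, ℂ)) (N : ℕ), 0 < N →
    (∀ x, ∃ t t' : ℝ, h x = t ∧ h' x = t' ∧ 0 ≤ t ∧ 0 ≤ t' ∧ t ^ 2 + t' ^ 2 = 1) →
    (∀ g ∈ K, ∀ x, ‖h x - h (g⁻¹ • x)‖ ≤ 1 / N) →
    ‖(∑ g ∈ K, ∑ k, ∑ l, ι (f k l g) * e k l * (u g : B)) -
      (ι h * (∑ g ∈ K, ∑ k, ∑ l, ι (f k l g) * e k l * (u g : B)) * ι h +
       ι h' * (∑ g ∈ K, ∑ k, ∑ l, ι (f k l g) * e k l * (u g : B)) * ι h')‖ ≤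
      2 / N * ∑ g ∈ K, ∑ k, ∑ l, ‖f k l g‖

/-- TH: the calculus of the tower algebras -/
def StTH : Prop := ∀ (G : Type u) [Group G] [DecidableEq G] (X : Type u) [TopologicalSpace X]
  [CompactSpace X]
  [MulAction G X] [ContinuousConstSMul G X] (B : Type u) [CStarAlgebra B] [PartialOrder B]
  [StarOrderedRing B] (n : ℕ) (ι : C(X, ℂ) →⋆ₐ[ℂ] B) (u : G →* unitary B)
  (e : Fin n → Fin n → B) (E : Fin n → Fin n → B →L[ℂ] C(X, ℂ)), IsMCross ι u e E →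
  ∀ (m : ℕ) (S : Fin m → Finset G) (V : Fin m → Set X), Levels S V →
  (∀ (f f' : Fin m → C(X, ℂ)) (a a' : ∀ j, Matrix (Fin n × S j) (Fin n × S j) ℂ),
    (∀ j x, x ∉ V j → f j x = 0) → (∀ j x, x ∉ V j → f' j x = 0) →
    (∑ j, Th ι u e (S j) (f j) (a j)) * (∑ j, Th ι u e (S j) (f' j) (a' j)) =
      ∑ j, Th ι u e (S j) (f j * f' j) (a j * a' j)) ∧
  (∀ (j : Fin m) (f : C(X, ℂ)) (a : Matrix (Fin n × S j) (Fin n × S j) ℂ),
    star (Th ι u e (S j) f a) = Th ι u e (S j) (star f) (star a)) ∧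
  (∀ (j : Fin m) (f : C(X, ℂ)) (a : Matrix (Fin n × S j) (Fin n × S j) ℂ),
    (∀ x, x ∉ V j → f x = 0) → (∀ x, 0 ≤ f x) → a.PosSemidef → 0 ≤ Th ι u e (S j) f a) ∧
  (∀ f : Fin m → C(X, ℂ), (∀ j x, x ∉ V j → f j x = 0) → (∀ j x, 0 ≤ f j x ∧ f j x ≤ 1) →
    ∑ j, Th ι u e (S j) (f j) (1 : Matrix (Fin n × S j) (Fin n × S j) ℂ) ≤ 1)

/-- APX: the cut-down of an element of finite propagation is almost in the tower algebra -/
def StAPX : Prop := ∀ (G : Type u) [Group G] (X : Type u) [TopologicalSpace X] [CompactSpace X]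
  [MulAction G X] [ContinuousConstSMul G X] (B : Type u) [CStarAlgebra B] (n : ℕ)
  (ι : C(X, ℂ) →⋆ₐ[ℂ] B) (u : G →* unitary B) (e : Fin n → Fin n → B)
  (E : Fin n → Fin n → B →L[ℂ] C(X, ℂ)), IsMCross ι u e E →
  ∀ (m : ℕ) (S : Fin m → Finset G) (V : Fin m → Set X), Levels S V →
  ∀ (f : Fin n → Fin n → G → C(X, ℂ)) (K : Finset G) (χ : Fin m → G → ℝ) (η : Fin m → C(X, ℂ))
    (v : Fin m → X) (h : C(X, ℂ)) (κ : ℝ), 0 ≤ κ →
    (∀ j s, 0 ≤ χ j s ∧ χ j s ≤ 1) → (∀ j s, s ∉ S j → χ j s = 0) →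
    (∀ j, ∀ g ∈ K, ∀ s, χ j s ≠ 0 → g * s ∈ S j) →
    (∀ j x, x ∉ V j → η j x = 0) → (∀ j x, 0 ≤ η j x ∧ η j x ≤ 1) →
    (∀ j, (V j).Nonempty → v j ∈ V j) →
    (∀ x, h x = ∑ j, ∑ s ∈ S j, (χ j s : ℂ) * η j (s⁻¹ • x)) →
    (∀ j, ∀ s ∈ S j, ∀ x ∈ V j, ∀ y ∈ V j, ∀ g ∈ K, ∀ k l,
      ‖f k l g (s • x) - f k l g (s • y)‖ ≤ κ) →
    ‖ι h * (∑ g ∈ K, ∑ k, ∑ l, ι (f k l g) * e k l * (u g : B)) * ι h -
      ∑ j, Th ι u e (S j) (η j * η j) (CmpX u E (S j) (χ j) (v j)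
        (∑ g ∈ K, ∑ k, ∑ l, ι (f k l g) * e k l * (u g : B)))‖ ≤ K.card * n ^ 2 * κ

/-- DOM: an element below `ε + g` -/
def StDOM : Prop := ∀ (B : Type u) [CStarAlgebra B] [PartialOrder B] [StarOrderedRing B]
  (a g : B) (ε : ℝ), 0 ≤ a → 0 ≤ g → 0 ≤ ε → a ≤ algebraMap ℝ B ε + g → Cz (cut ε a) g

end Pool.Agent.H107ZS
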