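import Pool.Agent.H107_ZS.CStubs2

/-!
# Statements of the steps (C*-algebras, third part)
-/

set_option autoImplicit false

namespace Pool.Agent.H107ZS

open Topology Pool.Agent.H327R4.Pure
open scoped CStarAlgebra ComplexOrder

universe u v w

/-- SPM: spectral projections of matrices: `p = 1_(s,∞) (α)` -/
def StSPM : Prop := ∀ (N : Type u) [Fintype N] [DecidableEq N] (α : Matrix N N ℂ),
  α.IsHermitian → ∀ s : ℝ, 0 ≤ s → ∃ p : Matrix N N ℂ, IsStarProjection p ∧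
    (∀ C : ℝ, 0 ≤ C → ((C : ℂ) • (1 : Matrix N N ℂ) - α).PosSemidef →
      ((s : ℂ) • (1 : Matrix N N ℂ) + (C : ℂ) • p - α).PosSemidef) ∧
    (∀ κ : ℝ, 0 ≤ κ → (α + (κ : ℂ) • (1 : Matrix N N ℂ)).PosSemidef →
      (α + (κ : ℂ) • (1 : Matrix N N ℂ) - (s : ℂ) • p).PosSemidef) ∧
    ∀ (P : Polynomial ℝ) (lo hi η : ℝ), (α - (lo : ℂ) • (1 : Matrix N N ℂ)).PosSemidef →
      ((hi : ℂ) • (1 : Matrix N N ℂ) - α).PosSemidef →
      ((∀ t, lo ≤ t → t ≤ hi → (if s < t then 1 else 0) ≤ P.eval t + η) →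
        p.trace.re ≤ (Polynomial.aeval α P).trace.re + η * Fintype.card N) ∧
      ((∀ t, lo ≤ t → t ≤ hi → P.eval t ≤ (if s < t then 1 else 0) + η) →
        (Polynomial.aeval α P).trace.re ≤ p.trace.re + η * Fintype.card N)

/-- CB: bounds for the cut-off compressions -/
def StCB : Prop := ∀ (G : Type u) [Group G] [DecidableEq G] (X : Type u) [TopologicalSpace X]
  [CompactSpace X] [MulAction G X] [ContinuousConstSMul G X] (B : Type u) [CStarAlgebra B]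
  [PartialOrder B] [StarOrderedRing B] (n : ℕ) (ι : C(X, ℂ) →⋆ₐ[ℂ] B) (u : G →* unitary B)
  (e : Fin n → Fin n → B) (E : Fin n → Fin n → B →L[ℂ] C(X, ℂ)), IsMCross ι u e E →
  ∀ (S : Finset G) (χ : G → ℝ), (∀ s, 0 ≤ χ s ∧ χ s ≤ 1) → ∀ (x : X) (b : B), IsSelfAdjoint b →
    (CmpX u E S χ x b).IsHermitian ∧
    (∀ κ : ℝ, 0 ≤ κ → 0 ≤ b + algebraMap ℝ B κ → (CmpX u E S χ x b +
      (κ : ℂ) • (1 : Matrix (Fin n × S) (Fin n × S) ℂ)).PosSemidef) ∧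
    (∀ C : ℝ, 0 ≤ C → b ≤ algebraMap ℝ B C →
      ((C : ℂ) • (1 : Matrix (Fin n × S) (Fin n × S) ℂ) - CmpX u E S χ x b).PosSemidef)

/-- RA: the rank of the compression of `a` from above -/
def StRA : Prop := ∀ (G : Type u) [Group G] [DecidableEq G] (X : Type u) [TopologicalSpace X]
  [CompactSpace X]
  [MulAction G X] [ContinuousConstSMul G X] (B : Type u) [CStarAlgebra B] [PartialOrder B]
  [StarOrderedRing B] (n : ℕ) (ι : C(X, ℂ) →⋆ₐ[ℂ] B) (u : G →* unitary B)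
  (e : Fin n → Fin n → B) (E : Fin n → Fin n → B →L[ℂ] C(X, ℂ)), IsMCross ι u e E →
  ∀ (a : B) (ε θ : ℝ), 0 ≤ a → 0 < ε → 0 < θ →
  ∃ (κ C τ : ℝ) (N : ℕ), 0 < κ ∧ 0 < C ∧ 0 < τ ∧
    ∀ (a' : B) (K : Finset G), IsSelfAdjoint a' → Prp ι u e K a' → ‖a - a'‖ ≤ κ →
      ∀ (S T : Finset G) (χ : G → ℝ), T ⊆ S → (∀ s, 0 ≤ χ s ∧ χ s ≤ 1) →
        (∀ s, s ∉ S → χ s = 0) →
        (∀ t ∈ T, ∀ w : List G, w.length ≤ N → (∀ g ∈ w, g ∈ K) → χ (w.prod * t) = 1) →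
        (1 - τ) * S.card ≤ T.card → ∀ x : X,
        ∃ p : Matrix (Fin n × S) (Fin n × S) ℂ, IsStarProjection p ∧
          ((ε : ℂ) • (1 : Matrix (Fin n × S) (Fin n × S) ℂ) + (C : ℂ) • p -
            CmpX u E S χ x a').PosSemidef ∧
          p.trace.re ≤ ∑ s ∈ S, Ft E (phi ε a) (s • x) + θ * S.card

/-- RB: the rank of the compression of `b` from below -/
def StRB : Prop := ∀ (G : Type u) [Group G] [DecidableEq G] (X : Type u) [TopologicalSpace X]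
  [CompactSpace X]
  [MulAction G X] [ContinuousConstSMul G X] (B : Type u) [CStarAlgebra B] [PartialOrder B]
  [StarOrderedRing B] (n : ℕ) (ι : C(X, ℂ) →⋆ₐ[ℂ] B) (u : G →* unitary B)
  (e : Fin n → Fin n → B) (E : Fin n → Fin n → B →L[ℂ] C(X, ℂ)), IsMCross ι u e E →
  ∀ (b : B) (δ θ : ℝ), 0 ≤ b → 0 < δ → 0 < θ →
  ∃ (κ0 δ' τ : ℝ) (N : ℕ), 0 < κ0 ∧ 0 < δ' ∧ 0 < τ ∧
    ∀ (κ : ℝ) (b' : B) (K : Finset G), 0 < κ → κ ≤ κ0 → IsSelfAdjoint b' → Prp ι u e K b' →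
      ‖b - b'‖ ≤ κ →
      ∀ (S T : Finset G) (χ : G → ℝ), T ⊆ S → (∀ s, 0 ≤ χ s ∧ χ s ≤ 1) →
        (∀ s, s ∉ S → χ s = 0) →
        (∀ t ∈ T, ∀ w : List G, w.length ≤ N → (∀ g ∈ w, g ∈ K) → χ (w.prod * t) = 1) →
        (1 - τ) * S.card ≤ T.card → ∀ x : X,
        ∃ q : Matrix (Fin n × S) (Fin n × S) ℂ, IsStarProjection q ∧
          (CmpX u E S χ x b' + (κ : ℂ) • (1 : Matrix (Fin n × S) (Fin n × S) ℂ) -
            (δ' : ℂ) • q).PosSemidef ∧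
          ∑ s ∈ S, Ft E (phi δ b) (s • x) ≤ q.trace.re + θ * S.card

/-- NU1: completely positive maps through matrix algebras -/
def StNU1 : Prop := ∀ (G : Type u) [Group G] (X : Type u) [TopologicalSpace X] [CompactSpace X]
  [MulAction G X] [ContinuousConstSMul G X] (A : Type u) [CStarAlgebra A] [PartialOrder A]
  [StarOrderedRing A] (ι : C(X, ℂ) →⋆ₐ[ℂ] A) (u : G →* unitary A) (E : A →L[ℂ] C(X, ℂ)),
  IsCross ι u E → ∀ (S : Finset G), S.Nonempty → ∀ (r : ℕ) (x : Fin r → X)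
  (θ : Fin r → C(X, ℂ)), (∀ i y, 0 ≤ θ i y) → (∑ i, θ i = 1) →
  ∃ (k : ℕ) (ψ : A →CP CStarMatrix (Fin k) (Fin k) ℂ) (φ : CStarMatrix (Fin k) (Fin k) ℂ →CP A),
    (∀ a, ‖ψ a‖ ≤ ‖a‖) ∧ (∀ y, ‖φ y‖ ≤ ‖y‖) ∧
    ∀ a, φ (ψ a) = (1 / (S.card : ℂ)) • ∑ i, ∑ s ∈ S, ∑ t ∈ S,
      (E (star (u s : A) * a * (u t : A)) (x i)) • ((u s : A) * ι (θ i) * star (u t : A))

end Pool.Agent.H107ZS
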