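import Pool.Agent.H107_ZS.DStubs2

/-!
# Statements of the steps (dynamics, third part)
-/

set_option autoImplicit false

namespace Pool.Agent.H107ZS

open Topology

universe u v w

/-- PART: clopen divisions subordinate to open covers -/
def StPART : Prop := ∀ (Y : Type u) [TopologicalSpace Y] [CompactSpace Y] [T2Space Y]
  [TotallyDisconnectedSpace Y] (n : ℕ) (O : Fin n → Set Y), (∀ i, IsOpen (O i)) →
  (∀ y, ∃ i, y ∈ O i) → ∃ P : Fin n → Set Y, (∀ i, IsClopen (P i)) ∧ (∀ i, P i ⊆ O i) ∧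
    ∀ y, ∃! i, y ∈ P i

/-- CYR: castles with small remainder and small levels -/
def StCYR : Prop := ∀ (G : Type u) [Group G] [Countable G] (Y : Type u) [TopologicalSpace Y]
  [CompactSpace Y] [T2Space Y] [TotallyDisconnectedSpace Y] [MulAction G Y]
  [ContinuousConstSMul G Y], Amenable G → FreeAct G Y → ∀ (K : Finset G) (ε ρ : ℝ), 0 < ε →
  0 < ρ → ∀ (n : ℕ) (O : Fin n → Set Y), (∀ i, IsOpen (O i)) → (∀ y, ∃ i, y ∈ O i) →
  ∃ (m : ℕ) (S : Fin m → Finset G) (V : Fin m → Set Y), (∀ j, Fol K ε (S j)) ∧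
    (∀ j, IsClopen (V j)) ∧ Levels S V ∧ (∀ j, ∀ s ∈ S j, ∃ i, ∀ y ∈ V j, s • y ∈ O i) ∧
    ∀ Λ : C(Y, ℝ) →ₗ[ℝ] ℝ, InvState (⊤ : Subgroup G) Λ → ∀ f : C(Y, ℝ),
      (∀ y, 0 ≤ f y ∧ f y ≤ 1) → (∀ j, ∀ s ∈ S j, ∀ y ∈ V j, f (s • y) = 0) → Λ f ≤ ρ

/-- ZE3: functions `f n` such that on every orbit the value `1/2` is taken at most `d` times -/
def StZE3 : Prop := ∀ (G : Type u) [Group G] [Countable G] (X : Type u) [TopologicalSpace X]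
  [CompactSpace X] [TopologicalSpace.MetrizableSpace X] [MulAction G X]
  [ContinuousConstSMul G X] (d : ℕ), FreeAct G X → DimLE X d →
  ∃ f : ℕ → C(X, ℝ), (∀ x y, x ≠ y → ∃ n, f n x < 1 / 2 ∧ 1 / 2 < f n y) ∧
    ∀ (x : X) (F : Finset (ℕ × G)), (∀ p ∈ F, f p.1 (p.2 • x) = 1 / 2) → F.card ≤ d

/-- ZE4: the extension given by such functions -/
def StZE4 : Prop := ∀ (G : Type u) [Group G] [Countable G] (X : Type u) [TopologicalSpace X]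
  [CompactSpace X] [TopologicalSpace.MetrizableSpace X] [MulAction G X]
  [ContinuousConstSMul G X] (d : ℕ) (f : ℕ → C(X, ℝ)),
  (∀ x y, x ≠ y → ∃ n, f n x < 1 / 2 ∧ 1 / 2 < f n y) →
  (∀ (x : X) (F : Finset (ℕ × G)), (∀ p ∈ F, f p.1 (p.2 • x) = 1 / 2) → F.card ≤ d) →
  ∃ (Y : Type u) (_ : TopologicalSpace Y) (_ : CompactSpace Y) (_ : T2Space Y)
    (_ : TotallyDisconnectedSpace Y) (_ : MulAction G Y) (_ : ContinuousConstSMul G Y)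
    (π : Y → X), Continuous π ∧ Function.Surjective π ∧ (∀ (g : G) y, π (g • y) = g • π y) ∧
    (∀ (x : X) (F : Finset Y), (∀ y ∈ F, π y = x) → F.card ≤ 2 ^ d) ∧
    ∀ A : Set Y, IsClopen A → ∃ C : ℕ, ∀ (x : X) (F : Finset G),
      (∀ g ∈ F, (∃ y ∈ A, π y = g • x) ∧ ∃ y, y ∉ A ∧ π y = g • x) → F.card ≤ C

/-- ST: one stage of the tower construction of Ornstein and Weiss -/
def StST : Prop := ∀ (G : Type u) [Group G] (Y : Type u) [TopologicalSpace Y] [CompactSpace Y]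
  [T2Space Y] [TotallyDisconnectedSpace Y] [MulAction G Y] [ContinuousConstSMul G Y],
  FreeAct G Y → ∀ (F : Finset G) (δ : ℝ) (P : Set Y), F.Nonempty → 0 < δ → δ < 1 → IsClopen P →
  ∃ (m : ℕ) (S : Fin m → Finset G) (V : Fin m → Set Y), (∀ j, S j ⊆ F) ∧
    (∀ j, (1 - δ) * F.card ≤ (S j).card) ∧ (∀ j, IsClopen (V j)) ∧ Levels S V ∧
    (∀ j, ∀ s ∈ S j, ∀ v ∈ V j, s • v ∉ P) ∧
    (∀ j, ∀ s ∈ F, ∀ v ∈ V j, s • v ∈ P ∨ ∃ j', ∃ s' ∈ S j', ∃ v' ∈ V j', s • v = s' • v') ∧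
    ∀ y, ∃ F' : Finset G, F' ⊆ F ∧ δ * F.card ≤ F'.card ∧
      ∀ s ∈ F', s • y ∈ P ∨ ∃ j, ∃ s' ∈ S j, ∃ v ∈ V j, s • y = s' • v

end Pool.Agent.H107ZS
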