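import Pool.Agent.H107_ZS.DStubs3

/-!
# Comparison for all amenable groups: statements

Plan: a fractional matching `x` with slack of clopen sets `A`, `B` is made sparse by rotating the
flow around short cycles (`StRC`), then the support graph has unique geodesics up to a given length
(`StUS`). A measure `m(v)`, supported in the intrinsic ball of radius `K` around `v` and varying
slowly along the edges (`StPA`), is used to choose for every `v ∈ A` a neighbour `b ∈ B` such that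
`m(v)(beyond b) ≤ x(v, b)`; this choice is injective (`StMAIN`).
-/

set_option autoImplicit false

namespace Pool.Agent.H107ZS

open Topology

universe u v w

section defs

variable {G : Type u} [Group G] {Y : Type v} [MulAction G Y]

/-- `x` is a fractional matching of `A` into `B` with slack `γ`: `x y g` is the weight of the edge
from `y ∈ A` to `g • y ∈ B`, `g ∈ D`. -/
structure IsFrac [TopologicalSpace Y] (A B : Set Y) (D : Finset G) (γ : ℝ) (x : Y → G → ℝ) :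
    Prop where
  lc : ∀ g, IsLocallyConstant fun y => x y g
  nonneg : ∀ y g, 0 ≤ x y g
  supp : ∀ y g, x y g ≠ 0 → y ∈ A ∧ g ∈ D ∧ g • y ∈ B
  out : ∀ y ∈ A, ∑ g ∈ D, x y g = 1
  inn : ∀ y, ∑ g ∈ D, x (g⁻¹ • y) g ≤ 1 - γ

/-- `X` transports the mass `a` below `(1 - γ) b`: `X y g` is the mass moved from `y` to `g • y` -/
structure IsFlow [TopologicalSpace Y] (a b : C(Y, ℕ)) (D : Finset G) (γ : ℝ) (X : Y → G → ℝ) :
    Prop where
  lc : ∀ g, IsLocallyConstant fun y => X y g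
  nonneg : ∀ y g, 0 ≤ X y g
  supp : ∀ y g, X y g ≠ 0 → g ∈ D
  out : ∀ y, ∑ g ∈ D, X y g = a y
  inn : ∀ y, ∑ g ∈ D, X (g⁻¹ • y) g ≤ (1 - γ) * b y

/-- the edges at the points `h • y`, `h ∈ H`, with non-zero weight carry no non-zero circulation:
`z h g` is the value of the circulation on the edge from `h • y` to `g • h • y`. -/
def NoCirc (H D : Finset G) (x : Y → G → ℝ) : Prop :=
  ∀ (y : Y) (z : G → G → ℝ), (∀ h g, z h g ≠ 0 → h ∈ H ∧ g ∈ D ∧ x (h • y) g ≠ 0) →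
    (∀ h, ∑ g ∈ D, z h g = 0) → (∀ h, ∑ g ∈ D, z (g⁻¹ * h) g = 0) → ∀ h g, z h g = 0

/-- `y` and `d • y` are joined by an edge of non-zero weight -/
def Jn (x : Y → G → ℝ) (y : Y) (d : G) : Prop := x y d ≠ 0 ∨ x (d • y) d⁻¹ ≠ 0

open Classical in
/-- the set of all `r` such that `r • y` is joined with `y` by a path with at most `k` edges -/
noncomputable def Bl (x : Y → G → ℝ) (D : Finset G) : ℕ → Y → Finset G
  | 0, _ => {1}
  | k + 1, y => Bl x D k y ∪ ((D ∪ D.image fun d => d⁻¹).filter fun d => Jn x y d).biUnion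
      fun d => (Bl x D k (d • y)).image fun r => r * d

/-- approximately invariant measures: `m y s` is the mass of the point `s • y`; locally constant -/
def TopAm (G : Type u) [Group G] (Y : Type v) [TopologicalSpace Y] [MulAction G Y] : Prop :=
  ∀ (D : Finset G) (ε : ℝ), 0 < ε → ∃ (F : Finset G) (m : Y → G → ℝ),
    (∀ s, IsLocallyConstant fun y => m y s) ∧ (∀ y s, 0 ≤ m y s) ∧ (∀ y s, s ∉ F → m y s = 0) ∧
    (∀ y, ∑ s ∈ F, m y s = 1) ∧
    ∀ d ∈ D, ∀ y, ∑ s ∈ F, |m y s - m (d • y) (s * d⁻¹)| ≤ ε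

end defs

/-- PA: nearest points of nested sequences of finite sets. `p T s` is the element `r` of `T` with
`e (r s⁻¹)` minimal, `e : G → ℕ` injective. -/
def StPA : Prop := ∀ (G : Type u) [Group G] [Countable G] (F : Finset G) (ε : ℝ), 0 < ε →
  ∃ (K : ℕ) (p : Finset G → G → G), 0 < K ∧ (∀ T s, T.Nonempty → p T s ∈ T) ∧
    ∀ (d : G) (T T' : ℕ → Finset G), Monotone T → Monotone T' → 1 ∈ T 0 → 1 ∈ T' 0 →
      (∀ k, ∀ r ∈ T k, r * d⁻¹ ∈ T' (k + 1)) → (∀ k, ∀ r ∈ T' k, r * d ∈ T (k + 1)) →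
      ∀ s ∈ F, s * d⁻¹ ∈ F →
        (Set.ncard {k : ℕ | k < K ∧ p (T (k + 1)) s ≠ p (T' (k + 1)) (s * d⁻¹) * d} : ℝ) ≤ ε * K

/-- BL: properties of the balls -/
def StBL : Prop := ∀ (G : Type u) [Group G] (Y : Type v) [TopologicalSpace Y] [MulAction G Y]
  [ContinuousConstSMul G Y] (A B : Set Y) (D : Finset G) (γ : ℝ) (x : Y → G → ℝ), Disjoint A B →
  IsFrac A B D γ x →
  (∀ k, IsLocallyConstant (Bl x D k)) ∧ (∀ y, Monotone fun k => Bl x D k y) ∧
  (∀ y d, Jn x y d → Jn x (d • y) d⁻¹) ∧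
  (∀ y d, Jn x y d → ∀ k, (∀ r ∈ Bl x D k y, r * d⁻¹ ∈ Bl x D (k + 1) (d • y)) ∧
    ∀ r ∈ Bl x D k (d • y), r * d ∈ Bl x D (k + 1) y) ∧
  ∀ y d, Jn x y d → ∀ k, ∀ r ∈ Bl x D k y, ∃ j ≤ k + 1,
    (r ∈ Bl x D j y ∧ r * d⁻¹ ∉ Bl x D j (d • y)) ∨ (r ∉ Bl x D j y ∧ r * d⁻¹ ∈ Bl x D j (d • y))

/-- US: if there are no small circulations, geodesics have a unique first step -/
def StUS : Prop := ∀ (G : Type u) [Group G] (D : Finset G) (R : ℕ), ∃ H : Finset G,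
  ∀ (Y : Type v) [TopologicalSpace Y] [MulAction G Y] [ContinuousConstSMul G Y] (A B : Set Y)
    (γ : ℝ) (x : Y → G → ℝ), FreeAct G Y → Disjoint A B → IsFrac A B D γ x → NoCirc H D x →
    ∀ (y : Y) (r d₁ d₂ : G) (k₁ k₂ : ℕ), Jn x y d₁ → Jn x y d₂ → k₁ ≤ R → k₂ ≤ R →
      r * d₁⁻¹ ∈ Bl x D k₁ (d₁ • y) → r ∉ Bl x D k₁ y →
      r * d₂⁻¹ ∈ Bl x D k₂ (d₂ • y) → r ∉ Bl x D k₂ y → d₁ = d₂

/-- RC1: rotating the flow around one circulation pattern `z` at the points of the clopen set `V` -/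
def StRC1 : Prop := ∀ (G : Type u) [Group G] (Y : Type v) [TopologicalSpace Y] [MulAction G Y]
  [ContinuousConstSMul G Y], FreeAct G Y → ∀ (A B : Set Y) (D : Finset G) (γ : ℝ)
  (x : Y → G → ℝ), IsFrac A B D γ x → ∀ (z : G → G → ℝ) (H : Finset G),
  (∀ h g, z h g ≠ 0 → h ∈ H ∧ g ∈ D) → (∀ h, ∑ g ∈ D, z h g = 0) →
  (∀ h, ∑ g ∈ D, z (g⁻¹ * h) g = 0) → (∃ h g, z h g ≠ 0) →
  ∀ V : Set Y, IsClopen V →
    (∀ v ∈ V, ∀ v' ∈ V, ∀ h ∈ H, ∀ h' ∈ H, h • v = h' • v' → v = v') →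
    ∃ x' : Y → G → ℝ, IsFrac A B D γ x' ∧ (∀ y g, x' y g ≠ 0 → x y g ≠ 0) ∧
      ∀ v ∈ V, ∃ h g, z h g ≠ 0 ∧ x' (h • v) g = 0

/-- RC: removing all small circulations -/
def StRC : Prop := ∀ (G : Type u) [Group G] (Y : Type v) [TopologicalSpace Y] [CompactSpace Y]
  [T2Space Y] [TotallyDisconnectedSpace Y] [MulAction G Y] [ContinuousConstSMul G Y],
  FreeAct G Y → ∀ (A B : Set Y) (D : Finset G) (γ : ℝ) (x : Y → G → ℝ), IsFrac A B D γ x →
  ∀ H : Finset G, ∃ x' : Y → G → ℝ, IsFrac A B D γ x' ∧ NoCirc H D x'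

/-- TRF: the measures vary slowly along the edges -/
def StTRF : Prop := ∀ (G : Type u) [Group G] (F : Finset G) (ε : ℝ) (K : ℕ)
  (p : Finset G → G → G) (d : G) (T T' : ℕ → Finset G) (m m' : G → ℝ), 0 ≤ ε →
  (∀ s ∈ F, s * d⁻¹ ∈ F →
    (Set.ncard {k : ℕ | k < K ∧ p (T (k + 1)) s ≠ p (T' (k + 1)) (s * d⁻¹) * d} : ℝ) ≤ ε * K) →
  (∀ s, 0 ≤ m s) → (∀ s, 0 ≤ m' s) → (∀ s, s ∉ F → m' s = 0) → ∑ s ∈ F, m' s = 1 →
  ∑ s ∈ F, |m s - m' (s * d⁻¹)| ≤ ε → ∀ Q : Set G,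
  ∑ k ∈ Finset.range K, ∑ s ∈ F, Q.indicator (fun _ => m s) (p (T (k + 1)) s) ≤
    ∑ k ∈ Finset.range K, ∑ s ∈ F, Q.indicator (fun _ => m' s) (p (T' (k + 1)) s * d) + 2 * ε * K

/-- MAIN: rounding of a fractional matching with slack -/
def StMAIN : Prop := ∀ (G : Type u) [Group G] [Countable G] (Y : Type v) [TopologicalSpace Y]
  [CompactSpace Y] [T2Space Y] [TotallyDisconnectedSpace Y] [MulAction G Y]
  [ContinuousConstSMul G Y], FreeAct G Y → TopAm G Y → ∀ (A B : Set Y) (D : Finset G) (γ : ℝ)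
  (x : Y → G → ℝ), IsClopen A → IsClopen B → Disjoint A B → 0 < γ → IsFrac A B D γ x →
  ∃ φ : Y → G, IsLocallyConstant φ ∧ (∀ y ∈ A, φ y ∈ D ∧ φ y • y ∈ B) ∧
    ∀ y ∈ A, ∀ y' ∈ A, φ y • y = φ y' • y' → y = y'

/-- TA: amenable groups -/
def StTA : Prop := ∀ (G : Type u) [Group G] (Y : Type v) [TopologicalSpace Y] [MulAction G Y],
  Amenable G → TopAm G Y

/-- FM: a fractional transport from an inequality for averages -/
def StFM : Prop := ∀ (G : Type u) [Group G] (Y : Type v) [TopologicalSpace Y] [CompactSpace Y]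
  [MulAction G Y] [ContinuousConstSMul G Y] (a b : C(Y, ℕ)) (S : Finset G) (γ : ℝ), S.Nonempty →
  0 < γ → (∀ y, ((∑ s ∈ S, a (s • y) : ℕ) : ℝ) + γ * S.card ≤ ((∑ s ∈ S, b (s • y) : ℕ) : ℝ)) →
  ∃ (D : Finset G) (γ' : ℝ) (X : Y → G → ℝ), 0 < γ' ∧ IsFlow a b D γ' X

/-- RED: rounding for multiplicities, by `StMAIN` for the action of `G × P` on `Y × P`, `P` a
finite group -/
def StRED : Prop := ∀ (G : Type u) [Group G] [Countable G] (Y : Type u) [TopologicalSpace Y]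
  [CompactSpace Y] [T2Space Y] [TotallyDisconnectedSpace Y] [MulAction G Y]
  [ContinuousConstSMul G Y], FreeAct G Y → TopAm G Y → ∀ (a b : C(Y, ℕ)) (D : Finset G) (γ : ℝ)
  (X : Y → G → ℝ), 0 < γ → IsFlow a b D γ X → Sub (⊤ : Subgroup G) a b

/-- COMP: comparison for free actions of amenable groups on zero-dimensional spaces -/
def StCOMP : Prop := ∀ (G : Type u) [Group G] [Countable G] (Y : Type u) [TopologicalSpace Y]
  [CompactSpace Y] [T2Space Y] [TotallyDisconnectedSpace Y] [MulAction G Y]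
  [ContinuousConstSMul G Y], Amenable G → FreeAct G Y → Comp (⊤ : Subgroup G) Y

end Pool.Agent.H107ZS
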