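import Pool.Agent.H667R5.TW.Full

/-!
# The relations of all prime dimension drop algebras `Z_{n,n+1}`: statements
-/

set_option autoImplicit false

namespace Pool.Agent.H107ZS

open Topology Filter Pool.Agent.H327R4.Pure Pool.Agent.H327R4.SI Pool.Agent.H667R5.TW
open scoped CStarAlgebra ComplexOrder

universe u

/-- property (SI) in local form, with the constant `κ` -/
def SIPk (κ : ℝ) (A : Type u) [CStarAlgebra A] [PartialOrder A] [StarOrderedRing A] : Prop :=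
  ∀ (m : ℕ) (a : Fin m → A) (R : ℕ) (ε : ℝ), 0 < ε →
  ∃ (k : ℕ) (y : Fin k → A) (K : ℕ) (δ : ℝ), 0 < δ ∧
    ∀ e f : A, 0 ≤ e → e ≤ 1 → 0 ≤ f → f ≤ 1 →
      (∀ j, ‖e * y j - y j * e‖ ≤ δ ∧ ‖f * y j - y j * f‖ ≤ δ) →
      κ ≤ ‖f ^ K‖ → (∀ T : TS A, (R : ℝ) * (T.1.f e).re ≤ δ ∧ κ ≤ (T.1.f (f ^ K)).re) →
      ∃ s : Fin R → A, (∀ i i', ‖star (s i) * s i' - if i = i' then e else 0‖ ≤ ε) ∧
        (∀ i, ‖f * s i - s i‖ ≤ ε) ∧ ∀ i j, ‖s i * a j - a j * s i‖ ≤ ε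

/-- approximately central `(n+1) × (n+1)` matrix units in the operator norm, with a leftover `e`
which is uniformly small in trace -/
def MCNn (n : ℕ) (A : Type u) [CStarAlgebra A] [PartialOrder A] [StarOrderedRing A] : Prop :=
  ∀ (m : ℕ) (a : Fin m → A) (K : ℕ) (ε : ℝ), 0 < ε →
  ∃ (c : Fin (n + 1) → A) (e : A), 0 ≤ c 0 ∧ c 0 ≤ 1 ∧ 0 ≤ e ∧ e ≤ 1 ∧
    (∀ i j, ‖c i * star (c j) - (if i = j then c 0 * c 0 else 0)‖ ≤ ε) ∧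
    ‖∑ i, star (c i) * c i + e - 1‖ ≤ ε ∧
    (∀ j, (∀ i, ‖c i * a j - a j * c i‖ ≤ ε) ∧ ‖e * a j - a j * e‖ ≤ ε) ∧
    ∀ T : TS A, (T.1.f e).re ≤ ε ∧ 1 / (2 * ((n : ℝ) + 1)) ≤ (T.1.f (c 0 ^ K)).re

/-- approximately central systems of `(n+1) × (n+1)` matrix units in the uniform 2-norm -/
def UMR (n : ℕ) (A : Type u) [CStarAlgebra A] [PartialOrder A] [StarOrderedRing A] : Prop :=
  ∀ (m : ℕ) (a : Fin m → A) (ε : ℝ), 0 < ε →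
  ∃ P : Fin (n + 1) → Fin (n + 1) → A, (∀ i j, ‖P i j‖ ≤ 1 ∧ star (P i j) = P j i) ∧
    0 ≤ ∑ i, P i i ∧ ∑ i, P i i ≤ 1 ∧
    ∀ T : TS A, n2 T (1 - ∑ i, P i i) ≤ ε ∧ (∀ i j, n2 T (P i j * P j i - P i i) ≤ ε) ∧
      (∀ i j k l, j ≠ k → n2 T (P i j * P k l) ≤ ε) ∧
      ∀ i j l, n2 T (P i j * a l - a l * P i j) ≤ ε

/-- lower bounds for `b = h f^(2K) h`, with the constant `κ` -/
def StLBk : Prop := ∀ (κ : ℝ), 0 < κ →
  ∀ (A : Type u) [CStarAlgebra A] [PartialOrder A] [StarOrderedRing A],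
  SimpleC A → ∀ h : A, 0 ≤ h → h ≠ 0 → ∃ (k : ℕ) (y : Fin k → A) (η : ℝ), 0 < η ∧
    ∀ K : ℕ, ∃ δ : ℝ, 0 < δ ∧ ∀ f : A, 0 ≤ f → f ≤ 1 → (∀ j, ‖f * y j - y j * f‖ ≤ δ) →
      (κ ≤ ‖f ^ (2 * K)‖ → η ≤ ‖h * f ^ (2 * K) * h‖) ∧
      ∀ T : TS A, κ ≤ (T.1.f (f ^ (2 * K))).re → η ≤ (T.1.f (h * f ^ (2 * K) * h)).re

/-- one excising row: elements `r_l` with `r_l^* g r_l' = δ e''`, `f r_l ~ r_l`, with the
constant `κ` -/
def StSIRk : Prop := ∀ (κ : ℝ), 0 < κ →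
  ∀ (A : Type u) [CStarAlgebra A] [PartialOrder A] [StarOrderedRing A],
  SimpleC A → SC A → ∀ (g : A) (L : ℕ) (ε : ℝ), 0 ≤ g → ‖g‖ = 1 → 0 < ε →
    ∃ (k : ℕ) (y : Fin k → A) (K : ℕ) (δ : ℝ), 0 < δ ∧
    ∀ e f : A, 0 ≤ e → e ≤ 1 → 0 ≤ f → f ≤ 1 →
      (∀ j, ‖f * y j - y j * f‖ ≤ δ) → κ ≤ ‖f ^ K‖ →
      (∀ T : TS A, (T.1.f e).re ≤ δ ∧ κ ≤ (T.1.f (f ^ K)).re) →
      ∃ r : Fin L → A, (∀ l, ‖r l‖ ≤ 2) ∧ (∀ l, ‖f * r l - r l‖ ≤ ε) ∧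
        ∀ l l', star (r l) * g * r l' = if l = l' then cut ε e else 0

/-- strict comparison and nuclearity imply property (SI), with the constant `κ` -/
def StSIk : Prop := ∀ (κ : ℝ), 0 < κ →
  ∀ (A : Type u) [CStarAlgebra A] [PartialOrder A] [StarOrderedRing A],
  SimpleC A → ¬ FiniteDimensional ℂ A → SC A → CPF A → SIPk κ A

/-- relations in the uniform 2-norm -/
def StREL : Prop := ∀ (n : ℕ) (A : Type u) [CStarAlgebra A] [PartialOrder A] [StarOrderedRing A],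
  UMcD A (n + 1) → UMR n A

/-- from the 2-norm to the operator norm -/
def StLIFTn : Prop := ∀ (n : ℕ) (A : Type u) [CStarAlgebra A] [PartialOrder A]
  [StarOrderedRing A], UMR n A → MCNn n A

/-- the conclusion -/
def StFINn : Prop := ∀ (A : Type u) [CStarAlgebra A] [PartialOrder A] [StarOrderedRing A],
  (∀ κ : ℝ, 0 < κ → SIPk κ A) → (Nonempty (TS A) → ∀ n, MCNn n A) → RWZ A

/-- all together: strict comparison and nuclearity imply the relations of all `Z_{n,n+1}` -/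
theorem full_n (h2 : StREL.{u}) (h3 : StLIFTn.{u}) (h4 : StSIk.{u}) (h5 : StFINn.{u})
    (A : Type u) [CStarAlgebra A] [PartialOrder A] [StarOrderedRing A]
    (hs : SimpleC A) (hf : ¬ FiniteDimensional ℂ A) (hn : NuclearC A) (hc : SC A) : RWZ A :=
  h5 A (fun κ hκ => h4 κ hκ A hs hf hc (t_NF A (thm_BR A hn))) fun _ n =>
    h3 n A (h2 n A (umcd A hs hf hn hc (n + 1) (by omega)))

end Pool.Agent.H107ZS
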