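import Pool.Agent.H107_ZS.DStubs5

/-!
# Dynamical comparison for topologically amenable actions on finite-dimensional spaces: statements
-/

set_option autoImplicit false

namespace Pool.Agent.H107ZS

open Topology

universe u v w

section defs

variable {G : Type u} [Group G] {X : Type v} [TopologicalSpace X] [MulAction G X]

/-- topological amenability, with continuous approximately invariant measures `m n x` on `G` -/
def TopAmC (G : Type u) [Group G] (X : Type v) [TopologicalSpace X] [MulAction G X] : Prop :=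
  ∃ m : ℕ → X → G → ℝ,
      (∀ n x h, 0 ≤ m n x h) ∧
      (∀ n h, Continuous (fun x => m n x h)) ∧
      (∀ n, ∃ F : Finset G, (∀ x h, h ∉ F → m n x h = 0) ∧ ∀ x, ∑ h ∈ F, m n x h = 1) ∧
      ∀ g : G, ∀ ε : ℝ, 0 < ε → ∃ N : ℕ, ∀ n, N ≤ n → ∀ x : X,
        ∑' h : G, |m n (g • x) (g * h) - m n x h| < ε

/-- every orbit meets `Z` at most `C` times -/
def Thin (G : Type u) [Group G] {X : Type v} [MulAction G X] (C : ℕ) (Z : Set X) : Prop :=
  ∀ (x : X) (F : Finset G), (∀ g ∈ F, g • x ∈ Z) → F.card ≤ C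

open Classical in
/-- the indicator function of a set as a function with values in `ℕ` -/
noncomputable def ind (A : Set X) (x : X) : ℕ := if x ∈ A then 1 else 0

end defs

/-- HALL: positive averages of `b - a` over all Følner sets and fullness of `b` give Hall's
condition with slack -/
def StHALL : Prop := ∀ (G : Type u) [Group G] (Y : Type v) [TopologicalSpace Y] [CompactSpace Y]
  [MulAction G Y] (a b : C(Y, ℕ)) (K : Finset G) (ε γ : ℝ), 0 < ε → 0 < γ →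
  (∀ S : Finset G, Fol K ε S → ∀ y : Y,
    γ * S.card + ∑ s ∈ S, (a (s • y) : ℝ) ≤ ∑ s ∈ S, (b (s • y) : ℝ)) →
  ∀ E : Finset G, (∀ y : Y, ∃ g ∈ E, 1 ≤ b (g • y)) →
  ∃ (D : Finset G) (N : ℕ), ∀ (y : Y) (Q R : Finset G), (∀ d ∈ D, ∀ q ∈ Q, d * q ∈ R) →
    (N + 1) * ∑ q ∈ Q, a (q • y) ≤ N * ∑ r ∈ R, b (r • y)

/-- ORB: Hall's theorem gives a fractional transport with slack on every orbit -/
def StORB : Prop := ∀ (G : Type u) [Group G] (Y : Type v) [MulAction G Y] (a b : Y → ℕ)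
  (D : Finset G) (N : ℕ), (∀ (y : Y) (Q R : Finset G), (∀ d ∈ D, ∀ q ∈ Q, d * q ∈ R) →
    (N + 1) * ∑ q ∈ Q, a (q • y) ≤ N * ∑ r ∈ R, b (r • y)) →
  ∀ y : Y, ∃ u : G → G → ℝ, (∀ q g, 0 ≤ u q g) ∧ (∀ q g, u q g ≠ 0 → g ∈ D) ∧
    (∀ q, ∑ g ∈ D, u q g = a (q • y)) ∧
    ∀ r, ∑ g ∈ D, u (g⁻¹ * r) g ≤ (1 - 1 / ((N : ℝ) + 1)) * b (r • y)

/-- FLW: averaging the transports on the orbits with the approximately invariant measures -/
def StFLW : Prop := ∀ (G : Type u) [Group G] (Y : Type v) [TopologicalSpace Y] [CompactSpace Y]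
  [MulAction G Y] [ContinuousConstSMul G Y] (a b : C(Y, ℕ)) (D : Finset G) (γ : ℝ), 0 < γ →
  TopAm G Y →
  (∀ y : Y, ∃ u : G → G → ℝ, (∀ q g, 0 ≤ u q g) ∧ (∀ q g, u q g ≠ 0 → g ∈ D) ∧
    (∀ q, ∑ g ∈ D, u q g = a (q • y)) ∧ ∀ r, ∑ g ∈ D, u (g⁻¹ * r) g ≤ (1 - γ) * b (r • y)) →
  ∃ X : Y → G → ℝ, IsFlow a b D (γ / 2) X

/-- TAX: from continuous to locally constant approximately invariant measures -/
def StTAX : Prop := ∀ (G : Type u) [Group G] (X : Type v) [TopologicalSpace X] [MulAction G X]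
  (Y : Type w) [TopologicalSpace Y] [CompactSpace Y] [T2Space Y] [TotallyDisconnectedSpace Y]
  [MulAction G Y] (π : Y → X), Continuous π → (∀ (g : G) y, π (g • y) = g • π y) →
  TopAmC G X → TopAm G Y

/-- MEA: clopen approximations from inside and outside and invariant measures -/
def StMEA : Prop := ∀ (G : Type u) [Group G] [Infinite G] (X : Type v) [TopologicalSpace X]
  [CompactSpace X] [TopologicalSpace.MetrizableSpace X] [MeasurableSpace X] [BorelSpace X]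
  [MulAction G X] [ContinuousConstSMul G X] (Y : Type u) [TopologicalSpace Y] [CompactSpace Y]
  [T2Space Y] [TotallyDisconnectedSpace Y] [MulAction G Y] [ContinuousConstSMul G Y] (π : Y → X),
  FreeAct G X → Continuous π → (∀ (g : G) y, π (g • y) = g • π y) →
  ∀ (K V : Set X) (z : X), IsCompact K → IsOpen V →
  (∀ μ : MeasureTheory.Measure X, MeasureTheory.IsProbabilityMeasure μ →
    (∀ (g : G) (s : Set X), MeasurableSet s → μ ((fun x => g • x) ⁻¹' s) = μ s) → μ K < μ V) →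
  ∃ A B : ℕ → Set Y, (∀ n, IsClopen (A n)) ∧ (∀ n, IsClopen (B n)) ∧ (∀ n, A (n + 1) ⊆ A n) ∧
    (∀ n, B n ⊆ B (n + 1)) ∧ (∀ n, π ⁻¹' K ⊆ A n) ∧ (∀ n, ∀ y ∈ B n, π y ∈ V ∧ π y ≠ z) ∧
    (∀ x ∈ V, x ≠ z → ∃ (n : ℕ) (O : Set X), IsOpen O ∧ x ∈ O ∧ π ⁻¹' O ⊆ B n) ∧
    ∀ Λ : C(Y, ℝ) →ₗ[ℝ] ℝ, InvState (⊤ : Subgroup G) Λ → ∀ φ : ℕ → C(Y, ℝ),
      (∀ n y, φ n y = (ind (B n) y : ℝ) - (ind (A n) y : ℝ)) → ∃ n, 0 < Λ (φ n)

/-- PSH: from `Y` to `X`, up to a thin closed set -/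
def StPSH : Prop := ∀ (G : Type u) [Group G] (X : Type v) [TopologicalSpace X] [CompactSpace X]
  [T2Space X] [MulAction G X] [ContinuousConstSMul G X] (Y : Type w) [TopologicalSpace Y]
  [CompactSpace Y] [T2Space Y] [TotallyDisconnectedSpace Y] [MulAction G Y]
  [ContinuousConstSMul G Y] (π : Y → X), Continuous π → Function.Surjective π →
  (∀ (g : G) y, π (g • y) = g • π y) →
  (∀ A : Set Y, IsClopen A → ∃ C : ℕ,
    Thin G C {x | (∃ y ∈ A, π y = x) ∧ ∃ y, y ∉ A ∧ π y = x}) →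
  ∀ (n : ℕ) (P : Fin n → Set Y) (t : Fin n → G), (∀ i, IsClopen (P i)) →
  (∀ i j, ∀ y ∈ P i, ∀ y' ∈ P j, t i • y = t j • y' → i = j ∧ y = y') →
  ∀ K : Set X, IsClosed K → (∀ y, π y ∈ K → ∃ i, y ∈ P i) →
  ∃ (C : ℕ) (Z : Set X), IsClosed Z ∧ Thin G C Z ∧ ∀ O : Set X, IsOpen O → Z ⊆ O →
    ∃ L : Fin n → Set X, (∀ i, IsClosed (L i)) ∧ (∀ i, L i ⊆ π '' P i) ∧
      (∀ x ∈ K, x ∈ O ∨ ∃ i, x ∈ L i) ∧
      ∀ i j, i ≠ j → ∀ x ∈ L i, ∀ x' ∈ L j, t i • x ≠ t j • x'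

/-- THN: thin closed sets are subequivalent to all non-empty open sets -/
def StTHN : Prop := ∀ (G : Type u) [Group G] [Infinite G] (X : Type u) [TopologicalSpace X]
  [CompactSpace X] [T2Space X] [MulAction G X] [ContinuousConstSMul G X], FreeAct G X →
  MinAct G X → ∀ (C : ℕ) (Z W : Set X), IsClosed Z → Thin G C Z → IsOpen W → W.Nonempty →
  ∃ (O : Set X) (n : ℕ) (U : Fin n → Set X) (g : Fin n → G), IsOpen O ∧ Z ⊆ O ∧
    (∀ i, IsOpen (U i)) ∧ (∀ x ∈ O, ∃ i, x ∈ U i) ∧ (∀ i, ∀ x ∈ U i, g i • x ∈ W) ∧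
    ∀ i j, i ≠ j → ∀ x ∈ U i, ∀ x' ∈ U j, g i • x ≠ g j • x'

/-- SEP: thickening closed sets -/
def StSEP : Prop := ∀ (G : Type u) [Group G] (X : Type v) [TopologicalSpace X] [CompactSpace X]
  [T2Space X] [MulAction G X] [ContinuousConstSMul G X] (n : ℕ) (L : Fin n → Set X)
  (t : Fin n → G) (V : Set X), IsOpen V → (∀ i, IsClosed (L i)) → (∀ i, ∀ x ∈ L i, t i • x ∈ V) →
  (∀ i j, i ≠ j → ∀ x ∈ L i, ∀ x' ∈ L j, t i • x ≠ t j • x') →
  ∃ U : Fin n → Set X, (∀ i, IsOpen (U i)) ∧ (∀ i, L i ⊆ U i) ∧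
    (∀ i, ∀ x ∈ U i, t i • x ∈ V) ∧
    ∀ i j, i ≠ j → ∀ x ∈ U i, ∀ x' ∈ U j, t i • x ≠ t j • x'

/-- FING: the case of a finite group -/
def StFING : Prop := ∀ (G : Type u) [Group G] [Finite G] (X : Type v) [TopologicalSpace X]
  [CompactSpace X] [T2Space X] [MeasurableSpace X] [BorelSpace X] [MulAction G X]
  [ContinuousConstSMul G X], FreeAct G X → MinAct G X → ∀ K V : Set X, IsCompact K → IsOpen V →
  (∀ μ : MeasureTheory.Measure X, MeasureTheory.IsProbabilityMeasure μ →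
    (∀ (g : G) (s : Set X), MeasurableSet s → μ ((fun x => g • x) ⁻¹' s) = μ s) → μ K < μ V) →
  ∃ (n : ℕ) (W : Fin n → Set X) (t : Fin n → G), (∀ i, IsOpen (W i)) ∧ K ⊆ ⋃ i, W i ∧
    (∀ i, ∀ x ∈ W i, t i • x ∈ V) ∧
    ∀ i j, i ≠ j → ∀ x ∈ W i, ∀ x' ∈ W j, t i • x ≠ t j • x'

end Pool.Agent.H107ZS
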