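import Mathlib

/-!
# Crossed products of free minimal actions of amenable groups: definitions (dynamics)
-/

set_option autoImplicit false

namespace Pool.Agent.H107ZS

open Topology

universe u v

section group

variable {G : Type u} [Group G]

open Classical in
/-- `S` is a non-empty finite set and for every `g ∈ K` at most `ε |S|` elements `s` of `S` satisfy
`g s ∉ S`. -/
def Fol (K : Finset G) (ε : ℝ) (S : Finset G) : Prop :=
  S.Nonempty ∧ ∀ g ∈ K, ((S.filter fun s => g * s ∉ S).card : ℝ) ≤ ε * S.card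

/-- Amenability: the condition of Følner. -/
def Amenable (G : Type u) [Group G] : Prop :=
  ∀ (K : Finset G) (ε : ℝ), 0 < ε → ∃ S : Finset G, Fol K ε S

/-- `P` is a class of subgroups of `G` which contains the finite subgroups and the infinite cyclic
subgroups, and which contains `H` if for every finite `F ⊆ H` and every `L` there are a subgroup
`K` of `H` with at least `L` elements and a subgroup `N` of `H` in the class such that
`g K g⁻¹ ⊆ N` for all `g ∈ F`. -/
structure TameClass (P : Subgroup G → Prop) : Prop where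
  fin : ∀ H : Subgroup G, Finite H → P H
  cyc : ∀ z : G, (∀ n : ℕ, 0 < n → z ^ n ≠ 1) → P (Subgroup.zpowers z)
  step : ∀ H : Subgroup G, (∀ (F : Finset G) (L : ℕ), (F : Set G) ⊆ H →
    ∃ K N : Subgroup G, K ≤ H ∧ N ≤ H ∧ (∃ E : Finset G, (E : Set G) ⊆ K ∧ L ≤ E.card) ∧
      P N ∧ ∀ g ∈ F, ∀ k ∈ K, g * k * g⁻¹ ∈ N) → P H

/-- `H` is in the smallest class of subgroups of `G` with the closure properties of `TameClass` -/
def Tame (H : Subgroup G) : Prop := ∀ P : Subgroup G → Prop, TameClass P → P H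

/-- `G` acts faithfully and micro-supported on some non-empty Hausdorff space: for every non-empty
open set `U` some `g ≠ 1` fixes all points outside of `U`. -/
def MicroSupported (G : Type u) [Group G] : Prop :=
  ∃ (Ω : Type u) (_ : TopologicalSpace Ω) (_ : T2Space Ω) (_ : Nonempty Ω) (_ : MulAction G Ω),
    (∀ g : G, Continuous fun ω : Ω => g • ω) ∧ (∀ g : G, (∀ ω : Ω, g • ω = ω) → g = 1) ∧
    ∀ U : Set Ω, IsOpen U → U.Nonempty → ∃ g : G, g ≠ 1 ∧ ∀ ω : Ω, ω ∉ U → g • ω = ω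

end group

section dyn

variable {G : Type u} [Group G] {Y : Type v} [TopologicalSpace Y] [MulAction G Y]

/-- the action is free -/
def FreeAct (G : Type u) [Group G] (Y : Type v) [MulAction G Y] : Prop :=
  ∀ (g : G) (y : Y), g • y = y → g = 1

/-- the action is minimal: every orbit is dense -/
def MinAct (G : Type u) [Group G] (Y : Type v) [TopologicalSpace Y] [MulAction G Y] : Prop :=
  ∀ y : Y, Dense (Set.range fun g : G => g • y)

variable [ContinuousConstSMul G Y]

/-- translation by `g` -/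
def tr (g : G) : C(Y, Y) := ⟨fun y => g • y, continuous_const_smul g⟩

/-- `Λ` is an `H`-invariant state of `C(Y)` -/
structure InvState (H : Subgroup G) (Λ : C(Y, ℝ) →ₗ[ℝ] ℝ) : Prop where
  one : Λ 1 = 1
  nonneg : ∀ f : C(Y, ℝ), 0 ≤ f → 0 ≤ Λ f
  inv : ∀ h ∈ H, ∀ f : C(Y, ℝ), Λ (f.comp (tr h)) = Λ f

/-- a continuous `ℕ`-valued function as a real function -/
def toR (a : C(Y, ℕ)) : C(Y, ℝ) :=
  ⟨fun y => (a y : ℝ), continuous_of_discreteTopology.comp a.continuous⟩

/-- `a` is transported below `b` by elements of `H` -/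
def Sub (H : Subgroup G) (a b : C(Y, ℕ)) : Prop :=
  ∃ (n : ℕ) (t : Fin n → G) (c : Fin n → C(Y, ℕ)), (∀ i, t i ∈ H) ∧
    (∀ y, ∑ i, c i y = a y) ∧ ∀ y, ∑ i, c i ((t i)⁻¹ • y) ≤ b y

/-- comparison for the action of `H` on `Y` -/
def Comp (H : Subgroup G) (Y : Type v) [TopologicalSpace Y] [MulAction G Y]
    [ContinuousConstSMul G Y] : Prop :=
  ∀ a b : C(Y, ℕ), (∀ Λ : C(Y, ℝ) →ₗ[ℝ] ℝ, InvState H Λ → Λ (toR a) < Λ (toR b)) → Sub H a b

end dyn

section castle

variable {G : Type u} [Group G] {X : Type v} [TopologicalSpace X] [MulAction G X]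

/-- `R` is covered by open sets `U i` which come in `M` colours, and `g i` maps `U i` into `W`, the
images of the sets of one colour being disjoint -/
def MSub (G : Type u) [Group G] {X : Type v} [TopologicalSpace X] [MulAction G X] (M : ℕ)
    (R W : Set X) : Prop :=
  ∃ (n : ℕ) (c : Fin n → Fin M) (g : Fin n → G) (U : Fin n → Set X), (∀ i, IsOpen (U i)) ∧
    (∀ x ∈ R, ∃ i, x ∈ U i) ∧ (∀ i, ∀ x ∈ U i, g i • x ∈ W) ∧
    ∀ i j, i ≠ j → c i = c j → ∀ x ∈ U i, ∀ y ∈ U j, g i • x ≠ g j • y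

/-- the levels `s V_j`, `s ∈ S_j`, are pairwise disjoint -/
def Levels {m : ℕ} (S : Fin m → Finset G) (V : Fin m → Set X) : Prop :=
  ∀ j j' s s', s ∈ S j → s' ∈ S j' → ∀ x ∈ V j, ∀ x' ∈ V j', s • x = s' • x' → j = j' ∧ s = s'

/-- existence of castles with small remainder -/
def CastleProp (G : Type u) [Group G] (X : Type v) [TopologicalSpace X] [MulAction G X] (M : ℕ) :
    Prop :=
  ∀ W : Set X, IsOpen W → W.Nonempty → ∃ ρ : ℝ, 0 < ρ ∧
    ∀ (K : Finset G) (ε : ℝ), 0 < ε → ∀ (n : ℕ) (O : Fin n → Set X), (∀ i, IsOpen (O i)) →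
      (∀ x, ∃ i, x ∈ O i) →
      ∃ (m : ℕ) (S : Fin m → Finset G) (V C : Fin m → Set X),
        (∀ j, Fol K ε (S j)) ∧ (∀ j, IsOpen (V j)) ∧ (∀ j, IsClosed (C j)) ∧
        (∀ j, C j ⊆ V j) ∧ Levels S V ∧ (∀ j, ∀ s ∈ S j, ∃ i, ∀ x ∈ V j, s • x ∈ O i) ∧
        ∀ T : Fin m → Finset G, (∀ j, T j ⊆ S j ∧ (1 - ρ) * (S j).card ≤ (T j).card) →
          MSub G M {x | ∀ j, ∀ s ∈ T j, s⁻¹ • x ∉ interior (C j)}
            {x | x ∈ W ∧ ∃ j, ∃ s ∈ S j, s⁻¹ • x ∈ interior (C j)}

end castle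

end Pool.Agent.H107ZS
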