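import Pool.Agent.H107_ZS.CStubs2

/-!
# The reduced crossed product exists (`StEX`)
-/

set_option autoImplicit false

namespace Pool.Agent.H107ZS

open Topology Pool.Agent.H327R4.Pure
open scoped CStarAlgebra ComplexOrder

universe u v w

namespace TEX

section ops

variable {I : Type u}

/-- the Hilbert space with orthonormal basis `I` -/
abbrev L2 (I : Type u) : Type u := lp (fun _ : I => ℂ) 2

theorem memlp_aux (m : I → ℂ) (e : I ≃ I) (C : ℝ) (hC : ∀ i, ‖m i‖ ≤ C) (ξ : L2 I) :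
    Summable fun i => ‖m i * ξ (e i)‖ ^ (2 : ENNReal).toReal := by
  have h1 : Summable fun i => C ^ (2 : ENNReal).toReal * ‖ξ (e i)‖ ^ (2 : ENNReal).toReal := by
    refine Summable.mul_left _ ?_
    have h2 := (lp.memℓp ξ).summable (by norm_num)
    exact (Equiv.summable_iff e).2 h2
  refine Summable.of_nonneg_of_le (fun i => by positivity) (fun i => ?_) h1
  rw [norm_mul, Real.mul_rpow (norm_nonneg _) (norm_nonneg _)]
  refine mul_le_mul_of_nonneg_right ?_ (by positivity)
  exact Real.rpow_le_rpow (norm_nonneg _) (hC i) (by positivity)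

/-- weighted permutations of the coordinates -/
noncomputable def wpL (m : I → ℂ) (e : I ≃ I) (C : ℝ) (hC : ∀ i, ‖m i‖ ≤ C) :
    L2 I →ₗ[ℂ] L2 I where
  toFun ξ := ⟨fun i => m i * ξ (e i), memℓp_gen (memlp_aux m e C hC ξ)⟩
  map_add' ξ η := by
    ext i
    exact mul_add (m i) (ξ (e i)) (η (e i))
  map_smul' c ξ := by
    ext i
    simp only [lp.coeFn_smul, Pi.smul_apply, smul_eq_mul, RingHom.id_apply]
    ring

theorem wpL_apply (m : I → ℂ) (e : I ≃ I) (C : ℝ) (hC : ∀ i, ‖m i‖ ≤ C) (ξ : L2 I) (i : I) :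
    wpL m e C hC ξ i = m i * ξ (e i) := rfl

theorem wpL_bound (m : I → ℂ) (e : I ≃ I) (C : ℝ) (hC0 : 0 ≤ C) (hC : ∀ i, ‖m i‖ ≤ C)
    (ξ : L2 I) : ‖wpL m e C hC ξ‖ ≤ C * ‖ξ‖ := by
  have h0 : (0 : ℝ) < (2 : ENNReal).toReal := by norm_num
  refine lp.norm_le_of_tsum_le h0 (by positivity) ?_
  have h1 : ∑' i, ‖wpL m e C hC ξ i‖ ^ (2 : ENNReal).toReal ≤
      ∑' i, C ^ (2 : ENNReal).toReal * ‖ξ (e i)‖ ^ (2 : ENNReal).toReal := by
    refine Summable.tsum_le_tsum (fun i => ?_) (memlp_aux m e C hC ξ) ?_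
    · rw [wpL_apply, norm_mul, Real.mul_rpow (norm_nonneg _) (norm_nonneg _)]
      refine mul_le_mul_of_nonneg_right ?_ (by positivity)
      exact Real.rpow_le_rpow (norm_nonneg _) (hC i) (by positivity)
    · refine Summable.mul_left _ ?_
      have h2 := (lp.memℓp ξ).summable (by norm_num)
      exact (Equiv.summable_iff e).2 h2
  refine h1.trans ?_
  rw [tsum_mul_left, Equiv.tsum_eq e fun i => ‖ξ i‖ ^ (2 : ENNReal).toReal,
    ← lp.norm_rpow_eq_tsum h0 ξ, Real.mul_rpow hC0 (norm_nonneg _)]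

/-- weighted permutations of the coordinates, as bounded operators -/
noncomputable def wp (m : I → ℂ) (e : I ≃ I) (C : ℝ) (hC0 : 0 ≤ C) (hC : ∀ i, ‖m i‖ ≤ C) :
    L2 I →L[ℂ] L2 I :=
  (wpL m e C hC).mkContinuous C (wpL_bound m e C hC0 hC)

theorem wp_apply (m : I → ℂ) (e : I ≃ I) (C : ℝ) (hC0 : 0 ≤ C) (hC : ∀ i, ‖m i‖ ≤ C)
    (ξ : L2 I) (i : I) : wp m e C hC0 hC ξ i = m i * ξ (e i) := rfl

theorem op_ext {S T : L2 I →L[ℂ] L2 I} (h : ∀ ξ i, S ξ i = T ξ i) : S = T := by
  apply ContinuousLinearMap.ext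
  intro ξ
  apply lp.ext
  funext i
  exact h ξ i

theorem mul_ap (S T : L2 I →L[ℂ] L2 I) (ξ : L2 I) (i : I) : (S * T) ξ i = S (T ξ) i := rfl

theorem add_ap (S T : L2 I →L[ℂ] L2 I) (ξ : L2 I) (i : I) : (S + T) ξ i = S ξ i + T ξ i := rfl

theorem smul_ap (c : ℂ) (S : L2 I →L[ℂ] L2 I) (ξ : L2 I) (i : I) : (c • S) ξ i = c * S ξ i := rfl

theorem one_ap (ξ : L2 I) (i : I) : (1 : L2 I →L[ℂ] L2 I) ξ i = ξ i := rfl

theorem zero_ap (ξ : L2 I) (i : I) : (0 : L2 I →L[ℂ] L2 I) ξ i = 0 := rfl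

/-- the adjoint of a weighted permutation -/
theorem star_wp (m : I → ℂ) (e : I ≃ I) (C : ℝ) (hC0 : 0 ≤ C) (hC : ∀ i, ‖m i‖ ≤ C) :
    star (wp m e C hC0 hC) = wp (fun i => star (m (e.symm i))) e.symm C hC0
      (fun i => by rw [norm_star]; exact hC _) := by
  rw [ContinuousLinearMap.star_eq_adjoint]
  symm
  rw [ContinuousLinearMap.eq_adjoint_iff]
  intro ξ η
  rw [lp.inner_eq_tsum, lp.inner_eq_tsum]
  rw [← Equiv.tsum_eq e]
  refine tsum_congr fun i => ?_
  simp only [wp_apply, Equiv.symm_apply_apply, RCLike.inner_apply, map_mul, RCLike.star_def,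
    RCLike.conj_conj]
  ring

open Classical in
/-- the basis vectors -/
noncomputable def dl (i : I) : L2 I := lp.single 2 i (1 : ℂ)

theorem inner_dl (i : I) (ξ : L2 I) : inner ℂ (dl i) ξ = ξ i := by
  classical
  have h := lp.inner_single_left (𝕜 := ℂ) (G := fun _ : I => ℂ) i (1 : ℂ) ξ
  rw [dl]
  convert h using 1
  simp

open Classical in
theorem dl_apply (i j : I) : dl i j = if j = i then 1 else 0 := by
  rw [dl, lp.single_apply]
  by_cases h : j = i
  · subst h
    simp
  · simp [h]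

theorem norm_dl (i : I) : ‖dl i‖ = 1 := by
  classical
  have h := lp.norm_single (E := fun _ : I => ℂ) (p := 2) (by norm_num) i (1 : ℂ)
  rw [dl]
  simpa using h

theorem op_eq_zero {T : L2 I →L[ℂ] L2 I} (h : ∀ i, T (dl i) = 0) : T = 0 := by
  classical
  apply ContinuousLinearMap.ext
  intro ξ
  have h1 := lp.hasSum_single (E := fun _ : I => ℂ) (p := 2) (by norm_num) ξ
  have h2 := h1.map T T.continuous
  have h3 : (fun i => T (lp.single 2 i (ξ i))) = fun _ => 0 := by
    funext i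
    have h4 : lp.single 2 i (ξ i) = ξ i • dl i := by
      apply lp.ext
      funext j
      rw [lp.single_apply, lp.coeFn_smul, Pi.smul_apply, dl_apply]
      by_cases h : j = i
      · subst h
        simp
      · simp [h]
    rw [h4, map_smul, h, smul_zero]
  have h5 : HasSum (fun _ : I => (0 : L2 I)) (T ξ) := by
    rw [← h3]
    exact h2
  exact h5.unique hasSum_zero

end ops

section cross

variable (G : Type u) [Group G] (X : Type u) [TopologicalSpace X] [CompactSpace X]
  [MulAction G X] [ContinuousConstSMul G X]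

/-- multiplication operators -/
noncomputable def piR : C(X, ℂ) →⋆ₐ[ℂ] (L2 (G × X) →L[ℂ] L2 (G × X)) where
  toFun f := wp (fun p => f (p.1 • p.2)) (Equiv.refl _) ‖f‖ (norm_nonneg _)
    (fun p => f.norm_coe_le_norm _)
  map_one' := op_ext fun ξ i => by
    rw [wp_apply, one_ap]
    simp
  map_mul' f g := op_ext fun ξ i => by
    rw [wp_apply, mul_ap, wp_apply, wp_apply]
    simp only [ContinuousMap.mul_apply, Equiv.refl_apply]
    ring
  map_zero' := op_ext fun ξ i => by
    rw [wp_apply, zero_ap]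
    simp
  map_add' f g := op_ext fun ξ i => by
    rw [wp_apply, add_ap, wp_apply, wp_apply]
    simp only [ContinuousMap.add_apply, Equiv.refl_apply]
    ring
  commutes' c := op_ext fun ξ i => by
    rw [wp_apply, Algebra.algebraMap_eq_smul_one, Algebra.algebraMap_eq_smul_one, smul_ap, one_ap]
    simp
  map_star' f := by
    rw [star_wp]
    exact op_ext fun ξ i => by simp [wp_apply]

variable {G X}

theorem piR_apply (f : C(X, ℂ)) (ξ : L2 (G × X)) (p : G × X) :
    piR G X f ξ p = f (p.1 • p.2) * ξ p := rfl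

/-- left translation of the first coordinate -/
def lt (h : G) : G × X ≃ G × X where
  toFun p := (h⁻¹ * p.1, p.2)
  invFun p := (h * p.1, p.2)
  left_inv p := by simp
  right_inv p := by simp

/-- the permutation used for the commutant -/
def rt (h : G) : G × X ≃ G × X where
  toFun p := (p.1 * h, h⁻¹ • p.2)
  invFun p := (p.1 * h⁻¹, h • p.2)
  left_inv p := by simp
  right_inv p := by simp

/-- the unitaries of the group -/
noncomputable def UL (h : G) : L2 (G × X) →L[ℂ] L2 (G × X) :=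
  wp (fun _ => 1) (lt h) 1 zero_le_one (fun _ => by simp)

/-- the unitaries of the commutant -/
noncomputable def VR (h : G) : L2 (G × X) →L[ℂ] L2 (G × X) :=
  wp (fun _ => 1) (rt h) 1 zero_le_one (fun _ => by simp)

theorem UL_apply (h : G) (ξ : L2 (G × X)) (p : G × X) : UL h ξ p = ξ (h⁻¹ * p.1, p.2) := by
  rw [UL, wp_apply, one_mul]
  rfl

theorem VR_apply (h : G) (ξ : L2 (G × X)) (p : G × X) : VR h ξ p = ξ (p.1 * h, h⁻¹ • p.2) := by
  rw [VR, wp_apply, one_mul]
  rfl

theorem UL_one : UL (1 : G) = (1 : L2 (G × X) →L[ℂ] L2 (G × X)) :=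
  op_ext fun ξ p => by
    rw [UL_apply]
    simp

theorem UL_mul (g h : G) : UL (g * h) = (UL g * UL h : L2 (G × X) →L[ℂ] L2 (G × X)) :=
  op_ext fun ξ p => by
    rw [UL_apply, mul_ap, UL_apply, UL_apply]
    simp [mul_assoc]

theorem star_UL (g : G) : star (UL g : L2 (G × X) →L[ℂ] L2 (G × X)) = UL g⁻¹ := by
  rw [UL, star_wp]
  exact op_ext fun ξ p => by
    rw [UL_apply, wp_apply]
    simp [lt]

theorem UL_pi (g : G) (f : C(X, ℂ)) :
    (UL g * piR G X f : L2 (G × X) →L[ℂ] L2 (G × X)) = piR G X (f.comp (tr g⁻¹)) * UL g :=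
  op_ext fun ξ p => by
    rw [mul_ap, mul_ap, UL_apply, piR_apply,
      piR_apply, UL_apply]
    simp [tr, mul_smul]

theorem VR_pi (g : G) (f : C(X, ℂ)) :
    (VR g * piR G X f : L2 (G × X) →L[ℂ] L2 (G × X)) = piR G X f * VR g :=
  op_ext fun ξ p => by
    rw [mul_ap, mul_ap, VR_apply, piR_apply,
      piR_apply, VR_apply]
    simp [mul_smul]

theorem VR_UL (g h : G) :
    (VR g * UL h : L2 (G × X) →L[ℂ] L2 (G × X)) = UL h * VR g :=
  op_ext fun ξ p => by
    rw [mul_ap, mul_ap, VR_apply, UL_apply,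
      UL_apply, VR_apply]
    simp [mul_assoc]

theorem VR_dl (h : G) (x : X) : VR h⁻¹ (dl ((1 : G), h • x)) = dl (h, x) := by
  classical
  apply lp.ext
  funext p
  rw [VR_apply, dl_apply, dl_apply]
  have h1 : ((p.1 * h⁻¹, h⁻¹⁻¹ • p.2) = ((1 : G), h • x)) ↔ p = (h, x) := by
    rw [Prod.ext_iff, Prod.ext_iff]
    simp only [inv_inv]
    constructor
    · rintro ⟨h2, h3⟩
      exact ⟨by rw [mul_inv_eq_one] at h2; exact h2, smul_left_cancel h h3⟩
    · rintro ⟨h2, h3⟩
      rw [h2, h3]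
      simp
  by_cases hp : p = (h, x)
  · rw [if_pos (h1.2 hp), if_pos hp]
  · rw [if_neg (fun h2 => hp (h1.1 h2)), if_neg hp]

variable (G X)

/-- the monomials -/
def MM0 : Set (L2 (G × X) →L[ℂ] L2 (G × X)) := {T | ∃ f g, T = piR G X f * UL g}

variable {G X}

theorem MM0_mul {S T : L2 (G × X) →L[ℂ] L2 (G × X)} (hS : S ∈ MM0 G X) (hT : T ∈ MM0 G X) :
    S * T ∈ MM0 G X := by
  obtain ⟨f, g, rfl⟩ := hS
  obtain ⟨f', g', rfl⟩ := hT
  refine ⟨f * f'.comp (tr g⁻¹), g * g', ?_⟩
  rw [map_mul, UL_mul]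
  calc piR G X f * UL g * (piR G X f' * UL g') = piR G X f * (UL g * piR G X f') * UL g' := by
        noncomm_ring
    _ = _ := by rw [UL_pi]; noncomm_ring

theorem MM0_star {S : L2 (G × X) →L[ℂ] L2 (G × X)} (hS : S ∈ MM0 G X) : star S ∈ MM0 G X := by
  obtain ⟨f, g, rfl⟩ := hS
  refine ⟨(star f).comp (tr g⁻¹⁻¹), g⁻¹, ?_⟩
  rw [star_mul, star_UL, ← map_star, UL_pi]

theorem MM0_one : (1 : L2 (G × X) →L[ℂ] L2 (G × X)) ∈ MM0 G X :=
  ⟨1, 1, by rw [map_one, UL_one, one_mul]⟩

variable (G X)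

/-- the span of the monomials is a star algebra -/
noncomputable def S0 : StarSubalgebra ℂ (L2 (G × X) →L[ℂ] L2 (G × X)) where
  carrier := Submodule.span ℂ (MM0 G X)
  mul_mem' := by
    intro a b ha hb
    have h1 : a * b ∈ Submodule.span ℂ (MM0 G X) * Submodule.span ℂ (MM0 G X) :=
      Submodule.mul_mem_mul ha hb
    rw [Submodule.span_mul_span] at h1
    refine Submodule.span_mono ?_ h1
    rintro _ ⟨s, hs, t, ht, rfl⟩
    exact MM0_mul hs ht
  add_mem' := fun ha hb => Submodule.add_mem _ ha hb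
  algebraMap_mem' := by
    intro c
    rw [Algebra.algebraMap_eq_smul_one]
    exact Submodule.smul_mem _ c (Submodule.subset_span MM0_one)
  star_mem' := by
    intro a ha
    have ha' : a ∈ Submodule.span ℂ (MM0 G X) := ha
    change star a ∈ Submodule.span ℂ (MM0 G X)
    induction ha' using Submodule.span_induction with
    | mem x hx => exact Submodule.subset_span (MM0_star hx)
    | zero =>
      rw [star_zero]
      exact Submodule.zero_mem _
    | add x y _ _ hx hy =>
      rw [star_add]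
      exact Submodule.add_mem _ (hx (by assumption)) (hy (by assumption))
    | smul c x _ hx =>
      rw [star_smul]
      exact Submodule.smul_mem _ _ (hx (by assumption))

/-- the crossed product -/
noncomputable def CA : StarSubalgebra ℂ (L2 (G × X) →L[ℂ] L2 (G × X)) :=
  (S0 G X).topologicalClosure

instance : IsClosed (CA G X : Set (L2 (G × X) →L[ℂ] L2 (G × X))) :=
  StarSubalgebra.isClosed_topologicalClosure _

variable {G X}

theorem mem_S0 {a : L2 (G × X) →L[ℂ] L2 (G × X)} : a ∈ S0 G X ↔ a ∈ Submodule.span ℂ (MM0 G X) :=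
  Iff.rfl

theorem mem_CA {a : L2 (G × X) →L[ℂ] L2 (G × X)} :
    a ∈ CA G X ↔ a ∈ closure (S0 G X : Set (L2 (G × X) →L[ℂ] L2 (G × X))) :=
  Iff.rfl

theorem MM0_CA {a : L2 (G × X) →L[ℂ] L2 (G × X)} (ha : a ∈ MM0 G X) : a ∈ CA G X :=
  StarSubalgebra.le_topologicalClosure _ (Submodule.subset_span ha)

theorem pi_CA (f : C(X, ℂ)) : piR G X f ∈ CA G X :=
  MM0_CA ⟨f, 1, by rw [UL_one, mul_one]⟩

theorem UL_CA (g : G) : (UL g : L2 (G × X) →L[ℂ] L2 (G × X)) ∈ CA G X :=
  MM0_CA ⟨1, g, by rw [map_one, one_mul]⟩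

/-- elements of `CA` commute with the operators `VR h` -/
theorem VR_comm (h : G) {a : L2 (G × X) →L[ℂ] L2 (G × X)} (ha : a ∈ CA G X) :
    VR h * a = a * VR h := by
  have hcl : IsClosed {b : L2 (G × X) →L[ℂ] L2 (G × X) | VR h * b = b * VR h} :=
    isClosed_eq (continuous_const.mul continuous_id) (continuous_id.mul continuous_const)
  refine closure_minimal (fun b hb => ?_) hcl ha
  have hb' : b ∈ Submodule.span ℂ (MM0 G X) := hb
  change VR h * b = b * VR h
  induction hb' using Submodule.span_induction with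
  | mem x hx =>
    obtain ⟨f, g, rfl⟩ := hx
    rw [← mul_assoc, VR_pi, mul_assoc, VR_UL, mul_assoc]
  | zero => simp
  | add x y _ _ hx hy => rw [mul_add, add_mul, hx (by assumption), hy (by assumption)]
  | smul c x _ hx => rw [mul_smul_comm, smul_mul_assoc, hx (by assumption)]

/-- the matrix coefficients -/
noncomputable def E0 (a : L2 (G × X) →L[ℂ] L2 (G × X)) (x : X) : ℂ :=
  inner ℂ (dl ((1 : G), x)) (a (dl ((1 : G), x)))

theorem E0_eq (a : L2 (G × X) →L[ℂ] L2 (G × X)) (x : X) :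
    E0 a x = a (dl ((1 : G), x)) ((1 : G), x) := inner_dl _ _

theorem norm_E0_le (a : L2 (G × X) →L[ℂ] L2 (G × X)) (x : X) : ‖E0 a x‖ ≤ ‖a‖ := by
  refine (norm_inner_le_norm _ _).trans ?_
  rw [norm_dl, one_mul]
  have := a.le_opNorm (dl ((1 : G), x))
  rwa [norm_dl, mul_one] at this

theorem E0_add (a b : L2 (G × X) →L[ℂ] L2 (G × X)) (x : X) : E0 (a + b) x = E0 a x + E0 b x := by
  rw [E0, E0, E0, add_apply, inner_add_right]

theorem E0_smul (c : ℂ) (a : L2 (G × X) →L[ℂ] L2 (G × X)) (x : X) :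
    E0 (c • a) x = c * E0 a x := by
  rw [E0, E0, smul_apply, inner_smul_right]

open Classical in
theorem E0_mon (f : C(X, ℂ)) (g : G) (x : X) :
    E0 (piR G X f * UL g) x = if g = 1 then f x else 0 := by
  rw [E0_eq, mul_ap, piR_apply, UL_apply, dl_apply]
  by_cases h : g = 1
  · subst h
    simp
  · rw [if_neg h, if_neg, mul_zero]
    intro h1
    rw [Prod.ext_iff] at h1
    apply h
    have h2 : g⁻¹ * 1 = 1 := h1.1
    rw [mul_one] at h2
    exact inv_eq_one.1 h2

theorem E0_cont_S0 {a : L2 (G × X) →L[ℂ] L2 (G × X)} (ha : a ∈ S0 G X) : Continuous (E0 a) := by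
  classical
  have ha' : a ∈ Submodule.span ℂ (MM0 G X) := ha
  induction ha' using Submodule.span_induction with
  | mem x hx =>
    obtain ⟨f, g, rfl⟩ := hx
    have h1 : E0 (piR G X f * UL g) = fun x => if g = 1 then f x else 0 := by
      funext x
      exact E0_mon f g x
    rw [h1]
    by_cases h : g = 1
    · simp only [h, if_true]
      exact f.continuous
    · simp only [h, if_false]
      exact continuous_const
  | zero =>
    have h1 : E0 (0 : L2 (G × X) →L[ℂ] L2 (G × X)) = fun _ => 0 := by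
      funext x
      simp [E0]
    rw [h1]
    exact continuous_const
  | add x y _ _ hx hy =>
    have h1 : E0 (x + y) = fun z => E0 x z + E0 y z := by
      funext z
      exact E0_add x y z
    rw [h1]
    exact (hx (by assumption)).add (hy (by assumption))
  | smul c x _ hx =>
    have h1 : E0 (c • x) = fun z => c * E0 x z := by
      funext z
      exact E0_smul c x z
    rw [h1]
    exact continuous_const.mul (hx (by assumption))

theorem E0_cont {a : L2 (G × X) →L[ℂ] L2 (G × X)} (ha : a ∈ CA G X) : Continuous (E0 a) := by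
  refine continuous_of_uniform_approx_of_continuous fun U hU => ?_
  obtain ⟨ε, hε, hεU⟩ := Metric.mem_uniformity_dist.1 hU
  obtain ⟨b, hb, hab⟩ := Metric.mem_closure_iff.1 ha ε hε
  refine ⟨E0 b, E0_cont_S0 hb, fun x => hεU ?_⟩
  rw [dist_eq_norm]
  have h1 : E0 a x - E0 b x = E0 (a - b) x := by
    have h2 := E0_add (a - b) b x
    rw [sub_add_cancel] at h2
    rw [h2]
    ring
  rw [h1]
  refine lt_of_le_of_lt (norm_E0_le _ _) ?_
  rwa [← dist_eq_norm]

variable (G X)

/-- the conditional expectation -/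
noncomputable def EE : CA G X →L[ℂ] C(X, ℂ) :=
  LinearMap.mkContinuous
    { toFun := fun a => ⟨E0 (a : L2 (G × X) →L[ℂ] L2 (G × X)), E0_cont a.2⟩
      map_add' := fun a b => by
        ext x
        exact E0_add _ _ _
      map_smul' := fun c a => by
        ext x
        exact E0_smul _ _ _ } 1 (fun a => by
      rw [one_mul]
      rw [ContinuousMap.norm_le _ (norm_nonneg _)]
      intro x
      exact norm_E0_le _ _)

/-- the representation of `C(X)` -/
noncomputable def iR : C(X, ℂ) →⋆ₐ[ℂ] CA G X := (piR G X).codRestrict (CA G X) pi_CA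

/-- the representation of `G` -/
noncomputable def uR : G →* unitary (CA G X) where
  toFun g := ⟨⟨UL g, UL_CA g⟩, by
    rw [Unitary.mem_iff]
    constructor
    · apply Subtype.ext
      change star (UL g) * UL g = 1
      rw [star_UL, ← UL_mul, inv_mul_cancel, UL_one]
    · apply Subtype.ext
      change UL g * star (UL g) = 1
      rw [star_UL, ← UL_mul, mul_inv_cancel, UL_one]⟩
  map_one' := by
    apply Subtype.ext
    apply Subtype.ext
    exact UL_one
  map_mul' g h := by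
    apply Subtype.ext
    apply Subtype.ext
    exact UL_mul g h

variable {G X}

theorem EE_apply (a : CA G X) (x : X) : EE G X a x = E0 (a : L2 (G × X) →L[ℂ] L2 (G × X)) x := rfl

theorem E0_star_mul (a : L2 (G × X) →L[ℂ] L2 (G × X)) (x : X) :
    E0 (star a * a) x = ((‖a (dl ((1 : G), x))‖ ^ 2 : ℝ) : ℂ) := by
  have h1 : (star a * a) (dl ((1 : G), x)) =
      ContinuousLinearMap.adjoint a (a (dl ((1 : G), x))) := rfl
  rw [E0, h1, ContinuousLinearMap.adjoint_inner_right, inner_self_eq_norm_sq_to_K]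
  simp

/-- the sums are dense -/
theorem mem_sum {a : L2 (G × X) →L[ℂ] L2 (G × X)} (ha : a ∈ S0 G X) :
    ∃ c : G →₀ C(X, ℂ), a = c.sum fun g f => piR G X f * UL g := by
  classical
  have ha' : a ∈ Submodule.span ℂ (MM0 G X) := ha
  induction ha' using Submodule.span_induction with
  | mem x hx =>
    obtain ⟨f, g, rfl⟩ := hx
    refine ⟨Finsupp.single g f, ?_⟩
    rw [Finsupp.sum_single_index]
    rw [map_zero, zero_mul]
  | zero => exact ⟨0, by simp⟩
  | add x y _ _ hx hy =>
    obtain ⟨c, hc⟩ := hx (by assumption)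
    obtain ⟨c', hc'⟩ := hy (by assumption)
    refine ⟨c + c', ?_⟩
    rw [Finsupp.sum_add_index', ← hc, ← hc']
    · intro g
      rw [map_zero, zero_mul]
    · intro g f f'
      rw [map_add, add_mul]
  | smul r x _ hx =>
    obtain ⟨c, hc⟩ := hx (by assumption)
    refine ⟨r • c, ?_⟩
    rw [Finsupp.sum_smul_index', hc, Finsupp.smul_sum]
    · refine Finsupp.sum_congr fun g _ => ?_
      rw [map_smul, smul_mul_assoc]
    · intro g
      rw [map_zero, zero_mul]

theorem EE_star_mul (a : CA G X) (x : X) :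
    EE G X (star a * a) x =
      ((‖(a : L2 (G × X) →L[ℂ] L2 (G × X)) (dl ((1 : G), x))‖ ^ 2 : ℝ) : ℂ) := by
  rw [← E0_star_mul]
  rfl

theorem EE_one (f : C(X, ℂ)) : EE G X (iR G X f) = f := by
  classical
  ext x
  have h1 := E0_mon f (1 : G) x
  rw [UL_one, mul_one, if_pos rfl] at h1
  exact h1

theorem EE_ne (g : G) (f : C(X, ℂ)) (hg : g ≠ 1) :
    EE G X (iR G X f * (uR G X g : CA G X)) = 0 := by
  classical
  ext x
  have h1 := E0_mon f g x
  rw [if_neg hg] at h1
  exact h1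

theorem cov_CA (g : G) (f : C(X, ℂ)) :
    (uR G X g : CA G X) * iR G X f * star (uR G X g : CA G X) = iR G X (f.comp (tr g⁻¹)) := by
  apply Subtype.ext
  have h1 : UL g * piR G X f * star (UL g) = piR G X (f.comp (tr g⁻¹)) := by
    rw [UL_pi, star_UL, mul_assoc, ← UL_mul, mul_inv_cancel, UL_one, mul_one]
  exact h1

theorem dense_CA : DenseRange fun c : G →₀ C(X, ℂ) =>
    c.sum fun g f => iR G X f * (uR G X g : CA G X) := by
  intro a
  rw [closure_subtype]
  refine closure_mono ?_ a.2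
  intro b hb
  obtain ⟨c, hc⟩ := mem_sum hb
  refine ⟨⟨b, StarSubalgebra.le_topologicalClosure _ hb⟩, ⟨c, ?_⟩, rfl⟩
  apply Subtype.ext
  change ((c.sum fun g f => iR G X f * (uR G X g : CA G X) : CA G X) :
    L2 (G × X) →L[ℂ] L2 (G × X)) = b
  rw [hc, Finsupp.sum, Finsupp.sum, AddSubmonoidClass.coe_finsetSum]
  rfl

theorem faithful_CA (a : CA G X) (ha : EE G X (star a * a) = 0) : a = 0 := by
  apply Subtype.ext
  change (a : L2 (G × X) →L[ℂ] L2 (G × X)) = 0
  have h1 : ∀ x : X, (a : L2 (G × X) →L[ℂ] L2 (G × X)) (dl ((1 : G), x)) = 0 := by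
    intro x
    have h3 := EE_star_mul a x
    rw [ha, ContinuousMap.zero_apply] at h3
    have h4 : ‖(a : L2 (G × X) →L[ℂ] L2 (G × X)) (dl ((1 : G), x))‖ ^ 2 = 0 :=
      Complex.ofReal_eq_zero.1 h3.symm
    exact norm_eq_zero.1 ((pow_eq_zero_iff two_ne_zero).1 h4)
  apply op_eq_zero
  rintro ⟨g, x⟩
  rw [← VR_dl g x]
  have h2 : (a : L2 (G × X) →L[ℂ] L2 (G × X)) (VR g⁻¹ (dl ((1 : G), g • x))) =
      VR g⁻¹ ((a : L2 (G × X) →L[ℂ] L2 (G × X)) (dl ((1 : G), g • x))) := by
    have h5 := VR_comm g⁻¹ a.2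
    exact (congrArg (fun T : L2 (G × X) →L[ℂ] L2 (G × X) => T (dl ((1 : G), g • x))) h5).symm
  rw [h2, h1, map_zero]

end cross

end TEX

open TEX in
/-- the reduced crossed product exists -/
theorem t_EX : StEX.{u} := by
  intro G _ X _ _ _ _ _
  refine ⟨CA G X, inferInstance, iR G X, uR G X, EE G X, ?_⟩
  refine ⟨cov_CA, dense_CA, EE_one, EE_ne, ?_, faithful_CA⟩
  intro a x
  rw [EE_star_mul]
  exact Complex.zero_le_real.2 (sq_nonneg _)

end Pool.Agent.H107ZS
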