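import Pool.Agent.H107_ZS.TTS

/-!
# Matrices over a crossed product (StMC)
-/

set_option autoImplicit false
set_option linter.unusedSectionVars false

namespace Pool.Agent.H107ZS

open Topology Pool.Agent.H327R4.Pure
open scoped CStarAlgebra ComplexOrder

universe u v w

section

variable {A : Type u} [CStarAlgebra A] [PartialOrder A] [StarOrderedRing A] {n : ℕ}

/-- diagonal matrices, as a homomorphism -/
noncomputable def Dg (n : ℕ) (A : Type u) [CStarAlgebra A] [PartialOrder A] [StarOrderedRing A] :
    A →⋆ₐ[ℂ] MM n A where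
  toFun a := CStarMatrix.ofMatrix (Matrix.diagonal fun _ => a)
  map_one' := Matrix.diagonal_one
  map_mul' a b := (Matrix.diagonal_mul_diagonal (fun _ : Fin n => a) (fun _ => b)).symm
  map_zero' := Matrix.diagonal_zero
  map_add' a b := (Matrix.diagonal_add (fun _ : Fin n => a) (fun _ => b)).symm
  commutes' r := by
    refine CStarMatrix.ext fun i j => ?_
    rw [CStarMatrix.algebraMap_apply]
    show (Matrix.diagonal fun _ => algebraMap ℂ A r) i j = _
    rw [Matrix.diagonal_apply]
  map_star' a := by
    refine CStarMatrix.ext fun i j => ?_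
    show (Matrix.diagonal fun _ => star a) i j = star ((Matrix.diagonal fun _ => a) j i)
    rw [Matrix.diagonal_apply, Matrix.diagonal_apply]
    by_cases h : i = j
    · subst h; simp
    · rw [if_neg h, if_neg (Ne.symm h), star_zero]

theorem Dg_apply (a : A) (i j : Fin n) : Dg n A a i j = if i = j then a else 0 :=
  Matrix.diagonal_apply _ _ _

theorem Dg_mul_apply (a : A) (M : MM n A) (i j : Fin n) : (Dg n A a * M) i j = a * M i j := by
  rw [CStarMatrix.mul_apply, Finset.sum_eq_single i]
  · rw [Dg_apply, if_pos rfl]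
  · intro k _ hk; rw [Dg_apply, if_neg (Ne.symm hk), zero_mul]
  · intro hi; exact absurd (Finset.mem_univ _) hi

theorem mul_Dg_apply (a : A) (M : MM n A) (i j : Fin n) : (M * Dg n A a) i j = M i j * a := by
  rw [CStarMatrix.mul_apply, Finset.sum_eq_single j]
  · rw [Dg_apply, if_pos rfl]
  · intro k _ hk; rw [Dg_apply, if_neg hk, mul_zero]
  · intro hi; exact absurd (Finset.mem_univ _) hi

/-- matrix units -/
noncomputable def eu (n : ℕ) (A : Type u) [CStarAlgebra A] [PartialOrder A] [StarOrderedRing A]
    (k l : Fin n) : MM n A := CStarMatrix.ofMatrix fun i j => if i = k ∧ j = l then 1 else 0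

theorem eu_apply (k l i j : Fin n) : eu n A k l i j = if i = k ∧ j = l then 1 else 0 := rfl

theorem eu_mul (i j k l : Fin n) : eu n A i j * eu n A k l = if j = k then eu n A i l else 0 := by
  refine CStarMatrix.ext fun a b => ?_
  rw [CStarMatrix.mul_apply]
  simp only [eu_apply]
  by_cases hjk : j = k
  · subst hjk
    rw [if_pos rfl, Finset.sum_eq_single j, eu_apply]
    · by_cases h1 : a = i <;> by_cases h2 : b = l <;> simp [h1, h2]
    · intro c _ hc; simp [hc]
    · intro hj; exact absurd (Finset.mem_univ _) hj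
  · rw [if_neg hjk]
    refine Finset.sum_eq_zero fun c _ => ?_
    by_cases h1 : c = j
    · subst h1
      rw [if_neg (fun hh : c = k ∧ b = l => hjk hh.1), mul_zero]
    · rw [if_neg (fun hh : a = i ∧ c = j => h1 hh.2), zero_mul]

theorem eu_star (i j : Fin n) : star (eu n A i j) = eu n A j i := by
  refine CStarMatrix.ext fun a b => ?_
  rw [CStarMatrix.star_apply, eu_apply, eu_apply]
  by_cases h : b = i ∧ a = j
  · rw [if_pos h, if_pos ⟨h.2, h.1⟩, star_one]
  · rw [if_neg h, if_neg (fun hh => h ⟨hh.2, hh.1⟩), star_zero]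

theorem eu_sum : ∑ i, eu n A i i = 1 := by
  refine CStarMatrix.ext fun a b => ?_
  have h1 : (∑ i, eu n A i i) a b = ∑ i, eu n A i i a b := by
    exact Matrix.sum_apply a b Finset.univ (fun i => (eu n A i i : Matrix (Fin n) (Fin n) A))
  rw [h1, CStarMatrix.one_apply]
  simp only [eu_apply]
  by_cases h : a = b
  · subst h; rw [if_pos rfl, Finset.sum_eq_single a]
    · simp
    · intro c _ hc; simp [Ne.symm hc]
    · intro ha; exact absurd (Finset.mem_univ _) ha
  · rw [if_neg h]
    refine Finset.sum_eq_zero fun c _ => if_neg fun hh => h (hh.1.trans hh.2.symm)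

theorem eu_comm (i j : Fin n) (a : A) : eu n A i j * Dg n A a = Dg n A a * eu n A i j := by
  refine CStarMatrix.ext fun k l => ?_
  rw [mul_Dg_apply, Dg_mul_apply, eu_apply]
  split_ifs <;> simp

theorem sum_apply' {κ : Type*} (s : Finset κ) (F : κ → MM n A) (i j : Fin n) :
    (∑ k ∈ s, F k) i j = ∑ k ∈ s, F k i j :=
  Matrix.sum_apply i j s (fun k => (F k : Matrix (Fin n) (Fin n) A))

theorem matrix_eq_sum (M : MM n A) : M = ∑ k, ∑ l, Dg n A (M k l) * eu n A k l := by
  refine CStarMatrix.ext fun i j => ?_
  rw [sum_apply', Finset.sum_eq_single i, sum_apply', Finset.sum_eq_single j]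
  · rw [Dg_mul_apply, eu_apply, if_pos ⟨rfl, rfl⟩, mul_one]
  · intro l _ hl; rw [Dg_mul_apply, eu_apply, if_neg (fun hh => hl hh.2.symm), mul_zero]
  · intro hj; exact absurd (Finset.mem_univ _) hj
  · intro k _ hk
    rw [sum_apply']
    refine Finset.sum_eq_zero fun l _ => ?_
    rw [Dg_mul_apply, eu_apply, if_neg (fun hh => hk hh.1.symm), mul_zero]
  · intro hi; exact absurd (Finset.mem_univ _) hi

/-- the entries, as continuous linear maps -/
noncomputable def entry (k l : Fin n) : MM n A →L[ℂ] A :=
  LinearMap.mkContinuous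
    ({ toFun := fun M => M k l
       map_add' := fun _ _ => rfl
       map_smul' := fun _ _ => rfl } : MM n A →ₗ[ℂ] A) 1 fun M => by
    rw [one_mul]
    exact CStarMatrix.norm_entry_le_norm (M := M) (i := k) (j := l)

theorem entry_apply (k l : Fin n) (M : MM n A) : (entry k l : MM n A →L[ℂ] A) M = M k l := rfl

end

/-- MC: matrices over a crossed product -/
theorem t_MC : StMC.{u} := by
  intro G _ X _ _ _ _ A _ _ _ ι u E n hn h
  classical
  let u' : G →* unitary (MM n A) :=
    { toFun := fun g => ⟨Dg n A (u g : A), by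
        rw [Unitary.mem_iff]
        rw [← map_star, ← map_mul, ← map_mul, u_star_mul, u_mul_star, map_one]
        exact ⟨rfl, rfl⟩⟩
      map_one' := by
        apply Subtype.ext
        show Dg n A (u 1 : A) = 1
        rw [u_coe_one, map_one]
      map_mul' := fun g g' => by
        apply Subtype.ext
        show Dg n A (u (g * g') : A) = Dg n A (u g : A) * Dg n A (u g' : A)
        rw [u_coe_mul, map_mul] }
  have hu' : ∀ g, (u' g : MM n A) = Dg n A (u g : A) := fun g => rfl
  let ι' : C(X, ℂ) →⋆ₐ[ℂ] MM n A := (Dg n A).comp ι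
  have hι' : ∀ f, ι' f = Dg n A (ι f) := fun f => rfl
  refine ⟨ι', u', eu n A, fun k l => E.comp (entry k l), ?_, fun k l M => rfl⟩
  refine
    { cov := fun g f => ?_
      e_mul := eu_mul
      e_star := eu_star
      e_sum := eu_sum
      e_comm := fun i j f => eu_comm i j _
      e_commu := fun i j g => eu_comm i j _
      dense := ?_
      coeff := fun i j f => ?_
      coeff_ne := fun i j k l g f hne => ?_
      pos := fun i b x => ?_ }
  · rw [hu', hι', hι', ← map_star, ← map_mul, ← map_mul, h.cov]
  · -- density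
    let F : (Fin n × Fin n × G →₀ C(X, ℂ)) → MM n A := fun c =>
      c.sum fun p f => ι' f * eu n A p.1 p.2.1 * (u' p.2.2 : MM n A)
    have hFadd : ∀ c c', F (c + c') = F c + F c' := by
      intro c c'
      refine Finsupp.sum_add_index' (fun p => ?_) (fun p b₁ b₂ => ?_)
      · rw [map_zero, zero_mul, zero_mul]
      · rw [map_add, add_mul, add_mul]
    have hF0 : F 0 = 0 := Finsupp.sum_zero_index
    let R : AddSubmonoid (MM n A) :=
      { carrier := Set.range F
        zero_mem' := ⟨0, hF0⟩
        add_mem' := by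
          rintro _ _ ⟨c, rfl⟩ ⟨c', rfl⟩
          exact ⟨c + c', hFadd c c'⟩ }
    have hcl : ∀ (k l : Fin n) (a : A), Dg n A a * eu n A k l ∈ closure (Set.range F) := by
      intro k l a
      have hcont : Continuous fun a : A => Dg n A a * eu n A k l := by
        have h1 : Continuous (Dg n A) := by
          exact AddMonoidHomClass.continuous_of_bound (Dg n A) 1 fun a => by
            rw [one_mul]; exact NonUnitalStarAlgHom.norm_apply_le (Dg n A) a
        exact h1.mul continuous_const
      refine h.induction (p := fun a => Dg n A a * eu n A k l ∈ closure (Set.range F)) ?_ ?_ ?_ ?_ a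
      · rw [map_zero, zero_mul]
        exact subset_closure ⟨0, hF0⟩
      · intro a b ha hb
        rw [map_add, add_mul]
        exact R.topologicalClosure.add_mem ha hb
      · intro f g
        refine subset_closure ⟨Finsupp.single (k, l, g) f, ?_⟩
        show (Finsupp.single (k, l, g) f).sum (fun p f => ι' f * eu n A p.1 p.2.1 *
          (u' p.2.2 : MM n A)) = _
        rw [Finsupp.sum_single_index (by rw [map_zero, zero_mul, zero_mul])]
        show Dg n A (ι f) * eu n A k l * Dg n A (u g : A) = Dg n A (ι f * (u g : A)) * eu n A k l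
        rw [mul_assoc, eu_comm, ← mul_assoc, map_mul]
      · exact isClosed_closure.preimage hcont
    intro M
    show M ∈ closure (Set.range F)
    rw [matrix_eq_sum M]
    exact R.topologicalClosure.sum_mem fun k _ => R.topologicalClosure.sum_mem
      fun l _ => hcl k l (M k l)
  · show E ((Dg n A (ι f) * eu n A i j) i j) = f
    rw [Dg_mul_apply, eu_apply, if_pos ⟨rfl, rfl⟩, mul_one, h.coeff_one]
  · show E ((Dg n A (ι f) * eu n A k l * Dg n A (u g : A)) i j) = 0
    rw [mul_Dg_apply, Dg_mul_apply, eu_apply]
    by_cases hc : i = k ∧ j = l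
    · rw [if_pos hc, mul_one]
      exact h.coeff_ne g f fun hg => hne ⟨hc.1, hc.2, hg⟩
    · rw [if_neg hc, mul_zero, zero_mul, map_zero]
  · show 0 ≤ E ((star b * b) i i) x
    rw [CStarMatrix.mul_apply, map_sum, ContinuousMap.sum_apply]
    refine Finset.sum_nonneg fun k _ => ?_
    rw [CStarMatrix.star_apply]
    exact h.pos (b k i) x

end Pool.Agent.H107ZS
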