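import Pool.Agent.H107_ZS.CStubs3
import Pool.Agent.V1215.NI.MD
import Pool.Agent.W661.Nrm15

/-!
# NU1: completely positive maps through matrix algebras
-/

set_option autoImplicit false

namespace Pool.Agent.H107ZS

open Topology Pool.Agent.H327R4.Pure
open scoped CStarAlgebra ComplexOrder

universe u v w

namespace TNU1

open Pool.Agent.W661.Nrm

section general

variable {A : Type u} [CStarAlgebra A] [PartialOrder A] [StarOrderedRing A]
  {B : Type v} [CStarAlgebra B] [PartialOrder B] [StarOrderedRing B]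

set_option backward.isDefEq.respectTransparency false in
/-- a criterion for complete positivity -/
lemma cp_of (K : A →ₗ[ℂ] B) (hs : ∀ a, K (star a) = star (K a))
    (h : ∀ (l : ℕ) (c : Fin l → A) (z : Fin l → B),
      0 ≤ ∑ a, ∑ b, star (z a) * K (star (c a) * c b) * z b)
    (k : ℕ) (M : CStarMatrix (Fin k) (Fin k) A) (hM : 0 ≤ M) : 0 ≤ M.map K := by
  refine nonneg_of_bil _ ?_ ?_
  · have h1 : star M = M := (IsSelfAdjoint.of_nonneg hM).star_eq
    show star (M.map K) = M.map K
    ext i j
    rw [CStarMatrix.star_apply, CStarMatrix.map_apply, CStarMatrix.map_apply, ← hs]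
    conv_rhs => rw [← h1]
    rw [CStarMatrix.star_apply]
  · intro z
    obtain ⟨N, rfl⟩ := (CStarAlgebra.nonneg_iff_eq_star_mul_self).1 hM
    have : bil ((star N * N).map K) z z =
        ∑ r, ∑ a, ∑ b, star (z a) * K (star (N r a) * N r b) * z b := by
      unfold bil
      rw [Finset.sum_comm (f := fun r a => ∑ b, star (z a) * K (star (N r a) * N r b) * z b)]
      refine Finset.sum_congr rfl fun a _ => ?_
      rw [Finset.sum_comm]
      refine Finset.sum_congr rfl fun b _ => ?_
      simp only [CStarMatrix.map_apply, CStarMatrix.mul_apply, CStarMatrix.star_apply, map_sum,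
        Finset.mul_sum, Finset.sum_mul]
    rw [this]
    exact Finset.sum_nonneg fun r _ => h k (fun a => N r a) z

open Matrix in
lemma mat_id {k : ℕ} (Z K Z' : Matrix (Fin k) (Fin k) ℂ) (w : Fin k → ℂ) :
    ∑ p, ∑ q, star (w p) * (Zᴴ * K * Z') p q * w q =
      ∑ p, ∑ q, star ((Z *ᵥ w) p) * K p q * (Z' *ᵥ w) q := by
  have e1 : ∀ (M : Matrix (Fin k) (Fin k) ℂ) (v v' : Fin k → ℂ),
      ∑ p, ∑ q, star (v p) * M p q * v' q = star v ⬝ᵥ (M *ᵥ v') := by
    intro M v v'
    simp [dotProduct, mulVec, Finset.mul_sum, mul_assoc]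
  rw [e1, e1, star_mulVec, ← dotProduct_mulVec, mulVec_mulVec, mulVec_mulVec]

lemma csum_apply {α : Type*} {k : ℕ} (s : Finset α) (f : α → CStarMatrix (Fin k) (Fin k) ℂ)
    (p q : Fin k) : (∑ a ∈ s, f a) p q = ∑ a ∈ s, f a p q := by
  classical
  induction s using Finset.induction_on with
  | empty => simp
  | insert a s ha ih => rw [Finset.sum_insert ha, Finset.sum_insert ha, CStarMatrix.add_apply, ih]

set_option backward.isDefEq.respectTransparency false in
/-- a criterion for complete positivity of maps into matrices -/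
lemma cp_of_mat {k : ℕ} (K : A →ₗ[ℂ] CStarMatrix (Fin k) (Fin k) ℂ)
    (hs : ∀ a, K (star a) = star (K a))
    (h : ∀ (l : ℕ) (c : Fin l → A) (ξ : Fin l → Fin k → ℂ),
      0 ≤ ∑ a, ∑ b, ∑ p, ∑ q, star (ξ a p) * K (star (c a) * c b) p q * ξ b q)
    (n : ℕ) (M : CStarMatrix (Fin n) (Fin n) A) (hM : 0 ≤ M) : 0 ≤ M.map K := by
  refine cp_of K hs (fun l c z => ?_) n M hM
  refine nonneg_of_bil _ ?_ ?_
  · show star _ = _
    rw [star_sum, Finset.sum_comm]
    refine Finset.sum_congr rfl fun a _ => ?_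
    rw [star_sum]
    refine Finset.sum_congr rfl fun b _ => ?_
    rw [star_mul, star_mul, star_star, ← hs, star_mul, star_star, mul_assoc]
  · intro w
    have h1 := h l c (fun a => Matrix.mulVec (CStarMatrix.ofMatrix.symm (z a)) w)
    refine h1.trans_eq ?_
    unfold bil
    have h2 : ∀ p q : Fin k, (∑ a, ∑ b, star (z a) * K (star (c a) * c b) * z b) p q =
        ∑ a, ∑ b, (star (z a) * K (star (c a) * c b) * z b) p q := by
      intro p q
      rw [csum_apply]
      refine Finset.sum_congr rfl fun a _ => ?_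
      rw [csum_apply]
    have h3 : ∀ a b, ∑ p, ∑ q, star (w p) * (star (z a) * K (star (c a) * c b) * z b) p q * w q =
        ∑ p, ∑ q, star ((Matrix.mulVec (CStarMatrix.ofMatrix.symm (z a)) w) p) *
          K (star (c a) * c b) p q * (Matrix.mulVec (CStarMatrix.ofMatrix.symm (z b)) w) q :=
      fun a b => mat_id (CStarMatrix.ofMatrix.symm (z a))
        (CStarMatrix.ofMatrix.symm (K (star (c a) * c b))) (CStarMatrix.ofMatrix.symm (z b)) w
    simp only [h2, ← h3]
    simp only [Finset.mul_sum, Finset.sum_mul]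
    rw [Finset.sum_congr rfl fun a _ => Finset.sum_comm]
    rw [Finset.sum_comm]
    rw [Finset.sum_congr rfl fun a _ => Finset.sum_congr rfl fun b _ => Finset.sum_comm]
    rw [Finset.sum_congr rfl fun a _ => Finset.sum_comm]

end general

section cross

variable {G : Type u} [Group G] {X : Type u} [TopologicalSpace X] [CompactSpace X]
  [MulAction G X] [ContinuousConstSMul G X] {A : Type u} [CStarAlgebra A] [PartialOrder A]
  [StarOrderedRing A] {ι : C(X, ℂ) →⋆ₐ[ℂ] A} {u : G →* unitary A} {E : A →L[ℂ] C(X, ℂ)}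

omit [PartialOrder A] [StarOrderedRing A] in
lemma E_one (h : IsCross ι u E) : E 1 = 1 := by
  rw [← map_one ι]; exact h.coeff_one 1

omit [PartialOrder A] [StarOrderedRing A] in
lemma E_star (h : IsCross ι u E) (a : A) (x : X) : E (star a) x = star (E a x) := by
  have h1 := h.pos (1 + a) x
  have h2 := h.pos (1 + Complex.I • a) x
  have h3 := h.pos a x
  have e1 : star (1 + a) * (1 + a) = 1 + a + star a + star a * a := by
    rw [star_add, star_one]; noncomm_ring
  have e2 : star (1 + Complex.I • a) * (1 + Complex.I • a) =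
      1 + Complex.I • a - Complex.I • star a + star a * a := by
    rw [star_add, star_one, star_smul, add_mul, one_mul, mul_add, mul_one, smul_mul_smul_comm]
    have : star Complex.I * Complex.I = 1 := by simp
    rw [this, one_smul]
    have h5 : star Complex.I = -Complex.I := by simp
    rw [h5, neg_smul]
    abel
  rw [e1] at h1
  rw [e2] at h2
  simp only [map_add, map_sub, map_smul, E_one h, ContinuousMap.add_apply, ContinuousMap.sub_apply,
    ContinuousMap.smul_apply, ContinuousMap.one_apply, smul_eq_mul] at h1 h2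
  rw [Complex.nonneg_iff] at h1 h2 h3
  have f1 := h1.2
  have f2 := h2.2
  have f3 := h3.2
  simp only [Complex.add_im, Complex.sub_im, Complex.one_im, Complex.mul_im, Complex.I_re,
    Complex.I_im] at f1 f2
  apply Complex.ext
  · simp only [Complex.star_def, Complex.conj_re]
    linarith
  · simp only [Complex.star_def, Complex.conj_im]
    linarith

lemma E_nonneg (h : IsCross ι u E) {a : A} (ha : 0 ≤ a) (x : X) : 0 ≤ E a x := by
  obtain ⟨c, rfl⟩ := (CStarAlgebra.nonneg_iff_eq_star_mul_self).1 ha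
  exact h.pos c x

omit [PartialOrder A] [StarOrderedRing A] in
lemma u_star_mul (s t : G) : star (u s : A) * (u t : A) = (u (s⁻¹ * t) : A) := by
  rw [map_mul, map_inv]
  rfl

omit [PartialOrder A] [StarOrderedRing A] in
lemma E_u (h : IsCross ι u E) (g : G) (hg : g ≠ 1) : E (u g : A) = 0 := by
  have := h.coeff_ne g 1 hg
  rwa [map_one, one_mul] at this

/-- the compression map -/
noncomputable def psi (u : G →* unitary A) (E : A →L[ℂ] C(X, ℂ)) {S : Finset G} {r k : ℕ}
    (x : Fin r → X) (e : Fin r × S ≃ Fin k) : A →ₗ[ℂ] CStarMatrix (Fin k) (Fin k) ℂ where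
  toFun a := CStarMatrix.ofMatrix (Matrix.of fun p q =>
    if (e.symm p).1 = (e.symm q).1 then
      E (star (u (e.symm p).2 : A) * a * (u (e.symm q).2 : A)) (x (e.symm p).1) else 0)
  map_add' a b := by
    ext p q
    rw [CStarMatrix.add_apply]
    simp only [CStarMatrix.ofMatrix_apply, Matrix.of_apply]
    split_ifs
    · rw [mul_add, add_mul, map_add, ContinuousMap.add_apply]
    · rw [add_zero]
  map_smul' c a := by
    ext p q
    rw [CStarMatrix.smul_apply]
    simp only [CStarMatrix.ofMatrix_apply, Matrix.of_apply, RingHom.id_apply]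
    split_ifs
    · rw [mul_smul_comm, smul_mul_assoc, map_smul, ContinuousMap.smul_apply]
    · rw [smul_zero]

lemma psi_apply {S : Finset G} {r k : ℕ} (x : Fin r → X) (e : Fin r × S ≃ Fin k) (a : A)
    (p q : Fin k) : psi u E x e a p q = if (e.symm p).1 = (e.symm q).1 then
      E (star (u (e.symm p).2 : A) * a * (u (e.symm q).2 : A)) (x (e.symm p).1) else 0 := rfl

lemma psi_star (h : IsCross ι u E) {S : Finset G} {r k : ℕ} (x : Fin r → X)
    (e : Fin r × S ≃ Fin k) (a : A) : psi u E x e (star a) = star (psi u E x e a) := by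
  ext p q
  rw [CStarMatrix.star_apply, psi_apply, psi_apply]
  by_cases hpq : (e.symm p).1 = (e.symm q).1
  · rw [if_pos hpq, if_pos hpq.symm, hpq, ← E_star h]
    congr 2
    rw [star_mul, star_mul, star_star, mul_assoc]
  · rw [if_neg hpq, if_neg (fun h => hpq h.symm), star_zero]

lemma psi_pos (h : IsCross ι u E) {S : Finset G} {r k : ℕ} (x : Fin r → X)
    (e : Fin r × S ≃ Fin k) (l : ℕ) (c : Fin l → A) (ξ : Fin l → Fin k → ℂ) :
    0 ≤ ∑ a, ∑ b, ∑ p, ∑ q, star (ξ a p) * psi u E x e (star (c a) * c b) p q * ξ b q := by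
  have h1 : ∀ a b, ∑ p, ∑ q, star (ξ a p) * psi u E x e (star (c a) * c b) p q * ξ b q =
      ∑ i, E (star (∑ s : S, ξ a (e (i, s)) • (c a * (u s : A))) *
        (∑ s : S, ξ b (e (i, s)) • (c b * (u s : A)))) (x i) := by
    intro a b
    rw [← e.sum_comp, Fintype.sum_prod_type]
    refine Finset.sum_congr rfl fun i _ => ?_
    rw [star_sum, Finset.sum_mul, map_sum, ContinuousMap.sum_apply]
    refine Finset.sum_congr rfl fun s _ => ?_
    rw [← e.sum_comp, Fintype.sum_prod_type, Finset.sum_eq_single i]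
    · rw [Finset.mul_sum, map_sum, ContinuousMap.sum_apply]
      refine Finset.sum_congr rfl fun t _ => ?_
      rw [psi_apply, Equiv.symm_apply_apply, Equiv.symm_apply_apply, if_pos rfl, star_smul,
        smul_mul_smul_comm, map_smul, ContinuousMap.smul_apply, star_mul, smul_eq_mul]
      simp only [mul_assoc]
      ring
    · intro j _ hj
      refine Finset.sum_eq_zero fun t _ => ?_
      rw [psi_apply, Equiv.symm_apply_apply, Equiv.symm_apply_apply, if_neg (fun h => hj h.symm),
        mul_zero, zero_mul]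
    · intro hi
      exact absurd (Finset.mem_univ i) hi
  have h2 : ∑ a, ∑ b, ∑ p, ∑ q, star (ξ a p) * psi u E x e (star (c a) * c b) p q * ξ b q =
      ∑ i, E (star (∑ a, ∑ s : S, ξ a (e (i, s)) • (c a * (u s : A))) *
        (∑ a, ∑ s : S, ξ a (e (i, s)) • (c a * (u s : A)))) (x i) := by
    simp only [h1]
    rw [Finset.sum_congr rfl fun a _ => Finset.sum_comm]
    rw [Finset.sum_comm]
    refine Finset.sum_congr rfl fun i _ => ?_
    rw [star_sum, Finset.sum_mul_sum, map_sum, ContinuousMap.sum_apply]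
    refine Finset.sum_congr rfl fun a _ => ?_
    rw [map_sum, ContinuousMap.sum_apply]
  rw [h2]
  exact Finset.sum_nonneg fun i _ => h.pos _ _

lemma psi_one (h : IsCross ι u E) {S : Finset G} {r k : ℕ} (x : Fin r → X)
    (e : Fin r × S ≃ Fin k) : psi u E x e 1 = 1 := by
  ext p q
  rw [psi_apply, CStarMatrix.one_apply, mul_one, u_star_mul]
  by_cases hpq : p = q
  · subst hpq
    rw [if_pos rfl, if_pos rfl, inv_mul_cancel, map_one]
    show E (1 : A) _ = 1
    rw [E_one h]; rfl
  · rw [if_neg hpq]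
    by_cases h1 : (e.symm p).1 = (e.symm q).1
    · rw [if_pos h1, E_u h]
      · rfl
      · intro h2
        apply hpq
        apply e.symm.injective
        refine Prod.ext h1 (Subtype.ext ?_)
        rw [inv_mul_eq_one] at h2
        exact h2
    · rw [if_neg h1]

/-- the averaging map -/
noncomputable def phim (ι : C(X, ℂ) →⋆ₐ[ℂ] A) (u : G →* unitary A) {S : Finset G} {r k : ℕ}
    (θ : Fin r → C(X, ℂ)) (e : Fin r × S ≃ Fin k) : CStarMatrix (Fin k) (Fin k) ℂ →ₗ[ℂ] A where
  toFun m := (1 / (S.card : ℂ)) • ∑ i, ∑ s : S, ∑ t : S,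
    m (e (i, s)) (e (i, t)) • ((u s : A) * ι (θ i) * star (u t : A))
  map_add' m m' := by
    rw [← smul_add]
    congr 1
    rw [← Finset.sum_add_distrib]
    refine Finset.sum_congr rfl fun i _ => ?_
    rw [← Finset.sum_add_distrib]
    refine Finset.sum_congr rfl fun s _ => ?_
    rw [← Finset.sum_add_distrib]
    refine Finset.sum_congr rfl fun t _ => ?_
    rw [CStarMatrix.add_apply, add_smul]
  map_smul' c m := by
    rw [RingHom.id_apply, smul_comm c]
    congr 1
    rw [Finset.smul_sum]
    refine Finset.sum_congr rfl fun i _ => ?_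
    rw [Finset.smul_sum]
    refine Finset.sum_congr rfl fun s _ => ?_
    rw [Finset.smul_sum]
    refine Finset.sum_congr rfl fun t _ => ?_
    rw [CStarMatrix.smul_apply, smul_assoc]

lemma phim_apply {S : Finset G} {r k : ℕ} (θ : Fin r → C(X, ℂ)) (e : Fin r × S ≃ Fin k)
    (m : CStarMatrix (Fin k) (Fin k) ℂ) : phim ι u θ e m = (1 / (S.card : ℂ)) • ∑ i, ∑ s : S,
      ∑ t : S, m (e (i, s)) (e (i, t)) • ((u s : A) * ι (θ i) * star (u t : A)) := rfl

omit [PartialOrder A] [StarOrderedRing A] in
lemma star_theta {f : C(X, ℂ)} (hf : ∀ y, 0 ≤ f y) : star (ι f) = ι f := by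
  rw [← map_star]
  congr 1
  ext y
  have := (Complex.nonneg_iff.1 (hf y)).2
  rw [ContinuousMap.star_apply]
  exact Complex.conj_eq_iff_im.2 this.symm

lemma phim_star {S : Finset G} {r k : ℕ} (θ : Fin r → C(X, ℂ)) (hθ : ∀ i y, 0 ≤ θ i y)
    (e : Fin r × S ≃ Fin k) (m : CStarMatrix (Fin k) (Fin k) ℂ) :
    phim ι u θ e (star m) = star (phim ι u θ e m) := by
  rw [phim_apply, phim_apply, star_smul]
  have h1 : star (1 / (S.card : ℂ)) = 1 / (S.card : ℂ) := by simp
  rw [h1]
  congr 1
  rw [star_sum]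
  refine Finset.sum_congr rfl fun i _ => ?_
  rw [star_sum, Finset.sum_comm]
  refine Finset.sum_congr rfl fun s _ => ?_
  rw [star_sum]
  refine Finset.sum_congr rfl fun t _ => ?_
  rw [star_smul, CStarMatrix.star_apply, star_mul, star_mul, star_star, star_theta (hθ i),
    mul_assoc]

omit [PartialOrder A] [StarOrderedRing A] [MulAction G X] [ContinuousConstSMul G X] in
lemma exists_sqrt {f : C(X, ℂ)} (hf : ∀ y, 0 ≤ f y) : ∃ g : C(X, ℂ), f = star g * g := by
  refine ⟨⟨fun y => ((Real.sqrt (f y).re : ℝ) : ℂ), by fun_prop⟩, ?_⟩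
  ext y
  obtain ⟨h1, h2⟩ := Complex.nonneg_iff.1 (hf y)
  rw [ContinuousMap.mul_apply, ContinuousMap.star_apply]
  show f y = star ((Real.sqrt (f y).re : ℝ) : ℂ) * ((Real.sqrt (f y).re : ℝ) : ℂ)
  rw [Complex.star_def, Complex.conj_ofReal, ← Complex.ofReal_mul, Real.mul_self_sqrt h1]
  exact Complex.ext (by simp) (by simpa using h2.symm)

set_option backward.isDefEq.respectTransparency false in
lemma phim_pos {S : Finset G} {r k : ℕ} (θ : Fin r → C(X, ℂ)) (hθ : ∀ i y, 0 ≤ θ i y)
    (e : Fin r × S ≃ Fin k) (l : ℕ) (c : Fin l → CStarMatrix (Fin k) (Fin k) ℂ) (z : Fin l → A) :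
    0 ≤ ∑ a, ∑ b, star (z a) * phim ι u θ e (star (c a) * c b) * z b := by
  choose g hg using fun i => exists_sqrt (hθ i)
  have h1 : ∀ a b, star (z a) * phim ι u θ e (star (c a) * c b) * z b =
      (1 / (S.card : ℂ)) • ∑ i, ∑ o,
        star (∑ s : S, c a o (e (i, s)) • (ι (g i) * star (u s : A) * z a)) *
        (∑ s : S, c b o (e (i, s)) • (ι (g i) * star (u s : A) * z b)) := by
    intro a b
    rw [phim_apply, mul_smul_comm, smul_mul_assoc]
    congr 1
    rw [Finset.mul_sum, Finset.sum_mul]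
    refine Finset.sum_congr rfl fun i _ => ?_
    have h2 : ∀ o, star (∑ s : S, c a o (e (i, s)) • (ι (g i) * star (u s : A) * z a)) *
        (∑ s : S, c b o (e (i, s)) • (ι (g i) * star (u s : A) * z b)) =
        ∑ s : S, ∑ t : S, (star (c a o (e (i, s))) * c b o (e (i, t))) •
          (star (z a) * ((u s : A) * ι (θ i) * star (u t : A)) * z b) := by
      intro o
      rw [star_sum, Finset.sum_mul_sum]
      refine Finset.sum_congr rfl fun s _ => Finset.sum_congr rfl fun t _ => ?_
      rw [star_smul, smul_mul_smul_comm]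
      congr 1
      rw [star_mul, star_mul, star_star, ← map_star, hg i, map_mul]
      simp only [mul_assoc]
    simp only [h2]
    conv_rhs => rw [Finset.sum_comm]
    rw [Finset.mul_sum, Finset.sum_mul]
    refine Finset.sum_congr rfl fun s _ => ?_
    conv_rhs => rw [Finset.sum_comm]
    rw [Finset.mul_sum, Finset.sum_mul]
    refine Finset.sum_congr rfl fun t _ => ?_
    rw [mul_smul_comm, smul_mul_assoc, ← Finset.sum_smul, CStarMatrix.mul_apply]
    simp only [CStarMatrix.star_apply]
  have h2 : ∑ a, ∑ b, star (z a) * phim ι u θ e (star (c a) * c b) * z b =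
      (1 / (S.card : ℂ)) • ∑ i, ∑ o,
        star (∑ a, ∑ s : S, c a o (e (i, s)) • (ι (g i) * star (u s : A) * z a)) *
        (∑ a, ∑ s : S, c a o (e (i, s)) • (ι (g i) * star (u s : A) * z a)) := by
    simp only [h1, ← Finset.smul_sum]
    congr 1
    rw [Finset.sum_congr rfl fun a _ => Finset.sum_comm]
    rw [Finset.sum_comm]
    refine Finset.sum_congr rfl fun i _ => ?_
    rw [Finset.sum_congr rfl fun a _ => Finset.sum_comm]
    rw [Finset.sum_comm]
    refine Finset.sum_congr rfl fun o _ => ?_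
    rw [star_sum, Finset.sum_mul_sum]
  rw [h2]
  have h3 : (1 / (S.card : ℂ)) = ((1 / (S.card : ℝ) : ℝ) : ℂ) := by push_cast; rfl
  rw [h3, Complex.coe_smul]
  refine smul_nonneg (by positivity) ?_
  exact Finset.sum_nonneg fun i _ => Finset.sum_nonneg fun o _ => star_mul_self_nonneg _

lemma phim_one {S : Finset G} (hS : S.Nonempty) {r k : ℕ} (θ : Fin r → C(X, ℂ))
    (hθ : ∑ i, θ i = 1) (e : Fin r × S ≃ Fin k) : phim ι u θ e 1 = 1 := by
  classical
  rw [phim_apply]
  have h1 : ∀ i, ∑ s : S, ∑ t : S, (1 : CStarMatrix (Fin k) (Fin k) ℂ) (e (i, s)) (e (i, t)) •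
      ((u s : A) * ι (θ i) * star (u t : A)) = ∑ s : S, (u s : A) * ι (θ i) * star (u s : A) := by
    intro i
    refine Finset.sum_congr rfl fun s _ => ?_
    rw [Finset.sum_eq_single s]
    · rw [CStarMatrix.one_apply, if_pos rfl, one_smul]
    · intro t _ ht
      rw [CStarMatrix.one_apply, if_neg, zero_smul]
      intro h
      have := e.injective h
      simp only [Prod.mk.injEq, true_and] at this
      exact ht this.symm
    · intro h
      exact absurd (Finset.mem_univ s) h
  simp only [h1]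
  rw [Finset.sum_comm]
  have h2 : ∀ s : S, ∑ i, (u s : A) * ι (θ i) * star (u s : A) = 1 := by
    intro s
    rw [← Finset.sum_mul, ← Finset.mul_sum, ← map_sum, hθ, map_one, mul_one]
    exact Unitary.coe_mul_star_self (u s)
  rw [Finset.sum_congr rfl fun s _ => h2 s, Finset.sum_const, Finset.card_univ,
    Fintype.card_coe, ← Nat.cast_smul_eq_nsmul ℂ, smul_smul, one_div, inv_mul_cancel₀, one_smul]
  exact_mod_cast hS.card_pos.ne'

end cross

end TNU1

open TNU1 in
/-- completely positive maps through matrix algebras -/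
theorem t_NU1 : StNU1.{u} := by
  classical
  intro G _ X _ _ _ _ A _ _ _ ι u E h S hS r x θ hθ0 hθ1
  let k := Fintype.card (Fin r × S)
  let e : Fin r × S ≃ Fin k := Fintype.equivFin _
  let ψ : A →CP CStarMatrix (Fin k) (Fin k) ℂ :=
    { psi u E x e with
      map_cstarMatrix_nonneg' := cp_of_mat (psi u E x e) (psi_star h x e) (psi_pos h x e) }
  let φ : CStarMatrix (Fin k) (Fin k) ℂ →CP A :=
    { phim ι u θ e with
      map_cstarMatrix_nonneg' := cp_of (phim ι u θ e) (phim_star θ hθ0 e) (phim_pos θ hθ0 e) }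
  refine ⟨k, ψ, φ, fun a => Pool.Agent.V1215.NI.cp_norm_le ψ (psi_one h x e) a,
    fun y => Pool.Agent.V1215.NI.cp_norm_le φ (phim_one hS θ hθ1 e) y, fun a => ?_⟩
  show phim ι u θ e (psi u E x e a) = _
  rw [phim_apply]
  refine congrArg (fun z => (1 / (S.card : ℂ)) • z) ?_
  refine Finset.sum_congr rfl fun i _ => ?_
  refine Eq.trans ?_ (Finset.sum_coe_sort S _)
  refine Finset.sum_congr rfl fun s _ => ?_
  refine Eq.trans ?_ (Finset.sum_coe_sort S _)
  refine Finset.sum_congr rfl fun t _ => ?_
  rw [psi_apply, Equiv.symm_apply_apply, Equiv.symm_apply_apply, if_pos rfl]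

end Pool.Agent.H107ZS
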