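import Pool.Agent.H107_ZS.CStubs3

/-!
# NUC: crossed products by amenable groups are nuclear
-/

set_option autoImplicit false

namespace Pool.Agent.H107ZS

open Topology Pool.Agent.H327R4.Pure
open scoped CStarAlgebra ComplexOrder

universe u v w

namespace TNUC

variable {G : Type u} [Group G] {X : Type u} [TopologicalSpace X] [CompactSpace X]
  [MulAction G X] [ContinuousConstSMul G X] {A : Type u} [CStarAlgebra A]
  {ι : C(X, ℂ) →⋆ₐ[ℂ] A} {u : G →* unitary A} {E : A →L[ℂ] C(X, ℂ)}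

lemma norm_u (g : G) : ‖(u g : A)‖ ≤ 1 := by
  rcases subsingleton_or_nontrivial A with h | h
  · rw [Subsingleton.elim (u g : A) 0, norm_zero]; exact zero_le_one
  · exact (CStarRing.norm_coe_unitary (u g)).le

lemma norm_ustar (g : G) : ‖star (u g : A)‖ ≤ 1 := by rw [norm_star]; exact norm_u g

lemma norm_iota (f : C(X, ℂ)) : ‖ι f‖ ≤ ‖f‖ := NonUnitalStarAlgHom.norm_apply_le ι f

lemma u_star_mul (s t : G) : star (u s : A) * (u t : A) = (u (s⁻¹ * t) : A) := by
  rw [map_mul, map_inv]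
  rfl

lemma u_mul (s t : G) : (u s : A) * (u t : A) = (u (s * t) : A) := by
  rw [map_mul]
  rfl

lemma u_mul_star (s : G) : (u s : A) * star (u s : A) = 1 := Unitary.coe_mul_star_self (u s)

lemma comp_tr_tr (f : C(X, ℂ)) (s : G) : (f.comp (tr s)).comp (tr s⁻¹) = f := by
  ext y
  show f (s • s⁻¹ • y) = f y
  rw [smul_inv_smul]

/-- `u_s ι (f ∘ s) = ι (f) u_s` -/
lemma u_comp (h : IsCross ι u E) (f : C(X, ℂ)) (s : G) :
    (u s : A) * ι (f.comp (tr s)) = ι f * (u s : A) := by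
  have h1 := h.cov s (f.comp (tr s))
  rw [comp_tr_tr] at h1
  have h2 : star (u s : A) * (u s : A) = 1 := Unitary.coe_star_mul_self (u s)
  calc (u s : A) * ι (f.comp (tr s)) = (u s : A) * ι (f.comp (tr s)) * (star (u s : A) * (u s : A)) := by
        rw [h2, mul_one]
    _ = ((u s : A) * ι (f.comp (tr s)) * star (u s : A)) * (u s : A) := by simp only [mul_assoc]
    _ = ι f * (u s : A) := by rw [h1]

/-- the compression of a monomial -/
lemma E_mon [DecidableEq G] (h : IsCross ι u E) (f : C(X, ℂ)) (g s t : G) (x : X) :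
    E (star (u s : A) * (ι f * (u g : A)) * (u t : A)) x = if s = g * t then f (s • x) else 0 := by
  have h2 : star (u s : A) * (u s : A) = 1 := Unitary.coe_star_mul_self (u s)
  have h1 : star (u s : A) * (ι f * (u g : A)) * (u t : A) =
      ι (f.comp (tr s)) * (u (s⁻¹ * (g * t)) : A) := by
    rw [← u_star_mul, ← u_mul]
    have h3 : star (u s : A) * ι f * (u s : A) = ι (f.comp (tr s)) := by
      rw [mul_assoc, ← u_comp h, ← mul_assoc, h2, one_mul]
    have h4 : star (u s : A) * ι f = ι (f.comp (tr s)) * star (u s : A) := by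
      rw [← h3, mul_assoc _ (u s : A), u_mul_star, mul_one]
    calc star (u s : A) * (ι f * (u g : A)) * (u t : A) =
        (star (u s : A) * ι f) * ((u g : A) * (u t : A)) := by simp only [mul_assoc]
      _ = _ := by rw [h4]; simp only [mul_assoc]
  rw [h1]
  split_ifs with h5
  · rw [h5, inv_mul_cancel, map_one]
    show E (ι _ * (1 : A)) x = _
    rw [mul_one, h.coeff_one]
    rfl
  · rw [h.coeff_ne]
    · rfl
    · intro h6
      rw [inv_mul_eq_one] at h6
      exact h5 h6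

/-- the error for a monomial -/
lemma err (h : IsCross ι u E) (S : Finset G) (hS : S.Nonempty) (η : ℝ) (hη : 0 ≤ η) (g : G)
    (f : C(X, ℂ)) [DecidablePred fun s : G => g * s ∉ S]
    (hfol : ((S.filter fun s => g * s ∉ S).card : ℝ) ≤ η * S.card)
    {r : ℕ} (x : Fin r → X) (θ : Fin r → C(X, ℂ)) (hθ0 : ∀ i y, 0 ≤ θ i y) (hθ1 : ∑ i, θ i = 1)
    (hvar : ∀ s ∈ S, ∀ i y, θ i y ≠ 0 → ‖f (s • x i) - f (s • y)‖ ≤ η) :
    ‖(1 / (S.card : ℂ)) • ∑ i, ∑ s ∈ S, ∑ t ∈ S,
      (E (star (u s : A) * (ι f * (u g : A)) * (u t : A)) (x i)) •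
        ((u s : A) * ι (θ i) * star (u t : A)) - ι f * (u g : A)‖ ≤ η + η * ‖f‖ := by
  classical
  have hSc : (0 : ℝ) < S.card := by exact_mod_cast hS.card_pos
  have hSc' : (S.card : ℂ) ≠ 0 := by exact_mod_cast hS.card_pos.ne'
  have h1 : ∀ t : G, ι f * (u g : A) = (u (g * t) : A) * ι (f.comp (tr (g * t))) * star (u t : A) := by
    intro t
    rw [u_comp h, mul_assoc, ← u_mul, mul_assoc (u g : A), u_mul_star, mul_one]
  have key : ∑ i, ∑ s ∈ S, ∑ t ∈ S,
      (E (star (u s : A) * (ι f * (u g : A)) * (u t : A)) (x i)) •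
        ((u s : A) * ι (θ i) * star (u t : A)) = ∑ t ∈ S, if g * t ∈ S then
          (u (g * t) : A) * ι (∑ i, (f ((g * t) • x i)) • θ i) * star (u t : A) else 0 := by
    rw [Finset.sum_congr rfl fun i _ => Finset.sum_comm, Finset.sum_comm]
    refine Finset.sum_congr rfl fun t _ => ?_
    split_ifs with h2
    · rw [map_sum, Finset.mul_sum, Finset.sum_mul]
      refine Finset.sum_congr rfl fun i _ => ?_
      rw [Finset.sum_eq_single (g * t)]
      · rw [E_mon h, if_pos rfl, map_smul ι, mul_smul_comm, smul_mul_assoc]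
      · intro s _ hs
        rw [E_mon h, if_neg hs, zero_smul]
      · intro h3
        exact absurd h2 h3
    · refine Finset.sum_eq_zero fun i _ => Finset.sum_eq_zero fun s hs => ?_
      rw [E_mon h, if_neg, zero_smul]
      rintro rfl
      exact h2 hs
  rw [key]
  set a : A := ι f * (u g : A) with ha
  have ha1 : ‖a‖ ≤ ‖f‖ := by
    refine (norm_mul_le _ _).trans ?_
    calc ‖ι f‖ * ‖(u g : A)‖ ≤ ‖f‖ * 1 :=
          mul_le_mul (norm_iota f) (norm_u g) (norm_nonneg _) (norm_nonneg _)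
      _ = ‖f‖ := mul_one _
  have h3 : a = (1 / (S.card : ℂ)) • ∑ t ∈ S, a := by
    rw [Finset.sum_const, ← Nat.cast_smul_eq_nsmul ℂ, smul_smul, one_div, inv_mul_cancel₀ hSc',
      one_smul]
  have h4 : (1 / (S.card : ℂ)) • (∑ t ∈ S, if g * t ∈ S then
          (u (g * t) : A) * ι (∑ i, (f ((g * t) • x i)) • θ i) * star (u t : A) else 0) - a =
      (1 / (S.card : ℂ)) • ∑ t ∈ S, ((if g * t ∈ S then
          (u (g * t) : A) * ι (∑ i, (f ((g * t) • x i)) • θ i) * star (u t : A) else 0) - a) := by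
    rw [Finset.sum_sub_distrib, smul_sub, ← h3]
  rw [h4, norm_smul]
  have h5 : ∀ t ∈ S, ‖(if g * t ∈ S then
      (u (g * t) : A) * ι (∑ i, (f ((g * t) • x i)) • θ i) * star (u t : A) else 0) - a‖ ≤
      η + (if g * t ∉ S then ‖f‖ else 0) := by
    intro t _
    by_cases h6 : g * t ∈ S
    · rw [if_pos h6, if_neg (fun h => h h6), add_zero, h1 t, ← sub_mul, ← mul_sub, ← map_sub]
      have h7 : ‖∑ i, (f ((g * t) • x i)) • θ i - f.comp (tr (g * t))‖ ≤ η := by
        rw [ContinuousMap.norm_le _ hη]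
        intro y
        have h8 : (∑ i, (f ((g * t) • x i)) • θ i - f.comp (tr (g * t))) y =
            ∑ i, (f ((g * t) • x i) - f ((g * t) • y)) * θ i y := by
          have h9 : ∑ i, θ i y = 1 := by
            rw [← ContinuousMap.sum_apply, hθ1]; rfl
          rw [ContinuousMap.sub_apply, ContinuousMap.sum_apply]
          have h10 : (f.comp (tr (g * t))) y = ∑ i, f ((g * t) • y) * θ i y := by
            rw [← Finset.mul_sum, h9, mul_one]; rfl
          rw [h10, ← Finset.sum_sub_distrib]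
          refine Finset.sum_congr rfl fun i _ => ?_
          rw [ContinuousMap.smul_apply, smul_eq_mul, sub_mul]
        rw [h8]
        have h11 : ∀ i, ‖(f ((g * t) • x i) - f ((g * t) • y)) * θ i y‖ ≤ η * ‖θ i y‖ := by
          intro i
          rw [norm_mul]
          by_cases h12 : θ i y = 0
          · rw [h12]; simp
          · exact mul_le_mul_of_nonneg_right (hvar _ h6 i y h12) (norm_nonneg _)
        refine (norm_sum_le _ _).trans ((Finset.sum_le_sum fun i _ => h11 i).trans ?_)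
        rw [← Finset.mul_sum]
        have h12 : ∑ i, ‖θ i y‖ = 1 := by
          have h13 : ∀ i, ((‖θ i y‖ : ℝ) : ℂ) = θ i y := fun i =>
            Complex.norm_of_nonneg' (hθ0 i y)
          have h14 : ((∑ i, ‖θ i y‖ : ℝ) : ℂ) = 1 := by
            push_cast
            rw [Finset.sum_congr rfl fun i _ => h13 i, ← ContinuousMap.sum_apply, hθ1]; rfl
          exact_mod_cast h14
        rw [h12, mul_one]
      calc ‖(u (g * t) : A) * ι (∑ i, (f ((g * t) • x i)) • θ i - f.comp (tr (g * t))) *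
            star (u t : A)‖ ≤ ‖(u (g * t) : A) * ι (∑ i, (f ((g * t) • x i)) • θ i -
              f.comp (tr (g * t)))‖ * ‖star (u t : A)‖ := norm_mul_le _ _
        _ ≤ (‖(u (g * t) : A)‖ * ‖ι (∑ i, (f ((g * t) • x i)) • θ i -
              f.comp (tr (g * t)))‖) * 1 :=
            mul_le_mul (norm_mul_le _ _) (norm_ustar t) (norm_nonneg _) (by positivity)
        _ ≤ (1 * η) * 1 := by
            refine mul_le_mul_of_nonneg_right ?_ zero_le_one
            exact mul_le_mul (norm_u _) ((norm_iota _).trans h7) (norm_nonneg _) zero_le_one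
        _ = η := by ring
    · rw [if_neg h6, if_pos h6, zero_sub, norm_neg]
      linarith
  have h6 : ‖∑ t ∈ S, ((if g * t ∈ S then
      (u (g * t) : A) * ι (∑ i, (f ((g * t) • x i)) • θ i) * star (u t : A) else 0) - a)‖ ≤
      (η + η * ‖f‖) * S.card := by
    refine (norm_sum_le _ _).trans ((Finset.sum_le_sum h5).trans ?_)
    rw [Finset.sum_add_distrib, Finset.sum_const, nsmul_eq_mul, ← Finset.sum_filter,
      Finset.sum_const, nsmul_eq_mul]
    have h7 : ((S.filter fun s => g * s ∉ S).card : ℝ) * ‖f‖ ≤ η * S.card * ‖f‖ :=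
      mul_le_mul_of_nonneg_right hfol (norm_nonneg _)
    nlinarith
  have h7 : ‖(1 / (S.card : ℂ))‖ = 1 / (S.card : ℝ) := by
    rw [norm_div, norm_one, Complex.norm_natCast]
  rw [h7]
  have h8 : (0 : ℝ) ≤ 1 / (S.card : ℝ) := div_nonneg zero_le_one hSc.le
  refine (mul_le_mul_of_nonneg_left h6 h8).trans ?_
  rw [one_div, mul_comm, mul_assoc, mul_inv_cancel₀ hSc.ne', mul_one]

end TNUC

open TNUC in
/-- crossed products by amenable groups are nuclear -/
theorem t_NUC (hNU1 : StNU1.{u}) : StNUC.{u} := by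
  classical
  intro G _ X _ _ _ _ _ _ A _ _ _ ι u E hG h F ε hε
  -- approximation by finite sums
  have happ : ∀ x : A, ∃ c : G →₀ C(X, ℂ), ‖x - c.sum fun g f => ι f * (u g : A)‖ ≤ ε / 3 := by
    intro x
    obtain ⟨c, hc⟩ := h.dense.exists_dist_lt x (show 0 < ε / 3 by positivity)
    rw [dist_eq_norm] at hc
    exact ⟨c, hc.le⟩
  choose c hc using happ
  -- the constant
  set W : ℝ := 1 + ∑ x ∈ F, ∑ g ∈ (c x).support, (1 + ‖c x g‖) with hW
  have hW1 : ∀ x ∈ F, ∑ g ∈ (c x).support, (1 + ‖c x g‖) ≤ W := by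
    intro x hx
    have h1 : ∀ x ∈ F, 0 ≤ ∑ g ∈ (c x).support, (1 + ‖c x g‖) := fun x _ =>
      Finset.sum_nonneg fun g _ => add_nonneg zero_le_one (norm_nonneg _)
    have h2 := Finset.single_le_sum h1 hx
    linarith
  have hW0 : 0 < W := by
    have h1 : 0 ≤ ∑ x ∈ F, ∑ g ∈ (c x).support, (1 + ‖c x g‖) :=
      Finset.sum_nonneg fun x _ => Finset.sum_nonneg fun g _ =>
        add_nonneg zero_le_one (norm_nonneg _)
    linarith
  set η : ℝ := ε / 3 / W with hη
  have hη0 : 0 < η := div_pos (by linarith) hW0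
  -- the Følner set
  obtain ⟨S, hS⟩ := hG (F.biUnion fun x => (c x).support) η hη0
  -- the cover
  let U : X → Set X := fun y => {z | ∀ x ∈ F, ∀ g ∈ (c x).support, ∀ s ∈ S,
    ‖c x g (s • z) - c x g (s • y)‖ < η / 2}
  have hU : ∀ y, IsOpen (U y) := by
    intro y
    have : U y = ⋂ x ∈ F, ⋂ g ∈ (c x).support, ⋂ s ∈ S,
        {z | ‖c x g (s • z) - c x g (s • y)‖ < η / 2} := by
      ext z; simp [U]
    rw [this]
    refine isOpen_biInter_finset fun x _ => isOpen_biInter_finset fun g _ =>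
      isOpen_biInter_finset fun s _ => ?_
    refine isOpen_lt ?_ continuous_const
    exact (((c x g).continuous.comp (continuous_const_smul s)).sub continuous_const).norm
  have hyU : ∀ y, y ∈ U y := by
    intro y x _ g _ s _
    rw [sub_self, norm_zero]
    linarith
  obtain ⟨t, ht⟩ := isCompact_univ.elim_finite_subcover U hU
    (fun y _ => Set.mem_iUnion.2 ⟨y, hyU y⟩)
  let r := t.card
  let x : Fin r → X := fun i => (t.equivFin.symm i : X)
  have hcov : (Set.univ : Set X) ⊆ ⋃ i, U (x i) := by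
    intro y _
    obtain ⟨z, hz, hyz⟩ := Set.mem_iUnion₂.1 (ht (Set.mem_univ y))
    refine Set.mem_iUnion.2 ⟨t.equivFin ⟨z, hz⟩, ?_⟩
    show y ∈ U (t.equivFin.symm (t.equivFin ⟨z, hz⟩) : X)
    rw [Equiv.symm_apply_apply]
    exact hyz
  obtain ⟨f, hf1, hf2, hf3, -⟩ := exists_continuous_sum_one_of_isOpen_isCompact
    (s := fun i => U (x i)) (fun i => hU (x i)) isCompact_univ hcov
  let θ : Fin r → C(X, ℂ) := fun i => ⟨fun y => (f i y : ℂ), by fun_prop⟩
  have hθ0 : ∀ i y, 0 ≤ θ i y := by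
    intro i y
    show (0 : ℂ) ≤ (f i y : ℂ)
    exact_mod_cast (hf3 i y).1
  have hθ1 : ∑ i, θ i = 1 := by
    ext y
    rw [ContinuousMap.sum_apply]
    show ∑ i, (f i y : ℂ) = 1
    have h1 := hf2 (Set.mem_univ y)
    rw [Finset.sum_apply, Pi.one_apply] at h1
    exact_mod_cast h1
  have hvar : ∀ a ∈ F, ∀ g ∈ (c a).support, ∀ s ∈ S, ∀ i y, θ i y ≠ 0 →
      ‖c a g (s • x i) - c a g (s • y)‖ ≤ η := by
    intro a ha g hg s hs i y hy
    have h1 : y ∈ U (x i) := by
      refine hf1 i (subset_tsupport _ ?_)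
      intro h2
      apply hy
      show ((f i y : ℝ) : ℂ) = 0
      rw [h2]; simp
    have h2 := h1 a ha g hg s hs
    rw [norm_sub_rev]
    linarith
  obtain ⟨k, ψ, φ, hψ, hφ, hφψ⟩ := hNU1 G X A ι u E h S hS.1 r x θ hθ0 hθ1
  refine ⟨k, ψ, φ, hψ, hφ, fun a ha => ?_⟩
  set m : A := (c a).sum fun g f => ι f * (u g : A) with hm
  have h1 : ‖φ (ψ (a - m))‖ ≤ ε / 3 := (hφ _).trans ((hψ _).trans (hc a))
  have h2 : ‖φ (ψ m) - m‖ ≤ ε / 3 := by
    have h3 : φ (ψ m) - m = ∑ g ∈ (c a).support,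
        (φ (ψ (ι (c a g) * (u g : A))) - ι (c a g) * (u g : A)) := by
      rw [hm, Finsupp.sum, map_sum, map_sum, Finset.sum_sub_distrib]
    rw [h3]
    have h4 : ∀ g ∈ (c a).support, ‖φ (ψ (ι (c a g) * (u g : A))) - ι (c a g) * (u g : A)‖ ≤
        η * (1 + ‖c a g‖) := by
      intro g hg
      rw [hφψ]
      have h5 := err h S hS.1 η hη0.le g (c a g)
        (hS.2 g (Finset.mem_biUnion.2 ⟨a, ha, hg⟩)) x θ hθ0 hθ1 (hvar a ha g hg)
      linarith
    refine (norm_sum_le _ _).trans ((Finset.sum_le_sum h4).trans ?_)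
    rw [← Finset.mul_sum]
    calc η * ∑ g ∈ (c a).support, (1 + ‖c a g‖) ≤ η * W :=
          mul_le_mul_of_nonneg_left (hW1 a ha) hη0.le
      _ = ε / 3 := by rw [hη]; exact div_mul_cancel₀ _ hW0.ne'
  have h3 : φ (ψ a) - a = φ (ψ (a - m)) + (φ (ψ m) - m) - (a - m) := by
    rw [map_sub, map_sub]; abel
  rw [h3]
  calc ‖φ (ψ (a - m)) + (φ (ψ m) - m) - (a - m)‖ ≤ ‖φ (ψ (a - m)) + (φ (ψ m) - m)‖ + ‖a - m‖ :=
        norm_sub_le _ _
    _ ≤ ‖φ (ψ (a - m))‖ + ‖φ (ψ m) - m‖ + ‖a - m‖ := by gcongr; exact norm_add_le _ _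
    _ ≤ ε / 3 + ε / 3 + ε / 3 := add_le_add (add_le_add h1 h2) (hc a)
    _ = ε := by ring

end Pool.Agent.H107ZS
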