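import Pool.Agent.H107_ZS.TTS

/-!
# Crossed products of free minimal actions are simple (StSIM)
-/

set_option autoImplicit false
set_option linter.unusedSectionVars false

namespace Pool.Agent.H107ZS

open Topology Pool.Agent.H327R4.Pure
open scoped CStarAlgebra ComplexOrder

universe u v w

namespace TSIM

section

variable {X : Type v} [TopologicalSpace X] [CompactSpace X] [T2Space X]

/-- finite partitions of unity -/
theorem exists_partition {κ : Type w} [Fintype κ] (U : κ → Set X) (hU : ∀ i, IsOpen (U i))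
    (hc : ∀ x, ∃ i, x ∈ U i) : ∃ φ : κ → C(X, ℝ), (∀ i x, 0 ≤ φ i x) ∧
      (∀ x, ∑ i, φ i x = 1) ∧ ∀ i x, x ∉ U i → φ i x = 0 := by
  obtain ⟨f, hf⟩ := PartitionOfUnity.exists_isSubordinate (s := (Set.univ : Set X)) isClosed_univ U
    hU (fun x _ => Set.mem_iUnion.2 (hc x))
  refine ⟨fun i => f i, fun i x => f.nonneg i x, fun x => ?_, fun i x hx => ?_⟩
  · have h1 := f.sum_eq_one (Set.mem_univ x)
    rwa [finsum_eq_sum_of_fintype] at h1
  · by_contra hne
    exact hx (hf i (subset_tsupport _ hne))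

end

section

variable {G : Type u} [Group G] {X : Type v} [TopologicalSpace X] [CompactSpace X] [T2Space X]
  [MulAction G X] [ContinuousConstSMul G X]

/-- small open sets for a free action -/
theorem exists_small (hfree : FreeAct G X) (K : Finset G) (x : X) : ∃ U : Set X, IsOpen U ∧
    x ∈ U ∧ ∀ g ∈ K, g ≠ 1 → ∀ y ∈ U, g⁻¹ • y ∉ U := by
  classical
  have h1 : ∀ g : G, ∃ U : Set X, IsOpen U ∧ x ∈ U ∧ (g ≠ 1 → ∀ y ∈ U, g⁻¹ • y ∉ U) := by
    intro g
    by_cases hg : g = 1
    · exact ⟨Set.univ, isOpen_univ, Set.mem_univ _, fun h => absurd hg h⟩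
    · have hne : x ≠ g⁻¹ • x := by
        intro hh
        have := hfree g⁻¹ x hh.symm
        exact hg (inv_eq_one.1 this)
      obtain ⟨V, W, hV, hW, hxV, hxW, hd⟩ := t2_separation hne
      refine ⟨V ∩ (fun y => g⁻¹ • y) ⁻¹' W, hV.inter (hW.preimage (continuous_const_smul _)),
        ⟨hxV, hxW⟩, fun _ y hy hy' => ?_⟩
      exact Set.disjoint_left.1 hd hy'.1 hy.2
  choose U hU1 hU2 hU3 using h1
  refine ⟨⋂ g ∈ K, U g, isOpen_biInter_finset fun g _ => hU1 g, ?_, ?_⟩
  · exact Set.mem_iInter₂.2 fun g _ => hU2 g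
  · intro g hg hg1 y hy hy'
    exact hU3 g hg1 y (Set.mem_iInter₂.1 hy g hg) (Set.mem_iInter₂.1 hy' g hg)

/-- functions `h_i` with `∑ h_i² = 1` and `h_i (h_i ∘ g⁻¹) = 0` -/
theorem exists_sqrt_partition (hfree : FreeAct G X) (K : Finset G) :
    ∃ (m : ℕ) (a : Fin m → C(X, ℂ)), (∑ i, a i * a i = 1) ∧ (∀ i, star (a i) = a i) ∧
      ∀ g ∈ K, g ≠ 1 → ∀ i, a i * (a i).comp (tr g⁻¹) = 0 := by
  classical
  choose U hU1 hU2 hU3 using exists_small (X := X) hfree K
  obtain ⟨t, ht⟩ := isCompact_univ.elim_finite_subcover U hU1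
    (fun x _ => Set.mem_iUnion.2 ⟨x, hU2 x⟩)
  let e := t.equivFin
  obtain ⟨φ, hφ0, hφ1, hφU⟩ := exists_partition (κ := Fin t.card) (fun i => U (e.symm i))
    (fun i => hU1 _) (fun x => by
      obtain ⟨y, hy, hxy⟩ := Set.mem_iUnion₂.1 (ht (Set.mem_univ x))
      exact ⟨e ⟨y, hy⟩, by simpa using hxy⟩)
  refine ⟨t.card, fun i => ⟨fun x => ((Real.sqrt (φ i x) : ℝ) : ℂ), by fun_prop⟩, ?_, ?_, ?_⟩
  · ext x
    rw [ContinuousMap.sum_apply]
    show ∑ i, ((Real.sqrt (φ i x) : ℝ) : ℂ) * ((Real.sqrt (φ i x) : ℝ) : ℂ) = 1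
    rw [← Complex.ofReal_one, ← hφ1 x]
    push_cast
    refine Finset.sum_congr rfl fun i _ => ?_
    rw [← Complex.ofReal_mul, Real.mul_self_sqrt (hφ0 i x)]
  · intro i
    ext x
    exact Complex.conj_ofReal _
  · intro g hg hg1 i
    ext x
    show ((Real.sqrt (φ i x) : ℝ) : ℂ) * ((Real.sqrt (φ i (g⁻¹ • x)) : ℝ) : ℂ) = 0
    by_cases hx : x ∈ U (e.symm i)
    · rw [hφU i (g⁻¹ • x) (hU3 _ g hg hg1 x hx)]; simp
    · rw [hφU i x hx]; simp

end

section

variable {A : Type w} [CStarAlgebra A]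

/-- a compression by a partition of unity is bounded -/
theorem norm_compression_le {m : ℕ} (a : Fin m → A) (ha : ∀ i, star (a i) = a i)
    (h1 : ∑ i, a i * a i = 1) (x : A) : ‖∑ i, a i * x * a i‖ ≤ 6 * ‖x‖ := by
  rcases subsingleton_or_nontrivial A with hA | hA
  · have : ∑ i, a i * x * a i = 0 := Subsingleton.elim _ _
    rw [this, norm_zero]; positivity
  let _ : PartialOrder A := CStarAlgebra.spectralOrder A
  have _ : StarOrderedRing A := CStarAlgebra.spectralOrderedRing A
  have hsa : ∀ y : A, IsSelfAdjoint y → ‖∑ i, a i * y * a i‖ ≤ 3 * ‖y‖ := by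
    intro y hy
    have hmon : ∀ z w : A, z ≤ w → ∑ i, a i * z * a i ≤ ∑ i, a i * w * a i := by
      intro z w hzw
      refine Finset.sum_le_sum fun i _ => ?_
      have := star_left_conjugate_le_conjugate hzw (a i)
      rwa [ha] at this
    have hcst : ∀ r : ℝ, ∑ i, a i * algebraMap ℝ A r * a i = algebraMap ℝ A r := by
      intro r
      have : ∀ i, a i * algebraMap ℝ A r * a i = algebraMap ℝ A r * (a i * a i) := by
        intro i
        rw [← Algebra.commutes r (a i), mul_assoc]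
      rw [Finset.sum_congr rfl fun i _ => this i, ← Finset.mul_sum, h1, mul_one]
    have h2 : y ≤ algebraMap ℝ A ‖y‖ := IsSelfAdjoint.le_algebraMap_norm_self hy
    have h3 : -algebraMap ℝ A ‖y‖ ≤ y := IsSelfAdjoint.neg_algebraMap_norm_le_self hy
    have h4 := hmon _ _ h2
    have h5 := hmon _ _ h3
    have h6 : ∑ i, a i * -algebraMap ℝ A ‖y‖ * a i = -algebraMap ℝ A ‖y‖ := by
      have := hcst (-‖y‖)
      rwa [map_neg] at this
    rw [hcst] at h4
    rw [h6] at h5
    have h7 : 0 ≤ ∑ i, a i * y * a i + algebraMap ℝ A ‖y‖ := by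
      have := add_le_add_left h5 (algebraMap ℝ A ‖y‖)
      simpa [add_comm] using this
    have h8 : ∑ i, a i * y * a i + algebraMap ℝ A ‖y‖ ≤ algebraMap ℝ A (2 * ‖y‖) := by
      have h9 : algebraMap ℝ A (2 * ‖y‖) = algebraMap ℝ A ‖y‖ + algebraMap ℝ A ‖y‖ := by
        rw [two_mul, map_add]
      rw [h9]
      exact add_le_add h4 le_rfl
    have h10 := CStarAlgebra.norm_le_norm_of_nonneg_of_le h7 h8
    have h11 : ∀ r : ℝ, 0 ≤ r → ‖algebraMap ℝ A r‖ = r := by
      intro r hr
      rw [norm_algebraMap', Real.norm_eq_abs, abs_of_nonneg hr]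
    rw [h11 _ (by positivity)] at h10
    calc ‖∑ i, a i * y * a i‖ =
        ‖(∑ i, a i * y * a i + algebraMap ℝ A ‖y‖) - algebraMap ℝ A ‖y‖‖ := by
          rw [add_sub_cancel_right]
      _ ≤ 2 * ‖y‖ + ‖y‖ := (norm_sub_le _ _).trans
        (add_le_add h10 (h11 _ (norm_nonneg y)).le)
      _ = 3 * ‖y‖ := by ring
  have h2 : x = (realPart x : A) + Complex.I • (imaginaryPart x : A) :=
    (realPart_add_I_smul_imaginaryPart x).symm
  have h3 : ∑ i, a i * x * a i = ∑ i, a i * (realPart x : A) * a i +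
      Complex.I • ∑ i, a i * (imaginaryPart x : A) * a i := by
    conv_lhs => rw [h2]
    rw [Finset.smul_sum, ← Finset.sum_add_distrib]
    refine Finset.sum_congr rfl fun i _ => ?_
    rw [mul_add, add_mul, mul_smul_comm, smul_mul_assoc]
  rw [h3]
  refine (norm_add_le _ _).trans ?_
  rw [norm_smul, Complex.norm_I, one_mul]
  have h4 := hsa _ (realPart x).2
  have h5 := hsa _ (imaginaryPart x).2
  have h6 : ‖(realPart x : A)‖ ≤ ‖x‖ := realPart.norm_le x
  have h7 : ‖(imaginaryPart x : A)‖ ≤ ‖x‖ := imaginaryPart.norm_le x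
  linarith

end

end TSIM

open TSIM

/-- SIM: crossed products of free minimal actions are simple -/
theorem t_SIM : StSIM.{u} := by
  intro G _ X _ _ _ _ _ _ A _ ι u E hfree hmin h
  classical
  have hE1 : E 1 = 1 := by
    have := h.coeff_one 1
    rwa [map_one] at this
  refine ⟨⟨⟨1, 0, fun h10 => ?_⟩⟩, fun I hI => ?_⟩
  · have h1 : (1 : C(X, ℂ)) = 0 := by rw [← hE1, h10, map_zero]
    obtain ⟨x⟩ := ‹Nonempty X›
    have h2 := congrArg (fun F : C(X, ℂ) => F x) h1
    exact one_ne_zero h2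
  by_cases hne : ∃ a ∈ I, a ≠ 0
  swap
  · left
    push Not at hne
    refine TwoSidedIdeal.ext fun x => ⟨fun hx => ?_, fun hx => ?_⟩
    · exact (TwoSidedIdeal.mem_bot A).2 (hne x hx)
    · rw [(TwoSidedIdeal.mem_bot A).1 hx]; exact I.zero_mem
  right
  obtain ⟨a, haI, ha0⟩ := hne
  set b : A := star a * a with hb
  have hbI : b ∈ I := I.mul_mem_left _ _ haI
  have hEb0 : E b ≠ 0 := fun hh => ha0 (h.faithful a hh)
  have hsum_mem : ∀ {κ : Type} (s : Finset κ) (F : κ → A), (∀ i ∈ s, F i ∈ I) →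
      ∑ i ∈ s, F i ∈ I := by
    intro κ s F hF
    induction s using Finset.induction_on with
    | empty => simp
    | insert i s hi ih =>
      rw [Finset.sum_insert hi]
      exact I.add_mem (hF i (Finset.mem_insert_self i s))
        (ih fun j hj => hF j (Finset.mem_insert_of_mem hj))
  -- the claim
  have hclaim : ι (E b) ∈ I := by
    have hcl : ι (E b) ∈ closure (I : Set A) := by
      rw [Metric.mem_closure_iff]
      intro η hη
      obtain ⟨c, hc⟩ := Metric.denseRange_iff.1 h.dense b (η / (8 + ‖E‖)) (by positivity)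
      rw [dist_eq_norm] at hc
      obtain ⟨m, f, hf1, hf2, hf3⟩ := exists_sqrt_partition (X := X) hfree c.support
      have hιf2 : ∀ i, star (ι (f i)) = ι (f i) := fun i => by rw [← map_star, hf2]
      have hιf1 : ∑ i, ι (f i) * ι (f i) = 1 := by
        simp only [← map_mul, ← map_sum]
        rw [hf1, map_one]
      refine ⟨∑ i, ι (f i) * b * ι (f i),
        hsum_mem _ _ fun i _ => I.mul_mem_right _ _ (I.mul_mem_left _ _ hbI), ?_⟩
      rw [dist_eq_norm]
      set c' : A := c.sum fun g f => ι f * (u g : A) with hc'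
      have hterm : ∀ g ∈ c.support, ∀ F : C(X, ℂ),
          ∑ i, ι (f i) * (ι F * (u g : A)) * ι (f i) = ι (E (ι F * (u g : A))) := by
        intro g hg F
        have h1 : ∀ i, ι (f i) * (ι F * (u g : A)) * ι (f i) =
            ι (F * (f i * (f i).comp (tr g⁻¹))) * (u g : A) := by
          intro i
          rw [mul_assoc, mul_assoc, h.u_ι, map_mul, map_mul]
          have h2 : ι (f i) * ι F = ι F * ι (f i) := by rw [← map_mul, mul_comm, map_mul]
          calc ι (f i) * (ι F * (ι ((f i).comp (tr g⁻¹)) * (u g : A))) =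
              (ι (f i) * ι F) * ι ((f i).comp (tr g⁻¹)) * (u g : A) := by noncomm_ring
            _ = _ := by rw [h2]; noncomm_ring
        rw [h.E_mon, Finset.sum_congr rfl fun i _ => h1 i]
        by_cases hg1 : g = 1
        · subst hg1
          rw [if_pos rfl, ← Finset.sum_mul, ← map_sum, ← Finset.mul_sum]
          have h2 : ∑ i, f i * (f i).comp (tr (1 : G)⁻¹) = 1 := by
            rw [← hf1]
            refine Finset.sum_congr rfl fun i _ => ?_
            rw [inv_one, tr_one]; rfl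
          rw [h2, mul_one, u_coe_one, mul_one]
        · rw [if_neg hg1, map_zero]
          refine Finset.sum_eq_zero fun i _ => ?_
          rw [hf3 g hg hg1 i, mul_zero, map_zero, zero_mul]
      have hΦc : ∑ i, ι (f i) * c' * ι (f i) = ι (E c') := by
        rw [hc']
        unfold Finsupp.sum
        simp only [Finset.mul_sum, Finset.sum_mul]
        rw [Finset.sum_comm, map_sum, map_sum]
        exact Finset.sum_congr rfl fun g hg => hterm g hg (c g)
      have hdiff : ι (E b) - ∑ i, ι (f i) * b * ι (f i) =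
          ι (E (b - c')) - ∑ i, ι (f i) * (b - c') * ι (f i) := by
        have h1 : ∑ i, ι (f i) * (b - c') * ι (f i) = ∑ i, ι (f i) * b * ι (f i) -
            ∑ i, ι (f i) * c' * ι (f i) := by
          rw [← Finset.sum_sub_distrib]
          refine Finset.sum_congr rfl fun i _ => ?_
          rw [mul_sub, sub_mul]
        rw [h1, hΦc, map_sub, map_sub]
        abel
      rw [hdiff]
      have h2 := norm_compression_le (fun i => ι (f i)) hιf2 hιf1 (b - c')
      have h3 : ‖ι (E (b - c'))‖ ≤ ‖E‖ * ‖b - c'‖ :=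
        (NonUnitalStarAlgHom.norm_apply_le ι _).trans (E.le_opNorm _)
      have h4 : ‖b - c'‖ < η / (8 + ‖E‖) := hc
      have h5 : (0:ℝ) < 8 + ‖E‖ := by positivity
      calc ‖ι (E (b - c')) - ∑ i, ι (f i) * (b - c') * ι (f i)‖ ≤
          ‖E‖ * ‖b - c'‖ + 6 * ‖b - c'‖ := (norm_sub_le _ _).trans (add_le_add h3 h2)
        _ ≤ (8 + ‖E‖) * ‖b - c'‖ := by nlinarith [norm_nonneg (b - c')]
        _ < (8 + ‖E‖) * (η / (8 + ‖E‖)) := mul_lt_mul_of_pos_left h4 h5
        _ = η := by field_simp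
    rwa [hI.closure_eq] at hcl
  -- translates
  have htrans : ∀ g : G, ι ((E b).comp (tr g⁻¹)) ∈ I := by
    intro g
    rw [← h.cov]
    exact I.mul_mem_right _ _ (I.mul_mem_left _ _ hclaim)
  have hpos : ∀ x, 0 ≤ E b x := fun x => h.pos a x
  obtain ⟨x₀, hx₀⟩ : ∃ x, E b x ≠ 0 := by
    by_contra hcon
    push Not at hcon
    exact hEb0 (by ext x; exact hcon x)
  let V : Set X := {x | E b x ≠ 0}
  have hV : IsOpen V := isOpen_ne_fun (E b).continuous continuous_const
  have hcov : ∀ x : X, ∃ g : G, g⁻¹ • x ∈ V := by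
    intro x
    obtain ⟨y, hy, hyV⟩ := (hmin x).inter_open_nonempty V hV ⟨x₀, hx₀⟩
    obtain ⟨g, rfl⟩ := hyV
    exact ⟨g⁻¹, by rw [inv_inv]; exact hy⟩
  obtain ⟨P, hP⟩ := isCompact_univ.elim_finite_subcover
    (fun g : G => (fun x : X => g⁻¹ • x) ⁻¹' V) (fun g => hV.preimage (continuous_const_smul _))
    (fun x _ => Set.mem_iUnion.2 (hcov x))
  let F : C(X, ℂ) := ∑ g ∈ P, (E b).comp (tr g⁻¹)
  have hF : ∀ x, F x = ∑ g ∈ P, E b (g⁻¹ • x) := by
    intro x
    simp only [F, ContinuousMap.sum_apply]; rfl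
  have hFne : ∀ x, F x ≠ 0 := by
    intro x hx
    rw [hF] at hx
    obtain ⟨g, hg, hgx⟩ := Set.mem_iUnion₂.1 (hP (Set.mem_univ x))
    have h1 := (Finset.sum_eq_zero_iff_of_nonneg fun g _ => hpos (g⁻¹ • x)).1 hx g hg
    exact hgx h1
  have hFI : ι F ∈ I := by
    simp only [F, map_sum]
    have : ∀ s : Finset G, ∑ g ∈ s, ι ((E b).comp (tr g⁻¹)) ∈ I := by
      intro s
      induction s using Finset.induction_on with
      | empty => simp
      | insert i s hi ih =>
        rw [Finset.sum_insert hi]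
        exact I.add_mem (htrans i) ih
    exact this P
  let F' : C(X, ℂ) := ⟨fun x => (F x)⁻¹, F.continuous.inv₀ hFne⟩
  have hFF' : F' * F = 1 := by
    ext x
    show (F x)⁻¹ * F x = 1
    exact inv_mul_cancel₀ (hFne x)
  have h1I : (1 : A) ∈ I := by
    rw [← map_one ι, ← hFF', map_mul]
    exact I.mul_mem_left _ _ hFI
  exact (TwoSidedIdeal.one_mem_iff I).1 h1I

end Pool.Agent.H107ZS
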