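import Pool.Agent.H107_ZS.TMUL

/-!
# Traces on crossed products (StTS); infinite dimension (StINF)
-/

set_option autoImplicit false
set_option linter.unusedSectionVars false

namespace Pool.Agent.H107ZS

open Topology Pool.Agent.H327R4.Pure
open scoped CStarAlgebra ComplexOrder

universe u v w

section

variable {G : Type u} [Group G] {X : Type v} [TopologicalSpace X] [CompactSpace X]
  [MulAction G X] [ContinuousConstSMul G X] {A : Type w} [CStarAlgebra A]
  {ι : C(X, ℂ) →⋆ₐ[ℂ] A} {u : G →* unitary A} {E : A →L[ℂ] C(X, ℂ)}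

theorem IsCross.u_ι (h : IsCross ι u E) (g : G) (f : C(X, ℂ)) :
    (u g : A) * ι f = ι (f.comp (tr g⁻¹)) * (u g : A) := by
  rw [← h.cov g f, mul_assoc _ (star (u g : A)) (u g : A), u_star_mul, mul_one]

theorem IsCross.E_mon (h : IsCross ι u E) (f : C(X, ℂ)) (g : G) [Decidable (g = 1)] :
    E (ι f * (u g : A)) = if g = 1 then f else 0 := by
  split_ifs with hc
  · rw [hc, u_coe_one, mul_one, h.coeff_one]
  · exact h.coeff_ne g f hc

theorem IsCross.mon_mul (h : IsCross ι u E) (f f' : C(X, ℂ)) (g g' : G) :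
    (ι f * (u g : A)) * (ι f' * (u g' : A)) = ι (f * f'.comp (tr g⁻¹)) * (u (g * g') : A) := by
  have h1 : (ι f * (u g : A)) * (ι f' * (u g' : A)) =
      ι f * ((u g : A) * ι f') * (u g' : A) := by noncomm_ring
  rw [h1, h.u_ι, map_mul, u_coe_mul]
  noncomm_ring

theorem IsCross.induction (h : IsCross ι u E) {p : A → Prop} (hz : p 0)
    (hadd : ∀ a b, p a → p b → p (a + b)) (hmon : ∀ f g, p (ι f * (u g : A)))
    (hcl : IsClosed {b | p b}) (b : A) : p b := by
  refine isClosed_property h.dense hcl (fun c => ?_) b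
  show p (c.sum fun g f => ι f * (u g : A))
  induction c using Finsupp.induction_linear with
  | zero => rw [Finsupp.sum_zero_index]; exact hz
  | add c c' hc hc' =>
    rw [Finsupp.sum_add_index']
    · exact hadd _ _ hc hc'
    · intro a; simp
    · intro a b₁ b₂; rw [map_add, add_mul]
  | single a f =>
    rw [Finsupp.sum_single_index (by simp)]
    exact hmon f a

/-- the real part of a complex function -/
noncomputable def reC (f : C(X, ℂ)) : C(X, ℝ) := ⟨fun x => (f x).re, Complex.continuous_re.comp f.continuous⟩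

/-- the imaginary part of a complex function -/
noncomputable def imC (f : C(X, ℂ)) : C(X, ℝ) := ⟨fun x => (f x).im, Complex.continuous_im.comp f.continuous⟩

theorem norm_reC_le (f : C(X, ℂ)) : ‖reC f‖ ≤ ‖f‖ :=
  (ContinuousMap.norm_le _ (norm_nonneg _)).2 fun x =>
    (Complex.abs_re_le_norm _).trans (f.norm_coe_le_norm x)

theorem norm_imC_le (f : C(X, ℂ)) : ‖imC f‖ ≤ ‖f‖ :=
  (ContinuousMap.norm_le _ (norm_nonneg _)).2 fun x =>
    (Complex.abs_im_le_norm _).trans (f.norm_coe_le_norm x)

theorem InvState.mono' {H : Subgroup G} {Λ : C(X, ℝ) →ₗ[ℝ] ℝ} (hΛ : InvState H Λ) {f g : C(X, ℝ)}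
    (h : ∀ y, f y ≤ g y) : Λ f ≤ Λ g := by
  have := hΛ.nonneg (g - f) (fun y => by simpa using h y)
  rw [map_sub] at this
  linarith

theorem InvState.abs_le {H : Subgroup G} {Λ : C(X, ℝ) →ₗ[ℝ] ℝ} (hΛ : InvState H Λ) (f : C(X, ℝ)) :
    |Λ f| ≤ ‖f‖ := by
  have h1 : Λ (‖f‖ • (1 : C(X, ℝ))) = ‖f‖ := by rw [map_smul, hΛ.one, smul_eq_mul, mul_one]
  rw [_root_.abs_le]
  constructor
  · have h2 : Λ (-(‖f‖ • (1 : C(X, ℝ)))) ≤ Λ f := hΛ.mono' fun y => by
      have := (_root_.abs_le.1 (f.norm_coe_le_norm y)).1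
      simpa using this
    rw [map_neg, h1] at h2
    exact h2
  · rw [← h1]
    refine hΛ.mono' fun y => ?_
    have := (_root_.abs_le.1 (f.norm_coe_le_norm y)).2
    simpa using this

/-- the complexification of a state -/
noncomputable def cplx (Λ : C(X, ℝ) →ₗ[ℝ] ℝ) : C(X, ℂ) →ₗ[ℂ] ℂ where
  toFun f := (Λ (reC f) : ℂ) + (Λ (imC f) : ℂ) * Complex.I
  map_add' f g := by
    have h1 : reC (f + g) = reC f + reC g := rfl
    have h2 : imC (f + g) = imC f + imC g := rfl
    rw [h1, h2, map_add, map_add]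
    push_cast
    ring
  map_smul' c f := by
    have h1 : reC (c • f) = c.re • reC f - c.im • imC f := by
      ext x
      show (c * f x).re = c.re * (f x).re - c.im * (f x).im
      rw [Complex.mul_re]
    have h2 : imC (c • f) = c.re • imC f + c.im • reC f := by
      ext x
      show (c * f x).im = c.re * (f x).im + c.im * (f x).re
      rw [Complex.mul_im]
    rw [h1, h2, map_sub, map_add, map_smul, map_smul, map_smul, map_smul]
    simp only [smul_eq_mul, RingHom.id_apply]
    apply Complex.ext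
    · simp [Complex.add_re, Complex.mul_re]
    · simp [Complex.add_im, Complex.mul_im]

theorem cplx_apply (Λ : C(X, ℝ) →ₗ[ℝ] ℝ) (f : C(X, ℂ)) :
    cplx Λ f = (Λ (reC f) : ℂ) + (Λ (imC f) : ℂ) * Complex.I := rfl

theorem cplx_re (Λ : C(X, ℝ) →ₗ[ℝ] ℝ) (f : C(X, ℂ)) : (cplx Λ f).re = Λ (reC f) := by
  rw [cplx_apply]; simp

theorem cplx_im (Λ : C(X, ℝ) →ₗ[ℝ] ℝ) (f : C(X, ℂ)) : (cplx Λ f).im = Λ (imC f) := by
  rw [cplx_apply]; simp

theorem cplx_bound {H : Subgroup G} {Λ : C(X, ℝ) →ₗ[ℝ] ℝ} (hΛ : InvState H Λ) (f : C(X, ℂ)) :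
    ‖cplx Λ f‖ ≤ 2 * ‖f‖ := by
  rw [cplx_apply]
  refine (norm_add_le _ _).trans ?_
  rw [norm_mul, Complex.norm_I, mul_one, Complex.norm_real, Complex.norm_real, Real.norm_eq_abs,
    Real.norm_eq_abs]
  have h1 := (hΛ.abs_le (reC f)).trans (norm_reC_le f)
  have h2 := (hΛ.abs_le (imC f)).trans (norm_imC_le f)
  linarith

theorem cplx_inv {H : Subgroup G} {Λ : C(X, ℝ) →ₗ[ℝ] ℝ} (hΛ : InvState H Λ) {g : G} (hg : g ∈ H)
    (f : C(X, ℂ)) : cplx Λ (f.comp (tr g)) = cplx Λ f := by
  rw [cplx_apply, cplx_apply]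
  have h1 : reC (f.comp (tr g)) = (reC f).comp (tr g) := rfl
  have h2 : imC (f.comp (tr g)) = (imC f).comp (tr g) := rfl
  rw [h1, h2, hΛ.inv g hg, hΛ.inv g hg]

end

/-- TS: invariant states give tracial states -/
theorem t_TS : StTS.{u} := by
  intro G _ X _ _ _ _ A _ ι u E h Λ hΛ
  classical
  let L : C(X, ℂ) →L[ℂ] ℂ := (cplx Λ).mkContinuous 2 (cplx_bound hΛ)
  have hL : ∀ f, L f = cplx Λ f := fun f => rfl
  have htr : ∀ x y : A, L (E (x * y)) = L (E (y * x)) := by
    intro x y
    refine h.induction (p := fun x => L (E (x * y)) = L (E (y * x))) (by simp) ?_ ?_ ?_ x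
    · intro a b ha hb; rw [add_mul, mul_add, map_add, map_add, map_add, map_add, ha, hb]
    · intro f g
      refine h.induction (p := fun y => L (E (ι f * (u g : A) * y)) =
        L (E (y * (ι f * (u g : A))))) (by simp) ?_ ?_ ?_ y
      · intro a b ha hb; rw [add_mul, mul_add, map_add, map_add, map_add, map_add, ha, hb]
      · intro f' g'
        rw [h.mon_mul, h.mon_mul, h.E_mon, h.E_mon]
        by_cases hg : g * g' = 1
        · have hg' : g' = g⁻¹ := (inv_eq_of_mul_eq_one_right hg).symm
          subst hg'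
          rw [if_pos hg, if_pos (inv_mul_cancel g), inv_inv, hL, hL,
            ← cplx_inv hΛ (Subgroup.mem_top g) (f * f'.comp (tr g⁻¹))]
          congr 1
          ext x
          show f (g • x) * f' (g⁻¹ • g • x) = f' x * f (g • x)
          rw [inv_smul_smul, mul_comm]
        · have hg' : ¬ g' * g = 1 := fun hh => hg (by
            have := inv_eq_of_mul_eq_one_right hh
            rw [← this, inv_mul_cancel])
          rw [if_neg hg, if_neg hg']
      · refine isClosed_eq ?_ ?_
        · exact L.continuous.comp (E.continuous.comp (continuous_const.mul continuous_id))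
        · exact L.continuous.comp (E.continuous.comp (continuous_id.mul continuous_const))
    · refine isClosed_eq ?_ ?_
      · exact L.continuous.comp (E.continuous.comp (continuous_id.mul continuous_const))
      · exact L.continuous.comp (E.continuous.comp (continuous_const.mul continuous_id))
  refine ⟨⟨L.comp E, fun x => ?_, htr⟩, ?_, ?_⟩
  · show 0 ≤ (cplx Λ (E (star x * x))).re ∧ (cplx Λ (E (star x * x))).im = 0
    rw [cplx_re, cplx_im]
    have h1 := fun y => Complex.nonneg_iff.1 (h.pos x y)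
    constructor
    · exact hΛ.nonneg _ fun y => (h1 y).1
    · have h2 : imC (E (star x * x)) = 0 := by
        ext y; exact (h1 y).2.symm
      rw [h2, map_zero]
  · show cplx Λ (E 1) = 1
    have h1 : E 1 = 1 := by
      have := h.coeff_one 1
      rwa [map_one] at this
    rw [h1]
    apply Complex.ext
    · rw [cplx_re]
      have : reC (1 : C(X, ℂ)) = 1 := by ext x; simp [reC]
      rw [this, hΛ.one]; rfl
    · rw [cplx_im]
      have : imC (1 : C(X, ℂ)) = 0 := by ext x; simp [imC]
      rw [this, map_zero]; rfl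
  · intro a f hf
    show (cplx Λ (E a)).re = Λ f
    rw [cplx_re]
    congr 1
    ext x
    exact (hf x).symm

/-- INF: not finite dimensional -/
theorem t_INF : StINF.{u} := by
  intro G _ X _ _ _ _ _ _ A _ ι u E h hfin
  classical
  have hinj : Function.Injective (ι : C(X, ℂ) → A) := by
    intro f g hfg
    have := congrArg E hfg
    rwa [h.coeff_one, h.coeff_one] at this
  have hfin' : FiniteDimensional ℂ C(X, ℂ) :=
    FiniteDimensional.of_injective (ι : C(X, ℂ) →ₐ[ℂ] A).toLinearMap hinj
  let d := Module.finrank ℂ C(X, ℂ)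
  obtain ⟨s, hs⟩ := Infinite.exists_subset_card_eq X (d + 1)
  have hex : ∀ x : s, ∃ f : C(X, ℂ), f x = 1 ∧ ∀ y : s, y ≠ x → f y = 0 := by
    intro x
    have hcl : IsClosed ((s.erase (x : X) : Finset X) : Set X) := Finset.isClosed _
    have hcl' : IsClosed ({(x : X)} : Set X) := isClosed_singleton
    have hdis : Disjoint ((s.erase (x : X) : Finset X) : Set X) ({(x : X)} : Set X) := by
      rw [Set.disjoint_singleton_right]; simp
    obtain ⟨f, hf0, hf1, -⟩ := exists_continuous_zero_one_of_isClosed hcl hcl' hdis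
    refine ⟨⟨fun y => (f y : ℂ), Complex.continuous_ofReal.comp f.continuous⟩, ?_, fun y hy => ?_⟩
    · show ((f x : ℝ) : ℂ) = 1
      rw [hf1 (Set.mem_singleton _)]; simp
    · show ((f y : ℝ) : ℂ) = 0
      rw [hf0 (by simp [Subtype.coe_injective.ne hy])]; simp
  choose f hf1 hf0 using hex
  have hli : LinearIndependent ℂ f := by
    rw [Fintype.linearIndependent_iff]
    intro c hc x
    have h1 := congrArg (fun F : C(X, ℂ) => F x) hc
    simp only [ContinuousMap.sum_apply, ContinuousMap.smul_apply, ContinuousMap.zero_apply] at h1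
    rw [Finset.sum_eq_single x] at h1
    · rw [hf1, smul_eq_mul, mul_one] at h1; exact h1
    · intro y _ hy
      rw [hf0 y x (Ne.symm hy), smul_zero]
    · intro hx; exact absurd (Finset.mem_univ _) hx
  have h2 := hli.fintype_card_le_finrank
  rw [Fintype.card_coe, hs] at h2
  exact absurd h2 (by simp [d])

end Pool.Agent.H107ZS
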