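import Pool.Agent.H107_ZS.Main
import Pool.Agent.H107_ZS.TEX
import Pool.Agent.H107_ZS.TNUC
import Pool.Agent.H107_ZS.TNU1
import Pool.Agent.H107_ZS.TTS
import Pool.Agent.H107_ZS.TMC
import Pool.Agent.H107_ZS.TSIM

/-!
# Z-stability of crossed products of free minimal actions of tame amenable groups
-/

set_option autoImplicit false

namespace Pool.Agent.H107ZS

open Topology Filter Pool.Agent.H327R4.Pure
open scoped CStarAlgebra ComplexOrder

universe u

/-- crossed products of free minimal actions of tame amenable groups on finite dimensional compact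
metrizable spaces satisfy the local form of Z-stability -/
theorem final (G : Type u) [Group G] [Countable G] [Infinite G] (X : Type u)
    [TopologicalSpace X] [CompactSpace X] [TopologicalSpace.MetrizableSpace X] [Nonempty X]
    [MulAction G X] [ContinuousConstSMul G X] (d : ℕ) (hG : Amenable G)
    (hT : Tame (⊤ : Subgroup G) ∨ MicroSupported G) (hf : FreeAct G X) (hm : MinAct G X)
    (hd : DimLE X d) (A : Type u) [CStarAlgebra A] (ι : C(X, ℂ) →⋆ₐ[ℂ] A) (u : G →* unitary A)
    (E : A →L[ℂ] C(X, ℂ)) (h : IsCross ι u E) [PartialOrder A] [StarOrderedRing A] :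
    Pool.Agent.H327R4.SI.ZST A :=
  main_of t_TS t_MC t_SIM (t_NUC t_NU1) t_INF G X d hG hT hf hm hd A ι u E h

end Pool.Agent.H107ZS
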