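import Pool.Agent.H107_ZS.DStubs5

/-!
# Properties of the balls
-/

set_option autoImplicit false

namespace Pool.Agent.H107ZS

open Topology

universe u v w

namespace TBL

section

variable {G : Type u} [Group G] {Y : Type v} [MulAction G Y] {x : Y → G → ℝ} {D : Finset G}

theorem jn_symm {y : Y} {d : G} (h : Jn x y d) : Jn x (d • y) d⁻¹ := by
  unfold Jn at *
  rw [inv_smul_smul, inv_inv]
  exact h.symm

open Classical in
theorem mem_succ {k : ℕ} {y : Y} {r : G} : r ∈ Bl x D (k + 1) y ↔ r ∈ Bl x D k y ∨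
    ∃ d, (d ∈ D ∨ d⁻¹ ∈ D) ∧ Jn x y d ∧ ∃ r' ∈ Bl x D k (d • y), r' * d = r := by
  rw [Bl, Finset.mem_union, Finset.mem_biUnion]
  refine or_congr Iff.rfl ⟨?_, ?_⟩
  · rintro ⟨d, hd, hr⟩
    rw [Finset.mem_filter, Finset.mem_union, Finset.mem_image] at hd
    obtain ⟨r', hr', h⟩ := Finset.mem_image.1 hr
    refine ⟨d, ?_, hd.2, r', hr', h⟩
    rcases hd.1 with h1 | ⟨e, he, h1⟩
    · exact Or.inl h1
    · right
      rw [← h1, inv_inv]
      exact he
  · rintro ⟨d, hd, hj, r', hr', h⟩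
    refine ⟨d, ?_, Finset.mem_image.2 ⟨r', hr', h⟩⟩
    rw [Finset.mem_filter, Finset.mem_union, Finset.mem_image]
    refine ⟨?_, hj⟩
    rcases hd with h1 | h1
    · exact Or.inl h1
    · exact Or.inr ⟨_, h1, inv_inv d⟩

theorem mono_succ (k : ℕ) (y : Y) : Bl x D k y ⊆ Bl x D (k + 1) y := by
  intro r hr
  exact mem_succ.2 (Or.inl hr)

theorem mono (y : Y) : Monotone fun k => Bl x D k y :=
  monotone_nat_of_le_succ fun k => mono_succ k y

theorem one_mem (k : ℕ) (y : Y) : (1 : G) ∈ Bl x D k y := by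
  refine mono y (Nat.zero_le k) ?_
  change (1 : G) ∈ Bl x D 0 y
  rw [Bl]
  exact Finset.mem_singleton_self _

variable [TopologicalSpace Y] {A B : Set Y} {γ : ℝ}

theorem jn_dir (hx : IsFrac A B D γ x) {y : Y} {d : G} (h : Jn x y d) : d ∈ D ∨ d⁻¹ ∈ D := by
  rcases h with h | h
  · exact Or.inl (hx.supp _ _ h).2.1
  · exact Or.inr (hx.supp _ _ h).2.1

theorem jn_AB (hx : IsFrac A B D γ x) {y : Y} {d : G} (h : Jn x y d) :
    (y ∈ A ∧ d • y ∈ B) ∨ (y ∈ B ∧ d • y ∈ A) := by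
  rcases h with h | h
  · exact Or.inl ⟨(hx.supp _ _ h).1, (hx.supp _ _ h).2.2⟩
  · right
    have h1 := hx.supp _ _ h
    rw [inv_smul_smul] at h1
    exact ⟨h1.2.2, h1.1⟩

theorem step_in (hx : IsFrac A B D γ x) {y : Y} {d : G} (h : Jn x y d) {k : ℕ} {r : G}
    (hr : r ∈ Bl x D k (d • y)) : r * d ∈ Bl x D (k + 1) y :=
  mem_succ.2 (Or.inr ⟨d, jn_dir hx h, h, r, hr, rfl⟩)

theorem step_out (hx : IsFrac A B D γ x) {y : Y} {d : G} (h : Jn x y d) {k : ℕ} {r : G}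
    (hr : r ∈ Bl x D k y) : r * d⁻¹ ∈ Bl x D (k + 1) (d • y) := by
  refine step_in hx (jn_symm h) ?_
  rw [inv_smul_smul]
  exact hr

theorem parity (hx : IsFrac A B D γ x) (hAB : Disjoint A B) : ∀ (n : ℕ) (y : Y) (r : G),
    r ∈ Bl x D n y → (∀ i < n, r ∉ Bl x D i y) →
    (y ∈ A → (Even n → r • y ∈ A) ∧ (¬ Even n → r • y ∈ B)) ∧
    (y ∈ B → (Even n → r • y ∈ B) ∧ (¬ Even n → r • y ∈ A)) := by
  intro n
  induction n with
  | zero =>
    intro y r hr _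
    rw [Bl, Finset.mem_singleton] at hr
    subst hr
    rw [one_smul]
    exact ⟨fun h => ⟨fun _ => h, fun h' => absurd Even.zero h'⟩,
      fun h => ⟨fun _ => h, fun h' => absurd Even.zero h'⟩⟩
  | succ n ih =>
    intro y r hr hn
    rcases mem_succ.1 hr with hr | ⟨d, hd, hj, r', hr', rfl⟩
    · exact absurd hr (hn n (Nat.lt_succ_self n))
    · have h1 : ∀ i < n, r' ∉ Bl x D i (d • y) := fun i hi h =>
        hn (i + 1) (Nat.succ_lt_succ hi) (step_in hx hj h)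
      obtain ⟨h2, h3⟩ := ih (d • y) r' hr' h1
      rw [mul_smul]
      have he : Even (n + 1) ↔ ¬ Even n := Nat.even_add_one
      rw [he, not_not]
      rcases jn_AB hx hj with ⟨ha, hb⟩ | ⟨hb, ha⟩
      · refine ⟨fun _ => ⟨fun h => (h3 hb).2 h, fun h => (h3 hb).1 h⟩, fun hb' => ?_⟩
        exact absurd hb' (Set.disjoint_left.1 hAB ha)
      · refine ⟨fun ha' => absurd hb (Set.disjoint_left.1 hAB ha'), fun _ =>
          ⟨fun h => (h2 ha).2 h, fun h => (h2 ha).1 h⟩⟩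

theorem distinct (hx : IsFrac A B D γ x) (hAB : Disjoint A B) {y : Y} {d : G} (h : Jn x y d)
    {k : ℕ} {r : G} (hr : r ∈ Bl x D k y) : ∃ j ≤ k + 1,
    (r ∈ Bl x D j y ∧ r * d⁻¹ ∉ Bl x D j (d • y)) ∨
      (r ∉ Bl x D j y ∧ r * d⁻¹ ∈ Bl x D j (d • y)) := by
  classical
  have hex : ∃ n, r ∈ Bl x D n y := ⟨k, hr⟩
  have hex' : ∃ n, r * d⁻¹ ∈ Bl x D n (d • y) := ⟨k + 1, step_out hx h hr⟩
  set n := Nat.find hex with hn
  set n' := Nat.find hex' with hn'
  have hnk : n ≤ k := Nat.find_min' hex hr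
  have hnk' : n' ≤ k + 1 := Nat.find_min' hex' (step_out hx h hr)
  rcases lt_trichotomy n n' with hlt | heq | hlt
  · exact ⟨n, hnk.trans (Nat.le_succ k), Or.inl ⟨Nat.find_spec hex, Nat.find_min hex' hlt⟩⟩
  · exfalso
    have h1 := parity hx hAB n y r (Nat.find_spec hex) (fun i hi => Nat.find_min hex hi)
    have h2 := parity hx hAB n (d • y) (r * d⁻¹) (by rw [heq]; exact Nat.find_spec hex')
      (fun i hi => Nat.find_min hex' (by rw [← hn', ← heq]; exact hi))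
    have h3 : (r * d⁻¹) • d • y = r • y := by rw [mul_smul, inv_smul_smul]
    rw [h3] at h2
    rcases jn_AB hx h with ⟨ha, hb⟩ | ⟨hb, ha⟩
    · by_cases he : Even n
      · exact Set.disjoint_left.1 hAB ((h1.1 ha).1 he) ((h2.2 hb).1 he)
      · exact Set.disjoint_left.1 hAB ((h2.2 hb).2 he) ((h1.1 ha).2 he)
    · by_cases he : Even n
      · exact Set.disjoint_left.1 hAB ((h2.1 ha).1 he) ((h1.2 hb).1 he)
      · exact Set.disjoint_left.1 hAB ((h1.2 hb).2 he) ((h2.1 ha).2 he)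
  · exact ⟨n', hnk', Or.inr ⟨Nat.find_min hex hlt, Nat.find_spec hex'⟩⟩

theorem lc_comp [ContinuousConstSMul G Y] {Z : Type*} {f : Y → Z} (hf : IsLocallyConstant f)
    (g : G) : IsLocallyConstant fun y => f (g • y) :=
  hf.comp_continuous (continuous_const_smul g)

theorem lc_jn [ContinuousConstSMul G Y] (hx : IsFrac A B D γ x) (d : G) :
    IsLocallyConstant fun y => Jn x y d := by
  have h1 := (hx.lc d).prodMk (lc_comp (hx.lc d⁻¹) d)
  exact h1.comp fun q : ℝ × ℝ => q.1 ≠ 0 ∨ q.2 ≠ 0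

theorem lc_Bl [ContinuousConstSMul G Y] (hx : IsFrac A B D γ x) :
    ∀ k, IsLocallyConstant (Bl x D k) := by
  classical
  intro k
  induction k with
  | zero => exact IsLocallyConstant.const _
  | succ k ih =>
    refine (IsLocallyConstant.iff_exists_open _).2 fun y => ?_
    have h1 : ∀ d : G, ∃ U : Set Y, IsOpen U ∧ y ∈ U ∧ ∀ z ∈ U, (Jn x z d ↔ Jn x y d) ∧
        Bl x D k (d • z) = Bl x D k (d • y) := by
      intro d
      obtain ⟨U, hU1, hU2, hU3⟩ := (IsLocallyConstant.iff_exists_open _).1 (lc_jn hx d) y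
      obtain ⟨V, hV1, hV2, hV3⟩ := (IsLocallyConstant.iff_exists_open _).1 (lc_comp ih d) y
      exact ⟨U ∩ V, hU1.inter hV1, ⟨hU2, hV2⟩, fun z hz => ⟨iff_of_eq (hU3 z hz.1), hV3 z hz.2⟩⟩
    choose U hU1 hU2 hU3 using h1
    obtain ⟨V, hV1, hV2, hV3⟩ := (IsLocallyConstant.iff_exists_open _).1 ih y
    refine ⟨V ∩ ⋂ d ∈ D ∪ D.image fun d => d⁻¹, U d, hV1.inter (isOpen_biInter_finset fun d _ => hU1 d),
      ⟨hV2, Set.mem_iInter₂.2 fun d _ => hU2 d⟩, fun z hz => ?_⟩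
    have h2 : ∀ d ∈ D ∪ D.image fun d => d⁻¹, (Jn x z d ↔ Jn x y d) ∧
        Bl x D k (d • z) = Bl x D k (d • y) := fun d hd => hU3 d z (Set.mem_iInter₂.1 hz.2 d hd)
    rw [Bl, Bl, hV3 z hz.1]
    congr 1
    refine Finset.biUnion_congr ?_ fun d hd => ?_
    · exact Finset.filter_congr fun d hd => (h2 d hd).1
    · rw [(h2 d (Finset.mem_filter.1 hd).1).2]

end

end TBL

theorem t_BL : StBL.{u, v} := by
  intro G _ Y _ _ _ A B D γ x hAB hx
  exact ⟨TBL.lc_Bl hx, TBL.mono, fun y d h => TBL.jn_symm h,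
    fun y d h k => ⟨fun r hr => TBL.step_out hx h hr, fun r hr => TBL.step_in hx h hr⟩,
    fun y d h k r hr => TBL.distinct hx hAB h hr⟩

end Pool.Agent.H107ZS
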