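import Pool.Agent.H107_ZS.DStubs5

/-!
# Rounding of a fractional matching with slack
-/

set_option autoImplicit false

namespace Pool.Agent.H107ZS

open Topology

universe u v w

namespace TMAINR

section

variable {G : Type u} [Group G] {Y : Type v} [MulAction G Y]

/-- the point `r • v` is nearer to `d • v` than to `v` -/
def Near (x : Y → G → ℝ) (D : Finset G) (R : ℕ) (v : Y) (d r : G) : Prop :=
  ∃ j ≤ R, r * d⁻¹ ∈ Bl x D j (d • v) ∧ r ∉ Bl x D j v

open Classical in
/-- `K` times the mass of the points beyond `d • v`, seen from `v` -/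
noncomputable def Mu (x : Y → G → ℝ) (D F : Finset G) (K R : ℕ) (p : Finset G → G → G)
    (m : Y → G → ℝ) (v : Y) (d : G) : ℝ :=
  ∑ k ∈ Finset.range K, ∑ s ∈ F,
    {r | Near x D R v d r}.indicator (fun _ => m v s) (p (Bl x D (k + 1) v) s)

end

/-- a selection from a finite cover of `A` by clopen sets -/
theorem select {G : Type u} [One G] {Y : Type v} [TopologicalSpace Y] (D : List G)
    (P : G → Set Y) (hP : ∀ d, IsClopen (P d)) : ∃ φ : Y → G, IsLocallyConstant φ ∧
    ∀ y, (∃ d ∈ D, y ∈ P d) → φ y ∈ D ∧ y ∈ P (φ y) := by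
  classical
  induction D with
  | nil => exact ⟨fun _ => 1, IsLocallyConstant.const _, fun y h => by simp at h⟩
  | cons d D ih =>
    obtain ⟨φ, hφ, h⟩ := ih
    refine ⟨fun y => if y ∈ P d then d else φ y, ?_, fun y hy => ?_⟩
    · have h1 : IsLocallyConstant fun y => (y ∈ P d) := by
        refine (IsLocallyConstant.iff_exists_open _).2 fun y => ?_
        by_cases hy : y ∈ P d
        · exact ⟨P d, (hP d).isOpen, hy, fun z hz => by simp [hz, hy]⟩
        · exact ⟨(P d)ᶜ, (hP d).compl.isOpen, hy, fun z hz => by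
            have hz' : z ∉ P d := hz
            simp [hz', hy]⟩
      have h2 := h1.prodMk hφ
      exact h2.comp fun q : Prop × G => if q.1 then d else q.2
    · dsimp only
      by_cases hyd : y ∈ P d
      · rw [if_pos hyd]
        exact ⟨List.mem_cons_self, hyd⟩
      · rw [if_neg hyd]
        obtain ⟨d', hd', hyd'⟩ := hy
        rcases List.mem_cons.1 hd' with h3 | h3
        · subst h3
          exact absurd hyd' hyd
        · obtain ⟨h4, h5⟩ := h y ⟨d', h3, hyd'⟩
          exact ⟨List.mem_cons_of_mem _ h4, h5⟩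

end TMAINR

open Classical in
theorem t_MAIN (hpa : StPA.{u}) (hbl : StBL.{u, v}) (hus : StUS.{u, v}) (hrc : StRC.{u, v})
    (htrf : StTRF.{u}) : StMAIN.{u, v} := by
  intro G _ _ Y _ _ _ _ _ _ hf hT A B D γ x₀ hAc hBc hAB hγ hx₀
  set ε : ℝ := γ / 8 with hε
  have hε0 : 0 < ε := by positivity
  obtain ⟨F, m, hm1, hm2, hm3, hm4, hm5⟩ := hT (D ∪ D.image fun d => d⁻¹) ε hε0
  obtain ⟨K, p, hK, hpm, hp⟩ := hpa G F ε hε0
  obtain ⟨H, hH⟩ := hus G D (K + 2)
  obtain ⟨x, hx, hnc⟩ := hrc G Y hf A B D γ x₀ hx₀ H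
  obtain ⟨hb1, hb2, hb3, hb4, hb5⟩ := hbl G Y A B D γ x hAB hx
  have hUS := hH Y A B γ x hf hAB hx hnc
  have hK' : (0 : ℝ) < K := Nat.cast_pos.2 hK
  have one_mem : ∀ k y, (1 : G) ∈ Bl x D k y := by
    intro k y
    refine hb2 y (Nat.zero_le k) ?_
    change (1 : G) ∈ Bl x D 0 y
    rw [Bl]
    exact Finset.mem_singleton_self _
  set W : Y → ℕ → G → G := fun v k s => p (Bl x D (k + 1) v) s with hW
  have hWm : ∀ v k s, W v k s ∈ Bl x D (k + 1) v := fun v k s => hpm _ _ ⟨1, one_mem _ _⟩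
  have jn_D : ∀ y d, Jn x y d → d ∈ D ∪ D.image fun d => d⁻¹ := by
    intro y d h
    rw [Finset.mem_union, Finset.mem_image]
    rcases h with h | h
    · exact Or.inl (hx.supp _ _ h).2.1
    · exact Or.inr ⟨_, (hx.supp _ _ h).2.1, inv_inv d⟩
  -- total mass
  have htot : ∀ v, ∑ k ∈ Finset.range K, ∑ s ∈ F, m v s = K := by
    intro v
    rw [hm4, Finset.sum_const, Finset.card_range, nsmul_eq_mul, mul_one]
  -- transfer of masses along edges
  have trans : ∀ v d, Jn x v d → ∀ Q : Set G,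
      ∑ k ∈ Finset.range K, ∑ s ∈ F, Q.indicator (fun _ => m v s) (W v k s) ≤
        ∑ k ∈ Finset.range K, ∑ s ∈ F, Q.indicator (fun _ => m (d • v) s) (W (d • v) k s * d) +
          2 * ε * K := by
    intro v d hj Q
    refine htrf G F ε K p d (fun k => Bl x D k v) (fun k => Bl x D k (d • v)) (m v) (m (d • v))
      hε0.le ?_ (hm2 v) (hm2 _) (hm3 _) (hm4 _) (hm5 d (jn_D v d hj) v) Q
    intro s hs hsd
    exact hp d (fun k => Bl x D k v) (fun k => Bl x D k (d • v)) (hb2 v) (hb2 _) (one_mem 0 v)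
      (one_mem 0 _) (fun k r hr => (hb4 v d hj k).1 r hr) (fun k r hr => (hb4 v d hj k).2 r hr) s hs hsd
  -- the sets
  set μ : Y → G → ℝ := fun v d => TMAINR.Mu x D F K (K + 2) p m v d with hμ
  set P : G → Set Y := fun d => {v | x v d ≠ 0 ∧ μ v d ≤ K * x v d} with hP
  have hPc : ∀ d, IsClopen (P d) := by
    intro d
    have hlm : ∀ y, ∀ᶠ z in 𝓝 y, ∀ s ∈ F, m z s = m y s := fun y =>
      (Filter.eventually_all_finset F).2 fun s _ => (hm1 s).eventually_eq y
    have hlb : ∀ y, ∀ᶠ z in 𝓝 y, ∀ j ∈ Finset.range (K + 3), Bl x D j z = Bl x D j y := fun y =>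
      (Filter.eventually_all_finset _).2 fun j _ => (hb1 j).eventually_eq y
    have hlb' : ∀ y, ∀ᶠ z in 𝓝 y, ∀ j ∈ Finset.range (K + 3),
        Bl x D j (d • z) = Bl x D j (d • y) := fun y =>
      (continuous_const_smul d).continuousAt.eventually (hlb (d • y))
    have hall : ∀ y, ∀ᶠ z in 𝓝 y, (z ∈ P d ↔ y ∈ P d) := by
      intro y
      filter_upwards [hlm y, hlb y, hlb' y, (hx.lc d).eventually_eq y] with z h1 h2 h3 h4
      have hnear : ∀ r, TMAINR.Near x D (K + 2) z d r ↔ TMAINR.Near x D (K + 2) y d r := by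
        intro r
        unfold TMAINR.Near
        refine exists_congr fun j => and_congr_right fun hj => ?_
        rw [h2 j (Finset.mem_range.2 (by omega)), h3 j (Finset.mem_range.2 (by omega))]
      have hmu : μ z d = μ y d := by
        simp only [hμ, TMAINR.Mu]
        refine Finset.sum_congr rfl fun k hk => Finset.sum_congr rfl fun s hs => ?_
        rw [h2 (k + 1) (Finset.mem_range.2 (by have := Finset.mem_range.1 hk; omega)), h1 s hs]
        congr 1
        ext r
        exact hnear r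
      have h4' : x z d = x y d := h4
      simp only [hP, Set.mem_ofPred_eq]
      rw [hmu, h4']
    have ho : ∀ S : Set Y, (∀ y, ∀ᶠ z in 𝓝 y, (z ∈ S ↔ y ∈ S)) → IsOpen S := by
      intro S hS
      rw [isOpen_iff_mem_nhds]
      intro y hy
      filter_upwards [hS y] with z hz
      exact hz.2 hy
    refine ⟨⟨ho _ fun y => ?_⟩, ho _ hall⟩
    filter_upwards [hall y] with z hz
    exact not_congr hz
  have hex : ∀ v ∈ A, ∃ d ∈ D.toList, v ∈ P d := by
    intro v hv
    by_contra hcon
    push Not at hcon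
    set D₁ : Finset G := D.filter fun d => x v d ≠ 0 with hD₁
    have h1 : ∀ d ∈ D₁, K * x v d < μ v d := by
      intro d hd
      rw [hD₁, Finset.mem_filter] at hd
      by_contra h2
      exact hcon d (Finset.mem_toList.2 hd.1) ⟨hd.2, not_lt.1 h2⟩
    have h2 : ∑ d ∈ D₁, x v d = 1 := by
      rw [← hx.out v hv, hD₁, Finset.sum_filter]
      refine Finset.sum_congr rfl fun d _ => ?_
      by_cases h : x v d = 0
      · rw [if_neg (not_not.2 h), h]
      · rw [if_pos h]
    have h3 : D₁.Nonempty := by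
      rw [Finset.nonempty_iff_ne_empty]
      intro h
      rw [h, Finset.sum_empty] at h2
      exact zero_ne_one h2
    have h4 : (K : ℝ) < ∑ d ∈ D₁, μ v d := by
      calc (K : ℝ) = ∑ d ∈ D₁, K * x v d := by rw [← Finset.mul_sum, h2, mul_one]
        _ < ∑ d ∈ D₁, μ v d := Finset.sum_lt_sum_of_nonempty h3 h1
    have h5 : ∑ d ∈ D₁, μ v d ≤ ∑ k ∈ Finset.range K, ∑ s ∈ F, m v s := by
      simp only [hμ, TMAINR.Mu]
      rw [Finset.sum_comm]
      refine Finset.sum_le_sum fun k hk => ?_
      rw [Finset.sum_comm]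
      refine Finset.sum_le_sum fun s _ => ?_
      by_cases h : ∃ d ∈ D₁, TMAINR.Near x D (K + 2) v d (W v k s)
      · obtain ⟨d, hd, j, hj, hn1, hn2⟩ := h
        rw [Finset.sum_eq_single_of_mem d hd]
        · exact Set.indicator_le_self' (fun _ _ => hm2 v s) _
        · intro d' hd' hne
          refine Set.indicator_of_notMem ?_ _
          rintro ⟨j', hj', hn1', hn2'⟩
          exact hne (hUS v (W v k s) d' d j' j (Or.inl (Finset.mem_filter.1 hd').2)
            (Or.inl (Finset.mem_filter.1 hd).2) hj' hj hn1' hn2' hn1 hn2)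
      · refine (Finset.sum_eq_zero fun d hd => ?_).trans_le (hm2 v s)
        exact Set.indicator_of_notMem (s := {r | TMAINR.Near x D (K + 2) v d r})
          (fun hn => h ⟨d, hd, hn⟩) (fun _ => m v s)
    rw [htot v] at h5
    exact absurd h4 (not_lt.2 h5)
  obtain ⟨φ, hφ, hφP⟩ := TMAINR.select D.toList P hPc
  refine ⟨φ, hφ, fun y hy => ?_, ?_⟩
  · obtain ⟨h1, h2⟩ := hφP y (hex y hy)
    exact ⟨Finset.mem_toList.1 h1, (hx.supp _ _ h2.1).2.2⟩
  · intro v hv v' hv' hvv
    by_contra hne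
    obtain ⟨_, hd1, hd2⟩ := hφP v (hex v hv)
    obtain ⟨_, hd1', hd2'⟩ := hφP v' (hex v' hv')
    set d := φ v with hd
    set d' := φ v' with hd'
    set b := d • v with hb
    have hvb : d⁻¹ • b = v := inv_smul_smul d v
    have hvb' : d'⁻¹ • b = v' := by rw [hvv]; exact inv_smul_smul d' v'
    have hdd : d ≠ d' := by
      intro h
      apply hne
      rw [← hvb, ← hvb', h]
    -- the weights
    have hw : x v d + x v' d' ≤ 1 - γ := by
      have h1 := hx.inn b
      have h2 : ∑ g ∈ ({d, d'} : Finset G), x (g⁻¹ • b) g ≤ ∑ g ∈ D, x (g⁻¹ • b) g := by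
        refine Finset.sum_le_sum_of_subset_of_nonneg ?_ fun _ _ _ => hx.nonneg _ _
        intro g hg
        rcases Finset.mem_insert.1 hg with h | h
        · rw [h]
          exact (hx.supp _ _ hd1).2.1
        · rw [Finset.mem_singleton.1 h]
          exact (hx.supp _ _ hd1').2.1
      rw [Finset.sum_pair hdd, hvb, hvb'] at h2
      exact h2.trans h1
    have hj : Jn x v d := Or.inl hd1
    have hj' : Jn x v' d' := Or.inl hd1'
    have hjb : Jn x b d⁻¹ := hb3 v d hj
    have hjb' : Jn x b d'⁻¹ := by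
      have h1 := hb3 v' d' hj'
      rw [← hvv] at h1
      exact h1
    -- the claim
    have claim : ∀ k < K, ∀ r ∈ Bl x D (k + 1) v, TMAINR.Near x D (K + 2) v d r ∨
        TMAINR.Near x D (K + 2) v' d' (r * d⁻¹ * d') := by
      intro k hk r hr
      obtain ⟨j, hjk, h1 | h1⟩ := hb5 v d hj (k + 1) r hr
      swap
      · exact Or.inl ⟨j, by omega, h1.2, h1.1⟩
      have hr2 : r * d⁻¹ ∈ Bl x D (k + 2) b := (hb4 v d hj (k + 1)).1 r hr
      obtain ⟨j', hjk', h2 | h2⟩ := hb5 b d'⁻¹ hjb' (k + 2) (r * d⁻¹) hr2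
      · right
        refine ⟨j', by omega, ?_, ?_⟩
        · rw [mul_inv_cancel_right, ← hvv]
          exact h2.1
        · rw [inv_inv, hvb'] at h2
          exact h2.2
      · exfalso
        rw [inv_inv, hvb'] at h2
        have h3 := hUS b (r * d⁻¹) d⁻¹ d'⁻¹ j j' hjb hjb' (by omega) (by omega)
          (by rw [inv_inv, inv_mul_cancel_right, hvb]; exact h1.1) h1.2
          (by rw [inv_inv, hvb']; exact h2.2) h2.1
        exact hdd (inv_injective h3)
    -- masses
    set Q : Set G := {r | TMAINR.Near x D (K + 2) v' d' (r * d⁻¹ * d')} with hQ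
    have h1 : (K : ℝ) ≤ μ v d + ∑ k ∈ Finset.range K, ∑ s ∈ F, Q.indicator (fun _ => m v s) (W v k s) := by
      rw [← htot v, hμ]
      simp only [TMAINR.Mu]
      rw [← Finset.sum_add_distrib]
      refine Finset.sum_le_sum fun k hk => ?_
      rw [← Finset.sum_add_distrib]
      refine Finset.sum_le_sum fun s _ => ?_
      have h2 : 0 ≤ Q.indicator (fun _ => m v s) (W v k s) :=
        Set.indicator_nonneg (fun _ _ => hm2 v s) _
      have h3 : 0 ≤ {r | TMAINR.Near x D (K + 2) v d r}.indicator (fun _ => m v s)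
          (p (Bl x D (k + 1) v) s) := Set.indicator_nonneg (fun _ _ => hm2 v s) _
      rcases claim k (Finset.mem_range.1 hk) (W v k s) (hWm v k s) with h4 | h4
      · rw [Set.indicator_of_mem (s := {r | TMAINR.Near x D (K + 2) v d r}) h4]
        linarith
      · rw [Set.indicator_of_mem (s := Q) h4]
        linarith
    have h2 := trans v d hj Q
    have h3 := trans b d'⁻¹ hjb' {r | r * d ∈ Q}
    have h4 : ∑ k ∈ Finset.range K, ∑ s ∈ F, Q.indicator (fun _ => m b s) (W b k s * d) =
        ∑ k ∈ Finset.range K, ∑ s ∈ F, {r | r * d ∈ Q}.indicator (fun _ => m b s) (W b k s) := by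
      refine Finset.sum_congr rfl fun k _ => Finset.sum_congr rfl fun s _ => ?_
      by_cases h : W b k s * d ∈ Q
      · rw [Set.indicator_of_mem h, Set.indicator_of_mem (s := {r | r * d ∈ Q}) h]
      · rw [Set.indicator_of_notMem h, Set.indicator_of_notMem (s := {r | r * d ∈ Q}) h]
    have h5 : ∑ k ∈ Finset.range K, ∑ s ∈ F, {r | r * d ∈ Q}.indicator (fun _ => m (d'⁻¹ • b) s)
        (W (d'⁻¹ • b) k s * d'⁻¹) = μ v' d' := by
      rw [hvb', hμ]
      simp only [TMAINR.Mu]
      refine Finset.sum_congr rfl fun k _ => Finset.sum_congr rfl fun s _ => ?_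
      have h6 : W v' k s * d'⁻¹ ∈ {r | r * d ∈ Q} ↔ TMAINR.Near x D (K + 2) v' d' (W v' k s) := by
        change TMAINR.Near x D (K + 2) v' d' (W v' k s * d'⁻¹ * d * d⁻¹ * d') ↔ _
        rw [mul_inv_cancel_right, inv_mul_cancel_right]
      by_cases h : TMAINR.Near x D (K + 2) v' d' (W v' k s)
      · rw [Set.indicator_of_mem (s := {r | r * d ∈ Q}) (h6.2 h)]
        exact (Set.indicator_of_mem (s := {r | TMAINR.Near x D (K + 2) v' d' r}) h
          (fun _ => m v' s)).symm
      · rw [Set.indicator_of_notMem (s := {r | r * d ∈ Q}) (fun h7 => h (h6.1 h7))]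
        exact (Set.indicator_of_notMem (s := {r | TMAINR.Near x D (K + 2) v' d' r}) h
          (fun _ => m v' s)).symm
    have h7 : μ v d ≤ K * x v d := hd2
    have h8 : μ v' d' ≤ K * x v' d' := hd2'
    rw [h5] at h3
    rw [h4] at h2
    have h9 : (K : ℝ) ≤ K * (x v d + x v' d') + 4 * ε * K := by
      calc (K : ℝ) ≤ μ v d + μ v' d' + 4 * ε * K := by linarith
        _ ≤ K * (x v d + x v' d') + 4 * ε * K := by linarith
    have h10 : (K : ℝ) * (x v d + x v' d') ≤ K * (1 - γ) := mul_le_mul_of_nonneg_left hw hK'.le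
    have h11 : 0 < γ * K := by positivity
    have h12 : 4 * ε * K = γ * K / 2 := by rw [hε]; ring
    nlinarith

end Pool.Agent.H107ZS
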