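import Pool.Agent.H107_ZS.DStubs5

/-!
# Nearest points of nested sequences of finite sets
-/

set_option autoImplicit false

namespace Pool.Agent.H107ZS

open Topology

universe u v w

namespace TPA

variable {G : Type u} [Group G]

open Classical in
/-- the element `r` of `T` with `e (r s⁻¹)` minimal -/
noncomputable def near (e : G → ℕ) (T : Finset G) (s : G) : G :=
  if h : T.Nonempty then (Finset.exists_min_image T (fun r => e (r * s⁻¹)) h).choose else 1

theorem near_mem (e : G → ℕ) {T : Finset G} (s : G) (h : T.Nonempty) : near e T s ∈ T := by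
  unfold near
  rw [dif_pos h]
  exact (Finset.exists_min_image T (fun r => e (r * s⁻¹)) h).choose_spec.1

theorem near_le (e : G → ℕ) {T : Finset G} (s : G) {r : G} (hr : r ∈ T) :
    e (near e T s * s⁻¹) ≤ e (r * s⁻¹) := by
  have h : T.Nonempty := ⟨r, hr⟩
  unfold near
  rw [dif_pos h]
  exact (Finset.exists_min_image T (fun r => e (r * s⁻¹)) h).choose_spec.2 r hr

end TPA

open Classical in
theorem t_PA : StPA.{u} := by
  intro G _ _ F ε hε
  obtain ⟨e, he⟩ := Countable.exists_injective_nat G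
  set E₀ : ℕ := ∑ s ∈ F, e s⁻¹ with hE₀
  have hE : ∀ s ∈ F, e s⁻¹ ≤ E₀ := fun s hs =>
    Finset.single_le_sum (f := fun s => e s⁻¹) (fun _ _ => Nat.zero_le _) hs
  obtain ⟨K, hK⟩ := exists_nat_gt (2 * ((E₀ : ℝ) + 1) / ε)
  have hK0 : 0 < K := by
    have : (0 : ℝ) < K := lt_of_le_of_lt (by positivity) hK
    exact_mod_cast this
  have hK1 : 2 * ((E₀ : ℝ) + 1) ≤ ε * K := by
    rw [div_lt_iff₀ hε] at hK
    linarith
  refine ⟨K, TPA.near e, hK0, fun T s h => TPA.near_mem e s h, ?_⟩
  intro d T T' hT hT' h1 h1' hTT' hT'T s hs hsd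
  -- windows
  set W : ℕ → Finset G := fun k => (T k).filter fun r => e (r * s⁻¹) ≤ E₀ with hW
  have hWm : Monotone W := fun i j hij => Finset.filter_subset_filter _ (hT hij)
  have hWc : ∀ k, (W k).card ≤ E₀ + 1 := by
    intro k
    have h2 : ((W k).image fun r => e (r * s⁻¹)).card = (W k).card :=
      Finset.card_image_of_injective _ fun a b h => mul_right_cancel (he h)
    rw [← h2, ← Finset.card_range (E₀ + 1)]
    refine Finset.card_le_card fun i hi => ?_
    obtain ⟨r, hr, rfl⟩ := Finset.mem_image.1 hi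
    exact Finset.mem_range.2 (Nat.lt_succ_of_le (Finset.mem_filter.1 hr).2)
  have h1k : ∀ k, (1 : G) ∈ T k := fun k => hT (Nat.zero_le k) h1
  have h1k' : ∀ k, (1 : G) ∈ T' k := fun k => hT' (Nat.zero_le k) h1'
  -- good indices
  have key : ∀ k, W k = W (k + 2) →
      TPA.near e (T (k + 1)) s = TPA.near e (T' (k + 1)) (s * d⁻¹) * d := by
    intro k hk
    have hk1 : W (k + 1) = W k := by
      refine le_antisymm ?_ (hWm (Nat.le_succ k))
      rw [hk]
      exact hWm (Nat.le_succ (k + 1))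
    set r := TPA.near e (T (k + 1)) s with hr
    set r' := TPA.near e (T' (k + 1)) (s * d⁻¹) with hr'
    have hrT : r ∈ T (k + 1) := TPA.near_mem e s ⟨1, h1k _⟩
    have hrT' : r' ∈ T' (k + 1) := TPA.near_mem e _ ⟨1, h1k' _⟩
    have hrE : e (r * s⁻¹) ≤ E₀ := by
      refine (TPA.near_le e s (h1k (k + 1))).trans ?_
      rw [one_mul]
      exact hE s hs
    have hds : ∀ q : G, q * (s * d⁻¹)⁻¹ = q * d * s⁻¹ := fun q => by group
    have hrE' : e (r' * d * s⁻¹) ≤ E₀ := by
      rw [← hds]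
      refine (TPA.near_le e (s * d⁻¹) (h1k' (k + 1))).trans ?_
      rw [one_mul]
      exact hE _ hsd
    -- `r` is in `T' (k+1) d`
    have hr1 : r ∈ W k := by
      rw [← hk1]
      exact Finset.mem_filter.2 ⟨hrT, hrE⟩
    have hr2 : r * d⁻¹ ∈ T' (k + 1) := hTT' k r (Finset.mem_filter.1 hr1).1
    -- `r' d` is in `T (k+1)`
    have hr3 : r' * d ∈ W (k + 1) := by
      rw [hk1, hk]
      exact Finset.mem_filter.2 ⟨hT'T (k + 1) r' hrT', hrE'⟩
    have h3 : e (r * s⁻¹) ≤ e (r' * d * s⁻¹) := TPA.near_le e s (Finset.mem_filter.1 hr3).1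
    have h4 : e (r' * d * s⁻¹) ≤ e (r * s⁻¹) := by
      have h5 := TPA.near_le e (s * d⁻¹) hr2
      rw [hds, hds, inv_mul_cancel_right] at h5
      exact h5
    exact mul_right_cancel (he (le_antisymm h3 h4))
  -- counting the bad indices
  have hcount : ∀ n, ((Finset.range n).filter fun k => W k ≠ W (k + 2)).card + (W 0).card + (W 1).card
      ≤ (W n).card + (W (n + 1)).card := by
    intro n
    induction n with
    | zero => simp
    | succ n ih =>
      rw [Finset.range_add_one, Finset.filter_insert]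
      split_ifs with h
      · rw [Finset.card_insert_of_notMem (by simp)]
        have h5 : (W n).card < (W (n + 2)).card :=
          Finset.card_lt_card ⟨hWm (by omega), fun h6 => h (le_antisymm (hWm (by omega)) h6)⟩
        have h6 : n + 1 + 1 = n + 2 := rfl
        rw [h6]
        omega
      · have h5 : W n = W (n + 2) := not_not.1 h
        have h6 : n + 1 + 1 = n + 2 := rfl
        rw [h6, ← h5]
        omega
  have hsub : {k : ℕ | k < K ∧ TPA.near e (T (k + 1)) s ≠
      TPA.near e (T' (k + 1)) (s * d⁻¹) * d} ⊆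
      (((Finset.range K).filter fun k => W k ≠ W (k + 2) : Finset ℕ) : Set ℕ) := by
    rintro k ⟨hk, hne⟩
    rw [Finset.mem_coe, Finset.mem_filter, Finset.mem_range]
    exact ⟨hk, fun h => hne (key k h)⟩
  have h7 := Set.ncard_le_ncard hsub (Finset.finite_toSet _)
  rw [Set.ncard_coe_finset] at h7
  have h8 := hcount K
  have h9 := hWc K
  have h10 := hWc (K + 1)
  have h11 : Set.ncard {k : ℕ | k < K ∧ TPA.near e (T (k + 1)) s ≠
      TPA.near e (T' (k + 1)) (s * d⁻¹) * d} ≤ 2 * (E₀ + 1) := by omega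
  calc (Set.ncard {k : ℕ | k < K ∧ TPA.near e (T (k + 1)) s ≠
      TPA.near e (T' (k + 1)) (s * d⁻¹) * d} : ℝ) ≤ ((2 * (E₀ + 1) : ℕ) : ℝ) := Nat.cast_le.2 h11
    _ = 2 * ((E₀ : ℝ) + 1) := by push_cast; ring
    _ ≤ ε * K := hK1

end Pool.Agent.H107ZS
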