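import Pool.Agent.H107_ZS.DStubs

/-!
# Cell structures with large cells (`StCE`)
-/

set_option autoImplicit false

namespace Pool.Agent.H107ZS

open Topology

universe u v w

section

variable {G : Type u} [Group G] {Y : Type v} [TopologicalSpace Y] [MulAction G Y]
  [ContinuousConstSMul G Y]

theorem isClopen_smul_preimage {V : Set Y} (hV : IsClopen V) (g : G) :
    IsClopen {y : Y | g • y ∈ V} :=
  hV.preimage (continuous_const_smul g)

/-- clopen neighbourhoods which are moved off themselves -/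
theorem exists_clopen_off [CompactSpace Y] [T2Space Y] [TotallyDisconnectedSpace Y]
    (hfree : FreeAct G Y) (F : Finset G) (y : Y) :
    ∃ U : Set Y, IsClopen U ∧ y ∈ U ∧ ∀ g ∈ F, g ≠ 1 → ∀ u ∈ U, g • u ∉ U := by
  classical
  induction F using Finset.induction_on with
  | empty => exact ⟨Set.univ, isClopen_univ, Set.mem_univ y, by simp⟩
  | insert g F _ ih =>
    obtain ⟨U, hU, hyU, hUF⟩ := ih
    by_cases hg : g = 1
    · refine ⟨U, hU, hyU, fun g' hg' hne => ?_⟩
      rcases Finset.mem_insert.1 hg' with h | h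
      · exact absurd (h.trans hg) hne
      · exact hUF g' h hne
    · have hne : y ≠ g • y := fun h => hg (hfree g y h.symm)
      obtain ⟨W, hW, hyW, hgW⟩ := exists_isClopen_of_totally_separated hne
      refine ⟨U ∩ (W ∩ {x | g • x ∈ Wᶜ}),
        hU.inter (hW.inter (isClopen_smul_preimage hW.compl g)), ⟨hyU, hyW, hgW⟩, ?_⟩
      intro g' hg' hne' u hu hu'
      rcases Finset.mem_insert.1 hg' with h | h
      · subst h
        exact hu.2.2 hu'.2.1
      · exact hUF g' h hne' u hu.1 hu'.1

/-- maximal separated clopen sets -/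
theorem exists_sep [CompactSpace Y] [T2Space Y] [TotallyDisconnectedSpace Y]
    (hfree : FreeAct G Y) (E : Finset G) (hE : E.Nonempty) :
    ∃ V : Set Y, IsClopen V ∧ (∀ e ∈ E, ∀ e' ∈ E, ∀ v ∈ V, ∀ v' ∈ V, e • v = e' • v' → e = e') ∧
      ∀ y, ∃ e ∈ E, ∃ e' ∈ E, (e⁻¹ * e')⁻¹ • y ∈ V := by
  classical
  let F : Finset G := (E ×ˢ E).image fun p => p.1⁻¹ * p.2
  have hF : ∀ e ∈ E, ∀ e' ∈ E, e⁻¹ * e' ∈ F := fun e he e' he' =>
    Finset.mem_image.2 ⟨(e, e'), Finset.mem_product.2 ⟨he, he'⟩, rfl⟩
  choose U hU hyU hUoff using fun y : Y => exists_clopen_off hfree F y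
  obtain ⟨T, hT⟩ := isCompact_univ.elim_nhds_subcover U
    (fun y _ => (hU y).isOpen.mem_nhds (hyU y))
  have main : ∀ T : Finset Y, ∃ V : Set Y, IsClopen V ∧
      (∀ e ∈ E, ∀ e' ∈ E, ∀ v ∈ V, ∀ v' ∈ V, e • v = e' • v' → e = e') ∧
      ∀ t ∈ T, ∀ y ∈ U t, ∃ e ∈ E, ∃ e' ∈ E, (e⁻¹ * e')⁻¹ • y ∈ V := by
    intro T
    induction T using Finset.induction_on with
    | empty => exact ⟨∅, isClopen_empty, by simp, by simp⟩
    | insert t T _ ih =>
      obtain ⟨V, hV, hsep, hcov⟩ := ih
      let Z : Set Y := ⋃ p ∈ E ×ˢ E, {y | (p.1⁻¹ * p.2)⁻¹ • y ∈ V}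
      have hZ : IsClopen Z := by
        refine ⟨?_, ?_⟩
        · exact (E ×ˢ E).finite_toSet.isClosed_biUnion fun p _ =>
            (isClopen_smul_preimage hV _).isClosed
        · exact isOpen_biUnion fun p _ => (isClopen_smul_preimage hV _).isOpen
      have hZmem : ∀ y, y ∈ Z ↔ ∃ e ∈ E, ∃ e' ∈ E, (e⁻¹ * e')⁻¹ • y ∈ V := by
        intro y
        simp only [Z, Set.mem_iUnion, Finset.mem_product, Set.mem_ofPred_eq]
        constructor
        · rintro ⟨p, hp, h⟩
          exact ⟨p.1, hp.1, p.2, hp.2, h⟩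
        · rintro ⟨e, he, e', he', h⟩
          exact ⟨(e, e'), ⟨he, he'⟩, h⟩
      refine ⟨V ∪ (U t \ Z), hV.union ((hU t).diff hZ), ?_, ?_⟩
      · intro e he e' he' v hv v' hv' heq
        rcases hv with hv | hv
        · rcases hv' with hv' | hv'
          · exact hsep e he e' he' v hv v' hv' heq
          · exfalso
            apply hv'.2
            rw [hZmem]
            refine ⟨e', he', e, he, ?_⟩
            have : v' = (e'⁻¹ * e) • v := by rw [mul_smul, heq, inv_smul_smul]
            rw [this, inv_smul_smul]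
            exact hv
        · rcases hv' with hv' | hv'
          · exfalso
            apply hv.2
            rw [hZmem]
            refine ⟨e, he, e', he', ?_⟩
            have : v = (e⁻¹ * e') • v' := by rw [mul_smul, ← heq, inv_smul_smul]
            rw [this, inv_smul_smul]
            exact hv'
          · by_contra hne
            have h1 : v = (e⁻¹ * e') • v' := by rw [mul_smul, ← heq, inv_smul_smul]
            have h2 : e⁻¹ * e' ≠ 1 := by
              intro h
              apply hne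
              rw [inv_mul_eq_one] at h
              exact h
            apply hUoff t (e⁻¹ * e') (hF e he e' he') h2 v' hv'.1
            rw [← h1]
            exact hv.1
      · intro s hs y hy
        rcases Finset.mem_insert.1 hs with h | h
        · subst h
          by_cases hyZ : y ∈ Z
          · obtain ⟨e, he, e', he', h⟩ := (hZmem y).1 hyZ
            exact ⟨e, he, e', he', Or.inl h⟩
          · obtain ⟨e, he⟩ := hE
            refine ⟨e, he, e, he, Or.inr ?_⟩
            simp only [inv_mul_cancel, inv_one, one_smul]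
            exact ⟨hy, hyZ⟩
        · obtain ⟨e, he, e', he', h'⟩ := hcov s h y hy
          exact ⟨e, he, e', he', Or.inl h'⟩
  obtain ⟨V, hV, hsep, hcov⟩ := main T
  refine ⟨V, hV, hsep, fun y => ?_⟩
  have hy : y ∈ ⋃ x ∈ T, U x := hT.2 (Set.mem_univ y)
  simp only [Set.mem_iUnion] at hy
  obtain ⟨t, ht, hyt⟩ := hy
  exact hcov t ht y hyt

/-- the set of the elements of a finite set which bring `y` into a clopen set is locally constant -/
theorem isLocallyConstant_filter {V : Set Y} (hV : IsClopen V) (D : Finset G) :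
    IsLocallyConstant fun y : Y => (open Classical in D.filter fun g => g⁻¹ • y ∈ V) := by
  classical
  rw [IsLocallyConstant.iff_eventually_eq]
  intro x
  have h : ∀ g ∈ D, ∀ᶠ y in 𝓝 x, (g⁻¹ • y ∈ V ↔ g⁻¹ • x ∈ V) := by
    intro g _
    by_cases hx : g⁻¹ • x ∈ V
    · filter_upwards [(isClopen_smul_preimage hV g⁻¹).isOpen.mem_nhds hx] with y hy
      exact ⟨fun _ => hx, fun _ => hy⟩
    · filter_upwards [(isClopen_smul_preimage hV.compl g⁻¹).isOpen.mem_nhds hx] with y hy
      exact ⟨fun h => absurd h hy, fun h => absurd h hx⟩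
  have h2 := (Filter.eventually_all_finset D).2 h
  filter_upwards [h2] with y hy
  ext g
  simp only [Finset.mem_filter]
  constructor
  · rintro ⟨h1, h3⟩
    exact ⟨h1, (hy g h1).1 h3⟩
  · rintro ⟨h1, h3⟩
    exact ⟨h1, (hy g h1).2 h3⟩

end

theorem t_CE : StCE.{u} := by
  classical
  intro G _ Y _ _ _ _ _ _ hfree K E0 hE0 hne0
  -- translate so that `1 ∈ E`
  obtain ⟨e0, he0⟩ := hne0
  set E : Finset G := E0.image fun e => e * e0⁻¹ with hEdef
  have hcard : E.card = E0.card := by
    rw [hEdef]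
    apply Finset.card_image_of_injective
    intro x y hxy
    exact mul_right_cancel hxy
  have hEK : ∀ e ∈ E, e ∈ K := by
    intro e he
    obtain ⟨x, hx, rfl⟩ := Finset.mem_image.1 he
    exact K.mul_mem (hE0 hx) (K.inv_mem (hE0 he0))
  have h1E : (1 : G) ∈ E := Finset.mem_image.2 ⟨e0, he0, by simp⟩
  obtain ⟨V, hV, hsep, hcov⟩ := exists_sep hfree E ⟨1, h1E⟩
  let D : Finset G := E ∪ (E ×ˢ E).image fun p => p.1⁻¹ * p.2
  have hDK : ∀ g ∈ D, g ∈ K := by
    intro g hg
    rcases Finset.mem_union.1 hg with h | h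
    · exact hEK g h
    · obtain ⟨p, hp, rfl⟩ := Finset.mem_image.1 h
      rw [Finset.mem_product] at hp
      exact K.mul_mem (K.inv_mem (hEK _ hp.1)) (hEK _ hp.2)
  let A : Y → Finset G := fun y => D.filter fun g => g⁻¹ • y ∈ V
  have hA : IsLocallyConstant A := isLocallyConstant_filter hV D
  have hAne : ∀ y, (A y).Nonempty := by
    intro y
    obtain ⟨e, he, e', he', h⟩ := hcov y
    refine ⟨e⁻¹ * e', Finset.mem_filter.2 ⟨?_, h⟩⟩
    exact Finset.mem_union_right _ (Finset.mem_image.2 ⟨(e, e'), Finset.mem_product.2 ⟨he, he'⟩, rfl⟩)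
  let φ : Finset G → G := fun T =>
    if h : (T ∩ E).Nonempty then h.choose else if h : T.Nonempty then h.choose else 1
  have hφ1 : ∀ T : Finset G, (T ∩ E).Nonempty → φ T ∈ T ∩ E := by
    intro T h
    simp only [φ, dif_pos h]
    exact h.choose_spec
  have hφ2 : ∀ T : Finset G, T.Nonempty → φ T ∈ T := by
    intro T h
    by_cases h' : (T ∩ E).Nonempty
    · exact (Finset.mem_inter.1 (hφ1 T h')).1
    · simp only [φ, dif_neg h', dif_pos h]
      exact h.choose_spec
  let c : Y → G := fun y => φ (A y)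
  have hcA : ∀ y, c y ∈ D ∧ (c y)⁻¹ • y ∈ V := by
    intro y
    have h := hφ2 (A y) (hAne y)
    exact ⟨(Finset.mem_filter.1 h).1, (Finset.mem_filter.1 h).2⟩
  have hcE : ∀ e ∈ E, ∀ v ∈ V, c (e • v) = e := by
    intro e he v hv
    have h1 : e ∈ A (e • v) ∩ E := by
      refine Finset.mem_inter.2 ⟨Finset.mem_filter.2 ⟨Finset.mem_union_left _ he, ?_⟩, he⟩
      rw [inv_smul_smul]
      exact hv
    have h2 := hφ1 _ ⟨e, h1⟩
    have h3 : c (e • v) ∈ E := (Finset.mem_inter.1 h2).2
    have h4 := (hcA (e • v)).2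
    refine hsep _ h3 e he _ h4 v hv ?_
    rw [smul_inv_smul]
  have hcV : ∀ v ∈ V, c v = 1 := by
    intro v hv
    have := hcE 1 h1E v hv
    rwa [one_smul] at this
  refine ⟨c, ⟨hA.comp φ, fun y => hDK _ (hcA y).1, fun y => hcV _ (hcA y).2⟩, ?_⟩
  intro v hv
  have hvV : v ∈ V := by
    have := (hcA v).2
    rwa [hv, inv_one, one_smul] at this
  rw [← hcard]
  have hsub : (E : Set G) ⊆ {k : G | c (k • v) = k} := fun e he => hcE e he v hvV
  have hfin : {k : G | c (k • v) = k}.Finite := by
    refine D.finite_toSet.subset ?_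
    intro k hk
    have h := (hcA (k • v)).1
    have hk' : c (k • v) = k := hk
    rw [hk'] at h
    exact h
  have := Set.ncard_le_ncard hsub hfin
  rwa [Set.ncard_coe_finset] at this

end Pool.Agent.H107ZS
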