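import Pool.Agent.H107_ZS.DStubs5
import Pool.Agent.H107_ZS.TCE

/-!
# Removing all small circulations
-/

set_option autoImplicit false

namespace Pool.Agent.H107ZS

open Topology

universe u v w

namespace TRC

variable {G : Type u} [Group G]

/-- `z` is a circulation pattern whose edges are exactly those in `E` -/
structure Pat (D : Finset G) (E : Finset (G × G)) (z : G → G → ℝ) : Prop where
  supp : ∀ h g, z h g ≠ 0 ↔ (h, g) ∈ E
  out : ∀ h, ∑ g ∈ D, z h g = 0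
  inn : ∀ h, ∑ g ∈ D, z (g⁻¹ * h) g = 0

end TRC

open Classical in
theorem t_RC (h1 : StRC1.{u, v}) : StRC.{u, v} := by
  intro G _ Y _ _ _ _ _ _ hf A B D γ x hx H
  -- separated clopen cover
  obtain ⟨n, V, hVc, hVcov, hVsep⟩ : ∃ (n : ℕ) (V : Fin n → Set Y), (∀ i, IsClopen (V i)) ∧
      (∀ y, ∃ i, y ∈ V i) ∧
      ∀ i, ∀ v ∈ V i, ∀ v' ∈ V i, ∀ h ∈ H, ∀ h' ∈ H, h • v = h' • v' → v = v' := by
    let F : Finset G := (H ×ˢ H).image fun p => p.1⁻¹ * p.2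
    choose U hU hyU hUoff using fun y : Y => exists_clopen_off hf F y
    obtain ⟨T, hT⟩ := isCompact_univ.elim_nhds_subcover U
      (fun y _ => (hU y).isOpen.mem_nhds (hyU y))
    refine ⟨T.card, fun i => U (T.equivFin.symm i), fun i => hU _, fun y => ?_, ?_⟩
    · obtain ⟨t, ht, hyt⟩ := Set.mem_iUnion₂.1 (hT.2 (Set.mem_univ y))
      refine ⟨T.equivFin ⟨t, ht⟩, ?_⟩
      change y ∈ U (T.equivFin.symm (T.equivFin ⟨t, ht⟩))
      rw [Equiv.symm_apply_apply]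
      exact hyt
    · intro i v hv v' hv' h hh h' hh' hvv
      by_contra hne
      have h2 : (h⁻¹ * h') • v' = v := by rw [mul_smul, ← hvv, inv_smul_smul]
      have h3 : h⁻¹ * h' ≠ 1 := by
        intro h4
        rw [h4, one_smul] at h2
        exact hne h2.symm
      refine hUoff _ (h⁻¹ * h') (Finset.mem_image.2 ⟨(h, h'), Finset.mem_product.2 ⟨hh, hh'⟩, rfl⟩)
        h3 v' hv' ?_
      rw [h2]
      exact hv
  -- the tasks
  have key : ∀ s : Finset (Finset (G × G) × Fin n),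
      (∀ τ ∈ s, τ.1 ⊆ H ×ˢ D ∧ τ.1.Nonempty ∧ ∃ z, TRC.Pat D τ.1 z) →
      ∃ x' : Y → G → ℝ, IsFrac A B D γ x' ∧ ∀ τ ∈ s, ∀ v ∈ V τ.2, ∃ p ∈ τ.1, x' (p.1 • v) p.2 = 0 := by
    intro s
    induction s using Finset.induction_on with
    | empty => exact fun _ => ⟨x, hx, fun τ hτ => absurd hτ (Finset.notMem_empty τ)⟩
    | insert τ s _ ih =>
      intro hs
      obtain ⟨x₁, hx₁, hk₁⟩ := ih fun τ hτ => hs τ (Finset.mem_insert_of_mem hτ)
      obtain ⟨hτ1, ⟨p, hp⟩, z, hz⟩ := hs τ (Finset.mem_insert_self _ _)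
      obtain ⟨x₂, hx₂, hsub, hk₂⟩ := h1 G Y hf A B D γ x₁ hx₁ z H
        (fun h g hne => Finset.mem_product.1 (hτ1 ((hz.supp h g).1 hne))) hz.out hz.inn
        ⟨p.1, p.2, (hz.supp _ _).2 hp⟩ (V τ.2) (hVc _) (hVsep _)
      refine ⟨x₂, hx₂, fun τ' hτ' v hv => ?_⟩
      rcases Finset.mem_insert.1 hτ' with h | h
      · subst h
        obtain ⟨h, g, hne, h0⟩ := hk₂ v hv
        exact ⟨(h, g), (hz.supp h g).1 hne, h0⟩
      · obtain ⟨q, hq, h0⟩ := hk₁ τ' h v hv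
        refine ⟨q, hq, ?_⟩
        by_contra hne
        exact hsub _ _ hne h0
  obtain ⟨x', hx', hk⟩ := key (((H ×ˢ D).powerset ×ˢ (Finset.univ : Finset (Fin n))).filter fun τ =>
    τ.1.Nonempty ∧ ∃ z, TRC.Pat D τ.1 z) (fun τ hτ => by
      rw [Finset.mem_filter, Finset.mem_product, Finset.mem_powerset] at hτ
      exact ⟨hτ.1.1, hτ.2.1, hτ.2.2⟩)
  refine ⟨x', hx', ?_⟩
  intro y z hz ho hi
  by_contra hne
  push Not at hne
  obtain ⟨h₀, g₀, hne⟩ := hne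
  obtain ⟨i, hyi⟩ := hVcov y
  set E : Finset (G × G) := (H ×ˢ D).filter fun p => z p.1 p.2 ≠ 0 with hE
  have hEz : ∀ h g, z h g ≠ 0 ↔ (h, g) ∈ E := by
    intro h g
    rw [hE, Finset.mem_filter, Finset.mem_product]
    exact ⟨fun h1 => ⟨⟨(hz h g h1).1, (hz h g h1).2.1⟩, h1⟩, fun h1 => h1.2⟩
  obtain ⟨p, hp, h0⟩ := hk (E, i) (by
    rw [Finset.mem_filter, Finset.mem_product, Finset.mem_powerset]
    exact ⟨⟨Finset.filter_subset _ _, Finset.mem_univ _⟩, ⟨(h₀, g₀), (hEz _ _).1 hne⟩, z, hEz, ho, hi⟩)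
    y hyi
  exact (hz p.1 p.2 ((hEz _ _).2 hp)).2.2 h0

end Pool.Agent.H107ZS
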