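import Pool.Agent.H107_ZS.DStubs5

/-!
# Rotating the flow around one circulation pattern
-/

set_option autoImplicit false

namespace Pool.Agent.H107ZS

open Topology

universe u v w

open Classical in
theorem t_RC1 : StRC1.{u, v} := by
  intro G _ Y _ _ _ hf A B D γ x hx z H hzs hzo hzi hz0 V hV hsep
  -- positive edges
  set Zp : Finset (G × G) := (H ×ˢ D).filter fun p => 0 < z p.1 p.2 with hZp
  have hZne : Zp.Nonempty := by
    obtain ⟨h, g, hne⟩ := hz0
    obtain ⟨hh, hg⟩ := hzs h g hne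
    by_cases hpos : 0 < z h g
    · exact ⟨(h, g), Finset.mem_filter.2 ⟨Finset.mem_product.2 ⟨hh, hg⟩, hpos⟩⟩
    · have hneg : z h g < 0 := lt_of_le_of_ne (not_lt.1 hpos) hne
      obtain ⟨g', hg', hp⟩ : ∃ g' ∈ D, 0 < z h g' := by
        by_contra hcon
        push Not at hcon
        have h1 : ∑ g' ∈ D, z h g' < ∑ g' ∈ D, (0 : ℝ) :=
          Finset.sum_lt_sum hcon ⟨g, hg, hneg⟩
        rw [hzo h, Finset.sum_const_zero] at h1
        exact lt_irrefl _ h1
      exact ⟨(h, g'), Finset.mem_filter.2 ⟨Finset.mem_product.2 ⟨hh, hg'⟩, hp⟩⟩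
  set Pres : Y → Prop := fun v => ∀ p ∈ H ×ˢ D, z p.1 p.2 ≠ 0 → x (p.1 • v) p.2 ≠ 0 with hPres
  set t : Y → ℝ := fun v => if v ∈ V ∧ Pres v then
    Zp.inf' hZne (fun p => x (p.1 • v) p.2 / z p.1 p.2) else 0 with ht
  have hxe : ∀ (g : G) (h : G) (y : Y), ∀ᶠ w in 𝓝 y, x (h • w) g = x (h • y) g := fun g h y =>
    (continuous_const_smul h).continuousAt.eventually ((hx.lc g).eventually_eq (h • y))
  have hte : ∀ y, ∀ᶠ w in 𝓝 y, t w = t y := by
    intro y
    have h1 : ∀ᶠ w in 𝓝 y, (w ∈ V ↔ y ∈ V) := by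
      by_cases hy : y ∈ V
      · filter_upwards [hV.isOpen.mem_nhds hy] with w hw
        exact ⟨fun _ => hy, fun _ => hw⟩
      · filter_upwards [hV.compl.isOpen.mem_nhds hy] with w hw
        exact ⟨fun h => absurd h hw, fun h => absurd h hy⟩
    have h2 : ∀ᶠ w in 𝓝 y, ∀ p ∈ H ×ˢ D, x (p.1 • w) p.2 = x (p.1 • y) p.2 :=
      (Filter.eventually_all_finset _).2 fun p _ => hxe p.2 p.1 y
    filter_upwards [h1, h2] with w hw1 hw2
    have h3 : Pres w ↔ Pres y := by
      simp only [hPres]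
      refine forall_congr' fun p => forall_congr' fun hp => ?_
      rw [hw2 p hp]
    have h4 : Zp.inf' hZne (fun p => x (p.1 • w) p.2 / z p.1 p.2) =
        Zp.inf' hZne (fun p => x (p.1 • y) p.2 / z p.1 p.2) := by
      refine Finset.inf'_congr hZne rfl fun p hp => ?_
      rw [hw2 p (Finset.mem_filter.1 hp).1]
    simp only [ht]
    rw [h4]
    by_cases h5 : y ∈ V ∧ Pres y
    · rw [if_pos h5, if_pos ⟨hw1.2 h5.1, h3.2 h5.2⟩]
    · rw [if_neg h5, if_neg fun h6 => h5 ⟨hw1.1 h6.1, h3.1 h6.2⟩]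
  have ht0 : ∀ y, 0 ≤ t y := by
    intro y
    simp only [ht]
    split_ifs
    · refine Finset.le_inf' hZne _ fun p hp => ?_
      exact div_nonneg (hx.nonneg _ _) (Finset.mem_filter.1 hp).2.le
    · exact le_rfl
  have ht1 : ∀ y, t y ≠ 0 → y ∈ V ∧ Pres y := by
    intro y h
    simp only [ht] at h
    by_contra h1
    rw [if_neg h1] at h
    exact h rfl
  have ht2 : ∀ y, ∀ p ∈ Zp, t y * z p.1 p.2 ≤ x (p.1 • y) p.2 := by
    intro y p hp
    have hpos : 0 < z p.1 p.2 := (Finset.mem_filter.1 hp).2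
    by_cases h1 : y ∈ V ∧ Pres y
    · have h2 : t y ≤ x (p.1 • y) p.2 / z p.1 p.2 := by
        simp only [ht]
        rw [if_pos h1]
        exact Finset.inf'_le (fun p : G × G => x (p.1 • y) p.2 / z p.1 p.2) hp
      calc t y * z p.1 p.2 ≤ x (p.1 • y) p.2 / z p.1 p.2 * z p.1 p.2 :=
            mul_le_mul_of_nonneg_right h2 hpos.le
        _ = x (p.1 • y) p.2 := div_mul_cancel₀ _ hpos.ne'
    · have h2 : t y = 0 := by
        simp only [ht]
        rw [if_neg h1]
      rw [h2, zero_mul]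
      exact hx.nonneg _ _
  have huniq : ∀ y, ∀ h ∈ H, ∀ h' ∈ H, t (h⁻¹ • y) ≠ 0 → t (h'⁻¹ • y) ≠ 0 → h = h' := by
    intro y h hh h' hh' h1 h2
    have h3 := hsep _ (ht1 _ h1).1 _ (ht1 _ h2).1 h hh h' hh' (by rw [smul_inv_smul, smul_inv_smul])
    have h4 : (h' * h⁻¹) • y = y := by
      rw [mul_smul, h3, smul_inv_smul]
    exact (mul_inv_eq_one.1 (hf _ _ h4)).symm
  -- the new weights
  set c : Y → G → ℝ := fun y g => ∑ h ∈ H, t (h⁻¹ • y) * z h g with hc
  have hc1 : ∀ y g, ∀ h ∈ H, t (h⁻¹ • y) ≠ 0 → c y g = t (h⁻¹ • y) * z h g := by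
    intro y g h hh hne
    simp only [hc]
    refine Finset.sum_eq_single_of_mem h hh fun h' hh' hne' => ?_
    have h1 : t (h'⁻¹ • y) = 0 := by
      by_contra h2
      exact hne' (huniq y h' hh' h hh h2 hne)
    rw [h1, zero_mul]
  have hc2 : ∀ y g, (∀ h ∈ H, t (h⁻¹ • y) = 0) → c y g = 0 := by
    intro y g h
    simp only [hc]
    exact Finset.sum_eq_zero fun h' hh' => by rw [h h' hh', zero_mul]
  have hsub : ∀ y g, x y g = 0 → c y g = 0 := by
    intro y g h0
    by_cases h1 : ∀ h ∈ H, t (h⁻¹ • y) = 0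
    · exact hc2 y g h1
    · push Not at h1
      obtain ⟨h, hh, hne⟩ := h1
      rw [hc1 y g h hh hne]
      have h2 : z h g = 0 := by
        by_contra h3
        have h4 := (ht1 _ hne).2 (h, g) (Finset.mem_product.2 (hzs h g h3)) h3
        rw [smul_inv_smul] at h4
        exact h4 h0
      rw [h2, mul_zero]
  have hle : ∀ y g, c y g ≤ x y g := by
    intro y g
    by_cases h1 : ∀ h ∈ H, t (h⁻¹ • y) = 0
    · rw [hc2 y g h1]
      exact hx.nonneg _ _
    · push Not at h1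
      obtain ⟨h, hh, hne⟩ := h1
      rw [hc1 y g h hh hne]
      by_cases h2 : 0 < z h g
      · have h3 := ht2 (h⁻¹ • y) (h, g) (Finset.mem_filter.2
          ⟨Finset.mem_product.2 (hzs h g h2.ne'), h2⟩)
        rw [smul_inv_smul] at h3
        exact h3
      · have h3 : t (h⁻¹ • y) * z h g ≤ 0 :=
          mul_nonpos_of_nonneg_of_nonpos (ht0 _) (not_lt.1 h2)
        exact h3.trans (hx.nonneg _ _)
  have hsupp : ∀ y g, x y g - c y g ≠ 0 → x y g ≠ 0 := by
    intro y g h h0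
    rw [h0, hsub y g h0, sub_zero] at h
    exact h rfl
  have hout : ∀ y, ∑ g ∈ D, c y g = 0 := by
    intro y
    simp only [hc]
    rw [Finset.sum_comm]
    refine Finset.sum_eq_zero fun h _ => ?_
    rw [← Finset.mul_sum, hzo h, mul_zero]
  have hinn : ∀ y, ∑ g ∈ D, c (g⁻¹ • y) g = 0 := by
    intro y
    simp only [hc]
    -- write as a sum over `p = g h`
    have h1 : ∀ g ∈ D, ∑ h ∈ H, t (h⁻¹ • g⁻¹ • y) * z h g =
        ∑ p ∈ (D ×ˢ H).image (fun q => q.1 * q.2), t (p⁻¹ • y) * z (g⁻¹ * p) g := by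
      intro g hg
      have h2 : ∑ h ∈ H, t (h⁻¹ • g⁻¹ • y) * z h g =
          ∑ p ∈ H.image (fun h => g * h), t (p⁻¹ • y) * z (g⁻¹ * p) g := by
        rw [Finset.sum_image fun a _ b _ h => mul_left_cancel h]
        refine Finset.sum_congr rfl fun h _ => ?_
        rw [inv_mul_cancel_left, mul_inv_rev, mul_smul]
      rw [h2]
      refine Finset.sum_subset (fun p hp => ?_) fun p _ hp => ?_
      · obtain ⟨h, hh, rfl⟩ := Finset.mem_image.1 hp
        exact Finset.mem_image.2 ⟨(g, h), Finset.mem_product.2 ⟨hg, hh⟩, rfl⟩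
      · have h3 : z (g⁻¹ * p) g = 0 := by
          by_contra h4
          exact hp (Finset.mem_image.2 ⟨g⁻¹ * p, (hzs _ _ h4).1, mul_inv_cancel_left g p⟩)
        rw [h3, mul_zero]
    rw [Finset.sum_congr rfl h1, Finset.sum_comm]
    refine Finset.sum_eq_zero fun p _ => ?_
    rw [← Finset.mul_sum, hzi p, mul_zero]
  refine ⟨fun y g => x y g - c y g, ⟨fun g => ?_, fun y g => sub_nonneg.2 (hle y g),
    fun y g h => hx.supp y g (hsupp y g h), fun y hy => ?_, fun y => ?_⟩, fun y g h => hsupp y g h,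
    fun v hv => ?_⟩
  · refine (IsLocallyConstant.iff_eventually_eq _).2 fun y => ?_
    have h1 : ∀ᶠ w in 𝓝 y, ∀ h ∈ H, t (h⁻¹ • w) = t (h⁻¹ • y) :=
      (Filter.eventually_all_finset _).2 fun h _ =>
        (continuous_const_smul h⁻¹).continuousAt.eventually (hte (h⁻¹ • y))
    filter_upwards [h1, (hx.lc g).eventually_eq y] with w hw1 hw2
    have hw2' : x w g = x y g := hw2
    rw [hw2']
    simp only [hc]
    congr 1
    exact Finset.sum_congr rfl fun h hh => by rw [hw1 h hh]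
  · rw [Finset.sum_sub_distrib, hout, sub_zero]
    exact hx.out y hy
  · rw [Finset.sum_sub_distrib, hinn, sub_zero]
    exact hx.inn y
  · by_cases hp : Pres v
    · obtain ⟨p, hpZ, hpe⟩ := Finset.exists_mem_eq_inf' hZne
        (fun p : G × G => x (p.1 • v) p.2 / z p.1 p.2)
      have hpos : 0 < z p.1 p.2 := (Finset.mem_filter.1 hpZ).2
      have hpH : p.1 ∈ H := (Finset.mem_product.1 (Finset.mem_filter.1 hpZ).1).1
      refine ⟨p.1, p.2, hpos.ne', ?_⟩
      have h1 : t v = x (p.1 • v) p.2 / z p.1 p.2 := by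
        simp only [ht]
        rw [if_pos ⟨hv, hp⟩, hpe]
      by_cases h2 : t v = 0
      · have h3 : x (p.1 • v) p.2 = 0 := by
          rw [h2] at h1
          rcases div_eq_zero_iff.1 h1.symm with h4 | h4
          · exact h4
          · exact absurd h4 hpos.ne'
        dsimp only
        rw [h3, hsub _ _ h3, sub_zero]
      · dsimp only
        have h4 : p.1⁻¹ • p.1 • v = v := inv_smul_smul _ _
        rw [hc1 (p.1 • v) p.2 p.1 hpH (by rw [h4]; exact h2), h4, h1, div_mul_cancel₀ _ hpos.ne',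
          sub_self]
    · simp only [hPres] at hp
      push Not at hp
      obtain ⟨p, _, h1, h2⟩ := hp
      refine ⟨p.1, p.2, h1, ?_⟩
      dsimp only
      rw [h2, hsub _ _ h2, sub_zero]

end Pool.Agent.H107ZS
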