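import Pool.Agent.H107_ZS.DStubs

/-!
# Transitivity of transport (StTR)
-/

set_option autoImplicit false

namespace Pool.Agent.H107ZS

open Topology

universe u v w

section

variable {G : Type u} [Group G] {Y : Type v} [TopologicalSpace Y] [MulAction G Y]
  [ContinuousConstSMul G Y]

/-- transport with an arbitrary finite index type -/
theorem Sub.of_fintype {H : Subgroup G} {a b : C(Y, ℕ)} {κ : Type w} [Fintype κ] (t : κ → G)
    (c : κ → C(Y, ℕ)) (ht : ∀ i, t i ∈ H) (ha : ∀ y, ∑ i, c i y = a y)
    (hb : ∀ y, ∑ i, c i ((t i)⁻¹ • y) ≤ b y) : Sub H a b := by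
  classical
  let e := (Fintype.equivFin κ).symm
  refine ⟨Fintype.card κ, fun i => t (e i), fun i => c (e i), fun i => ht _, fun y => ?_,
    fun y => ?_⟩
  · rw [← ha y]
    exact Equiv.sum_comp e (fun i => c i y)
  · refine le_trans (le_of_eq ?_) (hb y)
    exact Equiv.sum_comp e (fun i => c i ((t i)⁻¹ • y))

end

/-- refinement of two finite families of natural numbers -/
theorem exists_refine {n m : ℕ} (p : Fin n → ℕ) (q : Fin m → ℕ) (h : ∑ i, p i ≤ ∑ j, q j) :
    ∃ e : Fin n → Fin m → ℕ, (∀ i, ∑ j, e i j = p i) ∧ ∀ j, ∑ i, e i j ≤ q j := by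
  classical
  induction n generalizing q with
  | zero => exact ⟨fun i => i.elim0, fun i => i.elim0, fun j => by simp⟩
  | succ n ih =>
    have key : ∀ (k : ℕ) (q : Fin m → ℕ), k ≤ ∑ j, q j →
        ∃ r : Fin m → ℕ, ∑ j, r j = k ∧ ∀ j, r j ≤ q j := by
      intro k
      induction k with
      | zero => intro q _; exact ⟨fun _ => 0, by simp, fun j => Nat.zero_le _⟩
      | succ k ihk =>
        intro q hq
        obtain ⟨r, hr, hrq⟩ := ihk q (by omega)
        have : ∃ j, r j < q j := by
          by_contra hcon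
          push Not at hcon
          have := Finset.sum_le_sum (fun j (_ : j ∈ Finset.univ) => hcon j)
          omega
        obtain ⟨j, hj⟩ := this
        refine ⟨Function.update r j (r j + 1), ?_, ?_⟩
        · rw [Finset.sum_update_of_mem (Finset.mem_univ j)]
          have := Finset.sum_sdiff (f := r) (Finset.subset_univ {j})
          simp at this
          omega
        · intro i
          by_cases hi : i = j
          · subst hi; simp; omega
          · simp [Function.update_of_ne hi, hrq]
    rw [Fin.sum_univ_succ] at h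
    obtain ⟨r, hr, hrq⟩ := key (p 0) q (by omega)
    obtain ⟨e, he, heq⟩ := ih (fun i => p i.succ) (fun j => q j - r j) (by
      have : ∑ j, (q j - r j) = ∑ j, q j - ∑ j, r j := by
        exact Finset.sum_tsub_distrib _ (fun j _ => hrq j)
      omega)
    refine ⟨Fin.cons r e, ?_, ?_⟩
    · intro i
      refine Fin.cases ?_ (fun i => ?_) i
      · simpa using hr
      · simpa using he i
    · intro j
      rw [Fin.sum_univ_succ]
      have := heq j
      have := hrq j
      simp only [Fin.cons_zero, Fin.cons_succ]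
      omega

/-- TR: transitivity of transport -/
theorem t_TR : StTR.{u} := by
  intro G _ Y _ _ _ H a b c ⟨n, t, f, ht, hfa, hfb⟩ ⟨m, r, d, hr, hdb, hdc⟩
  classical
  -- pointwise choice of refinements
  have hex : ∀ pq : (Fin n → ℕ) × (Fin m → ℕ), ∃ e : Fin n → Fin m → ℕ,
      (∑ i, pq.1 i ≤ ∑ j, pq.2 j) → (∀ i, ∑ j, e i j = pq.1 i) ∧ ∀ j, ∑ i, e i j ≤ pq.2 j := by
    intro pq
    by_cases h : ∑ i, pq.1 i ≤ ∑ j, pq.2 j
    · obtain ⟨e, he⟩ := exists_refine pq.1 pq.2 h
      exact ⟨e, fun _ => he⟩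
    · exact ⟨fun _ _ => 0, fun h' => absurd h' h⟩
  choose e he using hex
  let P : Y → (Fin n → ℕ) × (Fin m → ℕ) := fun y => (fun i => f i ((t i)⁻¹ • y), fun j => d j y)
  have hP : Continuous P := by
    refine Continuous.prodMk (continuous_pi fun i => ?_) (continuous_pi fun j => ?_)
    · exact (f i).continuous.comp (continuous_const_smul _)
    · exact (d j).continuous
  have hPy : ∀ y, ∑ i, (P y).1 i ≤ ∑ j, (P y).2 j := by
    intro y
    show ∑ i, f i ((t i)⁻¹ • y) ≤ ∑ j, d j y
    rw [hdb y]
    exact hfb y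
  let E : Fin n → Fin m → C(Y, ℕ) := fun i j =>
    ⟨fun y => e (P y) i j, (continuous_of_discreteTopology
      (f := fun pq : (Fin n → ℕ) × (Fin m → ℕ) => e pq i j)).comp hP⟩
  refine Sub.of_fintype (κ := Fin n × Fin m) (fun p => r p.2 * t p.1)
    (fun p => (E p.1 p.2).comp (tr (t p.1))) (fun p => H.mul_mem (hr _) (ht _)) ?_ ?_
  · intro y
    rw [Fintype.sum_prod_type]
    rw [← hfa y]
    refine Finset.sum_congr rfl fun i _ => ?_
    have := (he (P (t i • y)) (hPy _)).1 i
    show ∑ j, e (P (t i • y)) i j = f i y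
    rw [this]
    show f i ((t i)⁻¹ • t i • y) = f i y
    rw [inv_smul_smul]
  · intro y
    rw [Fintype.sum_prod_type_right]
    refine le_trans (Finset.sum_le_sum fun j _ => ?_) (hdc y)
    have := (he (P ((r j)⁻¹ • y)) (hPy _)).2 j
    refine le_trans (le_of_eq ?_) this
    refine Finset.sum_congr rfl fun i _ => ?_
    show e (P (t i • (r j * t i)⁻¹ • y)) i j = e (P ((r j)⁻¹ • y)) i j
    rw [mul_inv_rev, mul_smul, smul_inv_smul]

end Pool.Agent.H107ZS
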