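import Pool.Agent.H107_ZS.DStubs5
import Pool.Agent.H107_ZS.TTR

/-!
# Rounding for multiplicities
-/

set_option autoImplicit false

namespace Pool.Agent.H107ZS

open Topology

universe u v w

namespace TRED

section cnt

variable {P : Type} [Fintype P] {N : ℕ}

theorem cnt (e : P ≃ Fin N) (l k : ℕ) (h : l + k ≤ N) :
    ((Finset.univ : Finset P).filter fun q => l ≤ (e q : ℕ) ∧ (e q : ℕ) < l + k).card = k := by
  classical
  have h1 : (((Finset.univ : Finset P).filter fun q => l ≤ (e q : ℕ) ∧ (e q : ℕ) < l + k).image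
      fun q => (e q : ℕ)) = Finset.Ico l (l + k) := by
    ext i
    rw [Finset.mem_image, Finset.mem_Ico]
    constructor
    · rintro ⟨q, hq, rfl⟩
      exact (Finset.mem_filter.1 hq).2
    · intro hi
      refine ⟨e.symm ⟨i, lt_of_lt_of_le hi.2 h⟩, ?_, ?_⟩
      · rw [Finset.mem_filter, Equiv.apply_symm_apply]
        exact ⟨Finset.mem_univ _, hi⟩
      · rw [Equiv.apply_symm_apply]
  have h2 := Finset.card_image_of_injective ((Finset.univ : Finset P).filter fun q =>
    l ≤ (e q : ℕ) ∧ (e q : ℕ) < l + k) (f := fun q => (e q : ℕ))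
    (fun q q' hq => e.injective (Fin.ext hq))
  rw [← h2, h1, Nat.card_Ico]
  omega

end cnt

section act

variable (G : Type u) [Group G] (P : Type) [Group P] (Y : Type v) [MulAction G Y]

/-- the action of `G × P` on `Y × P` -/
@[reducible] def act : MulAction (G × P) (Y × P) where
  smul t v := (t.1 • v.1, t.2 * v.2)
  one_smul v := by
    change ((1 : G) • v.1, (1 : P) * v.2) = v
    rw [one_smul, one_mul]
  mul_smul t t' v := by
    change ((t.1 * t'.1) • v.1, t.2 * t'.2 * v.2) = (t.1 • t'.1 • v.1, t.2 * (t'.2 * v.2))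
    rw [mul_smul, mul_assoc]

end act

open Classical in
theorem main (hmain : StMAIN.{u, u}) (G : Type u) [Group G] [Countable G] (Y : Type u)
    [TopologicalSpace Y] [CompactSpace Y] [T2Space Y] [TotallyDisconnectedSpace Y] [MulAction G Y]
    [ContinuousConstSMul G Y] (hf : FreeAct G Y) (hT : TopAm G Y) (a b : C(Y, ℕ)) (D : Finset G)
    (γ : ℝ) (X : Y → G → ℝ) (hγ : 0 < γ) (hγ1 : γ ≤ 1) (hX : IsFlow a b D γ X) (M N : ℕ)
    (hMa : ∀ y, a y ≤ M) (hMb : ∀ y, b y ≤ M) (hN : N = 2 * M + 2) (P : Type) [Group P]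
    [Fintype P] [TopologicalSpace P] [DiscreteTopology P] (e : P ≃ Fin N) :
    Sub (⊤ : Subgroup G) a b := by
  let _ := act G P Y
  have hsm : ∀ (t : G × P) (v : Y × P), t • v = (t.1 • v.1, t.2 * v.2) := fun _ _ => rfl
  have hinv : ∀ (t : G × P) (v : Y × P), t⁻¹ • v = (t.1⁻¹ • v.1, t.2⁻¹ * v.2) := fun _ _ => rfl
  have : ContinuousConstSMul (G × P) (Y × P) := ⟨fun t => by
    change Continuous fun v : Y × P => (t.1 • v.1, t.2 * v.2)
    refine Continuous.prodMk ((continuous_const_smul t.1).comp continuous_fst) ?_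
    exact (continuous_of_discreteTopology (f := fun q : P => t.2 * q)).comp continuous_snd⟩
  have hfree : FreeAct (G × P) (Y × P) := by
    intro t v hv
    rw [hsm] at hv
    have h1 : t.1 • v.1 = v.1 := congrArg Prod.fst hv
    have h2 : t.2 * v.2 = v.2 := congrArg Prod.snd hv
    exact Prod.ext (hf _ _ h1) (mul_eq_right.1 h2)
  have hPpos : (0 : ℝ) < Fintype.card P := by
    rw [Fintype.card_congr e, Fintype.card_fin, hN]
    exact_mod_cast Nat.succ_pos _
  have htop : TopAm (G × P) (Y × P) := by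
    intro D' ε hε
    obtain ⟨F, m, hm1, hm2, hm3, hm4, hm5⟩ := hT (D'.image Prod.fst) ε hε
    refine ⟨F ×ˢ Finset.univ, fun v s => m v.1 s.1 / Fintype.card P, fun s => ?_, fun v s => ?_,
      fun v s hs => ?_, fun v => ?_, fun d hd v => ?_⟩
    · have h1 : IsLocallyConstant fun v : Y × P => m v.1 s.1 :=
        (hm1 s.1).comp_continuous continuous_fst
      exact h1.comp fun r : ℝ => r / Fintype.card P
    · exact div_nonneg (hm2 _ _) hPpos.le
    · dsimp only
      rw [hm3, zero_div]
      intro h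
      exact hs (Finset.mem_product.2 ⟨h, Finset.mem_univ _⟩)
    · rw [Finset.sum_product]
      simp only [Finset.sum_const, Finset.card_univ, nsmul_eq_mul]
      rw [← hm4 v.1]
      refine Finset.sum_congr rfl fun s _ => ?_
      field_simp
    · rw [Finset.sum_product]
      have h1 : ∀ s ∈ F, ∑ p : P, |m v.1 s / Fintype.card P -
          m (d.1 • v.1) (s * d.1⁻¹) / Fintype.card P| = |m v.1 s - m (d.1 • v.1) (s * d.1⁻¹)| := by
        intro s _
        rw [Finset.sum_const, Finset.card_univ, nsmul_eq_mul, ← sub_div, abs_div,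
          abs_of_pos hPpos]
        field_simp
      refine (Finset.sum_congr rfl h1).trans_le ?_
      exact hm5 d.1 (Finset.mem_image.2 ⟨d, hd, rfl⟩) v.1
  -- tokens
  set A : Set (Y × P) := {v | 0 ≤ (e v.2 : ℕ) ∧ (e v.2 : ℕ) < 0 + a v.1} with hA
  set B : Set (Y × P) := {v | M + 1 ≤ (e v.2 : ℕ) ∧ (e v.2 : ℕ) < M + 1 + b v.1} with hB
  have hcA : ∀ y, ((Finset.univ : Finset P).filter fun q => (y, q) ∈ A).card = a y := fun y =>
    TRED.cnt e 0 (a y) (by have := hMa y; omega)
  have hcB : ∀ y, ((Finset.univ : Finset P).filter fun q => (y, q) ∈ B).card = b y := fun y =>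
    TRED.cnt e (M + 1) (b y) (by have := hMb y; omega)
  have hlc : ∀ {Z : Type} (f : C(Y, ℕ)) (F : ℕ → P → Z), IsLocallyConstant fun v : Y × P =>
      F (f v.1) v.2 := by
    intro Z f F
    have h1 : IsLocallyConstant fun v : Y × P => (f v.1, v.2) :=
      (IsLocallyConstant.iff_continuous _).2
        ((f.continuous.comp continuous_fst).prodMk continuous_snd)
    exact h1.comp fun q : ℕ × P => F q.1 q.2
  have hAl : IsLocallyConstant fun v : Y × P => (v ∈ A) :=
    hlc a fun n q => 0 ≤ (e q : ℕ) ∧ (e q : ℕ) < 0 + n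
  have hBl : IsLocallyConstant fun v : Y × P => (v ∈ B) :=
    hlc b fun n q => M + 1 ≤ (e q : ℕ) ∧ (e q : ℕ) < M + 1 + n
  have hAc : IsClopen A := by
    have h1 := hAl.isClopen_fiber True
    convert h1 using 1
    ext v
    simp
  have hBc : IsClopen B := by
    have h1 := hBl.isClopen_fiber True
    convert h1 using 1
    ext v
    simp
  have hAB : Disjoint A B := by
    rw [Set.disjoint_left]
    rintro v ⟨_, h1⟩ ⟨h2, _⟩
    have := hMa v.1
    omega
  have hX0b : ∀ y g, b (g • y) = 0 → X y g = 0 := by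
    intro y g hb
    by_contra hne
    have h1 := hX.inn (g • y)
    rw [hb, Nat.cast_zero, mul_zero] at h1
    have h2 : X (g⁻¹ • g • y) g ≤ ∑ g' ∈ D, X (g'⁻¹ • g • y) g' :=
      Finset.single_le_sum (f := fun g' => X (g'⁻¹ • g • y) g') (fun _ _ => hX.nonneg _ _)
        (hX.supp _ _ hne)
    rw [inv_smul_smul] at h2
    exact hne (le_antisymm (h2.trans h1) (hX.nonneg _ _))
  have hX0a : ∀ y g, a y = 0 → X y g = 0 := by
    intro y g ha
    by_contra hne
    have h1 := hX.out y
    rw [ha, Nat.cast_zero] at h1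
    have h2 : X y g ≤ ∑ g' ∈ D, X y g' :=
      Finset.single_le_sum (f := fun g' => X y g') (fun _ _ => hX.nonneg _ _) (hX.supp _ _ hne)
    rw [h1] at h2
    exact hne (le_antisymm h2 (hX.nonneg _ _))
  set x : Y × P → G × P → ℝ := fun v t => if v ∈ A ∧ t • v ∈ B then
    X v.1 t.1 / (a v.1 * b (t.1 • v.1)) else 0 with hx
  have hfrac : IsFrac A B (D ×ˢ Finset.univ) γ x := by
    refine ⟨fun t => ?_, fun v t => ?_, fun v t h => ?_, fun v hv => ?_, fun v => ?_⟩
    · have h1 : IsLocallyConstant fun v : Y × P => (t • v ∈ B) :=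
        hBl.comp_continuous (continuous_const_smul t)
      have h2 : IsLocallyConstant fun v : Y × P => X v.1 t.1 :=
        (hX.lc t.1).comp_continuous continuous_fst
      have h3 : IsLocallyConstant fun v : Y × P => (a v.1, b (t.1 • v.1)) :=
        (IsLocallyConstant.iff_continuous _).2 ((a.continuous.comp continuous_fst).prodMk
          (b.continuous.comp ((continuous_const_smul t.1).comp continuous_fst)))
      have h4 := (hAl.prodMk h1).prodMk (h2.prodMk h3)
      have h5 := h4.comp fun q : (Prop × Prop) × ℝ × ℕ × ℕ => if q.1.1 ∧ q.1.2 then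
        q.2.1 / ((q.2.2.1 : ℝ) * q.2.2.2) else 0
      have h6 : (fun v => x v t) = ((fun q : (Prop × Prop) × ℝ × ℕ × ℕ => if q.1.1 ∧ q.1.2 then
        q.2.1 / ((q.2.2.1 : ℝ) * q.2.2.2) else 0) ∘ fun v : Y × P =>
          ((v ∈ A, t • v ∈ B), X v.1 t.1, a v.1, b (t.1 • v.1))) := by
        funext v
        simp only [hx, Function.comp]
      rw [h6]
      exact h5
    · simp only [hx]
      split_ifs
      · exact div_nonneg (hX.nonneg _ _) (by positivity)
      · exact le_rfl
    · simp only [hx] at h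
      split_ifs at h with h1
      · refine ⟨h1.1, Finset.mem_product.2 ⟨hX.supp v.1 t.1 fun h2 => h ?_, Finset.mem_univ _⟩, h1.2⟩
        rw [h2, zero_div]
      · exact absurd rfl h
    · have ha : (a v.1 : ℝ) ≠ 0 := by
        have : 0 < a v.1 := by have := hv.2; omega
        positivity
      rw [Finset.sum_product]
      have h1 : ∀ g ∈ D, ∑ p : P, x v (g, p) = X v.1 g / a v.1 := by
        intro g _
        by_cases hb : b (g • v.1) = 0
        · rw [hX0b _ _ hb, zero_div]
          refine Finset.sum_eq_zero fun p _ => ?_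
          simp only [hx]
          rw [hX0b _ _ hb, zero_div, ite_self]
        · have h2 : ∑ p : P, x v (g, p) = ∑ p : P, (if ((g • v.1, p * v.2) : Y × P) ∈ B then
              X v.1 g / (a v.1 * b (g • v.1)) else 0) := by
            refine Finset.sum_congr rfl fun p _ => ?_
            simp only [hx, hsm, hv, true_and]
          rw [h2]
          have h3 : ∑ p : P, (if ((g • v.1, p * v.2) : Y × P) ∈ B then
              X v.1 g / (a v.1 * b (g • v.1)) else 0) = ∑ q : P, (if ((g • v.1, q) : Y × P) ∈ B then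
              X v.1 g / (a v.1 * b (g • v.1)) else 0) :=
            Equiv.sum_comp (Equiv.mulRight v.2) fun q => (if ((g • v.1, q) : Y × P) ∈ B then
              X v.1 g / (a v.1 * b (g • v.1)) else 0)
          rw [h3, ← Finset.sum_filter, Finset.sum_const, hcB, nsmul_eq_mul]
          have hb' : (b (g • v.1) : ℝ) ≠ 0 := Nat.cast_ne_zero.2 hb
          field_simp
      rw [Finset.sum_congr rfl h1, ← Finset.sum_div, hX.out, div_self ha]
    · by_cases hv : v ∈ B
      · have hb : 0 < b v.1 := by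
          have h1 := hv.1
          have h2 := hv.2
          omega
        have hb' : (0 : ℝ) < b v.1 := Nat.cast_pos.2 hb
        rw [Finset.sum_product]
        have h1 : ∀ g ∈ D, ∑ p : P, x ((g, p)⁻¹ • v) (g, p) = X (g⁻¹ • v.1) g / b v.1 := by
          intro g _
          by_cases ha : a (g⁻¹ • v.1) = 0
          · rw [hX0a _ _ ha, zero_div]
            refine Finset.sum_eq_zero fun p _ => ?_
            simp only [hx, hinv]
            rw [hX0a _ _ ha, zero_div, ite_self]
          · have h2 : ∑ p : P, x ((g, p)⁻¹ • v) (g, p) = ∑ p : P,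
                (if ((g⁻¹ • v.1, p⁻¹ * v.2) : Y × P) ∈ A then
                X (g⁻¹ • v.1) g / (a (g⁻¹ • v.1) * b v.1) else 0) := by
              refine Finset.sum_congr rfl fun p _ => ?_
              simp only [hx, smul_inv_smul, hv, and_true]
              simp only [hinv, smul_inv_smul]
            rw [h2]
            have h3 : ∑ p : P, (if ((g⁻¹ • v.1, p⁻¹ * v.2) : Y × P) ∈ A then
                X (g⁻¹ • v.1) g / (a (g⁻¹ • v.1) * b v.1) else 0) = ∑ q : P,
                (if ((g⁻¹ • v.1, q) : Y × P) ∈ A then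
                X (g⁻¹ • v.1) g / (a (g⁻¹ • v.1) * b v.1) else 0) :=
              Equiv.sum_comp ((Equiv.inv P).trans (Equiv.mulRight v.2)) fun q =>
                (if ((g⁻¹ • v.1, q) : Y × P) ∈ A then
                X (g⁻¹ • v.1) g / (a (g⁻¹ • v.1) * b v.1) else 0)
            rw [h3, ← Finset.sum_filter, Finset.sum_const, hcA, nsmul_eq_mul]
            have ha' : (a (g⁻¹ • v.1) : ℝ) ≠ 0 := Nat.cast_ne_zero.2 ha
            field_simp
        rw [Finset.sum_congr rfl h1, ← Finset.sum_div, div_le_iff₀ hb']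
        exact hX.inn v.1
      · rw [Finset.sum_eq_zero]
        · linarith
        · intro t _
          simp only [hx, smul_inv_smul, hv, and_false, if_false]
  obtain ⟨φ, hφ, hφB, hφi⟩ := hmain (G × P) (Y × P) hfree htop A B (D ×ˢ Finset.univ) γ x hAc hBc
    hAB hγ hfrac
  -- the pieces
  have hcl : ∀ (q : P) (t : G × P), IsLocallyConstant fun y : Y =>
      if (y, q) ∈ A ∧ φ (y, q) = t then (1 : ℕ) else 0 := by
    intro q t
    have h1 : Continuous fun y : Y => (y, q) := continuous_id.prodMk continuous_const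
    have h2 := (hAl.comp_continuous h1).prodMk (hφ.comp_continuous h1)
    have h3 := h2.comp fun r : Prop × (G × P) => if r.1 ∧ r.2 = t then (1 : ℕ) else 0
    have h4 : (fun y : Y => if (y, q) ∈ A ∧ φ (y, q) = t then (1 : ℕ) else 0) =
        ((fun r : Prop × (G × P) => if r.1 ∧ r.2 = t then (1 : ℕ) else 0) ∘ fun x : Y =>
          (((fun v => v ∈ A) ∘ fun y => (y, q)) x, (φ ∘ fun y => (y, q)) x)) := by
      funext y
      simp only [Function.comp]
      congr 1
    rw [h4]
    exact h3
  refine Sub.of_fintype (κ := ↥(D ×ˢ (Finset.univ : Finset P)) × P) (fun k => k.1.1.1)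
    (fun k => ⟨fun y => if (y, k.2) ∈ A ∧ φ (y, k.2) = k.1.1 then (1 : ℕ) else 0,
      (hcl k.2 k.1.1).continuous⟩) (fun _ => Subgroup.mem_top _) (fun y => ?_) fun y => ?_
  · rw [← hcA y, Finset.card_filter, Fintype.sum_prod_type, Finset.sum_comm]
    refine Finset.sum_congr rfl fun q _ => ?_
    change ∑ t : ↥(D ×ˢ (Finset.univ : Finset P)), (if (y, q) ∈ A ∧ φ (y, q) = t.1 then 1 else 0) = _
    by_cases hq : (y, q) ∈ A
    · rw [if_pos hq]
      rw [Finset.sum_eq_single_of_mem (⟨φ (y, q), (hφB _ hq).1⟩ : ↥(D ×ˢ (Finset.univ : Finset P)))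
        (Finset.mem_univ _)]
      · rw [if_pos ⟨hq, rfl⟩]
      · intro t _ ht
        rw [if_neg]
        rintro ⟨_, h⟩
        exact ht (Subtype.ext h.symm)
    · rw [if_neg hq]
      exact Finset.sum_eq_zero fun t _ => if_neg fun h => hq h.1
  · change ∑ k : ↥(D ×ˢ (Finset.univ : Finset P)) × P,
      (if (k.1.1.1⁻¹ • y, k.2) ∈ A ∧ φ (k.1.1.1⁻¹ • y, k.2) = k.1.1 then 1 else 0) ≤ b y
    rw [← Finset.card_filter, ← hcB y]
    have hk : ∀ k : ↥(D ×ˢ (Finset.univ : Finset P)) × P,
        (k.1.1.1⁻¹ • y, k.2) ∈ A → φ (k.1.1.1⁻¹ • y, k.2) = k.1.1 →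
        φ (k.1.1.1⁻¹ • y, k.2) • ((k.1.1.1⁻¹ • y, k.2) : Y × P) = (y, k.1.1.2 * k.2) := by
      intro k _ h2
      rw [h2, hsm]
      simp only [smul_inv_smul]
    refine Finset.card_le_card_of_injOn (fun k => k.1.1.2 * k.2) (fun k hk' => ?_)
      fun k hk1 k' hk2 heq => ?_
    · rw [Finset.mem_coe, Finset.mem_filter] at hk' ⊢
      refine ⟨Finset.mem_univ _, ?_⟩
      rw [← hk k hk'.2.1 hk'.2.2]
      exact (hφB _ hk'.2.1).2
    · rw [Finset.mem_coe, Finset.mem_filter] at hk1 hk2
      have h1 := hk k hk1.2.1 hk1.2.2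
      have h2 := hk k' hk2.2.1 hk2.2.2
      dsimp only at heq
      have h3 := hφi _ hk1.2.1 _ hk2.2.1 (by rw [h1, h2, heq])
      have h4 : k.1.1 = k'.1.1 := by
        rw [← hk1.2.2, ← hk2.2.2, h3]
      exact Prod.ext (Subtype.ext h4) (congrArg (fun r : Y × P => r.2) h3)

end TRED

theorem t_RED (hmain : StMAIN.{u, u}) : StRED.{u} := by
  intro G _ _ Y _ _ _ _ _ _ hf hT a b D γ X hγ hX
  -- reduce to `γ ≤ 1`
  wlog hγ1 : γ ≤ 1 generalizing γ
  · refine this 1 one_pos ⟨hX.lc, hX.nonneg, hX.supp, hX.out, fun y => (hX.inn y).trans ?_⟩ le_rfl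
    refine mul_le_mul_of_nonneg_right ?_ (Nat.cast_nonneg _)
    linarith
  -- bounds
  obtain ⟨M, hMa, hMb⟩ : ∃ M : ℕ, (∀ y, a y ≤ M) ∧ ∀ y, b y ≤ M := by
    by_cases hY : Nonempty Y
    · obtain ⟨y0, hy0⟩ := (isCompact_range a.continuous).exists_isGreatest (Set.range_nonempty _)
      obtain ⟨y1, hy1⟩ := (isCompact_range b.continuous).exists_isGreatest (Set.range_nonempty _)
      exact ⟨max y0 y1, fun y => le_max_of_le_left (hy0.2 ⟨y, rfl⟩),
        fun y => le_max_of_le_right (hy1.2 ⟨y, rfl⟩)⟩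
    · exact ⟨0, fun y => (hY ⟨y⟩).elim, fun y => (hY ⟨y⟩).elim⟩
  let _ : Fintype (Multiplicative (ZMod (2 * M + 2))) :=
    inferInstanceAs (Fintype (Multiplicative (Fin (2 * M + 2))))
  let _ : TopologicalSpace (Multiplicative (ZMod (2 * M + 2))) := ⊥
  have : DiscreteTopology (Multiplicative (ZMod (2 * M + 2))) := ⟨rfl⟩
  have hcard : Fintype.card (Multiplicative (ZMod (2 * M + 2))) = 2 * M + 2 := by
    rw [← Nat.card_eq_fintype_card]
    exact Nat.card_zmod _
  exact TRED.main hmain G Y hf hT a b D γ X hγ hγ1 hX M (2 * M + 2) hMa hMb rfl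
    (Multiplicative (ZMod (2 * M + 2))) (Fintype.equivFinOfCardEq hcard)

end Pool.Agent.H107ZS
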