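import Pool.Agent.H107_ZS.DStubs5

/-!
# The measures vary slowly along the edges
-/

set_option autoImplicit false

namespace Pool.Agent.H107ZS

open Topology

universe u v w

open Classical in
theorem t_TRF : StTRF.{u} := by
  intro G _ F ε K p d T T' m m' hε hbad hm hm' hm'F hm'1 hmm Q
  set P : ℕ → G → G := fun k s => p (T (k + 1)) s with hP
  set P' : ℕ → G → G := fun k s => p (T' (k + 1)) s * d with hP'
  set bad : ℕ → G → ℝ := fun k s => if P k s ≠ P' k (s * d⁻¹) then 1 else 0 with hbaddef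
  have hbad0 : ∀ k s, 0 ≤ bad k s := fun k s => by
    simp only [hbaddef]
    split_ifs <;> norm_num
  -- pointwise estimate
  have h1 : ∀ k s, Q.indicator (fun _ => m s) (P k s) ≤ |m s - m' (s * d⁻¹)| +
      Q.indicator (fun _ => m' (s * d⁻¹)) (P' k (s * d⁻¹)) + m' (s * d⁻¹) * bad k s := by
    intro k s
    have h2 : m s ≤ |m s - m' (s * d⁻¹)| + m' (s * d⁻¹) := by
      have := le_abs_self (m s - m' (s * d⁻¹))
      linarith
    have h3 := hm' (s * d⁻¹)
    have h4 : 0 ≤ |m s - m' (s * d⁻¹)| := abs_nonneg _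
    have h5 : 0 ≤ Q.indicator (fun _ => m' (s * d⁻¹)) (P' k (s * d⁻¹)) :=
      Set.indicator_nonneg (fun _ _ => h3) _
    by_cases hQ : P k s ∈ Q
    · rw [Set.indicator_of_mem hQ]
      by_cases hb : P k s = P' k (s * d⁻¹)
      · rw [← hb, Set.indicator_of_mem hQ]
        have : 0 ≤ m' (s * d⁻¹) * bad k s := mul_nonneg h3 (hbad0 _ _)
        linarith
      · have h6 : bad k s = 1 := by
          simp only [hbaddef]
          rw [if_pos hb]
        rw [h6, mul_one]
        linarith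
    · rw [Set.indicator_of_notMem hQ]
      have : 0 ≤ m' (s * d⁻¹) * bad k s := mul_nonneg h3 (hbad0 _ _)
      linarith
  -- reindexing
  have hre : ∀ f : G → ℝ, (∀ s, 0 ≤ f s) → (∀ s, s ∉ F → f s = 0) →
      ∑ s ∈ F, f (s * d⁻¹) ≤ ∑ s ∈ F, f s := by
    intro f hf hfF
    have h7 : ∑ s ∈ F, f (s * d⁻¹) = ∑ s ∈ F.image fun s => s * d⁻¹, f s := by
      rw [Finset.sum_image fun a _ b _ h => mul_right_cancel h]
    rw [h7]
    have h8 : ∑ s ∈ F.image (fun s => s * d⁻¹), f s = ∑ s ∈ (F.image fun s => s * d⁻¹).filter (· ∈ F), f s := by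
      rw [Finset.sum_filter]
      refine Finset.sum_congr rfl fun s _ => ?_
      split_ifs with h
      · rfl
      · exact hfF s h
    rw [h8]
    refine Finset.sum_le_sum_of_subset_of_nonneg (fun s hs => (Finset.mem_filter.1 hs).2) fun s _ _ => hf s
  -- the bad terms
  have hB : ∑ k ∈ Finset.range K, ∑ s ∈ F, m' (s * d⁻¹) * bad k s ≤ ε * K := by
    rw [Finset.sum_comm]
    have h9 : ∀ s ∈ F, ∑ k ∈ Finset.range K, m' (s * d⁻¹) * bad k s ≤ m' (s * d⁻¹) * (ε * K) := by
      intro s hs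
      rw [← Finset.mul_sum]
      by_cases hsd : s * d⁻¹ ∈ F
      · refine mul_le_mul_of_nonneg_left ?_ (hm' _)
        have h10 : ∑ k ∈ Finset.range K, bad k s =
            (Set.ncard {k : ℕ | k < K ∧ p (T (k + 1)) s ≠ p (T' (k + 1)) (s * d⁻¹) * d} : ℝ) := by
          simp only [hbaddef]
          rw [← Finset.sum_filter, Finset.sum_const, nsmul_eq_mul, mul_one]
          congr 1
          rw [← Set.ncard_coe_finset]
          congr 1
          ext k
          simp only [Finset.coe_filter, Finset.mem_range, Set.mem_ofPred_eq, hP, hP']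
        rw [h10]
        exact hbad s hs hsd
      · rw [hm'F _ hsd, zero_mul, zero_mul]
    refine (Finset.sum_le_sum h9).trans ?_
    rw [← Finset.sum_mul]
    have h11 := hre m' hm' hm'F
    rw [hm'1] at h11
    have h12 : 0 ≤ ε * K := by positivity
    calc (∑ s ∈ F, m' (s * d⁻¹)) * (ε * K) ≤ 1 * (ε * K) := mul_le_mul_of_nonneg_right h11 h12
      _ = ε * K := one_mul _
  calc ∑ k ∈ Finset.range K, ∑ s ∈ F, Q.indicator (fun _ => m s) (P k s)
      ≤ ∑ k ∈ Finset.range K, ∑ s ∈ F, (|m s - m' (s * d⁻¹)| +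
        Q.indicator (fun _ => m' (s * d⁻¹)) (P' k (s * d⁻¹)) + m' (s * d⁻¹) * bad k s) :=
        Finset.sum_le_sum fun k _ => Finset.sum_le_sum fun s _ => h1 k s
    _ = ∑ k ∈ Finset.range K, ∑ s ∈ F, |m s - m' (s * d⁻¹)| +
        ∑ k ∈ Finset.range K, ∑ s ∈ F, Q.indicator (fun _ => m' (s * d⁻¹)) (P' k (s * d⁻¹)) +
        ∑ k ∈ Finset.range K, ∑ s ∈ F, m' (s * d⁻¹) * bad k s := by
        simp_rw [Finset.sum_add_distrib]
    _ ≤ ε * K + ∑ k ∈ Finset.range K, ∑ s ∈ F, Q.indicator (fun _ => m' s) (P' k s) + ε * K := by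
        refine add_le_add (add_le_add ?_ (Finset.sum_le_sum fun k _ => ?_)) hB
        · rw [Finset.sum_const, Finset.card_range, nsmul_eq_mul, mul_comm]
          exact mul_le_mul_of_nonneg_right hmm (Nat.cast_nonneg _)
        · refine hre (fun s => Q.indicator (fun _ => m' s) (P' k s)) (fun s => ?_) (fun s hs => ?_)
          · exact Set.indicator_nonneg (fun _ _ => hm' s) _
          · simp only [hm'F s hs, Set.indicator_zero]
    _ = ∑ k ∈ Finset.range K, ∑ s ∈ F, Q.indicator (fun _ => m' s) (P' k s) + 2 * ε * K := by ring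

end Pool.Agent.H107ZS
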