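import Pool.Agent.H107_ZS.DStubs5

/-!
# Geodesics have a unique first step
-/

set_option autoImplicit false

namespace Pool.Agent.H107ZS

open Topology

universe u v w

namespace TUS

section

variable {G : Type u} [Group G]

open Classical in
/-- products of at most `n` elements of `D ∪ D⁻¹` -/
noncomputable def Pw (D : Finset G) : ℕ → Finset G
  | 0 => {1}
  | n + 1 => Pw D n ∪ Finset.image₂ (fun a b => a * b) (Pw D n) (D ∪ D.image fun d => d⁻¹)

theorem Pw_mono (D : Finset G) : Monotone (Pw D) := by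
  classical
  refine monotone_nat_of_le_succ fun n => ?_
  intro r hr
  rw [Pw]
  exact Finset.mem_union_left _ hr

variable {Y : Type v} [MulAction G Y] {x : Y → G → ℝ} {D : Finset G}

theorem Bl_sub_Pw (k : ℕ) : ∀ y, Bl x D k y ⊆ Pw D k := by
  classical
  induction k with
  | zero =>
    intro y r hr
    rw [Bl] at hr
    rw [Pw]
    exact hr
  | succ k ih =>
    intro y r hr
    rw [Bl, Finset.mem_union, Finset.mem_biUnion] at hr
    rw [Pw, Finset.mem_union]
    rcases hr with hr | ⟨d, hd, hr⟩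
    · exact Or.inl (ih y hr)
    · right
      obtain ⟨r', hr', rfl⟩ := Finset.mem_image.1 hr
      exact Finset.mem_image₂.2 ⟨r', ih _ hr', d, (Finset.mem_filter.1 hd).1, rfl⟩

open Classical in
/-- the unit mass at `w` -/
noncomputable def dl (w : Y) (q : Y) : ℝ := if q = w then 1 else 0

/-- the divergence -/
noncomputable def dv (D : Finset G) (f : Y → G → ℝ) (q : Y) : ℝ :=
  ∑ g ∈ D, f q g - ∑ g ∈ D, f (g⁻¹ • q) g

theorem dv_add (f f' : Y → G → ℝ) (q : Y) : dv D (fun q g => f q g + f' q g) q =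
    dv D f q + dv D f' q := by
  unfold dv
  rw [Finset.sum_add_distrib, Finset.sum_add_distrib]
  ring

theorem dv_sub (f f' : Y → G → ℝ) (q : Y) : dv D (fun q g => f q g - f' q g) q =
    dv D f q - dv D f' q := by
  unfold dv
  rw [Finset.sum_sub_distrib, Finset.sum_sub_distrib]
  ring

open Classical in
theorem dv_single (w : Y) (d : G) (hd : d ∈ D) (q : Y) :
    dv D (fun q g => if q = w ∧ g = d then (1 : ℝ) else 0) q = dl w q - dl (d • w) q := by
  unfold dv dl
  have h1 : ∑ g ∈ D, (if q = w ∧ g = d then (1 : ℝ) else 0) = if q = w then 1 else 0 := by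
    rw [Finset.sum_eq_single_of_mem d hd]
    · simp
    · intro g _ hg
      rw [if_neg fun h => hg h.2]
  have h2 : ∑ g ∈ D, (if g⁻¹ • q = w ∧ g = d then (1 : ℝ) else 0) =
      if q = d • w then 1 else 0 := by
    rw [Finset.sum_eq_single_of_mem d hd]
    · have h3 : (d⁻¹ • q = w ∧ d = d) ↔ q = d • w := by
        rw [and_iff_left rfl]
        exact inv_smul_eq_iff
      exact if_congr h3 rfl rfl
    · intro g _ hg
      rw [if_neg fun h => hg h.2]
  rw [h1, h2]

/-- the edge from `w` to `d • w` -/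
theorem edge [TopologicalSpace Y] {A B : Set Y} {γ : ℝ} (hx : IsFrac A B D γ x) {w : Y} {d : G}
    (hj : Jn x w d) : ∃ e : Y → G → ℝ,
      (∀ q g, e q g ≠ 0 → x q g ≠ 0 ∧ ((q = w ∧ g = d) ∨ (q = d • w ∧ g = d⁻¹))) ∧
      (∀ q, dv D e q = dl w q - dl (d • w) q) ∧ ∃ q g, e q g ≠ 0 := by
  classical
  rcases hj with h | h
  · refine ⟨fun q g => if q = w ∧ g = d then (1 : ℝ) else 0, fun q g hne => ?_,
      dv_single w d (hx.supp _ _ h).2.1, w, d, ?_⟩
    · dsimp only at hne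
      split_ifs at hne with h1
      · exact ⟨by rw [h1.1, h1.2]; exact h, Or.inl h1⟩
      · exact absurd rfl hne
    · dsimp only
      rw [if_pos ⟨rfl, rfl⟩]
      exact one_ne_zero
  · refine ⟨fun q g => 0 - if q = d • w ∧ g = d⁻¹ then (1 : ℝ) else 0, fun q g hne => ?_,
      fun q => ?_, d • w, d⁻¹, ?_⟩
    · dsimp only at hne
      split_ifs at hne with h1
      · exact ⟨by rw [h1.1, h1.2]; exact h, Or.inr h1⟩
      · exact absurd (sub_zero 0) hne
    · rw [dv_sub, dv_single (d • w) d⁻¹ (hx.supp _ _ h).2.1, inv_smul_smul]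
      unfold dv
      simp
    · dsimp only
      rw [if_pos ⟨rfl, rfl⟩]
      norm_num

/-- `u` can be reached from `q` by `k` edges -/
def Rc (x : Y → G → ℝ) (D : Finset G) (k : ℕ) (u q : Y) : Prop := ∃ ρ ∈ Bl x D k q, ρ • q = u

theorem flow [TopologicalSpace Y] {A B : Set Y} {γ : ℝ} (hx : IsFrac A B D γ x) (hmono : ∀ y,
    Monotone fun k => Bl x D k y) : ∀ (k : ℕ) (w : Y) (r : G), r ∈ Bl x D k w →
    ∃ f : Y → G → ℝ, (∀ q g, f q g ≠ 0 → x q g ≠ 0 ∧ Rc x D k (r • w) q ∧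
      Rc x D k (r • w) (g • q)) ∧ ∀ q, dv D f q = dl w q - dl (r • w) q := by
  classical
  intro k
  have hRm : ∀ (k : ℕ) (u q : Y), Rc x D k u q → Rc x D (k + 1) u q := by
    rintro k u q ⟨ρ, hρ, h⟩
    exact ⟨ρ, hmono q (Nat.le_succ k) hρ, h⟩
  induction k with
  | zero =>
    intro w r hr
    rw [Bl, Finset.mem_singleton] at hr
    subst hr
    refine ⟨fun _ _ => 0, fun q g h => absurd rfl h, fun q => ?_⟩
    rw [one_smul, sub_self]
    unfold dv
    simp
  | succ k ih =>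
    intro w r hr
    rw [Bl, Finset.mem_union, Finset.mem_biUnion] at hr
    rcases hr with hr | ⟨d, hd, hr⟩
    · obtain ⟨f, hf1, hf2⟩ := ih w r hr
      exact ⟨f, fun q g h => ⟨(hf1 q g h).1, hRm _ _ _ (hf1 q g h).2.1, hRm _ _ _ (hf1 q g h).2.2⟩,
        hf2⟩
    · obtain ⟨r', hr', rfl⟩ := Finset.mem_image.1 hr
      have hj : Jn x w d := (Finset.mem_filter.1 hd).2
      obtain ⟨f, hf1, hf2⟩ := ih (d • w) r' hr'
      obtain ⟨e, he1, he2, _⟩ := edge hx hj
      have hu : r' • d • w = (r' * d) • w := (mul_smul _ _ _).symm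
      rw [hu] at hf1 hf2
      have hw : Rc x D (k + 1) ((r' * d) • w) w := by
        refine ⟨r' * d, ?_, rfl⟩
        rw [Bl, Finset.mem_union, Finset.mem_biUnion]
        exact Or.inr ⟨d, hd, hr⟩
      have hdw : Rc x D (k + 1) ((r' * d) • w) (d • w) := hRm _ _ _ ⟨r', hr', hu⟩
      refine ⟨fun q g => e q g + f q g, fun q g hne => ?_, fun q => ?_⟩
      · dsimp only at hne
        by_cases h1 : f q g = 0
        · have h2 : e q g ≠ 0 := by
            intro h3
            rw [h3, h1, add_zero] at hne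
            exact hne rfl
          obtain ⟨h3, h4 | h4⟩ := he1 q g h2
          · refine ⟨h3, ?_, ?_⟩
            · rw [h4.1]; exact hw
            · rw [h4.1, h4.2]; exact hdw
          · refine ⟨h3, ?_, ?_⟩
            · rw [h4.1]; exact hdw
            · rw [h4.1, h4.2, inv_smul_smul]; exact hw
        · obtain ⟨h3, h4, h5⟩ := hf1 q g h1
          exact ⟨h3, hRm _ _ _ h4, hRm _ _ _ h5⟩
      · rw [dv_add, he2, hf2]
        ring

end

end TUS

open TUS in
theorem t_US (hbl : StBL.{u, v}) : StUS.{u, v} := by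
  classical
  intro G _ D R
  refine ⟨{1} ∪ (D ∪ D.image fun d => d⁻¹) ∪
    Finset.image₂ (fun a b => a⁻¹ * b) (Pw D R) (Pw D (R + 1)), ?_⟩
  intro Y _ _ _ A B γ x hf hAB hx hnc y r d₁ d₂ k₁ k₂ hj₁ hj₂ hk₁ hk₂ h₁ h₁' h₂ h₂'
  obtain ⟨_, hb2, _, hb4, _⟩ := hbl G Y A B D γ x hAB hx
  have hr₁ : r ∈ Bl x D (k₁ + 1) y := by
    have := (hb4 y d₁ hj₁ k₁).2 _ h₁
    rwa [inv_mul_cancel_right] at this
  have hr₂ : r ∈ Bl x D (k₂ + 1) y := by
    have := (hb4 y d₂ hj₂ k₂).2 _ h₂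
    rwa [inv_mul_cancel_right] at this
  have hk : k₁ = k₂ := by
    refine le_antisymm ?_ ?_
    · by_contra hlt
      exact h₁' (hb2 y (by omega : k₂ + 1 ≤ k₁) hr₂)
    · by_contra hlt
      exact h₂' (hb2 y (by omega : k₁ + 1 ≤ k₂) hr₁)
  subst hk
  by_contra hne
  obtain ⟨f₁, hf₁, hv₁⟩ := flow hx hb2 k₁ (d₁ • y) (r * d₁⁻¹) h₁
  obtain ⟨f₂, hf₂, hv₂⟩ := flow hx hb2 k₁ (d₂ • y) (r * d₂⁻¹) h₂
  obtain ⟨e₁, he₁, hw₁, q₁, g₁, hq₁⟩ := edge hx hj₁
  obtain ⟨e₂, he₂, hw₂, _⟩ := edge hx hj₂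
  have hu₁ : (r * d₁⁻¹) • d₁ • y = r • y := by rw [mul_smul, inv_smul_smul]
  have hu₂ : (r * d₂⁻¹) • d₂ • y = r • y := by rw [mul_smul, inv_smul_smul]
  rw [hu₁] at hf₁ hv₁
  rw [hu₂] at hf₂ hv₂
  set z : Y → G → ℝ := fun q g => (e₁ q g + f₁ q g) - (e₂ q g + f₂ q g) with hz
  -- the point `y` is not reached
  have hny : ¬ Rc x D k₁ (r • y) y := by
    rintro ⟨ρ, hρ, h⟩
    have h3 : (r⁻¹ * ρ) • y = y := by rw [mul_smul, h, inv_smul_smul]
    have h4 : ρ = r := (inv_mul_eq_one.1 (hf _ _ h3)).symm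
    rw [h4] at hρ
    exact h₁' hρ
  -- support of `z`
  have hzs : ∀ q g, z q g ≠ 0 → x q g ≠ 0 ∧ (q = y ∨ q = d₁ • y ∨ q = d₂ • y ∨
      Rc x D k₁ (r • y) q) := by
    intro q g h
    by_cases h1 : e₁ q g = 0
    · by_cases h2 : e₂ q g = 0
      · by_cases h3 : f₁ q g = 0
        · have h4 : f₂ q g ≠ 0 := by
            intro h5
            apply h
            simp only [hz]
            rw [h1, h2, h3, h5]
            ring
          exact ⟨(hf₂ q g h4).1, Or.inr (Or.inr (Or.inr (hf₂ q g h4).2.1))⟩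
        · exact ⟨(hf₁ q g h3).1, Or.inr (Or.inr (Or.inr (hf₁ q g h3).2.1))⟩
      · refine ⟨(he₂ q g h2).1, ?_⟩
        rcases (he₂ q g h2).2 with h3 | h3
        · exact Or.inl h3.1
        · exact Or.inr (Or.inr (Or.inl h3.1))
    · refine ⟨(he₁ q g h1).1, ?_⟩
      rcases (he₁ q g h1).2 with h3 | h3
      · exact Or.inl h3.1
      · exact Or.inr (Or.inl h3.1)
  -- divergence
  have hzd : ∀ q, dv D z q = 0 := by
    intro q
    have h1 : dv D z q = (dv D e₁ q + dv D f₁ q) - (dv D e₂ q + dv D f₂ q) := by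
      rw [← dv_add, ← dv_add, ← dv_sub]
    rw [h1, hw₁, hw₂, hv₁, hv₂]
    ring
  have hzo : ∀ q, ∑ g ∈ D, z q g = 0 ∧ ∑ g ∈ D, z (g⁻¹ • q) g = 0 := by
    intro q
    have h1 := hzd q
    unfold dv at h1
    by_cases hq : q ∈ A
    · have h2 : ∑ g ∈ D, z (g⁻¹ • q) g = 0 := by
        refine Finset.sum_eq_zero fun g _ => ?_
        by_contra h3
        have h4 := (hx.supp _ _ (hzs _ _ h3).1).2.2
        rw [smul_inv_smul] at h4
        exact Set.disjoint_left.1 hAB hq h4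
      exact ⟨by linarith, h2⟩
    · have h2 : ∑ g ∈ D, z q g = 0 := by
        refine Finset.sum_eq_zero fun g _ => ?_
        by_contra h3
        exact hq (hx.supp _ _ (hzs _ _ h3).1).1
      exact ⟨h2, by linarith⟩
  -- apply `NoCirc`
  have hfin : ∀ (h g : G), z (h • y) g = 0 := by
    refine hnc y (fun h g => z (h • y) g) (fun h g hne => ?_) (fun h => (hzo (h • y)).1) (fun h => ?_)
    · obtain ⟨h1, h2⟩ := hzs _ _ hne
      refine ⟨?_, (hx.supp _ _ h1).2.1, h1⟩
      have hcan : ∀ a : G, h • y = a • y → h = a := by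
        intro a ha
        have h3 : (a⁻¹ * h) • y = y := by rw [mul_smul, ha, inv_smul_smul]
        exact (inv_mul_eq_one.1 (hf _ _ h3)).symm
      have hjD : ∀ d, Jn x y d → d ∈ D ∪ D.image fun d => d⁻¹ := by
        intro d h
        rw [Finset.mem_union, Finset.mem_image]
        rcases h with h | h
        · exact Or.inl (hx.supp _ _ h).2.1
        · exact Or.inr ⟨_, (hx.supp _ _ h).2.1, inv_inv d⟩
      rw [Finset.mem_union, Finset.mem_union]
      rcases h2 with h3 | h3 | h3 | ⟨ρ, hρ, h3⟩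
      · left; left
        rw [Finset.mem_singleton]
        exact hcan 1 (by rw [h3, one_smul])
      · left; right
        rw [hcan d₁ h3]
        exact hjD d₁ hj₁
      · left; right
        rw [hcan d₂ h3]
        exact hjD d₂ hj₂
      · right
        have h4 : ρ * h = r := by
          have h5 : (r⁻¹ * (ρ * h)) • y = y := by rw [mul_smul, mul_smul, h3, inv_smul_smul]
          exact (inv_mul_eq_one.1 (hf _ _ h5)).symm
        refine Finset.mem_image₂.2 ⟨ρ, Pw_mono D hk₁ (Bl_sub_Pw k₁ _ hρ), r,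
          Pw_mono D (by omega) (Bl_sub_Pw (k₁ + 1) _ hr₁), ?_⟩
        rw [← h4, inv_mul_cancel_left]
    · have h1 := (hzo (h • y)).2
      rw [← h1]
      refine Finset.sum_congr rfl fun g _ => ?_
      rw [mul_smul]
  -- the first edge
  have hcase := (he₁ q₁ g₁ hq₁).2
  have hf₁0 : f₁ q₁ g₁ = 0 := by
    by_contra h1
    obtain ⟨_, h2, h3⟩ := hf₁ q₁ g₁ h1
    rcases hcase with h4 | h4
    · rw [h4.1] at h2
      exact hny h2
    · rw [h4.1, h4.2, inv_smul_smul] at h3
      exact hny h3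
  have hf₂0 : f₂ q₁ g₁ = 0 := by
    by_contra h1
    obtain ⟨_, h2, h3⟩ := hf₂ q₁ g₁ h1
    rcases hcase with h4 | h4
    · rw [h4.1] at h2
      exact hny h2
    · rw [h4.1, h4.2, inv_smul_smul] at h3
      exact hny h3
  have he₂0 : e₂ q₁ g₁ = 0 := by
    by_contra h1
    rcases hcase with h4 | h4 <;> rcases (he₂ q₁ g₁ h1).2 with h5 | h5
    · exact hne (h4.2.symm.trans h5.2)
    · have h6 : d₂ = 1 := hf d₂ y (by rw [← h5.1, h4.1])
      apply hne
      rw [← h4.2, h5.2, h6, inv_one]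
    · have h6 : d₁ = 1 := hf d₁ y (by rw [← h4.1, h5.1])
      apply hne
      rw [← h5.2, h4.2, h6, inv_one]
    · exact hne (inv_injective (h4.2.symm.trans h5.2))
  have hq₁y : ∃ h : G, h • y = q₁ := by
    rcases hcase with h4 | h4
    · exact ⟨1, by rw [one_smul, h4.1]⟩
    · exact ⟨d₁, h4.1.symm⟩
  obtain ⟨h, hh⟩ := hq₁y
  have hlast := hfin h g₁
  rw [hh] at hlast
  simp only [hz] at hlast
  rw [hf₁0, hf₂0, he₂0] at hlast
  apply hq₁
  linarith

end Pool.Agent.H107ZS
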