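import Pool.Agent.H107_ZS.Main2
import Pool.Agent.H107_ZS.TPA
import Pool.Agent.H107_ZS.TBL
import Pool.Agent.H107_ZS.TUS
import Pool.Agent.H107_ZS.TRC1
import Pool.Agent.H107_ZS.TRC
import Pool.Agent.H107_ZS.TTRF
import Pool.Agent.H107_ZS.TMAINR
import Pool.Agent.H107_ZS.TRED

/-!
# Z-stability of crossed products of free minimal actions of amenable groups
-/

set_option autoImplicit false

namespace Pool.Agent.H107ZS

open Topology Filter Pool.Agent.H327R4.Pure
open scoped CStarAlgebra ComplexOrder

universe u v

/-- rounding of fractional matchings with slack -/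
theorem main_round : StMAIN.{u, v} := t_MAIN t_PA t_BL (t_US t_BL) (t_RC t_RC1) t_TRF

/-- rounding with multiplicities -/
theorem red_round : StRED.{u} := t_RED main_round

/-- comparison for free actions of amenable groups on totally disconnected compact spaces -/
theorem comp_all : StCOMP.{u} := t_COMP red_round

/-- crossed products of free minimal actions of amenable groups on finite dimensional compact
metrizable spaces satisfy the local form of Z-stability -/
theorem final_amenable (G : Type u) [Group G] [Countable G] [Infinite G] (X : Type u)
    [TopologicalSpace X] [CompactSpace X] [TopologicalSpace.MetrizableSpace X] [Nonempty X]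
    [MulAction G X] [ContinuousConstSMul G X] (d : ℕ) (hG : Amenable G) (hf : FreeAct G X)
    (hm : MinAct G X) (hd : DimLE X d) (A : Type u) [CStarAlgebra A] (ι : C(X, ℂ) →⋆ₐ[ℂ] A)
    (u : G →* unitary A) (E : A →L[ℂ] C(X, ℂ)) (h : IsCross ι u E) [PartialOrder A]
    [StarOrderedRing A] : Pool.Agent.H327R4.SI.ZST A :=
  final_all comp_all G X d hG hf hm hd A ι u E h

end Pool.Agent.H107ZS
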