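import Pool.Agent.H107_ZS.DStubs

/-!
# The compactness argument for Følner averages (StKL)
-/

set_option autoImplicit false

namespace Pool.Agent.H107ZS

open Topology Filter

universe u v w

section

variable {G : Type u} [Group G] {Y : Type v} [TopologicalSpace Y] [CompactSpace Y] [MulAction G Y]
  [ContinuousConstSMul G Y]

/-- the average over `S` at the point `y` -/
noncomputable def avg (S : Finset G) (y : Y) (f : C(Y, ℝ)) : ℝ :=
  (∑ s ∈ S, f (s • y)) / S.card

omit [ContinuousConstSMul G Y] in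
theorem avg_abs_le (S : Finset G) (y : Y) (f : C(Y, ℝ)) : |avg S y f| ≤ ‖f‖ := by
  unfold avg
  rcases S.eq_empty_or_nonempty with rfl | hS
  · simp
  · have hc : (0:ℝ) < S.card := by exact_mod_cast hS.card_pos
    rw [abs_div, abs_of_pos hc, div_le_iff₀ hc]
    calc |∑ s ∈ S, f (s • y)| ≤ ∑ s ∈ S, |f (s • y)| := Finset.abs_sum_le_sum_abs _ _
      _ ≤ ∑ s ∈ S, ‖f‖ := Finset.sum_le_sum fun s _ => f.norm_coe_le_norm _
      _ = ‖f‖ * S.card := by rw [Finset.sum_const, nsmul_eq_mul, mul_comm]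

/-- almost invariance of averages over Følner sets -/
theorem avg_comp_tr_sub (S : Finset G) (K : Finset G) (ε : ℝ) (hS : Fol K ε S) (g : G) (hg : g ∈ K)
    (y : Y) (f : C(Y, ℝ)) : |avg S y (f.comp (tr g)) - avg S y f| ≤ 2 * ε * ‖f‖ := by
  classical
  obtain ⟨hne, hfol⟩ := hS
  have hc : (0:ℝ) < S.card := by exact_mod_cast hne.card_pos
  have hb := hfol g hg
  -- the set `g S`
  let T : Finset G := S.image fun s => g * s
  have hinj : Function.Injective fun s : G => g * s := mul_right_injective g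
  have hT : T.card = S.card := Finset.card_image_of_injective _ hinj
  have hTS : (T \ S).card = (S.filter fun s => g * s ∉ S).card := by
    rw [← Finset.card_image_of_injective (S.filter fun s => g * s ∉ S) hinj]
    congr 1
    ext x
    simp only [Finset.mem_sdiff, T, Finset.mem_image, Finset.mem_filter]
    constructor
    · rintro ⟨⟨s, hs, rfl⟩, h⟩; exact ⟨s, ⟨hs, h⟩, rfl⟩
    · rintro ⟨s, ⟨hs, h⟩, rfl⟩; exact ⟨⟨s, hs, rfl⟩, h⟩
  have hST : (S \ T).card = (T \ S).card := by
    have h1 := Finset.card_sdiff_add_card_inter S T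
    have h2 := Finset.card_sdiff_add_card_inter T S
    rw [Finset.inter_comm] at h2
    omega
  have hsum : ∑ s ∈ S, (f.comp (tr g)) (s • y) = ∑ t ∈ T, f (t • y) := by
    rw [Finset.sum_image (fun a _ b _ h => hinj h)]
    refine Finset.sum_congr rfl fun s _ => ?_
    show f (g • s • y) = f ((g * s) • y)
    rw [mul_smul]
  have hdiff : ∑ t ∈ T, f (t • y) - ∑ s ∈ S, f (s • y)
      = ∑ t ∈ T \ S, f (t • y) - ∑ s ∈ S \ T, f (s • y) := by
    exact (Finset.sum_sdiff_sub_sum_sdiff (s₁ := S) (s₂ := T) (f := fun t => f (t • y))).symm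
  have hbnd : ∀ R : Finset G, |∑ t ∈ R, f (t • y)| ≤ R.card * ‖f‖ := by
    intro R
    calc |∑ s ∈ R, f (s • y)| ≤ ∑ s ∈ R, |f (s • y)| := Finset.abs_sum_le_sum_abs _ _
      _ ≤ ∑ s ∈ R, ‖f‖ := Finset.sum_le_sum fun s _ => f.norm_coe_le_norm _
      _ = R.card * ‖f‖ := by rw [Finset.sum_const, nsmul_eq_mul]
  have hbT : ((T \ S).card : ℝ) ≤ ε * S.card := by
    rw [hTS]; convert hb
  have hbS : ((S \ T).card : ℝ) ≤ ε * S.card := by
    rw [hST]; exact hbT
  unfold avg
  rw [hsum, ← sub_div, hdiff, abs_div, abs_of_pos hc, div_le_iff₀ hc]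
  have h3 := abs_sub (∑ t ∈ T \ S, f (t • y)) (∑ s ∈ S \ T, f (s • y))
  have h4 := hbnd (T \ S)
  have h5 := hbnd (S \ T)
  have h6 := norm_nonneg f
  nlinarith [mul_le_mul_of_nonneg_right hbT h6, mul_le_mul_of_nonneg_right hbS h6]

end

/-- KL: the compactness argument -/
theorem t_KL : StKL.{u} := by
  intro G _ _ Y _ _ _ _ _ H φ hmono hpos
  classical
  by_contra hcon
  push Not at hcon
  -- an exhaustion of `H` by finite sets
  obtain ⟨e, he⟩ := exists_surjective_nat H
  let K : ℕ → Finset G := fun n => (Finset.range (n + 1)).image fun i => (e i : G)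
  have hK : ∀ n, (K n : Set G) ⊆ H := by
    intro n x hx
    obtain ⟨i, _, rfl⟩ := Finset.mem_image.1 (Finset.mem_coe.1 hx)
    exact (e i).2
  have hKm : ∀ g ∈ H, ∀ᶠ n in atTop, g ∈ K n := by
    intro g hg
    obtain ⟨i, hi⟩ := he ⟨g, hg⟩
    filter_upwards [eventually_ge_atTop i] with n hn
    refine Finset.mem_image.2 ⟨i, Finset.mem_range.2 (by omega), by rw [hi]⟩
  have hex : ∀ n : ℕ, ∃ S : Finset G, (S : Set G) ⊆ H ∧ Fol (K n) (1 / ((n : ℝ) + 1)) S ∧
      ∃ y : Y, ∑ s ∈ S, φ n (s • y) < 1 / ((n : ℝ) + 1) * S.card := by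
    intro n
    obtain ⟨S, h1, h2, y, h3⟩ := hcon n (K n) (1 / ((n : ℝ) + 1)) (1 / ((n : ℝ) + 1)) (hK n)
      (by positivity) (by positivity)
    exact ⟨S, h1, h2, y, h3⟩
  choose S hSH hSF y hy using hex
  -- ultrafilter limit
  let U : Ultrafilter ℕ := Ultrafilter.of atTop
  have hU : (U : Filter ℕ) ≤ atTop := Ultrafilter.of_le atTop
  have hlim : ∀ f : C(Y, ℝ), ∃ x : ℝ, Tendsto (fun n => avg (S n) (y n) f) U (𝓝 x) := by
    intro f
    have hcomp : IsCompact (Set.Icc (-‖f‖) ‖f‖) := isCompact_Icc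
    obtain ⟨x, _, hx⟩ := hcomp.ultrafilter_le_nhds' (U.map fun n => avg (S n) (y n) f) (by
      refine Filter.mem_map.2 (Filter.Eventually.of_forall fun n => ?_)
      have := avg_abs_le (S n) (y n) f
      exact abs_le.1 this)
    exact ⟨x, hx⟩
  choose Λ hΛ using hlim
  have hadd : ∀ f g, Λ (f + g) = Λ f + Λ g := by
    intro f g
    refine tendsto_nhds_unique (hΛ (f + g)) (((hΛ f).add (hΛ g)).congr fun n => ?_)
    simp only [avg, ContinuousMap.add_apply, Finset.sum_add_distrib, add_div]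
  have hsmul : ∀ (r : ℝ) f, Λ (r • f) = r * Λ f := by
    intro r f
    refine tendsto_nhds_unique (hΛ (r • f)) (((hΛ f).const_mul r).congr fun n => ?_)
    simp only [avg, ContinuousMap.smul_apply, smul_eq_mul, ← Finset.mul_sum, mul_div_assoc]
  let Λ' : C(Y, ℝ) →ₗ[ℝ] ℝ :=
    { toFun := Λ
      map_add' := hadd
      map_smul' := fun r f => by simpa using hsmul r f }
  have hinv : InvState H Λ' := by
    refine ⟨?_, ?_, ?_⟩
    · show Λ 1 = 1
      refine tendsto_nhds_unique (hΛ 1) (tendsto_const_nhds.congr fun n => ?_)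
      have : (0:ℝ) < (S n).card := by exact_mod_cast (hSF n).1.card_pos
      simp only [avg, ContinuousMap.one_apply, Finset.sum_const, nsmul_eq_mul, mul_one]
      rw [div_self this.ne']
    · intro f hf
      refine ge_of_tendsto (hΛ f) (Filter.Eventually.of_forall fun n => ?_)
      exact div_nonneg (Finset.sum_nonneg fun s _ => hf _) (Nat.cast_nonneg _)
    · intro h hh f
      show Λ (f.comp (tr h)) = Λ f
      have h1 : Tendsto (fun n => avg (S n) (y n) (f.comp (tr h)) - avg (S n) (y n) f) U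
          (𝓝 (Λ (f.comp (tr h)) - Λ f)) := (hΛ _).sub (hΛ _)
      have h2 : Tendsto (fun n => avg (S n) (y n) (f.comp (tr h)) - avg (S n) (y n) f) U
          (𝓝 0) := by
        have h3 : Tendsto (fun n : ℕ => 2 * (1 / ((n : ℝ) + 1)) * ‖f‖) U (𝓝 0) := by
          have : Tendsto (fun n : ℕ => 1 / ((n : ℝ) + 1)) U (𝓝 0) :=
            tendsto_one_div_add_atTop_nhds_zero_nat.mono_left hU
          simpa using (this.const_mul 2).mul_const ‖f‖
        refine squeeze_zero_norm' ?_ h3
        filter_upwards [hU (hKm h hh)] with n hn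
        exact avg_comp_tr_sub (S n) (K n) _ (hSF n) h hn (y n) f
      have := tendsto_nhds_unique h1 h2
      linarith
  obtain ⟨n, hn⟩ := hpos Λ' hinv
  have hmono' : ∀ m, n ≤ m → ∀ y, φ n y ≤ φ m y := by
    intro m hm y
    exact monotone_nat_of_le_succ (fun k => hmono k y) hm
  have hle : Λ (φ n) ≤ 0 := by
    refine le_of_tendsto_of_tendsto (hΛ (φ n))
      (tendsto_one_div_add_atTop_nhds_zero_nat.mono_left hU) ?_
    filter_upwards [hU (eventually_ge_atTop n)] with m hm
    have hc : (0:ℝ) < (S m).card := by exact_mod_cast (hSF m).1.card_pos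
    unfold avg
    rw [div_le_iff₀ hc]
    refine le_trans (Finset.sum_le_sum fun s _ => hmono' m hm _) (hy m).le
  exact absurd hn (not_lt.2 hle)

end Pool.Agent.H107ZS
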