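import Pool.Agent.H107_ZS.DStubs7

/-! From the zero-dimensional extension to the space, up to a thin closed set. -/

set_option autoImplicit false

namespace Pool.Agent.H107ZS

open Topology

universe u v w

namespace TPSH

variable {G : Type u} [Group G] {X : Type v} [TopologicalSpace X] [CompactSpace X]
  [T2Space X] [MulAction G X] [ContinuousConstSMul G X] {Y : Type w} [TopologicalSpace Y]
  [CompactSpace Y] [T2Space Y] [MulAction G Y] [ContinuousConstSMul G Y]

/-- the points below `A` and below the complement of `A` -/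
def Amb (π : Y → X) (A : Set Y) : Set X := {x | (∃ y ∈ A, π y = x) ∧ ∃ y, y ∉ A ∧ π y = x}

omit [T2Space Y] [CompactSpace X] in
theorem amb_closed (π : Y → X) (hπ : Continuous π) (A : Set Y) (hA : IsClopen A) :
    IsClosed (Amb π A) := by
  have h : Amb π A = π '' A ∩ π '' Aᶜ := by
    ext x
    constructor
    · rintro ⟨⟨y, hy, h1⟩, y', hy', h2⟩
      exact ⟨⟨y, hy, h1⟩, ⟨y', hy', h2⟩⟩
    · rintro ⟨⟨y, hy, h1⟩, ⟨y', hy', h2⟩⟩
      exact ⟨⟨y, hy, h1⟩, y', hy', h2⟩
  rw [h]
  exact ((hA.1.isCompact.image hπ).isClosed).inter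
    ((hA.compl.1.isCompact.image hπ).isClosed)

omit [TopologicalSpace X] [CompactSpace X] [T2Space X] [ContinuousConstSMul G X] in
theorem thin_tr (C : ℕ) (Z : Set X) (h : Thin G C Z) (t : G) :
    Thin G C {x | t • x ∈ Z} := by
  classical
  intro x F hF
  have h1 := h x (F.image fun g => t * g) (by
    intro g hg
    obtain ⟨g', hg', rfl⟩ := Finset.mem_image.1 hg
    rw [mul_smul]
    exact hF g' hg')
  rwa [Finset.card_image_of_injective _ (mul_right_injective t)] at h1

omit [TopologicalSpace X] [CompactSpace X] [T2Space X] [ContinuousConstSMul G X] in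
theorem thin_union {n : ℕ} (C : Fin n → ℕ) (Z : Fin n → Set X) (h : ∀ i, Thin G (C i) (Z i)) :
    Thin G (∑ i, C i) (⋃ i, Z i) := by
  classical
  intro x F hF
  have h1 : F ⊆ Finset.univ.biUnion fun i => F.filter fun g => g • x ∈ Z i := by
    intro g hg
    obtain ⟨i, hi⟩ := Set.mem_iUnion.1 (hF g hg)
    exact Finset.mem_biUnion.2 ⟨i, Finset.mem_univ _, Finset.mem_filter.2 ⟨hg, hi⟩⟩
  refine (Finset.card_le_card h1).trans (Finset.card_biUnion_le.trans ?_)
  exact Finset.sum_le_sum fun i _ => h i x _ fun g hg => (Finset.mem_filter.1 hg).2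

end TPSH

open TPSH in
theorem t_PSH : StPSH.{u, v, w} := by
  classical
  intro G _ X _ _ _ _ _ Y _ _ _ _ _ _ π hπ _ he hth n P t hP hinj K hK hcov
  -- the images `t i P i`
  have hQ : ∀ i, IsClopen ((fun y => t i • y) '' P i) := by
    intro i
    have h1 : (fun y : Y => t i • y) '' P i = (fun y => (t i)⁻¹ • y) ⁻¹' P i := by
      ext y
      constructor
      · rintro ⟨y', hy', rfl⟩
        show (t i)⁻¹ • t i • y' ∈ P i
        rwa [inv_smul_smul]
      · intro hy
        exact ⟨(t i)⁻¹ • y, hy, smul_inv_smul _ _⟩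
    rw [h1]
    exact (hP i).preimage (continuous_const_smul _)
  choose C hC using fun i => hth _ (hQ i)
  refine ⟨∑ i, C i, ⋃ i, {x | t i • x ∈ Amb π ((fun y => t i • y) '' P i)}, ?_, ?_, ?_⟩
  · exact isClosed_iUnion_of_finite fun i =>
      (amb_closed π hπ _ (hQ i)).preimage (continuous_const_smul (t i))
  · exact thin_union C _ fun i => thin_tr (C i) _ (hC i) (t i)
  · intro O hO hZO
    refine ⟨fun i => (K ∩ π '' P i) ∩ Oᶜ, fun i => ?_, fun i => ?_, fun x hx => ?_, ?_⟩
    · exact (hK.inter ((hP i).1.isCompact.image hπ).isClosed).inter hO.isClosed_compl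
    · exact fun x hx => hx.1.2
    · by_cases hxO : x ∈ O
      · exact Or.inl hxO
      · obtain ⟨y, rfl⟩ := ‹Function.Surjective π› x
        obtain ⟨i, hi⟩ := hcov y hx
        exact Or.inr ⟨i, ⟨hx, y, hi, rfl⟩, hxO⟩
    · rintro i j hij x ⟨⟨_, y, hy, hyx⟩, hxO⟩ x' ⟨⟨_, y', hy', hyx'⟩, hxO'⟩ heq
      apply hxO
      apply hZO
      refine Set.mem_iUnion.2 ⟨i, ?_⟩
      refine ⟨⟨t i • y, ⟨y, hy, rfl⟩, ?_⟩, t j • y', ?_, ?_⟩
      · rw [he, hyx]
      · rintro ⟨y'', hy'', h2⟩
        exact hij (hinj i j y'' hy'' y' hy' h2).1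
      · rw [he, hyx', heq]

end Pool.Agent.H107ZS
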