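import Pool.Agent.H107_ZS.DStubs7

/-! Thickening closed sets. -/

set_option autoImplicit false

namespace Pool.Agent.H107ZS

open Topology

universe u v w

theorem t_SEP : StSEP.{u, v} := by
  classical
  intro G _ X _ _ _ _ _ n L t V hV hL hLV hdis
  -- the closed sets `t i L i`
  have hTc : ∀ i, IsClosed ((fun x => t i • x) '' L i) := fun i =>
    ((hL i).isCompact.image (continuous_const_smul (t i))).isClosed
  have hpd : ∀ i j, i ≠ j → Disjoint ((fun x => t i • x) '' L i) ((fun x => t j • x) '' L j) := by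
    intro i j hij
    rw [Set.disjoint_left]
    rintro _ ⟨x, hx, rfl⟩ ⟨x', hx', h⟩
    exact hdis i j hij x hx x' hx' h.symm
  -- separate pairs
  have hsep : ∀ i j, ∃ U W : Set X, IsOpen U ∧ IsOpen W ∧ (fun x => t i • x) '' L i ⊆ U ∧
      (fun x => t j • x) '' L j ⊆ W ∧ (i ≠ j → Disjoint U W) := by
    intro i j
    by_cases hij : i = j
    · exact ⟨Set.univ, Set.univ, isOpen_univ, isOpen_univ, Set.subset_univ _, Set.subset_univ _,
        fun h => absurd hij h⟩
    · obtain ⟨U, W, h1, h2, h3, h4, h5⟩ := normal_separation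
        (hTc i) (hTc j) (hpd i j hij)
      exact ⟨U, W, h1, h2, h3, h4, fun _ => h5⟩
  choose U W hU hW hLU hLW hUW using hsep
  refine ⟨fun i => {x | t i • x ∈ V ∧ ∀ j, t i • x ∈ U i j ∧ t i • x ∈ W j i}, fun i => ?_,
    fun i x hx => ?_, fun i x hx => hx.1, ?_⟩
  · have h1 : {x : X | t i • x ∈ V ∧ ∀ j, t i • x ∈ U i j ∧ t i • x ∈ W j i} =
        (fun x => t i • x) ⁻¹' (V ∩ ⋂ j, (U i j ∩ W j i)) := by
      ext x
      simp only [Set.mem_preimage, Set.mem_inter_iff, Set.mem_iInter]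
      exact Iff.rfl
    show IsOpen {x : X | t i • x ∈ V ∧ ∀ j, t i • x ∈ U i j ∧ t i • x ∈ W j i}
    rw [h1]
    exact (hV.inter (isOpen_iInter_of_finite fun j => (hU i j).inter (hW j i))).preimage
      (continuous_const_smul (t i))
  · exact ⟨hLV i x hx, fun j => ⟨hLU i j ⟨x, hx, rfl⟩, hLW j i ⟨x, hx, rfl⟩⟩⟩
  · intro i j hij x hx x' hx' heq
    have h1 := (hx.2 j).1
    have h2 := (hx'.2 i).2
    rw [heq] at h1
    exact Set.disjoint_left.1 (hUW i j hij) h1 h2

end Pool.Agent.H107ZS
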