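import Pool.Agent.H107_ZS.DStubs3

/-!
# Zero-dimensional extensions with small boundaries (`StZE`)
-/

set_option autoImplicit false

namespace Pool.Agent.H107ZS

open Topology

universe u v w

theorem t_ZE (h3 : StZE3.{u}) (h4 : StZE4.{u}) : StZE.{u} := by
  intro G _ _ X _ _ _ _ _ d hfree hdim
  obtain ⟨f, hf1, hf2⟩ := h3 G X d hfree hdim
  exact h4 G X d f hf1 hf2

end Pool.Agent.H107ZS
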