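import Pool.Agent.H107_ZS.DStubs3

/-!
# Maps from a space of dimension at most `d` to `ℝ^(d+1)` (`StZE1`)
-/

set_option autoImplicit false

namespace Pool.Agent.H107ZS

open Topology

universe u v w

namespace TZE1

/-- one vector in general position -/
theorem exists_vec (d : ℕ) {κ : Type} (A : Finset κ) (w : κ → (Fin (d + 1) → ℝ))
    (c : Fin (d + 1) → ℝ) (δ : ℝ) (hδ : 0 < δ) :
    ∃ z : Fin (d + 1) → ℝ, dist z c < δ ∧ ∀ B : Finset κ, B ⊆ A → B.card ≤ d →
      z ∉ Submodule.span ℝ (w '' (B : Set κ)) := by
  classical
  let f : Finset κ → Set (Fin (d + 1) → ℝ) := fun B =>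
    ((Submodule.span ℝ (w '' (B : Set κ)) : Submodule ℝ (Fin (d + 1) → ℝ)) :
      Set (Fin (d + 1) → ℝ))ᶜ
  have hopen : ∀ B ∈ ((A.powerset.filter fun B => B.card ≤ d : Finset (Finset κ)) :
      Set (Finset κ)), IsOpen (f B) := fun B _ =>
    (Submodule.closed_of_finiteDimensional _).isOpen_compl
  have hdense : ∀ B ∈ ((A.powerset.filter fun B => B.card ≤ d : Finset (Finset κ)) :
      Set (Finset κ)), Dense (f B) := by
    intro B hB
    have hBd : B.card ≤ d := (Finset.mem_filter.1 (Finset.mem_coe.1 hB)).2
    rw [← interior_eq_empty_iff_dense_compl]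
    by_contra hne
    have htop := Submodule.eq_top_of_nonempty_interior' _ (Set.nonempty_iff_ne_empty.2 hne)
    have h1 := finrank_span_finset_le_card (R := ℝ) (B.image w)
    rw [Set.finrank, Finset.coe_image, htop, finrank_top] at h1
    have h2 : Module.finrank ℝ (Fin (d + 1) → ℝ) = d + 1 := by simp
    have h3 : (B.image w).card ≤ B.card := Finset.card_image_le
    omega
  have hD := dense_biInter_of_isOpen hopen (Finset.countable_toSet _) hdense
  obtain ⟨z, hz, hzc⟩ := hD.exists_mem_open (Metric.isOpen_ball (x := c) (ε := δ))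
    ⟨c, Metric.mem_ball_self hδ⟩
  refine ⟨z, hzc, fun B hBA hBd hmem => ?_⟩
  have h1 := Set.mem_iInter₂.1 hz B
    (Finset.mem_coe.2 (Finset.mem_filter.2 ⟨Finset.mem_powerset.2 hBA, hBd⟩))
  exact h1 hmem

/-- vectors in general position -/
theorem exists_vecs (d : ℕ) {κ : Type} (c : κ → (Fin (d + 1) → ℝ)) (δ : ℝ) (hδ : 0 < δ)
    (A : Finset κ) : ∃ w : κ → (Fin (d + 1) → ℝ), (∀ k, dist (w k) (c k) < δ) ∧
      ∀ B : Finset κ, B ⊆ A → B.card ≤ d + 1 → LinearIndepOn ℝ w (B : Set κ) := by
  classical
  induction A using Finset.induction_on with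
  | empty =>
    refine ⟨c, fun k => by simpa using hδ, fun B hB _ => ?_⟩
    rw [Finset.subset_empty.1 hB]
    simp
  | insert a A ha ih =>
    obtain ⟨w, hw1, hw2⟩ := ih
    obtain ⟨z, hz1, hz2⟩ := exists_vec d A w (c a) δ hδ
    have hupd : ∀ B : Finset κ, a ∉ B → ∀ k ∈ (B : Set κ), Function.update w a z k = w k := by
      intro B hB k hk
      apply Function.update_of_ne
      rintro rfl
      exact hB hk
    have hind : ∀ B : Finset κ, a ∉ B → LinearIndepOn ℝ w (B : Set κ) →
        LinearIndepOn ℝ (Function.update w a z) (B : Set κ) := by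
      intro B hB h
      rw [linearIndepOn_finset_iff] at h ⊢
      intro f hf
      apply h f
      rw [← hf]
      refine Finset.sum_congr rfl fun k hk => ?_
      rw [hupd B hB k hk]
    refine ⟨Function.update w a z, fun k => ?_, fun B hB hcard => ?_⟩
    · by_cases hk : k = a
      · subst hk
        rw [Function.update_self]
        exact hz1
      · rw [Function.update_of_ne hk]
        exact hw1 k
    · by_cases haB : a ∈ B
      · have hsub : B.erase a ⊆ A := by
          intro k hk
          rw [Finset.mem_erase] at hk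
          rcases Finset.mem_insert.1 (hB hk.2) with h | h
          · exact absurd h hk.1
          · exact h
        have hcard' : (B.erase a).card ≤ d := by
          rw [Finset.card_erase_of_mem haB]
          omega
        have hBe : (B : Set κ) = insert a ((B.erase a : Finset κ) : Set κ) := by
          rw [← Finset.coe_insert, Finset.insert_erase haB]
        have haB' : a ∉ ((B.erase a : Finset κ) : Set κ) := by simp
        rw [hBe, linearIndepOn_insert haB']
        refine ⟨hind _ haB' (hw2 _ hsub (by omega)), ?_⟩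
        rw [Function.update_self]
        have himg : Function.update w a z '' ((B.erase a : Finset κ) : Set κ) =
            w '' ((B.erase a : Finset κ) : Set κ) :=
          Set.image_congr (hupd _ haB')
        rw [himg]
        exact hz2 _ hsub hcard'
      · refine hind B haB (hw2 B (fun k hk => ?_) hcard)
        rcases Finset.mem_insert.1 (hB hk) with h | h
        · exact absurd (h ▸ hk) haB
        · exact h

end TZE1

theorem t_ZE1 : StZE1.{u} := by
  classical
  intro X _ _ _ d hdim F p ε hε
  -- a cover by sets of small variation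
  obtain ⟨T, hT⟩ := isCompact_univ.elim_nhds_subcover (fun x : X => {y | dist (F y) (F x) < ε / 4})
    (fun x _ => (isOpen_lt (F.continuous.dist continuous_const) continuous_const).mem_nhds
      (by
        change dist (F x) (F x) < ε / 4
        rw [dist_self]
        linarith))
  let e := T.equivFin
  obtain ⟨κ, hκ, V, hV1, hV2, hV3, hV4⟩ := hdim (Fin T.card)
    (fun i => {y | dist (F y) (F (e.symm i : X)) < ε / 4})
    (fun i => isOpen_lt (F.continuous.dist continuous_const) continuous_const) (by
      rw [Set.eq_univ_iff_forall]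
      intro y
      have := hT.2 (Set.mem_univ y)
      simp only [Set.mem_iUnion] at this
      obtain ⟨x, hx, hy⟩ := this
      rw [Set.mem_iUnion]
      refine ⟨e ⟨x, hx⟩, ?_⟩
      rw [Set.mem_ofPred_eq, Equiv.symm_apply_apply]
      exact hy)
  haveI : Fintype κ := Fintype.ofFinite κ
  choose i hi using hV3
  obtain ⟨f, hf⟩ := PartitionOfUnity.exists_isSubordinate (isClosed_univ (X := X)) V hV1
    (by rw [hV2])
  obtain ⟨w, hw1, hw2⟩ := TZE1.exists_vecs d (fun k : κ => F (e.symm (i k) : X) - p) (ε / 4)
    (by linarith) Finset.univ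
  have hsum : ∀ x, ∑ k, f k x = 1 := by
    intro x
    rw [← finsum_eq_sum_of_fintype]
    exact f.sum_eq_one (Set.mem_univ x)
  have hnn : ∀ k x, 0 ≤ f k x := fun k x => f.nonneg k x
  have hsupp : ∀ k x, f k x ≠ 0 → x ∈ V k := fun k x h => hf k (subset_tsupport _ h)
  have hnear : ∀ k x, f k x ≠ 0 → ‖w k - (F x - p)‖ ≤ ε / 2 := by
    intro k x h
    have h1 : dist (F x) (F (e.symm (i k) : X)) < ε / 4 := hi k (hsupp k x h)
    have h2 := hw1 k
    have h3 : w k - (F x - p) = (w k - (F (e.symm (i k) : X) - p)) -
        (F x - F (e.symm (i k) : X)) := by abel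
    rw [h3]
    rw [dist_eq_norm] at h1 h2
    have h4 := norm_sub_le (w k - (F (e.symm (i k) : X) - p)) (F x - F (e.symm (i k) : X))
    linarith
  refine ⟨⟨fun x => p + ∑ k, f k x • w k, ?_⟩, fun x => ?_, fun x hx => ?_⟩
  · refine continuous_const.add (continuous_finsetSum _ fun k _ => ?_)
    exact (f k).continuous.smul continuous_const
  · change dist (p + ∑ k, f k x • w k) (F x) < ε
    rw [dist_eq_norm]
    have h1 : p + ∑ k, f k x • w k - F x = ∑ k, f k x • (w k - (F x - p)) := by
      simp only [smul_sub, Finset.sum_sub_distrib, ← Finset.sum_smul, hsum x, one_smul]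
      abel
    rw [h1]
    have h2 : ‖∑ k, f k x • (w k - (F x - p))‖ ≤ ∑ k, f k x * (ε / 2) := by
      refine norm_sum_le_of_le _ fun k _ => ?_
      rw [norm_smul, Real.norm_of_nonneg (hnn k x)]
      by_cases h : f k x = 0
      · simp [h]
      · exact mul_le_mul_of_nonneg_left (hnear k x h) (hnn k x)
    rw [← Finset.sum_mul, hsum x] at h2
    linarith
  · have hx' : p + ∑ k, f k x • w k = p := hx
    have h0 : ∑ k, f k x • w k = 0 := by
      have := add_eq_left.1 hx'
      exact this
    let A : Finset κ := Finset.univ.filter fun k => f k x ≠ 0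
    have hA : A.card ≤ d + 1 := by
      refine le_trans ?_ (hV4 x)
      have h1 : Nat.card {k // x ∈ V k} = (Finset.univ.filter fun k => x ∈ V k).card := by
        rw [Nat.card_eq_fintype_card, Fintype.card_subtype]
      rw [h1]
      apply Finset.card_le_card
      intro k hk
      rw [Finset.mem_filter] at hk ⊢
      exact ⟨hk.1, hsupp k x hk.2⟩
    have hlin := hw2 A (Finset.subset_univ _) hA
    rw [linearIndepOn_finset_iff] at hlin
    have h2 : ∑ k ∈ A, f k x • w k = 0 := by
      rw [← h0]
      apply Finset.sum_subset (Finset.subset_univ _)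
      intro k _ hk
      have : f k x = 0 := by
        by_contra hne
        exact hk (Finset.mem_filter.2 ⟨Finset.mem_univ _, hne⟩)
      rw [this, zero_smul]
    have h3 := hlin (fun k => f k x) h2
    have h4 : ∀ k, f k x = 0 := by
      intro k
      by_contra hne
      exact hne (h3 k (Finset.mem_filter.2 ⟨Finset.mem_univ _, hne⟩))
    have h5 := hsum x
    rw [Finset.sum_eq_zero fun k _ => h4 k] at h5
    exact zero_ne_one h5

end Pool.Agent.H107ZS
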