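import Pool.Agent.H107_ZS.DStubs3

/-!
# Sequences of functions without common values `1/2` are dense (`StZE2`)
-/

set_option autoImplicit false

namespace Pool.Agent.H107ZS

open Topology

universe u v w

namespace TZE2

variable {G : Type u} [Group G] {X : Type u} [TopologicalSpace X] [CompactSpace X]
  [T2Space X] [MulAction G X] [ContinuousConstSMul G X]

/-- the condition on the closed set `C` -/
def good {k : ℕ} (P : Fin k → ℕ × G) (C : Set X) : Set (BoundedContinuousFunction (ℕ × X) ℝ) :=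
  {Φ | ∀ x ∈ C, ∃ i, Φ ((P i).1, (P i).2 • x) ≠ 1 / 2}

omit [T2Space X] in
theorem isOpen_good {k : ℕ} (P : Fin k → ℕ × G) {C : Set X} (hC : IsClosed C) :
    IsOpen (good P C) := by
  let D : Set (BoundedContinuousFunction (ℕ × X) ℝ × X) :=
    {p | p.2 ∈ C ∧ ∀ i, p.1 ((P i).1, (P i).2 • p.2) = 1 / 2}
  have hD : IsClosed D := by
    have h1 : D = {p | p.2 ∈ C} ∩ ⋂ i, {p : BoundedContinuousFunction (ℕ × X) ℝ × X |
        p.1 ((P i).1, (P i).2 • p.2) = 1 / 2} := by
      ext p
      simp [D]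
    rw [h1]
    refine (hC.preimage continuous_snd).inter (isClosed_iInter fun i =>
      isClosed_eq ?_ continuous_const)
    have h2 : Continuous fun p : BoundedContinuousFunction (ℕ × X) ℝ × X =>
        ((P i).1, (P i).2 • p.2) :=
      continuous_const.prodMk ((continuous_const_smul _).comp continuous_snd)
    exact continuous_fst.eval h2
  have h1 : good P C = (Prod.fst '' D)ᶜ := by
    ext Φ
    simp only [good, D, Set.mem_ofPred_eq, Set.mem_compl_iff, Set.mem_image, Prod.exists,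
      exists_and_right, exists_eq_right, not_exists, not_and, not_forall]
  rw [h1]
  exact (isClosedMap_fst_of_compactSpace D hD).isOpen_compl

omit [CompactSpace X] in
/-- neighbourhoods with disjoint translates -/
theorem exists_nhd (hfree : FreeAct G X) {k : ℕ} (P : Fin k → ℕ × G)
    (hP : Function.Injective P) (x0 : X) :
    ∃ U : Set X, IsOpen U ∧ x0 ∈ U ∧ ∀ i j, i ≠ j → (P i).1 = (P j).1 → ∀ x ∈ U, ∀ y ∈ U,
      (P i).2 • x ≠ (P j).2 • y := by
  classical
  have h1 : ∀ q : Fin k × Fin k, ∃ U : Set X, IsOpen U ∧ x0 ∈ U ∧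
      (q.1 ≠ q.2 → (P q.1).1 = (P q.2).1 → ∀ x ∈ U, ∀ y ∈ U, (P q.1).2 • x ≠ (P q.2).2 • y) := by
    rintro ⟨i, j⟩
    by_cases hij : i ≠ j ∧ (P i).1 = (P j).1
    · have hne : (P i).2 • x0 ≠ (P j).2 • x0 := by
        intro h
        have h2 : ((P j).2⁻¹ * (P i).2) • x0 = x0 := by
          rw [mul_smul, h, inv_smul_smul]
        have h3 := hfree _ _ h2
        have h4 : (P i).2 = (P j).2 := by
          rw [inv_mul_eq_one] at h3
          exact h3.symm
        exact hij.1 (hP (Prod.ext hij.2 h4))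
      obtain ⟨A, B, hA, hB, hxA, hxB, hAB⟩ := t2_separation hne
      refine ⟨{x | (P i).2 • x ∈ A} ∩ {x | (P j).2 • x ∈ B},
        (hA.preimage (continuous_const_smul _)).inter (hB.preimage (continuous_const_smul _)),
        ⟨hxA, hxB⟩, fun _ _ x hx y hy h => ?_⟩
      have h5 : (P i).2 • x ∈ A := hx.1
      have h6 : (P j).2 • y ∈ B := hy.2
      rw [h] at h5
      exact Set.disjoint_left.1 hAB h5 h6
    · exact ⟨Set.univ, isOpen_univ, Set.mem_univ _, fun h2 h3 => absurd ⟨h2, h3⟩ hij⟩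
  choose U hU1 hU2 hU3 using h1
  refine ⟨⋂ q, U q, isOpen_iInter_of_finite hU1, Set.mem_iInter.2 hU2, ?_⟩
  intro i j hij hn x hx y hy
  exact hU3 (i, j) hij hn x (Set.mem_iInter.1 hx _) y (Set.mem_iInter.1 hy _)

theorem bound_aux (d : ℕ) (ε : ℝ) (t : Fin (d + 1) → ℝ) (h : ∀ i, |t i| ≤ ε / (2 * (d + 1))) :
    |∑ i, t i| ≤ ε / 2 := by
  refine (Finset.abs_sum_le_sum_abs _ _).trans ?_
  refine (Finset.sum_le_sum fun i _ => h i).trans ?_
  rw [Finset.sum_const, Finset.card_univ, Fintype.card_fin, nsmul_eq_mul]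
  have hd : (0 : ℝ) < d + 1 := by positivity
  refine le_of_eq ?_
  push_cast
  field_simp

open Classical in
/-- the local perturbation -/
theorem dense_good (hZE1 : StZE1.{u}) {d : ℕ} (hdim : DimLE X d)
    (P : Fin (d + 1) → ℕ × G) {C U : Set X} (hC : IsClosed C) (hU : IsOpen U) (hCU : C ⊆ U)
    (hdisj : ∀ i j, i ≠ j → (P i).1 = (P j).1 → ∀ x ∈ U, ∀ y ∈ U, (P i).2 • x ≠ (P j).2 • y) :
    Dense (good P C) := by
  intro Φ
  rw [Metric.mem_closure_iff]
  intro ε hε
  obtain ⟨χ, hχ0, hχ1, hχ⟩ := exists_continuous_zero_one_of_isClosed (s := Uᶜ) (t := C)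
    hU.isClosed_compl hC (Set.disjoint_left.2 fun z hz hz' => hz (hCU hz'))
  let F : C(X, Fin (d + 1) → ℝ) := ⟨fun x i => Φ ((P i).1, (P i).2 • x),
    continuous_pi fun i => Φ.continuous.comp
      (continuous_const.prodMk (continuous_const_smul (P i).2))⟩
  have hδ : 0 < ε / (2 * ((d : ℝ) + 1)) := by positivity
  obtain ⟨F', hF'1, hF'2⟩ := hZE1 X d hdim F (fun _ => 1 / 2) (ε / (2 * (d + 1))) hδ
  let t : Fin (d + 1) → ℕ × X → ℝ := fun i q =>
    if q.1 = (P i).1 then χ ((P i).2⁻¹ • q.2) * (F' ((P i).2⁻¹ • q.2) i - F ((P i).2⁻¹ • q.2) i)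
    else 0
  have htb : ∀ i q, |t i q| ≤ ε / (2 * (d + 1)) := by
    intro i q
    by_cases hq : q.1 = (P i).1
    · simp only [t, if_pos hq, abs_mul]
      have h1 := hχ ((P i).2⁻¹ • q.2)
      have h2 : |χ ((P i).2⁻¹ • q.2)| ≤ 1 := by
        rw [abs_of_nonneg h1.1]
        exact h1.2
      have h3 : |F' ((P i).2⁻¹ • q.2) i - F ((P i).2⁻¹ • q.2) i| ≤ ε / (2 * (d + 1)) := by
        have h4 := dist_le_pi_dist (F' ((P i).2⁻¹ • q.2)) (F ((P i).2⁻¹ • q.2)) i
        rw [Real.dist_eq] at h4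
        exact h4.trans (hF'1 _).le
      calc _ ≤ 1 * (ε / (2 * (d + 1))) :=
            mul_le_mul h2 h3 (abs_nonneg _) zero_le_one
        _ = _ := one_mul _
    · simp only [t, if_neg hq, abs_zero]
      exact hδ.le
  have htc : ∀ i, Continuous (t i) := by
    intro i
    have h1 : Continuous fun q : ℕ × X => (if q.1 = (P i).1 then (1 : ℝ) else 0) :=
      (continuous_of_discreteTopology (f := fun n : ℕ => if n = (P i).1 then (1 : ℝ) else 0)).comp
        continuous_fst
    have h2 : Continuous fun q : ℕ × X => (P i).2⁻¹ • q.2 :=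
      (continuous_const_smul (P i).2⁻¹).comp continuous_snd
    have h3 : Continuous fun q : ℕ × X => χ ((P i).2⁻¹ • q.2) *
        (F' ((P i).2⁻¹ • q.2) i - F ((P i).2⁻¹ • q.2) i) :=
      (χ.continuous.comp h2).mul
        (((continuous_apply i).comp (F'.continuous.comp h2)).sub
          ((continuous_apply i).comp (F.continuous.comp h2)))
    have h4 : t i = fun q : ℕ × X => (if q.1 = (P i).1 then (1 : ℝ) else 0) *
        (χ ((P i).2⁻¹ • q.2) * (F' ((P i).2⁻¹ • q.2) i - F ((P i).2⁻¹ • q.2) i)) := by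
      ext q
      simp only [t, ite_mul, one_mul, zero_mul]
    rw [h4]
    exact h1.mul h3
  let Ψ : BoundedContinuousFunction (ℕ × X) ℝ :=
    BoundedContinuousFunction.ofNormedAddCommGroup (fun q => ∑ i, t i q)
      (continuous_finsetSum _ fun i _ => htc i) (ε / 2) (fun q => by
        rw [Real.norm_eq_abs]
        exact bound_aux d ε (fun i => t i q) fun i => htb i q)
  refine ⟨Φ + Ψ, ?_, ?_⟩
  · intro x hx
    have hval : ∀ i, (Φ + Ψ) ((P i).1, (P i).2 • x) = F' x i := by
      intro i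
      rw [BoundedContinuousFunction.add_apply]
      have h1 : Ψ ((P i).1, (P i).2 • x) = ∑ j, t j ((P i).1, (P i).2 • x) := rfl
      rw [h1, Finset.sum_eq_single i]
      · have h2 : t i ((P i).1, (P i).2 • x) = F' x i - F x i := by
          simp only [t, if_true, inv_smul_smul]
          rw [hχ1 hx, Pi.one_apply, one_mul]
        rw [h2]
        change F x i + (F' x i - F x i) = F' x i
        ring
      · intro j _ hji
        by_cases hn : (P i).1 = (P j).1
        · simp only [t, if_pos hn]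
          have h2 : (P j).2⁻¹ • (P i).2 • x ∉ U := by
            intro hmem
            exact hdisj i j (Ne.symm hji) hn x (hCU hx) _ hmem (by rw [smul_inv_smul])
          have h3 : χ ((P j).2⁻¹ • (P i).2 • x) = 0 := hχ0 h2
          rw [h3, zero_mul]
        · simp only [t, if_neg hn]
      · intro h
        exact absurd (Finset.mem_univ i) h
    by_contra hcon
    push Not at hcon
    apply hF'2 x
    ext i
    rw [← hval i]
    exact hcon i
  · rw [dist_eq_norm]
    have h1 : Φ - (Φ + Ψ) = -Ψ := by abel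
    rw [h1, norm_neg]
    have h2 : ‖Ψ‖ ≤ ε / 2 := BoundedContinuousFunction.norm_ofNormedAddCommGroup_le _ (by linarith)
      _
    linarith

end TZE2

open TZE2 in
theorem t_ZE2 (hZE1 : StZE1.{u}) : StZE2.{u} := by
  classical
  intro G _ X _ _ _ _ _ d hfree hdim P hP Φ ε hε
  have h1 : ∀ x0 : X, ∃ C : Set X, C ∈ 𝓝 x0 ∧ IsClosed C ∧ Dense (good P C) := by
    intro x0
    obtain ⟨U, hU, hx0, hdisj⟩ := exists_nhd hfree P hP x0
    obtain ⟨C, hC1, hC2, hC3⟩ := exists_mem_nhds_isClosed_subset (hU.mem_nhds hx0)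
    exact ⟨C, hC1, hC2, dense_good hZE1 hdim P hC2 hU hC3 hdisj⟩
  choose C hC1 hC2 hC3 using h1
  obtain ⟨T, hT⟩ := isCompact_univ.elim_nhds_subcover C (fun x _ => hC1 x)
  have hd := dense_biInter_of_isOpen (S := (T : Set X)) (f := fun x => good P (C x))
    (fun x _ => isOpen_good P (hC2 x)) (Finset.countable_toSet _) (fun x _ => hC3 x)
  obtain ⟨Φ', hΦ', hdist⟩ := hd.exists_dist_lt Φ hε
  refine ⟨Φ', hdist, fun x => ?_⟩
  have hx := hT.2 (Set.mem_univ x)
  simp only [Set.mem_iUnion] at hx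
  obtain ⟨y, hy, hxy⟩ := hx
  exact Set.mem_iInter₂.1 hΦ' y (Finset.mem_coe.2 hy) x hxy

end Pool.Agent.H107ZS
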