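import Pool.Agent.H107_ZS.DStubs3

/-!
# ZE4: the totally disconnected extension given by a sequence of functions
-/

set_option autoImplicit false

namespace Pool.Agent.H107ZS

open Topology

universe u v w

namespace TZE4

variable {G : Type u} [Group G] {X : Type u} [TopologicalSpace X] [MulAction G X]

/-- the extension -/
def YY (G : Type u) [Group G] {X : Type u} [TopologicalSpace X] [MulAction G X] (f : ℕ → C(X, ℝ)) :
    Set ((ℕ × G → Bool) × X) :=
  {p | ∀ q : ℕ × G, (p.1 q = true → 1 / 2 ≤ f q.1 (q.2 • p.2)) ∧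
    (p.1 q = false → f q.1 (q.2 • p.2) ≤ 1 / 2)}

lemma isClosed_YY [ContinuousConstSMul G X] (f : ℕ → C(X, ℝ)) : IsClosed (YY G f) := by
  have : YY G f = ⋂ q : ℕ × G, ({p | p.1 q = false} ∪ {p | 1 / 2 ≤ f q.1 (q.2 • p.2)}) ∩
      ({p | p.1 q = true} ∪ {p | f q.1 (q.2 • p.2) ≤ 1 / 2}) := by
    ext p
    simp only [YY, Set.mem_ofPred_eq, Set.mem_iInter, Set.mem_inter_iff, Set.mem_union]
    refine forall_congr' fun q => ?_
    cases h : p.1 q <;> simp
  rw [this]
  have hc : ∀ q : ℕ × G, Continuous fun p : (ℕ × G → Bool) × X => f q.1 (q.2 • p.2) := fun q =>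
    (f q.1).continuous.comp ((continuous_const_smul q.2).comp continuous_snd)
  have hb : ∀ q : ℕ × G, Continuous fun p : (ℕ × G → Bool) × X => p.1 q := fun q =>
    (continuous_apply q).comp continuous_fst
  refine isClosed_iInter fun q => ((IsClosed.union ?_ ?_).inter (IsClosed.union ?_ ?_))
  · exact isClosed_eq (hb q) continuous_const
  · exact isClosed_le continuous_const (hc q)
  · exact isClosed_eq (hb q) continuous_const
  · exact isClosed_le (hc q) continuous_const

/-- the action -/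
instance act (f : ℕ → C(X, ℝ)) : MulAction G (YY G f) where
  smul h y := ⟨(fun q => y.1.1 (q.1, q.2 * h), h • y.1.2), fun q => by
    have := y.2 (q.1, q.2 * h)
    simp only [mul_smul] at this
    exact this⟩
  one_smul y := by
    apply Subtype.ext
    show ((fun q : ℕ × G => y.1.1 (q.1, q.2 * 1), (1 : G) • y.1.2) : (ℕ × G → Bool) × X) = y.1
    simp
  mul_smul h k y := by
    apply Subtype.ext
    show ((fun q : ℕ × G => y.1.1 (q.1, q.2 * (h * k)), (h * k) • y.1.2) : (ℕ × G → Bool) × X) =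
      (fun q : ℕ × G => y.1.1 (q.1, q.2 * h * k), h • k • y.1.2)
    simp [mul_smul, mul_assoc]

lemma smul_fst (f : ℕ → C(X, ℝ)) (h : G) (y : YY G f) (q : ℕ × G) :
    (h • y).1.1 q = y.1.1 (q.1, q.2 * h) := rfl

lemma smul_snd (f : ℕ → C(X, ℝ)) (h : G) (y : YY G f) : (h • y).1.2 = h • y.1.2 := rfl

instance contAct [ContinuousConstSMul G X] (f : ℕ → C(X, ℝ)) : ContinuousConstSMul G (YY G f) where
  continuous_const_smul h := by
    refine Continuous.subtype_mk ?_ _
    refine Continuous.prodMk ?_ ?_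
    · refine continuous_pi fun q => ?_
      exact (continuous_apply (q.1, q.2 * h)).comp (continuous_fst.comp continuous_subtype_val)
    · exact (continuous_const_smul h).comp (continuous_snd.comp continuous_subtype_val)

lemma inj (f : ℕ → C(X, ℝ)) (hf : ∀ x y, x ≠ y → ∃ n, f n x < 1 / 2 ∧ 1 / 2 < f n y) :
    Function.Injective fun y : YY G f => y.1.1 := by
  intro y y' h
  simp only at h
  apply Subtype.ext
  refine Prod.ext h ?_
  by_contra hne
  obtain ⟨n, h1, h2⟩ := hf _ _ hne
  have h3 := y.2 (n, 1)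
  have h4 := y'.2 (n, 1)
  simp only [one_smul] at h3 h4
  rw [← h] at h4
  cases h5 : y.1.1 (n, 1)
  · exact absurd (h4.2 h5) (not_le.2 h2)
  · exact absurd (h3.1 h5) (not_le.2 h1)

/-- the value is `1/2` where two points of a fibre differ -/
lemma half {f : ℕ → C(X, ℝ)} {y y' : YY G f} (hx : y.1.2 = y'.1.2) {q : ℕ × G}
    (hq : y.1.1 q ≠ y'.1.1 q) : f q.1 (q.2 • y.1.2) = 1 / 2 := by
  have h1 := y.2 q
  have h2 := y'.2 q
  rw [← hx] at h2
  cases h3 : y.1.1 q
  · cases h4 : y'.1.1 q
    · exact absurd (h3.trans h4.symm) hq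
    · exact le_antisymm (h1.2 h3) (h2.1 h4)
  · cases h4 : y'.1.1 q
    · exact le_antisymm (h2.2 h4) (h1.1 h3)
    · exact absurd (h3.trans h4.symm) hq

/-- the finite set of pairs with value `1/2` -/
lemma halfset {d : ℕ} {f : ℕ → C(X, ℝ)}
    (hd : ∀ (x : X) (F : Finset (ℕ × G)), (∀ p ∈ F, f p.1 (p.2 • x) = 1 / 2) → F.card ≤ d) (x : X) :
    ∃ Z : Finset (ℕ × G), Z.card ≤ d ∧ ∀ p, p ∈ Z ↔ f p.1 (p.2 • x) = 1 / 2 := by
  classical
  have hfin : {p : ℕ × G | f p.1 (p.2 • x) = 1 / 2}.Finite := by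
    by_contra h
    obtain ⟨F, hF, hFc⟩ := Set.Infinite.exists_subset_card_eq h (d + 1)
    have := hd x F fun p hp => hF hp
    omega
  refine ⟨hfin.toFinset, hd x _ fun p hp => ?_, fun p => ?_⟩
  · exact (Set.Finite.mem_toFinset hfin).1 hp
  · exact Set.Finite.mem_toFinset hfin

/-- clopen sets depend on finitely many coordinates -/
lemma finite_dep [CompactSpace X] [T2Space X] [ContinuousConstSMul G X] (f : ℕ → C(X, ℝ))
    (hf : ∀ x y, x ≠ y → ∃ n, f n x < 1 / 2 ∧ 1 / 2 < f n y) (A : Set (YY G f)) (hA : IsClopen A) :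
    ∃ Q : Finset (ℕ × G), ∀ y y' : YY G f, (∀ q ∈ Q, y.1.1 q = y'.1.1 q) → (y ∈ A ↔ y' ∈ A) := by
  classical
  haveI : CompactSpace (YY G f) := isCompact_iff_compactSpace.1 (isClosed_YY f).isCompact
  let j : YY G f → (ℕ × G → Bool) := fun y => y.1.1
  have hj : Continuous j := continuous_fst.comp continuous_subtype_val
  have hje : IsClosedEmbedding j := hj.isClosedEmbedding (inj f hf)
  -- cylinders
  have key : ∀ B : Set (YY G f), IsOpen B → ∀ y ∈ B, ∃ Q : Finset (ℕ × G),
      ∀ y' : YY G f, (∀ q ∈ Q, y'.1.1 q = y.1.1 q) → y' ∈ B := by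
    intro B hB y hy
    obtain ⟨O, hO, hOB⟩ := hje.isInducing.isOpen_iff.1 hB
    have hyO : j y ∈ O := by
      have : y ∈ j ⁻¹' O := by rw [hOB]; exact hy
      exact this
    obtain ⟨I, v, hv, hvO⟩ := isOpen_pi_iff.1 hO _ hyO
    refine ⟨I, fun y' hy' => ?_⟩
    rw [← hOB]
    refine hvO fun q hq => ?_
    have h1 : j y' q = j y q := hy' q hq
    rw [h1]
    exact (hv q hq).2
  have key2 : ∀ y : YY G f, ∃ Q : Finset (ℕ × G),
      ∀ y' : YY G f, (∀ q ∈ Q, y'.1.1 q = y.1.1 q) → (y' ∈ A ↔ y ∈ A) := by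
    intro y
    by_cases hy : y ∈ A
    · obtain ⟨Q, hQ⟩ := key A hA.isOpen y hy
      exact ⟨Q, fun y' hy' => ⟨fun _ => hy, fun _ => hQ y' hy'⟩⟩
    · obtain ⟨Q, hQ⟩ := key Aᶜ hA.compl.isOpen y hy
      exact ⟨Q, fun y' hy' => ⟨fun h => absurd h (hQ y' hy'), fun h => absurd h hy⟩⟩
  choose Q hQ using key2
  have hopen : ∀ y : YY G f, IsOpen {y' : YY G f | ∀ q ∈ Q y, y'.1.1 q = y.1.1 q} := by
    intro y
    have h1 : {y' : YY G f | ∀ q ∈ Q y, y'.1.1 q = y.1.1 q} =
        ⋂ q ∈ Q y, {y' : YY G f | j y' q = j y q} := by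
      ext y'
      simp [j]
    rw [h1]
    refine isOpen_biInter_finset fun q _ => ?_
    have h2 : Continuous fun y' : YY G f => j y' q := (continuous_apply q).comp hj
    exact (isOpen_discrete {j y q}).preimage h2
  obtain ⟨t, ht⟩ := isCompact_univ.elim_finite_subcover
    (fun y : YY G f => {y' : YY G f | ∀ q ∈ Q y, y'.1.1 q = y.1.1 q}) hopen
    (fun y _ => Set.mem_iUnion.2 ⟨y, fun q _ => rfl⟩)
  refine ⟨t.biUnion Q, fun y y' hyy => ?_⟩
  obtain ⟨z, hz, hyz⟩ := Set.mem_iUnion₂.1 (ht (Set.mem_univ y))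
  have h1 : ∀ q ∈ Q z, y'.1.1 q = z.1.1 q := fun q hq =>
    (hyy q (Finset.mem_biUnion.2 ⟨z, hz, hq⟩)).symm.trans (hyz q hq)
  rw [hQ z y hyz, hQ z y' h1]

end TZE4

open TZE4 in
/-- the extension -/
theorem t_ZE4 : StZE4.{u} := by
  classical
  intro G _ _ X _ _ _ _ _ d f hf hd
  haveI : T2Space X := inferInstance
  haveI : CompactSpace (YY G f) := isCompact_iff_compactSpace.1 (isClosed_YY f).isCompact
  haveI : TotallyDisconnectedSpace (YY G f) := by
    refine ⟨isTotallyDisconnected_of_image (f := fun y : YY G f => y.1.1) ?_ (inj f hf) ?_⟩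
    · exact (continuous_fst.comp continuous_subtype_val).continuousOn
    · exact isTotallyDisconnected_of_totallyDisconnectedSpace _
  refine ⟨YY G f, inferInstance, inferInstance, inferInstance, inferInstance, act f, contAct f,
    fun y => y.1.2, continuous_snd.comp continuous_subtype_val, ?_, fun g y => rfl, ?_, ?_⟩
  · intro x
    refine ⟨⟨(fun q => decide (1 / 2 ≤ f q.1 (q.2 • x)), x), fun q => ⟨fun h => ?_, fun h => ?_⟩⟩,
      rfl⟩
    · exact of_decide_eq_true h
    · exact (not_le.1 (of_decide_eq_false h)).le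
  · intro x F hF
    obtain ⟨Z, hZc, hZ⟩ := halfset hd x
    have h1 : F.card ≤ Z.powerset.card := by
      refine Finset.card_le_card_of_injOn (fun y => Z.filter fun q => y.1.1 q = true) ?_ ?_
      · intro y _
        rw [Finset.mem_coe, Finset.mem_powerset]
        exact Finset.filter_subset _ _
      · intro y hy y' hy' hyy
        simp only at hyy
        have hx : y.1.2 = y'.1.2 := (hF y hy).trans (hF y' hy').symm
        apply Subtype.ext
        refine Prod.ext ?_ hx
        funext q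
        by_contra hq
        have h2 := half hx hq
        have h3 : y.1.2 = x := hF y hy
        rw [h3] at h2
        have hqZ : q ∈ Z := (hZ q).2 h2
        have h4 : q ∈ (Z.filter fun q => y.1.1 q = true) ↔ q ∈ (Z.filter fun q => y'.1.1 q = true) := by
          rw [hyy]
        rw [Finset.mem_filter, Finset.mem_filter] at h4
        cases h5 : y.1.1 q <;> cases h6 : y'.1.1 q <;> simp_all
    rw [Finset.card_powerset] at h1
    exact h1.trans (Nat.pow_le_pow_right (by norm_num) hZc)
  · intro A hA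
    obtain ⟨Q, hQ⟩ := finite_dep f hf A hA
    refine ⟨Q.card * d, fun x F hF => ?_⟩
    obtain ⟨Z, hZc, hZ⟩ := halfset hd x
    have h1 : ∀ g : G, ∃ q : ℕ × G, g ∈ F → q ∈ Q ∧ (q.1, q.2 * g) ∈ Z := by
      intro g
      by_cases hg : g ∈ F
      · obtain ⟨⟨y, hy, hyx⟩, y', hy', hyx'⟩ := hF g hg
        by_contra hcon
        push Not at hcon
        apply hy'
        rw [← hQ y y' ?_]
        · exact hy
        · intro q hq
          by_contra hne
          have hyx2 : y.1.2 = g • x := hyx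
          have h2 := half (hyx.trans hyx'.symm) hne
          rw [hyx2, ← mul_smul] at h2
          exact (hcon q).2 hq ((hZ (q.1, q.2 * g)).2 h2)
      · exact ⟨(0, 1), fun h => absurd h hg⟩
    choose q hq using h1
    have h2 : F.card ≤ (Q ×ˢ Z).card := by
      refine Finset.card_le_card_of_injOn (fun g => (q g, ((q g).1, (q g).2 * g))) ?_ ?_
      · intro g hg
        rw [Finset.mem_coe, Finset.mem_product]
        exact hq g hg
      · intro g _ g' _ hgg
        simp only [Prod.mk.injEq] at hgg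
        obtain ⟨h3, -, h4⟩ := hgg
        rw [h3] at h4
        exact mul_left_cancel h4
    rw [Finset.card_product] at h2
    exact h2.trans (Nat.mul_le_mul_left _ hZc)

end Pool.Agent.H107ZS
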