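import Pool.Agent.H107_ZS.DStubs7
import Pool.Agent.H107_ZS.TPSH
import Pool.Agent.H107_ZS.TSEP
import Pool.Agent.H107_ZS.TKL
import Pool.Agent.H107_ZS.TPA
import Pool.Agent.H107_ZS.TBL
import Pool.Agent.H107_ZS.TUS
import Pool.Agent.H107_ZS.TRC1
import Pool.Agent.H107_ZS.TRC
import Pool.Agent.H107_ZS.TTRF
import Pool.Agent.H107_ZS.TMAINR
import Pool.Agent.H107_ZS.TRED
import Pool.Agent.H107_ZS.TZE
import Pool.Agent.H107_ZS.TZE1
import Pool.Agent.H107_ZS.TZE2
import Pool.Agent.H107_ZS.TZE3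
import Pool.Agent.H107_ZS.TZE4

/-!
# Dynamical comparison for free minimal topologically amenable actions on finite-dimensional spaces
-/

set_option autoImplicit false

namespace Pool.Agent.H107ZS

open Topology

universe u v

namespace Fin3

theorem ind_cont {Y : Type u} [TopologicalSpace Y] {A : Set Y} (hA : IsClopen A) :
    Continuous (ind A) := by
  classical
  have h : IsLocallyConstant (ind A) := by
    rw [IsLocallyConstant.iff_exists_open]
    intro x
    by_cases hx : x ∈ A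
    · refine ⟨A, hA.2, hx, fun y hy => ?_⟩
      unfold ind
      rw [if_pos hy, if_pos hx]
    · refine ⟨Aᶜ, hA.1.isOpen_compl, hx, fun y hy => ?_⟩
      unfold ind
      rw [if_neg hy, if_neg hx]
  exact h.continuous

theorem ind_mem {Y : Type u} {A : Set Y} {y : Y} (h : y ∈ A) : ind A y = 1 := by
  unfold ind
  rw [if_pos h]

theorem ind_not {Y : Type u} {A : Set Y} {y : Y} (h : y ∉ A) : ind A y = 0 := by
  unfold ind
  rw [if_neg h]

theorem ind_le_one {Y : Type u} (A : Set Y) (y : Y) : ind A y ≤ 1 := by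
  unfold ind
  split_ifs <;> omega

theorem mem_of_ind {Y : Type u} {A : Set Y} {y : Y} (h : 1 ≤ ind A y) : y ∈ A := by
  by_contra h1
  rw [ind_not h1] at h
  omega

theorem ret {G : Type u} [Group G] {X : Type v} [TopologicalSpace X] [CompactSpace X]
    [MulAction G X] [ContinuousConstSMul G X] (hm : MinAct G X) (O : Set X) (hO : IsOpen O)
    (hne : O.Nonempty) : ∃ E : Finset G, ∀ x : X, ∃ g ∈ E, g • x ∈ O := by
  classical
  obtain ⟨E, hE⟩ := (isCompact_univ (X := X)).elim_finite_subcover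
    (fun g : G => (fun x => g • x) ⁻¹' O) (fun g => hO.preimage (continuous_const_smul g))
    (by
      intro x _
      obtain ⟨_, ⟨g, rfl⟩, hx1⟩ := (hm x).exists_mem_open hO hne
      exact Set.mem_iUnion.2 ⟨g, hx1⟩)
  refine ⟨E, fun x => ?_⟩
  obtain ⟨g, hg⟩ := Set.mem_iUnion.1 (hE (Set.mem_univ x))
  obtain ⟨hgE, hg2⟩ := Set.mem_iUnion.1 hg
  exact ⟨g, hgE, hg2⟩

/-- in a nonempty open set there is a second point -/
theorem second {G : Type u} [Group G] [Infinite G] {X : Type v} [TopologicalSpace X]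
    [CompactSpace X] [MulAction G X] [ContinuousConstSMul G X] (hf : FreeAct G X)
    (hm : MinAct G X) (O : Set X) (hO : IsOpen O) (z : X) (hz : z ∈ O) : ∃ x ∈ O, x ≠ z := by
  classical
  by_contra hcon
  push Not at hcon
  obtain ⟨E, hE⟩ := ret hm O hO ⟨z, hz⟩
  -- every `g` is the inverse of an element of `E`
  have h1 : ∀ g : G, g ∈ E.image fun e => e⁻¹ := by
    intro g
    obtain ⟨e, he, h2⟩ := hE (g • z)
    have h3 := hcon _ h2
    rw [← mul_smul] at h3
    have h4 := hf _ _ h3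
    rw [Finset.mem_image]
    exact ⟨e, he, by rw [inv_eq_of_mul_eq_one_right h4]⟩
  exact (Set.finite_univ_iff (α := G)).not.2 (not_finite_iff_infinite.2 ‹_›)
    ((Finset.finite_toSet (E.image fun e => e⁻¹)).subset fun g _ => h1 g)

end Fin3

open Fin3 in
/-- the case of an infinite group -/
theorem cmp_infinite (hHALL : StHALL.{u, u}) (hORB : StORB.{u, u}) (hFLW : StFLW.{u, u})
    (hTAX : StTAX.{u, u, u}) (hMEA : StMEA.{u, u}) (hTHN : StTHN.{u}) (hRED : StRED.{u})
    (hZE : StZE.{u})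
    (G : Type u) [Group G] [Countable G] [Infinite G] (X : Type u) [TopologicalSpace X]
    [CompactSpace X] [TopologicalSpace.MetrizableSpace X] [MeasurableSpace X] [BorelSpace X]
    [MulAction G X] [ContinuousConstSMul G X] (d : ℕ) (hd : DimLE X d) (hf : FreeAct G X)
    (hm : MinAct G X) (ha : TopAmC G X) (K V : Set X) (hK : IsCompact K) (hV : IsOpen V)
    (hVne : V.Nonempty)
    (hμ : ∀ μ : MeasureTheory.Measure X, MeasureTheory.IsProbabilityMeasure μ →
      (∀ (g : G) (s : Set X), MeasurableSet s → μ ((fun x => g • x) ⁻¹' s) = μ s) → μ K < μ V) :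
    ∃ (n : ℕ) (W : Fin n → Set X) (t : Fin n → G), (∀ i, IsOpen (W i)) ∧ K ⊆ ⋃ i, W i ∧
      (∀ i, ∀ x ∈ W i, t i • x ∈ V) ∧
      ∀ i j, i ≠ j → ∀ x ∈ W i, ∀ x' ∈ W j, t i • x ≠ t j • x' := by
  classical
  obtain ⟨z, hz⟩ := hVne
  obtain ⟨Y, _, _, _, _, _, _, π, hπ, hπs, hπe, hπf, hπc⟩ := hZE G X d hf hd
  have hfY : FreeAct G Y := by
    intro g y hy
    refine hf g (π y) ?_
    rw [← hπe, hy]
  have hNY : Nonempty Y := by
    obtain ⟨y, _⟩ := hπs z
    exact ⟨y⟩
  have hamY : TopAm G Y := hTAX G X Y π hπ hπe ha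
  obtain ⟨A, B, hA, hB, hAm, hBm, hKA, hBV, hBfull, hΛ⟩ := hMEA G X Y π hf hπ hπe K V z hK hV hμ
  -- fullness
  obtain ⟨x₁, hx₁V, hx₁z⟩ := second hf hm V hV z hz
  obtain ⟨n₁, O₁, hO₁, hx₁O, hO₁B⟩ := hBfull x₁ hx₁V hx₁z
  obtain ⟨E, hE⟩ := ret hm O₁ hO₁ ⟨x₁, hx₁O⟩
  -- the functions
  have hBmon : ∀ m n, m ≤ n → B m ⊆ B n := fun m n h =>
    monotone_nat_of_le_succ (f := B) hBm h
  have hAanti : ∀ m n, m ≤ n → A n ⊆ A m := fun m n h =>
    antitone_nat_of_succ_le (f := A) hAm h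
  let a : ℕ → C(Y, ℕ) := fun n => ⟨ind (A n), ind_cont (hA n)⟩
  let b : ℕ → C(Y, ℕ) := fun n => ⟨ind (B n), ind_cont (hB n)⟩
  let φ : ℕ → C(Y, ℝ) := fun n => toR (b n) - toR (a n)
  have hφ : ∀ n y, φ n y = (ind (B n) y : ℝ) - (ind (A n) y : ℝ) := fun n y => rfl
  have hφm : ∀ m n, m ≤ n → ∀ y, φ m y ≤ φ n y := by
    intro m n hmn y
    rw [hφ, hφ]
    have h1 : ind (B m) y ≤ ind (B n) y := by
      by_cases h : y ∈ B m
      · rw [ind_mem h, ind_mem (hBmon m n hmn h)]
      · rw [ind_not h]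
        exact Nat.zero_le _
    have h2 : ind (A n) y ≤ ind (A m) y := by
      by_cases h : y ∈ A n
      · rw [ind_mem h, ind_mem (hAanti m n hmn h)]
      · rw [ind_not h]
        exact Nat.zero_le _
    have h3 : (ind (B m) y : ℝ) ≤ ind (B n) y := by exact_mod_cast h1
    have h4 : (ind (A n) y : ℝ) ≤ ind (A m) y := by exact_mod_cast h2
    linarith
  obtain ⟨n₂, K', ε, γ, -, hε, hγ, hFol⟩ := t_KL G Y (⊤ : Subgroup G) (fun n => φ (n + n₁))
    (fun n y => hφm _ _ (by omega) y) (by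
      intro Λ hI
      obtain ⟨n, hn⟩ := hΛ Λ hI φ hφ
      refine ⟨n, hn.trans_le ?_⟩
      have h1 : 0 ≤ Λ (φ (n + n₁) - φ n) := hI.nonneg _ (by
        intro y
        have := hφm n (n + n₁) (by omega) y
        show (0 : ℝ) ≤ φ (n + n₁) y - φ n y
        linarith)
      rw [map_sub] at h1
      linarith)
  set N₀ : ℕ := n₂ + n₁ with hN₀
  -- Hall
  obtain ⟨D, N, hD⟩ := hHALL G Y (a N₀) (b N₀) K' ε γ hε hγ (by
    intro S hS y
    have h1 := hFol S (fun _ _ => Subgroup.mem_top _) hS y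
    have h2 : ∑ s ∈ S, φ N₀ (s • y) = ∑ s ∈ S, (b N₀ (s • y) : ℝ) - ∑ s ∈ S, (a N₀ (s • y) : ℝ) := by
      rw [← Finset.sum_sub_distrib]
      rfl
    rw [h2] at h1
    linarith) E (by
    intro y
    obtain ⟨g, hg, h1⟩ := hE (π y)
    refine ⟨g, hg, ?_⟩
    have h2 : g • y ∈ B N₀ := by
      refine hBmon n₁ N₀ (by omega) (hO₁B ?_)
      show π (g • y) ∈ O₁
      rw [hπe]
      exact h1
    show 1 ≤ ind (B N₀) (g • y)
    rw [ind_mem h2])
  have hN : (0 : ℝ) < 1 / ((N : ℝ) + 1) := by positivity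
  obtain ⟨F, hF⟩ := hFLW G Y (a N₀) (b N₀) D (1 / ((N : ℝ) + 1)) hN hamY
    (hORB G Y (a N₀) (b N₀) D N hD)
  obtain ⟨n, t, c, -, hc1, hc2⟩ := hRED G Y hfY hamY (a N₀) (b N₀) D _ F (half_pos hN) hF
  -- the pieces
  let P : Fin n → Set Y := fun i => {y | 1 ≤ c i y}
  have hP : ∀ i, IsClopen (P i) := fun i =>
    (isClopen_discrete {m : ℕ | 1 ≤ m}).preimage (c i).continuous
  have hinj : ∀ i j, ∀ y ∈ P i, ∀ y' ∈ P j, t i • y = t j • y' → i = j ∧ y = y' := by
    intro i j y hy y' hy' heq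
    have hij : i = j := by
      by_contra hij
      have h1 := hc2 (t i • y)
      have h2 : c i ((t i)⁻¹ • t i • y) + c j ((t j)⁻¹ • t i • y) ≤
          ∑ k, c k ((t k)⁻¹ • t i • y) := by
        rw [← Finset.sum_pair hij (f := fun k => c k ((t k)⁻¹ • t i • y))]
        exact Finset.sum_le_sum_of_subset (Finset.subset_univ _)
      rw [inv_smul_smul] at h2
      rw [heq, inv_smul_smul] at h2
      rw [heq] at h1
      have h3 : 1 ≤ c i y := hy
      have h4 : 1 ≤ c j y' := hy'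
      have h5 : b N₀ (t j • y') ≤ 1 := ind_le_one _ _
      omega
    refine ⟨hij, ?_⟩
    subst hij
    exact MulAction.injective _ heq
  have hPB : ∀ i, ∀ y ∈ P i, t i • y ∈ B N₀ := by
    intro i y hy
    refine mem_of_ind ?_
    have h1 := hc2 (t i • y)
    have h2 : c i ((t i)⁻¹ • t i • y) ≤ ∑ k, c k ((t k)⁻¹ • t i • y) :=
      Finset.single_le_sum (f := fun k => c k ((t k)⁻¹ • t i • y)) (fun _ _ => Nat.zero_le _)
        (Finset.mem_univ i)
    rw [inv_smul_smul] at h2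
    have h3 : 1 ≤ c i y := hy
    exact (h3.trans h2).trans h1
  have hcov : ∀ y, π y ∈ K → ∃ i, y ∈ P i := by
    intro y hy
    by_contra hcon
    push Not at hcon
    have h1 : ∑ i, c i y = 0 := Finset.sum_eq_zero fun i _ => by
      have := hcon i
      show c i y = 0
      by_contra h0
      exact this (Nat.one_le_iff_ne_zero.2 h0)
    rw [hc1 y] at h1
    have h2 : a N₀ y = 1 := ind_mem (hKA N₀ hy)
    omega
  -- push down
  obtain ⟨C, Z, hZc, hZt, hZ⟩ := t_PSH G X Y π hπ hπs hπe (fun A' hA' => by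
    obtain ⟨C, hC⟩ := hπc A' hA'
    exact ⟨C, fun x F hF => hC x F hF⟩) n P t hP hinj K hK.isClosed hcov
  -- the reserved set
  have hπB : IsCompact (π '' B N₀) := (hB N₀).1.isCompact.image hπ
  have hzB : z ∉ π '' B N₀ := by
    rintro ⟨y, hy, rfl⟩
    exact (hBV N₀ y hy).2 rfl
  obtain ⟨S₁, S₂, hS₁, hS₂, hS₁z, hS₂B, hS⟩ := normal_separation (isClosed_singleton (x := z))
    hπB.isClosed (Set.disjoint_singleton_left.2 hzB)
  obtain ⟨O, m, U, g, hO, hZO, hU, hOU, hUW, hUd⟩ := hTHN G X hf hm C Z (S₁ ∩ V) hZc hZt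
    (hS₁.inter hV) ⟨z, hS₁z rfl, hz⟩
  obtain ⟨L, hL, hLP, hLK, hLd⟩ := hZ O hO hZO
  obtain ⟨U', hU', hLU', hU'V, hU'd⟩ := t_SEP G X n L t (S₂ ∩ V) (hS₂.inter hV) hL (by
    intro i x hx
    obtain ⟨y, hy, rfl⟩ := hLP i hx
    have h1 := hPB i y hy
    rw [← hπe]
    exact ⟨hS₂B ⟨_, h1, rfl⟩, (hBV N₀ _ h1).1⟩) hLd
  -- put together
  refine ⟨m + n, Fin.append U U', Fin.append g t, ?_, ?_, ?_, ?_⟩
  · intro i
    refine Fin.addCases (fun i => ?_) (fun i => ?_) i
    · rw [Fin.append_left]; exact hU i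
    · rw [Fin.append_right]; exact hU' i
  · intro x hx
    rcases hLK x hx with h | ⟨i, hi⟩
    · obtain ⟨i, hi⟩ := hOU x h
      refine Set.mem_iUnion.2 ⟨Fin.castAdd n i, ?_⟩
      rw [Fin.append_left]
      exact hi
    · refine Set.mem_iUnion.2 ⟨Fin.natAdd m i, ?_⟩
      rw [Fin.append_right]
      exact hLU' i hi
  · intro i
    refine Fin.addCases (fun i => ?_) (fun i => ?_) i
    · rw [Fin.append_left, Fin.append_left]
      exact fun x hx => (hUW i x hx).2
    · rw [Fin.append_right, Fin.append_right]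
      exact fun x hx => (hU'V i x hx).2
  · intro i j
    refine Fin.addCases (fun i => ?_) (fun i => ?_) i <;>
      refine Fin.addCases (fun j => ?_) (fun j => ?_) j
    · intro hij x hx x' hx'
      rw [Fin.append_left] at hx hx'
      rw [Fin.append_left, Fin.append_left]
      exact hUd i j (fun h => hij (by rw [h])) x hx x' hx'
    · intro hij x hx x' hx' heq
      rw [Fin.append_left] at hx
      rw [Fin.append_right] at hx'
      rw [Fin.append_left, Fin.append_right] at heq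
      have h1 := (hUW i x hx).1
      have h2 := (hU'V j x' hx').1
      rw [heq] at h1
      exact Set.disjoint_left.1 hS h1 h2
    · intro hij x hx x' hx' heq
      rw [Fin.append_right] at hx
      rw [Fin.append_left] at hx'
      rw [Fin.append_left, Fin.append_right] at heq
      have h1 := (hUW j x' hx').1
      have h2 := (hU'V i x hx).1
      rw [← heq] at h1
      exact Set.disjoint_left.1 hS h1 h2
    · intro hij x hx x' hx'
      rw [Fin.append_right] at hx hx'
      rw [Fin.append_right, Fin.append_right]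
      exact hU'd i j (fun h => hij (by rw [h])) x hx x' hx'

end Pool.Agent.H107ZS
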