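import Pool.Agent.H107_ZS.DStubs6

/-!
# The conclusion: from property (SI) and approximately central matrix units to the relations of
the dimension drop algebras `Z_{n,n+1}`
-/

set_option autoImplicit false

namespace Pool.Agent.H107ZS

open Topology Pool.Agent.H327R4.Pure Filter Pool.Agent.H327R4.SI Pool.Agent.H667R5.TW
open scoped CStarAlgebra ComplexOrder

universe u v w

namespace TFINn

variable {A : Type u} [CStarAlgebra A]

open Pool.Agent.H327R4.SI.FINx

/-- the defect of the ranges -/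
noncomputable def Df {n : ℕ} (s : Fin (n + 1) → A) : A := 1 - ∑ i, s i * star (s i)

/-- the defect of the Gram matrix -/
noncomputable def gm {n : ℕ} (s : Fin (n + 1) → A) (i j : Fin (n + 1)) : A :=
  star (s i) * s j - (if i = j then 1 else 0)

theorem Df_mul {n : ℕ} (s : Fin (n + 1) → A) (j : Fin (n + 1)) :
    Df s * s j = -∑ i, s i * gm s i j := by
  have h1 : ∀ i, s i * gm s i j = s i * star (s i) * s j - (if i = j then s i else 0) := by
    intro i
    unfold gm
    rw [mul_sub, mul_assoc]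
    congr 1
    split_ifs <;> simp
  rw [Finset.sum_congr rfl fun i _ => h1 i, Finset.sum_sub_distrib, Finset.sum_ite_eq' ,
    if_pos (Finset.mem_univ j), Df, sub_mul, one_mul, Finset.sum_mul]
  abel

theorem Df_sq {n : ℕ} (s : Fin (n + 1) → A) :
    Df s * Df s = Df s + ∑ j, (∑ i, s i * gm s i j) * star (s j) := by
  have h1 : Df s * Df s = Df s - ∑ j, Df s * s j * star (s j) := by
    conv_lhs => rw [show Df s * Df s = Df s * (1 - ∑ i, s i * star (s i)) from rfl]
    rw [mul_sub, mul_one, Finset.mul_sum]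
    congr 1
    exact Finset.sum_congr rfl fun j _ => by rw [mul_assoc]
  rw [h1, sub_eq_add_neg, ← Finset.sum_neg_distrib]
  congr 1
  refine Finset.sum_congr rfl fun j _ => ?_
  rw [Df_mul, neg_mul, neg_neg]

theorem star_Df {n : ℕ} (s : Fin (n + 1) → A) : star (Df s) = Df s := by
  unfold Df
  rw [star_sub, star_one, star_sum]
  congr 1
  exact Finset.sum_congr rfl fun j _ => by rw [star_mul, star_star]

/-- a bound for sums -/
theorem sum_le {n : ℕ} (f : Fin (n + 1) → A) (b : ℝ) (h : ∀ i, ‖f i‖ ≤ b) :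
    ‖∑ i, f i‖ ≤ ((n : ℝ) + 1) * b := by
  refine (norm_sum_le_of_le _ fun i _ => h i).trans ?_
  rw [Finset.sum_const, Finset.card_univ, Fintype.card_fin, nsmul_eq_mul]
  push_cast
  exact le_rfl

/-- the properly infinite case -/
theorem infn [Nontrivial A] [PartialOrder A] [StarOrderedRing A] {n : ℕ} (X : Set A)
    (s : Fin (n + 1) → A) (ε' : ℝ) (h0 : 0 ≤ ε') (h1 : ε' ≤ 1)
    (hg : ∀ i j, ‖star (s i) * s j - (if i = j then 1 else 0)‖ ≤ ε')
    (ha : ∀ i, ∀ x ∈ X, ‖s i * x - x * s i‖ ≤ ε')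
    (hb : ∀ i, ∀ x ∈ X, ‖star (s i) * x - x * star (s i)‖ ≤ ε') :
    ∃ (c : Fin (n + 1) → A) (t : A),
    0 ≤ c 0 ∧ (∀ i j, ‖c i * star (c j) - (if i = j then c 0 * c 0 else 0)‖ ≤
      200 * ((n : ℝ) + 1) ^ 2 * ε') ∧
    ‖∑ i, star (c i) * c i + star t * t - 1‖ ≤ 200 * ((n : ℝ) + 1) ^ 2 * ε' ∧
    ‖c 0 * t - t‖ ≤ 200 * ((n : ℝ) + 1) ^ 2 * ε' ∧
    ∀ x ∈ X, ‖t * x - x * t‖ ≤ 200 * ((n : ℝ) + 1) ^ 2 * ε' ∧
      ∀ i, ‖c i * x - x * c i‖ ≤ 200 * ((n : ℝ) + 1) ^ 2 * ε' := by
  have hN : (1 : ℝ) ≤ (n : ℝ) + 1 := by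
    have : (0 : ℝ) ≤ n := Nat.cast_nonneg n
    linarith
  set N : ℝ := (n : ℝ) + 1 with hNdef
  have hg0 : ∀ i, ‖star (s i) * s i - 1‖ ≤ ε' := fun i => by
    have := hg i i
    rwa [if_pos rfl] at this
  have hN2 : N ≤ N ^ 2 := by nlinarith
  have k1 : N * ε' ≤ N ^ 2 * ε' := mul_le_mul_of_nonneg_right hN2 h0
  have k2 : ε' ≤ N ^ 2 * ε' := by nlinarith
  have k0 : 0 ≤ N ^ 2 * ε' := h0.trans k2
  have ns : ∀ i, ‖s i‖ ≤ 2 := fun i => norm_le_two (s i) ε' h1 (hg0 i)
  have ns' : ∀ i, ‖star (s i)‖ ≤ 2 := fun i => by rw [norm_star]; exact ns i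
  have nD : ‖Df s‖ ≤ 5 * N := by
    unfold Df
    refine (norm_sub_le _ _).trans ?_
    have a2 := sum_le (fun i => s i * star (s i)) (2 * 2) fun i => norm_mul_le_of_le (ns i) (ns' i)
    rw [CStarRing.norm_one]
    linarith
  have e0 : ∀ i j, s 0 * star (s i) * star (s 0 * star (s j)) =
      s 0 * (star (s i) * s j) * star (s 0) := by
    intro i j
    rw [star_mul, star_star]
    noncomm_ring
  refine ⟨fun i => s 0 * star (s i), s 0 * s 0 * Df s, mul_star_self_nonneg (s 0), ?_, ?_, ?_, ?_⟩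
  · intro i j
    have hi := ns 0
    have hi' := ns' 0
    by_cases hij : i = j
    · subst hij
      rw [if_pos rfl]
      have e : s 0 * star (s i) * star (s 0 * star (s i)) - s 0 * star (s 0) * (s 0 * star (s 0)) =
          s 0 * ((star (s i) * s i - 1) - (star (s 0) * s 0 - 1)) * star (s 0) := by
        rw [e0]
        noncomm_ring
      change ‖s 0 * star (s i) * star (s 0 * star (s i)) - s 0 * star (s 0) * (s 0 * star (s 0))‖ ≤ _
      rw [e]
      have a1 : ‖(star (s i) * s i - 1) - (star (s 0) * s 0 - 1)‖ ≤ ε' + ε' :=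
        (norm_sub_le _ _).trans (add_le_add (hg0 i) (hg0 0))
      have := norm_mul_le_of_le (norm_mul_le_of_le hi a1) hi'
      linarith
    · rw [if_neg hij, sub_zero]
      change ‖s 0 * star (s i) * star (s 0 * star (s j))‖ ≤ _
      rw [e0]
      have a1 := hg i j
      rw [if_neg hij, sub_zero] at a1
      have := norm_mul_le_of_le (norm_mul_le_of_le hi a1) hi'
      linarith
  · have e1 : ∀ i, star (s 0 * star (s i)) * (s 0 * star (s i)) =
        s i * (star (s 0) * s 0 - 1) * star (s i) + s i * star (s i) := by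
      intro i
      rw [star_mul, star_star]
      noncomm_ring
    have e2 : star (s 0 * s 0 * Df s) * (s 0 * s 0 * Df s) =
        Df s * (star (s 0) * (star (s 0) * s 0 - 1) * s 0 + (star (s 0) * s 0 - 1)) * Df s +
          Df s * Df s := by
      rw [star_mul (s 0 * s 0), star_Df, star_mul (s 0)]
      noncomm_ring
    have e3 : ∑ i, star (s 0 * star (s i)) * (s 0 * star (s i)) +
        star (s 0 * s 0 * Df s) * (s 0 * s 0 * Df s) - 1 =
        ∑ i, s i * (star (s 0) * s 0 - 1) * star (s i) +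
        Df s * (star (s 0) * (star (s 0) * s 0 - 1) * s 0 + (star (s 0) * s 0 - 1)) * Df s +
        ∑ j, (∑ i, s i * gm s i j) * star (s j) := by
      rw [Finset.sum_congr rfl fun i _ => e1 i, Finset.sum_add_distrib, e2, Df_sq]
      have e4 : ∑ i, s i * star (s i) = 1 - Df s := by
        unfold Df
        abel
      rw [e4]
      abel
    change ‖∑ i, star (s 0 * star (s i)) * (s 0 * star (s i)) +
        star (s 0 * s 0 * Df s) * (s 0 * s 0 * Df s) - 1‖ ≤ _
    rw [e3]
    have b1 := sum_le (fun i => s i * (star (s 0) * s 0 - 1) * star (s i)) (2 * ε' * 2)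
      fun i => norm_mul_le_of_le (norm_mul_le_of_le (ns i) (hg0 0)) (ns' i)
    have b3 : ‖star (s 0) * (star (s 0) * s 0 - 1) * s 0 + (star (s 0) * s 0 - 1)‖ ≤
        2 * ε' * 2 + ε' :=
      (norm_add_le _ _).trans (add_le_add
        (norm_mul_le_of_le (norm_mul_le_of_le (ns' 0) (hg0 0)) (ns 0)) (hg0 0))
    have b4 := norm_mul_le_of_le (norm_mul_le_of_le nD b3) nD
    have b5 : ∀ j, ‖∑ i, s i * gm s i j‖ ≤ N * (2 * ε') := fun j =>
      sum_le (fun i => s i * gm s i j) (2 * ε') fun i => norm_mul_le_of_le (ns i) (hg i j)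
    have b6 := sum_le (fun j => (∑ i, s i * gm s i j) * star (s j)) (N * (2 * ε') * 2)
      fun j => norm_mul_le_of_le (b5 j) (ns' j)
    refine (norm_add_le_of_le (norm_add_le_of_le b1 b4) b6).trans ?_
    rw [← hNdef]
    have c1 : N * (2 * ε' * 2) + 5 * N * (2 * ε' * 2 + ε') * (5 * N) + N * (N * (2 * ε') * 2) =
        4 * (N * ε') + 125 * (N ^ 2 * ε') + 4 * (N ^ 2 * ε') := by ring
    rw [c1]
    linarith
  · have e : s 0 * star (s 0) * (s 0 * s 0 * Df s) - s 0 * s 0 * Df s =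
        s 0 * (star (s 0) * s 0 - 1) * s 0 * Df s := by
      noncomm_ring
    change ‖s 0 * star (s 0) * (s 0 * s 0 * Df s) - s 0 * s 0 * Df s‖ ≤ _
    rw [e]
    have := norm_mul_le_of_le (norm_mul_le_of_le (norm_mul_le_of_le (ns 0) (hg0 0)) (ns 0)) nD
    have c1 : 2 * ε' * 2 * (5 * N) = 20 * (N * ε') := by ring
    rw [c1] at this
    linarith
  · intro x hx
    have c1 : ∀ i j, ‖s i * star (s j) * x - x * (s i * star (s j))‖ ≤ 2 * ε' + ε' * 2 :=
      fun i j => com_mul (ns i) (ns' j) (ha i x hx) (hb j x hx)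
    have c4 := com_mul (ns 0) (ns 0) (ha 0 x hx) (ha 0 x hx)
    have c5 : ‖Df s * x - x * Df s‖ ≤ N * (2 * ε' + ε' * 2) := by
      have e : Df s * x - x * Df s = -∑ i, (s i * star (s i) * x - x * (s i * star (s i))) := by
        rw [Finset.sum_sub_distrib, ← Finset.sum_mul, ← Finset.mul_sum]
        unfold Df
        noncomm_ring
      rw [e, norm_neg]
      exact sum_le _ _ fun i => c1 i i
    have c6 := com_mul (norm_mul_le_of_le (ns 0) (ns 0)) nD c4 c5
    constructor
    · have d1 : 2 * 2 * (N * (2 * ε' + ε' * 2)) + (2 * ε' + ε' * 2) * (5 * N) =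
          36 * (N * ε') := by ring
      rw [d1] at c6
      refine c6.trans ?_
      linarith
    · intro i
      have := c1 0 i
      change ‖s 0 * star (s i) * x - x * (s 0 * star (s i))‖ ≤ _
      linarith

end TFINn

open TFINn Pool.Agent.H327R4.SI.FINx in
/-- the conclusion -/
theorem t_FINn : StFINn.{u} := by
  intro A _ _ _ hSI hMC n X ε hε
  rcases subsingleton_or_nontrivial A with hA | hA
  · have h0 : ∀ x : A, ‖x‖ ≤ ε := fun x => by
      rw [Subsingleton.elim x 0, norm_zero]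
      exact hε.le
    exact ⟨fun _ => 0, 0, le_rfl, fun _ _ => h0 _, h0 _, h0 _, fun x _ => ⟨h0 _, fun _ => h0 _⟩⟩
  -- a list of the elements of `X`
  obtain ⟨m, a, ha⟩ : ∃ (m : ℕ) (a : Fin m → A), ∀ x ∈ X, ∃ j, a j = x :=
    ⟨X.card, fun i => (X.equivFin.symm i : A), fun x hx => ⟨X.equivFin ⟨x, hx⟩, by simp⟩⟩
  by_cases hT : Nonempty (TS A)
  · obtain ⟨k, y, K, δ, hδ, hS⟩ := hSI (1 / (2 * ((n : ℝ) + 1))) (by positivity) m a 1 (ε / 4)
      (by positivity)
    obtain ⟨c, e, hc0, hc1, he0, he1, h1, h3, h4, h5⟩ :=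
      hMC hT n (m + k) (Fin.append a y) K (min δ (ε / 4)) (lt_min hδ (by positivity))
    have hm1 : min δ (ε / 4) ≤ δ := min_le_left _ _
    have hm2 : min δ (ε / 4) ≤ ε / 4 := min_le_right _ _
    have hm3 : ε / 4 ≤ ε := by linarith
    obtain ⟨s, hs1, hs2, hs3⟩ := hS e (c 0) he0 he1 hc0 hc1 (fun j => by
        have h6 := h4 (Fin.natAdd m j)
        rw [Fin.append_right] at h6
        exact ⟨h6.2.trans hm1, (h6.1 0).trans hm1⟩) (by
        obtain ⟨T⟩ := hT
        refine (h5 T).2.trans (state_le T _ ?_)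
        exact (IsSelfAdjoint.of_nonneg hc0).pow K) (fun T => by
        refine ⟨?_, (h5 T).2⟩
        rw [Nat.cast_one, one_mul]
        exact (h5 T).1.trans hm1)
    have g1 := hs1 0 0
    rw [if_pos rfl] at g1
    refine ⟨c, s 0, hc0, fun i j => ((h1 i j).trans hm2).trans hm3, ?_, (hs2 0).trans hm3, ?_⟩
    · have e1 : ∑ i, star (c i) * c i + star (s 0) * s 0 - 1 =
          (∑ i, star (c i) * c i + e - 1) + (star (s 0) * s 0 - e) := by abel
      rw [e1]
      refine (norm_add_le _ _).trans ?_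
      have := h3.trans hm2
      linarith
    · intro x hx
      obtain ⟨j, rfl⟩ := ha x hx
      have h6 := h4 (Fin.castAdd k j)
      rw [Fin.append_left] at h6
      exact ⟨(hs3 0 j).trans hm3, fun i => ((h6.1 i).trans hm2).trans hm3⟩
  · -- no traces
    have hN : (0 : ℝ) < 200 * ((n : ℝ) + 1) ^ 2 := by positivity
    set ε' : ℝ := min 1 (ε / (200 * ((n : ℝ) + 1) ^ 2)) with hε'
    have hp : 0 < ε' := lt_min one_pos (by positivity)
    have hp1 : ε' ≤ 1 := min_le_left _ _
    have hp2 : 200 * ((n : ℝ) + 1) ^ 2 * ε' ≤ ε := by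
      have h2 : ε' ≤ ε / (200 * ((n : ℝ) + 1) ^ 2) := min_le_right _ _
      rw [le_div_iff₀ hN] at h2
      linarith
    obtain ⟨k, y, K, δ, hδ, hS⟩ := hSI 1 one_pos (m + m) (Fin.append a (fun j => star (a j)))
      (n + 1) ε' hp
    obtain ⟨s, hs1, hs2, hs3⟩ := hS 1 1 zero_le_one le_rfl zero_le_one le_rfl (fun j => by
        rw [one_mul, mul_one, sub_self, norm_zero]
        exact ⟨hδ.le, hδ.le⟩) (by
        rw [one_pow, CStarRing.norm_one]) (fun T => absurd ⟨T⟩ hT)
    have g : ∀ i, ∀ x ∈ (X : Set A), ‖s i * x - x * s i‖ ≤ ε' := by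
      intro i x hx
      obtain ⟨j, rfl⟩ := ha x hx
      have h6 := hs3 i (Fin.castAdd m j)
      rwa [Fin.append_left] at h6
    have g' : ∀ i, ∀ x ∈ (X : Set A), ‖star (s i) * x - x * star (s i)‖ ≤ ε' := by
      intro i x hx
      obtain ⟨j, rfl⟩ := ha x hx
      have h6 := hs3 i (Fin.natAdd m j)
      rw [Fin.append_right, ← norm_star, star_sub, star_mul, star_mul, star_star,
        ← norm_neg, neg_sub] at h6
      exact h6
    obtain ⟨c, t, r0, r1, r2, r3, r4⟩ := infn (X : Set A) s ε' hp.le hp1 hs1 g g'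
    exact ⟨c, t, r0, fun i j => (r1 i j).trans hp2, r2.trans hp2, r3.trans hp2,
      fun x hx => ⟨(r4 x hx).1.trans hp2, fun i => ((r4 x hx).2 i).trans hp2⟩⟩

end Pool.Agent.H107ZS
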