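import Pool.Agent.H107_ZS.DStubs6
import Pool.Agent.H327R4.SI.TLIFT

set_option autoImplicit false

namespace Pool.Agent.H107ZS

open Topology Pool.Agent.H327R4.Pure Filter Pool.Agent.H327R4.SI Pool.Agent.H667R5.TW
open scoped CStarAlgebra ComplexOrder

universe u v w

namespace TLIFTn

open Pool.Agent.H327R4.SI.LiftAux hiding n2 Data

/-- `StQC` over finite index types, for elements of norm at most `2` -/
lemma qc_ft (hQC : StQC.{u}) (ι κ : Type) [Fintype ι] [Fintype κ] (ε : ℝ) (hε : 0 < ε) :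
    ∃ δ : ℝ, 0 < δ ∧
    ∀ (A : Type u) [CStarAlgebra A] [PartialOrder A] [StarOrderedRing A]
    (x : ι → A) (w : κ → A), (∀ i, ‖x i‖ ≤ 1) → (∀ j, ‖w j‖ ≤ 2) →
    (∀ (T : TS A) (j : κ), n2 T (w j) ≤ δ) →
    ∃ e : A, 0 ≤ e ∧ e ≤ 1 ∧ (∀ i, ‖e * x i - x i * e‖ ≤ ε) ∧
      (∀ j, ‖w j - e * w j‖ ≤ 2 * ε) ∧ ∀ T : TS A, (T.1.f e).re ≤ ε := by
  obtain ⟨δ, hδ, h⟩ := hQC (Fintype.card ι) (Fintype.card κ) ε hε
  refine ⟨δ, hδ, ?_⟩
  intro A _ _ _ x w hx hw hT
  have e2 : ‖(1 / 2 : ℂ)‖ = 1 / 2 := by simp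
  obtain ⟨e, h0, h1, hx', hz', hT'⟩ := h A (fun i => x ((Fintype.equivFin ι).symm i))
    (fun j => (1 / 2 : ℂ) • w ((Fintype.equivFin κ).symm j)) (fun i => hx _) (by
      intro j
      rw [norm_smul, e2]
      have := hw ((Fintype.equivFin κ).symm j)
      linarith) (by
      intro T j
      set y := w ((Fintype.equivFin κ).symm j) with hy
      have e1 : ((1 / 2 : ℂ) • y) * star ((1 / 2 : ℂ) • y) = (1 / 4 : ℂ) • (y * star y) := by
        rw [star_smul, smul_mul_smul_comm]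
        congr 1
        simp
        norm_num
      rw [e1, map_smul, T.1.tr]
      have h1 := hT T ((Fintype.equivFin κ).symm j)
      have h2 : (((1 / 4 : ℂ)) • T.1.f (star y * y)).re = 1 / 4 * (T.1.f (star y * y)).re := by
        have e2 : (1 / 4 : ℂ) = ((1 / 4 : ℝ) : ℂ) := by push_cast; ring
        rw [e2, smul_eq_mul, Complex.re_ofReal_mul]
      rw [h2]
      unfold n2 at h1
      rw [← hy] at h1
      linarith)
  refine ⟨e, h0, h1, ?_, ?_, hT'⟩
  · intro i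
    simpa using hx' (Fintype.equivFin ι i)
  · intro j
    have h2 := (hz' (Fintype.equivFin κ j)).1
    simp only [Equiv.symm_apply_apply] at h2
    rw [mul_smul_comm, ← smul_sub, norm_smul, e2] at h2
    linarith

section core

variable {A : Type u} [CStarAlgebra A] [PartialOrder A] [StarOrderedRing A]

/-- the data -/
structure Data (A : Type u) [CStarAlgebra A] [PartialOrder A] [StarOrderedRing A]
    (n : ℕ) (η : ℝ) (P : Fin (n + 1) → Fin (n + 1) → A) (q : A) : Prop where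
  hP : ∀ i j, ‖P i j‖ ≤ 1
  hs : ∀ i j, star (P i j) = P j i
  q0 : 0 ≤ q
  q1 : q ≤ 1
  cP : ∀ i j, ‖q * P i j - P i j * q‖ ≤ η
  r1 : ∀ i j, ‖q * (P i j * P j i - P i i)‖ ≤ 2 * η
  r2 : ∀ i j k l, j ≠ k → ‖q * (P i j * P k l)‖ ≤ 2 * η
  r3 : ‖q * (1 - ∑ i, P i i)‖ ≤ 2 * η

variable {n : ℕ} {η : ℝ} {P : Fin (n + 1) → Fin (n + 1) → A} {q : A}

lemma Data.nq (D : Data A n η P q) : ‖q‖ ≤ 1 :=
  (CStarAlgebra.norm_le_one_iff_of_nonneg q D.q0).2 D.q1

lemma Data.sq (D : Data A n η P q) : star q = q := (IsSelfAdjoint.of_nonneg D.q0).star_eq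

lemma Data.nd (D : Data A n η P q) (i j : Fin (n + 1)) : ‖q * P i j‖ ≤ 1 := n2l D.nq (D.hP i j)

lemma Data.dd (D : Data A n η P q) {i j : Fin (n + 1)} (hij : i ≠ j) :
    ‖(q * P 0 i) * star (q * P 0 j)‖ ≤ 2 * η := by
  have e1 : (q * P 0 i) * star (q * P 0 j) = q * (P 0 i * P j 0) * q := by
    rw [star_mul, D.sq, D.hs]; noncomm_ring
  rw [e1]
  exact n2l (D.r2 0 i j 0 hij) D.nq

lemma Data.dh (D : Data A n η P q) (i : Fin (n + 1)) :
    ‖(q * P 0 i) * star (q * P 0 i) - (q * P 0 0) * star (q * P 0 0)‖ ≤ 4 * η := by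
  have e1 : (q * P 0 i) * star (q * P 0 i) - (q * P 0 0) * star (q * P 0 0) =
      q * (P 0 i * P i 0 - P 0 0) * q - q * (P 0 0 * P 0 0 - P 0 0) * q := by
    rw [star_mul, star_mul, D.sq, D.hs, D.hs]; noncomm_ring
  rw [e1]
  have := ns (n2l (D.r1 0 i) D.nq) (n2l (D.r1 0 0) D.nq)
  linarith

lemma Data.d0 (D : Data A n η P q) {j : Fin (n + 1)} (hj : j ≠ 0) :
    ‖(q * P 0 j) * (q * P 0 0)‖ ≤ 3 * η := by
  have e1 : (q * P 0 j) * (q * P 0 0) =
      q * (q * (P 0 j * P 0 0)) - q * (q * P 0 j - P 0 j * q) * P 0 0 := by noncomm_ring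
  rw [e1]
  have := ns (n2r D.nq (D.r2 0 j 0 0 hj)) (n2l (n2r D.nq (D.cP 0 j)) (D.hP 0 0))
  linarith

lemma Data.sd (D : Data A n η P q) (j : Fin (n + 1)) :
    ‖star (q * P 0 j) * (q * P 0 j) - q * q * P j j‖ ≤ 4 * η := by
  have e1 : star (q * P 0 j) * (q * P 0 j) - q * q * P j j =
      -((q * P j 0 - P j 0 * q) * (q * P 0 j)) - q * (q * P j 0 - P j 0 * q) * P 0 j +
      q * (q * (P j 0 * P 0 j - P j j)) := by
    rw [star_mul, D.sq, D.hs]; noncomm_ring
  rw [e1]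
  have := na (ns (nn (n2l (D.cP j 0) (D.nd 0 j))) (n2l (n2r D.nq (D.cP j 0)) (D.hP 0 j)))
    (n2r D.nq (D.r1 j 0))
  linarith

lemma Data.sum (D : Data A n η P q) :
    ‖∑ j, star (q * P 0 j) * (q * P 0 j) - q * q‖ ≤ (4 * n + 6) * η := by
  have e1 : ∑ j, star (q * P 0 j) * (q * P 0 j) - q * q =
      ∑ j, (star (q * P 0 j) * (q * P 0 j) - q * q * P j j) - q * (q * (1 - ∑ i, P i i)) := by
    rw [Finset.sum_sub_distrib, ← Finset.mul_sum]
    noncomm_ring
  rw [e1]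
  have h1 : ‖∑ j, (star (q * P 0 j) * (q * P 0 j) - q * q * P j j)‖ ≤ (n + 1) * (4 * η) := by
    refine (norm_sum_le _ _).trans ?_
    refine (Finset.sum_le_sum fun j _ => D.sd j).trans ?_
    simp
  have := ns h1 (n2r D.nq D.r3)
  linarith

lemma Data.h0 (D : Data A n η P q) :
    ‖(q * P 0 0) * star (q * P 0 0) - star (q * P 0 0) * (q * P 0 0)‖ ≤ 2 * η := by
  have e1 : (q * P 0 0) * star (q * P 0 0) - star (q * P 0 0) * (q * P 0 0) =
      -(q * P 0 0 * (q * P 0 0 - P 0 0 * q)) + (q * P 0 0 - P 0 0 * q) * (q * P 0 0) := by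
    rw [star_mul, D.sq, D.hs]; noncomm_ring
  rw [e1]
  have := na (nn (n2r (D.nd 0 0) (D.cP 0 0))) (n2l (D.cP 0 0) (D.nd 0 0))
  linarith

lemma Data.ca (D : Data A n η P q) {a : A} (j : Fin (n + 1)) (h1 : ‖q * a - a * q‖ ≤ η)
    (h2 : ‖q * (P 0 j * a - a * P 0 j)‖ ≤ 2 * η) :
    ‖(q * P 0 j) * a - a * (q * P 0 j)‖ ≤ 3 * η := by
  have e1 : (q * P 0 j) * a - a * (q * P 0 j) =
      q * (P 0 j * a - a * P 0 j) + (q * a - a * q) * P 0 j := by
    noncomm_ring
  rw [e1]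
  have := na h2 (n2l h1 (D.hP 0 j))
  linarith

lemma Data.ce (D : Data A n η P q) {a : A} (h1 : ‖q * a - a * q‖ ≤ η) :
    ‖(1 - q * q) * a - a * (1 - q * q)‖ ≤ 2 * η := by
  have e1 : (1 - q * q) * a - a * (1 - q * q) = -(q * (q * a - a * q)) - (q * a - a * q) * q := by
    noncomm_ring
  rw [e1]
  have := ns (nn (n2r D.nq h1)) (n2l h1 D.nq)
  linarith

lemma Data.ch (D : Data A n η P q) {a : A} (h1 : ‖(q * P 0 0) * a - a * (q * P 0 0)‖ ≤ 3 * η)
    (h2 : ‖(q * P 0 0) * star a - star a * (q * P 0 0)‖ ≤ 3 * η) :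
    ‖((q * P 0 0) * star (q * P 0 0)) * a - a * ((q * P 0 0) * star (q * P 0 0))‖ ≤ 6 * η := by
  have e1 : ((q * P 0 0) * star (q * P 0 0)) * a - a * ((q * P 0 0) * star (q * P 0 0)) =
      ((q * P 0 0) * a - a * (q * P 0 0)) * star (q * P 0 0) -
        (q * P 0 0) * star ((q * P 0 0) * star a - star a * (q * P 0 0)) := by
    simp only [star_mul, star_sub, star_star]
    noncomm_ring
  rw [e1]
  have := ns (n2l h1 (nstar (D.nd 0 0))) (n2r (D.nd 0 0) (nstar h2))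
  linarith

lemma Data.hh (D : Data A n η P q) :
    ‖((q * P 0 0) * star (q * P 0 0)) * ((q * P 0 0) * star (q * P 0 0)) -
      q * q * ((q * P 0 0) * star (q * P 0 0))‖ ≤ 8 * η := by
  have hq := D.nq
  have hp := D.hP 0 0
  have hc := D.cP 0 0
  have hr := D.r1 0 0
  have e1 : ((q * P 0 0) * star (q * P 0 0)) * ((q * P 0 0) * star (q * P 0 0)) -
      q * q * ((q * P 0 0) * star (q * P 0 0)) =
      -(q * P 0 0 * (q * P 0 0 - P 0 0 * q) * (q * P 0 0 * P 0 0 * q))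
      - q * (q * P 0 0 - P 0 0 * q) * (P 0 0 * q * P 0 0 * P 0 0 * q)
      - (q * q) * (P 0 0 * (q * P 0 0 - P 0 0 * q)) * (P 0 0 * P 0 0 * q)
      - (q * q) * (q * P 0 0 - P 0 0 * q) * (P 0 0 * P 0 0 * P 0 0 * q)
      + (q * q) * (q * (P 0 0 * P 0 0 - P 0 0)) * (P 0 0 * P 0 0 * q)
      + (q * q) * (q * (P 0 0 * P 0 0 - P 0 0)) * (P 0 0 * q) := by
    rw [star_mul, D.sq, D.hs]; noncomm_ring
  rw [e1]
  have hqq : ‖q * q‖ ≤ 1 := n2l hq hq
  have hqp : ‖q * P 0 0‖ ≤ 1 := n2l hq hp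
  have hpq : ‖P 0 0 * q‖ ≤ 1 := n2l hp hq
  have hppq : ‖P 0 0 * P 0 0 * q‖ ≤ 1 := n2l (n2l hp hp) hq
  have h1 := n2l (n2r hqp hc) (n2l (n2l hqp hp) hq)
  have h2 := n2l (n2r hq hc) (n2l (n2l (n2l hpq hp) hp) hq)
  have h3 := n2l (n2r hqq (n2r hp hc)) hppq
  have h4 := n2l (n2r hqq hc) (n2l (n2l (n2l hp hp) hp) hq)
  have h5 := n2l (n2r hqq hr) hppq
  have h6 := n2l (n2r hqq hr) hpq
  have := na (na (ns (ns (ns (nn h1) h2) h3) h4) h5) h6
  linarith

lemma Data.te (D : Data A n η P q) (T : TS A) (hT : (T.1.f (1 - q)).re ≤ η) :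
    (T.1.f (1 - q * q)).re ≤ 2 * η := by
  have e1 : 1 - q * q = (1 - q) + (1 - q) - star (1 - q) * (1 - q) := by
    rw [star_sub, star_one, D.sq]; noncomm_ring
  have h1 := tr_nonneg T (star_mul_self_nonneg (1 - q))
  rw [e1, map_sub, map_add, Complex.sub_re, Complex.add_re]
  linarith

lemma tr_le (T : TS A) (x : A) : (T.1.f x).re ≤ ‖x‖ := by
  have h := tr_ge T (-x)
  rw [map_neg, Complex.neg_re, norm_neg] at h
  linarith

lemma Data.th (D : Data A n η P q) (T : TS A) (hT : (T.1.f (1 - q)).re ≤ η) :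
    1 - (8 * n + 12) * η ≤ (n + 1) * (T.1.f ((q * P 0 0) * star (q * P 0 0))).re := by
  have h1 : ∀ j, (T.1.f (star (q * P 0 j) * (q * P 0 j))).re ≤
      (T.1.f ((q * P 0 0) * star (q * P 0 0))).re + 4 * η := by
    intro j
    have e1 : T.1.f (star (q * P 0 j) * (q * P 0 j)) = T.1.f ((q * P 0 j) * star (q * P 0 j)) :=
      T.1.tr _ _
    rw [e1]
    have h2 := tr_le T ((q * P 0 j) * star (q * P 0 j) - (q * P 0 0) * star (q * P 0 0))
    rw [map_sub, Complex.sub_re] at h2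
    have h3 := D.dh j
    linarith
  have h2 := Finset.sum_le_sum fun (j : Fin (n + 1)) (_ : j ∈ Finset.univ) => h1 j
  have h3 := tr_ge T (∑ j, star (q * P 0 j) * (q * P 0 j) - q * q)
  rw [map_sub, map_sum, Complex.sub_re, Complex.re_sum] at h3
  have h4 := D.te T hT
  rw [map_sub, Complex.sub_re, tr_one] at h4
  have h5 := D.sum
  rw [Finset.sum_const, Finset.card_univ, Fintype.card_fin, nsmul_eq_mul] at h2
  push_cast at h2
  linarith

lemma Data.tp (D : Data A n η P q) (T : TS A) (hT : (T.1.f (1 - q)).re ≤ η) (k : ℕ) :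
    (T.1.f ((q * P 0 0) * star (q * P 0 0))).re - 10 * k * η ≤
      (T.1.f (((q * P 0 0) * star (q * P 0 0)) ^ (k + 1))).re := by
  set h := (q * P 0 0) * star (q * P 0 0) with hh
  have hn : ‖h‖ ≤ 1 := n2l (D.nd 0 0) (nstar (D.nd 0 0))
  have hsa : IsSelfAdjoint h := IsSelfAdjoint.mul_star_self _
  have hq1 : 0 ≤ 1 - q * q := by
    rw [sub_nonneg]
    have : IsSelfAdjoint (q * q) := by
      show star (q * q) = q * q
      rw [star_mul, D.sq]
    exact le_one_of_norm this (n2l D.nq D.nq)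
  induction k with
  | zero =>
    rw [zero_add, pow_one]
    push_cast
    linarith
  | succ k ih =>
    have e1 : h ^ (k + 1 + 1) = h ^ (k + 1) - h ^ k * ((1 - q * q) * h) +
        h ^ k * (h * h - q * q * h) := by
      rw [pow_succ, pow_succ]; noncomm_ring
    have e2 : T.1.f (h ^ k * ((1 - q * q) * h)) = T.1.f (h ^ (k + 1) * (1 - q * q)) := by
      rw [← mul_assoc, T.1.tr, ← mul_assoc, ← pow_succ']
    have h3 : (T.1.f (h ^ (k + 1) * (1 - q * q))).re ≤ (T.1.f (1 - q * q)).re :=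
      tr_mul_le T (le_one_of_norm (hsa.pow _) (pow_norm_le hn _)) hq1
    have h4 := D.te T hT
    have h5 := tr_ge T (h ^ k * (h * h - q * q * h))
    have h6 : ‖h ^ k * (h * h - q * q * h)‖ ≤ 8 * η := n2r (pow_norm_le hn _) D.hh
    rw [e1, map_add, map_sub, Complex.add_re, Complex.sub_re, e2]
    push_cast
    linarith

end core

/-- index type of the relations -/
abbrev Rel (n m : ℕ) : Type :=
  (Fin (n + 1) × Fin (n + 1)) ⊕
    ({x : (Fin (n + 1) × Fin (n + 1)) × (Fin (n + 1) × Fin (n + 1)) // x.1.2 ≠ x.2.1}) ⊕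
      Unit ⊕ (Fin (n + 1) × Fin (n + 1) × Fin m)

/-- the core: contractions, closed under the adjoint -/
lemma lift_core (hQC : StQC.{u}) (hF : StFCOM.{u}) (n : ℕ) {A : Type u} [CStarAlgebra A]
    [PartialOrder A] [StarOrderedRing A] (hU : UMR n A) (m : ℕ) (a : Fin m → A)
    (ha : ∀ j, ‖a j‖ ≤ 1) (hst : ∀ j, ∃ j', a j' = star (a j)) (K : ℕ) (ε : ℝ) (hε : 0 < ε) :
    ∃ (c : Fin (n + 1) → A) (e : A), 0 ≤ c 0 ∧ c 0 ≤ 1 ∧ 0 ≤ e ∧ e ≤ 1 ∧
    (∀ i j, ‖c i * star (c j) - (if i = j then c 0 * c 0 else 0)‖ ≤ ε) ∧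
    ‖∑ i, star (c i) * c i + e - 1‖ ≤ ε ∧
    (∀ j, (∀ i, ‖c i * a j - a j * c i‖ ≤ ε) ∧ ‖e * a j - a j * e‖ ≤ ε) ∧
    ∀ T : TS A, (T.1.f e).re ≤ ε ∧ 1 / (2 * ((n : ℝ) + 1)) ≤ (T.1.f (c 0 ^ K)).re := by
  obtain ⟨δs, hδs, hsq⟩ := hF Real.sqrt ε Real.continuous_sqrt.continuousOn hε
  have hn0 : (0 : ℝ) ≤ n := Nat.cast_nonneg n
  have hK0 : (0 : ℝ) ≤ K := Nat.cast_nonneg K
  set η : ℝ := min (min (ε / (4 * n + 8)) (δs / 6))
    (1 / (2 * (10 * K * (n + 1) + (8 * n + 12)))) with hη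
  have hη0 : 0 < η := by rw [hη]; positivity
  have hη1 : (4 * n + 8) * η ≤ ε := by
    have h1 : η ≤ ε / (4 * n + 8) := (min_le_left _ _).trans (min_le_left _ _)
    have h2 : (0 : ℝ) < 4 * n + 8 := by positivity
    rw [le_div_iff₀ h2] at h1
    linarith
  have hη1' : 8 * η ≤ ε := by nlinarith
  have hη2 : 6 * η ≤ δs := by
    have : η ≤ δs / 6 := (min_le_left _ _).trans (min_le_right _ _)
    linarith
  have hη3 : (10 * K * (n + 1) + (8 * n + 12)) * η ≤ 1 / 2 := by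
    have h1 : η ≤ 1 / (2 * (10 * K * (n + 1) + (8 * n + 12))) := min_le_right _ _
    have h2 : (0 : ℝ) < 2 * (10 * K * (n + 1) + (8 * n + 12)) := by positivity
    rw [le_div_iff₀ h2] at h1
    linarith
  obtain ⟨δ, hδ, hqc⟩ := qc_ft hQC ((Fin (n + 1) × Fin (n + 1)) ⊕ Fin m) (Rel n m) η hη0
  obtain ⟨P, hP, hS0, hS1, hPT⟩ := hU m a δ hδ
  have hPn : ∀ i j, ‖P i j‖ ≤ 1 := fun i j => (hP i j).1
  have hPs : ∀ i j, star (P i j) = P j i := fun i j => (hP i j).2
  obtain ⟨e0, he0, he1, hcx, hcz, hTe⟩ := hqc A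
    (Sum.elim (fun ij => P ij.1 ij.2) a)
    (Sum.elim (fun ij => P ij.1 ij.2 * P ij.2 ij.1 - P ij.1 ij.1)
      (Sum.elim (fun x => P x.1.1.1 x.1.1.2 * P x.1.2.1 x.1.2.2)
        (Sum.elim (fun _ => 1 - ∑ i, P i i)
          (fun x => P x.1 x.2.1 * a x.2.2 - a x.2.2 * P x.1 x.2.1)))) (by
    rintro (⟨i, j⟩ | j)
    · exact hPn i j
    · exact ha j) (by
    rintro (⟨i, j⟩ | ⟨⟨⟨i, j⟩, ⟨k, l⟩⟩, hjk⟩ | ⟨⟩ | ⟨i, j, l⟩)
    · have := ns (n2l (hPn i j) (hPn j i)) (hPn i i)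
      simp only [Sum.elim_inl]
      linarith
    · simp only [Sum.elim_inl, Sum.elim_inr]
      have := n2l (hPn i j) (hPn k l)
      linarith
    · simp only [Sum.elim_inl, Sum.elim_inr]
      have h1 : 0 ≤ 1 - ∑ i, P i i := sub_nonneg.2 hS1
      have h2 : 1 - ∑ i, P i i ≤ 1 := sub_le_self _ hS0
      have := (CStarAlgebra.norm_le_one_iff_of_nonneg _ h1).2 h2
      linarith
    · simp only [Sum.elim_inr]
      have := ns (n2l (hPn i j) (ha l)) (n2l (ha l) (hPn i j))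
      linarith) (by
    rintro T (⟨i, j⟩ | ⟨⟨⟨i, j⟩, ⟨k, l⟩⟩, hjk⟩ | ⟨⟩ | ⟨i, j, l⟩)
    · exact (hPT T).2.1 i j
    · exact (hPT T).2.2.1 i j k l hjk
    · exact (hPT T).1
    · exact (hPT T).2.2.2 i j l)
  set q : A := 1 - e0 with hq
  have hqx : ∀ y : A, q * y - y * q = -(e0 * y - y * e0) := by
    intro y; rw [hq]; noncomm_ring
  have hqy : ∀ y : A, q * y = y - e0 * y := by
    intro y; rw [hq]; noncomm_ring
  have D : Data A n η P q := by
    refine ⟨hPn, hPs, ?_, ?_, ?_, ?_, ?_, ?_⟩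
    · rw [hq]; exact sub_nonneg.2 he1
    · rw [hq]; exact sub_le_self _ he0
    · intro i j
      rw [hqx]
      exact nn (hcx (Sum.inl (i, j)))
    · intro i j
      rw [hqy]
      exact hcz (Sum.inl (i, j))
    · intro i j k l hjk
      rw [hqy]
      exact hcz (Sum.inr (Sum.inl ⟨((i, j), (k, l)), hjk⟩))
    · rw [hqy]
      exact hcz (Sum.inr (Sum.inr (Sum.inl ())))
  have hca : ∀ j, ‖q * a j - a j * q‖ ≤ η := by
    intro j
    rw [hqx]
    exact nn (hcx (Sum.inr j))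
  have hcPa : ∀ i j l, ‖q * (P i j * a l - a l * P i j)‖ ≤ 2 * η := by
    intro i j l
    rw [hqy]
    exact hcz (Sum.inr (Sum.inr (Sum.inr (i, j, l))))
  have hT' : ∀ T : TS A, (T.1.f (1 - q)).re ≤ η := by
    intro T
    rw [hq, sub_sub_cancel]
    exact hTe T
  have hda : ∀ i j, ‖(q * P 0 i) * a j - a j * (q * P 0 i)‖ ≤ 3 * η :=
    fun i j => D.ca i (hca j) (hcPa 0 i j)
  set h : A := (q * P 0 0) * star (q * P 0 0) with hh
  have hh0 : 0 ≤ h := mul_star_self_nonneg _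
  have hhn : ‖h‖ ≤ 1 := n2l (D.nd 0 0) (nstar (D.nd 0 0))
  have hh1 : h ≤ 1 := (CStarAlgebra.norm_le_one_iff_of_nonneg _ hh0).1 hhn
  have hcc : sqt h * sqt h = h := sqt_mul_self hh0
  have hsqsa : star (sqt h) = sqt h := (IsSelfAdjoint.of_nonneg (sqt_nonneg h)).star_eq
  have hqq0 : 0 ≤ q * q := by
    have := star_mul_self_nonneg q
    rwa [D.sq] at this
  have hX : ∀ j, j ≠ 0 → ‖sqt h * star (q * P 0 j)‖ ≤ 3 * η := by
    intro j hj
    have h1 : ‖sqt h * star (q * P 0 j)‖ * ‖sqt h * star (q * P 0 j)‖ =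
        ‖(q * P 0 j) * (q * P 0 0)‖ * ‖(q * P 0 j) * (q * P 0 0)‖ := by
      rw [← CStarRing.norm_star_mul_self, ← CStarRing.norm_self_mul_star]
      congr 1
      rw [star_mul, star_star, hsqsa, mul_assoc (q * P 0 j), ← mul_assoc (sqt h) (sqt h), hcc, hh,
        star_mul (q * P 0 j) (q * P 0 0)]
      noncomm_ring
    have h2 : ‖sqt h * star (q * P 0 j)‖ = ‖(q * P 0 j) * (q * P 0 0)‖ :=
      (mul_self_inj (norm_nonneg _) (norm_nonneg _)).1 h1
    rw [h2]
    exact D.d0 hj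
  have hc0 : Function.update (fun j => q * P 0 j) 0 (sqt h) 0 = sqt h := Function.update_self _ _ _
  have hcj : ∀ j, j ≠ 0 → Function.update (fun j => q * P 0 j) 0 (sqt h) j = q * P 0 j :=
    fun j hj => Function.update_of_ne hj _ _
  refine ⟨Function.update (fun j => q * P 0 j) 0 (sqt h), 1 - q * q, ?_, ?_, ?_, ?_, ?_, ?_, ?_, ?_⟩
  · rw [hc0]; exact sqt_nonneg h
  · rw [hc0]; exact sqt_le_one hh0 hh1
  · exact sub_nonneg.2 ((CStarAlgebra.norm_le_one_iff_of_nonneg _ hqq0).1 (n2l D.nq D.nq))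
  · exact sub_le_self _ hqq0
  · intro i j
    rw [hc0, hcc]
    by_cases hi : i = 0
    · by_cases hj : j = 0
      · subst hi hj
        rw [hc0, if_pos rfl, hsqsa, hcc, sub_self, norm_zero]
        exact hε.le
      · subst hi
        rw [hc0, hcj j hj, if_neg (Ne.symm hj), sub_zero]
        exact (hX j hj).trans (by linarith)
    · by_cases hj : j = 0
      · subst hj
        rw [hc0, hcj i hi, if_neg hi, sub_zero, ← norm_star, star_mul, star_star]
        exact (hX i hi).trans (by linarith)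
      · rw [hcj i hi, hcj j hj]
        by_cases hij : i = j
        · subst hij
          rw [if_pos rfl]
          exact (D.dh i).trans (by linarith)
        · rw [if_neg hij, sub_zero]
          exact (D.dd hij).trans (by linarith)
  · have e1 : ∑ i, star (Function.update (fun j => q * P 0 j) 0 (sqt h) i) *
        Function.update (fun j => q * P 0 j) 0 (sqt h) i + (1 - q * q) - 1 =
        (∑ j, star (q * P 0 j) * (q * P 0 j) - q * q) +
          (h - star (q * P 0 0) * (q * P 0 0)) := by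
      rw [Fin.sum_univ_succ, Fin.sum_univ_succ (fun j => star (q * P 0 j) * (q * P 0 j)), hc0,
        hsqsa, hcc]
      have : ∀ i : Fin n, star (Function.update (fun j => q * P 0 j) 0 (sqt h) i.succ) *
          Function.update (fun j => q * P 0 j) 0 (sqt h) i.succ =
          star (q * P 0 i.succ) * (q * P 0 i.succ) := by
        intro i
        rw [hcj _ (Fin.succ_ne_zero i)]
      rw [Finset.sum_congr rfl fun i _ => this i]
      abel
    rw [e1]
    have := na D.sum D.h0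
    rw [← hh] at this
    linarith
  · intro j
    refine ⟨?_, (D.ce (hca j)).trans (by linarith)⟩
    intro i
    by_cases hi : i = 0
    · subst hi
      rw [hc0]
      obtain ⟨j', hj'⟩ := hst j
      have h1 := hda 0 j'
      rw [hj'] at h1
      exact hsq A h (a j) hh0 hh1 (ha j) ((D.ch (hda 0 j) h1).trans hη2)
    · rw [hcj i hi]
      exact (hda i j).trans (by linarith)
  · intro T
    refine ⟨(D.te T (hT' T)).trans (by linarith), ?_⟩
    rw [hc0]
    refine le_trans ?_ (tr_mono T (pow_le_pow' (sqt_nonneg h) (sqt_le_one hh0 hh1) K))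
    rw [hcc]
    rcases Nat.eq_zero_or_pos K with hK | hK
    · subst hK
      rw [pow_zero, tr_one, div_le_one (by positivity)]
      linarith
    · obtain ⟨k, rfl⟩ : ∃ k, K = k + 1 := ⟨K - 1, by omega⟩
      have h1 := D.tp T (hT' T) k
      have h2 := D.th T (hT' T)
      rw [← hh] at h1 h2
      push_cast at hη3
      refine le_trans ?_ h1
      rw [div_le_iff₀ (by positivity)]
      have h3 : (0 : ℝ) ≤ (n + 1) * η := by positivity
      nlinarith

end TLIFTn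

open TLIFTn

/-- TARGET -/
theorem t_LIFTn (hQC : StQC.{u}) (hF : StFCOM.{u}) : StLIFTn.{u} := by
  intro n A _ _ _ hU m a K ε hε
  set M : ℝ := 1 + ∑ j, ‖a j‖ with hM
  have hM1 : 1 ≤ M := by
    rw [hM]
    have : 0 ≤ ∑ j, ‖a j‖ := Finset.sum_nonneg fun _ _ => norm_nonneg _
    linarith
  have hM0 : 0 < M := by linarith
  have haM : ∀ j, ‖a j‖ ≤ M := by
    intro j
    have := Finset.single_le_sum (f := fun j => ‖a j‖) (fun _ _ => norm_nonneg _) (Finset.mem_univ j)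
    linarith
  set b : Fin m → A := fun j => ((M⁻¹ : ℝ) : ℂ) • a j with hb
  have hcn : ‖((M⁻¹ : ℝ) : ℂ)‖ = M⁻¹ := by
    rw [Complex.norm_real, Real.norm_eq_abs, abs_of_pos (inv_pos.2 hM0)]
  have hbn : ∀ j, ‖b j‖ ≤ 1 := by
    intro j
    simp only [hb]
    rw [norm_smul, hcn, inv_mul_le_iff₀ hM0, mul_one]
    exact haM j
  have key : ∀ (c : A) (j : Fin m), ‖c * b j - b j * c‖ ≤ ε / M → ‖c * a j - a j * c‖ ≤ ε := by
    intro c j h
    simp only [hb] at h
    rw [mul_smul_comm, smul_mul_assoc, ← smul_sub, norm_smul, hcn, inv_mul_eq_div,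
      div_le_div_iff_of_pos_right hM0] at h
    exact h
  have hεM : ε / M ≤ ε := div_le_self hε.le hM1
  obtain ⟨c, e, h1, h2, h4, h5, h6, h7, h9, h10⟩ :=
    lift_core hQC hF n hU (m + m) (Fin.append b (fun j => star (b j)))
      (by
        intro j
        refine Fin.addCases (fun i => ?_) (fun i => ?_) j
        · rw [Fin.append_left]; exact hbn i
        · rw [Fin.append_right, norm_star]; exact hbn i)
      (by
        intro j
        refine Fin.addCases (fun i => ?_) (fun i => ?_) j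
        · exact ⟨Fin.natAdd m i, by rw [Fin.append_left, Fin.append_right]⟩
        · exact ⟨Fin.castAdd m i, by rw [Fin.append_left, Fin.append_right, star_star]⟩)
      K (ε / M) (by positivity)
  refine ⟨c, e, h1, h2, h4, h5, fun i j => (h6 i j).trans hεM, h7.trans hεM, ?_, ?_⟩
  · intro j
    have := h9 (Fin.castAdd m j)
    rw [Fin.append_left] at this
    exact ⟨fun i => key _ _ (this.1 i), key _ _ this.2⟩
  · intro T
    exact ⟨(h10 T).1.trans hεM, (h10 T).2⟩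

end Pool.Agent.H107ZS
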