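import Pool.Agent.H107_ZS.DStubs6

/-! The relations in the uniform 2-norm from the uniform McDuff property. -/

set_option autoImplicit false

namespace Pool.Agent.H107ZS

open Topology Pool.Agent.H327R4.Pure Filter Pool.Agent.H327R4.SI Pool.Agent.H667R5.TW
open scoped CStarAlgebra ComplexOrder

universe u v w

namespace TREL

section

variable {A : Type u} [CStarAlgebra A] [PartialOrder A] [StarOrderedRing A]

omit [PartialOrder A] [StarOrderedRing A] in
theorem tr_sub (T : TS A) (x y : A) : tr T (x - y) = tr T x - tr T y := by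
  unfold tr
  rw [map_sub, Complex.sub_re]

omit [PartialOrder A] [StarOrderedRing A] in
theorem tr_comm (T : TS A) (x y : A) : tr T (x * y) = tr T (y * x) := by
  unfold tr
  rw [T.1.tr]

omit [PartialOrder A] [StarOrderedRing A] in
theorem tr_sum (T : TS A) {ι : Type} (s : Finset ι) (f : ι → A) :
    tr T (∑ i ∈ s, f i) = ∑ i ∈ s, tr T (f i) := by
  unfold tr
  rw [map_sum, Complex.re_sum]

omit [PartialOrder A] [StarOrderedRing A] in
theorem n2_neg (T : TS A) (x y : A) : n2 T (x - y) = n2 T (y - x) := by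
  unfold n2
  rw [← neg_sub y x, star_neg, neg_mul_neg]

end

end TREL

open TREL in
/-- the relations in the uniform 2-norm -/
theorem t_REL : StREL.{u} := by
  classical
  intro n A _ _ _ hM m a ε hε
  obtain ⟨P, hP, hle, hT⟩ := hM (Finset.univ.image a) ε hε
  obtain ⟨hst, hpos, hd0, hcs⟩ := (cpb' A (n + 1)).2.2.2.2.2 P hP
  replace hcs := hcs hle
  have hds : dsum P = ∑ i, P i i := rfl
  have hPle : ∀ j, P j j ≤ dsum P := fun j =>
    Finset.single_le_sum (f := fun i => P i i) (fun i _ => hpos i) (Finset.mem_univ j)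
  have hP1 : ∀ j, P j j ≤ 1 := fun j => (hPle j).trans hle
  have hd : ∀ i j, 0 ≤ P j j - star (P i j) * P i j := fun i j => sub_nonneg.2 (hcs i j)
  have hnorm : ∀ i j, ‖P i j‖ ≤ 1 := by
    intro i j
    have h1 : ‖star (P i j) * P i j‖ ≤ 1 :=
      (CStarAlgebra.norm_le_one_iff_of_nonneg _ (star_mul_self_nonneg _)).2
        ((hcs i j).trans (hP1 j))
    rw [CStarRing.norm_star_mul_self] at h1
    nlinarith [norm_nonneg (P i j)]
  refine ⟨P, fun i j => ⟨hnorm i j, hst i j⟩, hds ▸ hd0, hds ▸ hle, fun T => ?_⟩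
  obtain ⟨h1, h2, h3⟩ := hT T
  obtain ⟨b1, -, -, b4, -, b6, b7, -, -⟩ := bas' A T
  have tr0 : tr T 0 = 0 := by
    unfold tr
    rw [map_zero, Complex.zero_re]
  have hn2 : ∀ x : A, n2 T x = tr T (star x * x) := fun x => rfl
  have htr : ∀ i j, 0 ≤ tr T (P j j - star (P i j) * P i j) := fun i j => by
    rw [← tr0]
    exact b1 _ _ (hd i j)
  have hdef : defect T P = ∑ i, ∑ j, tr T (P j j - star (P i j) * P i j) := by
    unfold defect
    simp only [tr_sub, Finset.sum_sub_distrib, hn2]
    rw [← tr_sum, ← hds]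
    simp
  have hg : ∀ i j, tr T (P j j - star (P i j) * P i j) ≤ ε := by
    intro i j
    have e1 : tr T (P j j - star (P i j) * P i j) ≤ ∑ j, tr T (P j j - star (P i j) * P i j) :=
      Finset.single_le_sum (f := fun j => tr T (P j j - star (P i j) * P i j))
        (fun j _ => htr i j) (Finset.mem_univ j)
    have e2 : ∑ j, tr T (P j j - star (P i j) * P i j)
        ≤ ∑ i, ∑ j, tr T (P j j - star (P i j) * P i j) :=
      Finset.single_le_sum (f := fun i => ∑ j, tr T (P j j - star (P i j) * P i j))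
        (fun i _ => Finset.sum_nonneg fun j _ => htr i j) (Finset.mem_univ i)
    linarith
  -- the 2-norm of a positive contraction
  have hsq : ∀ y : A, 0 ≤ y → y ≤ 1 → n2 T y ≤ tr T y := by
    intro y hy0 hy1
    have a1 := b6 y (1 - y) hy0 (sub_nonneg.2 hy1)
    rw [mul_sub, mul_one, tr_sub] at a1
    rw [hn2, (IsSelfAdjoint.of_nonneg hy0).star_eq]
    linarith
  refine ⟨?_, fun i j => ?_, fun i j k l hjk => ?_, fun i j l => ?_⟩
  · rw [← hds]
    exact (hsq _ (sub_nonneg.2 hle) (sub_le_self _ hd0)).trans h1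
  · rw [n2_neg]
    have hy : P i i - P i j * P j i = P i i - star (P j i) * P j i := by rw [hst j i]
    rw [hy]
    refine (hsq _ (hd j i) ?_).trans (hg j i)
    exact (sub_le_self _ (star_mul_self_nonneg _)).trans (hP1 i)
  · have a1 : n2 T (P i j * P k l) = tr T (star (P k l) * (star (P i j) * P i j) * P k l) := by
      rw [hn2, star_mul]
      simp only [mul_assoc]
    have a2 := b7 _ _ (P k l) (hcs i j)
    have a3 : tr T (star (P k l) * P j j * P k l) = tr T (P j j * (P k l * star (P k l))) := by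
      rw [mul_assoc, tr_comm, mul_assoc]
    have hq : P k l * star (P k l) ≤ P k k := by
      have := hcs l k
      rwa [hst l k, ← hst k l] at this
    have a4 := b6 (P j j) (P k k - P k l * star (P k l)) (hpos j) (sub_nonneg.2 hq)
    rw [mul_sub, tr_sub] at a4
    have hjk2 : P j j + P k k ≤ 1 := by
      refine le_trans ?_ hle
      rw [hds, ← Finset.sum_pair (f := fun i => P i i) hjk]
      exact Finset.sum_le_sum_of_subset_of_nonneg (Finset.subset_univ _) fun i _ _ => hpos i
    have a5 := b6 (P j j) (1 - (P j j + P k k)) (hpos j) (sub_nonneg.2 hjk2)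
    have hs : P j j * (1 - (P j j + P k k)) = (P j j - star (P j j) * P j j) - P j j * P k k := by
      rw [hst j j, mul_sub, mul_add, mul_one, sub_sub]
    rw [hs, tr_sub] at a5
    have a6 := hg j j
    linarith
  · rw [n2_neg]
    exact h3 (a l) (Finset.mem_image_of_mem a (Finset.mem_univ l)) i j

end Pool.Agent.H107ZS
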