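import Pool.Agent.H107_ZS.DStubs6
import Pool.Agent.H327R4.SI.TSIR

set_option autoImplicit false

namespace Pool.Agent.H107ZS

open Filter Topology Pool.Agent.H327R4.Pure Pool.Agent.H327R4.SI Pool.Agent.H327R4.SI.SIRx

universe u

theorem t_SIRk (hRIB : StRIB.{u}) (hROWS : StROWS.{u}) (hLB : StLBk.{u}) : StSIRk.{u} := by
  intro κ₀ hκ₀ A _ _ _ hA hSC g L ε hg hg1 hε
  have _hnt : Nontrivial A := hA.1
  obtain ⟨r1, r2, r3, r4, r5, r6, r7, r8, r9⟩ := hRIB A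
  obtain ⟨c1, c2, c3, c4, c5, c6, c7, c8, c9⟩ := ct' A g hg
  -- h
  set c : A := cut (1 / 2) g with hc
  have hc0 : 0 ≤ c := c1 _
  set h : A := cfcₙ Real.sqrt c with hh
  have hh0 : 0 ≤ h := by
    refine cfcₙ_nonneg fun x _ => Real.sqrt_nonneg x
  have hhs : star h = h := hh0.isSelfAdjoint
  have hhh : h * h = c := hh_sq g hg c hc0
  have hne : h ≠ 0 := by
    intro h0
    rw [h0, mul_zero] at hhh
    have h1 := c6 (1 / 2) (by norm_num)
    rw [← hc, ← hhh, sub_zero, hg1] at h1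
    norm_num at h1
  have hcn : ‖c‖ ≤ 1 := by
    rw [← hg1]
    exact CStarAlgebra.norm_le_norm_of_nonneg_of_le hc0 (c2 _ (by norm_num))
  have hhn : ‖h‖ ≤ 1 := by
    have h1 : ‖h‖ * ‖h‖ = ‖c‖ := by
      rw [← hhh, ← CStarRing.norm_star_mul_self, hhs]
    nlinarith [norm_nonneg h]
  have hhRI : h ∈ RI c := r6 c Real.sqrt hc0 Real.continuous_sqrt Real.sqrt_zero
  -- k and q
  set k : A := cfc kf g with hk
  have hkn : ‖k‖ ≤ 2 := k_norm g
  have hks : star k = k := k_sa g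
  set q : A := k * h with hq
  have hqn : ‖q‖ ≤ 2 := by
    calc ‖q‖ ≤ ‖k‖ * ‖h‖ := norm_mul_le _ _
      _ ≤ 2 * 1 := mul_le_mul hkn hhn (norm_nonneg _) (by norm_num)
      _ = 2 := by norm_num
  -- constants
  obtain ⟨k0, y0, η, hη, hLBh⟩ := hLB κ₀ hκ₀ A hA h hh0 hne
  have hκ : 0 < η / 2 := by linarith
  set κ : ℝ := η / 2 with hκd
  set s : ℝ := Real.sqrt κ⁻¹ with hs
  have hs0 : 0 ≤ s := Real.sqrt_nonneg _
  obtain ⟨K1, hK1⟩ : ∃ K1 : ℕ, 2 * ((K1 : ℝ) + 1)⁻¹ * s ≤ ε / 2 := by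
    obtain ⟨n, hn⟩ := exists_nat_gt (4 * s / ε)
    refine ⟨n, ?_⟩
    have h1 : (0 : ℝ) < (n : ℝ) + 1 := by positivity
    rw [mul_comm 2, mul_assoc, inv_mul_le_iff₀ h1]
    rw [div_lt_iff₀ hε] at hn
    nlinarith
  obtain ⟨δ0, hδ0, hLBf⟩ := hLBh K1
  set δ : ℝ := min δ0 (min (ε / 2 / (s + 1)) (η * ε / (8 * (L + 1)))) with hδd
  have hδ : 0 < δ := by
    refine lt_min hδ0 (lt_min (by positivity) (by positivity))
  refine ⟨k0 + 1, Fin.snoc y0 q, 2 * K1, δ, hδ, ?_⟩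
  intro e f he0 he1 hf0 hf1 hcom hfn hT
  have hcom0 : ∀ j, ‖f * y0 j - y0 j * f‖ ≤ δ0 := by
    intro j
    have h1 := hcom (Fin.castSucc j)
    rw [Fin.snoc_castSucc] at h1
    exact h1.trans (min_le_left _ _)
  have hcomq : ‖f * q - q * f‖ ≤ ε / 2 / (s + 1) := by
    have h1 := hcom (Fin.last k0)
    rw [Fin.snoc_last] at h1
    exact h1.trans ((min_le_right _ _).trans (min_le_left _ _))
  obtain ⟨hb1, hb2⟩ := hLBf f hf0 hf1 hcom0
  have hfs : star f = f := hf0.isSelfAdjoint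
  have hfn1 : ‖f‖ ≤ 1 := norm_le_one' hf0 hf1
  have hfpn : ∀ n : ℕ, ‖f ^ n‖ ≤ 1 := fun n => (norm_pow_le f n).trans (pow_le_one₀ (norm_nonneg _) hfn1)
  -- b
  set b : A := h * f ^ (2 * K1) * h with hb
  have hbeq : b = star (f ^ K1 * h) * (f ^ K1 * h) := by
    rw [star_mul, star_pow, hfs, hhs, hb, two_mul, pow_add]
    noncomm_ring
  have hb0 : 0 ≤ b := by
    rw [hbeq]
    exact star_mul_self_nonneg _
  have hbn1 : ‖b‖ ≤ 1 := by
    calc ‖b‖ ≤ ‖h * f ^ (2 * K1)‖ * ‖h‖ := norm_mul_le _ _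
      _ ≤ (‖h‖ * ‖f ^ (2 * K1)‖) * ‖h‖ :=
        mul_le_mul_of_nonneg_right (norm_mul_le _ _) (norm_nonneg _)
      _ ≤ (1 * 1) * 1 := by
        refine mul_le_mul (mul_le_mul hhn (hfpn _) (norm_nonneg _) zero_le_one) hhn
          (norm_nonneg _) (by norm_num)
      _ = 1 := by norm_num
  have hbη : η ≤ ‖b‖ := hb1 hfn
  obtain ⟨d1, d2, d3, d4, d5, d6, d7, d8, d9⟩ := ct' A b hb0
  have hcb0 : 0 ≤ cut κ b := d1 κ
  have hcbn : ‖cut κ b‖ ≤ 1 :=
    (CStarAlgebra.norm_le_norm_of_nonneg_of_le hcb0 (d2 κ hκ.le)).trans hbn1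
  have hcbne : cut κ b ≠ 0 := by
    intro h0
    have h1 := d6 κ hκ.le
    rw [h0, sub_zero] at h1
    linarith
  -- ranks
  obtain ⟨e1', e2', e3', e4', e5', e6', e7', e8', e9'⟩ := ct' A e he0
  have hrank : ∀ T : TS A, (L : ℝ) * rk T.1 (cut (ε / 2) e) < rk T.1 (cut κ b) := by
    intro T
    obtain ⟨hT1, hT2⟩ := hT T
    have h1 : rk T.1 (cut (ε / 2) e) ≤ (ε / 2)⁻¹ * δ := by
      refine (sand' A T.1 e (ε / 2) he0 (by linarith)).trans ((phi_tr T.1 _ (by linarith) e he0).trans ?_)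
      exact mul_le_mul_of_nonneg_left hT1 (by positivity)
    have h2 : η / 2 ≤ rk T.1 (cut κ b) := by
      have h3 := tr_le_rk T.1 _ hcb0 hcbn
      have h4 := tr_cut T κ hκ.le b hb0
      have h5 : η ≤ (T.1.f b).re := hb2 T hT2
      linarith
    have h6 : δ ≤ η * ε / (8 * (L + 1)) := (min_le_right _ _).trans (min_le_right _ _)
    have hL : (0 : ℝ) ≤ (L : ℝ) := Nat.cast_nonneg L
    have h7 : (L : ℝ) * ((ε / 2)⁻¹ * δ) < η / 2 := by
      have h8 : (L : ℝ) * ((ε / 2)⁻¹ * δ) ≤ (L : ℝ) * ((ε / 2)⁻¹ * (η * ε / (8 * (L + 1)))) := by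
        refine mul_le_mul_of_nonneg_left (mul_le_mul_of_nonneg_left h6 (by positivity)) hL
      have h9 : (L : ℝ) * ((ε / 2)⁻¹ * (η * ε / (8 * (L + 1)))) = η / 4 * (L / (L + 1)) := by
        field_simp
        ring
      have h10 : (L : ℝ) / (L + 1) ≤ 1 := by
        rw [div_le_one (by positivity)]
        linarith
      have h11 : η / 4 * (L / (L + 1)) ≤ η / 4 * 1 :=
        mul_le_mul_of_nonneg_left h10 (by linarith)
      linarith
    have h12 := mul_le_mul_of_nonneg_left h1 hL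
    linarith
  obtain ⟨w, hw1, hw2⟩ := hROWS A hSC L (cut (ε / 2) e) (cut κ b) (ε / 2) (e1' _) hcb0 hcbne
    (by linarith) hrank
  have hcc : cut (ε / 2) (cut (ε / 2) e) = cut ε e := by
    rw [e4' _ _ (by linarith) (by linarith), add_halves]
  rw [hcc] at hw1
  have hen : ‖cut ε e‖ ≤ 1 :=
    (CStarAlgebra.norm_le_norm_of_nonneg_of_le (e1' ε) (e2' ε hε.le)).trans (norm_le_one' he0 he1)
  have hwn : ∀ l, ‖w l‖ ≤ 1 := by
    intro l
    have h1 := hw1 l l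
    rw [if_pos rfl] at h1
    have h2 : ‖w l‖ * ‖w l‖ ≤ 1 := by
      rw [← CStarRing.norm_star_mul_self, h1]
      exact hen
    nlinarith [norm_nonneg (w l)]
  -- ideals
  have hbRI : b ∈ RI h := by
    rw [hb, mul_assoc]
    exact r2 h h _ (r1 h)
  have hcbRI : cut κ b ∈ RI b := by
    refine r6 b _ hb0 (by fun_prop) ?_
    show max (0 - κ) 0 = 0
    rw [max_eq_right]; linarith
  have hwb : ∀ l, w l ∈ RI b := fun l => r5 b _ hcbRI (hw2 l)
  have hwc : ∀ l, w l ∈ RI c := fun l => r5 c h hhRI (r5 h b hbRI (hwb l))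
  have hphig : ∀ l, phi (1 / 2) g * w l = w l := fun l => r7 g (w l) (1 / 2) hg (by norm_num) (hwc l)
  have hphib : ∀ l, phi κ b * w l = w l := fun l => r7 b (w l) κ hb0 hκ (hw2 l)
  refine ⟨fun l => k * w l, ?_, ?_, ?_⟩
  · intro l
    calc ‖k * w l‖ ≤ ‖k‖ * ‖w l‖ := norm_mul_le _ _
      _ ≤ 2 * 1 := mul_le_mul hkn (hwn l) (norm_nonneg _) (by norm_num)
      _ = 2 := by norm_num
  · intro l
    set z : A := cfc (f2 κ) b with hz
    have hzs : star z = z := f2_sa κ b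
    set t : A := f ^ K1 * h * z * w l with ht
    have hwt : w l = h * f ^ K1 * t := by
      have h1 : w l = b * z * w l := by
        rw [hz, f2_mul κ hκ b hb0, hphib l]
      have h2 : b * z * w l = h * f ^ K1 * (f ^ K1 * h * z * w l) := by
        rw [hb, two_mul, pow_add]
        noncomm_ring
      rw [ht, ← h2, ← h1]
    have htn : ‖t‖ ≤ s := by
      have h1 : star t * t = star (w l) * (z * b * z) * w l := by
        rw [ht, hbeq]
        simp only [star_mul, star_pow, hfs, hhs, hzs, mul_assoc]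
      have h2 : ‖t‖ * ‖t‖ ≤ κ⁻¹ := by
        rw [← CStarRing.norm_star_mul_self, h1]
        calc ‖star (w l) * (z * b * z) * w l‖ ≤ ‖star (w l) * (z * b * z)‖ * ‖w l‖ := norm_mul_le _ _
          _ ≤ (‖star (w l)‖ * ‖z * b * z‖) * ‖w l‖ :=
            mul_le_mul_of_nonneg_right (norm_mul_le _ _) (norm_nonneg _)
          _ ≤ (1 * κ⁻¹) * 1 := by
            refine mul_le_mul (mul_le_mul ?_ (f2_norm κ hκ b hb0) (norm_nonneg _) zero_le_one)
              (hwn l) (norm_nonneg _) (by positivity)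
            rw [norm_star]; exact hwn l
          _ = κ⁻¹ := by ring
      rw [hs]
      apply Real.le_sqrt_of_sq_le
      rw [sq]
      exact h2
    have h3 : f * (k * w l) - k * w l =
        (f * q - q * f) * (f ^ K1 * t) - q * ((1 - f) * f ^ K1) * t := by
      have h4 : k * w l = q * f ^ K1 * t := by
        rw [hwt, hq]
        noncomm_ring
      rw [h4]
      noncomm_ring
    rw [h3]
    have h5 : ‖f ^ K1 * t‖ ≤ s := by
      calc ‖f ^ K1 * t‖ ≤ ‖f ^ K1‖ * ‖t‖ := norm_mul_le _ _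
        _ ≤ 1 * s := mul_le_mul (hfpn _) htn (norm_nonneg _) zero_le_one
        _ = s := one_mul s
    have h6 : ‖(f * q - q * f) * (f ^ K1 * t)‖ ≤ ε / 2 := by
      calc ‖(f * q - q * f) * (f ^ K1 * t)‖ ≤ ‖f * q - q * f‖ * ‖f ^ K1 * t‖ := norm_mul_le _ _
        _ ≤ ε / 2 / (s + 1) * s := mul_le_mul hcomq h5 (norm_nonneg _) (by positivity)
        _ ≤ ε / 2 := by
          rw [div_mul_eq_mul_div, div_le_iff₀ (by positivity)]
          nlinarith
    have h7 : ‖q * ((1 - f) * f ^ K1) * t‖ ≤ ε / 2 := by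
      calc ‖q * ((1 - f) * f ^ K1) * t‖ ≤ ‖q * ((1 - f) * f ^ K1)‖ * ‖t‖ := norm_mul_le _ _
        _ ≤ (‖q‖ * ‖(1 - f) * f ^ K1‖) * ‖t‖ :=
          mul_le_mul_of_nonneg_right (norm_mul_le _ _) (norm_nonneg _)
        _ ≤ (2 * ((K1 : ℝ) + 1)⁻¹) * s := by
          refine mul_le_mul (mul_le_mul hqn (one_sub_pow f hf0 hf1 K1) (norm_nonneg _)
            (by norm_num)) htn (norm_nonneg _) (by positivity)
        _ ≤ ε / 2 := hK1
    calc _ ≤ ‖(f * q - q * f) * (f ^ K1 * t)‖ + ‖q * ((1 - f) * f ^ K1) * t‖ := norm_sub_le _ _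
      _ ≤ ε := by linarith
  · intro l l'
    have h1 : star (k * w l) * g * (k * w l') = star (w l) * (phi (1 / 2) g * w l') := by
      rw [← k_conj g hg, star_mul, ← hk, hks]
      noncomm_ring
    rw [h1, hphig, hw1]

end Pool.Agent.H107ZS
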