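import Pool.Agent.H107_ZS.DStubs6
import Pool.Agent.H327R4.SI.TSI

set_option autoImplicit false

namespace Pool.Agent.H107ZS

open Filter Topology Pool.Agent.H327R4.Pure Pool.Agent.H327R4.SI

universe u

theorem t_SIk (hGL : StGL.{u}) (hSIR : StSIRk.{u}) : StSIk.{u} := by
  intro κ₀ hκ₀ A _ _ _ hs hfd hsc hcpf m a R ε hε
  classical
  -- the finite set
  obtain ⟨zl, hzl⟩ : ∃ zl : List A, zl = 1 :: (List.ofFn a ++ List.ofFn (fun j => star (a j)) ++
    List.ofFn (fun j => star (a j) * a j)) := ⟨_, rfl⟩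
  have hz1 : (1 : A) ∈ zl := by rw [hzl]; exact List.mem_cons_self
  have hza : ∀ j, a j ∈ zl := by
    intro j
    rw [hzl]
    apply List.mem_cons_of_mem
    rw [List.mem_append, List.mem_append]
    left; left
    rw [List.mem_ofFn]
    exact ⟨j, rfl⟩
  have hzs : ∀ j, star (a j) ∈ zl := by
    intro j
    rw [hzl]
    apply List.mem_cons_of_mem
    rw [List.mem_append, List.mem_append]
    left; right
    rw [List.mem_ofFn]
    exact ⟨j, rfl⟩
  have hzq : ∀ j, star (a j) * a j ∈ zl := by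
    intro j
    rw [hzl]
    apply List.mem_cons_of_mem
    rw [List.mem_append]
    right
    rw [List.mem_ofFn]
    exact ⟨j, rfl⟩
  -- constants
  obtain ⟨Am, hAm⟩ : ∃ Am : ℝ, Am = ∑ j, ‖a j‖ := ⟨_, rfl⟩
  have hAm0 : 0 ≤ Am := by rw [hAm]; exact Finset.sum_nonneg fun j _ => norm_nonneg _
  have haAm : ∀ j, ‖a j‖ ≤ Am := by
    intro j
    rw [hAm]
    exact Finset.single_le_sum (f := fun j => ‖a j‖) (fun j _ => norm_nonneg _) (Finset.mem_univ j)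
  obtain ⟨η, hη⟩ : ∃ η : ℝ, η = min ε (ε ^ 2 / (1 + Am) ^ 2) := ⟨_, rfl⟩
  have hη0 : 0 < η := by rw [hη]; exact lt_min hε (by positivity)
  have hηε : η ≤ ε := by rw [hη]; exact min_le_left _ _
  have hηε2 : η * (1 + Am) ^ 2 ≤ ε ^ 2 := by
    have : η ≤ ε ^ 2 / (1 + Am) ^ 2 := by rw [hη]; exact min_le_right _ _
    rwa [le_div_iff₀ (by positivity)] at this
  obtain ⟨N, L, ρ, c, hρ, hρc⟩ := hcpf zl.length zl.get (η / 4) (by positivity)
  obtain ⟨S, hS⟩ : ∃ S : ℝ, S = ∑ x : Fin L × Fin N, ‖c x.1 x.2‖ := ⟨_, rfl⟩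
  have hS0 : 0 ≤ S := by rw [hS]; exact Finset.sum_nonneg fun j _ => norm_nonneg _
  obtain ⟨ε₂, hε₂⟩ : ∃ ε₂ : ℝ, ε₂ = η / (4 * (4 * S ^ 2 + 1)) := ⟨_, rfl⟩
  have hε₂0 : 0 < ε₂ := by rw [hε₂]; positivity
  obtain ⟨D, g, hg0, hg1, hD⟩ := hGL A hs hfd N ρ zl.length zl.get ε₂ hρ hε₂0
  -- more constants
  obtain ⟨P, hP⟩ : ∃ P : ℝ, P = ∑ i : Fin zl.length,
    ∑ l, ∑ p, ∑ q, ‖ρ (zl.get i) p q‖ * ‖c l p‖ * ‖c l q‖ := ⟨_, rfl⟩
  obtain ⟨P', hP'⟩ : ∃ P' : ℝ, P' = ∑ i : Fin zl.length,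
    ∑ l, ∑ p, ∑ q : Fin N, ‖ρ (zl.get i) p q‖ * ‖c l p‖ := ⟨_, rfl⟩
  have hP0 : 0 ≤ P := by rw [hP]; positivity
  have hP'0 : 0 ≤ P' := by rw [hP']; positivity
  have hPi : ∀ i : Fin zl.length, ∑ l, ∑ p, ∑ q, ‖ρ (zl.get i) p q‖ * ‖c l p‖ * ‖c l q‖ ≤ P := by
    intro i
    rw [hP]
    exact Finset.single_le_sum (f := fun i : Fin zl.length =>
      ∑ l, ∑ p, ∑ q, ‖ρ (zl.get i) p q‖ * ‖c l p‖ * ‖c l q‖)
      (fun j _ => by positivity) (Finset.mem_univ i)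
  have hP'i : ∀ i : Fin zl.length, ∑ l, ∑ p, ∑ q : Fin N, ‖ρ (zl.get i) p q‖ * ‖c l p‖ ≤ P' := by
    intro i
    rw [hP']
    exact Finset.single_le_sum (f := fun i : Fin zl.length =>
      ∑ l, ∑ p, ∑ q : Fin N, ‖ρ (zl.get i) p q‖ * ‖c l p‖)
      (fun j _ => by positivity) (Finset.mem_univ i)
  obtain ⟨Q, hQ⟩ : ∃ Q : ℝ, Q = ∑ x : Fin L × Fin N, ‖D x.2‖ * ‖c x.1 x.2‖ := ⟨_, rfl⟩
  have hQ0 : 0 ≤ Q := by rw [hQ]; positivity
  obtain ⟨ε₃, hε₃⟩ : ∃ ε₃ : ℝ, ε₃ = min (η / (4 * (P + 1))) (ε / (2 * (Q + 1))) := ⟨_, rfl⟩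
  have hε₃0 : 0 < ε₃ := by rw [hε₃]; exact lt_min (by positivity) (by positivity)
  obtain ⟨k₀, y₀, K, δ₁, hδ₁, hrow⟩ := hSIR κ₀ hκ₀ A hs hsc g (R * L) ε₃ hg0 hg1 hε₃0
  obtain ⟨yl, hyl⟩ : ∃ yl : List A, yl = List.ofFn y₀ ++ List.ofFn D ++
    List.ofFn (fun x : Fin (L * N) => c (finProdFinEquiv.symm x).1 (finProdFinEquiv.symm x).2) :=
    ⟨_, rfl⟩
  obtain ⟨δ, hδ⟩ : ∃ δ : ℝ, δ = min δ₁ (min (η / (4 * (P' + 1))) (ε / (2 * (2 * S + 1)))) :=
    ⟨_, rfl⟩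
  have hδ0 : 0 < δ := by rw [hδ]; exact lt_min hδ₁ (lt_min (by positivity) (by positivity))
  have hδ1 : δ ≤ δ₁ := by rw [hδ]; exact min_le_left _ _
  have hδ2 : δ ≤ η / (4 * (P' + 1)) := by
    rw [hδ]; exact (min_le_right _ _).trans (min_le_left _ _)
  have hδ3 : δ ≤ ε / (2 * (2 * S + 1)) := by
    rw [hδ]; exact (min_le_right _ _).trans (min_le_right _ _)
  refine ⟨yl.length, yl.get, K, δ, hδ0, ?_⟩
  intro e f he0 he1 hf0 hf1 hcomm hfK hT
  rcases Nat.eq_zero_or_pos R with hR | hR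
  · subst hR
    exact ⟨fun i => i.elim0, fun i => i.elim0, fun i => i.elim0, fun i => i.elim0⟩
  have hmem : ∀ y ∈ yl, ‖e * y - y * e‖ ≤ δ ∧ ‖f * y - y * f‖ ≤ δ := by
    intro y hy
    obtain ⟨j, rfl⟩ := List.mem_iff_get.1 hy
    exact hcomm j
  have hfy : ∀ j, ‖f * y₀ j - y₀ j * f‖ ≤ δ₁ := by
    intro j
    refine (hmem (y₀ j) ?_).2.trans hδ1
    rw [hyl, List.mem_append, List.mem_append]
    left; left
    rw [List.mem_ofFn]
    exact ⟨j, rfl⟩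
  have hfD : ∀ p, ‖f * D p - D p * f‖ ≤ δ := by
    intro p
    refine (hmem (D p) ?_).2
    rw [hyl, List.mem_append, List.mem_append]
    left; right
    rw [List.mem_ofFn]
    exact ⟨p, rfl⟩
  have hec : ∀ l p, ‖e * c l p - c l p * e‖ ≤ δ := by
    intro l p
    refine (hmem (c l p) ?_).1
    rw [hyl, List.mem_append]
    right
    rw [List.mem_ofFn]
    refine ⟨finProdFinEquiv (l, p), ?_⟩
    rw [Equiv.symm_apply_apply]
  have hTe : ∀ T : TS A, (T.1.f e).re ≤ δ₁ ∧ κ₀ ≤ (T.1.f (f ^ K)).re := by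
    intro T
    refine ⟨?_, (hT T).2⟩
    by_contra h
    push Not at h
    have h1 := (hT T).1
    have h2 : (1 : ℝ) ≤ R := by exact_mod_cast hR
    have h3 : 0 < (T.1.f e).re := hδ₁.trans h
    nlinarith
  obtain ⟨r, hr2, hrf, hrr⟩ := hrow e f he0 he1 hf0 hf1 hfy hfK hTe
  -- the elements
  let rr : Fin R → Fin L → A := fun i l => r (finProdFinEquiv (i, l))
  have hk : ‖cut ε₃ e - e‖ ≤ ε₃ := SI_cut e he0 ε₃ hε₃0.le
  have he1' : ‖e‖ ≤ 1 := (CStarAlgebra.norm_le_one_iff_of_nonneg e he0).2 he1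
  have main : ∀ z ∈ zl, ∀ i i', ‖star (SI_s D (rr i) c) * z * SI_s D (rr i') c -
      if i = i' then z * e else 0‖ ≤ η := by
    intro z hz i i'
    obtain ⟨j, rfl⟩ := List.mem_iff_get.1 hz
    have s1 := SI_step1 D (rr i) (rr i') c (zl.get j) g (fun p q => ρ (zl.get j) p q) ε₂ hε₂0.le
      (fun l => hr2 _) (fun l => hr2 _) (fun p q => hD j p q)
    have s2 := SI_step2 (rr i) (rr i') c g (cut ε₃ e) (fun p q => ρ (zl.get j) p q) (i = i')
      (fun l l' => by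
        show star (r _) * g * r _ = _
        rw [hrr]
        simp only [EmbeddingLike.apply_eq_iff_eq, Prod.mk.injEq])
    rw [s2, ← hS] at s1
    have b1 : 4 * ε₂ * S ^ 2 ≤ η / 4 := by
      rw [hε₂, div_eq_mul_inv, div_eq_mul_inv]
      have h5 : (4 * (4 * S ^ 2 + 1))⁻¹ * (4 * S ^ 2) ≤ 4⁻¹ := by
        rw [inv_mul_le_iff₀ (by positivity)]
        nlinarith [sq_nonneg S]
      nlinarith
    by_cases hii : i = i'
    · rw [if_pos hii] at s1 ⊢
      have s3 := SI_step3 c (cut ε₃ e) e (fun p q => ρ (zl.get j) p q) ε₃ δ hk hec hδ0.le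
      have s4 := hρc j
      have b2 : ε₃ * (∑ l, ∑ p, ∑ q, ‖ρ (zl.get j) p q‖ * ‖c l p‖ * ‖c l q‖) ≤ η / 4 := by
        have h5 : ε₃ ≤ η / (4 * (P + 1)) := by rw [hε₃]; exact min_le_left _ _
        calc ε₃ * (∑ l, ∑ p, ∑ q, ‖ρ (zl.get j) p q‖ * ‖c l p‖ * ‖c l q‖)
            ≤ η / (4 * (P + 1)) * (P + 1) := by
              apply mul_le_mul h5 ((hPi j).trans (by linarith)) (by positivity) (by positivity)
          _ = η / 4 := by field_simp
      have b3 : δ * (∑ l, ∑ p, ∑ q : Fin N, ‖ρ (zl.get j) p q‖ * ‖c l p‖) ≤ η / 4 := by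
        calc δ * (∑ l, ∑ p, ∑ q : Fin N, ‖ρ (zl.get j) p q‖ * ‖c l p‖)
            ≤ η / (4 * (P' + 1)) * (P' + 1) := by
              apply mul_le_mul hδ2 ((hP'i j).trans (by linarith)) (by positivity) (by positivity)
          _ = η / 4 := by field_simp
      have s5 : ‖(∑ l, ∑ p, ∑ q, ρ (zl.get j) p q • (star (c l p) * c l q)) * e -
          zl.get j * e‖ ≤ η / 4 := by
        rw [← sub_mul]
        calc ‖(∑ l, ∑ p, ∑ q, ρ (zl.get j) p q • (star (c l p) * c l q) - zl.get j) * e‖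
            ≤ ‖∑ l, ∑ p, ∑ q, ρ (zl.get j) p q • (star (c l p) * c l q) - zl.get j‖ * ‖e‖ :=
              norm_mul_le _ _
          _ ≤ η / 4 * 1 := by gcongr
          _ = η / 4 := mul_one _
      calc ‖star (SI_s D (rr i) c) * zl.get j * SI_s D (rr i') c - zl.get j * e‖
          = ‖(star (SI_s D (rr i) c) * zl.get j * SI_s D (rr i') c -
              ∑ l, ∑ p, ∑ q, ρ (zl.get j) p q • (star (c l p) * cut ε₃ e * c l q)) +
            (∑ l, ∑ p, ∑ q, ρ (zl.get j) p q • (star (c l p) * cut ε₃ e * c l q) -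
              (∑ l, ∑ p, ∑ q, ρ (zl.get j) p q • (star (c l p) * c l q)) * e) +
            ((∑ l, ∑ p, ∑ q, ρ (zl.get j) p q • (star (c l p) * c l q)) * e -
              zl.get j * e)‖ := by
            congr 1
            abel
        _ ≤ η / 4 + (η / 4 + η / 4) + η / 4 := by
            refine (norm_add_le _ _).trans (add_le_add ?_ s5)
            refine (norm_add_le _ _).trans (add_le_add (s1.trans b1) (s3.trans ?_))
            exact add_le_add b2 b3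
        _ = η := by ring
    · rw [if_neg hii] at s1 ⊢
      exact (s1.trans b1).trans (by linarith)
  refine ⟨fun i => SI_s D (rr i) c, ?_, ?_, ?_⟩
  · intro i i'
    have h1 := main 1 hz1 i i'
    rw [mul_one, one_mul] at h1
    exact h1.trans hηε
  · intro i
    have h1 := SI_f D (rr i) c f ε₃ δ hε₃0.le hδ0.le (fun l => hr2 _) (fun l => hrf _) hfD
    rw [← hQ, ← hS] at h1
    have h2 : ε₃ * Q ≤ ε / 2 := by
      have h5 : ε₃ ≤ ε / (2 * (Q + 1)) := by rw [hε₃]; exact min_le_right _ _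
      calc ε₃ * Q ≤ ε / (2 * (Q + 1)) * (Q + 1) :=
            mul_le_mul h5 (by linarith) hQ0 (by positivity)
        _ = ε / 2 := by field_simp
    have h3 : δ * (2 * S) ≤ ε / 2 := by
      calc δ * (2 * S) ≤ ε / (2 * (2 * S + 1)) * (2 * S + 1) :=
            mul_le_mul hδ3 (by linarith) (by positivity) (by positivity)
        _ = ε / 2 := by field_simp
    linarith
  · intro i j
    have g1 := main 1 hz1 i i
    have g2 := main (a j) (hza j) i i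
    have g3 := main (star (a j)) (hzs j) i i
    have g4 := main (star (a j) * a j) (hzq j) i i
    rw [if_pos rfl] at g1 g2 g3 g4
    have h1 := SI_comm (SI_s D (rr i) c) (a j) e η g1 g2 g3 g4
    have h2 : η * (1 + ‖a j‖) ^ 2 ≤ ε ^ 2 := by
      refine le_trans ?_ hηε2
      have := haAm j
      have h0 := norm_nonneg (a j)
      gcongr
    exact (sq_le_sq₀ (norm_nonneg _) hε.le).1 (h1.trans h2)

end Pool.Agent.H107ZS
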