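import Pool.Agent.H107_ZS.Final2
import Pool.Agent.H107_ZS.DStubs6
import Pool.Agent.H107_ZS.TLBk
import Pool.Agent.H107_ZS.TSIRk
import Pool.Agent.H107_ZS.TSIk
import Pool.Agent.H107_ZS.TREL
import Pool.Agent.H107_ZS.TLIFTn
import Pool.Agent.H107_ZS.TFINn

/-!
# The relations of all prime dimension drop algebras in crossed products
-/

set_option autoImplicit false

namespace Pool.Agent.H107ZS

open Topology Filter Pool.Agent.H327R4.Pure Pool.Agent.H327R4.SI Pool.Agent.H667R5.TW
open scoped CStarAlgebra ComplexOrder

universe u v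

/-- a simple unital infinite-dimensional nuclear C*-algebra with strict comparison satisfies the
relations of all `Z_{n,n+1}` approximately centrally -/
theorem rwz_all (A : Type u) [CStarAlgebra A] [PartialOrder A] [StarOrderedRing A]
    (hs : SimpleC A) (hf : ¬ FiniteDimensional ℂ A) (hn : NuclearC A) (hc : SC A) : RWZ A :=
  full_n t_REL (t_LIFTn t_QC t_FCOM) (t_SIk gl' (t_SIRk rib' rows' t_LBk)) t_FINn A hs hf hn hc

/-- crossed products of free minimal actions of amenable groups on finite dimensional compact
metrizable spaces: the relations of all `Z_{n,n+1}` -/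
theorem final_rwz (G : Type u) [Group G] [Countable G] [Infinite G] (X : Type u)
    [TopologicalSpace X] [CompactSpace X] [TopologicalSpace.MetrizableSpace X] [Nonempty X]
    [MulAction G X] [ContinuousConstSMul G X] (d : ℕ) (hG : Amenable G) (hf : FreeAct G X)
    (hm : MinAct G X) (hd : DimLE X d) (A : Type u) [CStarAlgebra A] (ι : C(X, ℂ) →⋆ₐ[ℂ] A)
    (u : G →* unitary A) (E : A →L[ℂ] C(X, ℂ)) (h : IsCross ι u E) [PartialOrder A]
    [StarOrderedRing A] : RWZ A := by
  have hX : Infinite X := by
    obtain ⟨x⟩ := ‹Nonempty X›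
    exact Infinite.of_injective (fun g : G => g • x) fun g g' hgg => by
      have h1 : (g'⁻¹ * g) • x = x := by
        change g • x = g' • x at hgg
        rw [mul_smul, hgg, inv_smul_smul]
      have h2 := hf _ _ h1
      exact (inv_mul_eq_one.1 h2).symm
  exact rwz_all A (t_SIM G X A ι u E hf hm h) (t_INF G X A ι u E h)
    (t_NUC t_NU1 G X A ι u E hG h) (t_SC_of t_TS t_MC (t_RANK t_RA t_RB) G X A ι u E _ hG hf
      (castle_all comp_all G X d hG hf hm hd) h)

end Pool.Agent.H107ZS
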