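import Pool.Agent.H107_ZS.TND

/-!
# Colouring a cover of multiplicity `p` (`StCOL`)
-/

set_option autoImplicit false

namespace Pool.Agent.H107ZS

open Topology

universe u v w

/-- closed sets of multiplicity at most `p` have open neighbourhoods of multiplicity at most `p` -/
theorem exists_swelling_mult {X : Type u} [TopologicalSpace X] [NormalSpace X] {n : ℕ} (p : ℕ)
    (E : Fin n → Set X) (hE : ∀ i, IsClosed (E i))
    (h : ∀ (x : X) (F : Finset (Fin n)), (∀ i ∈ F, x ∈ E i) → F.card ≤ p) :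
    ∃ O : Fin n → Set X, (∀ i, IsOpen (O i)) ∧ (∀ i, E i ⊆ O i) ∧
      ∀ (x : X) (F : Finset (Fin n)), (∀ i ∈ F, x ∈ O i) → F.card ≤ p := by
  classical
  have h1 : ∀ F : Finset (Fin n), ∃ O : Fin n → Set X, (∀ i, IsOpen (O i)) ∧ (∀ i, E i ⊆ O i) ∧
      (p < F.card → ∀ x, ∃ i ∈ F, x ∉ O i) := by
    intro F
    by_cases hF : p < F.card
    · obtain ⟨O, hO1, hO2, hO3⟩ := exists_swelling (ι := F) (fun i => E i) (fun i => hE i)
        (fun x => by
          by_contra hcon
          push Not at hcon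
          have := h x F fun i hi => hcon ⟨i, hi⟩
          omega)
      refine ⟨fun i => if hi : i ∈ F then O ⟨i, hi⟩ else Set.univ, fun i => ?_, fun i => ?_,
        fun _ x => ?_⟩
      · by_cases hi : i ∈ F
        · simp only [hi, dite_true]
          exact hO1 _
        · simp only [hi, dite_false]
          exact isOpen_univ
      · by_cases hi : i ∈ F
        · simp only [hi, dite_true]
          exact hO2 ⟨i, hi⟩
        · simp only [hi, dite_false]
          exact Set.subset_univ _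
      · obtain ⟨i, hi⟩ := hO3 x
        refine ⟨i, i.2, fun hx => hi (subset_closure ?_)⟩
        simpa [i.2] using hx
    · exact ⟨fun _ => Set.univ, fun _ => isOpen_univ, fun _ => Set.subset_univ _,
        fun h' => absurd h' hF⟩
  choose O hO1 hO2 hO3 using h1
  refine ⟨fun i => ⋂ F ∈ (Finset.univ : Finset (Finset (Fin n))), O F i,
    fun i => isOpen_biInter_finset fun F _ => hO1 F i, fun i x hx => ?_, ?_⟩
  · simp only [Set.mem_iInter]
    intro F _
    exact hO2 F i hx
  · intro x F hF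
    by_contra hlt
    push Not at hlt
    obtain ⟨i, hi, hxi⟩ := hO3 F hlt x
    apply hxi
    have h2 := hF i hi
    simp only [Set.mem_iInter] at h2
    exact h2 F (Finset.mem_univ _)

theorem MSub.of_fintype {G : Type u} [Group G] {X : Type v} [TopologicalSpace X] [MulAction G X]
    {M : ℕ} {R W : Set X} {κ : Type w} [Fintype κ] (c : κ → Fin M) (g : κ → G) (U : κ → Set X)
    (h1 : ∀ i, IsOpen (U i)) (h2 : ∀ x ∈ R, ∃ i, x ∈ U i) (h3 : ∀ i, ∀ x ∈ U i, g i • x ∈ W)
    (h4 : ∀ i j, i ≠ j → c i = c j → ∀ x ∈ U i, ∀ y ∈ U j, g i • x ≠ g j • y) :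
    MSub G M R W := by
  refine ⟨Fintype.card κ, fun i => c ((Fintype.equivFin κ).symm i),
    fun i => g ((Fintype.equivFin κ).symm i), fun i => U ((Fintype.equivFin κ).symm i),
    fun i => h1 _, fun x hx => ?_, fun i => h3 _, fun i j hij hc => ?_⟩
  · obtain ⟨i, hi⟩ := h2 x hx
    exact ⟨Fintype.equivFin κ i, by simpa using hi⟩
  · exact h4 _ _ (fun h => hij ((Fintype.equivFin κ).symm.injective h)) hc

/-- the position of an element of a finite set -/
theorem filter_lt_card_inj {n : ℕ} {S : Finset (Fin n)} {i j : Fin n} (hi : i ∈ S) (hj : j ∈ S)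
    (h : (S.filter (· < i)).card = (S.filter (· < j)).card) : i = j := by
  classical
  wlog hij : i ≤ j generalizing i j
  · exact (this hj hi h.symm (le_of_not_ge hij)).symm
  · by_contra hne
    have hlt : i < j := lt_of_le_of_ne hij hne
    have : (S.filter (· < i)).card < (S.filter (· < j)).card := by
      apply Finset.card_lt_card
      rw [Finset.ssubset_iff_of_subset]
      · exact ⟨i, Finset.mem_filter.2 ⟨hi, hlt⟩, fun h' => absurd (Finset.mem_filter.1 h').2
          (lt_irrefl i)⟩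
      · intro k hk
        rw [Finset.mem_filter] at hk ⊢
        exact ⟨hk.1, hk.2.trans hlt⟩
    omega

theorem t_COL : StCOL.{u} := by
  classical
  intro G _ X _ _ _ _ _ p n D g R W hD hW hR hDW hmult
  let E : Fin n → Set X := fun i => {z | (g i)⁻¹ • z ∈ D i}
  have hE : ∀ i, IsClosed (E i) := fun i => (hD i).preimage (continuous_const_smul (g i)⁻¹)
  obtain ⟨O, hO1, hO2, hO3⟩ := exists_swelling_mult p E hE (fun z F hF => hmult z F fun i hi =>
    ⟨(g i)⁻¹ • z, hF i hi, smul_inv_smul _ _⟩)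
  have hEW : ∀ i, E i ⊆ W := by
    intro i z hz
    have := hDW i _ hz
    rwa [smul_inv_smul] at this
  -- cut-off functions
  have hlam : ∀ i, ∃ f : C(X, ℝ), (∀ z ∈ E i, 0 < f z) ∧ ∀ z, 0 < f z → z ∈ O i ∧ z ∈ W := by
    intro i
    obtain ⟨f, hf0, hf1, _⟩ := exists_continuous_zero_one_of_isClosed
      (s := (O i ∩ W)ᶜ) (t := E i) ((hO1 i).inter hW).isClosed_compl (hE i)
      (Set.disjoint_left.2 fun z hz hz' => hz ⟨hO2 i hz', hEW i hz'⟩)
    refine ⟨f, fun z hz => ?_, fun z hz => ?_⟩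
    · rw [hf1 hz]
      exact one_pos
    · by_contra hcon
      have h1 : z ∈ (O i ∩ W)ᶜ := hcon
      rw [hf0 h1] at hz
      exact lt_irrefl _ hz
  choose f hf1 hf2 using hlam
  let US : Finset (Fin n) → Set X := fun S =>
    {z | (∀ i ∈ S, 0 < f i z) ∧ ∀ i ∈ S, ∀ j ∈ Sᶜ, f j z < f i z}
  have hUS : ∀ S, IsOpen (US S) := by
    intro S
    have h1 : US S = (⋂ i ∈ S, {z | 0 < f i z}) ∩ ⋂ i ∈ S, ⋂ j ∈ Sᶜ, {z | f j z < f i z} := by
      ext z
      simp only [US, Set.mem_ofPred_eq, Set.mem_inter_iff, Set.mem_iInter]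
    rw [h1]
    refine (isOpen_biInter_finset fun i _ => isOpen_lt continuous_const (f i).continuous).inter
      (isOpen_biInter_finset fun i _ => isOpen_biInter_finset fun j _ =>
        isOpen_lt (f j).continuous (f i).continuous)
  let κ := {q : Fin n × Finset (Fin n) // q.1 ∈ q.2 ∧ q.2.card ≤ p}
  have hpos : ∀ q : κ, (q.1.2.filter (· < q.1.1)).card < p := by
    intro q
    refine lt_of_lt_of_le ?_ q.2.2
    apply Finset.card_lt_card
    rw [Finset.ssubset_iff_of_subset (Finset.filter_subset _ _)]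
    exact ⟨q.1.1, q.2.1, fun h' => absurd (Finset.mem_filter.1 h').2 (lt_irrefl _)⟩
  have hcd : ∀ q : κ, q.1.2.card - 1 < p := by
    intro q
    have h1 : 0 < q.1.2.card := Finset.card_pos.2 ⟨_, q.2.1⟩
    have h2 := q.2.2
    omega
  refine MSub.of_fintype (κ := κ)
    (fun q => finProdFinEquiv (⟨q.1.2.card - 1, hcd q⟩, ⟨_, hpos q⟩))
    (fun q => g q.1.1) (fun q => {x | g q.1.1 • x ∈ US q.1.2}) ?_ ?_ ?_ ?_
  · intro q
    exact (hUS _).preimage (continuous_const_smul (g q.1.1))
  · intro x hx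
    obtain ⟨i, hi⟩ := hR x hx
    have hz : g i • x ∈ E i := by
      change (g i)⁻¹ • g i • x ∈ D i
      rwa [inv_smul_smul]
    let S : Finset (Fin n) := Finset.univ.filter fun j => 0 < f j (g i • x)
    have hS : ∀ j, j ∈ S ↔ 0 < f j (g i • x) := fun j => by simp [S]
    have hiS : i ∈ S := (hS i).2 (hf1 i _ hz)
    have hcard : S.card ≤ p := hO3 (g i • x) S fun j hj => (hf2 j _ ((hS j).1 hj)).1
    refine ⟨⟨(i, S), hiS, hcard⟩, ?_, ?_⟩
    · intro j hj
      exact (hS j).1 hj
    · intro j hj k hk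
      have h1 := (hS j).1 hj
      have h2 : ¬ 0 < f k (g i • x) := fun h => (Finset.mem_compl.1 hk) ((hS k).2 h)
      push Not at h2
      exact lt_of_le_of_lt h2 h1
  · intro q x hx
    exact (hf2 _ _ (hx.1 _ q.2.1)).2
  · intro q q' hne hc x hx y hy heq
    have h1 := finProdFinEquiv.injective hc
    simp only [Prod.mk.injEq, Fin.mk.injEq] at h1
    have hc1 : 0 < q.1.2.card := Finset.card_pos.2 ⟨_, q.2.1⟩
    have hc2 : 0 < q'.1.2.card := Finset.card_pos.2 ⟨_, q'.2.1⟩
    have hcard : q.1.2.card = q'.1.2.card := by omega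
    have hx' : g q.1.1 • x ∈ US q.1.2 := hx
    have hy' : g q.1.1 • x ∈ US q'.1.2 := by
      rw [heq]
      exact hy
    by_cases hSS : q.1.2 = q'.1.2
    · apply hne
      apply Subtype.ext
      refine Prod.ext ?_ hSS
      have h2 := h1.2
      rw [← hSS] at h2
      exact filter_lt_card_inj q.2.1 (hSS ▸ q'.2.1) h2
    · have h2 : ∃ i ∈ q.1.2, i ∉ q'.1.2 := by
        by_contra hcon
        push Not at hcon
        exact hSS (Finset.eq_of_subset_of_card_le hcon hcard.ge)
      have h3 : ∃ i ∈ q'.1.2, i ∉ q.1.2 := by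
        by_contra hcon
        push Not at hcon
        exact hSS (Finset.eq_of_subset_of_card_le hcon hcard.le).symm
      obtain ⟨i, hi, hi'⟩ := h2
      obtain ⟨j, hj, hj'⟩ := h3
      have h4 := hx'.2 i hi j (Finset.mem_compl.2 hj')
      have h5 := hy'.2 j hj i (Finset.mem_compl.2 hi')
      exact lt_asymm h4 h5

end Pool.Agent.H107ZS
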