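import Pool.Agent.H107_ZS.DStubs7

/-!
# The case of a finite group
-/

set_option autoImplicit false

namespace Pool.Agent.H107ZS

open Topology

universe u v w

namespace TFING

open MeasureTheory

theorem trans_of_min {G : Type u} [Group G] [Finite G] {X : Type v} [TopologicalSpace X]
    [T2Space X] [MulAction G X] (hm : MinAct G X) (x y : X) : ∃ g : G, g • x = y := by
  have h1 : (Set.range fun g : G => g • x).Finite := Set.finite_range _
  have h2 : Dense (Set.range fun g : G => g • x) := hm x
  have h3 : closure (Set.range fun g : G => g • x) = Set.univ := h2.closure_eq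
  rw [h1.isClosed.closure_eq] at h3
  have h4 : y ∈ Set.range fun g : G => g • x := by rw [h3]; trivial
  obtain ⟨g, hg⟩ := h4
  exact ⟨g, hg⟩

theorem finite_of_min {G : Type u} [Group G] [Finite G] {X : Type v} [TopologicalSpace X]
    [T2Space X] [MulAction G X] (hm : MinAct G X) : Finite X := by
  rcases isEmpty_or_nonempty X with h | ⟨⟨x⟩⟩
  · infer_instance
  · exact Finite.of_surjective (fun g : G => g • x) (fun y => trans_of_min hm x y)

end TFING

/-- TARGET -/
theorem t_FING : StFING.{u, v} := by
  intro G _ _ X _ _ _ _ _ _ _ hfree hmin K V hK hV hμ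
  classical
  rcases isEmpty_or_nonempty X with hX | hX
  · refine ⟨0, fun i => i.elim0, fun i => i.elim0, fun i => i.elim0, ?_, fun i => i.elim0,
      fun i => i.elim0⟩
    intro x _
    exact hX.elim x
  have : Finite X := TFING.finite_of_min hmin
  have : DiscreteTopology X := inferInstance
  have : Fintype X := Fintype.ofFinite X
  have hms : ∀ s : Set X, MeasurableSet s := fun s => (isOpen_discrete s).measurableSet
  have : MeasureTheory.IsProbabilityMeasure
      (ProbabilityTheory.uniformOn (Set.univ : Set X)) :=
    ProbabilityTheory.isProbabilityMeasure_uniformOn Set.finite_univ Set.univ_nonempty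
  have hcount : ∀ s : Set X, MeasureTheory.Measure.count s = (s.encard : ENNReal) :=
    fun s => MeasureTheory.Measure.count_apply (hms s)
  have hlt := hμ (ProbabilityTheory.uniformOn (Set.univ : Set X)) inferInstance (by
    intro g s _
    rw [ProbabilityTheory.uniformOn_univ, ProbabilityTheory.uniformOn_univ, hcount, hcount]
    congr 2
    have h1 : (fun x : X => g • x) ⁻¹' s = (MulAction.toPerm g : Equiv.Perm X).symm '' s :=
      ((MulAction.toPerm g : Equiv.Perm X).image_symm_eq_preimage s).symm
    rw [h1, (MulAction.toPerm g : Equiv.Perm X).symm.injective.encard_image])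
  rw [ProbabilityTheory.uniformOn_univ, ProbabilityTheory.uniformOn_univ, hcount, hcount] at hlt
  have hle : K.encard ≤ V.encard := by
    by_contra h
    rw [not_le] at h
    apply absurd hlt
    rw [not_lt]
    exact ENNReal.div_le_div_right (by exact_mod_cast h.le) _
  obtain ⟨f⟩ : Nonempty (K ↪ V) := by
    apply Function.Embedding.nonempty_of_card_le
    rw [← Nat.card_eq_fintype_card, ← Nat.card_eq_fintype_card]
    show K.ncard ≤ V.ncard
    rw [Set.ncard_def, Set.ncard_def]
    exact ENat.toNat_le_toNat hle (Set.encard_ne_top_iff.2 (Set.toFinite V))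
  have ht : ∀ k : K, ∃ g : G, g • k.1 = (f k).1 := fun k => TFING.trans_of_min hmin _ _
  choose t ht using ht
  refine ⟨Fintype.card K, fun i => {((Fintype.equivFin K).symm i).1},
    fun i => t ((Fintype.equivFin K).symm i), fun i => isOpen_discrete _, ?_, ?_, ?_⟩
  · intro x hx
    rw [Set.mem_iUnion]
    refine ⟨Fintype.equivFin K ⟨x, hx⟩, ?_⟩
    rw [Equiv.symm_apply_apply]
    exact Set.mem_singleton x
  · intro i x hx
    rw [Set.mem_singleton_iff] at hx
    subst hx
    rw [ht]
    exact (f _).2
  · intro i j hij x hx x' hx' h
    rw [Set.mem_singleton_iff] at hx hx'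
    subst hx
    subst hx'
    rw [ht, ht] at h
    exact hij ((Fintype.equivFin K).symm.injective (f.injective (Subtype.ext h)))

end Pool.Agent.H107ZS
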