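import Pool.Agent.H107_ZS.DStubs7

/-!
# Averaging the transports on the orbits
-/

set_option autoImplicit false

namespace Pool.Agent.H107ZS

open Topology

universe u v w

namespace TFLW

theorem lc_pi {Y : Type*} [TopologicalSpace Y] {ι β : Type*} [Finite ι] (f : Y → ι → β)
    (h : ∀ i, IsLocallyConstant fun y => f y i) : IsLocallyConstant f := by
  rw [IsLocallyConstant.iff_eventually_eq]
  intro x
  have h1 : ∀ᶠ y in 𝓝 x, ∀ i, f y i = f x i :=
    Filter.eventually_all.2 fun i => (IsLocallyConstant.iff_eventually_eq _).1 (h i) x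
  exact h1.mono fun y hy => funext hy

theorem lc_sum {Y : Type*} [TopologicalSpace Y] {ι : Type*} (s : Finset ι) (f : ι → Y → ℝ)
    (h : ∀ i ∈ s, IsLocallyConstant (f i)) : IsLocallyConstant fun y => ∑ i ∈ s, f i y := by
  rw [IsLocallyConstant.iff_eventually_eq]
  intro x
  have h1 : ∀ᶠ y in 𝓝 x, ∀ i ∈ s, f i y = f i x :=
    (Filter.eventually_all_finset s).2 fun i hi => (IsLocallyConstant.iff_eventually_eq _).1 (h i hi) x
  exact h1.mono fun y hy => Finset.sum_congr rfl hy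

end TFLW

/-- TARGET -/
theorem t_FLW : StFLW.{u, v} := by
  intro G _ Y _ _ _ _ a b D γ hγ hTA hu
  classical
  obtain ⟨F, m, hm1, hm2, hm3, hm4, hm5⟩ := hTA D (γ / (2 * ((D.card : ℝ) + 1))) (by positivity)
  choose u hu1 hu2 hu3 hu4 using hu
  let W : Finset G := (F.image fun s => s⁻¹) ∪ ((D ×ˢ F).image fun x => x.1 * x.2⁻¹)
  have hW1 : ∀ s ∈ F, s⁻¹ ∈ W := fun s hs =>
    Finset.mem_union_left _ (Finset.mem_image.2 ⟨s, hs, rfl⟩)
  have hW2 : ∀ g ∈ D, ∀ s ∈ F, g * s⁻¹ ∈ W := fun g hg s hs =>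
    Finset.mem_union_right _ (Finset.mem_image.2 ⟨(g, s), Finset.mem_product.2 ⟨hg, hs⟩, rfl⟩)
  let P : Y → (W → ℕ × ℕ) := fun z q => (a (q.1 • z), b (q.1 • z))
  have hP : IsLocallyConstant P := by
    refine TFLW.lc_pi P fun q => ?_
    have h1 : Continuous fun z : Y => (a (q.1 • z), b (q.1 • z)) :=
      (a.continuous.comp (continuous_const_smul q.1)).prodMk (b.continuous.comp (continuous_const_smul q.1))
    exact (IsLocallyConstant.iff_continuous _).2 h1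
  let R : (W → ℕ × ℕ) → (G → G → ℝ) := fun p => if h : ∃ z, P z = p then u h.choose else fun _ _ => 0
  let U : Y → G → G → ℝ := fun z => R (P z)
  have hU : ∀ z, ∃ z', P z' = P z ∧ U z = u z' := by
    intro z
    have h : ∃ z', P z' = P z := ⟨z, rfl⟩
    refine ⟨h.choose, h.choose_spec, ?_⟩
    change R (P z) = u h.choose
    simp only [R]
    rw [dif_pos h]
  have hUlc : ∀ q g, IsLocallyConstant fun z => U z q g := fun q g => hP.comp fun p => R p q g
  have hU1 : ∀ z q g, 0 ≤ U z q g := by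
    intro z q g
    obtain ⟨z', _, h2⟩ := hU z
    rw [h2]; exact hu1 z' q g
  have hU2 : ∀ z q g, U z q g ≠ 0 → g ∈ D := by
    intro z q g
    obtain ⟨z', _, h2⟩ := hU z
    rw [h2]; exact hu2 z' q g
  have hU3 : ∀ z, ∀ q ∈ W, ∑ g ∈ D, U z q g = a (q • z) := by
    intro z q hq
    obtain ⟨z', h1, h2⟩ := hU z
    have h3 : (a (q • z'), b (q • z')) = (a (q • z), b (q • z)) := congrFun h1 ⟨q, hq⟩
    rw [h2, hu3 z' q]
    exact_mod_cast congrArg Prod.fst h3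
  have hU4 : ∀ z, ∀ r ∈ W, ∑ g ∈ D, U z (g⁻¹ * r) g ≤ (1 - γ) * b (r • z) := by
    intro z r hr
    obtain ⟨z', h1, h2⟩ := hU z
    have h3 : (a (r • z'), b (r • z')) = (a (r • z), b (r • z)) := congrFun h1 ⟨r, hr⟩
    have h4 : b (r • z') = b (r • z) := congrArg Prod.snd h3
    rw [h2, ← h4]
    exact hu4 z' r
  refine ⟨fun y g => ∑ s ∈ F, m y s * U (s • y) s⁻¹ g, ?_, ?_, ?_, ?_, ?_⟩
  · intro g
    refine TFLW.lc_sum F (fun s y => m y s * U (s • y) s⁻¹ g) fun s _ => ?_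
    exact (hm1 s).mul ((hUlc s⁻¹ g).comp_continuous (continuous_const_smul s))
  · intro y g
    exact Finset.sum_nonneg fun s _ => mul_nonneg (hm2 y s) (hU1 _ _ _)
  · intro y g h
    obtain ⟨s, _, hs⟩ := Finset.exists_ne_zero_of_sum_ne_zero h
    exact hU2 _ _ _ (right_ne_zero_of_mul hs)
  · intro y
    rw [Finset.sum_comm]
    have h1 : ∀ s ∈ F, ∑ g ∈ D, m y s * U (s • y) s⁻¹ g = m y s * a y := by
      intro s hs
      rw [← Finset.mul_sum, hU3 (s • y) s⁻¹ (hW1 s hs), inv_smul_smul]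
    rw [Finset.sum_congr rfl h1, ← Finset.sum_mul, hm4 y, one_mul]
  · intro w
    have hb0 : (0 : ℝ) ≤ b w := Nat.cast_nonneg _
    -- the size of a single term
    have hT : ∀ g ∈ D, ∀ s ∈ F, U (s • g⁻¹ • w) s⁻¹ g ≤ b w := by
      intro g hg s hs
      have h1 := hU4 (s • g⁻¹ • w) (g * s⁻¹) (hW2 g hg s hs)
      have h2 : (g * s⁻¹) • s • g⁻¹ • w = w := by
        rw [mul_smul, inv_smul_smul, smul_inv_smul]
      rw [h2] at h1
      have h3 : U (s • g⁻¹ • w) (g⁻¹ * (g * s⁻¹)) g ≤ ∑ g' ∈ D, U (s • g⁻¹ • w) (g'⁻¹ * (g * s⁻¹)) g' :=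
        Finset.single_le_sum (f := fun g' => U (s • g⁻¹ • w) (g'⁻¹ * (g * s⁻¹)) g')
          (fun g' _ => hU1 _ _ _) hg
      rw [inv_mul_cancel_left] at h3
      nlinarith
    -- the main part
    have hmain : ∑ g ∈ D, ∑ s ∈ F, m w (s * g⁻¹) * U (s • g⁻¹ • w) s⁻¹ g ≤ (1 - γ) * b w := by
      have h1 : ∀ g ∈ D, ∑ s ∈ F, m w (s * g⁻¹) * U (s • g⁻¹ • w) s⁻¹ g ≤
          ∑ s' ∈ F, m w s' * U (s' • w) (g⁻¹ * s'⁻¹) g := by
        intro g _
        have h2 : ∑ s ∈ F, m w (s * g⁻¹) * U (s • g⁻¹ • w) s⁻¹ g =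
            ∑ s' ∈ F.image (fun s => s * g⁻¹), m w s' * U (s' • w) (g⁻¹ * s'⁻¹) g := by
          rw [Finset.sum_image fun x _ y _ hxy => mul_right_cancel hxy]
          refine Finset.sum_congr rfl fun s _ => ?_
          rw [mul_smul, mul_inv_rev, inv_inv, inv_mul_cancel_left]
        rw [h2, ← Finset.sum_filter_add_sum_filter_not (F.image fun s => s * g⁻¹) (fun s' => s' ∈ F)]
        have h3 : ∑ s' ∈ (F.image fun s => s * g⁻¹).filter (fun s' => ¬ s' ∈ F),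
            m w s' * U (s' • w) (g⁻¹ * s'⁻¹) g = 0 := by
          refine Finset.sum_eq_zero fun s' hs' => ?_
          rw [hm3 w s' (Finset.mem_filter.1 hs').2, zero_mul]
        rw [h3, add_zero]
        refine Finset.sum_le_sum_of_subset_of_nonneg (fun s' hs' => (Finset.mem_filter.1 hs').2) ?_
        intro s' _ _
        exact mul_nonneg (hm2 _ _) (hU1 _ _ _)
      refine (Finset.sum_le_sum h1).trans ?_
      rw [Finset.sum_comm]
      have h4 : ∀ s' ∈ F, ∑ g ∈ D, m w s' * U (s' • w) (g⁻¹ * s'⁻¹) g ≤ m w s' * ((1 - γ) * b w) := by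
        intro s' hs'
        rw [← Finset.mul_sum]
        have h5 := hU4 (s' • w) s'⁻¹ (hW1 s' hs')
        rw [inv_smul_smul] at h5
        exact mul_le_mul_of_nonneg_left h5 (hm2 _ _)
      refine (Finset.sum_le_sum h4).trans ?_
      rw [← Finset.sum_mul, hm4 w, one_mul]
    -- the error
    have herr : ∑ g ∈ D, ∑ s ∈ F, (m (g⁻¹ • w) s - m w (s * g⁻¹)) * U (s • g⁻¹ • w) s⁻¹ g ≤ γ / 2 * b w := by
      have h1 : ∀ g ∈ D, ∑ s ∈ F, (m (g⁻¹ • w) s - m w (s * g⁻¹)) * U (s • g⁻¹ • w) s⁻¹ g ≤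
          γ / (2 * ((D.card : ℝ) + 1)) * b w := by
        intro g hg
        have h2 := hm5 g hg (g⁻¹ • w)
        rw [smul_inv_smul] at h2
        calc ∑ s ∈ F, (m (g⁻¹ • w) s - m w (s * g⁻¹)) * U (s • g⁻¹ • w) s⁻¹ g
            ≤ ∑ s ∈ F, |m (g⁻¹ • w) s - m w (s * g⁻¹)| * b w := by
              refine Finset.sum_le_sum fun s hs => ?_
              calc (m (g⁻¹ • w) s - m w (s * g⁻¹)) * U (s • g⁻¹ • w) s⁻¹ g
                  ≤ |m (g⁻¹ • w) s - m w (s * g⁻¹)| * U (s • g⁻¹ • w) s⁻¹ g :=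
                    mul_le_mul_of_nonneg_right (le_abs_self _) (hU1 _ _ _)
                _ ≤ _ := mul_le_mul_of_nonneg_left (hT g hg s hs) (abs_nonneg _)
          _ = (∑ s ∈ F, |m (g⁻¹ • w) s - m w (s * g⁻¹)|) * b w := by rw [Finset.sum_mul]
          _ ≤ γ / (2 * ((D.card : ℝ) + 1)) * b w := mul_le_mul_of_nonneg_right h2 hb0
      refine (Finset.sum_le_sum h1).trans ?_
      rw [Finset.sum_const, nsmul_eq_mul]
      have hD : (0 : ℝ) ≤ D.card := Nat.cast_nonneg _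
      have h3 : (D.card : ℝ) * (γ / (2 * ((D.card : ℝ) + 1)) * b w) =
          ((D.card : ℝ) / ((D.card : ℝ) + 1)) * (γ / 2 * b w) := by
        field_simp
      rw [h3]
      have h4 : (D.card : ℝ) / ((D.card : ℝ) + 1) ≤ 1 := by
        rw [div_le_one (by linarith)]; linarith
      have h5 : 0 ≤ γ / 2 * (b w : ℝ) := by positivity
      nlinarith
    have hsplit : ∑ g ∈ D, ∑ s ∈ F, m (g⁻¹ • w) s * U (s • g⁻¹ • w) s⁻¹ g =
        ∑ g ∈ D, ∑ s ∈ F, m w (s * g⁻¹) * U (s • g⁻¹ • w) s⁻¹ g +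
        ∑ g ∈ D, ∑ s ∈ F, (m (g⁻¹ • w) s - m w (s * g⁻¹)) * U (s • g⁻¹ • w) s⁻¹ g := by
      rw [← Finset.sum_add_distrib]
      refine Finset.sum_congr rfl fun g _ => ?_
      rw [← Finset.sum_add_distrib]
      refine Finset.sum_congr rfl fun s _ => ?_
      ring
    change ∑ g ∈ D, ∑ s ∈ F, m (g⁻¹ • w) s * U (s • g⁻¹ • w) s⁻¹ g ≤ (1 - γ / 2) * b w
    rw [hsplit]
    linarith

end Pool.Agent.H107ZS
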