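import Pool.Agent.H107_ZS.DStubs7

set_option autoImplicit false

namespace Pool.Agent.H107ZS

open Topology

universe u v w

namespace THALL

open scoped Pointwise

theorem bound {Y : Type v} [TopologicalSpace Y] [CompactSpace Y] (a : C(Y, ℕ)) :
    ∃ M : ℕ, ∀ y, a y ≤ M := by
  obtain ⟨M, hM⟩ := (isCompact_range a.continuous).bddAbove
  exact ⟨M, fun y => hM ⟨y, rfl⟩⟩

theorem growth (c : ℕ → ℕ) (ε : ℝ) (hε : 0 < ε) (L : ℕ)
    (h : ∀ k < L, (1 + ε) * (c k : ℝ) < c (k + 1)) : (1 + ε) ^ L * (c 0 : ℝ) ≤ c L := by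
  induction L with
  | zero => simp
  | succ L ih =>
    have h1 := ih (fun k hk => h k (by omega))
    have h2 := h L (by omega)
    calc (1 + ε) ^ (L + 1) * (c 0 : ℝ) = (1 + ε) * ((1 + ε) ^ L * (c 0 : ℝ)) := by ring
      _ ≤ (1 + ε) * (c L : ℝ) := mul_le_mul_of_nonneg_left h1 (by linarith)
      _ ≤ c (L + 1) := h2.le

variable {G : Type u} [Group G] [DecidableEq G]

theorem F_succ (S Q : Finset G) (k : ℕ) : S ^ (k + 1) * Q = S * (S ^ k * Q) := by
  rw [pow_succ', mul_assoc]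

theorem F_mono (S Q : Finset G) (h1 : (1 : G) ∈ S) (k l : ℕ) (h : k ≤ l) :
    S ^ k * Q ⊆ S ^ l * Q := by
  induction l, h using Nat.le_induction with
  | base => exact subset_rfl
  | succ l _ ih =>
    refine ih.trans ?_
    rw [F_succ]
    exact Finset.subset_mul_right _ h1

theorem full {Y : Type v} [MulAction G Y] (b : Y → ℕ) (E S F : Finset G) (hES : E ⊆ S)
    (hE : ∀ y : Y, ∃ g ∈ E, 1 ≤ b (g • y)) (y : Y) :
    (F.card : ℝ) ≤ E.card * ∑ r ∈ S * F, (b (r • y) : ℝ) := by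
  calc (F.card : ℝ) = ∑ f ∈ F, (1 : ℝ) := by simp
    _ ≤ ∑ f ∈ F, ∑ e ∈ E, (b ((e * f) • y) : ℝ) := by
        refine Finset.sum_le_sum fun f _ => ?_
        obtain ⟨e, he, h1⟩ := hE (f • y)
        rw [← mul_smul] at h1
        calc (1 : ℝ) ≤ (b ((e * f) • y) : ℝ) := by exact_mod_cast h1
          _ ≤ ∑ e ∈ E, (b ((e * f) • y) : ℝ) :=
            Finset.single_le_sum (f := fun e => (b ((e * f) • y) : ℝ))
              (fun _ _ => Nat.cast_nonneg _) he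
    _ = ∑ e ∈ E, ∑ f ∈ F, (b ((e * f) • y) : ℝ) := Finset.sum_comm
    _ ≤ ∑ e ∈ E, ∑ r ∈ S * F, (b (r • y) : ℝ) := by
        refine Finset.sum_le_sum fun e he => ?_
        rw [← Finset.sum_image (s := F) (g := fun f => e * f)
          (f := fun r => (b (r • y) : ℝ)) (fun _ _ _ _ h => mul_left_cancel h)]
        refine Finset.sum_le_sum_of_subset_of_nonneg ?_ (fun _ _ _ => Nat.cast_nonneg _)
        intro r hr
        obtain ⟨f, hf, rfl⟩ := Finset.mem_image.mp hr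
        exact Finset.mul_mem_mul (hES he) hf
    _ = E.card * ∑ r ∈ S * F, (b (r • y) : ℝ) := by
        rw [Finset.sum_const, nsmul_eq_mul]

theorem fol (K S F : Finset G) (ε : ℝ) (hKS : K ⊆ S) (h1 : (1 : G) ∈ S) (hF : F.Nonempty)
    (hc : ((S * F).card : ℝ) ≤ (1 + ε) * F.card) : Fol K ε F := by
  refine ⟨hF, fun g hg => ?_⟩
  have h2 : F ⊆ S * F := Finset.subset_mul_right _ h1
  have h3 : ((S * F) \ F).card + F.card = (S * F).card := Finset.card_sdiff_add_card_eq_card h2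
  have h4 : (F.filter fun s => g * s ∉ F).card ≤ ((S * F) \ F).card := by
    apply Finset.card_le_card_of_injOn (fun s => g * s)
    · intro s hs
      have hs' := Finset.mem_filter.mp hs
      exact Finset.mem_sdiff.mpr ⟨Finset.mul_mem_mul (hKS hg) hs'.1, hs'.2⟩
    · intro s _ t _ h
      exact mul_left_cancel h
  have h5 : (((S * F) \ F).card : ℝ) + F.card = (S * F).card := by exact_mod_cast h3
  have h6 : ((F.filter fun s => g * s ∉ F).card : ℝ) ≤ ((S * F) \ F).card := by exact_mod_cast h4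
  have h7 : ((F.filter fun s => g * s ∉ F).card : ℝ) ≤ ε * F.card := by linarith
  convert h7

end THALL

open scoped Pointwise in
/-- TARGET -/
theorem t_HALL : StHALL.{u, v} := by
  classical
  intro G _ Y _ _ _ a b K ε γ hε hγ hF E hE
  obtain ⟨M1, hM1⟩ := THALL.bound a
  obtain ⟨M2, hM2⟩ := THALL.bound b
  obtain ⟨M, hM, hMa, hMb⟩ : ∃ M : ℕ, 1 ≤ M ∧ (∀ y, a y ≤ M) ∧ ∀ y, b y ≤ M :=
    ⟨M1 + M2 + 1, by omega, fun y => (hM1 y).trans (by omega), fun y => (hM2 y).trans (by omega)⟩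
  have hMr : (1 : ℝ) ≤ M := by exact_mod_cast hM
  have hMpos : (0 : ℝ) < M := by linarith
  set γ1 : ℝ := min γ 1 with hγ1
  have hγ1pos : 0 < γ1 := lt_min hγ one_pos
  have hγ1le : γ1 ≤ 1 := min_le_right _ _
  have hγ1γ : γ1 ≤ γ := min_le_left _ _
  set δ : ℝ := γ1 / M with hδ
  have hδpos : 0 < δ := div_pos hγ1pos hMpos
  have hδle : δ ≤ 1 := by
    rw [hδ, div_le_one hMpos]
    linarith
  obtain ⟨N0, hN0⟩ := exists_nat_gt (1 / δ)
  set N : ℕ := N0 + 1 with hN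
  have hN1 : (1 : ℝ) ≤ N := by
    rw [hN]
    push_cast
    linarith [(Nat.cast_nonneg N0 : (0 : ℝ) ≤ N0)]
  have hNδ : 1 ≤ δ * ((N : ℝ) + 1) := by
    have h1 : 1 / δ < (N : ℝ) + 1 := by
      rw [hN]
      push_cast
      linarith
    rw [div_lt_iff₀ hδpos] at h1
    linarith
  set S : Finset G := insert 1 (K ∪ E) with hS
  have h1S : (1 : G) ∈ S := Finset.mem_insert_self _ _
  have hKS : K ⊆ S := fun g hg => Finset.mem_insert_of_mem (Finset.mem_union_left _ hg)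
  have hES : E ⊆ S := fun g hg => Finset.mem_insert_of_mem (Finset.mem_union_right _ hg)
  obtain ⟨L, hL⟩ : ∃ L : ℕ, (E.card : ℝ) * (2 * M) < (1 + ε) ^ L :=
    pow_unbounded_of_one_lt _ (by linarith)
  refine ⟨S ^ (L + 1), N, fun y Q R hR => ?_⟩
  by_contra hcon
  push Not at hcon
  have hRsub : S ^ (L + 1) * Q ⊆ R := by
    intro r hr
    obtain ⟨d, hd, q, hq, rfl⟩ := Finset.mem_mul.mp hr
    exact hR d hd q hq
  have hcon' : (N : ℝ) * ∑ r ∈ R, (b (r • y) : ℝ) < (N + 1) * ∑ q ∈ Q, (a (q • y) : ℝ) := by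
    exact_mod_cast hcon
  have hb0 : ∀ T : Finset G, 0 ≤ ∑ r ∈ T, (b (r • y) : ℝ) := fun T =>
    Finset.sum_nonneg fun _ _ => Nat.cast_nonneg _
  have hbM : ∀ T : Finset G, ∑ r ∈ T, (b (r • y) : ℝ) ≤ M * T.card := fun T => by
    calc ∑ r ∈ T, (b (r • y) : ℝ) ≤ ∑ r ∈ T, (M : ℝ) :=
          Finset.sum_le_sum fun r _ => by exact_mod_cast hMb (r • y)
      _ = M * T.card := by rw [Finset.sum_const, nsmul_eq_mul, mul_comm]
  have haM : ∀ T : Finset G, ∑ r ∈ T, (a (r • y) : ℝ) ≤ M * T.card := fun T => by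
    calc ∑ r ∈ T, (a (r • y) : ℝ) ≤ ∑ r ∈ T, (M : ℝ) :=
          Finset.sum_le_sum fun r _ => by exact_mod_cast hMa (r • y)
      _ = M * T.card := by rw [Finset.sum_const, nsmul_eq_mul, mul_comm]
  have hbsub : ∀ T T' : Finset G, T ⊆ T' →
      ∑ r ∈ T, (b (r • y) : ℝ) ≤ ∑ r ∈ T', (b (r • y) : ℝ) := fun T T' h =>
    Finset.sum_le_sum_of_subset_of_nonneg h fun _ _ _ => Nat.cast_nonneg _
  have hasub : ∀ T T' : Finset G, T ⊆ T' →
      ∑ r ∈ T, (a (r • y) : ℝ) ≤ ∑ r ∈ T', (a (r • y) : ℝ) := fun T T' h =>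
    Finset.sum_le_sum_of_subset_of_nonneg h fun _ _ _ => Nat.cast_nonneg _
  -- `Q` is not empty
  have hQpos : (0 : ℝ) < Q.card := by
    have h1 := haM Q
    have h2 := hb0 R
    have h3 : 0 < ((N : ℝ) + 1) * ∑ q ∈ Q, (a (q • y) : ℝ) :=
      lt_of_le_of_lt (mul_nonneg (by linarith) h2) hcon'
    have h4 : 0 < ∑ q ∈ Q, (a (q • y) : ℝ) := pos_of_mul_pos_right h3 (by linarith)
    have h5 : 0 < (M : ℝ) * Q.card := lt_of_lt_of_le h4 h1
    exact pos_of_mul_pos_right h5 hMpos.le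
  have hQ : Q.Nonempty := by
    rw [← Finset.card_pos]
    exact_mod_cast hQpos
  -- the sum over `F (L + 1)` is small
  have hsmall : ∑ r ∈ S ^ (L + 1) * Q, (b (r • y) : ℝ) ≤ 2 * M * Q.card := by
    have h1 := hbsub _ _ hRsub
    have h2 := haM Q
    have h3 : (N : ℝ) * ∑ r ∈ R, (b (r • y) : ℝ) ≤ (N + 1) * (M * Q.card) :=
      hcon'.le.trans (mul_le_mul_of_nonneg_left h2 (by linarith))
    have h4 : ((N : ℝ) + 1) * (M * Q.card) ≤ N * (2 * M * Q.card) := by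
      have : (0 : ℝ) ≤ M * Q.card := by positivity
      nlinarith
    have h5 : ∑ r ∈ R, (b (r • y) : ℝ) ≤ 2 * M * Q.card :=
      le_of_mul_le_mul_left (h3.trans h4) (by linarith)
    linarith
  -- some `F k` is a Følner set
  obtain ⟨k, hk, hck⟩ : ∃ k < L, ((S ^ (k + 1) * Q).card : ℝ) ≤ (1 + ε) * (S ^ k * Q).card := by
    by_contra hno
    push Not at hno
    have h1 := THALL.growth (fun k => (S ^ k * Q).card) ε hε L hno
    simp only [pow_zero, one_mul] at h1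
    have h2 := THALL.full (fun y => b y) E S (S ^ L * Q) hES hE y
    rw [← THALL.F_succ] at h2
    have h3 : (E.card : ℝ) * ∑ r ∈ S ^ (L + 1) * Q, (b (r • y) : ℝ) ≤
        E.card * (2 * M * Q.card) := mul_le_mul_of_nonneg_left hsmall (Nat.cast_nonneg _)
    have h4 : (E.card : ℝ) * (2 * M) * Q.card < (1 + ε) ^ L * Q.card :=
      mul_lt_mul_of_pos_right hL hQpos
    have h5 : (1 + ε) ^ L * (Q.card : ℝ) ≤ E.card * (2 * M * Q.card) := h1.trans (h2.trans h3)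
    linarith [h5, h4, (by ring : (E.card : ℝ) * (2 * M) * Q.card = E.card * (2 * M * Q.card))]
  rw [THALL.F_succ] at hck
  have hFne : (S ^ k * Q).Nonempty := by
    refine Finset.Nonempty.mono ?_ hQ
    have := THALL.F_mono S Q h1S 0 k (Nat.zero_le _)
    simpa using this
  have hfol := THALL.fol K S (S ^ k * Q) ε hKS h1S hFne hck
  have hav := hF _ hfol y
  have hav1 : γ1 * ((S ^ k * Q).card : ℝ) + ∑ s ∈ S ^ k * Q, (a (s • y) : ℝ) ≤
      ∑ s ∈ S ^ k * Q, (b (s • y) : ℝ) := by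
    have : γ1 * ((S ^ k * Q).card : ℝ) ≤ γ * (S ^ k * Q).card :=
      mul_le_mul_of_nonneg_right hγ1γ (Nat.cast_nonneg _)
    linarith
  have hδF : δ * ∑ s ∈ S ^ k * Q, (b (s • y) : ℝ) ≤ γ1 * (S ^ k * Q).card := by
    have h1 := mul_le_mul_of_nonneg_left (hbM (S ^ k * Q)) hδpos.le
    have h2 : δ * (M * ((S ^ k * Q).card : ℝ)) = γ1 * (S ^ k * Q).card := by
      rw [hδ]
      field_simp
    linarith
  have hQF : ∑ q ∈ Q, (a (q • y) : ℝ) ≤ ∑ s ∈ S ^ k * Q, (a (s • y) : ℝ) := by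
    apply hasub
    have := THALL.F_mono S Q h1S 0 k (Nat.zero_le _)
    simpa using this
  have hFR : ∑ s ∈ S ^ k * Q, (b (s • y) : ℝ) ≤ ∑ r ∈ R, (b (r • y) : ℝ) :=
    hbsub _ _ ((THALL.F_mono S Q h1S k (L + 1) (by omega)).trans hRsub)
  set qa : ℝ := ∑ q ∈ Q, (a (q • y) : ℝ) with hqa
  set fb : ℝ := ∑ s ∈ S ^ k * Q, (b (s • y) : ℝ) with hfb
  set rb : ℝ := ∑ r ∈ R, (b (r • y) : ℝ) with hrb
  have h1 : qa ≤ (1 - δ) * fb := by linarith
  have h2 : (1 - δ) * fb ≤ (1 - δ) * rb := mul_le_mul_of_nonneg_left hFR (by linarith)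
  have h3 : qa ≤ (1 - δ) * rb := h1.trans h2
  have h4 : ((N : ℝ) + 1) * qa ≤ (N + 1) * ((1 - δ) * rb) :=
    mul_le_mul_of_nonneg_left h3 (by linarith)
  have h5 : ((N : ℝ) + 1) * ((1 - δ) * rb) ≤ N * rb := by
    have h6 : 0 ≤ rb := hb0 R
    nlinarith [mul_nonneg h6 (sub_nonneg.mpr hNδ)]
  linarith

end Pool.Agent.H107ZS
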