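import Pool.Agent.H107_ZS.DStubs7

/-!
# MEA: clopen approximations and invariant measures (job ZD_MEA, helper219 for helper107)

An invariant state of `C(Y, ℝ)` gives a measure `ν` on `Y`; its image `μ` on `X` is invariant, so
`ν (π⁻¹ K) = μ K < μ V = μ (V \ {z}) = ν (π⁻¹ (V \ {z}))`; the clopen sets `A n` decrease to `π⁻¹ K`
and the clopen sets `B n` increase to `π⁻¹ (V \ {z})`.
-/

set_option autoImplicit false

namespace Pool.Agent.H107ZS

open Topology

universe u v w

namespace TMEA

open MeasureTheory Filter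
open scoped CompactlySupported BoundedContinuousFunction

/-- a clopen set between a closed set and an open set -/
theorem clop {Y : Type*} [TopologicalSpace Y] [CompactSpace Y] [T2Space Y]
    [TotallyDisconnectedSpace Y] {C O : Set Y} (hC : IsClosed C) (hO : IsOpen O) (h : C ⊆ O) :
    ∃ D : Set Y, IsClopen D ∧ C ⊆ D ∧ D ⊆ O := by
  refine hC.isCompact.induction_on (p := fun s => ∃ D : Set Y, IsClopen D ∧ s ⊆ D ∧ D ⊆ O)
    ⟨∅, isClopen_empty, le_refl _, Set.empty_subset _⟩ ?_ ?_ ?_
  · rintro s t hst ⟨D, h1, h2, h3⟩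
    exact ⟨D, h1, hst.trans h2, h3⟩
  · rintro s t ⟨D, h1, h2, h3⟩ ⟨E, e1, e2, e3⟩
    exact ⟨D ∪ E, h1.union e1, Set.union_subset_union h2 e2, Set.union_subset h3 e3⟩
  · intro x hx
    obtain ⟨D, h1, h2, h3⟩ := compact_exists_isClopen_in_isOpen hO (h hx)
    exact ⟨D, mem_nhdsWithin_of_mem_nhds (h1.isOpen.mem_nhds h2), D, h1, le_refl _, h3⟩

/-- the theorem of Riesz for states -/
theorem riesz {Y : Type*} [TopologicalSpace Y] [CompactSpace Y] [T2Space Y] [MeasurableSpace Y]
    [BorelSpace Y] (Λ : C(Y, ℝ) →ₗ[ℝ] ℝ) (h1 : Λ 1 = 1) (hp : ∀ f : C(Y, ℝ), 0 ≤ f → 0 ≤ Λ f) :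
    ∃ ν : Measure Y, IsProbabilityMeasure ν ∧ ∀ f : C(Y, ℝ), ∫ y, f y ∂ν = Λ f := by
  let L : C_c(Y, ℝ) →ₗ[ℝ] ℝ :=
    { toFun := fun f => Λ f.toContinuousMap
      map_add' := fun f g => Λ.map_add f.toContinuousMap g.toContinuousMap
      map_smul' := fun c f => Λ.map_smul c f.toContinuousMap }
  let Λ' : C_c(Y, ℝ) →ₚ[ℝ] ℝ := PositiveLinearMap.mk₀ L (fun f hf =>
    hp f.toContinuousMap (fun t => hf t))
  have hΛ : ∀ f : C(Y, ℝ), ∫ t, f t ∂(RealRMK.rieszMeasure Λ') = Λ f := by
    intro f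
    have := RealRMK.integral_rieszMeasure Λ'
      ({ toFun := f
         hasCompactSupport' := HasCompactSupport.of_compactSpace _ } : C_c(Y, ℝ))
    exact this
  refine ⟨RealRMK.rieszMeasure Λ', ?_, hΛ⟩
  have h2 := hΛ 1
  rw [h1] at h2
  simp only [ContinuousMap.one_apply, integral_const, smul_eq_mul, mul_one] at h2
  constructor
  rw [measureReal_def] at h2
  rw [← ENNReal.toReal_eq_one_iff]
  exact h2

/-- points have measure zero -/
theorem point {G : Type*} [Group G] [Infinite G] {X : Type*} [MeasurableSpace X]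
    [MeasurableSingletonClass X] [MulAction G X] (hfree : FreeAct G X) (μ : Measure X)
    [IsProbabilityMeasure μ]
    (hinv : ∀ (g : G) (s : Set X), MeasurableSet s → μ ((fun x => g • x) ⁻¹' s) = μ s) (z : X) :
    μ {z} = 0 := by
  by_contra hc
  have hpos : 0 < μ {z} := pos_iff_ne_zero.2 hc
  have heq : ∀ g : G, μ {g • z} = μ {z} := by
    intro g
    rw [← hinv g {g • z} (measurableSet_singleton _)]
    congr 1
    ext x
    simp only [Set.mem_preimage, Set.mem_singleton_iff]
    exact smul_left_cancel_iff g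
  have hinj : ∀ g h : G, g • z = h • z → g = h := by
    intro g h e
    have h1 : (h⁻¹ * g) • z = z := by rw [mul_smul, e, inv_smul_smul]
    have h2 := hfree _ _ h1
    exact (inv_mul_eq_one.1 h2).symm
  have hfin := Measure.finite_const_le_meas_of_disjoint_iUnion μ hpos (As := fun g : G => {g • z})
    (fun g => measurableSet_singleton _) (by
      intro g h hgh
      simp only [Function.onFun, Set.disjoint_singleton]
      exact fun e => hgh (hinj g h e)) (measure_ne_top μ _)
  have huniv : {g : G | μ {z} ≤ μ {g • z}} = Set.univ := by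
    ext g
    simp [heq g]
  rw [huniv] at hfin
  exact Set.infinite_univ hfin

end TMEA

open MeasureTheory Filter in
open scoped BoundedContinuousFunction in
/-- TARGET -/
theorem t_MEA : StMEA.{u, v} := by
  intro G _ _ X _ _ _ _ _ _ _ Y _ _ _ _ _ _ π hfree hπ hequiv K V z hK hV hμ
  let _ := TopologicalSpace.metrizableSpaceMetric X
  -- the closed sets exhausting `V \ {z}`
  have hV' : IsOpen (V \ {z}) := hV.sdiff isClosed_singleton
  obtain ⟨F, hFc, hFV, hFU, -⟩ := hV'.exists_iUnion_isClosed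
  obtain ⟨E, hEc, hEV, hEU, -⟩ := (hK.isClosed.isOpen_compl).exists_iUnion_isClosed
  have hA' : ∀ n, ∃ D : Set Y, IsClopen D ∧ π ⁻¹' K ⊆ D ∧ D ⊆ π ⁻¹' (E n)ᶜ := fun n =>
    TMEA.clop (hK.isClosed.preimage hπ) ((hEc n).isOpen_compl.preimage hπ) (by
      intro y hy hy2
      exact hEV n hy2 hy)
  have hB' : ∀ n, ∃ D : Set Y, IsClopen D ∧ π ⁻¹' (F n) ⊆ D ∧ D ⊆ π ⁻¹' (V \ {z}) := fun n =>
    TMEA.clop ((hFc n).preimage hπ) (hV'.preimage hπ) (fun y hy => hFV n hy)
  choose A' hA1 hA2 hA3 using hA'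
  choose B' hB1 hB2 hB3 using hB'
  -- the monotone sequences
  have hAcl : ∀ n, IsClopen (⋂ i ∈ Finset.range (n + 1), A' i) := fun n =>
    isClopen_biInter_finset fun i _ => hA1 i
  have hBcl : ∀ n, IsClopen (⋃ i ∈ Finset.range (n + 1), B' i) := fun n =>
    isClopen_biUnion_finset fun i _ => hB1 i
  have hAanti : ∀ m n, m ≤ n → (⋂ i ∈ Finset.range (n + 1), A' i) ⊆
      ⋂ i ∈ Finset.range (m + 1), A' i := by
    intro m n hmn y hy
    rw [Set.mem_iInter₂] at hy ⊢
    intro i hi
    exact hy i (Finset.mem_range.2 (by have := Finset.mem_range.1 hi; omega))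
  have hBmono : ∀ m n, m ≤ n → (⋃ i ∈ Finset.range (m + 1), B' i) ⊆
      ⋃ i ∈ Finset.range (n + 1), B' i := by
    intro m n hmn y hy
    rw [Set.mem_iUnion₂] at hy ⊢
    obtain ⟨i, hi, h⟩ := hy
    exact ⟨i, Finset.mem_range.2 (by have := Finset.mem_range.1 hi; omega), h⟩
  have hKA : ∀ n, π ⁻¹' K ⊆ ⋂ i ∈ Finset.range (n + 1), A' i := by
    intro n y hy
    rw [Set.mem_iInter₂]
    exact fun i _ => hA2 i hy
  have hBV : ∀ n, (⋃ i ∈ Finset.range (n + 1), B' i) ⊆ π ⁻¹' (V \ {z}) := by
    intro n y hy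
    rw [Set.mem_iUnion₂] at hy
    obtain ⟨i, _, h⟩ := hy
    exact hB3 i h
  have hFB : ∀ n, π ⁻¹' (F n) ⊆ ⋃ i ∈ Finset.range (n + 1), B' i := by
    intro n y hy
    rw [Set.mem_iUnion₂]
    exact ⟨n, Finset.mem_range.2 (Nat.lt_succ_self n), hB2 n hy⟩
  refine ⟨fun n => ⋂ i ∈ Finset.range (n + 1), A' i, fun n => ⋃ i ∈ Finset.range (n + 1), B' i,
    hAcl, hBcl, fun n => hAanti n (n + 1) (Nat.le_succ n), fun n => hBmono n (n + 1) (Nat.le_succ n),
    hKA, fun n y hy => hBV n hy, ?_, ?_⟩
  · intro x hxV hxz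
    have hx : x ∈ ⋃ n, F n := by rw [hFU]; exact ⟨hxV, hxz⟩
    obtain ⟨n, hn⟩ := Set.mem_iUnion.1 hx
    refine ⟨n, (π '' (⋃ i ∈ Finset.range (n + 1), B' i)ᶜ)ᶜ, ?_, ?_, ?_⟩
    · rw [isOpen_compl_iff]
      exact ((hBcl n).compl.isClosed.isCompact.image hπ).isClosed
    · rintro ⟨y, hy, hyx⟩
      exact hy (hFB n (show π y ∈ F n by rw [hyx]; exact hn))
    · intro y hy
      by_contra hc
      exact hy ⟨y, hc, rfl⟩
  · intro Λ hΛ φ hφ
    let _ : MeasurableSpace Y := borel Y
    have : BorelSpace Y := ⟨rfl⟩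
    obtain ⟨ν, hν1, hν⟩ := TMEA.riesz Λ hΛ.one hΛ.nonneg
    have hπm : Measurable π := hπ.measurable
    have hμp : IsProbabilityMeasure (ν.map π) := Measure.isProbabilityMeasure_map hπm.aemeasurable
    have hinv : ∀ (g : G) (s : Set X), MeasurableSet s →
        (ν.map π) ((fun x => g • x) ⁻¹' s) = (ν.map π) s := by
      intro g s hs
      have hgm : Measurable (fun x : X => g • x) := (continuous_const_smul g).measurable
      have hfin : IsFiniteMeasure ((ν.map π).map (fun x => g • x)) :=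
        Measure.isFiniteMeasure_map _ _
      have hmap : (ν.map π).map (fun x => g • x) = ν.map π := by
        refine ext_of_forall_integral_eq_of_IsFiniteMeasure fun f => ?_
        rw [integral_map hgm.aemeasurable f.continuous.aestronglyMeasurable,
          integral_map (f := fun x => f (g • x)) hπm.aemeasurable
            ((f.continuous.comp (continuous_const_smul g)).aestronglyMeasurable),
          integral_map hπm.aemeasurable f.continuous.aestronglyMeasurable]
        have h1 := hν ⟨fun y => f (π y), f.continuous.comp hπ⟩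
        have h2 := hν ((⟨fun y => f (π y), f.continuous.comp hπ⟩ : C(Y, ℝ)).comp (tr g))
        rw [hΛ.inv g trivial, ← h1] at h2
        simp only [ContinuousMap.comp_apply, ContinuousMap.coe_mk, tr, hequiv] at h2
        exact h2
      have h3 := congrArg (fun m : Measure X => m s) hmap
      rw [Measure.map_apply hgm hs] at h3
      exact h3
    have hKV : (ν.map π) K < (ν.map π) (V \ {z}) := by
      rw [measure_sdiff_null (TMEA.point hfree (ν.map π) hinv z)]
      exact hμ _ hμp hinv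
    rw [Measure.map_apply hπm hK.isClosed.measurableSet,
      Measure.map_apply hπm hV'.measurableSet] at hKV
    have hIA : ⋂ n, (⋂ i ∈ Finset.range (n + 1), A' i) = π ⁻¹' K := by
      refine Set.Subset.antisymm ?_ (Set.subset_iInter hKA)
      intro y hy
      by_contra hc
      have hy2 : π y ∈ ⋃ n, E n := by rw [hEU]; exact hc
      obtain ⟨n, hn⟩ := Set.mem_iUnion.1 hy2
      have h1 := Set.mem_iInter.1 hy n
      rw [Set.mem_iInter₂] at h1
      exact hA3 n (h1 n (Finset.mem_range.2 (Nat.lt_succ_self n))) hn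
    have hUB : ⋃ n, (⋃ i ∈ Finset.range (n + 1), B' i) = π ⁻¹' (V \ {z}) := by
      refine Set.Subset.antisymm (Set.iUnion_subset hBV) ?_
      intro y hy
      have hy2 : π y ∈ ⋃ n, F n := by rw [hFU]; exact hy
      obtain ⟨n, hn⟩ := Set.mem_iUnion.1 hy2
      exact Set.mem_iUnion.2 ⟨n, hFB n hn⟩
    have t1 := tendsto_measure_iInter_atTop (μ := ν)
      (s := fun n => ⋂ i ∈ Finset.range (n + 1), A' i)
      (fun n => (hAcl n).isClosed.measurableSet.nullMeasurableSet) (fun m n hmn => hAanti m n hmn)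
      ⟨0, measure_ne_top _ _⟩
    have t2 := tendsto_measure_iUnion_atTop (μ := ν)
      (s := fun n => ⋃ i ∈ Finset.range (n + 1), B' i) (fun m n hmn => hBmono m n hmn)
    rw [hIA] at t1
    rw [hUB] at t2
    obtain ⟨n, hn⟩ := (t1.eventually_lt t2 hKV).exists
    refine ⟨n, ?_⟩
    simp only [Function.comp_apply] at hn
    rw [← hν (φ n)]
    have e : (fun y => φ n y) = fun y => (⋃ i ∈ Finset.range (n + 1), B' i).indicator 1 y -
        (⋂ i ∈ Finset.range (n + 1), A' i).indicator 1 y := by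
      funext y
      rw [hφ n y]
      unfold ind Set.indicator
      simp
    have i1 : Integrable (fun y => (⋃ i ∈ Finset.range (n + 1), B' i).indicator
        (1 : Y → ℝ) y) ν :=
      (integrable_const (1 : ℝ)).indicator (hBcl n).isClosed.measurableSet
    have i2 : Integrable (fun y => (⋂ i ∈ Finset.range (n + 1), A' i).indicator
        (1 : Y → ℝ) y) ν :=
      (integrable_const (1 : ℝ)).indicator (hAcl n).isClosed.measurableSet
    rw [e, integral_sub i1 i2, integral_indicator_one (hBcl n).isClosed.measurableSet, integral_indicator_one (hAcl n).isClosed.measurableSet,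
      sub_pos]
    exact (ENNReal.toReal_lt_toReal (measure_ne_top _ _) (measure_ne_top _ _)).2 hn

end Pool.Agent.H107ZS
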