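import Pool.Agent.H107_ZS.DStubs2

/-!
# Neighbourhoods of closed sets which are met at most `C` times (`StND`)
-/

set_option autoImplicit false

namespace Pool.Agent.H107ZS

open Topology

universe u v w

/-- a finite family of closed sets with empty intersection has open neighbourhoods whose closures
have empty intersection -/
theorem exists_swelling {X : Type u} [TopologicalSpace X] [NormalSpace X] {ι : Type v} [Finite ι]
    (E : ι → Set X) (hE : ∀ i, IsClosed (E i)) (h : ∀ x, ∃ i, x ∉ E i) :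
    ∃ O : ι → Set X, (∀ i, IsOpen (O i)) ∧ (∀ i, E i ⊆ O i) ∧ ∀ x, ∃ i, x ∉ closure (O i) := by
  obtain ⟨v, hv1, hv2, hv3⟩ := exists_iUnion_eq_closure_subset (u := fun i => (E i)ᶜ)
    (fun i => (hE i).isOpen_compl) (fun x => Set.toFinite _)
    (by
      ext x
      simp only [Set.mem_iUnion, Set.mem_compl_iff, Set.mem_univ, iff_true]
      exact h x)
  refine ⟨fun i => (closure (v i))ᶜ, fun i => isClosed_closure.isOpen_compl, fun i x hx hx' =>
    hv3 i hx' hx, fun x => ?_⟩
  have hx : x ∈ ⋃ i, v i := by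
    rw [hv1]
    exact Set.mem_univ x
  obtain ⟨i, hi⟩ := Set.mem_iUnion.1 hx
  refine ⟨i, fun hcl => ?_⟩
  have h1 : closure ((closure (v i))ᶜ) ⊆ (v i)ᶜ :=
    closure_minimal (Set.compl_subset_compl.2 subset_closure) (hv2 i).isClosed_compl
  exact h1 hcl hi

theorem t_ND : StND.{u} := by
  classical
  intro G _ X _ _ _ _ _ D S C hD hDC
  -- neighbourhoods for one subset
  have h1 : ∀ F : Finset G, F ⊆ S → C < F.card →
      ∃ O : Set X, IsOpen O ∧ D ⊆ O ∧ ∀ x, ∃ g ∈ F, g • x ∉ closure O := by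
    intro F hFS hF
    obtain ⟨O, hO1, hO2, hO3⟩ := exists_swelling (ι := F) (fun g => {x : X | (g : G) • x ∈ D})
      (fun g => hD.preimage (continuous_const_smul (g : G))) (fun x => by
        by_contra hcon
        push Not at hcon
        have := hDC x F hFS fun g hg => hcon ⟨g, hg⟩
        omega)
    refine ⟨⋂ g : F, {x : X | (g : G)⁻¹ • x ∈ O g}, ?_, ?_, ?_⟩
    · exact isOpen_iInter_of_finite fun g => (hO1 g).preimage (continuous_const_smul (g : G)⁻¹)
    · intro x hx
      rw [Set.mem_iInter]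
      intro g
      apply hO2 g
      change (g : G) • (g : G)⁻¹ • x ∈ D
      rw [smul_inv_smul]
      exact hx
    · intro x
      obtain ⟨g, hg⟩ := hO3 x
      refine ⟨g, g.2, fun hcl => hg ?_⟩
      have h2 : closure (⋂ g : F, {x : X | (g : G)⁻¹ • x ∈ O g}) ⊆
          {x : X | (g : G)⁻¹ • x ∈ closure (O g)} := by
        apply closure_minimal
        · intro y hy
          exact subset_closure (Set.mem_iInter.1 hy g)
        · exact isClosed_closure.preimage (continuous_const_smul (g : G)⁻¹)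
      have h3 : (g : G)⁻¹ • (g : G) • x ∈ closure (O g) := h2 hcl
      rwa [inv_smul_smul] at h3
  -- all subsets
  have h2 : ∀ F : Finset G, ∃ O : Set X, IsOpen O ∧ D ⊆ O ∧
      (F ⊆ S → C < F.card → ∀ x, ∃ g ∈ F, g • x ∉ closure O) := by
    intro F
    by_cases h : F ⊆ S ∧ C < F.card
    · obtain ⟨O, hO1, hO2, hO3⟩ := h1 F h.1 h.2
      exact ⟨O, hO1, hO2, fun _ _ => hO3⟩
    · exact ⟨Set.univ, isOpen_univ, Set.subset_univ _, fun h3 h4 => absurd ⟨h3, h4⟩ h⟩
  choose O hO1 hO2 hO3 using h2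
  refine ⟨⋂ F ∈ S.powerset, O F, isOpen_biInter_finset fun F _ => hO1 F, fun x hx => ?_, ?_⟩
  · simp only [Set.mem_iInter]
    intro F _
    exact hO2 F hx
  · intro x F hF hcl
    by_contra hlt
    push Not at hlt
    obtain ⟨g, hg, hg'⟩ := hO3 F hF hlt x
    apply hg'
    refine closure_mono ?_ (hcl g hg)
    exact Set.biInter_subset_of_mem (Finset.mem_coe.2 (Finset.mem_powerset.2 hF))

end Pool.Agent.H107ZS
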