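import Pool.Agent.H107_ZS.DStubs7

/-!
# Hall's theorem gives a fractional transport with slack on every orbit
-/

set_option autoImplicit false

namespace Pool.Agent.H107ZS

open Topology

universe u v w

namespace TORB

open Classical in
/-- Hall's theorem for tokens: `A q` left tokens at `q`, `B r` right tokens at `r` -/
theorem hall_tokens (G : Type u) [Group G] (A B : G → ℕ) (D : Finset G)
    (h : ∀ (Q R : Finset G), (∀ d ∈ D, ∀ q ∈ Q, d * q ∈ R) → ∑ q ∈ Q, A q ≤ ∑ r ∈ R, B r) :
    ∃ f : (Σ q : G, Fin (A q)) → (Σ r : G, Fin (B r)), Function.Injective f ∧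
      ∀ x, (f x).1 * x.1⁻¹ ∈ D := by
  let T : (Σ q : G, Fin (A q)) → Finset (Σ r : G, Fin (B r)) := fun x =>
    (D.image (fun d => d * x.1)).sigma (fun _ => Finset.univ)
  have hT : ∀ s : Finset (Σ q : G, Fin (A q)), s.card ≤ (s.biUnion T).card := by
    intro s
    let Q : Finset G := s.image Sigma.fst
    let R : Finset G := (D ×ˢ Q).image (fun p => p.1 * p.2)
    have h1 : s.card ≤ ∑ q ∈ Q, A q := by
      have hsub : s ⊆ Q.sigma (fun _ => Finset.univ) := by
        intro x hx
        rw [Finset.mem_sigma]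
        exact ⟨Finset.mem_image_of_mem _ hx, Finset.mem_univ _⟩
      calc s.card ≤ (Q.sigma (fun q => (Finset.univ : Finset (Fin (A q))))).card :=
            Finset.card_le_card hsub
        _ = ∑ q ∈ Q, A q := by simp [Finset.card_sigma]
    have h2 : R.sigma (fun r => (Finset.univ : Finset (Fin (B r)))) ⊆ s.biUnion T := by
      intro x hx
      rw [Finset.mem_sigma] at hx
      obtain ⟨p, hp, hpx⟩ := Finset.mem_image.mp hx.1
      rw [Finset.mem_product] at hp
      obtain ⟨z, hz, hzq⟩ := Finset.mem_image.mp hp.2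
      rw [Finset.mem_biUnion]
      refine ⟨z, hz, ?_⟩
      simp only [T]
      rw [Finset.mem_sigma]
      refine ⟨Finset.mem_image.mpr ⟨p.1, hp.1, ?_⟩, Finset.mem_univ _⟩
      rw [hzq]
      exact hpx
    have h3 : ∑ q ∈ Q, A q ≤ ∑ r ∈ R, B r := by
      apply h
      intro d hd q hq
      exact Finset.mem_image.mpr ⟨(d, q), Finset.mem_product.mpr ⟨hd, hq⟩, rfl⟩
    calc s.card ≤ ∑ q ∈ Q, A q := h1
      _ ≤ ∑ r ∈ R, B r := h3
      _ = (R.sigma (fun r => (Finset.univ : Finset (Fin (B r))))).card := by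
          simp [Finset.card_sigma]
      _ ≤ (s.biUnion T).card := Finset.card_le_card h2
  obtain ⟨f, hf, hfT⟩ := (Finset.all_card_le_biUnion_card_iff_exists_injective T).mp hT
  refine ⟨f, hf, ?_⟩
  intro x
  have hx := hfT x
  simp only [T] at hx
  rw [Finset.mem_sigma] at hx
  obtain ⟨d, hd, hdx⟩ := Finset.mem_image.mp hx.1
  rw [← hdx]
  simpa using hd

open Classical in
/-- counting the tokens which leave `q` -/
theorem out_count (G : Type u) [Group G] (A B : G → ℕ) (D : Finset G)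
    (f : (Σ q : G, Fin (A q)) → (Σ r : G, Fin (B r))) (hfD : ∀ x, (f x).1 * x.1⁻¹ ∈ D) (q : G) :
    ∑ g ∈ D, (Finset.univ.filter (fun i : Fin (A q) => (f ⟨q, i⟩).1 = g * q)).card = A q := by
  have h1 : (Finset.univ : Finset (Fin (A q))).card =
      ∑ g ∈ D, (Finset.univ.filter (fun i : Fin (A q) => (f ⟨q, i⟩).1 * q⁻¹ = g)).card := by
    apply Finset.card_eq_sum_card_fiberwise
    intro i _
    exact hfD ⟨q, i⟩
  rw [Finset.card_univ, Fintype.card_fin] at h1
  refine Eq.trans ?_ h1.symm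
  apply Finset.sum_congr rfl
  intro g _
  congr 1
  apply Finset.filter_congr
  intro i _
  constructor
  · intro h
    rw [h]
    group
  · intro h
    rw [← h]
    group

open Classical in
/-- counting the tokens which arrive at `r` -/
theorem in_count (G : Type u) [Group G] (A B : G → ℕ) (D : Finset G)
    (f : (Σ q : G, Fin (A q)) → (Σ r : G, Fin (B r))) (hf : Function.Injective f) (r : G) :
    ∑ g ∈ D, (Finset.univ.filter
      (fun i : Fin (A (g⁻¹ * r)) => (f ⟨g⁻¹ * r, i⟩).1 = g * (g⁻¹ * r))).card ≤ B r := by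
  have h1 : ∑ g ∈ D, (Finset.univ.filter
      (fun i : Fin (A (g⁻¹ * r)) => (f ⟨g⁻¹ * r, i⟩).1 = g * (g⁻¹ * r))).card =
      (D.sigma (fun g => Finset.univ.filter
        (fun i : Fin (A (g⁻¹ * r)) => (f ⟨g⁻¹ * r, i⟩).1 = g * (g⁻¹ * r)))).card := by
    rw [Finset.card_sigma]
  have h2 : ((({r} : Finset G)).sigma (fun r => (Finset.univ : Finset (Fin (B r))))).card =
      B r := by
    rw [Finset.card_sigma]
    simp
  rw [h1, ← h2]
  apply Finset.card_le_card_of_injOn
    (fun x : (Σ g : G, Fin (A (g⁻¹ * r))) => f ⟨x.1⁻¹ * r, x.2⟩)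
  · intro x hx
    have hx' := Finset.mem_sigma.mp (Finset.mem_coe.mp hx)
    rw [Finset.mem_coe, Finset.mem_sigma]
    refine ⟨?_, Finset.mem_univ _⟩
    rw [Finset.mem_singleton]
    have h3 := (Finset.mem_filter.mp hx'.2).2
    rw [h3]
    group
  · rintro ⟨g, i⟩ _ ⟨g', i'⟩ _ hxy
    have h4 := hf hxy
    have h5 : g⁻¹ * r = g'⁻¹ * r := congrArg Sigma.fst h4
    have h6 : g = g' := by
      have := mul_right_cancel h5
      exact inv_injective this
    subst h6
    have h7 : i = i' := by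
      have := (Sigma.mk.inj_iff.mp h4).2
      exact eq_of_heq this
    rw [h7]

end TORB

theorem t_ORB : StORB.{u, v} := by
  classical
  intro G _ Y _ a b D N h y
  obtain ⟨f, hf, hfD⟩ := TORB.hall_tokens G (fun q => (N + 1) * a (q • y))
    (fun r => N * b (r • y)) D (by
      intro Q R hQR
      have := h y Q R hQR
      rw [← Finset.mul_sum, ← Finset.mul_sum]
      exact this)
  have hN : (0 : ℝ) < (N : ℝ) + 1 := by positivity
  refine ⟨fun q g => if g ∈ D then ((Finset.univ.filter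
    (fun i : Fin ((N + 1) * a (q • y)) => (f ⟨q, i⟩).1 = g * q)).card : ℝ) / ((N : ℝ) + 1) else 0,
    ?_, ?_, ?_, ?_⟩
  · intro q g
    dsimp only
    split_ifs
    · positivity
    · exact le_refl _
  · intro q g hne
    by_contra hg
    apply hne
    dsimp only
    rw [if_neg hg]
  · intro q
    have h1 := TORB.out_count G (fun q => (N + 1) * a (q • y)) (fun r => N * b (r • y)) D f hfD q
    have h2 : ∑ g ∈ D, (if g ∈ D then ((Finset.univ.filter
        (fun i : Fin ((N + 1) * a (q • y)) => (f ⟨q, i⟩).1 = g * q)).card : ℝ) / ((N : ℝ) + 1)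
          else 0) = (∑ g ∈ D, ((Finset.univ.filter
        (fun i : Fin ((N + 1) * a (q • y)) => (f ⟨q, i⟩).1 = g * q)).card : ℝ)) /
          ((N : ℝ) + 1) := by
      rw [Finset.sum_div]
      apply Finset.sum_congr rfl
      intro g hg
      rw [if_pos hg]
    dsimp only
    rw [h2, ← Nat.cast_sum, h1]
    push_cast
    field_simp
  · intro r
    have h1 := TORB.in_count G (fun q => (N + 1) * a (q • y)) (fun r => N * b (r • y)) D f hf r
    have h2 : ∑ g ∈ D, (if g ∈ D then ((Finset.univ.filter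
        (fun i : Fin ((N + 1) * a ((g⁻¹ * r) • y)) =>
          (f ⟨g⁻¹ * r, i⟩).1 = g * (g⁻¹ * r))).card : ℝ) / ((N : ℝ) + 1) else 0) =
        (∑ g ∈ D, ((Finset.univ.filter
        (fun i : Fin ((N + 1) * a ((g⁻¹ * r) • y)) =>
          (f ⟨g⁻¹ * r, i⟩).1 = g * (g⁻¹ * r))).card : ℝ)) / ((N : ℝ) + 1) := by
      rw [Finset.sum_div]
      apply Finset.sum_congr rfl
      intro g hg
      rw [if_pos hg]
    dsimp only
    rw [h2, ← Nat.cast_sum]
    have h3 : ((∑ g ∈ D, (Finset.univ.filter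
        (fun i : Fin ((N + 1) * a ((g⁻¹ * r) • y)) =>
          (f ⟨g⁻¹ * r, i⟩).1 = g * (g⁻¹ * r))).card : ℕ) : ℝ) ≤ ((N * b (r • y) : ℕ) : ℝ) := by
      exact_mod_cast h1
    rw [div_le_iff₀ hN]
    refine le_trans h3 (le_of_eq ?_)
    push_cast
    field_simp
    ring

end Pool.Agent.H107ZS
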