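import Pool.Agent.H107_ZS.DStubs7

/-!
# Step TAX: from continuous to locally constant approximately invariant measures
-/

set_option autoImplicit false

namespace Pool.Agent.H107ZS

open Topology

universe u v w

namespace TTAX

/-- a choice of members of a finite list of clopen sets, locally constant -/
lemma choice_list {Y : Type w} [TopologicalSpace Y] [Nonempty Y] (V : Y → Set Y)
    (hV : ∀ z, IsClopen (V z)) (l : List Y) :
    ∃ c : Y → Y, IsLocallyConstant c ∧ ∀ y, (∃ z ∈ l, y ∈ V z) → y ∈ V (c y) := by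
  classical
  induction l with
  | nil =>
    obtain ⟨y₀⟩ := (inferInstance : Nonempty Y)
    exact ⟨fun _ => y₀, IsLocallyConstant.const y₀, by simp⟩
  | cons a l ih =>
    obtain ⟨c, hc, hcV⟩ := ih
    refine ⟨fun y => if y ∈ V a then a else c y, ?_, ?_⟩
    · rw [IsLocallyConstant.iff_eventually_eq]
      intro x
      by_cases hx : x ∈ V a
      · filter_upwards [(hV a).isOpen.mem_nhds hx] with y hy
        simp [hx, hy]
      · have h1 : ∀ᶠ y in 𝓝 x, y ∈ (V a)ᶜ := (hV a).compl.isOpen.mem_nhds hx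
        have h2 := (IsLocallyConstant.iff_eventually_eq c).1 hc x
        filter_upwards [h1, h2] with y hy1 hy2
        have hy1' : y ∉ V a := hy1
        simp [hx, hy1', hy2]
    · rintro y ⟨z, hz, hyz⟩
      by_cases hy : y ∈ V a
      · simp [hy]
      · have : ∃ z ∈ l, y ∈ V z := by
          rcases List.mem_cons.1 hz with rfl | hz'
          · exact absurd hyz hy
          · exact ⟨z, hz', hyz⟩
        simpa [hy] using hcV y this

/-- locally constant approximation of finitely many continuous functions -/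
lemma approx {Y : Type w} [TopologicalSpace Y] [CompactSpace Y] [T2Space Y]
    [TotallyDisconnectedSpace Y] [Nonempty Y] {ι : Type*} (F : Finset ι) (f : ι → Y → ℝ)
    (hf : ∀ i, Continuous (f i)) (η : ℝ) (hη : 0 < η) :
    ∃ c : Y → Y, IsLocallyConstant c ∧ ∀ y, ∀ i ∈ F, |f i y - f i (c y)| ≤ η := by
  classical
  have hO : ∀ z : Y, IsOpen {y : Y | ∀ i ∈ F, |f i y - f i z| < η} := by
    intro z
    have : {y : Y | ∀ i ∈ F, |f i y - f i z| < η} = ⋂ i ∈ F, {y : Y | |f i y - f i z| < η} := by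
      ext y; simp
    rw [this]
    refine isOpen_biInter_finset fun i _ => ?_
    exact isOpen_lt (((hf i).sub continuous_const).abs) continuous_const
  have hV : ∀ z : Y, ∃ V : Set Y, IsClopen V ∧ z ∈ V ∧
      V ⊆ {y : Y | ∀ i ∈ F, |f i y - f i z| < η} := by
    intro z
    refine compact_exists_isClopen_in_isOpen (hO z) ?_
    intro i _
    simpa using hη
  choose V hVc hVz hVs using hV
  obtain ⟨t, ht⟩ := isCompact_univ.elim_finite_subcover V (fun z => (hVc z).isOpen)
    (fun z _ => Set.mem_iUnion.2 ⟨z, hVz z⟩)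
  obtain ⟨c, hc, hcV⟩ := choice_list V hVc t.toList
  refine ⟨c, hc, fun y i hi => ?_⟩
  have hy : y ∈ V (c y) := by
    apply hcV
    have := ht (Set.mem_univ y)
    simp only [Set.mem_iUnion, exists_prop] at this
    obtain ⟨z, hz, hyz⟩ := this
    exact ⟨z, Finset.mem_toList.2 hz, hyz⟩
  exact (hVs (c y) hy i hi).le

end TTAX

/-- TARGET -/
theorem t_TAX : StTAX.{u, v, w} := by
  classical
  intro G _ X _ _ Y _ _ _ _ _ π hπ hπe hX D ε hε
  obtain ⟨m, hm0, hmc, hmF, hmN⟩ := hX
  rcases isEmpty_or_nonempty Y with hY | hY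
  · refine ⟨∅, fun _ _ => 0, fun s => IsLocallyConstant.const 0, fun y => (hY.false y).elim,
      fun y => (hY.false y).elim, fun y => (hY.false y).elim, fun d _ y => (hY.false y).elim⟩
  -- choice of `n`
  choose! N hN using fun g : G => hmN g (ε / 2) (by positivity)
  obtain ⟨n, hn⟩ : ∃ n : ℕ, ∀ d ∈ D, N d ≤ n := ⟨D.sup N, fun d hd => Finset.le_sup hd⟩
  obtain ⟨F₀, hF0, hF1⟩ := hmF n
  set F : Finset G := F₀.map (Equiv.inv G).toEmbedding with hF
  have hmemF : ∀ s : G, s ∈ F ↔ s⁻¹ ∈ F₀ := by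
    intro s
    simp only [hF, Finset.mem_map_equiv]
    rfl
  set m₁ : G → Y → ℝ := fun s y => m n (π y) s⁻¹ with hm₁
  have hsumF : ∀ φ : G → ℝ, ∑ s ∈ F, φ s = ∑ h ∈ F₀, φ h⁻¹ := by
    intro φ
    rw [hF, Finset.sum_map]
    rfl
  have hm₁F : ∀ y s, s ∉ F → m₁ s y = 0 := by
    intro y s hs
    exact hF0 _ _ (fun h => hs ((hmemF s).2 h))
  have hm₁c : ∀ s, Continuous (m₁ s) := fun s => (hmc n s⁻¹).comp hπ
  -- the estimate for `m₁`
  have hest : ∀ d ∈ D, ∀ y, ∑ s ∈ F, |m₁ s y - m₁ (s * d⁻¹) (d • y)| ≤ ε / 2 := by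
    intro d hd y
    rw [hsumF]
    have hlt := hN d n (hn d hd) (π y)
    refine le_trans ?_ hlt.le
    have hsummable : Summable fun h : G => |m n (d • π y) (d * h) - m n (π y) h| := by
      refine summable_of_ne_finset_zero (s := F₀ ∪ F₀.image (fun h => d⁻¹ * h)) ?_
      intro h hh
      have h1 : h ∉ F₀ := fun hc => hh (Finset.mem_union_left _ hc)
      have h2 : d * h ∉ F₀ := fun hc => hh (Finset.mem_union_right _
        (Finset.mem_image.2 ⟨d * h, hc, by group⟩))
      rw [hF0 _ _ h1, hF0 _ _ h2]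
      simp
    refine le_trans (le_of_eq ?_) (hsummable.sum_le_tsum F₀ (fun _ _ => abs_nonneg _))
    refine Finset.sum_congr rfl fun h _ => ?_
    have e1 : (h⁻¹ * d⁻¹)⁻¹ = d * h := by group
    simp only [hm₁, inv_inv, e1, hπe]
    rw [abs_sub_comm]
  -- approximation
  set η : ℝ := ε / (4 * ((F.card : ℝ) + 1)) with hη
  have hηpos : 0 < η := by positivity
  obtain ⟨c, hc, hcη⟩ := TTAX.approx F m₁ hm₁c η hηpos
  have hcη' : ∀ y s, |m₁ s y - m₁ s (c y)| ≤ η := by
    intro y s
    by_cases hs : s ∈ F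
    · exact hcη y s hs
    · rw [hm₁F _ _ hs, hm₁F _ _ hs]
      simpa using hηpos.le
  refine ⟨F, fun y s => m₁ s (c y), ?_, ?_, ?_, ?_, ?_⟩
  · intro s
    exact hc.comp (m₁ s)
  · intro y s
    exact hm0 _ _ _
  · intro y s hs
    exact hm₁F _ _ hs
  · intro y
    rw [hsumF]
    simp only [hm₁, inv_inv]
    exact hF1 _
  · intro d hd y
    have hle : ∀ s ∈ F, |m₁ s (c y) - m₁ (s * d⁻¹) (c (d • y))| ≤
        |m₁ s y - m₁ (s * d⁻¹) (d • y)| + 2 * η := by
      intro s _
      have a1 := hcη' y s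
      have a2 := hcη' (d • y) (s * d⁻¹)
      have a3 : m₁ s (c y) - m₁ (s * d⁻¹) (c (d • y)) =
          -(m₁ s y - m₁ s (c y)) + (m₁ s y - m₁ (s * d⁻¹) (d • y)) +
            (m₁ (s * d⁻¹) (d • y) - m₁ (s * d⁻¹) (c (d • y))) := by ring
      rw [a3]
      calc _ ≤ |-(m₁ s y - m₁ s (c y)) + (m₁ s y - m₁ (s * d⁻¹) (d • y))| +
            |m₁ (s * d⁻¹) (d • y) - m₁ (s * d⁻¹) (c (d • y))| := abs_add_le _ _
        _ ≤ |-(m₁ s y - m₁ s (c y))| + |m₁ s y - m₁ (s * d⁻¹) (d • y)| +
            |m₁ (s * d⁻¹) (d • y) - m₁ (s * d⁻¹) (c (d • y))| := by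
              gcongr
              exact abs_add_le _ _
        _ ≤ _ := by
              rw [abs_neg]
              linarith
    calc ∑ s ∈ F, |m₁ s (c y) - m₁ (s * d⁻¹) (c (d • y))|
        ≤ ∑ s ∈ F, (|m₁ s y - m₁ (s * d⁻¹) (d • y)| + 2 * η) := Finset.sum_le_sum hle
      _ = ∑ s ∈ F, |m₁ s y - m₁ (s * d⁻¹) (d • y)| + F.card * (2 * η) := by
            rw [Finset.sum_add_distrib, Finset.sum_const, nsmul_eq_mul]
      _ ≤ ε / 2 + ε / 2 := by
            refine add_le_add (hest d hd y) ?_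
            rw [hη]
            have hc0 : (0 : ℝ) ≤ (F.card : ℝ) := Nat.cast_nonneg _
            have : (F.card : ℝ) * (2 * (ε / (4 * ((F.card : ℝ) + 1)))) =
                ε / 2 * ((F.card : ℝ) / ((F.card : ℝ) + 1)) := by
              field_simp
              ring
            rw [this]
            have h1 : (F.card : ℝ) / ((F.card : ℝ) + 1) ≤ 1 := by
              rw [div_le_one (by positivity)]
              linarith
            nlinarith
      _ = ε := by ring

end Pool.Agent.H107ZS
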