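import Pool.Agent.H107_ZS.DStubs7

/-!
JOB ZD_THN (MP_6c30de_an, owner helper107): file Pool/Agent/H107_ZS/TTHN.lean
-/

set_option autoImplicit false

namespace Pool.Agent.H107ZS

open Topology

universe u v w

namespace TTHN

/-- by minimality and compactness finitely many translates of an open set cover -/
theorem cover {G : Type u} [Group G] {X : Type u} [TopologicalSpace X] [CompactSpace X]
    [MulAction G X] [ContinuousConstSMul G X] (hm : MinAct G X) {R : Set X} (hR : IsOpen R)
    (hne : R.Nonempty) : ∃ S : Finset G, ∀ x : X, ∃ s ∈ S, s • x ∈ R := by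
  have hopen : ∀ g : G, IsOpen ((fun x : X => g • x) ⁻¹' R) := fun g =>
    hR.preimage (continuous_const_smul g)
  obtain ⟨S, hS⟩ := isCompact_univ.elim_finite_subcover (fun g : G => (fun x : X => g • x) ⁻¹' R)
    hopen (by
      intro x _
      obtain ⟨y, hyR, g, hg⟩ := (hm x).inter_open_nonempty R hR hne
      rw [Set.mem_iUnion]
      refine ⟨g, ?_⟩
      change g • x ∈ R
      rw [show g • x = y from hg]
      exact hyR)
  refine ⟨S, fun x => ?_⟩
  have h := hS (Set.mem_univ x)
  simp only [Set.mem_iUnion] at h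
  obtain ⟨g, hg, hx⟩ := h
  exact ⟨g, hg, hx⟩

theorem infinite_return {G : Type u} [Group G] [Infinite G] {X : Type u} [TopologicalSpace X]
    [CompactSpace X] [MulAction G X] [ContinuousConstSMul G X] (hm : MinAct G X) {W : Set X}
    (hW : IsOpen W) (hne : W.Nonempty) (z : X) : {g : G | g • z ∈ W}.Infinite := by
  intro hfin
  obtain ⟨S, hS⟩ := cover hm hW hne
  have hG : (Set.univ : Set G) ⊆ ⋃ s ∈ S, (fun g => s⁻¹ * g) '' {g : G | g • z ∈ W} := by
    intro g _
    obtain ⟨s, hs, h⟩ := hS (g • z)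
    rw [Set.mem_iUnion₂]
    refine ⟨s, hs, s * g, ?_, ?_⟩
    · change (s * g) • z ∈ W
      rw [mul_smul]
      exact h
    · change s⁻¹ * (s * g) = g
      rw [inv_mul_cancel_left]
  have hf : (⋃ s ∈ S, (fun g => s⁻¹ * g) '' {g : G | g • z ∈ W}).Finite :=
    Set.Finite.biUnion S.finite_toSet fun s _ => hfin.image _
  exact Set.infinite_univ (hf.subset hG)

/-- a neighbourhood with disjoint translates -/
theorem exists_R {G : Type u} [Group G] {X : Type u} [TopologicalSpace X] [T2Space X]
    [MulAction G X] [ContinuousConstSMul G X] (hfree : FreeAct G X) {W : Set X} (hW : IsOpen W)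
    {z : X} {m : ℕ} (t : Fin m → G) (ht : Function.Injective t) (htW : ∀ c, t c • z ∈ W) :
    ∃ R : Set X, IsOpen R ∧ z ∈ R ∧ (∀ c, ∀ x ∈ R, t c • x ∈ W) ∧
      ∀ c c', c ≠ c' → ∀ x ∈ R, ∀ x' ∈ R, t c • x ≠ t c' • x' := by
  have hinj : ∀ c c', t c • z = t c' • z → c = c' := by
    intro c c' h
    apply ht
    have h1 : ((t c')⁻¹ * t c) • z = z := by
      rw [mul_smul, h, inv_smul_smul]
    have h2 := hfree _ _ h1
    exact (inv_mul_eq_one.1 h2).symm
  obtain ⟨U, hU, hdis⟩ := (Set.finite_range fun c => t c • z).t2_separation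
  refine ⟨⋂ c, (fun x : X => t c • x) ⁻¹' (U (t c • z) ∩ W), ?_, ?_, ?_, ?_⟩
  · exact isOpen_iInter_of_finite fun c =>
      ((hU _).2.inter hW).preimage (continuous_const_smul (t c))
  · rw [Set.mem_iInter]
    exact fun c => ⟨(hU _).1, htW c⟩
  · intro c x hx
    exact (Set.mem_iInter.1 hx c).2
  · intro c c' hcc x hx x' hx' heq
    have h1 := (Set.mem_iInter.1 hx c).1
    have h2 := (Set.mem_iInter.1 hx' c').1
    have h3 : t c • z ≠ t c' • z := fun h => hcc (hinj c c' h)
    have h4 := hdis (Set.mem_range_self c) (Set.mem_range_self c') h3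
    have h5 : t c • x ∈ U (t c' • z) := by
      rw [heq]
      exact h2
    exact Set.disjoint_left.1 h4 h1 h5

end TTHN

/-- TARGET -/
theorem t_THN (hcol : StCOL.{u}) (hnd : StND.{u}) : StTHN.{u} := by
  intro G _ _ X _ _ _ _ _ hfree hmin C Z W hZ hthin hW hWne
  classical
  obtain ⟨z, hz⟩ := hWne
  have hinf := TTHN.infinite_return hmin hW ⟨z, hz⟩ z
  let emb := hinf.natEmbedding
  let t : Fin (C * C) → G := fun c => (emb c.val : G)
  have ht : Function.Injective t := by
    intro c c' h
    have h1 : emb c.val = emb c'.val := Subtype.ext h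
    exact Fin.ext (emb.injective h1)
  have htW : ∀ c, t c • z ∈ W := fun c => (emb c.val).2
  obtain ⟨R, hRo, hzR, hRW, hRdis⟩ := TTHN.exists_R hfree hW t ht htW
  obtain ⟨S, hS⟩ := TTHN.cover hmin hRo ⟨z, hzR⟩
  let e : Fin S.card ≃ S := S.equivFin.symm
  let g : Fin S.card → G := fun i => (e i : G)
  have hg : Function.Injective g := fun i j h => e.injective (Subtype.ext h)
  have hgS : ∀ i, g i ∈ S := fun i => (e i).2
  obtain ⟨v, hv1, hv2, hv3⟩ := exists_iUnion_eq_closed_subset
    (u := fun i => (fun x : X => g i • x) ⁻¹' R)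
    (fun i => hRo.preimage (continuous_const_smul (g i))) (fun x => Set.toFinite _) (by
      rw [Set.eq_univ_iff_forall]
      intro x
      obtain ⟨s, hs, hx⟩ := hS x
      rw [Set.mem_iUnion]
      refine ⟨e.symm ⟨s, hs⟩, ?_⟩
      change (e (e.symm ⟨s, hs⟩) : G) • x ∈ R
      rw [Equiv.apply_symm_apply]
      exact hx)
  obtain ⟨O, hO, hZO, hOc⟩ := hnd G X Z (S.image fun s => s⁻¹) C hZ
    (fun x F _ hF => hthin x F hF)
  obtain ⟨n', c, g', U, hU1, hU2, hU3, hU4⟩ := hcol G X C S.card (fun i => v i ∩ closure O) g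
    (closure O) R (fun i => (hv2 i).inter isClosed_closure) hRo (by
      intro x hx
      have h1 : x ∈ ⋃ i, v i := by
        rw [hv1]
        trivial
      obtain ⟨i, hi⟩ := Set.mem_iUnion.1 h1
      exact ⟨i, hi, hx⟩) (fun i x hx => hv3 i hx.1) (by
      intro z' F hF
      have h1 : (F.image fun i => (g i)⁻¹).card = F.card :=
        Finset.card_image_of_injective _ fun i j h => hg (inv_injective h)
      rw [← h1]
      refine hOc z' _ ?_ ?_
      · intro y hy
        obtain ⟨i, _, rfl⟩ := Finset.mem_image.1 hy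
        exact Finset.mem_image_of_mem _ (hgS i)
      · intro y hy
        obtain ⟨i, hi, rfl⟩ := Finset.mem_image.1 hy
        obtain ⟨x, hx, hxz⟩ := hF i hi
        rw [← hxz, inv_smul_smul]
        exact hx.2)
  refine ⟨O, n', U, fun i => t (c i) * g' i, hO, hZO, hU1, fun x hx => hU2 x (subset_closure hx),
    ?_, ?_⟩
  · intro i x hx
    rw [mul_smul]
    exact hRW (c i) _ (hU3 i x hx)
  · intro i j hij x hx x' hx' heq
    rw [mul_smul, mul_smul] at heq
    by_cases hc : c i = c j
    · rw [hc] at heq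
      exact hU4 i j hij hc x hx x' hx' (smul_left_cancel _ heq)
    · exact hRdis (c i) (c j) hc _ (hU3 i x hx) _ (hU3 j x' hx') heq

end Pool.Agent.H107ZS
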