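import Pool.Agent.H107_ZS.Final3
import Pool.Agent.H107_ZS.THALL
import Pool.Agent.H107_ZS.TORB
import Pool.Agent.H107_ZS.TFLW
import Pool.Agent.H107_ZS.TTAX
import Pool.Agent.H107_ZS.TMEA
import Pool.Agent.H107_ZS.TTHN
import Pool.Agent.H107_ZS.TFING
import Pool.Agent.H107_ZS.TCOL
import Pool.Agent.H107_ZS.TND

/-!
# Dynamical comparison for free minimal topologically amenable actions on finite-dimensional spaces
-/

set_option autoImplicit false

namespace Pool.Agent.H107ZS

open Topology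

universe u v

/-- dynamical comparison in finite dimensions -/
theorem cmp_fd (G : Type u) [Group G] [Countable G] (X : Type u) [TopologicalSpace X]
    [CompactSpace X] [TopologicalSpace.MetrizableSpace X] [MeasurableSpace X] [BorelSpace X]
    [MulAction G X] [ContinuousConstSMul G X] (d : ℕ) (hd : DimLE X d) (hf : FreeAct G X)
    (hm : MinAct G X) (ha : TopAmC G X) (K V : Set X) (hK : IsCompact K) (hV : IsOpen V)
    (hVne : V.Nonempty)
    (hμ : ∀ μ : MeasureTheory.Measure X, MeasureTheory.IsProbabilityMeasure μ →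
      (∀ (g : G) (s : Set X), MeasurableSet s → μ ((fun x => g • x) ⁻¹' s) = μ s) → μ K < μ V) :
    ∃ (n : ℕ) (W : Fin n → Set X) (t : Fin n → G), (∀ i, IsOpen (W i)) ∧ K ⊆ ⋃ i, W i ∧
      (∀ i, ∀ x ∈ W i, t i • x ∈ V) ∧
      ∀ i j, i ≠ j → ∀ x ∈ W i, ∀ x' ∈ W j, t i • x ≠ t j • x' := by
  rcases finite_or_infinite G with hG | hG
  · exact t_FING G X hf hm K V hK hV hμ
  · exact cmp_infinite t_HALL t_ORB t_FLW t_TAX t_MEA (t_THN t_COL t_ND)
      (t_RED (t_MAIN t_PA t_BL (t_US t_BL) (t_RC t_RC1) t_TRF)) (t_ZE (t_ZE3 (t_ZE2 t_ZE1)) t_ZE4)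
      G X d hd hf hm ha K V hK hV hVne hμ

end Pool.Agent.H107ZS
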