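import Pool.Agent.H107_ZS.DStubs

/-!
# CY: castles with small remainder on totally disconnected spaces
-/

set_option autoImplicit false

namespace Pool.Agent.H107ZS.CY

open Topology Pool.Agent.H107ZS

universe u v

section ind

variable {Y : Type v} [TopologicalSpace Y]

open Classical in
/-- the indicator function of a clopen set -/
noncomputable def ind (A : Set Y) : C(Y, ℝ) :=
  if h : IsClopen A then ((LocallyConstant.charFn ℝ h : LocallyConstant Y ℝ) : C(Y, ℝ)) else 0

lemma ind_of_mem {A : Set Y} (hA : IsClopen A) {y : Y} (hy : y ∈ A) : ind A y = 1 := by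
  simp [ind, hA, LocallyConstant.charFn, hy]

lemma ind_of_notMem {A : Set Y} (hA : IsClopen A) {y : Y} (hy : y ∉ A) : ind A y = 0 := by
  simp [ind, hA, LocallyConstant.charFn, hy]

lemma ind_nonneg {A : Set Y} (hA : IsClopen A) (y : Y) : 0 ≤ ind A y := by
  by_cases hy : y ∈ A
  · rw [ind_of_mem hA hy]; norm_num
  · rw [ind_of_notMem hA hy]

end ind

section meas

variable {G : Type u} [Group G] {Y : Type v} [TopologicalSpace Y] [MulAction G Y]
  [ContinuousConstSMul G Y] {Λ : C(Y, ℝ) →ₗ[ℝ] ℝ}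

lemma lam_mono (hΛ : InvState (⊤ : Subgroup G) Λ) {f g : C(Y, ℝ)} (h : ∀ y, f y ≤ g y) :
    Λ f ≤ Λ g := by
  have := hΛ.nonneg (g - f) (fun y => by simpa using h y)
  rw [map_sub] at this
  linarith

/-- the measure of a clopen set -/
noncomputable def mu (Λ : C(Y, ℝ) →ₗ[ℝ] ℝ) (A : Set Y) : ℝ := Λ (ind A)

lemma mu_nonneg (hΛ : InvState (⊤ : Subgroup G) Λ) {A : Set Y} (hA : IsClopen A) :
    0 ≤ mu Λ A := hΛ.nonneg _ (fun y => ind_nonneg hA y)

lemma mu_empty : mu Λ (∅ : Set Y) = 0 := by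
  have : ind (∅ : Set Y) = 0 := by
    ext y
    rw [ind_of_notMem isClopen_empty (by simp)]; rfl
  rw [mu, this, map_zero]

lemma mu_univ (hΛ : InvState (⊤ : Subgroup G) Λ) : mu Λ (Set.univ : Set Y) = 1 := by
  have : ind (Set.univ : Set Y) = 1 := by
    ext y
    rw [ind_of_mem isClopen_univ (by simp)]; rfl
  rw [mu, this, hΛ.one]

lemma mu_compl (hΛ : InvState (⊤ : Subgroup G) Λ) {A : Set Y} (hA : IsClopen A) :
    mu Λ Aᶜ = 1 - mu Λ A := by
  have : ind Aᶜ = 1 - ind A := by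
    ext y
    by_cases hy : y ∈ A
    · rw [ind_of_notMem hA.compl (by simpa using hy)]
      simp [ind_of_mem hA hy]
    · rw [ind_of_mem hA.compl hy]
      simp [ind_of_notMem hA hy]
  rw [mu, this, map_sub, hΛ.one]; rfl

lemma mu_mono (hΛ : InvState (⊤ : Subgroup G) Λ) {A B : Set Y} (hA : IsClopen A) (hB : IsClopen B)
    (h : A ⊆ B) : mu Λ A ≤ mu Λ B := by
  refine lam_mono hΛ fun y => ?_
  by_cases hy : y ∈ A
  · rw [ind_of_mem hA hy, ind_of_mem hB (h hy)]
  · rw [ind_of_notMem hA hy]; exact ind_nonneg hB y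

lemma mu_diff {A B : Set Y} (hA : IsClopen A) (hB : IsClopen B)
    (h : A ⊆ B) : mu Λ (B \ A) = mu Λ B - mu Λ A := by
  have : ind (B \ A) = ind B - ind A := by
    ext y
    by_cases hy : y ∈ A
    · rw [ind_of_notMem (hB.diff hA) (by simp [hy])]
      simp [ind_of_mem hA hy, ind_of_mem hB (h hy)]
    · by_cases hy' : y ∈ B
      · rw [ind_of_mem (hB.diff hA) ⟨hy', hy⟩]
        simp [ind_of_notMem hA hy, ind_of_mem hB hy']
      · rw [ind_of_notMem (hB.diff hA) (by simp [hy'])]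
        simp [ind_of_notMem hA hy, ind_of_notMem hB hy']
  rw [mu, this, map_sub]; rfl

lemma mu_inv (hΛ : InvState (⊤ : Subgroup G) Λ) {A : Set Y} (hA : IsClopen A) (g : G) :
    mu Λ {y | g • y ∈ A} = mu Λ A := by
  have hB : IsClopen {y : Y | g • y ∈ A} := hA.preimage (continuous_const_smul g)
  have : ind {y : Y | g • y ∈ A} = (ind A).comp (tr g) := by
    ext y
    by_cases hy : g • y ∈ A
    · rw [ind_of_mem hB hy]
      exact (ind_of_mem hA hy).symm
    · rw [ind_of_notMem hB hy]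
      exact (ind_of_notMem hA hy).symm
  rw [mu, this, hΛ.inv g (by simp)]; rfl

lemma lam_sum {α : Type*} (s : Finset α) (f : α → C(Y, ℝ)) (c : α → ℝ) :
    Λ (∑ i ∈ s, c i • f i) = ∑ i ∈ s, c i * Λ (f i) := by
  rw [map_sum]
  exact Finset.sum_congr rfl fun i _ => by rw [map_smul, smul_eq_mul]

/-- sub-additivity in general form -/
lemma mu_le_add_sum (hΛ : InvState (⊤ : Subgroup G) Λ) {α : Type*} (s : Finset α) {A B : Set Y}
    (hA : IsClopen A) (hB : IsClopen B) (C : α → Set Y) (hC : ∀ i ∈ s, IsClopen (C i))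
    (h : ∀ y ∈ A, y ∈ B ∨ ∃ i ∈ s, y ∈ C i) :
    mu Λ A ≤ mu Λ B + ∑ i ∈ s, mu Λ (C i) := by
  have h1 : Λ (ind A) ≤ Λ (ind B + ∑ i ∈ s, ind (C i)) := by
    refine lam_mono hΛ fun y => ?_
    have h0 : ∀ i ∈ s, 0 ≤ ind (C i) y := fun i hi => ind_nonneg (hC i hi) y
    rw [ContinuousMap.add_apply, ContinuousMap.sum_apply]
    by_cases hy : y ∈ A
    · rw [ind_of_mem hA hy]
      rcases h y hy with h2 | ⟨i, hi, h2⟩
      · rw [ind_of_mem hB h2]
        have := Finset.sum_nonneg h0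
        linarith
      · have h3 : (1 : ℝ) ≤ ∑ i ∈ s, ind (C i) y := by
          rw [← ind_of_mem (hC i hi) h2]
          exact Finset.single_le_sum h0 hi
        have := ind_nonneg hB y
        linarith
    · rw [ind_of_notMem hA hy]
      have := Finset.sum_nonneg h0
      have := ind_nonneg hB y
      linarith
  rw [map_add, map_sum] at h1
  exact h1

end meas

section castle

variable {G : Type u} [Group G] {Y : Type v} [TopologicalSpace Y] [MulAction G Y]

/-- `P` is the covered set of a castle with `(K, ε)`-Følner shapes -/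
def Cas (K : Finset G) (ε : ℝ) (P : Set Y) : Prop :=
  ∃ (m : ℕ) (S : Fin m → Finset G) (V : Fin m → Set Y), (∀ j, Fol K ε (S j)) ∧
    (∀ j, IsClopen (V j)) ∧ Levels S V ∧ ∀ y, y ∈ P ↔ ∃ j, ∃ s ∈ S j, s⁻¹ • y ∈ V j

lemma Cas.empty (K : Finset G) (ε : ℝ) : Cas K ε (∅ : Set Y) :=
  ⟨0, Fin.elim0, Fin.elim0, fun j => j.elim0, fun j => j.elim0, fun j => j.elim0, fun y => by
    constructor
    · intro h; exact h.elim
    · rintro ⟨j, -⟩; exact j.elim0⟩

lemma Cas.clopen [ContinuousConstSMul G Y] {K : Finset G} {ε : ℝ} {P : Set Y} (h : Cas K ε P) :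
    IsClopen P := by
  obtain ⟨m, S, V, -, hV, -, hP⟩ := h
  have : P = ⋃ j, ⋃ s ∈ S j, {y | s⁻¹ • y ∈ V j} := by
    ext y
    rw [hP]
    simp
  rw [this]
  refine isClopen_iUnion_of_finite fun j => ?_
  refine (S j).finite_toSet.isClopen_biUnion fun s _ => ?_
  exact (hV j).preimage (continuous_const_smul _)

lemma Cas.add {K : Finset G} {ε : ℝ} {P : Set Y} (h : Cas K ε P) {T : Finset G} {V : Set Y}
    (hT : Fol K ε T) (hV : IsClopen V) (h1 : ∀ s ∈ T, ∀ y ∈ V, s • y ∉ P)
    (h2 : ∀ s ∈ T, ∀ s' ∈ T, ∀ y ∈ V, ∀ y' ∈ V, s • y = s' • y' → s = s') :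
    Cas K ε (P ∪ {z | ∃ s ∈ T, s⁻¹ • z ∈ V}) := by
  obtain ⟨m, S, W, hS, hW, hL, hP⟩ := h
  refine ⟨m + 1, Fin.cons T S, Fin.cons V W, ?_, ?_, ?_, ?_⟩
  · intro j
    refine Fin.cases ?_ (fun i => ?_) j
    · simpa using hT
    · simpa using hS i
  · intro j
    refine Fin.cases ?_ (fun i => ?_) j
    · simpa using hV
    · simpa using hW i
  · intro j j'
    refine Fin.cases ?_ (fun i => ?_) j
    · refine Fin.cases ?_ (fun i' => ?_) j'
      · intro s s' hs hs' x hx x' hx' hxx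
        simp only [Fin.cons_zero] at hs hs' hx hx'
        exact ⟨rfl, h2 s hs s' hs' x hx x' hx' hxx⟩
      · intro s s' hs hs' x hx x' hx' hxx
        simp only [Fin.cons_zero, Fin.cons_succ] at hs hs' hx hx'
        exfalso
        refine h1 s hs x hx ?_
        rw [hP]
        refine ⟨i', s', hs', ?_⟩
        rw [hxx, inv_smul_smul]
        exact hx'
    · refine Fin.cases ?_ (fun i' => ?_) j'
      · intro s s' hs hs' x hx x' hx' hxx
        simp only [Fin.cons_zero, Fin.cons_succ] at hs hs' hx hx'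
        exfalso
        refine h1 s' hs' x' hx' ?_
        rw [hP]
        refine ⟨i, s, hs, ?_⟩
        rw [← hxx, inv_smul_smul]
        exact hx
      · intro s s' hs hs' x hx x' hx' hxx
        simp only [Fin.cons_succ] at hs hs' hx hx'
        obtain ⟨h3, h4⟩ := hL i i' s s' hs hs' x hx x' hx' hxx
        exact ⟨by rw [h3], h4⟩
  · intro y
    rw [Fin.exists_fin_succ]
    simp only [Fin.cons_zero, Fin.cons_succ, Set.mem_union, Set.mem_ofPred_eq, hP]
    exact or_comm

end castle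

section step

variable {G : Type u} [Group G]

open Classical in
/-- large subsets of Følner sets are Følner sets -/
lemma fol_sub {K K' : Finset G} {e δ ε : ℝ} (he : 0 < e) (he1 : e < 1) (hK : K ⊆ K')
    (hde : δ + e ≤ ε * (1 - e)) (hε : 0 < ε) {F T : Finset G}
    (hF : Fol K' δ F) (hT : T ⊆ F) (hc : (1 - e) * F.card ≤ T.card) : Fol K ε T := by
  have hFc : (0 : ℝ) < F.card := by exact_mod_cast hF.1.card_pos
  have hTc : (0 : ℝ) < T.card := lt_of_lt_of_le (mul_pos (by linarith) hFc) hc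
  refine ⟨Finset.card_pos.1 (by exact_mod_cast hTc), fun g hg => ?_⟩
  have h1 : (T.filter fun s => g * s ∉ T) ⊆
      (F.filter fun s => g * s ∉ F) ∪ ((F \ T).image fun s => g⁻¹ * s) := by
    intro s hs
    rw [Finset.mem_filter] at hs
    rw [Finset.mem_union, Finset.mem_filter, Finset.mem_image]
    by_cases h2 : g * s ∈ F
    · exact Or.inr ⟨g * s, Finset.mem_sdiff.2 ⟨h2, hs.2⟩, by group⟩
    · exact Or.inl ⟨hT hs.1, h2⟩
  have h2 : ((T.filter fun s => g * s ∉ T).card : ℝ) ≤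
      ((F.filter fun s => g * s ∉ F).card : ℝ) + ((F \ T).card : ℝ) := by
    have h3 := (Finset.card_le_card h1).trans (Finset.card_union_le _ _)
    have h4 : ((F \ T).image fun s => g⁻¹ * s).card ≤ (F \ T).card := Finset.card_image_le
    exact_mod_cast h3.trans (Nat.add_le_add_left h4 _)
  have h3 := hF.2 g (hK hg)
  have h4 : ((F \ T).card : ℝ) = F.card - T.card := by
    rw [Finset.card_sdiff_of_subset hT, Nat.cast_sub (Finset.card_le_card hT)]
  have h5 : (δ + e) * F.card ≤ ε * (1 - e) * F.card := mul_le_mul_of_nonneg_right hde hFc.le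
  have h6 : ε * ((1 - e) * F.card) ≤ ε * T.card := mul_le_mul_of_nonneg_left hc hε.le
  nlinarith

variable {Y : Type v} [TopologicalSpace Y] [MulAction G Y] [ContinuousConstSMul G Y]

open Classical in
/-- the elements of `F` which move `y` into `P` -/
noncomputable def vis (F : Finset G) (P : Set Y) (y : Y) : Finset G := F.filter fun f => f • y ∈ P

lemma vis_lc (F : Finset G) {P : Set Y} (hP : IsClopen P) : IsLocallyConstant (vis F P) := by
  classical
  rw [IsLocallyConstant.iff_eventually_eq]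
  intro y
  have h : ∀ f ∈ F, ∀ᶠ z in 𝓝 y, (f • z ∈ P ↔ f • y ∈ P) := by
    intro f _
    have hc : Continuous fun z : Y => f • z := continuous_const_smul f
    by_cases hy : f • y ∈ P
    · filter_upwards [(hP.isOpen.preimage hc).mem_nhds hy] with z hz
      exact ⟨fun _ => hy, fun _ => hz⟩
    · filter_upwards [(hP.compl.isOpen.preimage hc).mem_nhds hy] with z hz
      exact ⟨fun h => (hz h).elim, fun h => (hy h).elim⟩
  have h2 := (Filter.eventually_all_finset F).2 h
  filter_upwards [h2] with z hz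
  rw [vis, vis]
  exact Finset.filter_congr hz

/-- the base of the new towers -/
def newC (F : Finset G) (e : ℝ) (P U : Set Y) : Set Y :=
  {y | y ∈ U ∧ ((vis F P y).card : ℝ) ≤ e * F.card}

lemma clopen_lc {α : Type*} {f : Y → α} (hf : IsLocallyConstant f) (s : Set α) :
    IsClopen (f ⁻¹' s) :=
  ⟨⟨by rw [← Set.preimage_compl]; exact hf _⟩, hf s⟩

lemma newC_clopen (F : Finset G) (e : ℝ) {P U : Set Y} (hP : IsClopen P) (hU : IsClopen U) :
    IsClopen (newC F e P U) :=
  hU.inter (clopen_lc (vis_lc F hP) {s | (s.card : ℝ) ≤ e * F.card})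

/-- the new covered set -/
def newP (F : Finset G) (e : ℝ) (P U : Set Y) : Set Y :=
  P ∪ {z | ∃ f ∈ F, f⁻¹ • z ∈ newC F e P U}

/-- the boundary -/
def bd (L : Finset G) (P : Set Y) : Set Y := {y | y ∉ P ∧ ∃ l ∈ L, l • y ∈ P}

lemma bd_clopen (L : Finset G) {P : Set Y} (hP : IsClopen P) : IsClopen (bd L P) := by
  have : bd L P = Pᶜ ∩ ⋃ l ∈ L, {y | l • y ∈ P} := by
    ext y; simp [bd]
  rw [this]
  refine hP.compl.inter ?_
  refine L.finite_toSet.isClopen_biUnion fun s _ => ?_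
  exact hP.preimage (continuous_const_smul _)

lemma bd_mono {L L' : Finset G} (h : L ⊆ L') (P : Set Y) : bd L P ⊆ bd L' P := by
  rintro y ⟨h1, l, hl, h2⟩
  exact ⟨h1, l, h hl, h2⟩

/-- the elements of `F` which move `y` out of `P` -/
lemma card_out (F : Finset G) (P : Set Y) (y : Y) [DecidablePred fun f : G => f • y ∉ P] :
    ((F.filter fun f => f • y ∉ P).card : ℝ) = F.card - (vis F P y).card := by
  classical
  have h := Finset.card_filter_add_card_filter_not (s := F) (fun f => f • y ∈ P)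
  have h2 : ((vis F P y).card : ℝ) + ((F.filter fun f => f • y ∉ P).card : ℝ) = F.card := by
    rw [vis]
    have : (F.filter fun f => f • y ∉ P) = (F.filter fun f => ¬ (f • y ∈ P)) := by
      ext; simp
    exact_mod_cast h
  linarith

/-- the new set is covered by a castle -/
lemma step_cas {K K' : Finset G} {e δ ε : ℝ} (he : 0 < e) (he1 : e < 1) (hK : K ⊆ K')
    (hde : δ + e ≤ ε * (1 - e)) (hε : 0 < ε) {F : Finset G} (hF : Fol K' δ F) {P U : Set Y}
    (hP : Cas K ε P) (hU : IsClopen U)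
    (hUF : ∀ f ∈ F, ∀ f' ∈ F, ∀ y ∈ U, ∀ y' ∈ U, f • y = f' • y' → f = f') :
    Cas K ε (newP F e P U) := by
  classical
  -- the base with shape `T`
  let CT : Finset G → Set Y := fun T => {y | y ∈ newC F e P U ∧ F \ vis F P y = T}
  have hCT : ∀ T, IsClopen (CT T) := fun T =>
    (newC_clopen F e hP.clopen hU).inter (clopen_lc (vis_lc F hP.clopen) {s | F \ s = T})
  have key : ∀ 𝒯 : Finset (Finset G), (∀ T ∈ 𝒯, T ⊆ F ∧ (1 - e) * F.card ≤ T.card) →
      Cas K ε (P ∪ {z | ∃ T ∈ 𝒯, ∃ s ∈ T, s⁻¹ • z ∈ CT T}) := by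
    intro 𝒯
    induction 𝒯 using Finset.induction_on with
    | empty =>
      intro _
      simpa using hP
    | insert T 𝒯 hT ih =>
      intro hgood
      have h1 := ih fun T' hT' => hgood T' (Finset.mem_insert_of_mem hT')
      obtain ⟨hTF, hTc⟩ := hgood T (Finset.mem_insert_self _ _)
      have h2 := h1.add (T := T) (V := CT T) (fol_sub he he1 hK hde hε hF hTF hTc) (hCT T) ?_ ?_
      · convert h2 using 1
        ext z
        simp only [Set.mem_union, Set.mem_ofPred_eq, Finset.mem_insert, exists_eq_or_imp]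
        rw [or_assoc, or_congr_right or_comm]
      · intro s hs y hy hmem
        have hsF : s ∈ F := hTF hs
        rcases hmem with hmem | ⟨T', hT', s', hs', hy'⟩
        · have h3 : s ∈ F \ vis F P y := by rw [hy.2]; exact hs
          rw [Finset.mem_sdiff] at h3
          exact h3.2 (Finset.mem_filter.2 ⟨hsF, hmem⟩)
        · have hs'F : s' ∈ F := (hgood T' (Finset.mem_insert_of_mem hT')).1 hs'
          have h4 : s = s' := hUF s hsF s' hs'F y hy.1.1 _ hy'.1.1 (by rw [smul_inv_smul])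
          subst h4
          rw [inv_smul_smul] at hy'
          have h5 : T = T' := hy.2.symm.trans hy'.2
          exact hT (h5 ▸ hT')
      · intro s hs s' hs' y hy y' hy' h
        exact hUF s (hTF hs) s' (hTF hs') y hy.1.1 y' hy'.1.1 h
  have h1 := key (F.powerset.filter fun T => (1 - e) * F.card ≤ T.card) ?_
  · convert h1 using 1
    ext z
    simp only [newP, Set.mem_union, Set.mem_ofPred_eq, Finset.mem_filter, Finset.mem_powerset]
    constructor
    · rintro (h | ⟨f, hf, hz⟩)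
      · exact Or.inl h
      · by_cases hzP : z ∈ P
        · exact Or.inl hzP
        · right
          have hv : vis F P (f⁻¹ • z) ⊆ F := Finset.filter_subset _ _
          refine ⟨F \ vis F P (f⁻¹ • z), ⟨Finset.sdiff_subset, ?_⟩, f, ?_, hz, rfl⟩
          · rw [Finset.card_sdiff_of_subset hv, Nat.cast_sub (Finset.card_le_card hv)]
            have := hz.2
            linarith
          · rw [Finset.mem_sdiff]
            refine ⟨hf, fun h => hzP ?_⟩
            have := (Finset.mem_filter.1 h).2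
            rwa [smul_inv_smul] at this
    · rintro (h | ⟨T, ⟨hT, -⟩, s, hs, hz⟩)
      · exact Or.inl h
      · exact Or.inr ⟨s, hT hs, hz.1⟩
  · intro T hT
    rw [Finset.mem_filter, Finset.mem_powerset] at hT
    exact hT

/-- the boundary of the new covered set -/
lemma step_bd {K' : Finset G} {e δ : ℝ} (he1 : e < 1) {F : Finset G}
    (hF : Fol K' δ F) {P U : Set Y} (hP : IsClopen P) (hU : IsClopen U) (hδ : 0 < δ)
    (hUF : ∀ f ∈ F, ∀ f' ∈ F, ∀ y ∈ U, ∀ y' ∈ U, f • y = f' • y' → f = f')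
    (L : Finset G) (hL : ∀ l ∈ L, l⁻¹ ∈ K') (hP' : IsClopen (newP F e P U))
    (Λ : C(Y, ℝ) →ₗ[ℝ] ℝ) (hΛ : InvState (⊤ : Subgroup G) Λ) :
    mu Λ (bd L (newP F e P U)) ≤ mu Λ (bd L P) +
      L.card * δ / (1 - e) * (mu Λ (newP F e P U) - mu Λ P) := by
  classical
  set C := newC F e P U with hC
  have hCc : IsClopen C := newC_clopen F e hP hU
  have hFc : (0 : ℝ) < F.card := by exact_mod_cast hF.1.card_pos
  -- first estimate
  have h1 : mu Λ (bd L (newP F e P U)) ≤ mu Λ (bd L P) + L.card * δ * F.card * mu Λ C := by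
    have h2 := mu_le_add_sum hΛ (L.sigma fun l => F.filter fun t => l⁻¹ * t ∉ F)
      (bd_clopen L hP') (bd_clopen L hP) (fun p => {y | (p.1⁻¹ * p.2)⁻¹ • y ∈ C})
      (fun p _ => hCc.preimage (continuous_const_smul _)) ?_
    · refine h2.trans (add_le_add_right ?_ _)
      rw [Finset.sum_congr rfl (fun p _ => mu_inv hΛ hCc _), Finset.sum_const, nsmul_eq_mul]
      refine mul_le_mul_of_nonneg_right ?_ (mu_nonneg hΛ hCc)
      rw [Finset.card_sigma, Nat.cast_sum]
      have : ∀ l ∈ L, (((F.filter fun t => l⁻¹ * t ∉ F).card : ℕ) : ℝ) ≤ δ * F.card :=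
        fun l hl => hF.2 _ (hL l hl)
      refine (Finset.sum_le_sum this).trans ?_
      rw [Finset.sum_const, nsmul_eq_mul]
      linarith
    · rintro y ⟨hy1, l, hl, hy2⟩
      rcases hy2 with hy2 | ⟨f, hf, hy2⟩
      · exact Or.inl ⟨fun h => hy1 (Or.inl h), l, hl, hy2⟩
      · right
        refine ⟨⟨l, f⟩, ?_, ?_⟩
        · simp only [Finset.mem_sigma, Finset.mem_filter]
          refine ⟨hl, hf, fun h => hy1 (Or.inr ⟨l⁻¹ * f, h, ?_⟩)⟩
          rw [mul_inv_rev, inv_inv, mul_smul]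
          exact hy2
        · show (l⁻¹ * f)⁻¹ • y ∈ C
          rw [mul_inv_rev, inv_inv, mul_smul]
          exact hy2
  -- second estimate
  have hD : ∀ f : G, IsClopen {y | y ∈ C ∧ f • y ∉ P} := fun f =>
    hCc.inter (hP.compl.preimage (continuous_const_smul _))
  have h3 : (1 - e) * F.card * mu Λ C ≤ ∑ f ∈ F, mu Λ {y | y ∈ C ∧ f • y ∉ P} := by
    have h4 : Λ (((1 - e) * F.card) • ind C) ≤ Λ (∑ f ∈ F, ind {y | y ∈ C ∧ f • y ∉ P}) := by
      refine lam_mono hΛ fun y => ?_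
      rw [ContinuousMap.smul_apply, ContinuousMap.sum_apply, smul_eq_mul]
      by_cases hy : y ∈ C
      · rw [ind_of_mem hCc hy, mul_one]
        have h5 : ∀ f ∈ F, ind {y | y ∈ C ∧ f • y ∉ P} y = if f • y ∉ P then (1 : ℝ) else 0 := by
          intro f _
          by_cases h6 : f • y ∈ P
          · rw [if_neg (fun h => h h6)]
            exact ind_of_notMem (hD f) (fun h => h.2 h6)
          · rw [if_pos h6]
            exact ind_of_mem (hD f) ⟨hy, h6⟩
        rw [Finset.sum_congr rfl h5, Finset.sum_boole, card_out]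
        have := hy.2
        linarith
      · rw [ind_of_notMem hCc hy, mul_zero]
        exact Finset.sum_nonneg fun f _ => ind_nonneg (hD f) y
    rw [map_smul, map_sum, smul_eq_mul] at h4
    exact h4
  have h4 : ∑ f ∈ F, mu Λ {y | y ∈ C ∧ f • y ∉ P} ≤ mu Λ (newP F e P U) - mu Λ P := by
    have hPP : P ⊆ newP F e P U := Set.subset_union_left
    rw [← mu_diff hP hP' hPP]
    have h5 : ∀ f ∈ F, mu Λ {y | y ∈ C ∧ f • y ∉ P} = mu Λ {z | f⁻¹ • z ∈ C ∧ z ∉ P} := by
      intro f _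
      rw [← mu_inv hΛ (hD f) f⁻¹]
      congr 1
      ext z
      simp
    rw [Finset.sum_congr rfl h5]
    have hE : ∀ f : G, IsClopen {z | f⁻¹ • z ∈ C ∧ z ∉ P} := fun f =>
      (hCc.preimage (continuous_const_smul _)).inter hP.compl
    have h6 : Λ (∑ f ∈ F, ind {z | f⁻¹ • z ∈ C ∧ z ∉ P}) ≤ Λ (ind (newP F e P U \ P)) := by
      refine lam_mono hΛ fun z => ?_
      rw [ContinuousMap.sum_apply]
      by_cases hz : ∃ f ∈ F, f⁻¹ • z ∈ C ∧ z ∉ P
      · obtain ⟨f, hf, hz1, hz2⟩ := hz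
        rw [ind_of_mem (hP'.diff hP) ⟨Or.inr ⟨f, hf, hz1⟩, hz2⟩]
        rw [Finset.sum_eq_single f]
        · exact (ind_of_mem (hE f) ⟨hz1, hz2⟩).le
        · intro f' hf' hne
          refine ind_of_notMem (hE f') fun h => hne ?_
          exact hUF f' hf' f hf _ h.1.1 _ hz1.1 (by rw [smul_inv_smul, smul_inv_smul])
        · intro h; exact (h hf).elim
      · push Not at hz
        rw [Finset.sum_eq_zero]
        · exact ind_nonneg (hP'.diff hP) z
        · intro f hf
          exact ind_of_notMem (hE f) fun h => h.2 (hz f hf h.1)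
    rw [map_sum] at h6
    exact h6
  -- conclusion
  have h5 : F.card * mu Λ C ≤ (mu Λ (newP F e P U) - mu Λ P) / (1 - e) := by
    rw [le_div_iff₀ (by linarith)]
    have := h3.trans h4
    linarith
  have h6 : (L.card * δ) * (F.card * mu Λ C) ≤
      (L.card * δ) * ((mu Λ (newP F e P U) - mu Λ P) / (1 - e)) :=
    mul_le_mul_of_nonneg_left h5 (by positivity)
  have h7 : L.card * δ / (1 - e) * (mu Λ (newP F e P U) - mu Λ P) =
    (L.card * δ) * ((mu Λ (newP F e P U) - mu Λ P) / (1 - e)) := by ring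
  rw [h7]
  linarith

/-- visits to the new set -/
lemma step_vis (F : Finset G) {e : ℝ} (he1 : e < 1) (P U : Set Y) (y : Y) (hy : y ∈ U) :
    e * F.card ≤ (vis F (newP F e P U) y).card := by
  classical
  by_cases h : y ∈ newC F e P U
  · have : vis F (newP F e P U) y = F := by
      rw [vis, Finset.filter_true_of_mem]
      intro f hf
      exact Or.inr ⟨f, hf, by rwa [inv_smul_smul]⟩
    rw [this]
    have : (0 : ℝ) ≤ F.card := by positivity
    nlinarith
  · have h1 : ¬ ((vis F P y).card : ℝ) ≤ e * F.card := fun h' => h ⟨hy, h'⟩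
    have h2 : (vis F P y).card ≤ (vis F (newP F e P U) y).card := by
      refine Finset.card_le_card fun f hf => ?_
      rw [vis, Finset.mem_filter] at hf ⊢
      exact ⟨hf.1, Or.inl hf.2⟩
    have h3 : ((vis F P y).card : ℝ) ≤ (vis F (newP F e P U) y).card := by exact_mod_cast h2
    push Not at h1
    linarith

lemma vis_mono (F : Finset G) {P P' : Set Y} (h : P ⊆ P') (y : Y) :
    ((vis F P y).card : ℝ) ≤ (vis F P' y).card := by
  classical
  have h2 : (vis F P y).card ≤ (vis F P' y).card := by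
    refine Finset.card_le_card fun f hf => ?_
    rw [vis, Finset.mem_filter] at hf ⊢
    exact ⟨hf.1, h hf.2⟩
  exact_mod_cast h2

/-- one stage -/
lemma stage [CompactSpace Y] [T2Space Y] [TotallyDisconnectedSpace Y] (hfree : FreeAct G Y)
    {K K' : Finset G} {e δ ε : ℝ} (he : 0 < e) (he1 : e < 1) (hK : K ⊆ K') (hδ : 0 < δ)
    (hde : δ + e ≤ ε * (1 - e)) (hε : 0 < ε) {F : Finset G} (hF : Fol K' δ F) {P : Set Y}
    (hP : Cas K ε P) (L : Finset G) (hL : ∀ l ∈ L, l⁻¹ ∈ K') :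
    ∃ P' : Set Y, Cas K ε P' ∧ P ⊆ P' ∧ (∀ y, e * F.card ≤ (vis F P' y).card) ∧
      ∀ Λ : C(Y, ℝ) →ₗ[ℝ] ℝ, InvState (⊤ : Subgroup G) Λ →
        mu Λ (bd L P') ≤ mu Λ (bd L P) + L.card * δ / (1 - e) * (mu Λ P' - mu Λ P) := by
  classical
  -- small clopen sets
  have h1 : ∀ y : Y, ∃ U : Set Y, IsClopen U ∧ y ∈ U ∧
      ∀ f ∈ F, ∀ f' ∈ F, ∀ x ∈ U, ∀ x' ∈ U, f • x = f' • x' → f = f' := by
    intro y
    -- eventually in `y × y`
    have h2 : ∀ f ∈ F, ∀ f' ∈ F, ∀ᶠ p : Y × Y in 𝓝 y ×ˢ 𝓝 y, f • p.1 = f' • p.2 → f = f' := by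
      intro f _ f' _
      by_cases hff : f = f'
      · exact Filter.Eventually.of_forall fun p _ => hff
      · have h3 : f • y ≠ f' • y := by
          intro h
          apply hff
          have h4 : (f'⁻¹ * f) • y = y := by rw [mul_smul, h, inv_smul_smul]
          have h5 := hfree _ _ h4
          rw [inv_mul_eq_one] at h5
          exact h5.symm
        obtain ⟨A, B, hA, hB, hyA, hyB, hAB⟩ := t2_separation h3
        have h6 : ∀ᶠ x in 𝓝 y, f • x ∈ A :=
          (hA.preimage (continuous_const_smul f)).mem_nhds hyA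
        have h7 : ∀ᶠ x in 𝓝 y, f' • x ∈ B :=
          (hB.preimage (continuous_const_smul f')).mem_nhds hyB
        filter_upwards [h6.prod_mk h7] with p hp h
        exact (Set.disjoint_left.1 hAB hp.1 (h ▸ hp.2)).elim
    have h3 : ∀ᶠ p : Y × Y in 𝓝 y ×ˢ 𝓝 y, ∀ f ∈ F, ∀ f' ∈ F, f • p.1 = f' • p.2 → f = f' := by
      rw [Filter.eventually_all_finset]
      intro f hf
      rw [Filter.eventually_all_finset]
      intro f' hf'
      exact h2 f hf f' hf'
    obtain ⟨A, hA, hA2⟩ := (Filter.eventually_prod_self_iff (la := 𝓝 y)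
      (r := fun a b : Y => ∀ f ∈ F, ∀ f' ∈ F, f • a = f' • b → f = f')).1 h3
    obtain ⟨A', hA', hAo, hyA⟩ := mem_nhds_iff.1 hA
    obtain ⟨U, hU, hyU, hUA⟩ := compact_exists_isClopen_in_isOpen hAo hyA
    exact ⟨U, hU, hyU, fun f hf f' hf' x hx x' hx' h =>
      hA2 _ (hA' (hUA hx)) _ (hA' (hUA hx')) f hf f' hf' h⟩
  choose U hUc hyU hUF using h1
  obtain ⟨t, ht⟩ := isCompact_univ.elim_finite_subcover U (fun y => (hUc y).isOpen)
    (fun y _ => Set.mem_iUnion.2 ⟨y, hyU y⟩)
  have key : ∀ t : Finset Y, ∃ P' : Set Y, Cas K ε P' ∧ P ⊆ P' ∧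
      (∀ x ∈ t, ∀ y ∈ U x, e * F.card ≤ (vis F P' y).card) ∧
      ∀ Λ : C(Y, ℝ) →ₗ[ℝ] ℝ, InvState (⊤ : Subgroup G) Λ →
        mu Λ (bd L P') ≤ mu Λ (bd L P) + L.card * δ / (1 - e) * (mu Λ P' - mu Λ P) := by
    intro t
    induction t using Finset.induction_on with
    | empty =>
      exact ⟨P, hP, subset_rfl, by simp, fun Λ _ => by simp⟩
    | insert x t _ ih =>
      obtain ⟨P₁, h1, h2, h3, h4⟩ := ih
      have h5 := step_cas he he1 hK hde hε hF h1 (hUc x) (hUF x)
      refine ⟨newP F e P₁ (U x), h5, h2.trans Set.subset_union_left, ?_, ?_⟩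
      · intro x' hx' y hy
        rw [Finset.mem_insert] at hx'
        rcases hx' with rfl | hx'
        · exact step_vis F he1 P₁ (U x') y hy
        · exact (h3 x' hx' y hy).trans (vis_mono F Set.subset_union_left y)
      · intro Λ hΛ
        have h6 := step_bd he1 hF h1.clopen (hUc x) hδ (hUF x) L hL h5.clopen Λ hΛ
        have h7 := h4 Λ hΛ
        have h8 : L.card * δ / (1 - e) * (mu Λ (newP F e P₁ (U x)) - mu Λ P) =
          L.card * δ / (1 - e) * (mu Λ (newP F e P₁ (U x)) - mu Λ P₁) +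
          L.card * δ / (1 - e) * (mu Λ P₁ - mu Λ P) := by ring
        rw [h8]
        linarith
  obtain ⟨P', h1, h2, h3, h4⟩ := key t
  refine ⟨P', h1, h2, fun y => ?_, h4⟩
  obtain ⟨x, hx, hy⟩ := Set.mem_iUnion₂.1 (ht (Set.mem_univ y))
  exact h3 x hx y hy

/-- the remainder gets smaller -/
lemma rem_le {F : Finset G} (hFn : F.Nonempty) {e : ℝ} (he : 0 < e) {P P' : Set Y}
    (hP : IsClopen P) (hP' : IsClopen P') (hPP : P ⊆ P')
    (hv : ∀ y, e * F.card ≤ (vis F P' y).card)
    (Λ : C(Y, ℝ) →ₗ[ℝ] ℝ) (hΛ : InvState (⊤ : Subgroup G) Λ) :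
    mu Λ P'ᶜ ≤ (1 - e) * mu Λ Pᶜ + e * mu Λ (bd F P) := by
  classical
  have hFc : (0 : ℝ) < F.card := by exact_mod_cast hFn.card_pos
  have hQ := bd_clopen F hP
  have hD : ∀ f : G, IsClopen {y : Y | f • y ∈ P' \ P} := fun f =>
    (hP'.diff hP).preimage (continuous_const_smul _)
  have h1 : Λ ((e * F.card) • (ind Pᶜ - ind (bd F P))) ≤
      Λ (∑ f ∈ F, ind {y : Y | f • y ∈ P' \ P}) := by
    refine lam_mono hΛ fun y => ?_
    rw [ContinuousMap.smul_apply, ContinuousMap.sum_apply, smul_eq_mul, ContinuousMap.sub_apply]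
    have h0 : 0 ≤ ∑ f ∈ F, ind {y : Y | f • y ∈ P' \ P} y :=
      Finset.sum_nonneg fun f _ => ind_nonneg (hD f) y
    by_cases hy : y ∈ P
    · rw [ind_of_notMem hP.compl (by simpa using hy), ind_of_notMem hQ (fun h => h.1 hy)]
      simpa using h0
    · rw [ind_of_mem hP.compl hy]
      by_cases hy2 : y ∈ bd F P
      · rw [ind_of_mem hQ hy2]
        simpa using h0
      · rw [ind_of_notMem hQ hy2]
        have h2 : ∀ f ∈ F, f • y ∉ P := fun f hf h => hy2 ⟨hy, f, hf, h⟩
        have h3 : ∀ f ∈ F, ind {y : Y | f • y ∈ P' \ P} y = if f • y ∈ P' then (1 : ℝ) else 0 := by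
          intro f hf
          split_ifs with h6
          · exact ind_of_mem (hD f) ⟨h6, h2 f hf⟩
          · exact ind_of_notMem (hD f) (fun h => h6 h.1)
        rw [Finset.sum_congr rfl h3, Finset.sum_boole]
        have := hv y
        rw [vis] at this
        linarith
  rw [map_smul, map_sum, smul_eq_mul, map_sub] at h1
  have h2 : ∑ f ∈ F, Λ (ind {y : Y | f • y ∈ P' \ P}) = F.card * (mu Λ P' - mu Λ P) := by
    rw [← mu_diff hP hP' hPP, ← nsmul_eq_mul, ← Finset.sum_const]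
    exact Finset.sum_congr rfl fun f _ => mu_inv hΛ (hP'.diff hP) f
  rw [h2] at h1
  have h3 : F.card * (e * (mu Λ Pᶜ - mu Λ (bd F P))) ≤ F.card * (mu Λ P' - mu Λ P) := by
    calc F.card * (e * (mu Λ Pᶜ - mu Λ (bd F P))) =
        e * F.card * (Λ (ind Pᶜ) - Λ (ind (bd F P))) := by rw [mu, mu]; ring
      _ ≤ _ := h1
  have h4 := le_of_mul_le_mul_left h3 hFc
  rw [mu_compl hΛ hP] at h4 ⊢
  rw [mu_compl hΛ hP']
  linarith

/-- the induction -/
lemma induct [CompactSpace Y] [T2Space Y] [TotallyDisconnectedSpace Y] (hfree : FreeAct G Y)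
    (hG : Amenable G) {K : Finset G} {e ε : ℝ} (he : 0 < e) (he1 : e < 1)
    (hde : e + e ≤ ε * (1 - e)) (hε : 0 < ε) (n : ℕ) : ∀ (L : Finset G) (η : ℝ), 0 < η →
    ∃ P : Set Y, Cas K ε P ∧ ∀ Λ : C(Y, ℝ) →ₗ[ℝ] ℝ, InvState (⊤ : Subgroup G) Λ →
      mu Λ Pᶜ ≤ (1 - e) ^ n + η ∧ mu Λ (bd L P) ≤ η := by
  classical
  induction n with
  | zero =>
    intro L η hη
    refine ⟨∅, Cas.empty K ε, fun Λ hΛ => ⟨?_, ?_⟩⟩
    · rw [Set.compl_empty, mu_univ hΛ]
      simpa using hη.le
    · have : bd L (∅ : Set Y) = ∅ := by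
        ext y; simp [bd]
      rw [this, mu_empty]
      exact hη.le
  | succ n ih =>
    intro L η hη
    -- the new Følner set
    have hLc : (0 : ℝ) < L.card + 1 := by positivity
    set δ : ℝ := min e ((1 - e) * η / 2 / (L.card + 1)) with hδd
    have hδ : 0 < δ := lt_min he (by
      have : 0 < 1 - e := by linarith
      positivity)
    have hδe : δ ≤ e := min_le_left _ _
    have hδ2 : L.card * δ / (1 - e) ≤ η / 2 := by
      rw [div_le_iff₀ (by linarith)]
      have h1 : δ ≤ (1 - e) * η / 2 / (L.card + 1) := min_le_right _ _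
      rw [le_div_iff₀ hLc] at h1
      have h2 : (L.card : ℝ) * δ ≤ δ * (L.card + 1) := by nlinarith
      linarith
    obtain ⟨F, hF⟩ := hG (K ∪ L.image fun l => l⁻¹) δ hδ
    obtain ⟨P, hP, hP2⟩ := ih (L ∪ F) (η / 2) (by linarith)
    obtain ⟨P', h1, h2, h3, h4⟩ := stage hfree he he1 (Finset.subset_union_left) hδ
      (by linarith) hε hF hP L
      (fun l hl => Finset.mem_union_right _ (Finset.mem_image_of_mem _ hl))
    refine ⟨P', h1, fun Λ hΛ => ?_⟩
    obtain ⟨h5, h6⟩ := hP2 Λ hΛ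
    have h7 : mu Λ (bd F P) ≤ η / 2 := (mu_mono hΛ (bd_clopen F hP.clopen)
      (bd_clopen _ hP.clopen) (bd_mono Finset.subset_union_right P)).trans h6
    have h8 : mu Λ (bd L P) ≤ η / 2 := (mu_mono hΛ (bd_clopen L hP.clopen)
      (bd_clopen _ hP.clopen) (bd_mono Finset.subset_union_left P)).trans h6
    have h9 := rem_le hF.1 he hP.clopen h1.clopen h2 h3 Λ hΛ
    have h10 := h4 Λ hΛ
    have h11 : mu Λ P' ≤ 1 := by
      rw [← mu_univ hΛ]
      exact mu_mono hΛ h1.clopen isClopen_univ (Set.subset_univ _)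
    have h12 : 0 ≤ mu Λ P := mu_nonneg hΛ hP.clopen
    have h13 : mu Λ P ≤ mu Λ P' := mu_mono hΛ hP.clopen h1.clopen h2
    constructor
    · calc mu Λ P'ᶜ ≤ (1 - e) * mu Λ Pᶜ + e * mu Λ (bd F P) := h9
        _ ≤ (1 - e) * ((1 - e) ^ n + η / 2) + e * (η / 2) := by
          have : 0 ≤ 1 - e := by linarith
          gcongr
        _ = (1 - e) ^ (n + 1) + η / 2 := by ring
        _ ≤ (1 - e) ^ (n + 1) + η := by linarith
    · have h14 : L.card * δ / (1 - e) * (mu Λ P' - mu Λ P) ≤ η / 2 * 1 :=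
        mul_le_mul hδ2 (by linarith) (by linarith) (by linarith)
      linarith

end step

end CY

open CY in
/-- castles with small remainder on totally disconnected spaces -/
theorem t_CY : StCY := by
  intro G _ _ Y _ _ _ _ _ _ hG hfree K ε ρ hε hρ
  set e : ℝ := min ε 1 / 4 with he_def
  have h1 : 0 < min ε 1 := lt_min hε one_pos
  have h2 : min ε 1 ≤ ε := min_le_left _ _
  have h3 : min ε 1 ≤ 1 := min_le_right _ _
  have he : 0 < e := by positivity
  have he1 : e < 1 := by linarith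
  have hde : e + e ≤ ε * (1 - e) := by nlinarith
  obtain ⟨n, hn⟩ := exists_pow_lt_of_lt_one (half_pos hρ) (show 1 - e < 1 by linarith)
  obtain ⟨P, ⟨m, S, V, hS, hV, hL, hPm⟩, hP2⟩ :=
    induct (Y := Y) hfree hG (K := K) he he1 hde hε n ∅ (ρ / 2) (by linarith)
  have hPc : IsClopen P := Cas.clopen ⟨m, S, V, hS, hV, hL, hPm⟩
  refine ⟨m, S, V, hS, hV, hL, fun Λ hΛ f hf hf0 => ?_⟩
  have h4 := (hP2 Λ hΛ).1
  have h5 : Λ f ≤ Λ (ind Pᶜ) := by
    refine lam_mono hΛ fun y => ?_
    by_cases hy : y ∈ P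
    · obtain ⟨j, s, hs, hy'⟩ := (hPm y).1 hy
      have h6 := hf0 j s hs _ hy'
      rw [smul_inv_smul] at h6
      rw [h6]
      exact ind_nonneg hPc.compl y
    · rw [ind_of_mem hPc.compl hy]
      exact (hf y).2
  have h6 : Λ (ind Pᶜ) = mu Λ Pᶜ := rfl
  linarith

end Pool.Agent.H107ZS
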