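import Pool.Agent.H107_ZS.DStubs3
import Pool.Agent.H107_ZS.TCY

/-!
# Castles on `X` (`StCP`)
-/

set_option autoImplicit false

namespace Pool.Agent.H107ZS

open Topology

universe u v w

namespace TCP

open Pool.Agent.H107ZS.CY

theorem exists_beta (c : ℝ) (hc : 0 < c) : ∃ β : ℝ, 0 < β ∧ 8 * β * c = 1 :=
  ⟨1 / (8 * c), by positivity, by field_simp⟩

theorem aux_q (t β q : ℝ) (ht : 0 ≤ t) (hβ : 0 < β) (hq : t / β + 1 ≤ q) :
    0 < q ∧ t ≤ q * β := by
  have h0 : 0 ≤ t / β := div_nonneg ht hβ.le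
  refine ⟨by linarith, ?_⟩
  rw [← div_le_iff₀ hβ]
  linarith

section gen

variable {Y : Type v} [TopologicalSpace Y]

open Classical in
/-- the indicator function of a clopen set, with values in `ℕ` -/
noncomputable def indN (A : Set Y) (hA : IsClopen A) : C(Y, ℕ) :=
  ⟨fun y => if y ∈ A then 1 else 0, by
    rw [← IsLocallyConstant.iff_continuous, IsLocallyConstant.iff_eventually_eq]
    intro x
    by_cases hx : x ∈ A
    · filter_upwards [hA.isOpen.mem_nhds hx] with y hy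
      simp [hx, hy]
    · filter_upwards [hA.compl.isOpen.mem_nhds hx] with y hy
      have hy' : y ∉ A := hy
      simp [hx, hy']⟩

open Classical in
theorem indN_apply (A : Set Y) (hA : IsClopen A) (y : Y) :
    indN A hA y = if y ∈ A then 1 else 0 := rfl

theorem toR_indN (A : Set Y) (hA : IsClopen A) : toR (indN A hA) = ind A := by
  ext y
  by_cases hy : y ∈ A
  · rw [ind_of_mem hA hy]
    simp [toR, indN_apply, hy]
  · rw [ind_of_notMem hA hy]
    simp [toR, indN_apply, hy]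

/-- a clopen set between a closed set and an open set -/
theorem exists_clopen_between [CompactSpace Y] [T2Space Y] [TotallyDisconnectedSpace Y]
    {K U : Set Y} (hK : IsClosed K) (hU : IsOpen U) (h : K ⊆ U) :
    ∃ N : Set Y, IsClopen N ∧ K ⊆ N ∧ N ⊆ U := by
  classical
  choose! B hB1 hB2 hB3 using fun (y : Y) (hy : y ∈ U) => compact_exists_isClopen_in_isOpen hU hy
  obtain ⟨T, hT⟩ := hK.isCompact.elim_nhds_subcover' (fun y _ => B y)
    (fun y hy => (hB1 y (h hy)).isOpen.mem_nhds (hB2 y (h hy)))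
  refine ⟨⋃ y ∈ T, B y, ?_, hT, ?_⟩
  · exact T.finite_toSet.isClopen_biUnion fun y _ => hB1 y (h y.2)
  · intro z hz
    simp only [Set.mem_iUnion] at hz
    obtain ⟨y, _, hz⟩ := hz
    exact hB3 y (h y.2) hz

end gen

section dyn

variable {G : Type u} [Group G] {X : Type u} [TopologicalSpace X] [CompactSpace X]
  [MulAction G X] [ContinuousConstSMul G X]

/-- finitely many translates of an open set cover -/
theorem exists_cover (hMin : MinAct G X) (W : Set X) (hW : IsOpen W) (hne : W.Nonempty) :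
    ∃ P : Finset G, ∀ x, ∃ g ∈ P, g • x ∈ W := by
  classical
  have h1 : ∀ x : X, ∃ g : G, g • x ∈ W := by
    intro x
    obtain ⟨z, ⟨g, rfl⟩, hz⟩ := (hMin x).exists_mem_open hW hne
    exact ⟨g, hz⟩
  obtain ⟨P, hP⟩ := isCompact_univ.elim_finite_subcover (fun g : G => {x : X | g • x ∈ W})
    (fun g => hW.preimage (continuous_const_smul g)) (fun x _ => by
      obtain ⟨g, hg⟩ := h1 x
      exact Set.mem_iUnion.2 ⟨g, hg⟩)
  refine ⟨P, fun x => ?_⟩
  have := hP (Set.mem_univ x)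
  simp only [Set.mem_iUnion] at this
  obtain ⟨g, hg, hx⟩ := this
  exact ⟨g, hg, hx⟩

end dyn

section meas

variable {G : Type u} [Group G] {Y : Type u} [TopologicalSpace Y] [MulAction G Y]
  [ContinuousConstSMul G Y] {Λ : C(Y, ℝ) →ₗ[ℝ] ℝ}

/-- the union of the levels `s D_j` -/
def lev {m : ℕ} (S : Fin m → Finset G) (D : Fin m → Set Y) : Set Y :=
  ⋃ q ∈ Finset.univ.sigma S, {y | q.2⁻¹ • y ∈ D q.1}

omit [TopologicalSpace Y] [ContinuousConstSMul G Y] in
theorem mem_lev {m : ℕ} (S : Fin m → Finset G) (D : Fin m → Set Y) (y : Y) :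
    y ∈ lev S D ↔ ∃ j, ∃ s ∈ S j, s⁻¹ • y ∈ D j := by
  simp only [lev, Set.mem_iUnion, exists_prop]
  constructor
  · rintro ⟨q, hq, hy⟩
    exact ⟨q.1, q.2, (Finset.mem_sigma.1 hq).2, hy⟩
  · rintro ⟨j, s, hs, hy⟩
    exact ⟨⟨j, s⟩, Finset.mem_sigma.2 ⟨Finset.mem_univ _, hs⟩, hy⟩

theorem isClopen_lev {m : ℕ} (S : Fin m → Finset G) (D : Fin m → Set Y)
    (hD : ∀ j, IsClopen (D j)) : IsClopen (lev S D) :=
  (Finset.univ.sigma S).finite_toSet.isClopen_biUnion fun q _ =>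
    (hD q.1).preimage (continuous_const_smul q.2⁻¹)

/-- if finitely many translates of `B` cover then `B` is not small -/
theorem one_le_card_mu (hΛ : InvState (⊤ : Subgroup G) Λ) (P : Finset G) {B : Set Y}
    (hB : IsClopen B) (h : ∀ y, ∃ g ∈ P, g • y ∈ B) : 1 ≤ P.card * mu Λ B := by
  have h1 := mu_le_add_sum hΛ P (A := Set.univ) (B := ∅) isClopen_univ isClopen_empty
    (fun g => {y | g • y ∈ B}) (fun g _ => hB.preimage (continuous_const_smul g))
    (fun y _ => Or.inr (h y))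
  rw [mu_univ hΛ, mu_empty, zero_add, Finset.sum_congr rfl fun g _ => mu_inv hΛ hB g,
    Finset.sum_const, nsmul_eq_mul] at h1
  exact h1

/-- if the sets `g⁻¹ N` have multiplicity at most `C` then `N` is small -/
theorem card_mu_le (hΛ : InvState (⊤ : Subgroup G) Λ) (Q : Finset G) {N : Set Y}
    (hN : IsClopen N) (C : ℕ) (h : ∀ (y : Y) (F : Finset G), F ⊆ Q → (∀ g ∈ F, g • y ∈ N) →
      F.card ≤ C) : Q.card * mu Λ N ≤ C := by
  classical
  have h1 : Λ (∑ g ∈ Q, ind {y | g • y ∈ N}) ≤ Λ ((C : ℝ) • (1 : C(Y, ℝ))) := by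
    refine lam_mono hΛ fun y => ?_
    rw [ContinuousMap.sum_apply]
    have h2 : ∀ g ∈ Q, ind {y | g • y ∈ N} y = if g • y ∈ N then (1 : ℝ) else 0 := by
      intro g _
      have hc : IsClopen {y : Y | g • y ∈ N} := hN.preimage (continuous_const_smul g)
      by_cases hy : g • y ∈ N
      · rw [ind_of_mem hc hy, if_pos hy]
      · rw [ind_of_notMem hc hy, if_neg hy]
    rw [Finset.sum_congr rfl h2, Finset.sum_boole]
    have h3 := h y (Q.filter fun g => g • y ∈ N) (Finset.filter_subset _ _)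
      (fun g hg => (Finset.mem_filter.1 hg).2)
    have h4 : (((C : ℝ) • (1 : C(Y, ℝ))) y) = C := by simp
    rw [h4]
    exact_mod_cast h3
  rw [map_sum, map_smul, hΛ.one, smul_eq_mul, mul_one] at h1
  have h2 : ∑ g ∈ Q, Λ (ind {y | g • y ∈ N}) = ∑ g ∈ Q, mu Λ N :=
    Finset.sum_congr rfl fun g _ => mu_inv hΛ hN g
  rw [h2, Finset.sum_const, nsmul_eq_mul] at h1
  exact h1

/-- the levels of a castle have total measure at most one -/
theorem sum_levels_le (hΛ : InvState (⊤ : Subgroup G) Λ) {m : ℕ} (S : Fin m → Finset G)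
    (D : Fin m → Set Y) (hD : ∀ j, IsClopen (D j)) (hlev : Levels S D) :
    ∑ j, ((S j).card : ℝ) * mu Λ (D j) ≤ 1 := by
  classical
  have h1 : Λ (∑ q ∈ Finset.univ.sigma S, ind {y | q.2⁻¹ • y ∈ D q.1}) ≤ Λ (1 : C(Y, ℝ)) := by
    refine lam_mono hΛ fun y => ?_
    rw [ContinuousMap.sum_apply]
    have h2 : ∀ q ∈ Finset.univ.sigma S, ind {y | q.2⁻¹ • y ∈ D q.1} y =
        if q.2⁻¹ • y ∈ D q.1 then (1 : ℝ) else 0 := by
      intro q _
      have hc : IsClopen {y : Y | q.2⁻¹ • y ∈ D q.1} :=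
        (hD q.1).preimage (continuous_const_smul q.2⁻¹)
      by_cases hy : q.2⁻¹ • y ∈ D q.1
      · rw [ind_of_mem hc hy, if_pos hy]
      · rw [ind_of_notMem hc hy, if_neg hy]
    rw [Finset.sum_congr rfl h2, Finset.sum_boole]
    have h3 : ((Finset.univ.sigma S).filter fun q => q.2⁻¹ • y ∈ D q.1).card ≤ 1 := by
      rw [Finset.card_le_one]
      rintro ⟨j, s⟩ hq ⟨j', s'⟩ hq'
      rw [Finset.mem_filter, Finset.mem_sigma] at hq hq'
      have := hlev j j' s s' hq.1.2 hq'.1.2 _ hq.2 _ hq'.2 (by simp)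
      obtain ⟨rfl, rfl⟩ := this
      rfl
    have h4 : ((1 : C(Y, ℝ)) y) = 1 := rfl
    rw [h4]
    exact_mod_cast h3
  rw [map_sum, hΛ.one] at h1
  refine le_trans (le_of_eq ?_) h1
  rw [Finset.sum_sigma]
  refine Finset.sum_congr rfl fun j _ => ?_
  have h5 : ∀ s ∈ S j, Λ (ind {y | s⁻¹ • y ∈ D j}) = mu Λ (D j) := fun s _ =>
    mu_inv hΛ (hD j) s⁻¹
  rw [Finset.sum_congr rfl h5, Finset.sum_const, nsmul_eq_mul]

end meas

end TCP

open TCP CY in
/-- castles on `X` -/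
theorem t_CP (hCYR : StCYR.{u}) (hND : StND.{u}) (hCOL : StCOL.{u}) : StCP.{u} := by
  classical
  intro G _ _ _ X _ _ _ _ _ _ Y _ _ _ _ _ _ π p hAm hMin hFree hπ hsur heq hfib hbd hComp
  have hFreeY : FreeAct G Y := fun g y hgy => hFree g (π y) (by rw [← heq, hgy])
  have hcl : IsClosedMap π := hπ.isClosedMap
  have hY : Nonempty Y := by
    obtain ⟨x⟩ := ‹Nonempty X›
    obtain ⟨y, _⟩ := hsur x
    exact ⟨y⟩
  intro W hW hWne
  obtain ⟨P, hP⟩ := exists_cover hMin W hW hWne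
  -- the clopen set `B0`
  obtain ⟨B0, hB0, hB0W, hPB0⟩ : ∃ B0 : Set Y, IsClopen B0 ∧ (∀ y ∈ B0, π y ∈ W) ∧
      ∀ y, ∃ g ∈ P, g • y ∈ B0 := by
    have h1 : ∀ y : Y, ∃ g ∈ P, ∃ B : Set Y, IsClopen B ∧ g • y ∈ B ∧ B ⊆ π ⁻¹' W := by
      intro y
      obtain ⟨g, hg, hgy⟩ := hP (π y)
      have hgy' : g • y ∈ π ⁻¹' W := by
        rw [Set.mem_preimage, heq]
        exact hgy
      obtain ⟨B, hB1, hB2, hB3⟩ := compact_exists_isClopen_in_isOpen (hW.preimage hπ) hgy'
      exact ⟨g, hg, B, hB1, hB2, hB3⟩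
    choose g hg B hB1 hB2 hB3 using h1
    obtain ⟨T, hT⟩ := isCompact_univ.elim_nhds_subcover (fun y => {y' : Y | g y • y' ∈ B y})
      (fun y _ => ((hB1 y).preimage (continuous_const_smul (g y))).isOpen.mem_nhds (hB2 y))
    refine ⟨⋃ y ∈ T, B y, T.finite_toSet.isClopen_biUnion fun y _ => hB1 y, ?_, fun y => ?_⟩
    · intro z hz
      simp only [Set.mem_iUnion] at hz
      obtain ⟨y, _, hz⟩ := hz
      exact hB3 y hz
    · have := hT.2 (Set.mem_univ y)
      simp only [Set.mem_iUnion] at this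
      obtain ⟨y', hy', h⟩ := this
      refine ⟨g y', hg y', ?_⟩
      simp only [Set.mem_iUnion]
      exact ⟨y', hy', h⟩
  have hPpos : 0 < P.card := by
    obtain ⟨x⟩ := ‹Nonempty X›
    obtain ⟨g, hg, _⟩ := hP x
    exact Finset.card_pos.2 ⟨g, hg⟩
  have hPR : (0 : ℝ) < P.card := by exact_mod_cast hPpos
  obtain ⟨β, hβ0, hβ⟩ := exists_beta (P.card : ℝ) hPR
  have hB0big : ∀ Λ : C(Y, ℝ) →ₗ[ℝ] ℝ, InvState (⊤ : Subgroup G) Λ → 8 * β ≤ mu Λ B0 := by
    intro Λ hΛ
    have h1 := one_le_card_mu hΛ P hB0 hPB0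
    have h2 : (P.card : ℝ) * (8 * β) ≤ P.card * mu Λ B0 := by
      have h3 : (P.card : ℝ) * (8 * β) = 8 * β * P.card := mul_comm _ _
      rw [h3, hβ]
      exact h1
    exact le_of_mul_le_mul_left h2 hPR
  refine ⟨β, hβ0, ?_⟩
  intro K ε hε n O hO hOcov
  obtain ⟨m, S, D, hFol, hD, hlev, hlevO, hrem⟩ := hCYR G Y hAm hFreeY K ε β hε hβ0 n
    (fun i => π ⁻¹' O i) (fun i => (hO i).preimage hπ) (fun y => hOcov (π y))
  -- the sets in `X`
  let V : Fin m → Set X := fun j => (π '' (D j)ᶜ)ᶜ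
  let bd : Fin m → Set X := fun j => π '' D j ∩ π '' (D j)ᶜ
  have hVopen : ∀ j, IsOpen (V j) := fun j =>
    (hcl _ (hD j).compl.isClosed).isOpen_compl
  have hbdcl : ∀ j, IsClosed (bd j) := fun j =>
    (hcl _ (hD j).isClosed).inter (hcl _ (hD j).compl.isClosed)
  have hVD : ∀ j y, π y ∈ V j → y ∈ D j := by
    intro j y hy
    by_contra hcon
    exact hy ⟨y, hcon, rfl⟩
  choose Cb hCb using fun j => hbd (D j) (hD j)
  -- a large finite set
  obtain ⟨q, hq⟩ := exists_nat_ge ((∑ j, ((S j).card : ℝ) * Cb j) / β + 1)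
  obtain ⟨Q, hQ⟩ := Infinite.exists_subset_card_eq G q
  have hq' := aux_q _ β q (Finset.sum_nonneg fun j _ => by positivity) hβ0 hq
  rw [← hQ] at hq'
  obtain ⟨hQpos, hQβ⟩ := hq'
  have hO1 : ∀ j, ∃ O1 : Set X, IsOpen O1 ∧ bd j ⊆ O1 ∧
      ∀ (x : X) (F : Finset G), F ⊆ Q → (∀ g ∈ F, g • x ∈ closure O1) → F.card ≤ Cb j := by
    intro j
    refine hND G X (bd j) Q (Cb j) (hbdcl j) fun x F _ hF => hCb j x F fun g hg => ?_
    obtain ⟨⟨y, hy1, hy2⟩, ⟨y', hy1', hy2'⟩⟩ := hF g hg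
    exact ⟨⟨y, hy1, hy2⟩, ⟨y', hy1', hy2'⟩⟩
  choose O1 hO1a hO1b hO1c using hO1
  have hO2 : ∀ j, ∃ O2 : Set X, IsOpen O2 ∧ bd j ⊆ O2 ∧ closure O2 ⊆ O1 j := fun j =>
    normal_exists_closure_subset (hbdcl j) (hO1a j) (hO1b j)
  choose O2 hO2a hO2b hO2c using hO2
  have hN : ∀ j, ∃ N : Set Y, IsClopen N ∧ π ⁻¹' (closure (O2 j)) ⊆ N ∧ N ⊆ π ⁻¹' (O1 j) := fun j =>
    exists_clopen_between (isClosed_closure.preimage hπ) ((hO1a j).preimage hπ)
      (Set.preimage_mono (hO2c j))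
  choose N hN1 hN2 hN3 using hN
  have hNmu : ∀ Λ : C(Y, ℝ) →ₗ[ℝ] ℝ, InvState (⊤ : Subgroup G) Λ → ∀ j,
      Q.card * mu Λ (N j) ≤ Cb j := by
    intro Λ hΛ j
    refine card_mu_le hΛ Q (hN1 j) (Cb j) fun y F hF hFy => hO1c j (π y) F hF fun g hg => ?_
    rw [← heq]
    exact subset_closure (hN3 j (hFy g hg))
  let CX : Fin m → Set X := fun j => π '' D j \ O2 j
  have hCXcl : ∀ j, IsClosed (CX j) := fun j =>
    (hcl _ (hD j).isClosed).inter (hO2a j).isClosed_compl
  have hCXV : ∀ j, CX j ⊆ V j := by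
    intro j x hx hx'
    exact hx.2 (hO2b j ⟨hx.1, hx'⟩)
  have hint : ∀ j y, y ∈ D j → y ∉ N j → π y ∈ interior (CX j) := by
    intro j y hy hyN
    have h1 : π y ∉ closure (O2 j) := fun h => hyN (hN2 j h)
    have h2 : π y ∈ V j := by
      intro h
      exact h1 (subset_closure (hO2b j ⟨⟨y, hy, rfl⟩, h⟩))
    have h3 : IsOpen (V j ∩ (closure (O2 j))ᶜ) := (hVopen j).inter isClosed_closure.isOpen_compl
    have h4 : V j ∩ (closure (O2 j))ᶜ ⊆ CX j := by
      intro x hx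
      obtain ⟨y', rfl⟩ := hsur x
      exact ⟨⟨y', hVD j y' hx.1, rfl⟩, fun h => hx.2 (subset_closure h)⟩
    exact interior_maximal h4 h3 ⟨h2, h1⟩
  refine ⟨m, S, V, CX, hFol, hVopen, hCXcl, hCXV, ?_, ?_, ?_⟩
  · intro j j' s s' hs hs' x hx x' hx' hxx
    obtain ⟨y, rfl⟩ := hsur x
    have h1 : π (s'⁻¹ • s • y) = x' := by
      rw [heq, heq, hxx, inv_smul_smul]
    rw [← h1] at hx'
    exact hlev j j' s s' hs hs' y (hVD j y hx) _ (hVD j' _ hx') (by rw [smul_inv_smul])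
  · intro j s hs
    obtain ⟨i, hi⟩ := hlevO j s hs
    refine ⟨i, fun x hx => ?_⟩
    obtain ⟨y, rfl⟩ := hsur x
    have := hi y (hVD j y hx)
    rwa [Set.mem_preimage, heq] at this
  intro T hT
  -- the clopen sets in `Y`
  set Lev : Set Y := lev S D with hLevdef
  set Np : Set Y := lev S N with hNpdef
  set Tp : Set Y := lev (fun j => S j \ T j) D with hTpdef
  have hLev : IsClopen Lev := isClopen_lev S D hD
  have hNp : IsClopen Np := isClopen_lev S N hN1
  have hTp : IsClopen Tp := isClopen_lev _ D hD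
  have hmemLev : ∀ y, y ∈ Lev ↔ ∃ j, ∃ s ∈ S j, s⁻¹ • y ∈ D j := mem_lev S D
  have hmemNp : ∀ y, y ∈ Np ↔ ∃ j, ∃ s ∈ S j, s⁻¹ • y ∈ N j := mem_lev S N
  have hmemTp : ∀ y, y ∈ Tp ↔ ∃ j, ∃ s ∈ S j \ T j, s⁻¹ • y ∈ D j := mem_lev _ D
  let A1 : Set Y := Levᶜ ∪ Np
  have hA1 : IsClopen A1 := hLev.compl.union hNp
  let A : Set Y := A1 ∪ Tp
  have hA : IsClopen A := hA1.union hTp
  let B : Set Y := B0 \ A1
  have hB : IsClopen B := hB0.diff hA1
  have hgood : ∀ y j s, s ∈ S j → s⁻¹ • y ∈ D j → y ∉ Np → s⁻¹ • π y ∈ interior (CX j) := by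
    intro y j s hs hy hyN
    rw [← heq]
    refine hint j _ hy fun h => hyN ((hmemNp y).2 ⟨j, s, hs, h⟩)
  have hmeas : ∀ Λ : C(Y, ℝ) →ₗ[ℝ] ℝ, InvState (⊤ : Subgroup G) Λ →
      Λ (toR (indN A hA)) < Λ (toR (indN B hB)) := by
    intro Λ hΛ
    rw [toR_indN, toR_indN]
    change mu Λ A < mu Λ B
    have hremmu : mu Λ Levᶜ ≤ β := by
      refine hrem Λ hΛ (ind Levᶜ) (fun y => ⟨ind_nonneg hLev.compl y, ?_⟩) ?_
      · by_cases hy : y ∈ Levᶜ
        · rw [ind_of_mem hLev.compl hy]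
        · rw [ind_of_notMem hLev.compl hy]
          exact zero_le_one
      · intro j s hs y hy
        apply ind_of_notMem hLev.compl
        intro h
        apply h
        rw [hmemLev]
        exact ⟨j, s, hs, by rwa [inv_smul_smul]⟩
    have hNsum : ∑ q ∈ Finset.univ.sigma S, mu Λ {y | q.2⁻¹ • y ∈ N q.1} ≤ β := by
      rw [Finset.sum_sigma]
      have h1 : ∀ j, ∑ s ∈ S j, mu Λ {y | s⁻¹ • y ∈ N j} = (S j).card * mu Λ (N j) := by
        intro j
        rw [Finset.sum_congr rfl fun s _ => mu_inv hΛ (hN1 j) s⁻¹, Finset.sum_const, nsmul_eq_mul]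
      rw [Finset.sum_congr rfl fun j _ => h1 j]
      have h2 : (Q.card : ℝ) * ∑ j, ((S j).card : ℝ) * mu Λ (N j) ≤
          ∑ j, ((S j).card : ℝ) * Cb j := by
        rw [Finset.mul_sum]
        refine Finset.sum_le_sum fun j _ => ?_
        have h3 := hNmu Λ hΛ j
        have h4 : (0 : ℝ) ≤ (S j).card := by positivity
        nlinarith
      have h3 : (Q.card : ℝ) * ∑ j, ((S j).card : ℝ) * mu Λ (N j) ≤ Q.card * β := h2.trans hQβ
      exact le_of_mul_le_mul_left h3 hQpos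
    have hTsum : ∑ q ∈ Finset.univ.sigma (fun j => S j \ T j), mu Λ {y | q.2⁻¹ • y ∈ D q.1} ≤
        β := by
      rw [Finset.sum_sigma]
      have h1 : ∀ j, ∑ s ∈ S j \ T j, mu Λ {y | s⁻¹ • y ∈ D j} =
          ((S j \ T j).card : ℝ) * mu Λ (D j) := by
        intro j
        rw [Finset.sum_congr rfl fun s _ => mu_inv hΛ (hD j) s⁻¹, Finset.sum_const, nsmul_eq_mul]
      rw [Finset.sum_congr rfl fun j _ => h1 j]
      have h2 : ∀ j, ((S j \ T j).card : ℝ) * mu Λ (D j) ≤ β * ((S j).card * mu Λ (D j)) := by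
        intro j
        have h3 : ((S j \ T j).card : ℝ) = (S j).card - (T j).card := by
          rw [Finset.card_sdiff_of_subset (hT j).1, Nat.cast_sub (Finset.card_le_card (hT j).1)]
        have h4 := (hT j).2
        have h5 := mu_nonneg hΛ (hD j)
        have h6 : ((S j \ T j).card : ℝ) ≤ β * (S j).card := by
          rw [h3]
          linarith
        nlinarith
      refine (Finset.sum_le_sum fun j _ => h2 j).trans ?_
      rw [← Finset.mul_sum]
      have h3 := sum_levels_le hΛ S D hD hlev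
      nlinarith
    have hA1mu : mu Λ A1 ≤ 2 * β := by
      have h1 := mu_le_add_sum hΛ (Finset.univ.sigma S) hA1 hLev.compl
        (fun q => {y | q.2⁻¹ • y ∈ N q.1})
        (fun q _ => (hN1 q.1).preimage (continuous_const_smul q.2⁻¹)) (fun y hy => by
          rcases hy with hy | hy
          · exact Or.inl hy
          · right
            obtain ⟨j, s, hs, h⟩ := (hmemNp y).1 hy
            exact ⟨⟨j, s⟩, Finset.mem_sigma.2 ⟨Finset.mem_univ _, hs⟩, h⟩)
      linarith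
    have hAmu : mu Λ A ≤ 3 * β := by
      have h1 := mu_le_add_sum hΛ (Finset.univ.sigma (fun j => S j \ T j)) hA hA1
        (fun q => {y | q.2⁻¹ • y ∈ D q.1})
        (fun q _ => (hD q.1).preimage (continuous_const_smul q.2⁻¹)) (fun y hy => by
          rcases hy with hy | hy
          · exact Or.inl hy
          · right
            obtain ⟨j, s, hs, h⟩ := (hmemTp y).1 hy
            exact ⟨⟨j, s⟩, Finset.mem_sigma.2 ⟨Finset.mem_univ _, hs⟩, h⟩)
      linarith
    have hBmu : mu Λ B0 ≤ mu Λ B + mu Λ A1 := by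
      have h1 := mu_le_add_sum hΛ (Finset.univ : Finset (Fin 1)) hB0 hB (fun _ => A1)
        (fun _ _ => hA1) (fun y hy => by
          by_cases h : y ∈ A1
          · exact Or.inr ⟨0, Finset.mem_univ _, h⟩
          · exact Or.inl ⟨hy, h⟩)
      simpa using h1
    have := hB0big Λ hΛ
    linarith
  obtain ⟨n', t, c, _, hc1, hc2⟩ := hComp (indN A hA) (indN B hB) hmeas
  let DD : Fin n' → Set X := fun i => π '' {y | c i y ≠ 0}
  have hclo : ∀ i, IsClopen {y | c i y ≠ 0} := fun i =>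
    (isClopen_discrete ({0}ᶜ : Set ℕ)).preimage (c i).continuous
  refine hCOL G X p n' DD t _ _ (fun i => hcl _ (hclo i).isClosed) ?_ ?_ ?_ ?_
  · -- open
    refine hW.inter ?_
    have h1 : {x : X | ∃ j, ∃ s ∈ S j, s⁻¹ • x ∈ interior (CX j)} =
        ⋃ j, ⋃ s ∈ S j, {x | s⁻¹ • x ∈ interior (CX j)} := by
      ext x
      simp only [Set.mem_ofPred_eq, Set.mem_iUnion, exists_prop]
    change IsOpen {x : X | ∃ j, ∃ s ∈ S j, s⁻¹ • x ∈ interior (CX j)}
    rw [h1]
    exact isOpen_iUnion fun j => isOpen_biUnion fun s _ =>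
      isOpen_interior.preimage (continuous_const_smul s⁻¹)
  · -- cover
    intro x hx
    obtain ⟨y, rfl⟩ := hsur x
    have hyA : y ∈ A := by
      by_contra hcon
      have h1 : y ∉ A1 := fun h => hcon (Or.inl h)
      have h2 : y ∉ Tp := fun h => hcon (Or.inr h)
      have h3 : y ∈ Lev := by
        by_contra h
        exact h1 (Or.inl h)
      have h4 : y ∉ Np := fun h => h1 (Or.inr h)
      obtain ⟨j, s, hs, hy⟩ := (hmemLev y).1 h3
      have h5 : s ∈ T j := by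
        by_contra h
        exact h2 ((hmemTp y).2 ⟨j, s, Finset.mem_sdiff.2 ⟨hs, h⟩, hy⟩)
      exact hx j s h5 (hgood y j s hs hy h4)
    have h6 := hc1 y
    rw [indN_apply, if_pos hyA] at h6
    have h7 : ∃ i, c i y ≠ 0 := by
      by_contra hcon
      push Not at hcon
      rw [Finset.sum_eq_zero fun i _ => hcon i] at h6
      exact zero_ne_one h6
    obtain ⟨i, hi⟩ := h7
    exact ⟨i, y, hi, rfl⟩
  · -- the images
    rintro i x ⟨y, hy, rfl⟩
    have hyB : t i • y ∈ B := by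
      by_contra hcon
      have h1 := hc2 (t i • y)
      rw [indN_apply, if_neg hcon] at h1
      have h2 : c i ((t i)⁻¹ • t i • y) ≤ ∑ k, c k ((t k)⁻¹ • t i • y) :=
        Finset.single_le_sum (f := fun k => c k ((t k)⁻¹ • t i • y)) (fun _ _ => Nat.zero_le _)
          (Finset.mem_univ i)
      rw [inv_smul_smul] at h2
      have h3 : c i y ≠ 0 := hy
      omega
    have h4 : t i • y ∉ A1 := hyB.2
    have h5 : t i • y ∈ Lev := by
      by_contra h
      exact h4 (Or.inl h)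
    have h6 : t i • y ∉ Np := fun h => h4 (Or.inr h)
    obtain ⟨j, s, hs, hy'⟩ := (hmemLev _).1 h5
    refine ⟨?_, j, s, hs, ?_⟩
    · rw [← heq]
      exact hB0W _ hyB.1
    · have := hgood _ j s hs hy' h6
      rwa [heq] at this
  · -- the multiplicity
    intro z F hF
    have h1 : ∀ i : Fin n', ∃ y : Y, i ∈ F → c i y ≠ 0 ∧ π (t i • y) = z := by
      intro i
      by_cases hi : i ∈ F
      · obtain ⟨x, ⟨y, hy, rfl⟩, hx⟩ := hF i hi
        exact ⟨y, fun _ => ⟨hy, by rw [heq]; exact hx⟩⟩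
      · obtain ⟨y⟩ := hY
        exact ⟨y, fun h => absurd h hi⟩
    choose y hy using h1
    have hinj : Set.InjOn (fun i => t i • y i) (F : Set (Fin n')) := by
      intro i hi j hj hij
      by_contra hne
      have hij' : t i • y i = t j • y j := hij
      have h2 := hc2 (t i • y i)
      have h3 : c i ((t i)⁻¹ • t i • y i) + c j ((t j)⁻¹ • t i • y i) ≤
          ∑ k, c k ((t k)⁻¹ • t i • y i) := by
        have h4 : ∑ k ∈ ({i, j} : Finset (Fin n')), c k ((t k)⁻¹ • t i • y i) ≤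
            ∑ k, c k ((t k)⁻¹ • t i • y i) :=
          Finset.sum_le_sum_of_subset (Finset.subset_univ _)
        rwa [Finset.sum_pair hne] at h4
      rw [inv_smul_smul] at h3
      rw [hij', inv_smul_smul, ← hij'] at h3
      have h5 := (hy i hi).1
      have h6 := (hy j hj).1
      have h7 : indN B hB (t i • y i) ≤ 1 := by
        rw [indN_apply]
        split_ifs <;> omega
      omega
    rw [← Finset.card_image_of_injOn hinj]
    apply hfib z
    intro w hw
    obtain ⟨i, hi, rfl⟩ := Finset.mem_image.1 hw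
    exact (hy i hi).2

end Pool.Agent.H107ZS
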