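import Pool.Agent.H107_ZS.DStubs

/-!
# Matching inside the cells (`StCM`)
-/

set_option autoImplicit false

namespace Pool.Agent.H107ZS

open Topology

universe u v w

/-- transport between two weights on a finite set -/
theorem exists_matching {R : Type w} [Fintype R] : ∀ (N : ℕ) (α β : R → ℕ), ∑ r, α r = N →
    ∑ r, α r ≤ ∑ r, β r →
    ∃ M : R → R → ℕ, (∀ k, ∑ h, M k h = α k) ∧ ∀ h, ∑ k, M k h ≤ β h := by
  classical
  intro N
  induction N with
  | zero =>
    intro α β h0 _
    refine ⟨fun _ _ => 0, fun k => ?_, fun h => by simp⟩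
    have := (Finset.sum_eq_zero_iff.1 h0) k (Finset.mem_univ k)
    simp [this]
  | succ N ih =>
    intro α β hα hle
    have h1 : ∃ k, α k ≠ 0 := by
      by_contra hcon
      push Not at hcon
      simp [hcon] at hα
    have h2 : ∃ h, β h ≠ 0 := by
      by_contra hcon
      push Not at hcon
      simp only [hcon, Finset.sum_const_zero] at hle
      omega
    obtain ⟨k, hk⟩ := h1
    obtain ⟨h, hh⟩ := h2
    have e1 : ∑ r, Function.update α k (α k - 1) r + 1 = ∑ r, α r := by
      rw [Finset.sum_update_of_mem (Finset.mem_univ k),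
        ← Finset.add_sum_erase Finset.univ α (Finset.mem_univ k), Finset.sdiff_singleton_eq_erase]
      omega
    have e2 : ∑ r, Function.update β h (β h - 1) r + 1 = ∑ r, β r := by
      rw [Finset.sum_update_of_mem (Finset.mem_univ h),
        ← Finset.add_sum_erase Finset.univ β (Finset.mem_univ h), Finset.sdiff_singleton_eq_erase]
      omega
    obtain ⟨M, hM1, hM2⟩ := ih (Function.update α k (α k - 1)) (Function.update β h (β h - 1))
      (by omega) (by omega)
    refine ⟨fun k' h' => M k' h' + if k' = k ∧ h' = h then 1 else 0, fun k' => ?_, fun h' => ?_⟩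
    · rw [Finset.sum_add_distrib, hM1]
      by_cases hkk : k' = k
      · subst hkk
        simp
        omega
      · simp [hkk]
    · rw [Finset.sum_add_distrib]
      have h3 := hM2 h'
      by_cases hhh : h' = h
      · subst hhh
        simp only [Function.update_self, and_true, Finset.sum_ite_eq', Finset.mem_univ, if_true]
          at h3 ⊢
        omega
      · simp only [ne_eq, hhh, not_false_eq_true, Function.update_of_ne, and_false, if_false,
          Finset.sum_const_zero, add_zero] at h3 ⊢
        exact h3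

section

variable {G : Type u} [Group G] {Y : Type v} [TopologicalSpace Y] [MulAction G Y]
  [ContinuousConstSMul G Y]

omit [ContinuousConstSMul G Y] in
/-- transport indexed by a finite type -/
theorem sub_of_fintype_CM {H : Subgroup G} {a b : C(Y, ℕ)} {ι : Type w} [Fintype ι] (t : ι → G)
    (c : ι → C(Y, ℕ)) (ht : ∀ i, t i ∈ H) (hs : ∀ y, ∑ i, c i y = a y)
    (hb : ∀ y, ∑ i, c i ((t i)⁻¹ • y) ≤ b y) : Sub H a b := by
  refine ⟨Fintype.card ι, fun i => t ((Fintype.equivFin ι).symm i),
    fun i => c ((Fintype.equivFin ι).symm i), fun i => ht _, fun y => ?_, fun y => ?_⟩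
  · rw [← hs y]
    exact Equiv.sum_comp (Fintype.equivFin ι).symm fun i => c i y
  · refine le_trans (le_of_eq ?_) (hb y)
    exact Equiv.sum_comp (Fintype.equivFin ι).symm fun i => c i ((t i)⁻¹ • y)

end

theorem t_CM : StCM.{u} := by
  classical
  intro G _ Y _ _ _ _ H c hc a b hab
  have hfin : (Set.range c).Finite := hc.cont.range_finite
  set R : Finset G := hfin.toFinset with hR
  have hmemR : ∀ y, c y ∈ R := fun y => by simp [hR]
  -- the two weights on the cell of `v`
  let wt : C(Y, ℕ) → Y → (R → ℕ) := fun f v k => if c ((k : G) • v) = k then f ((k : G) • v) else 0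
  have hwt : ∀ (f : C(Y, ℕ)) (v : Y), c v = 1 →
      ∑ k, wt f v k = ∑ᶠ k ∈ {k : G | c (k • v) = k}, f (k • v) := by
    intro f v _
    have hsub : {k : G | c (k • v) = k} = ((R.filter fun k => c (k • v) = k : Finset G) : Set G) := by
      ext k
      simp only [Set.mem_ofPred_eq, Finset.coe_filter]
      constructor
      · intro hk
        exact ⟨by rw [← hk]; exact hmemR _, hk⟩
      · exact fun hk => hk.2
    rw [hsub, finsum_mem_coe_finset, Finset.sum_filter]
    exact Finset.sum_coe_sort R fun k => if c (k • v) = k then f (k • v) else 0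
  -- the matching
  have hM : ∀ α β : R → ℕ, ∃ M : R → R → ℕ, ∑ r, α r ≤ ∑ r, β r →
      (∀ k, ∑ h, M k h = α k) ∧ ∀ h, ∑ k, M k h ≤ β h := by
    intro α β
    by_cases h : ∑ r, α r ≤ ∑ r, β r
    · obtain ⟨M, h1, h2⟩ := exists_matching _ α β rfl h
      exact ⟨M, fun _ => ⟨h1, h2⟩⟩
    · exact ⟨fun _ _ => 0, fun h' => absurd h' h⟩
  choose M hM using hM
  have hMv : ∀ v, c v = 1 → (∀ k, ∑ h, M (wt a v) (wt b v) k h = wt a v k) ∧
      ∀ h, ∑ k, M (wt a v) (wt b v) k h ≤ wt b v h := by
    intro v hv
    apply hM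
    rw [hwt a v hv, hwt b v hv]
    exact hab v hv
  -- local constancy
  have hlc1 : ∀ (f : C(Y, ℕ)) (g : G), IsLocallyConstant fun y => wt f (g • y) := by
    intro f g
    have h1 : ∀ k : R, IsLocallyConstant fun y => wt f (g • y) k := by
      intro k
      have h2 : IsLocallyConstant fun y : Y => c ((k : G) • g • y) :=
        hc.cont.comp_continuous
          ((continuous_const_smul (k : G)).comp (continuous_const_smul g))
      have h3 : IsLocallyConstant fun y : Y => f ((k : G) • g • y) :=
        (IsLocallyConstant.iff_continuous _).2 (f.continuous.comp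
          ((continuous_const_smul (k : G)).comp (continuous_const_smul g)))
      have h4 := (h2.prodMk h3).comp fun p : G × ℕ => if p.1 = (k : G) then p.2 else 0
      exact h4
    rw [IsLocallyConstant.iff_continuous]
    exact continuous_pi fun k => (IsLocallyConstant.iff_continuous _).1 (h1 k)
  let cc : R × R → C(Y, ℕ) := fun p =>
    ⟨fun y => if c y = p.1 then M (wt a ((p.1 : G)⁻¹ • y)) (wt b ((p.1 : G)⁻¹ • y)) p.1 p.2 else 0,
      by
        rw [← IsLocallyConstant.iff_continuous]
        have h1 := (hc.cont.prodMk (((hlc1 a (p.1 : G)⁻¹).prodMk (hlc1 b (p.1 : G)⁻¹)))).comp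
          fun q : G × (R → ℕ) × (R → ℕ) => if q.1 = p.1 then M q.2.1 q.2.2 p.1 p.2 else 0
        exact h1⟩
  have hcc : ∀ (p : R × R) (y : Y), cc p y =
    if c y = p.1 then M (wt a ((p.1 : G)⁻¹ • y)) (wt b ((p.1 : G)⁻¹ • y)) p.1 p.2 else 0 :=
    fun p y => rfl
  have hRH : ∀ k : R, (k : G) ∈ H := by
    intro k
    have h1 : (k : G) ∈ Set.range c := (Set.Finite.mem_toFinset hfin).1 k.2
    obtain ⟨y, hy⟩ := h1
    rw [← hy]
    exact hc.mem y
  refine sub_of_fintype_CM (ι := R × R) (fun p => (p.2 : G) * (p.1 : G)⁻¹) cc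
    (fun p => H.mul_mem (hRH _) (H.inv_mem (hRH _))) (fun y => ?_) fun y => ?_
  · rw [Fintype.sum_prod_type]
    rw [Finset.sum_eq_single (⟨c y, hmemR y⟩ : R)]
    · have h1 := (hMv _ (hc.base y)).1 ⟨c y, hmemR y⟩
      simp only [hcc, if_true]
      rw [h1]
      simp [wt]
    · intro k _ hk
      apply Finset.sum_eq_zero
      intro h _
      rw [hcc, if_neg]
      intro h'
      exact hk (Subtype.ext h'.symm)
    · intro h
      exact absurd (Finset.mem_univ _) h
  · have hbase := hc.base y
    have key : ∀ p : R × R, cc p (((p.2 : G) * (p.1 : G)⁻¹)⁻¹ • y) ≤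
        if p.2 = (⟨c y, hmemR y⟩ : R) then
          M (wt a ((c y)⁻¹ • y)) (wt b ((c y)⁻¹ • y)) p.1 p.2 else 0 := by
      rintro ⟨k, h⟩
      rw [hcc]
      simp only [mul_inv_rev, inv_inv]
      by_cases h1 : c (((k : G) * (h : G)⁻¹) • y) = k
      · rw [if_pos h1]
        have e1 : (k : G)⁻¹ • ((k : G) * (h : G)⁻¹) • y = (h : G)⁻¹ • y := by
          rw [smul_smul]
          simp
        rw [e1]
        have hb1 : c ((h : G)⁻¹ • y) = 1 := by
          have := hc.base (((k : G) * (h : G)⁻¹) • y)
          rw [h1, e1] at this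
          exact this
        by_cases h2 : h = (⟨c y, hmemR y⟩ : R)
        · rw [if_pos h2, h2]
        · rw [if_neg h2]
          have h3 := (hMv _ hb1).2 h
          have h4 : wt b ((h : G)⁻¹ • y) h = 0 := by
            simp only [wt, smul_inv_smul]
            rw [if_neg]
            intro h5
            exact h2 (Subtype.ext h5.symm)
          rw [h4] at h3
          have h5 : M (wt a ((h : G)⁻¹ • y)) (wt b ((h : G)⁻¹ • y)) k h ≤
              ∑ k', M (wt a ((h : G)⁻¹ • y)) (wt b ((h : G)⁻¹ • y)) k' h :=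
            Finset.single_le_sum (f := fun k' =>
              M (wt a ((h : G)⁻¹ • y)) (wt b ((h : G)⁻¹ • y)) k' h)
              (fun _ _ => Nat.zero_le _) (Finset.mem_univ k)
          omega
      · rw [if_neg h1]
        exact Nat.zero_le _
    refine le_trans (Finset.sum_le_sum fun p _ => key p) ?_
    rw [Fintype.sum_prod_type]
    simp only [Finset.sum_ite_eq', Finset.mem_univ, if_true]
    refine le_trans ((hMv _ hbase).2 ⟨c y, hmemR y⟩) ?_
    simp [wt]

end Pool.Agent.H107ZS
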