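import Pool.Agent.H107_ZS.TCE
import Pool.Agent.H107_ZS.TCM
import Pool.Agent.H107_ZS.TKL

/-!
# Comparison for infinite cyclic groups (`StCYC`)
-/

set_option autoImplicit false

namespace Pool.Agent.H107ZS

open Topology

universe u v w

section

variable {G : Type u} [Group G]

theorem zpow_ne_one_CYC {z : G} (hz : ∀ n : ℕ, 0 < n → z ^ n ≠ 1) {i j : ℕ}
    (h : z ^ i = z ^ j) : i = j := by
  wlog hij : i ≤ j generalizing i j
  · exact (this h.symm (by omega)).symm
  · by_contra hne
    apply hz (j - i) (by omega)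
    have h1 : z ^ i * z ^ (j - i) = z ^ i := by
      rw [← pow_add, h]
      congr 1
      omega
    exact mul_eq_left.1 h1

/-- long intervals are Følner sets -/
theorem fol_interval_CYC {z : G} (hz : ∀ n : ℕ, 0 < n → z ^ n ≠ 1) (K : Finset G)
    (hK : (K : Set G) ⊆ Subgroup.zpowers z) (ε : ℝ) (hε : 0 < ε) :
    ∃ N : ℕ, 0 < N ∧ ∀ L : ℕ, N ≤ L → ∀ S : Finset G, (∀ s, s ∈ S ↔ ∃ i < L, z ^ i = s) →
      Fol K ε S := by
  classical
  have h1 : ∀ g : G, ∃ N : ℕ, g ∈ K → ∀ L : ℕ, N ≤ L → ∀ S : Finset G,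
      (∀ s, s ∈ S ↔ ∃ i < L, z ^ i = s) →
        ((S.filter fun s => g * s ∉ S).card : ℝ) ≤ ε * L := by
    intro g
    by_cases hg : g ∈ K
    · obtain ⟨k, hk⟩ := Subgroup.mem_zpowers_iff.1 (hK hg)
      obtain ⟨N, hN⟩ := exists_nat_ge ((k.natAbs : ℝ) / ε)
      refine ⟨N, fun _ L hL S hS => ?_⟩
      have h2 : (k.natAbs : ℝ) ≤ ε * L := by
        rw [div_le_iff₀ hε] at hN
        have : (N : ℝ) ≤ L := by exact_mod_cast hL
        nlinarith
      refine le_trans ?_ h2
      have h3 : (S.filter fun s => g * s ∉ S).card ≤ k.natAbs := by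
        rcases Int.natAbs_eq k with hk' | hk'
        · -- `k ≥ 0`
          have hgk : g = z ^ k.natAbs := by
            rw [← hk, ← zpow_natCast, ← hk']
          have hsub : (S.filter fun s => g * s ∉ S) ⊆
              (Finset.Ico (L - k.natAbs) L).image fun i => z ^ i := by
            intro s hs
            rw [Finset.mem_filter] at hs
            obtain ⟨i, hi, rfl⟩ := (hS s).1 hs.1
            refine Finset.mem_image.2 ⟨i, Finset.mem_Ico.2 ⟨?_, hi⟩, rfl⟩
            by_contra hlt
            apply hs.2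
            rw [hS]
            refine ⟨k.natAbs + i, by omega, ?_⟩
            rw [hgk, pow_add]
          refine (Finset.card_le_card hsub).trans (Finset.card_image_le.trans ?_)
          rw [Nat.card_Ico]
          omega
        · have hgk : g * z ^ k.natAbs = 1 := by
            have h0 : k + (k.natAbs : ℤ) = 0 := by omega
            rw [← hk, ← zpow_natCast, ← zpow_add, h0, zpow_zero]
          have hsub : (S.filter fun s => g * s ∉ S) ⊆
              (Finset.range k.natAbs).image fun i => z ^ i := by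
            intro s hs
            rw [Finset.mem_filter] at hs
            obtain ⟨i, hi, rfl⟩ := (hS s).1 hs.1
            refine Finset.mem_image.2 ⟨i, Finset.mem_range.2 ?_, rfl⟩
            by_contra hlt
            apply hs.2
            rw [hS]
            refine ⟨i - k.natAbs, by omega, ?_⟩
            have : z ^ i = z ^ k.natAbs * z ^ (i - k.natAbs) := by
              rw [← pow_add]
              congr 1
              omega
            rw [this, ← mul_assoc, hgk, one_mul]
          exact (Finset.card_le_card hsub).trans (Finset.card_image_le.trans (by simp))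
      exact_mod_cast h3
    · exact ⟨0, fun h => absurd h hg⟩
  choose N hN using h1
  refine ⟨K.sup N + 1, Nat.succ_pos _, fun L hL S hS => ⟨?_, fun g hg => ?_⟩⟩
  · exact ⟨1, (hS 1).2 ⟨0, by omega, by simp⟩⟩
  · have h2 : N g ≤ K.sup N := Finset.le_sup hg
    have h3 := hN g hg L (by omega) S hS
    have h4 : S.card = L := by
      have : S = (Finset.range L).image fun i => z ^ i := by
        ext s
        rw [hS]
        simp
      rw [this, Finset.card_image_of_injective, Finset.card_range]
      intro i j hij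
      exact zpow_ne_one_CYC hz hij
    rw [h4]
    convert h3 using 3

end

theorem t_CYC' (hKL : StKL.{u}) : StCYC.{u} := by
  classical
  intro G _ _ Y _ _ _ _ _ _ hfree z hz a b hab
  rcases isEmpty_or_nonempty Y with hY | hY
  · exact ⟨0, fun i => 1, fun i => a, fun i => i.elim0, fun y => isEmptyElim y,
      fun y => isEmptyElim y⟩
  set H := Subgroup.zpowers z with hH
  obtain ⟨n, K, ε, γ, hKH, hε, hγ, hmain⟩ := hKL G Y H (fun _ => toR b - toR a)
    (fun _ _ => le_rfl) (fun Λ hΛ => ⟨0, by rw [map_sub]; linarith [hab Λ hΛ]⟩)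
  obtain ⟨N, hN0, hN⟩ := fol_interval_CYC hz K hKH ε hε
  -- sums over long intervals
  have hint : ∀ L : ℕ, N ≤ L → ∀ S : Finset G, (∀ s, s ∈ S ↔ ∃ i < L, z ^ i = s) → ∀ y,
      ∑ s ∈ S, a (s • y) ≤ ∑ s ∈ S, b (s • y) := by
    intro L hL S hS y
    have hSH : (S : Set G) ⊆ H := by
      intro s hs
      obtain ⟨i, _, rfl⟩ := (hS s).1 hs
      exact H.pow_mem (Subgroup.mem_zpowers z) i
    have h1 := hmain S hSH (hN L hL S hS) y
    have h2 : (0 : ℝ) ≤ γ * S.card := by positivity
    have h3 : ∑ s ∈ S, (toR b - toR a) (s • y) =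
        ((∑ s ∈ S, b (s • y) : ℕ) : ℝ) - ((∑ s ∈ S, a (s • y) : ℕ) : ℝ) := by
      push_cast
      rw [← Finset.sum_sub_distrib]
      rfl
    rw [h3] at h1
    have h4 : ((∑ s ∈ S, a (s • y) : ℕ) : ℝ) ≤ ((∑ s ∈ S, b (s • y) : ℕ) : ℝ) := by linarith
    exact_mod_cast h4
  -- the base points
  obtain ⟨V, hV, hsep, hcov⟩ := exists_sep hfree ((Finset.range N).image fun i => z ^ i)
    ⟨1, Finset.mem_image.2 ⟨0, Finset.mem_range.2 hN0, by simp⟩⟩
  have hback : ∀ y, ∃ i : ℕ, (z ^ i)⁻¹ • y ∈ V := by
    intro y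
    obtain ⟨e, he, e', he', h⟩ := hcov ((z ^ N)⁻¹ • y)
    obtain ⟨i, hi, rfl⟩ := Finset.mem_image.1 he
    obtain ⟨i', hi', rfl⟩ := Finset.mem_image.1 he'
    rw [Finset.mem_range] at hi hi'
    refine ⟨N + i' - i, ?_⟩
    have h1 : ((z ^ i)⁻¹ * z ^ i')⁻¹ • (z ^ N)⁻¹ • y = (z ^ (N + i' - i))⁻¹ • y := by
      rw [smul_smul]
      congr 1
      rw [← mul_inv_rev]
      congr 1
      have h2 : z ^ i * (z ^ N * ((z ^ i)⁻¹ * z ^ i')) = z ^ i * z ^ (N + i' - i) := by
        rw [← pow_add, show i + (N + i' - i) = N + i' by omega, pow_add]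
        have h3 : z ^ i * z ^ N = z ^ N * z ^ i := by rw [← pow_add, ← pow_add, add_comm]
        rw [← mul_assoc, h3, mul_assoc, mul_inv_cancel_left]
      exact mul_left_cancel h2
    rwa [h1] at h
  have hforw : ∀ y, ∃ i : ℕ, 0 < i ∧ z ^ i • y ∈ V := by
    intro y
    obtain ⟨e, he, e', he', h⟩ := hcov (z ^ N • y)
    obtain ⟨i, hi, rfl⟩ := Finset.mem_image.1 he
    obtain ⟨i', hi', rfl⟩ := Finset.mem_image.1 he'
    rw [Finset.mem_range] at hi hi'
    refine ⟨N + i - i', by omega, ?_⟩
    have h1 : ((z ^ i)⁻¹ * z ^ i')⁻¹ • z ^ N • y = z ^ (N + i - i') • y := by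
      rw [smul_smul]
      congr 1
      rw [mul_inv_rev, inv_inv]
      have h2 : z ^ i' * ((z ^ i')⁻¹ * z ^ i * z ^ N) = z ^ i' * z ^ (N + i - i') := by
        rw [← pow_add, show i' + (N + i - i') = i + N by omega, pow_add]
        rw [mul_assoc, mul_inv_cancel_left]
      exact mul_left_cancel h2
    rwa [h1] at h
  let r : Y → ℕ := fun y => Nat.find (hback y)
  have hr1 : ∀ y, (z ^ r y)⁻¹ • y ∈ V := fun y => Nat.find_spec (hback y)
  have hr2 : ∀ y i, i < r y → (z ^ i)⁻¹ • y ∉ V := fun y i hi => Nat.find_min (hback y) hi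
  have hreq : ∀ y i, (z ^ i)⁻¹ • y ∈ V → (∀ j < i, (z ^ j)⁻¹ • y ∉ V) → r y = i := by
    intro y i h1 h2
    rcases lt_trichotomy (r y) i with h | h | h
    · exact absurd (hr1 y) (h2 _ h)
    · exact h
    · exact absurd h1 (hr2 y i h)
  have hrlc : IsLocallyConstant r := by
    rw [IsLocallyConstant.iff_eventually_eq]
    intro x
    have h1 : ∀ᶠ y in 𝓝 x, (z ^ r x)⁻¹ • y ∈ V :=
      (isClopen_smul_preimage hV (z ^ r x)⁻¹).isOpen.mem_nhds (hr1 x)
    have h2 : ∀ᶠ y in 𝓝 x, ∀ j ∈ Finset.range (r x), (z ^ j)⁻¹ • y ∉ V := by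
      rw [Filter.eventually_all_finset]
      intro j hj
      exact (isClopen_smul_preimage hV.compl (z ^ j)⁻¹).isOpen.mem_nhds
        (hr2 x j (Finset.mem_range.1 hj))
    filter_upwards [h1, h2] with y hy1 hy2
    exact hreq y (r x) hy1 fun j hj => hy2 j (Finset.mem_range.2 hj)
  let c : Y → G := fun y => z ^ r y
  have hcell : Cell H c := by
    refine ⟨hrlc.comp fun i => z ^ i, fun y => H.pow_mem (Subgroup.mem_zpowers z) _, fun y => ?_⟩
    have h1 : r ((c y)⁻¹ • y) = 0 := by
      apply hreq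
      · simp only [pow_zero, inv_one, one_smul]
        exact hr1 y
      · intro j hj
        omega
    change z ^ r ((c y)⁻¹ • y) = 1
    rw [h1, pow_zero]
  refine t_CM G Y H c hcell a b fun v hv => ?_
  have hvV : v ∈ V := by
    have h1 : r v = 0 := by
      by_contra hne
      exact hz (r v) (Nat.pos_of_ne_zero hne) hv
    have := hr1 v
    rwa [h1, pow_zero, inv_one, one_smul] at this
  let L := Nat.find (hforw v)
  have hL1 : 0 < L ∧ z ^ L • v ∈ V := Nat.find_spec (hforw v)
  have hL2 : ∀ i, 0 < i → i < L → z ^ i • v ∉ V := fun i hi hiL h =>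
    Nat.find_min (hforw v) hiL ⟨hi, h⟩
  have hNL : N ≤ L := by
    by_contra hlt
    push Not at hlt
    have h1 := hsep 1 (Finset.mem_image.2 ⟨0, Finset.mem_range.2 hN0, by simp⟩)
      (z ^ L) (Finset.mem_image.2 ⟨L, Finset.mem_range.2 hlt, rfl⟩) (z ^ L • v) hL1.2 v hvV
      (by rw [one_smul])
    exact hz L hL1.1 h1.symm
  have hset : {k : G | c (k • v) = k} = (((Finset.range L).image fun i => z ^ i : Finset G) : Set G) := by
    ext k
    simp only [Set.mem_ofPred_eq, Finset.coe_image, Finset.coe_range, Set.mem_image, Set.mem_Iio]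
    constructor
    · intro hk
      refine ⟨r (k • v), ?_, hk⟩
      by_contra hge
      push Not at hge
      have h1 := hr2 (k • v) (r (k • v) - L) (by omega)
      apply h1
      have h2 : (z ^ (r (k • v) - L))⁻¹ • k • v = z ^ L • v := by
        rw [smul_smul]
        congr 1
        rw [inv_mul_eq_iff_eq_mul, ← pow_add]
        have h3 : r (k • v) - L + L = r (k • v) := by omega
        rw [h3]
        exact hk.symm
      rw [h2]
      exact hL1.2
    · rintro ⟨i, hi, rfl⟩
      have h1 : r (z ^ i • v) = i := by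
        apply hreq
        · rw [inv_smul_smul]
          exact hvV
        · intro j hj
          have h2 : (z ^ j)⁻¹ • z ^ i • v = z ^ (i - j) • v := by
            rw [smul_smul]
            congr 1
            rw [inv_mul_eq_iff_eq_mul, ← pow_add]
            congr 1
            omega
          rw [h2]
          exact hL2 _ (by omega) (by omega)
      change z ^ r (z ^ i • v) = z ^ i
      rw [h1]
  rw [hset, finsum_mem_coe_finset, finsum_mem_coe_finset]
  refine hint L hNL _ (fun s => ?_) v
  simp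

theorem t_CYC : StCYC.{u} := t_CYC' t_KL

end Pool.Agent.H107ZS
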