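import Pool.Agent.H107_ZS.TCE
import Pool.Agent.H107_ZS.TCM

/-!
# Comparison for finite groups (`StFIN`)
-/

set_option autoImplicit false

namespace Pool.Agent.H107ZS

open Topology

universe u v w

theorem t_FIN : StFIN.{u} := by
  classical
  intro G _ _ Y _ _ _ _ _ _ hfree H hH a b hab
  have hfin : (H : Set G).Finite := Set.toFinite _
  set E : Finset G := hfin.toFinset with hE
  have hmem : ∀ g, g ∈ E ↔ g ∈ H := fun g => by simp [hE]
  have h1E : (1 : G) ∈ E := (hmem 1).2 H.one_mem
  have hcard : 0 < E.card := Finset.card_pos.2 ⟨1, h1E⟩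
  obtain ⟨c, hc, hlarge⟩ := t_CE G Y hfree H E (fun g hg => (hmem g).1 hg) ⟨1, h1E⟩
  refine t_CM G Y H c hc a b fun v hv => ?_
  -- the cell is all of `H`
  have hcell : {k : G | c (k • v) = k} = (E : Set G) := by
    have hsub : {k : G | c (k • v) = k} ⊆ (E : Set G) := by
      intro k hk
      have hk' : c (k • v) = k := hk
      have := hc.mem (k • v)
      rw [hk'] at this
      exact (hmem k).2 this
    refine Set.eq_of_subset_of_ncard_le hsub ?_ E.finite_toSet
    rw [Set.ncard_coe_finset]
    exact hlarge v hv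
  rw [hcell, finsum_mem_coe_finset, finsum_mem_coe_finset]
  -- the state given by the orbit
  let L0 : C(Y, ℝ) →ₗ[ℝ] ℝ :=
    { toFun := fun f => ((E.card : ℝ))⁻¹ * ∑ k ∈ E, f (k • v)
      map_add' := fun f g => by
        simp only [ContinuousMap.add_apply, Finset.sum_add_distrib]
        ring
      map_smul' := fun r f => by
        simp only [ContinuousMap.smul_apply, smul_eq_mul, RingHom.id_apply, ← Finset.mul_sum]
        ring }
  have hL : ∀ f, L0 f = ((E.card : ℝ))⁻¹ * ∑ k ∈ E, f (k • v) := fun f => rfl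
  have hcR : (0 : ℝ) < E.card := by exact_mod_cast hcard
  have hstate : InvState H L0 := by
    refine ⟨?_, fun f hf => ?_, fun h hh f => ?_⟩
    · rw [hL]
      simp only [ContinuousMap.one_apply, Finset.sum_const, nsmul_eq_mul, mul_one]
      exact inv_mul_cancel₀ hcR.ne'
    · rw [hL]
      refine mul_nonneg (inv_nonneg.2 hcR.le) (Finset.sum_nonneg fun k _ => ?_)
      exact hf (k • v)
    · rw [hL, hL]
      congr 1
      refine Finset.sum_bij (fun k _ => h * k) ?_ ?_ ?_ ?_
      · intro k hk
        exact (hmem _).2 (H.mul_mem hh ((hmem k).1 hk))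
      · intro k _ k' _ he
        exact mul_left_cancel he
      · intro k hk
        refine ⟨h⁻¹ * k, (hmem _).2 (H.mul_mem (H.inv_mem hh) ((hmem k).1 hk)), ?_⟩
        simp
      · intro k _
        simp [tr, mul_smul]
  have h := hab L0 hstate
  rw [hL, hL] at h
  have h2 : ∑ k ∈ E, (toR a) (k • v) < ∑ k ∈ E, (toR b) (k • v) :=
    lt_of_mul_lt_mul_left h (inv_nonneg.2 hcR.le)
  have h3 : ((∑ k ∈ E, a (k • v) : ℕ) : ℝ) < ((∑ k ∈ E, b (k • v) : ℕ) : ℝ) := by
    push_cast
    exact h2
  exact_mod_cast h3.le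

end Pool.Agent.H107ZS
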