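import Pool.Agent.H107_ZS.DStubs

/-!
# MIC: groups with a faithful micro-supported action on a Hausdorff space are tame
-/

set_option autoImplicit false

namespace Pool.Agent.H107ZS.MIC

open Topology Pool.Agent.H107ZS

universe u v

variable {G : Type u} [Group G]

/-- subgroups generated by finitely many commuting elements are tame -/
lemma tame_of_comm {P : Subgroup G → Prop} (hP : TameClass P) (S : Finset G)
    (hS : ∀ a ∈ S, ∀ b ∈ S, a * b = b * a) : P (Subgroup.closure (S : Set G)) := by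
  classical
  letI : CommGroup (Subgroup.closure (S : Set G)) :=
    Subgroup.closureCommGroupOfComm (k := (S : Set G)) (fun x hx y hy => hS x hx y hy)
  by_cases h : ∃ z ∈ Subgroup.closure (S : Set G), ∀ n : ℕ, 0 < n → z ^ n ≠ 1
  · obtain ⟨z, hz, hz2⟩ := h
    refine hP.step _ fun F L hF => ?_
    refine ⟨Subgroup.zpowers z, Subgroup.zpowers z, ?_, ?_, ?_, hP.cyc z hz2, ?_⟩
    · rwa [Subgroup.zpowers_le]
    · rwa [Subgroup.zpowers_le]
    · refine ⟨(Finset.range L).image fun n => z ^ n, ?_, ?_⟩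
      · intro x hx
        simp only [Finset.coe_image, Set.mem_image] at hx
        obtain ⟨n, _, rfl⟩ := hx
        exact Subgroup.npow_mem_zpowers z n
      · rw [Finset.card_image_of_injOn, Finset.card_range]
        have key : ∀ m n : ℕ, z ^ m = z ^ n → n ≤ m := by
          intro m n hmn
          by_contra hlt
          push Not at hlt
          refine hz2 (n - m) (by omega) ?_
          have h1 : z ^ m * z ^ (n - m) = z ^ n := by rw [← pow_add]; congr 1; omega
          rw [← hmn] at h1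
          exact mul_eq_left.1 h1
        intro m _ n _ hmn
        exact le_antisymm (key n m hmn.symm) (key m n hmn)
    · intro g hg k hk
      have hk' : k ∈ Subgroup.closure (S : Set G) := by
        have : Subgroup.zpowers z ≤ Subgroup.closure (S : Set G) := by rwa [Subgroup.zpowers_le]
        exact this hk
      have h1 : (⟨g, hF hg⟩ : Subgroup.closure (S : Set G)) * ⟨k, hk'⟩ = ⟨k, hk'⟩ * ⟨g, hF hg⟩ :=
        mul_comm _ _
      have h2 : g * k = k * g := congrArg Subtype.val h1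
      rw [h2, mul_inv_cancel_right]
      exact hk
  · push Not at h
    refine hP.fin _ ?_
    haveI : Group.FG (Subgroup.closure (S : Set G)) := Group.closure_finset_fg S
    refine CommGroup.finite_of_fg_torsion _ ?_
    intro x
    obtain ⟨n, hn, hx⟩ := h x.1 x.2
    rw [isOfFinOrder_iff_pow_eq_one]
    exact ⟨n, hn, Subtype.ext (by simpa using hx)⟩

variable {Ω : Type v} [MulAction G Ω]

/-- `g` is supported in `U` -/
def Sup (g : G) (U : Set Ω) : Prop := ∀ ω, ω ∉ U → g • ω = ω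

lemma Sup.mem {g : G} {U : Set Ω} (h : Sup g U) {ω : Ω} : g • ω ∈ U ↔ ω ∈ U := by
  constructor
  · intro h1
    by_contra h2
    rw [h ω h2] at h1
    exact h2 h1
  · intro h1
    by_contra h2
    have h3 := h _ h2
    have h4 : g • ω = ω := MulAction.injective g h3
    rw [h4] at h2
    exact h2 h1

lemma Sup.mono {g : G} {U V : Set Ω} (h : Sup g U) (hUV : U ⊆ V) : Sup g V :=
  fun ω hω => h ω fun h1 => hω (hUV h1)

lemma Sup.conj {k : G} {U : Set Ω} (h : Sup k U) (g : G) :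
    Sup (g * k * g⁻¹) {ω | g⁻¹ • ω ∈ U} := by
  intro ω hω
  rw [mul_smul, mul_smul, h _ hω, smul_inv_smul]

lemma Sup.comm (hf : ∀ g : G, (∀ ω : Ω, g • ω = ω) → g = 1) {g h : G} {U V : Set Ω}
    (hg : Sup g U) (hh : Sup h V) (hUV : ∀ ω ∈ U, ω ∉ V) : g * h = h * g := by
  have key : ∀ ω : Ω, (g * h) • ω = (h * g) • ω := by
    intro ω
    rw [mul_smul, mul_smul]
    by_cases h1 : ω ∈ U
    · rw [hh ω (hUV ω h1), hh _ (hUV _ (hg.mem.2 h1))]
    · rw [hg ω h1]
      refine hg _ fun h2 => ?_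
      have h3 := hUV _ h2
      rw [hh.mem] at h3
      rw [hh ω h3] at h2
      exact h1 h2
  have h1 : (h * g)⁻¹ * (g * h) = 1 := hf _ fun ω => by rw [mul_smul, key, inv_smul_smul]
  exact (inv_mul_eq_one.1 h1).symm

lemma eq_of_smul (hf : ∀ g : G, (∀ ω : Ω, g • ω = ω) → g = 1) {g h : G}
    (key : ∀ ω : Ω, g • ω = h • ω) : g = h := by
  have h1 : h⁻¹ * g = 1 := hf _ fun ω => by rw [mul_smul, key, inv_smul_smul]
  exact (inv_mul_eq_one.1 h1).symm

/-- elements which agree on `U` conjugate elements supported in `U` in the same way -/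
lemma conj_eq (hf : ∀ g : G, (∀ ω : Ω, g • ω = ω) → g = 1) {g h k : G} {U : Set Ω}
    (hk : Sup k U) (hgh : ∀ ω ∈ U, g • ω = h • ω) : g * k * g⁻¹ = h * k * h⁻¹ := by
  refine eq_of_smul hf fun ω => ?_
  by_cases h1 : g⁻¹ • ω ∈ U
  · have h2 : h⁻¹ • ω = g⁻¹ • ω := by
      have h3 := hgh _ h1
      rw [smul_inv_smul] at h3
      rw [inv_smul_eq_iff]
      exact h3
    rw [mul_smul, mul_smul, mul_smul, mul_smul, h2]
    exact hgh _ (hk.mem.2 h1)
  · have h2 : h⁻¹ • ω ∉ U := by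
      intro h2
      have h3 := hgh _ h2
      rw [smul_inv_smul] at h3
      apply h1
      have h4 : g⁻¹ • ω = h⁻¹ • ω := by
        rw [inv_smul_eq_iff]
        exact h3.symm
      rw [h4]
      exact h2
    rw [hk.conj g ω h1, hk.conj h ω h2]

variable [TopologicalSpace Ω] [T2Space Ω]

/-- splitting -/
lemma split (hf : ∀ g : G, (∀ ω : Ω, g • ω = ω) → g = 1)
    (hm : ∀ U : Set Ω, IsOpen U → U.Nonempty → ∃ g : G, g ≠ 1 ∧ ∀ ω : Ω, ω ∉ U → g • ω = ω)
    {U : Set Ω} (hU : IsOpen U) (hUn : U.Nonempty) : ∃ A B : Set Ω, IsOpen A ∧ IsOpen B ∧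
      A.Nonempty ∧ B.Nonempty ∧ A ⊆ U ∧ B ⊆ U ∧ ∀ ω ∈ A, ω ∉ B := by
  obtain ⟨g, hg1, hg2⟩ := hm U hU hUn
  have h1 : ∃ ω : Ω, g • ω ≠ ω := by
    by_contra h
    push Not at h
    exact hg1 (hf g h)
  obtain ⟨ω, hω⟩ := h1
  have h2 : ω ∈ U := by
    by_contra h
    exact hω (hg2 ω h)
  have h3 : g • ω ∈ U := (Sup.mem (U := U) hg2).2 h2
  obtain ⟨A, B, hA, hB, hωA, hωB, hAB⟩ := t2_separation hω
  refine ⟨U ∩ A, U ∩ B, hU.inter hA, hU.inter hB, ⟨_, h3, hωA⟩, ⟨_, h2, hωB⟩,
    Set.inter_subset_left, Set.inter_subset_left, ?_⟩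
  intro x hx hx'
  exact Set.disjoint_left.1 hAB hx.2 hx'.2

/-- many commuting elements -/
lemma many (hf : ∀ g : G, (∀ ω : Ω, g • ω = ω) → g = 1)
    (hm : ∀ U : Set Ω, IsOpen U → U.Nonempty → ∃ g : G, g ≠ 1 ∧ ∀ ω : Ω, ω ∉ U → g • ω = ω)
    (L : ℕ) : ∀ {U : Set Ω}, IsOpen U → U.Nonempty → ∃ E : Finset G, L ≤ E.card ∧
      (∀ k ∈ E, k ≠ 1 ∧ Sup k U) ∧ ∀ k ∈ E, ∀ k' ∈ E, k * k' = k' * k := by
  classical
  induction L with
  | zero => intro U _ _; exact ⟨∅, by simp, by simp, by simp⟩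
  | succ L ih =>
    intro U hU hUn
    obtain ⟨A, B, hA, hB, hAn, hBn, hAU, hBU, hAB⟩ := split hf hm hU hUn
    obtain ⟨E, hE, hE2, hE3⟩ := ih hB hBn
    obtain ⟨k, hk, hk2⟩ := hm A hA hAn
    have hk3 : Sup k A := hk2
    have hkE : k ∉ E := by
      intro h
      apply hk
      refine hf k fun ω => ?_
      by_cases h1 : ω ∈ A
      · exact (hE2 k h).2 ω (hAB ω h1)
      · exact hk2 ω h1
    refine ⟨insert k E, ?_, ?_, ?_⟩
    · rw [Finset.card_insert_of_notMem hkE]; omega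
    · intro x hx
      rw [Finset.mem_insert] at hx
      rcases hx with rfl | hx
      · exact ⟨hk, hk3.mono hAU⟩
      · exact ⟨(hE2 x hx).1, (hE2 x hx).2.mono hBU⟩
    · intro x hx y hy
      rw [Finset.mem_insert] at hx hy
      rcases hx with rfl | hx
      · rcases hy with rfl | hy
        · rfl
        · exact Sup.comm hf hk3 (hE2 y hy).2 hAB
      · rcases hy with rfl | hy
        · exact (Sup.comm hf hk3 (hE2 x hx).2 hAB).symm
        · exact hE3 x hx y hy

/-- the good open set -/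
lemma good [Nonempty Ω] (hc : ∀ g : G, Continuous fun ω : Ω => g • ω) (F : Finset (G × G)) :
    ∃ U : Set Ω, IsOpen U ∧ U.Nonempty ∧ ∀ p ∈ F, (∀ ω ∈ U, p.1 • ω = p.2 • ω) ∨
      ∀ ω ∈ U, ∀ ω' ∈ U, p.1 • ω ≠ p.2 • ω' := by
  classical
  induction F using Finset.induction_on with
  | empty => exact ⟨Set.univ, isOpen_univ, Set.univ_nonempty, by simp⟩
  | insert p F _ ih =>
    obtain ⟨U, hU, hUn, hF⟩ := ih
    by_cases h : ∀ ω ∈ U, p.1 • ω = p.2 • ω
    · refine ⟨U, hU, hUn, fun q hq => ?_⟩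
      rw [Finset.mem_insert] at hq
      rcases hq with rfl | hq
      · exact Or.inl h
      · exact hF q hq
    · push Not at h
      obtain ⟨ω, hω, hne⟩ := h
      obtain ⟨A, B, hA, hB, hωA, hωB, hAB⟩ := t2_separation hne
      refine ⟨U ∩ ({x | p.1 • x ∈ A} ∩ {x | p.2 • x ∈ B}),
        hU.inter ((hA.preimage (hc _)).inter (hB.preimage (hc _))), ⟨ω, hω, hωA, hωB⟩,
        fun q hq => ?_⟩
      rw [Finset.mem_insert] at hq
      rcases hq with rfl | hq
      · right
        intro x hx x' hx' he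
        exact Set.disjoint_left.1 hAB hx.2.1 (he ▸ hx'.2.2)
      · rcases hF q hq with h1 | h1
        · exact Or.inl fun x hx => h1 x hx.1
        · exact Or.inr fun x hx x' hx' => h1 x hx.1 x' hx'.1

end MIC

open MIC in
/-- micro-supported groups are tame -/
theorem t_MIC : StMIC := by
  classical
  rintro G _ ⟨Ω, _, _, _, _, hc, hf, hm⟩ P hP
  refine hP.step _ fun F L _ => ?_
  obtain ⟨U, hU, hUn, hUF⟩ := good (Ω := Ω) hc (F ×ˢ F)
  obtain ⟨E, hE, hE2, hE3⟩ := many hf hm L hU hUn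
  refine ⟨Subgroup.closure (E : Set G), Subgroup.closure
    (((F ×ˢ E).image fun p => p.1 * p.2 * p.1⁻¹ : Finset G) : Set G), le_top, le_top,
    ⟨E, Subgroup.subset_closure, hE⟩, tame_of_comm hP _ ?_, ?_⟩
  · intro a ha b hb
    rw [Finset.mem_image] at ha hb
    obtain ⟨⟨g, k⟩, hp, rfl⟩ := ha
    obtain ⟨⟨h, l⟩, hq, rfl⟩ := hb
    rw [Finset.mem_product] at hp hq
    simp only at hp hq ⊢
    rcases hUF (g, h) (Finset.mem_product.2 ⟨hp.1, hq.1⟩) with h1 | h1
    · rw [← conj_eq hf (hE2 l hq.2).2 h1]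
      have h2 := hE3 k hp.2 l hq.2
      calc g * k * g⁻¹ * (g * l * g⁻¹) = g * (k * l) * g⁻¹ := by group
        _ = g * (l * k) * g⁻¹ := by rw [h2]
        _ = g * l * g⁻¹ * (g * k * g⁻¹) := by group
    · refine Sup.comm hf ((hE2 k hp.2).2.conj g) ((hE2 l hq.2).2.conj h) ?_
      intro ω hω hω'
      exact h1 _ hω _ hω' (by rw [smul_inv_smul, smul_inv_smul])
  · intro g hg k hk
    have h1 : Subgroup.closure (E : Set G) ≤ (Subgroup.closure
      (((F ×ˢ E).image fun p => p.1 * p.2 * p.1⁻¹ : Finset G) : Set G)).comap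
        (MulAut.conj g).toMonoidHom := by
      rw [Subgroup.closure_le]
      intro x hx
      rw [Subgroup.coe_comap, Set.mem_preimage, SetLike.mem_coe]
      show g * x * g⁻¹ ∈ Subgroup.closure
        (((F ×ˢ E).image fun p => p.1 * p.2 * p.1⁻¹ : Finset G) : Set G)
      refine Subgroup.subset_closure ?_
      rw [Finset.mem_coe, Finset.mem_image]
      exact ⟨(g, x), Finset.mem_product.2 ⟨hg, hx⟩, rfl⟩
    exact h1 hk

end Pool.Agent.H107ZS
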