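import Pool.Agent.H107_ZS.DStubs3

/-!
# PART and CYR: clopen divisions subordinate to open covers, castles with small levels
-/

set_option autoImplicit false

namespace Pool.Agent.H107ZS

open Topology

universe u v w

/-- clopen divisions subordinate to open covers -/
theorem t_PART : StPART.{u} := by
  classical
  intro Y _ _ _ _ n O hO hcov
  have h1 : ∀ y : Y, ∃ (i : Fin n) (U : Set Y), IsClopen U ∧ y ∈ U ∧ U ⊆ O i := by
    intro y
    obtain ⟨i, hi⟩ := hcov y
    obtain ⟨U, hU, hyU, hUO⟩ := compact_exists_isClopen_in_isOpen (hO i) hi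
    exact ⟨i, U, hU, hyU, hUO⟩
  choose i U hU hyU hUO using h1
  obtain ⟨t, ht⟩ := isCompact_univ.elim_finite_subcover U (fun y => (hU y).isOpen)
    (fun y _ => Set.mem_iUnion.2 ⟨y, hyU y⟩)
  let Q : Fin n → Set Y := fun k => ⋃ y ∈ t.filter (fun y => i y = k), U y
  have hQ : ∀ k, IsClopen (Q k) := fun k =>
    (t.filter (fun y => i y = k)).finite_toSet.isClopen_biUnion fun y _ => hU y
  have hQO : ∀ k, Q k ⊆ O k := by
    intro k y hy
    obtain ⟨x, hx, hxy⟩ := Set.mem_iUnion₂.1 hy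
    have h2 : i x = k := (Finset.mem_filter.1 hx).2
    exact h2 ▸ hUO x hxy
  have hQc : ∀ y, ∃ k, y ∈ Q k := by
    intro y
    obtain ⟨x, hx, hxy⟩ := Set.mem_iUnion₂.1 (ht (Set.mem_univ y))
    exact ⟨i x, Set.mem_iUnion₂.2 ⟨x, Finset.mem_filter.2 ⟨hx, rfl⟩, hxy⟩⟩
  refine ⟨fun k => Q k ∩ ⋂ k' ∈ (Finset.univ.filter fun k' => k' < k), (Q k')ᶜ, ?_, ?_, ?_⟩
  · intro k
    refine (hQ k).inter ?_
    exact (Finset.univ.filter fun k' => k' < k).finite_toSet.isClopen_biInter
      fun k' _ => (hQ k').compl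
  · intro k
    exact Set.inter_subset_left.trans (hQO k)
  · intro y
    have h2 : (Finset.univ.filter fun k => y ∈ Q k).Nonempty := by
      obtain ⟨k, hk⟩ := hQc y
      exact ⟨k, by simpa using hk⟩
    set k₀ := (Finset.univ.filter fun k => y ∈ Q k).min' h2 with hk₀
    have h3 : y ∈ Q k₀ := (Finset.mem_filter.1 (Finset.min'_mem _ h2)).2
    have h4 : ∀ k, y ∈ Q k → k₀ ≤ k := fun k hk =>
      Finset.min'_le _ _ (by simpa using hk)
    refine ⟨k₀, ⟨h3, ?_⟩, ?_⟩
    · simp only [Finset.mem_filter, Finset.mem_univ, true_and, Set.mem_iInter, Set.mem_compl_iff]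
      intro k' hk' h5
      exact absurd (h4 k' h5) (not_le.2 hk')
    · rintro k ⟨hk1, hk2⟩
      simp only [Finset.mem_filter, Finset.mem_univ, true_and, Set.mem_iInter,
        Set.mem_compl_iff] at hk2
      have h5 := h4 k hk1
      rcases h5.lt_or_eq with h6 | h6
      · exact (hk2 k₀ h6 h3).elim
      · exact h6.symm

/-- castles with small remainder and small levels -/
theorem t_CYR (hCY : StCY.{u}) (hPART : StPART.{u}) : StCYR.{u} := by
  classical
  intro G _ _ Y _ _ _ _ _ _ hG hfree K ε ρ hε hρ n O hO hcov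
  obtain ⟨m, S, V, hS, hV, hL, hrem⟩ := hCY G Y hG hfree K ε ρ hε hρ
  obtain ⟨P, hP, hPO, hPu⟩ := hPART Y n O hO hcov
  have hPe : ∀ y i i', y ∈ P i → y ∈ P i' → i = i' := fun y i i' h h' => (hPu y).unique h h'
  let I : Type := Σ j : Fin m, (Fin (S j).card → Fin n)
  let e : Fin (Fintype.card I) ≃ I := (Fintype.equivFin I).symm
  let W : I → Set Y := fun a => {y | y ∈ V a.1 ∧ ∀ s : S a.1,
    (s : G) • y ∈ P (a.2 ((S a.1).equivFin s))}
  have hW : ∀ a, IsClopen (W a) := by
    intro a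
    have : W a = V a.1 ∩ ⋂ s : S a.1, {y | (s : G) • y ∈ P (a.2 ((S a.1).equivFin s))} := by
      ext y
      simp [W]
    rw [this]
    refine (hV a.1).inter (isClopen_iInter_of_finite fun s => ?_)
    exact (hP _).preimage (continuous_const_smul _)
  refine ⟨Fintype.card I, fun k => S (e k).1, fun k => W (e k), fun k => hS _, fun k => hW _,
    ?_, ?_, ?_⟩
  · intro k k' s s' hs hs' x hx x' hx' hxx
    obtain ⟨h1, h2⟩ := hL _ _ s s' hs hs' x hx.1 x' hx'.1 hxx
    subst h2
    have h3 : x = x' := MulAction.injective s hxx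
    subst h3
    refine ⟨?_, rfl⟩
    apply e.injective
    have key : ∀ a b : I, a.1 = b.1 → x ∈ W a → x ∈ W b → a = b := by
      rintro ⟨j, φ⟩ ⟨j', φ'⟩ hj ha hb
      simp only at hj
      subst hj
      congr 1
      funext i
      have h4 := ha.2 ((S j).equivFin.symm i)
      have h5 := hb.2 ((S j).equivFin.symm i)
      simp only [Equiv.apply_symm_apply] at h4 h5
      exact hPe _ _ _ h4 h5
    exact key _ _ h1 hx hx'
  · intro k s hs
    refine ⟨(e k).2 ((S (e k).1).equivFin ⟨s, hs⟩), fun y hy => ?_⟩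
    exact hPO _ (hy.2 ⟨s, hs⟩)
  · intro Λ hΛ f hf hf0
    refine hrem Λ hΛ f hf fun j s hs y hy => ?_
    have h1 : ∀ z : Y, ∃ i, z ∈ P i := fun z => (hPu z).exists
    choose ix hix using h1
    let a : I := ⟨j, fun i => ix (((S j).equivFin.symm i : G) • y)⟩
    have h2 : y ∈ W a := by
      refine ⟨hy, fun s => ?_⟩
      show (s : G) • y ∈ P (ix (((S j).equivFin.symm ((S j).equivFin s) : G) • y))
      rw [Equiv.symm_apply_apply]
      exact hix _
    have h4 : e (e.symm a) = a := Equiv.apply_symm_apply _ _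
    refine hf0 (e.symm a) s ?_ y ?_
    · show s ∈ S (e (e.symm a)).1
      rw [h4]; exact hs
    · show y ∈ W (e (e.symm a))
      rw [h4]; exact h2

end Pool.Agent.H107ZS
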