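import Pool.Agent.H107_ZS.TMUL

/-!
# Locality of polynomials of the compressions (StLOC), positivity of the compressions (StPOS)
-/

set_option autoImplicit false
set_option linter.unusedSectionVars false

namespace Pool.Agent.H107ZS

open Topology Pool.Agent.H327R4.Pure
open scoped CStarAlgebra ComplexOrder

universe u v w

section

variable {G : Type u} [Group G] {X : Type v} [TopologicalSpace X] [CompactSpace X]
  [MulAction G X] [ContinuousConstSMul G X] {B : Type w} [CStarAlgebra B] {n : ℕ}
  {ι : C(X, ℂ) →⋆ₐ[ℂ] B} {u : G →* unitary B} {e : Fin n → Fin n → B}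
  {E : Fin n → Fin n → B →L[ℂ] C(X, ℂ)}

open Classical in
theorem IsMCross.prp_mul (h : IsMCross ι u e E) {K L : Finset G} {b z : B} (hb : Prp ι u e K b)
    (hz : Prp ι u e L z) : Prp ι u e (Finset.image₂ (· * ·) K L) (b * z) := by
  refine hb.induction (p := fun b => Prp ι u e (Finset.image₂ (· * ·) K L) (b * z)) ?_ ?_ ?_
  · rw [zero_mul]; exact Prp.zero
  · intro a b ha hb; rw [add_mul]; exact ha.add hb
  · intro f k l g hg
    refine hz.induction (p := fun z => Prp ι u e (Finset.image₂ (· * ·) K L)
      (mon ι u e f k l g * z)) ?_ ?_ ?_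
    · rw [mul_zero]; exact Prp.zero
    · intro a b ha hb; rw [mul_add]; exact ha.add hb
    · intro f' k' l' g' hg'
      rw [h.mon_mul]
      split_ifs
      · exact Prp.mon (Finset.mem_image₂_of_mem hg hg') _ _ _
      · exact Prp.zero

theorem IsMCross.prp_one (h : IsMCross ι u e E) : Prp ι u e ({1} : Finset G) (1 : B) := by
  classical
  refine ⟨fun k l _ => if k = l then 1 else 0, ?_⟩
  rw [Finset.sum_singleton, ← h.e_sum, u_coe_one]
  refine Finset.sum_congr rfl fun k _ => ?_
  rw [Finset.sum_eq_single k]
  · simp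
  · intro l _ hl; simp [Ne.symm hl]
  · intro hk; exact absurd (Finset.mem_univ _) hk

theorem IsMCross.prp_pow (h : IsMCross ι u e E) {K : Finset G} {b : B} (hb : Prp ι u e K b)
    (m : ℕ) : ∃ L : Finset G, Prp ι u e L (b ^ m) ∧
      ∀ g ∈ L, ∃ w : List G, w.length = m ∧ (∀ x ∈ w, x ∈ K) ∧ w.prod = g := by
  classical
  induction m with
  | zero =>
    refine ⟨{1}, by rw [pow_zero]; exact h.prp_one, fun g hg => ⟨[], rfl, by simp, ?_⟩⟩
    rw [Finset.mem_singleton.1 hg]; rfl
  | succ m ih =>
    obtain ⟨L, hL, hw⟩ := ih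
    refine ⟨Finset.image₂ (· * ·) K L, by rw [pow_succ']; exact h.prp_mul hb hL, fun g hg => ?_⟩
    obtain ⟨a, ha, c, hc, rfl⟩ := Finset.mem_image₂.1 hg
    obtain ⟨w, hw1, hw2, hw3⟩ := hw c hc
    refine ⟨a :: w, by simp [hw1], ?_, by simp [hw3]⟩
    intro x hx
    rcases List.mem_cons.1 hx with rfl | hx
    · exact ha
    · exact hw2 x hx

theorem IsMCross.E_one (h : IsMCross ι u e E) (k l : Fin n) (r s : G)
    [Decidable (k = l ∧ r = s)] :
    E k l (star (u r : B) * (u s : B)) = if k = l ∧ r = s then 1 else 0 := by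
  classical
  have h1 : star (u r : B) * (u s : B) = ∑ i, mon ι u e 1 i i (r⁻¹ * s) := by
    unfold mon
    rw [← Finset.sum_mul, map_one]
    simp only [one_mul]
    rw [h.e_sum, one_mul, u_coe_mul, u_star]
  rw [h1, map_sum]
  simp only [h.E_mon]
  have e1 : r⁻¹ * s = 1 ↔ r = s := inv_mul_eq_one
  rw [e1]
  by_cases hrs : r = s
  · by_cases hkl : k = l
    · subst hkl
      rw [if_pos ⟨rfl, hrs⟩, Finset.sum_eq_single k]
      · rw [if_pos ⟨rfl, rfl, hrs⟩]
      · intro i _ hi; rw [if_neg fun hh => hi hh.1.symm]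
      · intro hk; exact absurd (Finset.mem_univ _) hk
    · rw [if_neg fun hh => hkl hh.1]
      exact Finset.sum_eq_zero fun i _ => if_neg fun hh => hkl (hh.1.trans hh.2.1.symm)
  · rw [if_neg fun hh => hrs hh.2]
    exact Finset.sum_eq_zero fun i _ => if_neg fun hh => hrs hh.2.2

end

/-- LOC: polynomials of the cut-off compression are local -/
theorem t_LOC : StLOC.{u} := by
  intro G _ _ X _ _ _ _ B _ n ι u e E h K b hb P S χ x s hs hχ0 hχ1 k l
  classical
  have key : ∀ m ≤ P.natDegree, ∀ (k l : Fin n) (r : G) (hr : r ∈ S),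
      (CmpX u E S χ x b ^ m) (k, ⟨r, hr⟩) (l, ⟨s, hs⟩) =
        E k l (star (u r : B) * b ^ m * (u s : B)) x := by
    intro m
    induction m with
    | zero =>
      intro _ k l r hr
      rw [pow_zero, pow_zero, mul_one, h.E_one, Matrix.one_apply]
      by_cases hc : k = l ∧ r = s
      · rw [if_pos hc, if_pos (by obtain ⟨rfl, rfl⟩ := hc; rfl)]; rfl
      · rw [if_neg hc, if_neg (by
          intro hh
          simp only [Prod.mk.injEq, Subtype.mk.injEq] at hh
          exact hc hh)]; rfl
    | succ m ih =>
      intro hm k l r hr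
      obtain ⟨L, hL, hw⟩ := h.prp_pow hb m
      have hLS : ∀ g ∈ L, g * s ∈ S := by
        intro g hg
        obtain ⟨w, hw1, hw2, rfl⟩ := hw g hg
        by_contra hcon
        have h1 := hχ1 w (by omega) hw2
        rw [hχ0 _ hcon] at h1
        exact zero_ne_one h1
      rw [pow_succ', pow_succ', h.E_mul b (b ^ m) L hL r s k l x S hLS, Matrix.mul_apply,
        Fintype.sum_prod_type_right, ← Finset.sum_coe_sort S]
      refine Finset.sum_congr rfl fun t _ => Finset.sum_congr rfl fun j _ => ?_
      rw [ih (by omega) j l t t.2]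
      by_cases h1 : (t : G) * s⁻¹ ∈ L
      · obtain ⟨w, hw1, hw2, hw3⟩ := hw _ h1
        have ht : χ t = 1 := by
          have := hχ1 w (by omega) hw2
          rwa [hw3, inv_mul_cancel_right] at this
        by_cases h2 : r * (t : G)⁻¹ ∈ K
        · have hr' : χ r = 1 := by
            have := hχ1 (r * (t : G)⁻¹ :: w) (by simp; omega) (by
              intro y hy
              rcases List.mem_cons.1 hy with rfl | hy
              · exact h2
              · exact hw2 y hy)
            rw [List.prod_cons, hw3] at this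
            have e1 : r * (t : G)⁻¹ * ((t : G) * s⁻¹) * s = r := by group
            rwa [e1] at this
          unfold CmpX Cmp
          rw [ht]
          simp [hr']
        · unfold CmpX Cmp
          rw [h.E_prp hb h2]
          simp
      · rw [h.E_prp hL h1]
        simp
  rw [Polynomial.aeval_eq_sum_range, Polynomial.aeval_eq_sum_range, map_sum,
    ContinuousMap.sum_apply, Matrix.sum_apply]
  refine Finset.sum_congr rfl fun m hm => ?_
  rw [Matrix.smul_apply, key m (by have := Finset.mem_range.1 hm; omega) k l s hs, h.E_conj]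
  rw [show E k l (P.coeff m • b ^ m) = P.coeff m • E k l (b ^ m) from
    (E k l).map_smul_of_tower (P.coeff m) (b ^ m)]
  rfl

/-- POS: compressions are positive and unital -/
theorem t_POS : StPOS.{u} := by
  intro G _ _ X _ _ _ _ B _ n ι u e E h S x
  classical
  constructor
  · ext p q
    unfold Cmp
    rw [mul_one, h.E_one, Matrix.one_apply]
    by_cases hc : p.1 = q.1 ∧ (p.2 : G) = q.2
    · rw [if_pos hc, if_pos (Prod.ext hc.1 (Subtype.ext hc.2))]; rfl
    · rw [if_neg hc, if_neg (by rintro rfl; exact hc ⟨rfl, rfl⟩)]; rfl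
  · intro b
    have hherm : (Cmp u E S x (star b * b)).IsHermitian := by
      ext p q
      rw [Matrix.conjTranspose_apply]
      unfold Cmp
      rw [← h.E_star]
      congr 2
      simp only [star_mul, star_star, mul_assoc]
    refine Matrix.PosSemidef.of_dotProduct_mulVec_nonneg hherm fun ξ => ?_
    rcases Nat.eq_zero_or_pos n with hn | hn
    · subst hn
      simp [dotProduct]
    · let i : Fin n := ⟨0, hn⟩
      let y : B := ∑ q : Fin n × S, ξ q • (b * (u q.2 : B) * e q.1 i)
      have h1 : E i i (star y * y) x = star ξ ⬝ᵥ (Cmp u E S x (star b * b)).mulVec ξ := by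
        simp only [y, star_sum, Finset.sum_mul, Finset.mul_sum, map_sum, ContinuousMap.sum_apply]
        simp only [dotProduct, Matrix.mulVec, Finset.mul_sum]
        rw [Finset.sum_comm]
        refine Finset.sum_congr rfl fun p _ => Finset.sum_congr rfl fun q _ => ?_
        rw [star_smul, smul_mul_smul_comm, map_smul, ContinuousMap.smul_apply]
        have h2 : star (b * (u p.2 : B) * e p.1 i) * (b * (u q.2 : B) * e q.1 i) =
            e i p.1 * (star (u p.2 : B) * (star b * b) * (u q.2 : B)) * e q.1 i := by
          simp only [star_mul, h.e_star, mul_assoc]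
        rw [h2, h.E_unit]
        unfold Cmp
        simp only [Pi.star_apply, smul_eq_mul]
        ring
      rw [← h1]
      exact h.pos i y x

end Pool.Agent.H107ZS
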