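import Pool.Agent.H107_ZS.CStubs3
import Pool.Agent.H107_ZS.TLOC

/-!
# Bounds for the cut-off compressions (StCB)
-/

set_option autoImplicit false
set_option linter.unusedSectionVars false

namespace Pool.Agent.H107ZS

open Topology Pool.Agent.H327R4.Pure
open scoped CStarAlgebra ComplexOrder

universe u v w

section

variable {G : Type u} [Group G] {X : Type v} [TopologicalSpace X] [CompactSpace X]
  [MulAction G X] [ContinuousConstSMul G X] {B : Type w} [CStarAlgebra B] {n : ℕ}
  {ι : C(X, ℂ) →⋆ₐ[ℂ] B} {u : G →* unitary B} {e : Fin n → Fin n → B}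
  {E : Fin n → Fin n → B →L[ℂ] C(X, ℂ)}

theorem Cmp_add (S : Finset G) (x : X) (b c : B) :
    Cmp u E S x (b + c) = Cmp u E S x b + Cmp u E S x c := by
  ext p q
  unfold Cmp
  rw [mul_add, add_mul, map_add]
  rfl

theorem Cmp_sub (S : Finset G) (x : X) (b c : B) :
    Cmp u E S x (b - c) = Cmp u E S x b - Cmp u E S x c := by
  ext p q
  unfold Cmp
  rw [mul_sub, sub_mul, map_sub]
  rfl

theorem Cmp_smul (S : Finset G) (x : X) (r : ℂ) (b : B) :
    Cmp u E S x (r • b) = r • Cmp u E S x b := by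
  ext p q
  unfold Cmp
  rw [mul_smul_comm, smul_mul_assoc, map_smul]
  rfl

theorem CmpX_eq (S : Finset G) [DecidableEq G] (χ : G → ℝ) (x : X) (b : B) :
    CmpX u E S χ x b = Matrix.diagonal (fun p : Fin n × S => (χ p.2 : ℂ)) * Cmp u E S x b *
      Matrix.diagonal (fun p : Fin n × S => (χ p.2 : ℂ)) := by
  ext p q
  rw [Matrix.mul_diagonal, Matrix.diagonal_mul]
  unfold CmpX
  ring

end

/-- CB: bounds for the cut-off compressions -/
theorem t_CB : StCB.{u} := by
  intro G _ _ X _ _ _ _ B _ _ _ n ι u e E h S χ hχ x b hb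
  let D : Matrix (Fin n × S) (Fin n × S) ℂ := Matrix.diagonal (fun p : Fin n × S => (χ p.2 : ℂ))
  have hD : D.conjTranspose = D := by
    simp only [D, Matrix.diagonal_conjTranspose]
    congr 1
    ext p
    exact Complex.conj_ofReal _
  have hDD : (1 - D * D).PosSemidef := by
    simp only [D]
    rw [Matrix.diagonal_mul_diagonal, ← Matrix.diagonal_one, Matrix.diagonal_sub]
    refine Matrix.PosSemidef.diagonal fun p => ?_
    show (0:ℂ) ≤ 1 - (χ p.2 : ℂ) * (χ p.2 : ℂ)
    have h1 := hχ p.2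
    have h2 : (0:ℝ) ≤ 1 - χ p.2 * χ p.2 := by nlinarith
    exact_mod_cast h2
  have hpos : ∀ c : B, 0 ≤ c → (Cmp u E S x c).PosSemidef := by
    intro c hc
    obtain ⟨d, rfl⟩ := CStarAlgebra.nonneg_iff_eq_star_mul_self.1 hc
    exact (t_POS G X B n ι u e E h S x).2 d
  have hone := (t_POS G X B n ι u e E h S x).1
  have halg : ∀ r : ℝ, Cmp u E S x (algebraMap ℝ B r) = (r : ℂ) • 1 := by
    intro r
    have h1 : algebraMap ℝ B r = (r : ℂ) • (1 : B) := by
      rw [Algebra.algebraMap_eq_smul_one, ← Complex.coe_smul]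
    rw [h1, Cmp_smul, hone]
  refine ⟨?_, ?_, ?_⟩
  · ext p q
    rw [Matrix.conjTranspose_apply]
    unfold CmpX Cmp
    rw [star_mul', star_mul', ← h.E_star]
    have h1 : star (star (u q.2 : B) * b * (u p.2 : B)) = star (u p.2 : B) * b * (u q.2 : B) := by
      simp only [star_mul, star_star, hb.star_eq, mul_assoc]
    rw [h1]
    simp only [RCLike.star_def, Complex.conj_ofReal]
    ring
  · intro κ hκ hbκ
    have h1 := hpos _ hbκ
    rw [Cmp_add, halg] at h1
    have h2 := h1.mul_mul_conjTranspose_same D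
    rw [hD] at h2
    have h3 : CmpX u E S χ x b + (κ : ℂ) • (1 : Matrix (Fin n × S) (Fin n × S) ℂ) =
        D * (Cmp u E S x b + (κ : ℂ) • 1) * D + (κ : ℂ) • (1 - D * D) := by
      rw [CmpX_eq]
      simp only [D, mul_add, add_mul, mul_smul_comm, smul_mul_assoc, mul_one, smul_sub]
      abel
    rw [h3]
    exact h2.add (hDD.smul (by exact_mod_cast hκ))
  · intro C hC hbC
    have h1 := hpos _ (sub_nonneg.2 hbC)
    rw [Cmp_sub, halg] at h1
    have h2 := h1.mul_mul_conjTranspose_same D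
    rw [hD] at h2
    have h3 : (C : ℂ) • (1 : Matrix (Fin n × S) (Fin n × S) ℂ) - CmpX u E S χ x b =
        D * ((C : ℂ) • 1 - Cmp u E S x b) * D + (C : ℂ) • (1 - D * D) := by
      rw [CmpX_eq]
      simp only [D, mul_sub, sub_mul, mul_smul_comm, smul_mul_assoc, mul_one, smul_sub]
      abel
    rw [h3]
    exact h2.add (hDD.smul (by exact_mod_cast hC))

end Pool.Agent.H107ZS
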