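import Pool.Agent.H107_ZS.TSPM
import Pool.Agent.H107_ZS.TCB

/-!
# The ranks of the compressions (StRA, StRB)
-/

set_option autoImplicit false
set_option linter.unusedSectionVars false

namespace Pool.Agent.H107ZS

open Topology Pool.Agent.H327R4.Pure
open scoped CStarAlgebra ComplexOrder

universe u v w

section

variable {B : Type u} [CStarAlgebra B] [PartialOrder B] [StarOrderedRing B]

/-- polynomial approximation of `phi` -/
theorem poly_approx (a : B) (ha : 0 ≤ a) (ε η : ℝ) (hη : 0 < η) :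
    ∃ (P : Polynomial ℝ) (κ : ℝ), 0 < κ ∧
      (∀ t, -1 ≤ t → t ≤ ‖a‖ + 1 → |P.eval t - min 1 (t / ε)| ≤ η) ∧
      ∀ a' : B, ‖a - a'‖ ≤ κ → ‖Polynomial.aeval a' P - phi ε a‖ ≤ 2 * η := by
  have hf : Continuous fun t : ℝ => min 1 (t / ε) := by fun_prop
  obtain ⟨P, hP⟩ := exists_polynomial_near_of_continuousOn (-1) (‖a‖ + 1)
    (fun t : ℝ => min 1 (t / ε)) hf.continuousOn η hη
  have hPa : ‖Polynomial.aeval a P - phi ε a‖ ≤ η := by
    rcases subsingleton_or_nontrivial B with hB | hB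
    · have : Polynomial.aeval a P - phi ε a = 0 := Subsingleton.elim _ _
      rw [this, norm_zero]; exact hη.le
    · have hsa : IsSelfAdjoint a := IsSelfAdjoint.of_nonneg ha
      have h1 : Polynomial.aeval a P = cfc (fun t : ℝ => P.eval t) a := (cfc_polynomial P a).symm
      have h2 : phi ε a = cfc (fun t : ℝ => min 1 (t / ε)) a := by
        unfold phi
        exact cfcₙ_eq_cfc hf.continuousOn (by simp)
      rw [h1, h2, ← cfc_sub _ _ a P.continuous.continuousOn hf.continuousOn]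
      refine norm_cfc_le hη.le fun x hx => ?_
      have h3 : 0 ≤ x := spectrum_nonneg_of_nonneg ha hx
      have h4 : ‖x‖ ≤ ‖a‖ := spectrum.norm_le_norm_of_mem hx
      rw [Real.norm_eq_abs, abs_of_nonneg h3] at h4
      rw [Real.norm_eq_abs]
      exact (hP x ⟨by linarith, by linarith⟩).le
  have hcont : Continuous fun b : B => Polynomial.aeval b P := by
    exact Polynomial.continuous_aeval P
  obtain ⟨δ, hδ, hδP⟩ := Metric.continuous_iff.1 hcont a η hη
  refine ⟨P, δ / 2, by positivity, fun t h1 h2 => (hP t ⟨h1, h2⟩).le, fun a' ha' => ?_⟩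
  have h3 : dist a' a < δ := by rw [dist_comm, dist_eq_norm]; linarith
  have h4 := hδP a' h3
  rw [dist_eq_norm] at h4
  calc ‖Polynomial.aeval a' P - phi ε a‖ =
      ‖(Polynomial.aeval a' P - Polynomial.aeval a P) + (Polynomial.aeval a P - phi ε a)‖ := by
        congr 1; abel
    _ ≤ _ := (norm_add_le _ _).trans (by linarith)

theorem bounds_of_near (a a' : B) (κ : ℝ) (ha : 0 ≤ a) (ha' : IsSelfAdjoint a')
    (h : ‖a - a'‖ ≤ κ) (hκ : κ ≤ 1) :
    0 ≤ a' + algebraMap ℝ B κ ∧ a' ≤ algebraMap ℝ B (‖a‖ + 1) := by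
  have hsa : IsSelfAdjoint a := IsSelfAdjoint.of_nonneg ha
  have h1 : a - a' ≤ algebraMap ℝ B κ :=
    (IsSelfAdjoint.le_algebraMap_norm_self (hsa.sub ha')).trans (algebraMap_mono B h)
  have h2 : a' - a ≤ algebraMap ℝ B 1 :=
    (IsSelfAdjoint.le_algebraMap_norm_self (ha'.sub hsa)).trans
      (algebraMap_mono B (by rw [norm_sub_rev]; linarith))
  have h3 : a ≤ algebraMap ℝ B ‖a‖ := IsSelfAdjoint.le_algebraMap_norm_self hsa
  constructor
  · have h4 : a' + algebraMap ℝ B κ = a + (algebraMap ℝ B κ - (a - a')) := by abel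
    rw [h4]
    exact add_nonneg ha (sub_nonneg.2 h1)
  · calc a' = a + (a' - a) := by abel
      _ ≤ algebraMap ℝ B ‖a‖ + algebraMap ℝ B 1 := add_le_add h3 h2
      _ = algebraMap ℝ B (‖a‖ + 1) := by rw [map_add]

end

section

variable {N : Type u} [Fintype N] [DecidableEq N]

/-- the diagonal entries of a polynomial of a Hermitian matrix -/
theorem diag_aeval_le {α : Matrix N N ℂ} (hα : α.IsHermitian) {lo hi c : ℝ}
    (hlo : (α - (lo : ℂ) • (1 : Matrix N N ℂ)).PosSemidef)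
    (hhi : ((hi : ℂ) • (1 : Matrix N N ℂ) - α).PosSemidef) (P : Polynomial ℝ)
    (hP : ∀ t, lo ≤ t → t ≤ hi → P.eval t ≤ c) (i : N) :
    ((Polynomial.aeval α P) i i).re ≤ c := by
  have h1 := mfc_le hα (g := fun t => P.eval t) (h := fun _ => c)
    (fun i => hP _ (le_eigenvalues hα hlo i) (eigenvalues_le hα hhi i))
  have h2 := h1.diag_nonneg (i := i)
  rw [mfc_const, ← mfc_aeval, Matrix.sub_apply, Matrix.smul_apply, Matrix.one_apply_eq,
    smul_eq_mul, mul_one] at h2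
  have h3 := (Complex.nonneg_iff.1 h2).1
  simp only [Complex.sub_re, Complex.ofReal_re] at h3
  linarith

theorem le_diag_aeval {α : Matrix N N ℂ} (hα : α.IsHermitian) {lo hi c : ℝ}
    (hlo : (α - (lo : ℂ) • (1 : Matrix N N ℂ)).PosSemidef)
    (hhi : ((hi : ℂ) • (1 : Matrix N N ℂ) - α).PosSemidef) (P : Polynomial ℝ)
    (hP : ∀ t, lo ≤ t → t ≤ hi → c ≤ P.eval t) (i : N) :
    c ≤ ((Polynomial.aeval α P) i i).re := by
  have h1 := mfc_le hα (g := fun _ => c) (h := fun t => P.eval t)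
    (fun i => hP _ (le_eigenvalues hα hlo i) (eigenvalues_le hα hhi i))
  have h2 := h1.diag_nonneg (i := i)
  rw [mfc_const, ← mfc_aeval, Matrix.sub_apply, Matrix.smul_apply, Matrix.one_apply_eq,
    smul_eq_mul, mul_one] at h2
  have h3 := (Complex.nonneg_iff.1 h2).1
  simp only [Complex.sub_re, Complex.ofReal_re] at h3
  linarith

end

section

variable {G : Type u} [Group G] {X : Type v} [TopologicalSpace X] [CompactSpace X]
  [MulAction G X] [ContinuousConstSMul G X] {B : Type w} [CStarAlgebra B] {n : ℕ}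
  {ι : C(X, ℂ) →⋆ₐ[ℂ] B} {u : G →* unitary B} {e : Fin n → Fin n → B}
  {E : Fin n → Fin n → B →L[ℂ] C(X, ℂ)}

theorem Ft_apply (E : Fin n → Fin n → B →L[ℂ] C(X, ℂ)) (b : B) (x : X) :
    Ft E b x = ∑ k, (E k k b x).re := by
  show (∑ k, E k k b x).re = _
  rw [Complex.re_sum]

theorem Ft_sub_le (E : Fin n → Fin n → B →L[ℂ] C(X, ℂ)) (b c : B) (x : X) :
    |Ft E b x - Ft E c x| ≤ (∑ k, ‖E k k‖) * ‖b - c‖ := by
  rw [Ft_apply, Ft_apply, ← Finset.sum_sub_distrib, Finset.sum_mul]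
  refine (Finset.abs_sum_le_sum_abs _ _).trans (Finset.sum_le_sum fun k _ => ?_)
  rw [← Complex.sub_re, ← ContinuousMap.sub_apply, ← map_sub]
  calc |((E k k (b - c)) x).re| ≤ ‖(E k k (b - c)) x‖ := Complex.abs_re_le_norm _
    _ ≤ ‖E k k (b - c)‖ := (E k k (b - c)).norm_coe_le_norm x
    _ ≤ ‖E k k‖ * ‖b - c‖ := (E k k).le_opNorm _

end

/-- RA: the rank of the compression of `a` from above -/
theorem t_RA : StRA.{u} := by
  intro G _ _ X _ _ _ _ B _ _ _ n ι u e E h a ε θ ha hε hθ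
  let c₀ : ℝ := ∑ k, ‖E k k‖
  have hc₀ : 0 ≤ c₀ := Finset.sum_nonneg fun k _ => norm_nonneg _
  let η : ℝ := min 1 (θ / (4 * (2 * c₀ + n + 1)))
  have hη : 0 < η := lt_min one_pos (by positivity)
  have hη1 : η ≤ 1 := min_le_left _ _
  have hηθ : (2 * c₀ + n) * η ≤ θ / 4 := by
    have h1 : η ≤ θ / (4 * (2 * c₀ + n + 1)) := min_le_right _ _
    have h2 : (2 * c₀ + n + 1) * (θ / (4 * (2 * c₀ + n + 1))) = θ / 4 := by
      field_simp
    calc (2 * c₀ + n) * η ≤ (2 * c₀ + n + 1) * η := by nlinarith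
      _ ≤ (2 * c₀ + n + 1) * (θ / (4 * (2 * c₀ + n + 1))) :=
        mul_le_mul_of_nonneg_left h1 (by positivity)
      _ = θ / 4 := h2
  obtain ⟨P, κ₀, hκ₀, hP, hPκ⟩ := poly_approx a ha ε η hη
  let τ : ℝ := θ / (8 * (n + 1))
  have hτ : 0 < τ := by positivity
  have hτθ : 2 * n * τ ≤ θ / 4 := by
    have h1 : 2 * ((n : ℝ) + 1) * τ = θ / 4 := by simp only [τ]; field_simp; norm_num
    nlinarith
  let κ : ℝ := min κ₀ (min 1 (ε * θ / (4 * (n + 1))))
  have hκ : 0 < κ := lt_min hκ₀ (lt_min one_pos (by positivity))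
  have hκκ₀ : κ ≤ κ₀ := min_le_left _ _
  have hκ1 : κ ≤ 1 := (min_le_right _ _).trans (min_le_left _ _)
  have hκθ : n * (κ / ε) ≤ θ / 4 := by
    have h1 : κ ≤ ε * θ / (4 * (n + 1)) := (min_le_right _ _).trans (min_le_right _ _)
    have h2 : κ / ε ≤ θ / (4 * (n + 1)) := by
      rw [div_le_iff₀ hε]
      calc κ ≤ ε * θ / (4 * (n + 1)) := h1
        _ = θ / (4 * (n + 1)) * ε := by ring
    have h3 : ((n : ℝ) + 1) * (θ / (4 * (n + 1))) = θ / 4 := by field_simp
    have h4 : 0 ≤ κ / ε := by positivity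
    calc (n : ℝ) * (κ / ε) ≤ ((n : ℝ) + 1) * (κ / ε) := by nlinarith
      _ ≤ ((n : ℝ) + 1) * (θ / (4 * (n + 1))) := mul_le_mul_of_nonneg_left h2 (by positivity)
      _ = θ / 4 := h3
  refine ⟨κ, ‖a‖ + 1, τ, P.natDegree, hκ, by positivity, hτ, ?_⟩
  intro a' K ha' hK haa S T χ hTS hχ hχ0 hχ1 hcard x
  obtain ⟨hb1, hb2⟩ := bounds_of_near a a' κ ha ha' haa hκ1
  obtain ⟨hHerm, hCB1, hCB2⟩ := t_CB G X B n ι u e E h S χ hχ x a' ha'
  have hlo := hCB1 κ hκ.le hb1
  have hhi := hCB2 (‖a‖ + 1) (by positivity) hb2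
  have hlo' : (CmpX u E S χ x a' - ((-κ : ℝ) : ℂ) •
      (1 : Matrix (Fin n × S) (Fin n × S) ℂ)).PosSemidef := by
    rw [Complex.ofReal_neg, neg_smul, sub_neg_eq_add]; exact hlo
  obtain ⟨p, hp, hp1, -, hp3⟩ := t_SPM (Fin n × S) (CmpX u E S χ x a') hHerm ε hε.le
  refine ⟨p, hp, hp1 (‖a‖ + 1) (by positivity) hhi, ?_⟩
  have htr := (hp3 P (-κ) (‖a‖ + 1) (η + κ / ε) hlo' hhi).1 (by
    intro t ht1 ht2
    have h1 := abs_le.1 (hP t (by linarith) ht2)
    split_ifs with hc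
    · have h2 : min 1 (t / ε) = 1 := min_eq_left (by rw [le_div_iff₀ hε]; linarith)
      rw [h2] at h1
      have h3 : 0 ≤ κ / ε := by positivity
      linarith
    · push Not at hc
      have h2 : min 1 (t / ε) = t / ε := min_eq_right (by rw [div_le_one hε]; exact hc)
      rw [h2] at h1
      have h3 : -(κ / ε) ≤ t / ε := by
        rw [← neg_div]; exact div_le_div_of_nonneg_right ht1 hε.le
      linarith)
  -- the diagonal entries
  have hphi0 : ∀ y, 0 ≤ Ft E (phi ε a) y := by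
    intro y
    rw [Ft_apply]
    refine Finset.sum_nonneg fun k _ => ?_
    obtain ⟨d, hd⟩ := CStarAlgebra.nonneg_iff_eq_star_mul_self.1
      (show 0 ≤ phi ε a from cfcₙ_nonneg fun t ht =>
        le_min zero_le_one (div_nonneg (quasispectrum_nonneg_of_nonneg a ha t ht) hε.le))
    rw [hd]
    exact (Complex.nonneg_iff.1 (h.pos k d y)).1
  have hdiag : ∀ s : S, ∑ k, ((Polynomial.aeval (CmpX u E S χ x a') P) (k, s) (k, s)).re ≤
      Ft E (phi ε a) ((s : G) • x) + 2 * c₀ * η + (if (s : G) ∈ T then (0:ℝ) else 2 * (n : ℝ)) := by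
    intro s
    by_cases hs : (s : G) ∈ T
    · rw [if_pos hs, add_zero]
      have h1 : ∀ k : Fin n, ((Polynomial.aeval (CmpX u E S χ x a') P) (k, s) (k, s)).re =
          (E k k (Polynomial.aeval a' P) ((s : G) • x)).re := by
        intro k
        rw [t_LOC G X B n ι u e E h K a' hK P S χ x s s.2 hχ0 (hχ1 s hs) k k]
      rw [Finset.sum_congr rfl fun k _ => h1 k, ← Ft_apply]
      have h2 := (abs_le.1 (Ft_sub_le E (Polynomial.aeval a' P) (phi ε a) ((s : G) • x))).2
      have h3 := hPκ a' (haa.trans hκκ₀)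
      have h4 : (∑ k, ‖E k k‖) * ‖Polynomial.aeval a' P - phi ε a‖ ≤ c₀ * (2 * η) :=
        mul_le_mul_of_nonneg_left h3 hc₀
      linarith
    · rw [if_neg hs]
      have h1 : ∀ k ∈ (Finset.univ : Finset (Fin n)),
          ((Polynomial.aeval (CmpX u E S χ x a') P) (k, s) (k, s)).re ≤ 2 := by
        intro k _
        refine diag_aeval_le hHerm hlo' hhi P (fun t ht1 ht2 => ?_) (k, s)
        have h2 := (abs_le.1 (hP t (by linarith) ht2)).2
        have h3 : min 1 (t / ε) ≤ 1 := min_le_left _ _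
        linarith
      have h2 := Finset.sum_le_sum h1
      rw [Finset.sum_const, Finset.card_univ, Fintype.card_fin, nsmul_eq_mul] at h2
      have h3 := hphi0 ((s : G) • x)
      have h4 : 0 ≤ 2 * c₀ * η := by positivity
      linarith
  have htrace : (Polynomial.aeval (CmpX u E S χ x a') P).trace.re ≤
      ∑ s ∈ S, Ft E (phi ε a) (s • x) + 2 * c₀ * η * S.card + 2 * n * (τ * S.card) := by
    have h1 : (Polynomial.aeval (CmpX u E S χ x a') P).trace.re =
        ∑ s : S, ∑ k, ((Polynomial.aeval (CmpX u E S χ x a') P) (k, s) (k, s)).re := by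
      rw [Matrix.trace, Complex.re_sum, Fintype.sum_prod_type_right]
      rfl
    rw [h1]
    refine (Finset.sum_le_sum fun s _ => hdiag s).trans ?_
    rw [Finset.sum_add_distrib, Finset.sum_add_distrib, Finset.sum_coe_sort S
      (fun s => Ft E (phi ε a) (s • x)), Finset.sum_coe_sort S (fun _ => 2 * c₀ * η),
      Finset.sum_coe_sort S (fun s => if s ∈ T then (0:ℝ) else 2 * n), Finset.sum_const,
      nsmul_eq_mul]
    have h2 : ∑ s ∈ S, (if s ∈ T then (0:ℝ) else 2 * n) = ((S \ T).card : ℝ) * (2 * n) := by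
      rw [Finset.sum_ite, Finset.sum_const_zero, zero_add, Finset.sum_const, nsmul_eq_mul,
        Finset.filter_notMem_eq_sdiff]
    have h3 : ((S \ T).card : ℝ) ≤ τ * S.card := by
      rw [Finset.cast_card_sdiff hTS]; linarith
    rw [h2]
    have h4 : (0:ℝ) ≤ 2 * n := by positivity
    nlinarith
  have hcardN : (Fintype.card (Fin n × S) : ℝ) = n * S.card := by
    rw [Fintype.card_prod, Fintype.card_fin, Fintype.card_coe]; push_cast; ring
  rw [hcardN] at htr
  have hScard : (0:ℝ) ≤ S.card := Nat.cast_nonneg _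
  have h5 : (η + κ / ε) * (n * S.card) + 2 * c₀ * η * S.card + 2 * n * (τ * S.card) ≤
      θ * S.card := by
    have h6 : (η + κ / ε) * (n * S.card) + 2 * c₀ * η * S.card + 2 * n * (τ * S.card) =
        ((2 * c₀ + n) * η + n * (κ / ε) + 2 * n * τ) * S.card := by ring
    rw [h6]
    refine mul_le_mul_of_nonneg_right ?_ hScard
    linarith
  linarith

/-- RB: the rank of the compression of `b` from below -/
theorem t_RB : StRB.{u} := by
  intro G _ _ X _ _ _ _ B _ _ _ n ι u e E h b δ θ hb hδ hθ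
  let c₀ : ℝ := ∑ k, ‖E k k‖
  have hc₀ : 0 ≤ c₀ := Finset.sum_nonneg fun k _ => norm_nonneg _
  let η : ℝ := θ / (4 * (2 * c₀ + 2 * n + 1))
  have hη : 0 < η := by positivity
  have hηθ : (2 * c₀ + 2 * n) * η ≤ θ / 4 := by
    have h2 : (2 * c₀ + 2 * n + 1) * η = θ / 4 := by
      simp only [η]; field_simp
    nlinarith
  obtain ⟨P, κ₀, hκ₀, hP, hPκ⟩ := poly_approx b hb δ η hη
  let τ : ℝ := θ / (4 * (c₀ + 1))
  have hτ : 0 < τ := by positivity
  have hτθ : c₀ * τ ≤ θ / 4 := by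
    have h1 : (c₀ + 1) * τ = θ / 4 := by simp only [τ]; field_simp
    nlinarith
  let δ' : ℝ := min δ (δ * θ / (4 * (n + 1)))
  have hδ' : 0 < δ' := lt_min hδ (by positivity)
  have hnn : ∀ z : ℝ, 0 ≤ z → z ≤ δ * θ / (4 * (n + 1)) → n * (z / δ) ≤ θ / 4 := by
    intro z hz h1
    have h2 : z / δ ≤ θ / (4 * (n + 1)) := by
      rw [div_le_iff₀ hδ]
      calc z ≤ δ * θ / (4 * (n + 1)) := h1
        _ = θ / (4 * (n + 1)) * δ := by ring
    have h3 : ((n : ℝ) + 1) * (θ / (4 * (n + 1))) = θ / 4 := by field_simp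
    have h4 : 0 ≤ z / δ := by positivity
    calc (n : ℝ) * (z / δ) ≤ ((n : ℝ) + 1) * (z / δ) := by nlinarith
      _ ≤ ((n : ℝ) + 1) * (θ / (4 * (n + 1))) := mul_le_mul_of_nonneg_left h2 (by positivity)
      _ = θ / 4 := h3
  have hδ'θ : n * (δ' / δ) ≤ θ / 4 := hnn δ' hδ'.le (min_le_right _ _)
  let κ₁ : ℝ := min κ₀ (min 1 (δ * θ / (4 * (n + 1))))
  have hκ₁ : 0 < κ₁ := lt_min hκ₀ (lt_min one_pos (by positivity))
  refine ⟨κ₁, δ', τ, P.natDegree, hκ₁, hδ', hτ, ?_⟩
  intro κ b' K hκ hκκ₁ hb' hK hbb S T χ hTS hχ hχ0 hχ1 hcard x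
  have hκκ₀ : κ ≤ κ₀ := hκκ₁.trans (min_le_left _ _)
  have hκ1 : κ ≤ 1 := hκκ₁.trans ((min_le_right _ _).trans (min_le_left _ _))
  have hκθ : n * (κ / δ) ≤ θ / 4 :=
    hnn κ hκ.le (hκκ₁.trans ((min_le_right _ _).trans (min_le_right _ _)))
  obtain ⟨hb1, hb2⟩ := bounds_of_near b b' κ hb hb' hbb hκ1
  obtain ⟨hHerm, hCB1, hCB2⟩ := t_CB G X B n ι u e E h S χ hχ x b' hb'
  have hlo := hCB1 κ hκ.le hb1
  have hhi := hCB2 (‖b‖ + 1) (by positivity) hb2
  have hlo' : (CmpX u E S χ x b' - ((-κ : ℝ) : ℂ) •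
      (1 : Matrix (Fin n × S) (Fin n × S) ℂ)).PosSemidef := by
    rw [Complex.ofReal_neg, neg_smul, sub_neg_eq_add]; exact hlo
  obtain ⟨q, hq, -, hq2, hq3⟩ := t_SPM (Fin n × S) (CmpX u E S χ x b') hHerm δ' hδ'.le
  refine ⟨q, hq, hq2 κ hκ.le hlo, ?_⟩
  have htr := (hq3 P (-κ) (‖b‖ + 1) (η + δ' / δ) hlo' hhi).2 (by
    intro t ht1 ht2
    have h1 := abs_le.1 (hP t (by linarith) ht2)
    split_ifs with hc
    · have h2 : min 1 (t / δ) ≤ 1 := min_le_left _ _
      have h3 : 0 ≤ δ' / δ := by positivity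
      linarith
    · push Not at hc
      have h2 : min 1 (t / δ) ≤ t / δ := min_le_right _ _
      have h3 : t / δ ≤ δ' / δ := div_le_div_of_nonneg_right hc hδ.le
      linarith)
  -- the diagonal entries
  have hphi1 : ∀ y, Ft E (phi δ b) y ≤ c₀ := by
    intro y
    have h1 := (abs_le.1 (Ft_sub_le E (phi δ b) 0 y)).2
    have h2 : Ft E (0 : B) y = 0 := by rw [Ft_apply]; simp
    have h3 : ‖phi δ b‖ ≤ 1 := by
      unfold phi
      refine norm_cfcₙ_le fun t ht => ?_
      have h4 := quasispectrum_nonneg_of_nonneg b hb t ht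
      have h5 : 0 ≤ t / δ := by positivity
      rw [Real.norm_eq_abs, abs_of_nonneg (le_min zero_le_one h5)]
      exact min_le_left _ _
    rw [h2, sub_zero, sub_zero] at h1
    calc Ft E (phi δ b) y ≤ c₀ * ‖phi δ b‖ := h1
      _ ≤ c₀ * 1 := mul_le_mul_of_nonneg_left h3 hc₀
      _ = c₀ := mul_one _
  have hdiag : ∀ s : S, Ft E (phi δ b) ((s : G) • x) - (2 * c₀ * η + n * (κ / δ + η)) -
      (if (s : G) ∈ T then (0:ℝ) else c₀) ≤
      ∑ k, ((Polynomial.aeval (CmpX u E S χ x b') P) (k, s) (k, s)).re := by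
    intro s
    by_cases hs : (s : G) ∈ T
    · rw [if_pos hs, sub_zero]
      have h1 : ∀ k : Fin n, ((Polynomial.aeval (CmpX u E S χ x b') P) (k, s) (k, s)).re =
          (E k k (Polynomial.aeval b' P) ((s : G) • x)).re := by
        intro k
        rw [t_LOC G X B n ι u e E h K b' hK P S χ x s s.2 hχ0 (hχ1 s hs) k k]
      rw [Finset.sum_congr rfl fun k _ => h1 k, ← Ft_apply]
      have h2 := (abs_le.1 (Ft_sub_le E (Polynomial.aeval b' P) (phi δ b) ((s : G) • x))).1
      have h3 := hPκ b' (hbb.trans hκκ₀)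
      have h4 : (∑ k, ‖E k k‖) * ‖Polynomial.aeval b' P - phi δ b‖ ≤ c₀ * (2 * η) :=
        mul_le_mul_of_nonneg_left h3 hc₀
      have h5 : 0 ≤ n * (κ / δ + η) := by positivity
      linarith
    · rw [if_neg hs]
      have h1 : ∀ k ∈ (Finset.univ : Finset (Fin n)), -(κ / δ + η) ≤
          ((Polynomial.aeval (CmpX u E S χ x b') P) (k, s) (k, s)).re := by
        intro k _
        refine le_diag_aeval hHerm hlo' hhi P (fun t ht1 ht2 => ?_) (k, s)
        have h2 := (abs_le.1 (hP t (by linarith) ht2)).1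
        have h3 : -(κ / δ) ≤ min 1 (t / δ) := by
          refine le_min ?_ ?_
          · have : 0 ≤ κ / δ := by positivity
            linarith
          · rw [← neg_div]; exact div_le_div_of_nonneg_right ht1 hδ.le
        linarith
      have h2 := Finset.sum_le_sum h1
      rw [Finset.sum_const, Finset.card_univ, Fintype.card_fin, nsmul_eq_mul] at h2
      have h3 := hphi1 ((s : G) • x)
      have h4 : 0 ≤ 2 * c₀ * η := by positivity
      linarith
  have htrace : ∑ s ∈ S, Ft E (phi δ b) (s • x) - (2 * c₀ * η + n * (κ / δ + η)) * S.card -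
      c₀ * (τ * S.card) ≤ (Polynomial.aeval (CmpX u E S χ x b') P).trace.re := by
    have h1 : (Polynomial.aeval (CmpX u E S χ x b') P).trace.re =
        ∑ s : S, ∑ k, ((Polynomial.aeval (CmpX u E S χ x b') P) (k, s) (k, s)).re := by
      rw [Matrix.trace, Complex.re_sum, Fintype.sum_prod_type_right]
      rfl
    rw [h1]
    refine le_trans ?_ (Finset.sum_le_sum fun s _ => hdiag s)
    rw [Finset.sum_sub_distrib, Finset.sum_sub_distrib, Finset.sum_coe_sort S
      (fun s => Ft E (phi δ b) (s • x)), Finset.sum_coe_sort S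
      (fun _ => 2 * c₀ * η + n * (κ / δ + η)),
      Finset.sum_coe_sort S (fun s => if s ∈ T then (0:ℝ) else c₀), Finset.sum_const,
      nsmul_eq_mul]
    have h2 : ∑ s ∈ S, (if s ∈ T then (0:ℝ) else c₀) = ((S \ T).card : ℝ) * c₀ := by
      rw [Finset.sum_ite, Finset.sum_const_zero, zero_add, Finset.sum_const, nsmul_eq_mul,
        Finset.filter_notMem_eq_sdiff]
    have h3 : ((S \ T).card : ℝ) ≤ τ * S.card := by
      rw [Finset.cast_card_sdiff hTS]; linarith
    rw [h2]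
    nlinarith
  have hcardN : (Fintype.card (Fin n × S) : ℝ) = n * S.card := by
    rw [Fintype.card_prod, Fintype.card_fin, Fintype.card_coe]; push_cast; ring
  rw [hcardN] at htr
  have hScard : (0:ℝ) ≤ S.card := Nat.cast_nonneg _
  have h5 : (η + δ' / δ) * (n * S.card) + (2 * c₀ * η + n * (κ / δ + η)) * S.card +
      c₀ * (τ * S.card) ≤ θ * S.card := by
    have h6 : (η + δ' / δ) * (n * S.card) + (2 * c₀ * η + n * (κ / δ + η)) * S.card +
      c₀ * (τ * S.card) =
        ((2 * c₀ + 2 * n) * η + n * (δ' / δ) + n * (κ / δ) + c₀ * τ) * S.card := by ring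
    rw [h6]
    refine mul_le_mul_of_nonneg_right ?_ hScard
    linarith
  linarith

end Pool.Agent.H107ZS
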