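import Pool.Agent.H107_ZS.CStubs3

/-!
# RANK from RA and RB
-/

set_option autoImplicit false

namespace Pool.Agent.H107ZS

open Topology Pool.Agent.H327R4.Pure
open scoped CStarAlgebra ComplexOrder

universe u v w

theorem t_RANK (hRA : StRA.{u}) (hRB : StRB.{u}) : StRANK.{u} := by
  intro G _ _ X _ _ _ _ B _ _ _ n ι u e E hE a b ε δ θ ha hb hε hδ hθ
  obtain ⟨κa, C, τa, Na, hκa, hC, hτa, hA⟩ := hRA G X B n ι u e E hE a ε (θ / 2) ha hε
    (by positivity)
  obtain ⟨κ0, δ', τb, Nb, hκ0, hδ', hτb, hB⟩ := hRB G X B n ι u e E hE b δ (θ / 2) hb hδ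
    (by positivity)
  refine ⟨min (min κa κ0) (min (δ' / 4) ε), δ', C, min τa τb, max Na Nb, ?_, ?_, ?_, hC, ?_, ?_⟩
  · refine lt_min (lt_min hκa hκ0) (lt_min (by positivity) hε)
  · have : min (min κa κ0) (min (δ' / 4) ε) ≤ δ' / 4 :=
      (min_le_right _ _).trans (min_le_left _ _)
    linarith
  · exact (min_le_right _ _).trans (min_le_right _ _)
  · exact lt_min hτa hτb
  intro a' b' K ha' hb' hKa hKb hna hnb S T χ hTS hχ hχS hw hτ x
  obtain ⟨p, hp, hp1, hp2⟩ := hA a' K ha' hKa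
    (hna.trans ((min_le_left _ _).trans (min_le_left _ _))) S T χ hTS hχ hχS
    (fun t ht w hwl hwK => hw t ht w (hwl.trans (le_max_left _ _)) hwK)
    (le_trans (by
      have h1 : min τa τb ≤ τa := min_le_left _ _
      have h2 : (0 : ℝ) ≤ S.card := by positivity
      nlinarith) hτ) x
  obtain ⟨q, hq, hq1, hq2⟩ := hB (min (min κa κ0) (min (δ' / 4) ε)) b' K
    (lt_min (lt_min hκa hκ0) (lt_min (by positivity) hε))
    ((min_le_left _ _).trans (min_le_right _ _)) hb' hKb hnb S T χ hTS hχ hχS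
    (fun t ht w hwl hwK => hw t ht w (hwl.trans (le_max_right _ _)) hwK)
    (le_trans (by
      have h1 : min τa τb ≤ τb := min_le_right _ _
      have h2 : (0 : ℝ) ≤ S.card := by positivity
      nlinarith) hτ) x
  refine ⟨p, q, hp, hq, hp1, hq1, ?_⟩
  have : ∑ s ∈ S, (Ft E (phi δ b) - Ft E (phi ε a)) (s • x) =
      ∑ s ∈ S, Ft E (phi δ b) (s • x) - ∑ s ∈ S, Ft E (phi ε a) (s • x) := by
    rw [← Finset.sum_sub_distrib]
    rfl
  rw [this]
  linarith

end Pool.Agent.H107ZS
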