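import Pool.Agent.H107_ZS.TSTEP
import Pool.Agent.H107_ZS.TCE

/-!
# The main step (StSTEP)
-/

set_option autoImplicit false

namespace Pool.Agent.H107ZS

universe u

/-- STEP: the main step -/
theorem t_STEP : StSTEP.{u} := t_STEP_of t_CE

end Pool.Agent.H107ZS
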