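import Pool.Agent.H107_ZS.DStubs3

/-!
# ZE3: functions such that on every orbit the value `1/2` is taken at most `d` times
-/

set_option autoImplicit false

namespace Pool.Agent.H107ZS

open Topology

universe u v w

namespace TZE3

/-- the functions with which we start -/
noncomputable def Phi0 (X : Type u) [MetricSpace X] [CompactSpace X] [Nonempty X] :
    BoundedContinuousFunction (ℕ × X) ℝ :=
  BoundedContinuousFunction.ofNormedAddCommGroup
    (fun p : ℕ × X => min 1 ((Nat.unpair p.1).2 *
      dist p.2 (TopologicalSpace.denseSeq X (Nat.unpair p.1).1)))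
    (by
      refine continuous_const.min ?_
      refine Continuous.mul ?_ ?_
      · exact (continuous_of_discreteTopology (f := fun n : ℕ => ((Nat.unpair n).2 : ℝ))).comp
          continuous_fst
      · refine continuous_snd.dist ?_
        exact (continuous_of_discreteTopology
          (f := fun n : ℕ => TopologicalSpace.denseSeq X (Nat.unpair n).1)).comp continuous_fst)
    1 (by
      intro p
      rw [Real.norm_eq_abs, abs_of_nonneg (le_min zero_le_one (by positivity))]
      exact min_le_left _ _)

lemma Phi0_apply (X : Type u) [MetricSpace X] [CompactSpace X] [Nonempty X] (n : ℕ) (x : X) :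
    Phi0 X (n, x) = min 1 ((Nat.unpair n).2 *
      dist x (TopologicalSpace.denseSeq X (Nat.unpair n).1)) := rfl

lemma Phi0_sep (X : Type u) [MetricSpace X] [CompactSpace X] [Nonempty X] (x y : X) (hxy : x ≠ y) :
    ∃ n, Phi0 X (n, x) < 1 / 8 ∧ Phi0 X (n, y) = 1 := by
  have hδ : 0 < dist x y := dist_pos.2 hxy
  obtain ⟨m, hm⟩ := exists_nat_gt (2 / dist x y)
  have hm0 : (0 : ℝ) < m := lt_trans (by positivity) hm
  have h1 : 0 < min (dist x y / 2) (1 / (8 * m)) := lt_min (by positivity) (by positivity)
  obtain ⟨k, hk⟩ := (TopologicalSpace.denseRange_denseSeq X).exists_dist_lt x h1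
  have h2 : dist x (TopologicalSpace.denseSeq X k) < dist x y / 2 :=
    lt_of_lt_of_le hk (min_le_left _ _)
  have h3 : dist x (TopologicalSpace.denseSeq X k) < 1 / (8 * m) :=
    lt_of_lt_of_le hk (min_le_right _ _)
  refine ⟨Nat.pair k m, ?_, ?_⟩
  · rw [Phi0_apply, Nat.unpair_pair]
    refine lt_of_le_of_lt (min_le_right _ _) ?_
    simp only
    have h4 : (m : ℝ) * dist x (TopologicalSpace.denseSeq X k) < m * (1 / (8 * m)) :=
      mul_lt_mul_of_pos_left h3 hm0
    have h5 : (m : ℝ) * (1 / (8 * m)) = 1 / 8 := by field_simp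
    linarith
  · rw [Phi0_apply, Nat.unpair_pair]
    refine min_eq_left ?_
    simp only
    have h4 : dist x y ≤ dist x (TopologicalSpace.denseSeq X k) +
        dist y (TopologicalSpace.denseSeq X k) := dist_triangle_right _ _ _
    have h5 : dist x y / 2 ≤ dist y (TopologicalSpace.denseSeq X k) := by linarith
    rw [div_lt_iff₀ hδ] at hm
    have h6 : (m : ℝ) * (dist x y / 2) ≤ m * dist y (TopologicalSpace.denseSeq X k) :=
      mul_le_mul_of_nonneg_left h5 hm0.le
    linarith

end TZE3

open TZE3 in
/-- functions such that on every orbit the value `1/2` is taken at most `d` times -/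
theorem t_ZE3 (hZE2 : StZE2.{u}) : StZE3.{u} := by
  classical
  intro G _ _ X _ _ _ _ _ d hfree hdim
  rcases isEmpty_or_nonempty X with hX | hX
  · exact ⟨fun _ => 0, fun x => (hX.false x).elim, fun x => (hX.false x).elim⟩
  letI : MetricSpace X := TopologicalSpace.metrizableSpaceMetric X
  let I : Type u := {P : Fin (d + 1) → ℕ × G // Function.Injective P}
  let U : I → Set (BoundedContinuousFunction (ℕ × X) ℝ) := fun P =>
    {Φ | ∀ x, ∃ i, Φ ((P.1 i).1, (P.1 i).2 • x) ≠ 1 / 2}
  have hUo : ∀ P, IsOpen (U P) := by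
    intro P
    let D : Set (BoundedContinuousFunction (ℕ × X) ℝ × X) :=
      {p | ∀ i, p.1 ((P.1 i).1, (P.1 i).2 • p.2) = 1 / 2}
    have hD : IsClosed D := by
      have h1 : D = ⋂ i, {p : BoundedContinuousFunction (ℕ × X) ℝ × X |
          p.1 ((P.1 i).1, (P.1 i).2 • p.2) = 1 / 2} := by
        ext p; simp [D]
      rw [h1]
      refine isClosed_iInter fun i => isClosed_eq ?_ continuous_const
      have h2 : Continuous fun p : BoundedContinuousFunction (ℕ × X) ℝ × X =>
          ((P.1 i).1, (P.1 i).2 • p.2) :=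
        continuous_const.prodMk ((continuous_const_smul _).comp continuous_snd)
      exact continuous_fst.eval h2
    have h1 : U P = (Prod.fst '' D)ᶜ := by
      ext Φ
      simp only [U, D, Set.mem_ofPred_eq, Set.mem_compl_iff, Set.mem_image, Prod.exists,
        exists_and_right, exists_eq_right, not_exists, not_forall]
    rw [h1]
    exact (isClosedMap_fst_of_compactSpace D hD).isOpen_compl
  have hUd : ∀ P, Dense (U P) := by
    intro P Φ
    rw [Metric.mem_closure_iff]
    intro ε hε
    obtain ⟨Φ', h1, h2⟩ := hZE2 G X d hfree hdim P.1 P.2 Φ ε hε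
    exact ⟨Φ', h2, h1⟩
  have hd := dense_iInter_of_isOpen hUo hUd
  obtain ⟨Φ, hΦ, hdist⟩ := hd.exists_dist_lt (Phi0 X) (show (0 : ℝ) < 1 / 4 by norm_num)
  have hclose : ∀ p, |Phi0 X p - Φ p| < 1 / 4 := by
    intro p
    have h1 := BoundedContinuousFunction.dist_coe_le_dist (f := Phi0 X) (g := Φ) p
    rw [Real.dist_eq] at h1
    exact lt_of_le_of_lt h1 hdist
  refine ⟨fun n => ⟨fun x => Φ (n, x), Φ.continuous.comp (continuous_const.prodMk continuous_id)⟩,
    ?_, ?_⟩
  · intro x y hxy
    obtain ⟨n, h1, h2⟩ := Phi0_sep X x y hxy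
    refine ⟨n, ?_, ?_⟩
    · have h3 := abs_lt.1 (hclose (n, x))
      show Φ (n, x) < 1 / 2
      linarith [h3.1]
    · have h3 := abs_lt.1 (hclose (n, y))
      show 1 / 2 < Φ (n, y)
      rw [h2] at h3
      linarith [h3.2]
  · intro x F hF
    by_contra hcon
    push Not at hcon
    let P : Fin (d + 1) → ℕ × G := fun i => (F.equivFin.symm (Fin.castLE hcon i)).1
    have hP : Function.Injective P := by
      intro i j hij
      have h1 := F.equivFin.symm.injective (Subtype.ext hij)
      exact Fin.castLE_injective hcon h1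
    have h1 : Φ ∈ U ⟨P, hP⟩ := Set.mem_iInter.1 hΦ ⟨P, hP⟩
    obtain ⟨i, hi⟩ := h1 x
    exact hi (hF (P i) (F.equivFin.symm (Fin.castLE hcon i)).2)

end Pool.Agent.H107ZS
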