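import Pool.Agent.H107_ZS.TSC
import Pool.Agent.H107_ZS.TRA
import Pool.Agent.H107_ZS.TRANK
import Pool.Agent.H107_ZS.TMIC
import Pool.Agent.H107_ZS.TCY
import Pool.Agent.H107_ZS.TPART
import Pool.Agent.H107_ZS.TCYC
import Pool.Agent.H107_ZS.TFIN
import Pool.Agent.H107_ZS.TSTEP2
import Pool.Agent.H107_ZS.TCP
import Pool.Agent.H107_ZS.TND
import Pool.Agent.H107_ZS.TCOL
import Pool.Agent.H107_ZS.TZE
import Pool.Agent.H107_ZS.TZE1
import Pool.Agent.H107_ZS.TZE2
import Pool.Agent.H107_ZS.TZE3
import Pool.Agent.H107_ZS.TZE4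
import Pool.Agent.H667R5.TW.Full

/-!
# Crossed products of free minimal actions of tame amenable groups: the main theorem
-/

set_option autoImplicit false

namespace Pool.Agent.H107ZS

open Topology Filter Pool.Agent.H327R4.Pure
open scoped CStarAlgebra ComplexOrder

universe u v w

/-- comparison on totally disconnected spaces for tame subgroups of amenable groups -/
theorem comp_of_tame (G : Type u) [Group G] [Countable G] (Y : Type u) [TopologicalSpace Y]
    [CompactSpace Y] [T2Space Y] [TotallyDisconnectedSpace Y] [MulAction G Y]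
    [ContinuousConstSMul G Y] (hG : Amenable G) (hf : FreeAct G Y) (H : Subgroup G)
    (hH : Tame H) : Comp H Y :=
  hH (fun H => Comp H Y) ⟨fun H hH => t_FIN G Y hf H hH, fun z hz => t_CYC G Y hf z hz,
    fun H hH => t_STEP G Y hG hf H hH⟩

theorem tame_or {G : Type u} [Group G] (h : Tame (⊤ : Subgroup G) ∨ MicroSupported G) :
    Tame (⊤ : Subgroup G) := h.elim id (t_MIC G)

/-- castles for free minimal actions on finite dimensional spaces -/
theorem castle_of_tame (G : Type u) [Group G] [Countable G] [Infinite G] (X : Type u)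
    [TopologicalSpace X] [CompactSpace X] [TopologicalSpace.MetrizableSpace X] [Nonempty X]
    [MulAction G X] [ContinuousConstSMul G X] (d : ℕ) (hG : Amenable G)
    (hT : Tame (⊤ : Subgroup G)) (hf : FreeAct G X) (hm : MinAct G X) (hd : DimLE X d) :
    CastleProp G X (2 ^ d * 2 ^ d) := by
  obtain ⟨Y, _, _, _, _, _, _, π, hπ, hπs, hπe, hπf, hπc⟩ :=
    t_ZE (t_ZE3 (t_ZE2 t_ZE1)) t_ZE4 G X d hf hd
  have hfY : FreeAct G Y := by
    intro g y hy
    refine hf g (π y) ?_
    rw [← hπe, hy]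
  exact t_CP (t_CYR t_CY t_PART) t_ND t_COL G X Y π (2 ^ d) hG hm hf hπ hπs hπe hπf hπc
    (comp_of_tame G Y hG hfY ⊤ hT)

theorem main_of (hTS : StTS.{u}) (hMC : StMC.{u}) (hSIM : StSIM.{u}) (hNUC : StNUC.{u})
    (hINF : StINF.{u}) (G : Type u) [Group G] [Countable G] [Infinite G] (X : Type u)
    [TopologicalSpace X] [CompactSpace X] [TopologicalSpace.MetrizableSpace X] [Nonempty X]
    [MulAction G X] [ContinuousConstSMul G X] (d : ℕ) (hG : Amenable G)
    (hT : Tame (⊤ : Subgroup G) ∨ MicroSupported G) (hf : FreeAct G X) (hm : MinAct G X)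
    (hd : DimLE X d) (A : Type u) [CStarAlgebra A] [PartialOrder A] [StarOrderedRing A]
    (ι : C(X, ℂ) →⋆ₐ[ℂ] A) (u : G →* unitary A) (E : A →L[ℂ] C(X, ℂ)) (h : IsCross ι u E) :
    Pool.Agent.H327R4.SI.ZST A := by
  have hX : Infinite X := by
    obtain ⟨x⟩ := ‹Nonempty X›
    exact Infinite.of_injective (fun g : G => g • x) fun g g' hgg => by
      have h1 : (g'⁻¹ * g) • x = x := by
        change g • x = g' • x at hgg
        rw [mul_smul, hgg, inv_smul_smul]
      have h2 := hf _ _ h1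
      exact (inv_mul_eq_one.1 h2).symm
  exact Pool.Agent.H667R5.TW.full A (hSIM G X A ι u E hf hm h) (hINF G X A ι u E h)
    (hNUC G X A ι u E hG h) (t_SC_of hTS hMC (t_RANK t_RA t_RB) G X A ι u E _ hG hf
      (castle_of_tame G X d hG (tame_or hT) hf hm hd) h)

end Pool.Agent.H107ZS
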