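import Pool.Agent.H107_ZS.DStubs

/-!
# Følner sets of subgroups (StAM)
-/

set_option autoImplicit false

namespace Pool.Agent.H107ZS

open Topology

universe u v w

/-- AM: Følner sets of subgroups -/
theorem t_AM : StAM.{u} := by
  intro G _ hG H K ε hε hKH
  classical
  obtain ⟨S, hS, hfol⟩ := hG K (ε / (K.card + 1)) (by positivity)
  -- right cosets of `H`
  let q : G → Quotient (QuotientGroup.rightRel H) := fun s => Quotient.mk _ s
  have hq : ∀ s t : G, q s = q t ↔ t * s⁻¹ ∈ H := by
    intro s t
    show (Quotient.mk _ s : Quotient (QuotientGroup.rightRel H)) = Quotient.mk _ t ↔ _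
    rw [Quotient.eq, QuotientGroup.rightRel_apply]
  let P : Finset G → G → Prop := fun T g => g ∈ T
  -- sum over the cosets
  let I := S.image q
  let part : Quotient (QuotientGroup.rightRel H) → Finset G := fun c => S.filter fun s => q s = c
  have hcard : S.card = ∑ c ∈ I, (part c).card :=
    Finset.card_eq_sum_card_image q S
  have hbad : ∀ g ∈ K, (S.filter fun s => g * s ∉ S).card =
      ∑ c ∈ I, ((part c).filter fun s => g * s ∉ part c).card := by
    intro g hg
    rw [Finset.card_eq_sum_card_fiberwise (f := q) (t := I)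
      (s := S.filter fun s => g * s ∉ S) ?_]
    · refine Finset.sum_congr rfl fun c _ => ?_
      congr 1
      ext s
      simp only [Finset.mem_filter, part]
      constructor
      · rintro ⟨⟨hs, hgs⟩, hc⟩
        exact ⟨⟨hs, hc⟩, fun h => hgs h.1⟩
      · rintro ⟨⟨hs, hc⟩, h⟩
        refine ⟨⟨hs, fun hgs => h ⟨hgs, ?_⟩⟩, hc⟩
        rw [← hc, hq]
        have : s * (g * s)⁻¹ = g⁻¹ := by group
        rw [this]
        exact H.inv_mem (hKH hg)
    · intro s hs
      have := Finset.mem_coe.1 hs
      exact Finset.mem_coe.2 (Finset.mem_image_of_mem q (Finset.mem_filter.1 this).1)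
  -- some coset is good
  have hex : ∃ c ∈ I, ∑ g ∈ K, (((part c).filter fun s => g * s ∉ part c).card : ℝ)
      ≤ ε * (part c).card := by
    by_contra hcon
    push Not at hcon
    have hI : I.Nonempty := hS.image q
    have h1 : ∑ c ∈ I, ε * ((part c).card : ℝ) <
        ∑ c ∈ I, ∑ g ∈ K, (((part c).filter fun s => g * s ∉ part c).card : ℝ) :=
      Finset.sum_lt_sum_of_nonempty hI hcon
    rw [Finset.sum_comm, ← Finset.mul_sum] at h1
    have h2 : ∀ g ∈ K, ∑ c ∈ I, (((part c).filter fun s => g * s ∉ part c).card : ℝ) ≤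
        ε / (K.card + 1) * S.card := by
      intro g hg
      have := hfol g hg
      rw [show (∑ c ∈ I, (((part c).filter fun s => g * s ∉ part c).card : ℝ)) =
        (((S.filter fun s => g * s ∉ S).card : ℕ) : ℝ) by rw [hbad g hg]; push_cast; rfl]
      convert this
    have h3 := Finset.sum_le_sum h2
    rw [Finset.sum_const, nsmul_eq_mul] at h3
    have h4 : (∑ c ∈ I, ((part c).card : ℝ)) = (S.card : ℝ) := by
      rw [hcard]; push_cast; rfl
    rw [h4] at h1
    have h5 : (0:ℝ) < S.card := by exact_mod_cast hS.card_pos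
    have h6 : (K.card : ℝ) * (ε / (K.card + 1) * S.card) < ε * S.card := by
      have : (K.card : ℝ) * (ε / (K.card + 1) * S.card) = (K.card / (K.card + 1)) * (ε * S.card) := by
        field_simp
      rw [this]
      have h7 : (K.card : ℝ) / (K.card + 1) < 1 := by
        rw [div_lt_one (by positivity)]; linarith
      have h8 : 0 < ε * (S.card : ℝ) := by positivity
      nlinarith
    linarith
  obtain ⟨c, hcI, hc⟩ := hex
  obtain ⟨t, htS, htc⟩ := Finset.mem_image.1 hcI
  refine ⟨(part c).image fun s => s * t⁻¹, ?_, ?_, ?_⟩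
  · intro x hx
    obtain ⟨s, hs, rfl⟩ := Finset.mem_image.1 (Finset.mem_coe.1 hx)
    have : q t = q s := by rw [htc]; exact (Finset.mem_filter.1 hs).2.symm
    exact (hq t s).1 this
  · exact ⟨t * t⁻¹, Finset.mem_image_of_mem _ (Finset.mem_filter.2 ⟨htS, htc⟩)⟩
  · intro g hg
    have hinj : Function.Injective fun s : G => s * t⁻¹ := mul_left_injective t⁻¹
    rw [Finset.card_image_of_injective _ hinj]
    refine le_trans ?_ (le_trans (Finset.single_le_sum
      (f := fun g => (((part c).filter fun s => g * s ∉ part c).card : ℝ))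
      (fun _ _ => Nat.cast_nonneg _) hg) hc)
    have : (((part c).image fun s => s * t⁻¹).filter fun s => g * s ∉ (part c).image fun s => s * t⁻¹)
        = ((part c).filter fun s => g * s ∉ part c).image fun s => s * t⁻¹ := by
      ext x
      simp only [Finset.mem_filter, Finset.mem_image]
      constructor
      · rintro ⟨⟨s, hs, rfl⟩, h⟩
        refine ⟨s, ⟨hs, fun hgs => h ⟨g * s, hgs, by group⟩⟩, rfl⟩
      · rintro ⟨s, ⟨hs, h⟩, rfl⟩
        refine ⟨⟨s, hs, rfl⟩, ?_⟩
        rintro ⟨s', hs', h'⟩
        have : s' = g * s := by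
          have := congrArg (· * t) h'
          simpa [mul_assoc] using this
        exact h (this ▸ hs')
    have h9 : (((part c).image fun s => s * t⁻¹).filter
        fun s => g * s ∉ (part c).image fun s => s * t⁻¹).card
        = ((part c).filter fun s => g * s ∉ part c).card := by
      rw [this, Finset.card_image_of_injective _ hinj]
    exact_mod_cast le_of_eq (by convert h9)

end Pool.Agent.H107ZS
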