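import Pool.Agent.H107_ZS.DStubs5

/-!
# A fractional transport from an inequality for averages
-/

set_option autoImplicit false

namespace Pool.Agent.H107ZS

open Topology

universe u v w

namespace TFM

variable {G : Type u} [Group G] {Y : Type v} [TopologicalSpace Y] [MulAction G Y]
  [ContinuousConstSMul G Y]

theorem lc_smul (a : C(Y, ℕ)) (g : G) : IsLocallyConstant fun y => a (g • y) := by
  refine (IsLocallyConstant.iff_continuous _).2 ?_
  exact a.continuous.comp (continuous_const_smul g)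

end TFM

open Classical in
theorem t_FM : StFM.{u, v} := by
  intro G _ Y _ _ _ _ a b S γ hS hγ hav
  -- bounds
  obtain ⟨M, hM⟩ : ∃ M : ℕ, ∀ y, b y ≤ M := by
    by_cases hY : Nonempty Y
    · obtain ⟨y0, hy0⟩ := (isCompact_range b.continuous).exists_isGreatest (Set.range_nonempty _)
      exact ⟨y0, fun y => hy0.2 ⟨y, rfl⟩⟩
    · exact ⟨0, fun y => (hY ⟨y⟩).elim⟩
  set α : Y → ℕ := fun z => ∑ s ∈ S, a (s • z) with hα
  set β : Y → ℕ := fun z => ∑ s ∈ S, b (s • z) with hβ
  have hc : (0 : ℝ) < S.card := by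
    have := Finset.card_pos.2 hS
    positivity
  have hav' : ∀ z, (α z : ℝ) + γ * S.card ≤ β z := hav
  have hβ0 : ∀ z, (0 : ℝ) < β z := fun z => by
    have h1 := hav' z
    have h2 : (0 : ℝ) ≤ α z := Nat.cast_nonneg _
    have h3 : 0 < γ * S.card := by positivity
    linarith
  have hβM : ∀ z, (β z : ℝ) ≤ S.card * ((M : ℝ) + 1) := fun z => by
    have h1 : β z ≤ ∑ s ∈ S, M := Finset.sum_le_sum fun s _ => hM _
    rw [Finset.sum_const, smul_eq_mul] at h1
    calc (β z : ℝ) ≤ ((S.card * M : ℕ) : ℝ) := Nat.cast_le.2 h1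
      _ = S.card * (M : ℝ) := by push_cast; ring
      _ ≤ S.card * ((M : ℝ) + 1) := by nlinarith
  set D : Finset G := (S ×ˢ S).image fun p => p.2 * p.1⁻¹ with hD
  set X : Y → G → ℝ := fun y g => ∑ s ∈ S, if g * s ∈ S then
    (a y : ℝ) * b (g • y) / (S.card * β (s⁻¹ • y)) else 0 with hX
  have hDmem : ∀ s ∈ S, ∀ t ∈ S, t * s⁻¹ ∈ D := fun s hs t ht =>
    Finset.mem_image.2 ⟨(s, t), Finset.mem_product.2 ⟨hs, ht⟩, rfl⟩
  refine ⟨D, γ / (M + 1), X, by positivity, ⟨fun g => ?_, fun y g => ?_, fun y g h => ?_, fun y => ?_,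
    fun y => ?_⟩⟩
  · -- locally constant
    have hb : ∀ s : G, IsLocallyConstant fun y => β (s⁻¹ • y) := by
      intro s
      refine (IsLocallyConstant.iff_continuous _).2 ?_
      change Continuous fun y => ∑ t ∈ S, b (t • s⁻¹ • y)
      refine continuous_finsetSum _ fun t _ => ?_
      exact b.continuous.comp ((continuous_const_smul t).comp (continuous_const_smul _))
    have h2 : IsLocallyConstant fun y => (a y, b (g • y), fun s : G => if s ∈ S then β (s⁻¹ • y) else 0) := by
      refine IsLocallyConstant.prodMk ((IsLocallyConstant.iff_continuous _).2 a.continuous)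
        (IsLocallyConstant.prodMk (TFM.lc_smul b g) ?_)
      refine (IsLocallyConstant.iff_exists_open _).2 fun y => ?_
      have h3 : ∀ s : G, ∃ U : Set Y, IsOpen U ∧ y ∈ U ∧ ∀ z ∈ U, β (s⁻¹ • z) = β (s⁻¹ • y) :=
        fun s => (IsLocallyConstant.iff_exists_open _).1 (hb s) y
      choose U hU1 hU2 hU3 using h3
      refine ⟨⋂ s ∈ S, U s, isOpen_biInter_finset fun s _ => hU1 s, Set.mem_iInter₂.2 fun s _ => hU2 s,
        fun z hz => ?_⟩
      funext s
      by_cases hs : s ∈ S
      · rw [if_pos hs, if_pos hs, hU3 s z (Set.mem_iInter₂.1 hz s hs)]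
      · rw [if_neg hs, if_neg hs]
    have h3 := h2.comp fun q : ℕ × ℕ × (G → ℕ) => ∑ s ∈ S, if g * s ∈ S then
      (q.1 : ℝ) * q.2.1 / (S.card * q.2.2 s) else 0
    convert h3 using 1
    funext y
    refine Finset.sum_congr rfl fun s hs => ?_
    simp only [if_pos hs]
  · refine Finset.sum_nonneg fun s _ => ?_
    split_ifs
    · have := (hβ0 (s⁻¹ • y)).le
      positivity
    · exact le_rfl
  · by_contra hg
    refine h (Finset.sum_eq_zero fun s hs => ?_)
    rw [if_neg]
    intro hgs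
    apply hg
    have := hDmem s hs _ hgs
    rwa [mul_inv_cancel_right] at this
  · -- out
    change ∑ g ∈ D, ∑ s ∈ S, (if g * s ∈ S then (a y : ℝ) * b (g • y) / (S.card * β (s⁻¹ • y)) else 0) = a y
    rw [Finset.sum_comm]
    have h1 : ∀ s ∈ S, ∑ g ∈ D, (if g * s ∈ S then (a y : ℝ) * b (g • y) / (S.card * β (s⁻¹ • y)) else 0)
        = (a y : ℝ) / S.card := by
      intro s hs
      have h2 : ∑ g ∈ D, (if g * s ∈ S then (a y : ℝ) * b (g • y) / (S.card * β (s⁻¹ • y)) else 0)
          = ∑ t ∈ S, (a y : ℝ) * b ((t * s⁻¹) • y) / (S.card * β (s⁻¹ • y)) := by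
        rw [← Finset.sum_filter]
        symm
        refine Finset.sum_bij (fun t _ => t * s⁻¹) (fun t ht => ?_) (fun t _ t' _ h => mul_right_cancel h)
          (fun g hg => ?_) (fun t _ => rfl)
        · rw [Finset.mem_filter, inv_mul_cancel_right]
          exact ⟨hDmem s hs t ht, ht⟩
        · exact ⟨g * s, (Finset.mem_filter.1 hg).2, mul_inv_cancel_right _ _⟩
      rw [h2]
      have h3 : ∀ t : G, (a y : ℝ) * b ((t * s⁻¹) • y) / (S.card * β (s⁻¹ • y)) =
          ((a y : ℝ) / (S.card * β (s⁻¹ • y))) * (b (t • s⁻¹ • y) : ℝ) := by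
        intro t
        rw [mul_smul]
        ring
      simp_rw [h3]
      rw [← Finset.mul_sum]
      have h4 : ∑ t ∈ S, (b (t • s⁻¹ • y) : ℝ) = β (s⁻¹ • y) := by
        simp only [hβ]
        push_cast
        rfl
      rw [h4]
      have h5 := (hβ0 (s⁻¹ • y)).ne'
      field_simp
    rw [Finset.sum_congr rfl h1, Finset.sum_const, nsmul_eq_mul]
    field_simp
  · -- inn
    change ∑ g ∈ D, ∑ s ∈ S, (if g * s ∈ S then (a (g⁻¹ • y) : ℝ) * b (g • g⁻¹ • y) /
      (S.card * β (s⁻¹ • g⁻¹ • y)) else 0) ≤ _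
    have h0 : ∑ g ∈ D, ∑ s ∈ S, (if g * s ∈ S then (a (g⁻¹ • y) : ℝ) * b (g • g⁻¹ • y) /
        (S.card * β (s⁻¹ • g⁻¹ • y)) else 0) =
        ∑ t ∈ S, ∑ s ∈ S, (a (s • t⁻¹ • y) : ℝ) * b y / (S.card * β (t⁻¹ • y)) := by
      rw [Finset.sum_comm, Finset.sum_comm (s := S) (t := S)]
      refine Finset.sum_congr rfl fun s hs => ?_
      rw [← Finset.sum_filter]
      symm
      refine Finset.sum_bij (fun t _ => t * s⁻¹) (fun t ht => ?_) (fun t _ t' _ h => mul_right_cancel h)
        (fun g hg => ?_) (fun t _ => ?_)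
      · rw [Finset.mem_filter, inv_mul_cancel_right]
        exact ⟨hDmem s hs t ht, ht⟩
      · exact ⟨g * s, (Finset.mem_filter.1 hg).2, mul_inv_cancel_right _ _⟩
      · rw [smul_inv_smul, mul_inv_rev, inv_inv, ← mul_smul, ← mul_smul, inv_mul_cancel_left]
    rw [h0]
    have h1 : ∀ t ∈ S, ∑ s ∈ S, (a (s • t⁻¹ • y) : ℝ) * b y / (S.card * β (t⁻¹ • y)) ≤
        (1 - γ / (M + 1)) * b y / S.card := by
      intro t _
      have h3 : ∀ s : G, (a (s • t⁻¹ • y) : ℝ) * b y / (S.card * β (t⁻¹ • y)) =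
          ((b y : ℝ) / (S.card * β (t⁻¹ • y))) * (a (s • t⁻¹ • y) : ℝ) := fun s => by ring
      simp_rw [h3]
      rw [← Finset.mul_sum]
      have h4 : ∑ s ∈ S, (a (s • t⁻¹ • y) : ℝ) = α (t⁻¹ • y) := by
        simp only [hα]
        push_cast
        rfl
      rw [h4]
      set z := t⁻¹ • y
      have h5 : (α z : ℝ) / β z ≤ 1 - γ / (M + 1) := by
        rw [div_le_iff₀ (hβ0 z)]
        have h6 : γ / (M + 1) * β z ≤ γ * S.card := by
          have h7 := hβM z
          rw [div_mul_eq_mul_div, div_le_iff₀ (by positivity)]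
          nlinarith
        have := hav' z
        linarith
      calc (b y : ℝ) / (S.card * β z) * α z = (α z : ℝ) / β z * (b y / S.card) := by
            have := (hβ0 z).ne'
            field_simp
        _ ≤ (1 - γ / (M + 1)) * (b y / S.card) := mul_le_mul_of_nonneg_right h5 (by positivity)
        _ = (1 - γ / (M + 1)) * b y / S.card := by ring
    refine (Finset.sum_le_sum h1).trans_eq ?_
    rw [Finset.sum_const, nsmul_eq_mul]
    field_simp

end Pool.Agent.H107ZS
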