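import Pool.Agent.H107_ZS.TTA
import Pool.Agent.H107_ZS.TFM
import Pool.Agent.H107_ZS.TKL
import Pool.Agent.H107_ZS.TAM

/-!
# Comparison for free actions of amenable groups on zero-dimensional spaces
-/

set_option autoImplicit false

namespace Pool.Agent.H107ZS

open Topology

universe u v w

theorem t_COMP (hred : StRED.{u}) : StCOMP.{u} := by
  classical
  intro G _ _ Y _ _ _ _ _ _ hG hf a b hab
  by_cases hY : Nonempty Y
  swap
  · refine ⟨0, fun i => i.elim0, fun i => i.elim0, fun i => i.elim0, fun y => (hY ⟨y⟩).elim,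
      fun y => (hY ⟨y⟩).elim⟩
  obtain ⟨_, K, ε, γ, _, hε, hγ, hav⟩ := t_KL G Y ⊤ (fun _ => toR b - toR a) (fun _ _ => le_rfl)
    (fun Λ hΛ => ⟨0, by rw [map_sub]; exact sub_pos.2 (hab Λ hΛ)⟩)
  obtain ⟨S, hST, hS⟩ := t_AM G hG ⊤ K ε hε (fun _ _ => Subgroup.mem_top _)
  have h1 : ∀ y, ((∑ s ∈ S, a (s • y) : ℕ) : ℝ) + γ * S.card ≤ ((∑ s ∈ S, b (s • y) : ℕ) : ℝ) := by
    intro y
    have h2 := hav S hST hS y
    have h3 : ∑ s ∈ S, (toR b - toR a) (s • y) = ((∑ s ∈ S, b (s • y) : ℕ) : ℝ) -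
        ((∑ s ∈ S, a (s • y) : ℕ) : ℝ) := by
      push_cast
      rw [← Finset.sum_sub_distrib]
      rfl
    rw [h3] at h2
    linarith
  obtain ⟨D, γ', X, hγ', hX⟩ := t_FM G Y a b S γ hS.1 hγ h1
  exact hred G Y hf (t_TA G Y hG) a b D γ' X hγ' hX

end Pool.Agent.H107ZS
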