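import Pool.Agent.H107_ZS.Final
import Pool.Agent.H107_ZS.TCOMP

/-!
# Crossed products of free minimal actions of amenable groups: the main theorem
-/

set_option autoImplicit false

namespace Pool.Agent.H107ZS

open Topology Filter Pool.Agent.H327R4.Pure
open scoped CStarAlgebra ComplexOrder

universe u v w

/-- castles for free minimal actions of amenable groups on finite dimensional spaces -/
theorem castle_all (hc : StCOMP.{u}) (G : Type u) [Group G] [Countable G] [Infinite G] (X : Type u)
    [TopologicalSpace X] [CompactSpace X] [TopologicalSpace.MetrizableSpace X] [Nonempty X]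
    [MulAction G X] [ContinuousConstSMul G X] (d : ℕ) (hG : Amenable G) (hf : FreeAct G X)
    (hm : MinAct G X) (hd : DimLE X d) : CastleProp G X (2 ^ d * 2 ^ d) := by
  obtain ⟨Y, _, _, _, _, _, _, π, hπ, hπs, hπe, hπf, hπc⟩ :=
    t_ZE (t_ZE3 (t_ZE2 t_ZE1)) t_ZE4 G X d hf hd
  have hfY : FreeAct G Y := by
    intro g y hy
    refine hf g (π y) ?_
    rw [← hπe, hy]
  exact t_CP (t_CYR t_CY t_PART) t_ND t_COL G X Y π (2 ^ d) hG hm hf hπ hπs hπe hπf hπc
    (hc G Y hG hfY)

theorem main_all (hc : StCOMP.{u}) (hTS : StTS.{u}) (hMC : StMC.{u}) (hSIM : StSIM.{u})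
    (hNUC : StNUC.{u}) (hINF : StINF.{u}) (G : Type u) [Group G] [Countable G] [Infinite G]
    (X : Type u) [TopologicalSpace X] [CompactSpace X] [TopologicalSpace.MetrizableSpace X]
    [Nonempty X] [MulAction G X] [ContinuousConstSMul G X] (d : ℕ) (hG : Amenable G)
    (hf : FreeAct G X) (hm : MinAct G X) (hd : DimLE X d) (A : Type u) [CStarAlgebra A]
    [PartialOrder A] [StarOrderedRing A] (ι : C(X, ℂ) →⋆ₐ[ℂ] A) (u : G →* unitary A)
    (E : A →L[ℂ] C(X, ℂ)) (h : IsCross ι u E) : Pool.Agent.H327R4.SI.ZST A := by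
  have hX : Infinite X := by
    obtain ⟨x⟩ := ‹Nonempty X›
    exact Infinite.of_injective (fun g : G => g • x) fun g g' hgg => by
      have h1 : (g'⁻¹ * g) • x = x := by
        change g • x = g' • x at hgg
        rw [mul_smul, hgg, inv_smul_smul]
      have h2 := hf _ _ h1
      exact (inv_mul_eq_one.1 h2).symm
  exact Pool.Agent.H667R5.TW.full A (hSIM G X A ι u E hf hm h) (hINF G X A ι u E h)
    (hNUC G X A ι u E hG h) (t_SC_of hTS hMC (t_RANK t_RA t_RB) G X A ι u E _ hG hf
      (castle_all hc G X d hG hf hm hd) h)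

/-- crossed products of free minimal actions of amenable groups on finite dimensional compact
metrizable spaces satisfy the local form of Z-stability -/
theorem final_all (hc : StCOMP.{u}) (G : Type u) [Group G] [Countable G] [Infinite G] (X : Type u)
    [TopologicalSpace X] [CompactSpace X] [TopologicalSpace.MetrizableSpace X] [Nonempty X]
    [MulAction G X] [ContinuousConstSMul G X] (d : ℕ) (hG : Amenable G) (hf : FreeAct G X)
    (hm : MinAct G X) (hd : DimLE X d) (A : Type u) [CStarAlgebra A] (ι : C(X, ℂ) →⋆ₐ[ℂ] A)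
    (u : G →* unitary A) (E : A →L[ℂ] C(X, ℂ)) (h : IsCross ι u E) [PartialOrder A]
    [StarOrderedRing A] : Pool.Agent.H327R4.SI.ZST A :=
  main_all hc t_TS t_MC t_SIM (t_NUC t_NU1) t_INF G X d hG hf hm hd A ι u E h

end Pool.Agent.H107ZS
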