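import Pool.Agent.H107_ZS.TTH

/-!
# The cut-down of an element of finite propagation is almost in the tower algebra (StAPX)
-/

set_option autoImplicit false
set_option linter.unusedSectionVars false

namespace Pool.Agent.H107ZS

open Topology Pool.Agent.H327R4.Pure
open scoped CStarAlgebra ComplexOrder

universe u v w

section

variable {G : Type u} [Group G] {X : Type v} [TopologicalSpace X] [CompactSpace X]
  [MulAction G X] [ContinuousConstSMul G X] {B : Type w} [CStarAlgebra B] {n : ℕ}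
  {ι : C(X, ℂ) →⋆ₐ[ℂ] B} {u : G →* unitary B} {e : Fin n → Fin n → B}
  {E : Fin n → Fin n → B →L[ℂ] C(X, ℂ)}

/-- entries of the compression of a finite sum of monomials -/
theorem IsMCross.E_conj_sum (h : IsMCross ι u e E) (f : Fin n → Fin n → G → C(X, ℂ))
    (K : Finset G) (k l : Fin n) (s t : G) (v : X) [DecidableEq G] :
    E k l (star (u s : B) * (∑ g ∈ K, ∑ k, ∑ l, ι (f k l g) * e k l * (u g : B)) *
      (u t : B)) v = ∑ g ∈ K, if t = g⁻¹ * s then f k l g (s • v) else 0 := by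
  classical
  have h1 : star (u s : B) * (∑ g ∈ K, ∑ k, ∑ l, ι (f k l g) * e k l * (u g : B)) * (u t : B) =
      ∑ g ∈ K, ∑ k, ∑ l, mon ι u e ((f k l g).comp (tr s)) k l (s⁻¹ * g * t) := by
    simp only [Finset.mul_sum, Finset.sum_mul]
    refine Finset.sum_congr rfl fun g _ => Finset.sum_congr rfl fun k _ =>
      Finset.sum_congr rfl fun l _ => ?_
    exact h.conj_mon _ _ _ _ _ _
  rw [h1, map_sum, ContinuousMap.sum_apply]
  refine Finset.sum_congr rfl fun g _ => ?_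
  rw [map_sum, ContinuousMap.sum_apply, Finset.sum_eq_single k]
  · rw [map_sum, ContinuousMap.sum_apply, Finset.sum_eq_single l]
    · rw [h.E_mon]
      have e1 : s⁻¹ * g * t = 1 ↔ t = g⁻¹ * s := by
        rw [mul_assoc, inv_mul_eq_one, eq_inv_mul_iff_mul_eq, eq_comm]
      by_cases hc : t = g⁻¹ * s
      · rw [if_pos ⟨rfl, rfl, e1.2 hc⟩, if_pos hc]; rfl
      · rw [if_neg fun hh => hc (e1.1 hh.2.2), if_neg hc]; rfl
    · intro l' _ hl'
      rw [h.E_mon, if_neg fun hh => hl' hh.2.1.symm]; rfl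
    · intro hl; exact absurd (Finset.mem_univ _) hl
  · intro k' _ hk'
    rw [map_sum, ContinuousMap.sum_apply]
    refine Finset.sum_eq_zero fun l' _ => ?_
    rw [h.E_mon, if_neg fun hh => hk' hh.1.symm]; rfl
  · intro hk; exact absurd (Finset.mem_univ _) hk

theorem IsMCross.Th_CmpX (h : IsMCross ι u e E) (f : Fin n → Fin n → G → C(X, ℂ))
    (K : Finset G) (S : Finset G) (χ : G → ℝ) (v : X) (φ : C(X, ℂ))
    (hχ : ∀ s, s ∉ S → χ s = 0) :
    Th ι u e S φ (CmpX u E S χ v (∑ g ∈ K, ∑ k, ∑ l, ι (f k l g) * e k l * (u g : B))) =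
      ∑ g ∈ K, ∑ k, ∑ l, mon ι u e (∑ s ∈ S, ((χ s : ℂ) * (χ (g⁻¹ * s) : ℂ) *
        f k l g (s • v)) • φ.comp (tr s⁻¹)) k l g := by
  classical
  rw [Th_eq]
  -- expand
  have h1 : ∀ p q : Fin n × S, CmpX u E S χ v
      (∑ g ∈ K, ∑ k, ∑ l, ι (f k l g) * e k l * (u g : B)) p q • ut ι u e φ p.1 q.1 p.2 q.2 =
      ∑ g ∈ K, if (q.2 : G) = g⁻¹ * p.2 then ((χ p.2 : ℂ) * (χ (g⁻¹ * p.2) : ℂ) *
        f p.1 q.1 g ((p.2 : G) • v)) • mon ι u e (φ.comp (tr (p.2 : G)⁻¹)) p.1 q.1 g else 0 := by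
    intro p q
    unfold CmpX Cmp
    rw [h.E_conj_sum, Finset.mul_sum, Finset.sum_smul]
    refine Finset.sum_congr rfl fun g _ => ?_
    by_cases hc : (q.2 : G) = g⁻¹ * p.2
    · rw [if_pos hc, if_pos hc, h.ut_eq_mon, hc]
      have e1 : (p.2 : G) * (g⁻¹ * p.2)⁻¹ = g := by group
      rw [e1]
    · rw [if_neg hc, if_neg hc, mul_zero, zero_smul]
  simp only [h1]
  -- reorganise
  have h2 : ∀ p : Fin n × S, ∑ q : Fin n × S, ∑ g ∈ K, (if (q.2 : G) = g⁻¹ * p.2 then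
      ((χ p.2 : ℂ) * (χ (g⁻¹ * p.2) : ℂ) * f p.1 q.1 g ((p.2 : G) • v)) •
        mon ι u e (φ.comp (tr (p.2 : G)⁻¹)) p.1 q.1 g else 0) =
      ∑ g ∈ K, ∑ l, ((χ p.2 : ℂ) * (χ (g⁻¹ * p.2) : ℂ) * f p.1 l g ((p.2 : G) • v)) •
        mon ι u e (φ.comp (tr (p.2 : G)⁻¹)) p.1 l g := by
    intro p
    rw [Finset.sum_comm]
    refine Finset.sum_congr rfl fun g _ => ?_
    rw [Fintype.sum_prod_type]
    refine Finset.sum_congr rfl fun l _ => ?_
    rw [Finset.sum_coe_sort S (fun t => if t = g⁻¹ * p.2 then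
      ((χ p.2 : ℂ) * (χ (g⁻¹ * p.2) : ℂ) * f p.1 l g ((p.2 : G) • v)) •
        mon ι u e (φ.comp (tr (p.2 : G)⁻¹)) p.1 l g else 0), Finset.sum_ite_eq']
    by_cases hc : g⁻¹ * (p.2 : G) ∈ S
    · rw [if_pos hc]
    · rw [if_neg hc, hχ _ hc]
      simp
  rw [Finset.sum_congr rfl fun p _ => h2 p, Finset.sum_comm]
  refine Finset.sum_congr rfl fun g _ => ?_
  rw [Fintype.sum_prod_type]
  refine Finset.sum_congr rfl fun k _ => ?_
  rw [Finset.sum_comm]
  refine Finset.sum_congr rfl fun l _ => ?_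
  rw [mon_sum, Finset.sum_coe_sort S (fun s => ((χ s : ℂ) * (χ (g⁻¹ * s) : ℂ) *
    f k l g (s • v)) • mon ι u e (φ.comp (tr s⁻¹)) k l g)]
  exact Finset.sum_congr rfl fun s _ => (mon_smul _ _ _ _ _).symm

end

/-- APX: the cut-down of an element of finite propagation is almost in the tower algebra -/
theorem t_APX : StAPX.{u} := by
  intro G _ X _ _ _ _ B _ n ι u e E h m S V hL f K χ η v a κ hκ hχ01 hχ0 hχK hη0 hη01 hv ha hf
  classical
  have h1 : ι a * (∑ g ∈ K, ∑ k, ∑ l, ι (f k l g) * e k l * (u g : B)) * ι a =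
      ∑ g ∈ K, ∑ k, ∑ l, mon ι u e (a * f k l g * a.comp (tr g⁻¹)) k l g := by
    simp only [Finset.mul_sum, Finset.sum_mul]
    refine Finset.sum_congr rfl fun g _ => Finset.sum_congr rfl fun k _ =>
      Finset.sum_congr rfl fun l _ => ?_
    exact h.ι_mon_ι a a (f k l g) k l g
  have h2 : ∑ j, Th ι u e (S j) (η j * η j) (CmpX u E (S j) (χ j) (v j)
        (∑ g ∈ K, ∑ k, ∑ l, ι (f k l g) * e k l * (u g : B))) =
      ∑ g ∈ K, ∑ k, ∑ l, mon ι u e (∑ j, ∑ s ∈ S j, ((χ j s : ℂ) * (χ j (g⁻¹ * s) : ℂ) *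
        f k l g (s • v j)) • (η j * η j).comp (tr s⁻¹)) k l g := by
    rw [Finset.sum_congr rfl fun j _ => h.Th_CmpX f K (S j) (χ j) (v j) (η j * η j) (hχ0 j),
      Finset.sum_comm]
    refine Finset.sum_congr rfl fun g _ => ?_
    rw [Finset.sum_comm]
    refine Finset.sum_congr rfl fun k _ => ?_
    rw [Finset.sum_comm]
    exact Finset.sum_congr rfl fun l _ => (mon_sum _ _ _ _ _).symm
  rw [h1, h2, ← Finset.sum_sub_distrib]
  simp only [← Finset.sum_sub_distrib, ← mon_sub]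
  have key : ∀ g ∈ K, ∀ k l, ‖mon ι u e (a * f k l g * a.comp (tr g⁻¹) -
      ∑ j, ∑ s ∈ S j, ((χ j s : ℂ) * (χ j (g⁻¹ * s) : ℂ) *
        f k l g (s • v j)) • (η j * η j).comp (tr s⁻¹)) k l g‖ ≤ κ := by
    intro g hg k l
    refine (h.norm_mon_le _ _ _ _).trans ?_
    rw [ContinuousMap.norm_le _ hκ]
    intro x
    have e1 : (a * f k l g * a.comp (tr g⁻¹) -
      ∑ j, ∑ s ∈ S j, ((χ j s : ℂ) * (χ j (g⁻¹ * s) : ℂ) *
        f k l g (s • v j)) • (η j * η j).comp (tr s⁻¹)) x = a x * f k l g x * a (g⁻¹ • x) -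
      ∑ j, ∑ s ∈ S j, ((χ j s : ℂ) * (χ j (g⁻¹ * s) : ℂ) *
        f k l g (s • v j)) * (η j (s⁻¹ • x) * η j (s⁻¹ • x)) := by
      rw [ContinuousMap.sub_apply]
      simp only [ContinuousMap.sum_apply]
      rfl
    rw [e1]
    rcases levels_cases hL x with hc | ⟨j₀, s₀, hs₀, hx₀, hu⟩
    · have e2 : a x = 0 := by
        rw [ha]
        exact Finset.sum_eq_zero fun j _ => Finset.sum_eq_zero fun s hs => by
          rw [hη0 j _ (hc j s hs), mul_zero]
      have e3 : ∑ j, ∑ s ∈ S j, ((χ j s : ℂ) * (χ j (g⁻¹ * s) : ℂ) *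
        f k l g (s • v j)) * (η j (s⁻¹ • x) * η j (s⁻¹ • x)) = 0 :=
        Finset.sum_eq_zero fun j _ => Finset.sum_eq_zero fun s hs => by
          rw [hη0 j _ (hc j s hs), mul_zero, mul_zero]
      rw [e2, e3, zero_mul, zero_mul, sub_zero, norm_zero]
      exact hκ
    · have e2 : a x = (χ j₀ s₀ : ℂ) * η j₀ (s₀⁻¹ • x) := by
        rw [ha, Finset.sum_eq_single j₀, Finset.sum_eq_single s₀]
        · intro s hs hs'
          rw [hη0 j₀ _ fun hx => hs' (hu j₀ s hs hx).2, mul_zero]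
        · intro hs; exact absurd hs₀ hs
        · intro j _ hj
          exact Finset.sum_eq_zero fun s hs => by
            rw [hη0 j _ fun hx => hj (hu j s hs hx).1, mul_zero]
        · intro hj; exact absurd (Finset.mem_univ _) hj
      have e3 : ∑ j, ∑ s ∈ S j, ((χ j s : ℂ) * (χ j (g⁻¹ * s) : ℂ) *
          f k l g (s • v j)) * (η j (s⁻¹ • x) * η j (s⁻¹ • x)) =
          ((χ j₀ s₀ : ℂ) * (χ j₀ (g⁻¹ * s₀) : ℂ) *
          f k l g (s₀ • v j₀)) * (η j₀ (s₀⁻¹ • x) * η j₀ (s₀⁻¹ • x)) := by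
        rw [Finset.sum_eq_single j₀, Finset.sum_eq_single s₀]
        · intro s hs hs'
          rw [hη0 j₀ _ fun hx => hs' (hu j₀ s hs hx).2, mul_zero, mul_zero]
        · intro hs; exact absurd hs₀ hs
        · intro j _ hj
          exact Finset.sum_eq_zero fun s hs => by
            rw [hη0 j _ fun hx => hj (hu j s hs hx).1, mul_zero, mul_zero]
        · intro hj; exact absurd (Finset.mem_univ _) hj
      have e4 : a (g⁻¹ • x) = (χ j₀ (g⁻¹ * s₀) : ℂ) * η j₀ (s₀⁻¹ • x) := by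
        have hlev : ∀ j, ∀ s ∈ S j, χ j s ≠ 0 → s⁻¹ • g⁻¹ • x ∈ V j → j = j₀ ∧ s = g⁻¹ * s₀ := by
          intro j s hs hχs hx
          have h3 := hχK j g hg s hχs
          have h4 : (g * s)⁻¹ • x ∈ V j := by
            rw [mul_inv_rev, mul_smul]; exact hx
          obtain ⟨h5, h6⟩ := hu j (g * s) h3 h4
          exact ⟨h5, by rw [← h6]; group⟩
        have hterm : ∀ j, ∀ s ∈ S j, (χ j s : ℂ) * η j (s⁻¹ • g⁻¹ • x) ≠ 0 →
            j = j₀ ∧ s = g⁻¹ * s₀ := by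
          intro j s hs hne
          refine hlev j s hs (fun h0 => hne (by rw [h0]; simp)) ?_
          by_contra hcon
          exact hne (by rw [hη0 j _ hcon, mul_zero])
        rw [ha, Finset.sum_eq_single j₀]
        · by_cases hmem : g⁻¹ * s₀ ∈ S j₀
          · rw [Finset.sum_eq_single (g⁻¹ * s₀)]
            · have e5 : (g⁻¹ * s₀)⁻¹ • g⁻¹ • x = s₀⁻¹ • x := by
                rw [smul_smul]; congr 1; group
              rw [e5]
            · intro s hs hs'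
              by_contra hne
              exact hs' (hterm j₀ s hs hne).2
            · intro hs; exact absurd hmem hs
          · rw [hχ0 j₀ _ hmem]
            simp only [Complex.ofReal_zero, zero_mul]
            refine Finset.sum_eq_zero fun s hs => ?_
            by_contra hne
            exact hmem ((hterm j₀ s hs hne).2 ▸ hs)
        · intro j _ hj
          refine Finset.sum_eq_zero fun s hs => ?_
          by_contra hne
          exact hj (hterm j s hs hne).1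
        · intro hj; exact absurd (Finset.mem_univ _) hj
      rw [e2, e3, e4]
      have e6 : (χ j₀ s₀ : ℂ) * η j₀ (s₀⁻¹ • x) * f k l g x *
          ((χ j₀ (g⁻¹ * s₀) : ℂ) * η j₀ (s₀⁻¹ • x)) -
          (χ j₀ s₀ : ℂ) * (χ j₀ (g⁻¹ * s₀) : ℂ) * f k l g (s₀ • v j₀) *
            (η j₀ (s₀⁻¹ • x) * η j₀ (s₀⁻¹ • x)) =
          ((χ j₀ s₀ : ℂ) * (χ j₀ (g⁻¹ * s₀) : ℂ)) * (η j₀ (s₀⁻¹ • x) * η j₀ (s₀⁻¹ • x)) *
            (f k l g (s₀ • s₀⁻¹ • x) - f k l g (s₀ • v j₀)) := by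
        rw [smul_inv_smul]; ring
      rw [e6, norm_mul, norm_mul, norm_mul, norm_mul, Complex.norm_real, Complex.norm_real,
        Real.norm_eq_abs, Real.norm_eq_abs]
      have e7 : ‖η j₀ (s₀⁻¹ • x)‖ ≤ 1 := by
        obtain ⟨h7, h8⟩ := hη01 j₀ (s₀⁻¹ • x)
        have h9 := Complex.nonneg_iff.1 h7
        have h10 : η j₀ (s₀⁻¹ • x) = (((η j₀ (s₀⁻¹ • x)).re : ℝ) : ℂ) :=
          Complex.ext rfl h9.2.symm
        rw [h10, Complex.norm_real, Real.norm_eq_abs, abs_of_nonneg h9.1]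
        have h11 := (Complex.le_def.1 h8).1
        simpa using h11
      have e8 : |χ j₀ s₀| ≤ 1 := by
        rw [abs_of_nonneg (hχ01 j₀ s₀).1]; exact (hχ01 j₀ s₀).2
      have e9 : |χ j₀ (g⁻¹ * s₀)| ≤ 1 := by
        rw [abs_of_nonneg (hχ01 j₀ _).1]; exact (hχ01 j₀ _).2
      have e10 : ‖f k l g (s₀ • s₀⁻¹ • x) - f k l g (s₀ • v j₀)‖ ≤ κ :=
        hf j₀ s₀ hs₀ _ hx₀ _ (hv j₀ ⟨_, hx₀⟩) g hg k l
      have e11 : |χ j₀ s₀| * |χ j₀ (g⁻¹ * s₀)| ≤ 1 := mul_le_one₀ e8 (abs_nonneg _) e9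
      have e12 : ‖η j₀ (s₀⁻¹ • x)‖ * ‖η j₀ (s₀⁻¹ • x)‖ ≤ 1 := mul_le_one₀ e7 (norm_nonneg _) e7
      have e13 : |χ j₀ s₀| * |χ j₀ (g⁻¹ * s₀)| *
          (‖η j₀ (s₀⁻¹ • x)‖ * ‖η j₀ (s₀⁻¹ • x)‖) ≤ 1 :=
        mul_le_one₀ e11 (by positivity) e12
      calc _ ≤ 1 * κ := mul_le_mul e13 e10 (norm_nonneg _) zero_le_one
        _ = κ := one_mul κ
  have h3 : ∀ g ∈ K, ‖∑ k, ∑ l, mon ι u e (a * f k l g * a.comp (tr g⁻¹) -
      ∑ j, ∑ s ∈ S j, ((χ j s : ℂ) * (χ j (g⁻¹ * s) : ℂ) *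
        f k l g (s • v j)) • (η j * η j).comp (tr s⁻¹)) k l g‖ ≤ n ^ 2 * κ := by
    intro g hg
    refine (norm_sum_le _ _).trans ?_
    have h4 : ∀ k ∈ (Finset.univ : Finset (Fin n)), ‖∑ l, mon ι u e (a * f k l g * a.comp (tr g⁻¹) -
      ∑ j, ∑ s ∈ S j, ((χ j s : ℂ) * (χ j (g⁻¹ * s) : ℂ) *
        f k l g (s • v j)) • (η j * η j).comp (tr s⁻¹)) k l g‖ ≤ n * κ := by
      intro k _
      refine (norm_sum_le _ _).trans ((Finset.sum_le_sum fun l _ => key g hg k l).trans ?_)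
      rw [Finset.sum_const, Finset.card_univ, Fintype.card_fin, nsmul_eq_mul]
    refine (Finset.sum_le_sum h4).trans ?_
    rw [Finset.sum_const, Finset.card_univ, Fintype.card_fin, nsmul_eq_mul]
    exact le_of_eq (by ring)
  refine (norm_sum_le _ _).trans ((Finset.sum_le_sum h3).trans ?_)
  rw [Finset.sum_const, nsmul_eq_mul]
  exact le_of_eq (by ring)

end Pool.Agent.H107ZS
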