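import Pool.Agent.H107_ZS.DStubs2

/-!
# CHI: cut-off functions on Følner sets
-/

set_option autoImplicit false

namespace Pool.Agent.H107ZS

open Topology

universe u v w

namespace TCHI

open scoped Pointwise

variable {G : Type u} [Group G]

open Classical in
/-- the ball with respect to `K` -/
noncomputable def Bl (K : Finset G) (r : ℕ) : Finset G := (insert 1 (K ∪ K.image fun g => g⁻¹)) ^ r

open Classical in
/-- `B_r s` is contained in `S` -/
def gd (K S : Finset G) (r : ℕ) (s : G) : Prop := ∀ b ∈ Bl K r, b * s ∈ S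

open Classical in
/-- the number of good radii -/
noncomputable def ct (K S : Finset G) (N : ℕ) (s : G) : ℕ :=
  ((Finset.range N).filter fun r => gd K S (r + 1) s).card

lemma mem_Bl_succ {K : Finset G} {r : ℕ} {b g : G} (hb : b ∈ Bl K r)
    (hg : g ∈ K ∨ g⁻¹ ∈ K) : b * g ∈ Bl K (r + 1) := by
  classical
  rw [Bl] at hb ⊢
  rw [pow_succ]
  refine Finset.mul_mem_mul hb ?_
  rw [Finset.mem_insert, Finset.mem_union, Finset.mem_image]
  rcases hg with h | h
  · exact Or.inr (Or.inl h)
  · exact Or.inr (Or.inr ⟨g⁻¹, h, inv_inv g⟩)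

lemma one_mem_Bl (K : Finset G) (r : ℕ) : (1 : G) ∈ Bl K r := by
  classical
  induction r with
  | zero => rw [Bl, pow_zero]; exact Finset.one_mem_one
  | succ r ih =>
    have : (1 : G) * 1 ∈ Bl K (r + 1) := by
      rw [Bl] at ih ⊢
      rw [pow_succ]
      exact Finset.mul_mem_mul ih (Finset.mem_insert_self _ _)
    simpa using this

lemma Bl_mul {K : Finset G} {r r' : ℕ} {b b' : G} (hb : b ∈ Bl K r) (hb' : b' ∈ Bl K r') :
    b * b' ∈ Bl K (r + r') := by
  classical
  rw [Bl] at hb hb' ⊢
  rw [pow_add]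
  exact Finset.mul_mem_mul hb hb'

lemma Bl_mono {K : Finset G} {r r' : ℕ} (h : r ≤ r') : Bl K r ⊆ Bl K r' := by
  intro b hb
  have h1 := Bl_mul hb (one_mem_Bl K (r' - r))
  rw [mul_one, Nat.add_sub_cancel' h] at h1
  exact h1

lemma prod_mem {K : Finset G} (w : List G) (hw : ∀ x ∈ w, x ∈ K) : w.prod ∈ Bl K w.length := by
  classical
  induction w with
  | nil => simpa using one_mem_Bl K 0
  | cons g w ih =>
    rw [List.prod_cons, List.length_cons, add_comm]
    refine Bl_mul ?_ (ih fun x hx => hw x (List.mem_cons_of_mem _ hx))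
    have := mem_Bl_succ (one_mem_Bl K 0) (Or.inl (hw g List.mem_cons_self))
    simpa using this

lemma gd_succ {K S : Finset G} {r : ℕ} {s g : G} (hg : g ∈ K ∨ g⁻¹ ∈ K)
    (h : gd K S (r + 1) s) : gd K S r (g * s) := by
  intro b hb
  rw [← mul_assoc]
  exact h _ (mem_Bl_succ hb hg)

lemma ct_le (K S : Finset G) (N : ℕ) {s g : G} (hg : g ∈ K ∨ g⁻¹ ∈ K) :
    ct K S N s ≤ ct K S N (g * s) + 1 := by
  classical
  have h1 : ((Finset.range N).filter fun r => gd K S (r + 1) s) ⊆
      insert 0 (((Finset.range N).filter fun r => gd K S (r + 1) (g * s)).image (· + 1)) := by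
    intro r hr
    rw [Finset.mem_filter, Finset.mem_range] at hr
    rw [Finset.mem_insert, Finset.mem_image]
    rcases Nat.eq_zero_or_pos r with h | h
    · exact Or.inl h
    · right
      refine ⟨r - 1, ?_, by omega⟩
      rw [Finset.mem_filter, Finset.mem_range]
      refine ⟨by omega, ?_⟩
      have h2 : r - 1 + 1 = r := by omega
      rw [h2]
      exact gd_succ hg hr.2
  have h2 := Finset.card_le_card h1
  refine h2.trans ((Finset.card_insert_le _ _).trans ?_)
  exact Nat.add_le_add_right Finset.card_image_le 1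

lemma ct_le_N (K S : Finset G) (N : ℕ) (s : G) : ct K S N s ≤ N := by
  classical
  have := Finset.card_filter_le (Finset.range N) (fun r => gd K S (r + 1) s)
  rw [Finset.card_range] at this
  exact this

end TCHI

open TCHI in
/-- cut-off functions on Følner sets -/
theorem t_CHI : StCHI.{u} := by
  classical
  intro G _ K N θ hN hθ
  have hNr : (0 : ℝ) < N := by exact_mod_cast hN
  have hBc : (0 : ℝ) < (Bl K (2 * N)).card := by
    exact_mod_cast Finset.card_pos.2 ⟨1, one_mem_Bl K _⟩
  refine ⟨Bl K (2 * N), θ / (Bl K (2 * N)).card, div_pos hθ hBc, fun S hS => ?_⟩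
  refine ⟨fun s => (ct K S N s : ℝ) / N, S.filter fun t => ∀ b ∈ Bl K (2 * N), b * t ∈ S,
    ?_, ?_, ?_, ?_, Finset.filter_subset _ _, ?_, ?_⟩
  · intro s
    refine ⟨by positivity, ?_⟩
    rw [div_le_one hNr]
    exact_mod_cast ct_le_N K S N s
  · intro s hs
    have : ct K S N s = 0 := by
      rw [ct, Finset.card_eq_zero, Finset.filter_eq_empty_iff]
      intro r _ h
      exact hs (by simpa using h 1 (one_mem_Bl K _))
    show (ct K S N s : ℝ) / N = 0
    rw [this]; simp
  · intro g hg s
    have h1 := ct_le K S N (s := s) (g := g) (Or.inl hg)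
    have h2 := ct_le K S N (s := g * s) (g := g⁻¹) (Or.inr (by rwa [inv_inv]))
    rw [inv_mul_cancel_left] at h2
    have h3 : (ct K S N s : ℝ) ≤ ct K S N (g * s) + 1 := by exact_mod_cast h1
    have h4 : (ct K S N (g * s) : ℝ) ≤ ct K S N s + 1 := by exact_mod_cast h2
    show |(ct K S N (g * s) : ℝ) / N - (ct K S N s : ℝ) / N| ≤ 1 / N
    rw [← sub_div, abs_div, abs_of_pos hNr]
    refine div_le_div_of_nonneg_right ?_ hNr.le
    rw [abs_le]
    constructor <;> linarith
  · intro g hg s hs
    have h1 : ct K S N s ≠ 0 := by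
      intro h
      apply hs
      show (ct K S N s : ℝ) / N = 0
      rw [h]; simp
    obtain ⟨r, hr⟩ := Finset.card_pos.1 (Nat.pos_of_ne_zero h1)
    rw [Finset.mem_filter] at hr
    refine hr.2 g ?_
    have h2 := mem_Bl_succ (one_mem_Bl K r) (Or.inl hg)
    simpa using h2
  · set T := S.filter fun t => ∀ b ∈ Bl K (2 * N), b * t ∈ S with hT
    have h1 : S \ T ⊆ (Bl K (2 * N)).biUnion fun b => S.filter fun s => b * s ∉ S := by
      intro s hs
      rw [Finset.mem_sdiff, hT, Finset.mem_filter] at hs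
      obtain ⟨hs1, hs2⟩ := hs
      rw [Finset.mem_biUnion]
      by_contra h
      push Not at h
      apply hs2
      refine ⟨hs1, fun b hb => ?_⟩
      by_contra h2
      exact h b hb (Finset.mem_filter.2 ⟨hs1, h2⟩)
    have h2 : ((S \ T).card : ℝ) ≤ θ * S.card := by
      have h3 : (S \ T).card ≤ ∑ b ∈ Bl K (2 * N), (S.filter fun s => b * s ∉ S).card :=
        (Finset.card_le_card h1).trans Finset.card_biUnion_le
      calc ((S \ T).card : ℝ) ≤ ∑ b ∈ Bl K (2 * N), ((S.filter fun s => b * s ∉ S).card : ℝ) := by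
            exact_mod_cast h3
        _ ≤ ∑ b ∈ Bl K (2 * N), θ / (Bl K (2 * N)).card * S.card :=
            Finset.sum_le_sum fun b hb => hS.2 b hb
        _ = θ * S.card := by
            rw [Finset.sum_const, nsmul_eq_mul]
            field_simp
    have hTS : T ⊆ S := Finset.filter_subset _ _
    rw [Finset.card_sdiff_of_subset hTS, Nat.cast_sub (Finset.card_le_card hTS)] at h2
    linarith
  · intro t ht w hw hwK
    rw [Finset.mem_filter] at ht
    have h1 : ct K S N (w.prod * t) = N := by
      rw [ct, Finset.filter_true_of_mem, Finset.card_range]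
      intro r hr b hb
      rw [Finset.mem_range] at hr
      rw [← mul_assoc]
      refine ht.2 _ ?_
      have h2 := Bl_mul hb (prod_mem w hwK)
      exact Bl_mono (by omega) h2
    show (ct K S N (w.prod * t) : ℝ) / N = 1
    rw [h1, div_self hNr.ne']

end Pool.Agent.H107ZS
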