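import Pool.Agent.H107_ZS.CStubs2
import Pool.Agent.H327R4.Pure.All

/-!
# DOM: an element below `ε + g`
-/

set_option autoImplicit false

namespace Pool.Agent.H107ZS

open Topology Filter Pool.Agent.H327R4.Pure
open scoped CStarAlgebra ComplexOrder

universe u v w

namespace TDOM

variable {B : Type u} [CStarAlgebra B] [PartialOrder B] [StarOrderedRing B]

omit [PartialOrder B] [StarOrderedRing B] in
theorem cut_eq (a : B) {ε : ℝ} (hε : 0 ≤ ε) :
    cut ε a = cfc (fun x : ℝ => max (x - ε) 0) a := by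
  unfold cut
  exact cfcₙ_eq_cfc (by fun_prop) (by simp [hε])

omit [PartialOrder B] [StarOrderedRing B] in
theorem mul3 (c : B) (f g h : ℝ → ℝ) (hf : Continuous f) (hg : Continuous g)
    (hh : Continuous h) : cfc f c * cfc g c * cfc h c = cfc (fun x => f x * g x * h x) c := by
  rw [cfc_mul (fun x => f x * g x) h c (hf.mul hg).continuousOn hh.continuousOn,
    cfc_mul f g c hf.continuousOn hg.continuousOn]

theorem cube (a : B) (ha : 0 ≤ a) (ε : ℝ) (hε : 0 ≤ ε) :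
    cut ε a * (a - algebraMap ℝ B ε) * cut ε a = cut ε a * cut ε a * cut ε a := by
  have hs : IsSelfAdjoint a := ha.isSelfAdjoint
  rw [cut_eq a hε]
  have h1 : a - algebraMap ℝ B ε = cfc (fun x : ℝ => x - ε) a := by
    rw [cfc_sub (fun x : ℝ => x) (fun _ => ε) a (by fun_prop) (by fun_prop), cfc_id' ℝ a,
      cfc_const ε a]
  rw [h1, mul3 _ _ _ _ (by fun_prop) (by fun_prop) (by fun_prop),
    mul3 _ _ _ _ (by fun_prop) (by fun_prop) (by fun_prop)]
  refine cfc_congr fun x _ => ?_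
  rcases le_total x ε with h | h
  · have h2 : max (x - ε) 0 = 0 := max_eq_right (by linarith)
    simp [h2]
  · have h2 : max (x - ε) 0 = x - ε := max_eq_left (by linarith)
    simp [h2]

/-- `c ≾ c³` -/
theorem cz_cube (c : B) (hc : 0 ≤ c) : Cz c (c * c * c) := by
  have hs : IsSelfAdjoint c := hc.isSelfAdjoint
  -- `y_n = (c + 1/(n+1))⁻¹`
  refine ⟨fun n => cfc (fun x : ℝ => (|x| + 1 / ((n : ℝ) + 1))⁻¹) c, ?_⟩
  have hcont : ∀ n : ℕ, Continuous fun x : ℝ => (|x| + 1 / ((n : ℝ) + 1))⁻¹ := fun n =>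
    (continuous_abs.add continuous_const).inv₀ fun x => by
      have h1 : (0 : ℝ) < |x| + 1 / ((n : ℝ) + 1) := by positivity
      exact h1.ne'
  have h1 : ∀ n : ℕ, cfc (fun x : ℝ => (|x| + 1 / ((n : ℝ) + 1))⁻¹) c * (c * c * c) *
      star (cfc (fun x : ℝ => (|x| + 1 / ((n : ℝ) + 1))⁻¹) c) =
      cfc (fun x : ℝ => (|x| + 1 / ((n : ℝ) + 1))⁻¹ * (x * x * x) *
        (|x| + 1 / ((n : ℝ) + 1))⁻¹) c := by
    intro n
    have hsa : star (cfc (fun x : ℝ => (|x| + 1 / ((n : ℝ) + 1))⁻¹) c) =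
        cfc (fun x : ℝ => (|x| + 1 / ((n : ℝ) + 1))⁻¹) c :=
      (cfc_predicate (fun x : ℝ => (|x| + 1 / ((n : ℝ) + 1))⁻¹) c : IsSelfAdjoint _).star_eq
    have hcube : c * c * c = cfc (fun x : ℝ => x * x * x) c := by
      rw [← mul3 c (fun x => x) (fun x => x) (fun x => x) (by fun_prop) (by fun_prop)
        (by fun_prop), cfc_id' ℝ c]
    rw [hsa, hcube, mul3 _ _ _ _ (hcont n) (by fun_prop) (hcont n)]
  simp only [h1]
  rw [tendsto_iff_norm_sub_tendsto_zero]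
  have h2 : ∀ n : ℕ, ‖cfc (fun x : ℝ => (|x| + 1 / ((n : ℝ) + 1))⁻¹ * (x * x * x) *
        (|x| + 1 / ((n : ℝ) + 1))⁻¹) c - c‖ ≤ 2 * (1 / ((n : ℝ) + 1)) := by
    intro n
    have hcc : Continuous fun x : ℝ => (|x| + 1 / ((n : ℝ) + 1))⁻¹ * (x * x * x) *
        (|x| + 1 / ((n : ℝ) + 1))⁻¹ := ((hcont n).mul (by fun_prop)).mul (hcont n)
    have h3 : cfc (fun x : ℝ => (|x| + 1 / ((n : ℝ) + 1))⁻¹ * (x * x * x) *
        (|x| + 1 / ((n : ℝ) + 1))⁻¹) c - c = cfc (fun x : ℝ =>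
        (|x| + 1 / ((n : ℝ) + 1))⁻¹ * (x * x * x) * (|x| + 1 / ((n : ℝ) + 1))⁻¹ - x) c := by
      rw [cfc_sub _ (fun x : ℝ => x) c hcc.continuousOn (by fun_prop), cfc_id' ℝ c]
    rw [h3]
    refine norm_cfc_le (by positivity) fun x hx => ?_
    have hx0 : 0 ≤ x := spectrum_nonneg_of_nonneg hc hx
    set η : ℝ := 1 / ((n : ℝ) + 1) with hη
    have hη0 : 0 < η := by positivity
    rw [abs_of_nonneg hx0, Real.norm_eq_abs]
    have h4 : (x + η)⁻¹ * (x * x * x) * (x + η)⁻¹ - x = -(x * (2 * x * η + η ^ 2) / (x + η) ^ 2) := by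
      field_simp
      ring
    rw [h4, abs_neg, abs_of_nonneg (by positivity), div_le_iff₀ (by positivity)]
    nlinarith [mul_nonneg hx0 hη0.le, mul_nonneg (mul_nonneg hx0 hη0.le) hη0.le,
      mul_nonneg (mul_nonneg hx0 hx0) hη0.le, pow_pos hη0 3]
  refine squeeze_zero (fun n => norm_nonneg _) h2 ?_
  have := (tendsto_one_div_add_atTop_nhds_zero_nat (𝕜 := ℝ)).const_mul 2
  simpa using this

end TDOM

theorem t_DOM : StDOM.{u} := by
  intro B _ _ _ a g ε ha hg hε h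
  have hc0 : 0 ≤ cut ε a := (ct' B a ha).1 ε
  have hcs : IsSelfAdjoint (cut ε a) := hc0.isSelfAdjoint
  have h1 : Cz (cut ε a) (cut ε a * cut ε a * cut ε a) := TDOM.cz_cube _ hc0
  have h2 : cut ε a * cut ε a * cut ε a ≤ cut ε a * g * cut ε a := by
    rw [← TDOM.cube a ha ε hε]
    have h3 : a - algebraMap ℝ B ε ≤ g := by
      rw [sub_le_iff_le_add, add_comm]
      exact h
    exact hcs.conjugate_le_conjugate h3
  have h3 : 0 ≤ cut ε a * cut ε a * cut ε a := by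
    have := hcs.conjugate_nonneg hc0
    exact this
  have h4 : Cz (cut ε a * cut ε a * cut ε a) (cut ε a * g * cut ε a) := le' B _ _ h3 h2
  have h5 : Cz (cut ε a * g * cut ε a) g := by
    refine ⟨fun _ => cut ε a, ?_⟩
    simp only [hcs.star_eq]
    exact tendsto_const_nhds
  exact tra' B _ _ _ h1 (tra' B _ _ _ h4 h5)

end Pool.Agent.H107ZS
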