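import Pool.Agent.H107_ZS.TMUL

/-!
# Strict comparison: the row elements of a coloured cover, sums over levels, approximation
-/

set_option autoImplicit false
set_option linter.unusedSectionVars false

namespace Pool.Agent.H107ZS

open Topology Pool.Agent.H327R4.Pure
open scoped CStarAlgebra ComplexOrder

universe u v w

section lev

variable {G : Type u} [Group G] {X : Type v} [TopologicalSpace X] [MulAction G X]

/-- the value of a sum over the levels on a level -/
theorem lev_apply {m : ℕ} {S : Fin m → Finset G} {V : Fin m → Set X} (hL : Levels S V)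
    {F : Fin m → X → ℂ} (hF : ∀ j x, x ∉ V j → F j x = 0) (c : Fin m → G → ℂ) {j0 : Fin m} {s0 : G}
    {v : X} (hs : s0 ∈ S j0) (hv : v ∈ V j0) :
    ∑ j, ∑ s ∈ S j, c j s * F j (s⁻¹ • s0 • v) = c j0 s0 * F j0 v := by
  have key : ∀ j s, s ∈ S j → ¬ (j = j0 ∧ s = s0) → F j (s⁻¹ • s0 • v) = 0 := by
    intro j s hsj hne
    refine hF j _ fun hmem => hne ?_
    exact hL j j0 s s0 hsj hs _ hmem v hv (by rw [smul_inv_smul])
  rw [Finset.sum_eq_single j0]
  · rw [Finset.sum_eq_single s0]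
    · rw [inv_smul_smul]
    · intro s hsj hne
      rw [key j0 s hsj fun h => hne h.2, mul_zero]
    · intro h
      exact absurd hs h
  · intro j _ hne
    refine Finset.sum_eq_zero fun s hsj => ?_
    rw [key j s hsj fun h => hne h.1, mul_zero]
  · intro h
    exact absurd (Finset.mem_univ _) h

theorem lev_zero {m : ℕ} {S : Fin m → Finset G} {V : Fin m → Set X}
    {F : Fin m → X → ℂ} (hF : ∀ j x, x ∉ V j → F j x = 0) (c : Fin m → G → ℂ) {x : X}
    (hx : ∀ j, ∀ s ∈ S j, s⁻¹ • x ∉ V j) :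
    ∑ j, ∑ s ∈ S j, c j s * F j (s⁻¹ • x) = 0 :=
  Finset.sum_eq_zero fun j _ => Finset.sum_eq_zero fun s hs => by
    rw [hF j _ (hx j s hs), mul_zero]

/-- the cut-off functions are almost invariant -/
theorem lev_lip {m : ℕ} {S : Fin m → Finset G} {V : Fin m → Set X} (hL : Levels S V)
    {η : Fin m → X → ℂ} (hη : ∀ j x, x ∉ V j → η j x = 0) (hη1 : ∀ j x, ‖η j x‖ ≤ 1)
    {χ : Fin m → G → ℝ} (hχS : ∀ j s, s ∉ S j → χ j s = 0) {K : Finset G} {N : ℕ}
    (hχ : ∀ j, ∀ g ∈ K, ∀ s, |χ j (g * s) - χ j s| ≤ 1 / N)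
    (hχ' : ∀ j, ∀ g ∈ K, ∀ s, χ j s ≠ 0 → g * s ∈ S j) {g : G} (hg : g ∈ K) (x : X) :
    ‖(∑ j, ∑ s ∈ S j, (χ j s : ℂ) * η j (s⁻¹ • x)) -
      ∑ j, ∑ s ∈ S j, (χ j s : ℂ) * η j (s⁻¹ • g⁻¹ • x)‖ ≤ 1 / N := by
  have hN : (0 : ℝ) ≤ 1 / N := by positivity
  -- the value at `g⁻¹ x` if it is on a level with `χ ≠ 0`
  by_cases hx : ∃ j, ∃ s ∈ S j, s⁻¹ • x ∈ V j
  · obtain ⟨j, s, hs, hv⟩ := hx
    obtain ⟨v, hv', rfl⟩ : ∃ v, v ∈ V j ∧ x = s • v := ⟨s⁻¹ • x, hv, by rw [smul_inv_smul]⟩
    rw [lev_apply hL hη (fun j s => (χ j s : ℂ)) hs hv']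
    by_cases hgs : g⁻¹ * s ∈ S j
    · have h1 : ∑ j, ∑ s' ∈ S j, (χ j s' : ℂ) * η j (s'⁻¹ • g⁻¹ • s • v) =
          (χ j (g⁻¹ * s) : ℂ) * η j v := by
        have := lev_apply hL hη (fun j s => (χ j s : ℂ)) hgs hv'
        rw [mul_smul] at this
        exact this
      rw [h1, ← sub_mul, norm_mul]
      have h2 := hχ j g hg (g⁻¹ * s)
      rw [mul_inv_cancel_left] at h2
      have h3 : ‖(χ j s : ℂ) - (χ j (g⁻¹ * s) : ℂ)‖ = |χ j s - χ j (g⁻¹ * s)| := by
        rw [← Complex.ofReal_sub, Complex.norm_real, Real.norm_eq_abs]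
      rw [h3]
      calc |χ j s - χ j (g⁻¹ * s)| * ‖η j v‖ ≤ (1 / N) * 1 :=
            mul_le_mul h2 (hη1 j v) (norm_nonneg _) hN
        _ = 1 / N := mul_one _
    · have h1 : ∑ j, ∑ s' ∈ S j, (χ j s' : ℂ) * η j (s'⁻¹ • g⁻¹ • s • v) = 0 := by
        refine Finset.sum_eq_zero fun j' _ => Finset.sum_eq_zero fun s' hs' => ?_
        by_cases h0 : χ j' s' = 0
        · rw [h0]; simp
        · have h2 := hχ' j' g hg s' h0
          rw [hη j' _ fun hmem => ?_, mul_zero]
          have h3 := hL j' j (g * s') s h2 hs _ hmem v hv' (by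
            rw [mul_smul, smul_inv_smul, smul_inv_smul])
          obtain ⟨rfl, h4⟩ := h3
          apply hgs
          rw [← h4, inv_mul_cancel_left]
          exact hs'
      rw [h1, sub_zero, norm_mul, Complex.norm_real, Real.norm_eq_abs]
      have h2 := hχ j g hg (g⁻¹ * s)
      rw [mul_inv_cancel_left, hχS j _ hgs, sub_zero] at h2
      calc |χ j s| * ‖η j v‖ ≤ (1 / N) * 1 := mul_le_mul h2 (hη1 j v) (norm_nonneg _) hN
        _ = 1 / N := mul_one _
  · push Not at hx
    rw [lev_zero hη (fun j s => (χ j s : ℂ)) hx, zero_sub, norm_neg]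
    have h1 : ∑ j, ∑ s' ∈ S j, (χ j s' : ℂ) * η j (s'⁻¹ • g⁻¹ • x) = 0 := by
      refine Finset.sum_eq_zero fun j' _ => Finset.sum_eq_zero fun s' hs' => ?_
      by_cases h0 : χ j' s' = 0
      · rw [h0]; simp
      · have h2 := hχ' j' g hg s' h0
        rw [hη j' _ fun hmem => ?_, mul_zero]
        have := hx j' (g * s') h2
        apply this
        rw [mul_inv_rev, mul_smul]
        exact hmem
    rw [h1, norm_zero]
    exact hN

end lev

section yc

variable {G : Type u} [Group G] {X : Type v} [TopologicalSpace X] [CompactSpace X] [T2Space X]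
  [MulAction G X] [ContinuousConstSMul G X] {B : Type w} [CStarAlgebra B] {n : ℕ}
  {ι : C(X, ℂ) →⋆ₐ[ℂ] B} {u : G →* unitary B} {e : Fin n → Fin n → B}
  {E : Fin n → Fin n → B →L[ℂ] C(X, ℂ)}

/-- the row elements of a coloured cover -/
theorem exists_yc (h : IsMCross ι u e E) {M : ℕ} {R W : Set X} (hR : IsClosed R)
    (hM : MSub G M R W) (ξ : C(X, ℝ)) (hξ : ∀ x, 0 ≤ ξ x) (hξR : ∀ x, x ∉ R → ξ x = 0) :
    ∃ y : Fin M → B, (ι ⟨fun x => (ξ x : ℂ), by fun_prop⟩ = ∑ c, y c * star (y c)) ∧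
      ∀ w : C(X, ℂ), (∀ x ∈ W, w x = 1) → ∀ c, y c * ι w = y c := by
  classical
  obtain ⟨N, col, g, U, hU, hcov, hW, hdis⟩ := hM
  obtain ⟨p, hp⟩ := PartitionOfUnity.exists_isSubordinate hR U hU (by
    intro x hx
    obtain ⟨i, hi⟩ := hcov x hx
    exact Set.mem_iUnion.2 ⟨i, hi⟩)
  -- the functions
  let ψ : Fin N → C(X, ℂ) := fun i => ⟨fun x => ((Real.sqrt (ξ x * p i x) : ℝ) : ℂ), by fun_prop⟩
  have hψ : ∀ i x, ψ i x = ((Real.sqrt (ξ x * p i x) : ℝ) : ℂ) := fun i x => rfl
  have hψs : ∀ i, star (ψ i) = ψ i := by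
    intro i
    ext x
    rw [ContinuousMap.star_apply, hψ, ← starRingEnd_apply, Complex.conj_ofReal]
  have hψU : ∀ i x, ψ i x ≠ 0 → x ∈ U i := by
    intro i x hx
    by_contra hxU
    apply hx
    rw [hψ]
    have h1 : p i x = 0 := by
      by_contra h2
      exact hxU (hp i (subset_tsupport _ h2))
    rw [h1, mul_zero, Real.sqrt_zero, Complex.ofReal_zero]
  refine ⟨fun c => ∑ i ∈ Finset.univ.filter fun i => col i = c, ι (ψ i) * star (u (g i) : B), ?_, ?_⟩
  · -- `y c * star (y c)`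
    have hcross : ∀ i i', i ≠ i' → col i = col i' →
        ι (ψ i) * star (u (g i) : B) * star (ι (ψ i') * star (u (g i') : B)) = 0 := by
      intro i i' hne hcol
      rw [star_mul, star_star, ← map_star, hψs, ← mul_assoc,
        mul_assoc (ι (ψ i)), u_star u (g i), ← u_coe_mul, mul_assoc, h.u_ι, ← mul_assoc,
        ← map_mul]
      have h0 : ψ i * (ψ i').comp (tr ((g i)⁻¹ * g i')⁻¹) = 0 := by
        ext x
        rw [ContinuousMap.mul_apply, ContinuousMap.zero_apply, ContinuousMap.comp_apply]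
        by_contra hne0
        have h1 : x ∈ U i := hψU i x (left_ne_zero_of_mul hne0)
        have h2 : tr ((g i)⁻¹ * g i')⁻¹ x ∈ U i' := hψU i' _ (right_ne_zero_of_mul hne0)
        refine hdis i i' hne hcol x h1 _ h2 ?_
        change g i • x = g i' • (((g i)⁻¹ * g i')⁻¹ • x)
        rw [← mul_smul, mul_inv_rev, inv_inv, mul_inv_cancel_left]
      rw [h0, map_zero, zero_mul]
    have hdiag : ∀ i, ι (ψ i) * star (u (g i) : B) * star (ι (ψ i) * star (u (g i) : B)) =
        ι (ψ i * ψ i) := by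
      intro i
      rw [star_mul, star_star, ← map_star, hψs, ← mul_assoc,
        mul_assoc (ι (ψ i)), u_star_mul, mul_one, ← map_mul]
    have hy : ∀ c, (∑ i ∈ Finset.univ.filter fun i => col i = c, ι (ψ i) * star (u (g i) : B)) *
        star (∑ i ∈ Finset.univ.filter fun i => col i = c, ι (ψ i) * star (u (g i) : B)) =
        ∑ i ∈ Finset.univ.filter fun i => col i = c, ι (ψ i * ψ i) := by
      intro c
      rw [star_sum, Finset.sum_mul_sum]
      refine Finset.sum_congr rfl fun i hi => ?_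
      rw [Finset.sum_eq_single i]
      · exact hdiag i
      · intro i' hi' hne
        exact hcross i i' (Ne.symm hne)
          ((Finset.mem_filter.1 hi).2.trans (Finset.mem_filter.1 hi').2.symm)
      · intro hi'
        exact absurd hi hi'
    simp only [hy]
    rw [Finset.sum_fiberwise (s := Finset.univ) (g := col) (f := fun i => ι (ψ i * ψ i)), ← map_sum]
    congr 1
    ext x
    rw [ContinuousMap.sum_apply]
    have h1 : ∀ i, (ψ i * ψ i) x = ((ξ x * p i x : ℝ) : ℂ) := by
      intro i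
      rw [ContinuousMap.mul_apply, hψ, ← Complex.ofReal_mul,
        Real.mul_self_sqrt (mul_nonneg (hξ x) (p.nonneg i x))]
    simp only [h1]
    rw [← Complex.ofReal_sum, ← Finset.mul_sum]
    change (ξ x : ℂ) = _
    by_cases hx : x ∈ R
    · have h2 : ∑ i, p i x = 1 := by
        rw [← finsum_eq_sum_of_fintype]
        exact p.sum_eq_one hx
      rw [h2, mul_one]
    · rw [hξR x hx, zero_mul]
  · intro w hw c
    rw [Finset.sum_mul]
    refine Finset.sum_congr rfl fun i _ => ?_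
    rw [u_star, mul_assoc, h.u_ι, inv_inv, ← mul_assoc, ← map_mul]
    congr 2
    ext x
    rw [ContinuousMap.mul_apply, ContinuousMap.comp_apply]
    by_cases hx : ψ i x = 0
    · rw [hx, zero_mul]
    · rw [show w (tr (g i) x) = 1 from hw _ (hW i x (hψU i x hx)), mul_one]

/-- finite propagation is stable under the adjoint -/
theorem Prp.star (h : IsMCross ι u e E) {K L : Finset G} (hKL : ∀ g ∈ K, g⁻¹ ∈ L) {b : B}
    (hb : Prp ι u e K b) : Prp ι u e L (star b) := by
  refine hb.induction (p := fun b => Prp ι u e L (Star.star b)) ?_ ?_ ?_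
  · rw [star_zero]; exact Prp.zero
  · intro a b ha hb
    rw [star_add]
    exact ha.add hb
  · intro f k l g hg
    rw [h.star_mon]
    exact Prp.mon (hKL g hg) _ _ _

theorem Prp.smul {K : Finset G} {b : B} (hb : Prp ι u e K b) (c : ℂ) : Prp ι u e K (c • b) := by
  obtain ⟨f, rfl⟩ := hb
  refine ⟨fun k l g => c • f k l g, ?_⟩
  simp only [Finset.smul_sum, map_smul, smul_mul_assoc]

/-- selfadjoint elements are approximated by selfadjoint elements of finite propagation -/
theorem exists_prp (h : IsMCross ι u e E) (a : B) (ha : IsSelfAdjoint a) (η : ℝ) (hη : 0 < η) :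
    ∃ K : Finset G, ∃ a' : B, IsSelfAdjoint a' ∧ Prp ι u e K a' ∧ ‖a - a'‖ ≤ η := by
  classical
  obtain ⟨c, hc⟩ := h.dense.exists_dist_lt a hη
  let b : B := c.sum fun q f => ι f * e q.1 q.2.1 * (u q.2.2 : B)
  have hb : ‖a - b‖ ≤ η := by
    rw [← dist_eq_norm]
    exact hc.le
  let K0 : Finset G := c.support.image fun q => q.2.2
  have hbK : Prp ι u e K0 b := by
    have : ∀ s : Finset (Fin n × Fin n × G), s ⊆ c.support →
        Prp ι u e K0 (∑ q ∈ s, ι (c q) * e q.1 q.2.1 * (u q.2.2 : B)) := by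
      intro s
      induction s using Finset.induction_on with
      | empty => intro _; rw [Finset.sum_empty]; exact Prp.zero
      | insert q s hq ih =>
        intro hs
        rw [Finset.sum_insert hq]
        refine Prp.add (Prp.mon (g := q.2.2) ?_ _ _ _)
          (ih fun r hr => hs (Finset.mem_insert_of_mem hr))
        exact Finset.mem_image.2 ⟨q, hs (Finset.mem_insert_self q s), rfl⟩
    exact this c.support (Finset.Subset.refl _)
  let K : Finset G := K0 ∪ K0.image fun g => g⁻¹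
  refine ⟨K, (1 / 2 : ℂ) • (b + star b), ?_, ?_, ?_⟩
  · rw [isSelfAdjoint_iff, star_smul, star_add, star_star, add_comm (star b)]
    congr 1
    simp
  · refine Prp.smul (Prp.add (hbK.mono Finset.subset_union_left) ?_) _
    refine hbK.star h fun g hg => ?_
    exact Finset.mem_union_right _ (Finset.mem_image_of_mem _ hg)
  · have h1 : a - (1 / 2 : ℂ) • (b + star b) = (1 / 2 : ℂ) • ((a - b) + star (a - b)) := by
      rw [star_sub, ha.star_eq]
      have h2 : a = (1 / 2 : ℂ) • (a + a) := by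
        rw [← two_smul ℂ a, smul_smul]
        norm_num
      conv_lhs => rw [h2]
      rw [← smul_sub]
      congr 1
      abel
    rw [h1, norm_smul]
    have h2 : ‖(a - b) + star (a - b)‖ ≤ η + η :=
      (norm_add_le _ _).trans (add_le_add hb (by rw [norm_star]; exact hb))
    have h3 : ‖(1 / 2 : ℂ)‖ = 1 / 2 := by simp
    rw [h3]
    linarith

end yc

end Pool.Agent.H107ZS
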