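import Pool.Agent.H107_ZS.TTH
import Pool.Agent.H107_ZS.TDOM
import Pool.Agent.H107_ZS.TYC

/-!
# Strict comparison: the comparison inside the tower algebras
-/

set_option autoImplicit false
set_option linter.unusedSectionVars false

namespace Pool.Agent.H107ZS

open Topology Filter Pool.Agent.H327R4.Pure
open scoped CStarAlgebra ComplexOrder

universe u v w

section order

variable {B : Type u} [CStarAlgebra B] [PartialOrder B] [StarOrderedRing B]

theorem le_of_norm {z : B} (hz : IsSelfAdjoint z) {κ : ℝ} (h : ‖z‖ ≤ κ) :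
    z ≤ algebraMap ℝ B κ ∧ -z ≤ algebraMap ℝ B κ := by
  have h1 : algebraMap ℝ B ‖z‖ ≤ algebraMap ℝ B κ := by
    rw [← sub_nonneg, ← map_sub]
    exact algebraMap_nonneg B (sub_nonneg.2 h)
  refine ⟨hz.le_algebraMap_norm_self.trans h1, ?_⟩
  have h2 := hz.neg.le_algebraMap_norm_self
  rw [norm_neg] at h2
  exact h2.trans h1

theorem conj_le {z x : B} {κ : ℝ} (h : z ≤ algebraMap ℝ B κ) :
    x * z * star x ≤ κ • (x * star x) := by
  have := star_right_conjugate_le_conjugate h x
  rwa [Algebra.algebraMap_eq_smul_one, mul_smul_comm, mul_one, smul_mul_assoc] at this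

theorem Cz.smul_left {a b : B} (h : Cz a b) {c : ℝ} (hc : 0 ≤ c) : Cz (c • a) b := by
  obtain ⟨x, hx⟩ := h
  refine ⟨fun k => (Real.sqrt c) • x k, ?_⟩
  have h1 : ∀ k, (Real.sqrt c • x k) * b * star (Real.sqrt c • x k) = c • (x k * b * star (x k)) := by
    intro k
    rw [star_smul, star_trivial, smul_mul_assoc, smul_mul_assoc, mul_smul_comm, smul_smul,
      Real.mul_self_sqrt hc]
  simp only [h1]
  exact hx.const_smul c

theorem Cz.conj (x b : B) : Cz (x * b * star x) b :=
  ⟨fun _ => x, tendsto_const_nhds⟩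

end order

section tsum

variable {G : Type u} [Group G] {X : Type u} [TopologicalSpace X] [CompactSpace X]
  [MulAction G X] [ContinuousConstSMul G X] {B : Type u} [CStarAlgebra B] {n : ℕ}

/-- an element of the tower algebra -/
noncomputable def Tw (ι : C(X, ℂ) →⋆ₐ[ℂ] B) (u : G →* unitary B) (e : Fin n → Fin n → B) {m : ℕ}
    (S : Fin m → Finset G) (f : Fin m → C(X, ℂ))
    (a : ∀ j, Matrix (Fin n × S j) (Fin n × S j) ℂ) : B := ∑ j, Th ι u e (S j) (f j) (a j)

variable {ι : C(X, ℂ) →⋆ₐ[ℂ] B} {u : G →* unitary B} {e : Fin n → Fin n → B} {m : ℕ}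
  {S : Fin m → Finset G}

theorem Tw_add (f : Fin m → C(X, ℂ)) (a b : ∀ j, Matrix (Fin n × S j) (Fin n × S j) ℂ) :
    Tw ι u e S f (fun j => a j + b j) = Tw ι u e S f a + Tw ι u e S f b := by
  unfold Tw Th
  rw [← Finset.sum_add_distrib]
  refine Finset.sum_congr rfl fun j _ => ?_
  rw [← Finset.sum_add_distrib]
  refine Finset.sum_congr rfl fun p _ => ?_
  rw [← Finset.sum_add_distrib]
  refine Finset.sum_congr rfl fun q _ => ?_
  exact add_smul (a j p q) (b j p q) _

theorem Tw_smul (f : Fin m → C(X, ℂ)) (c : ℂ) (a : ∀ j, Matrix (Fin n × S j) (Fin n × S j) ℂ) :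
    Tw ι u e S f (fun j => c • a j) = c • Tw ι u e S f a := by
  unfold Tw Th
  simp only [Finset.smul_sum, Matrix.smul_apply, smul_smul, smul_eq_mul]

theorem Tw_neg (f : Fin m → C(X, ℂ)) (a : ∀ j, Matrix (Fin n × S j) (Fin n × S j) ℂ) :
    Tw ι u e S f (fun j => -a j) = - Tw ι u e S f a := by
  have := Tw_smul (ι := ι) (u := u) (e := e) f (-1) a
  simpa using this

theorem Tw_sub (f : Fin m → C(X, ℂ)) (a b : ∀ j, Matrix (Fin n × S j) (Fin n × S j) ℂ) :
    Tw ι u e S f (fun j => a j - b j) = Tw ι u e S f a - Tw ι u e S f b := by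
  simp only [sub_eq_add_neg]
  rw [Tw_add, Tw_neg]

theorem Tw_zero (f : Fin m → C(X, ℂ)) :
    Tw ι u e S f (fun j => (0 : Matrix (Fin n × S j) (Fin n × S j) ℂ)) = 0 := by
  unfold Tw Th
  simp

end tsum

section core

variable {G : Type u} [Group G] [DecidableEq G] {X : Type u} [TopologicalSpace X] [CompactSpace X]
  [MulAction G X] [ContinuousConstSMul G X] {B : Type u} [CStarAlgebra B] [PartialOrder B]
  [StarOrderedRing B] {n : ℕ}
  {ι : C(X, ℂ) →⋆ₐ[ℂ] B} {u : G →* unitary B} {e : Fin n → Fin n → B}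
  {E : Fin n → Fin n → B →L[ℂ] C(X, ℂ)}

theorem sc_core (h : IsMCross ι u e E) {m : ℕ} {S : Fin m → Finset G} {V : Fin m → Set X}
    (hL : Levels S V) {a b a' b' : B} (ha : 0 ≤ a) (hb : 0 ≤ b) (hsa : IsSelfAdjoint a')
    (hsb : IsSelfAdjoint b') {κ ε C D δ' : ℝ}
    (hκ : 0 < κ) (hδ' : 4 * κ ≤ δ') (hε : 0 ≤ ε) (hC : 0 ≤ C) (haa : ‖a - a'‖ ≤ κ)
    (hbb : ‖b - b'‖ ≤ κ) (hD : ‖a'‖ ≤ D)
    {η η' : Fin m → C(X, ℂ)} (hη : ∀ j x, x ∉ V j → η j x = 0)
    (hη' : ∀ j x, x ∉ V j → η' j x = 0) (hη1 : ∀ j x, 0 ≤ η j x ∧ η j x ≤ 1)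
    (hη'1 : ∀ j x, 0 ≤ η' j x ∧ η' j x ≤ 1) (hηη : ∀ j, η j * η' j = η' j)
    {h1 h1' h2 : C(X, ℂ)} (hh1 : star h1 = h1) (hh1' : star h1' = h1') (hh2 : star h2 = h2)
    (hh2n : ‖h2‖ ≤ 1)
    {α β p q r : ∀ j, Matrix (Fin n × S j) (Fin n × S j) ℂ}
    (hA : ‖ι h1 * a' * ι h1 - Tw ι u e S (fun j => η' j * η' j) α‖ ≤ κ)
    (hB : ‖ι h2 * b' * ι h2 - Tw ι u e S (fun j => η j * η j) β‖ ≤ κ)
    (hCo : ‖a' - (ι h1 * a' * ι h1 + ι h1' * a' * ι h1')‖ ≤ κ)
    (hpq : ∀ j, IsStarProjection (q j))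
    (hα : ∀ j, ((ε : ℂ) • (1 : Matrix (Fin n × S j) (Fin n × S j) ℂ) + (C : ℂ) • p j -
      α j).PosSemidef) (hαs : ∀ j, (α j).IsHermitian)
    (hβ : ∀ j, (β j + (κ : ℂ) • (1 : Matrix (Fin n × S j) (Fin n × S j) ℂ) -
      (δ' : ℂ) • q j).PosSemidef) (hβs : ∀ j, (β j).IsHermitian)
    {M : ℕ} {vv : ∀ j, Option (Fin M) → Matrix (Fin n × S j) (Fin n × S j) ℂ}
    (hvp : ∀ j, vv j none * star (vv j none) = p j)
    (hvr : ∀ j c, vv j (some c) * star (vv j (some c)) = r j)
    (hvo : ∀ j c c', c ≠ c' → vv j c * star (vv j c') = 0)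
    (hvq : ∀ j c, vv j c * q j = vv j c)
    {y : Fin M → B} {w : C(X, ℂ)} (hyw : ∀ c, y c * ι w = y c)
    (hw : ι w = Tw ι u e S (fun j => η' j * η' j) r)
    (hy : ι (h1' * h1') = ∑ c, y c * star (y c)) :
    Cz (cut (ε + 3 * κ) a) b := by
  obtain ⟨tmul, tstar, tpos, tone⟩ := t_TH G X B n ι u e E h m S V hL
  have tmul' : ∀ (f f' : Fin m → C(X, ℂ)) (a a' : ∀ j, Matrix (Fin n × S j) (Fin n × S j) ℂ),
      (∀ j x, x ∉ V j → f j x = 0) → (∀ j x, x ∉ V j → f' j x = 0) →
      Tw ι u e S f a * Tw ι u e S f' a' = Tw ι u e S (fun j => f j * f' j) (fun j => a j * a' j) :=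
    tmul
  have tstar' : ∀ (f : Fin m → C(X, ℂ)) (a : ∀ j, Matrix (Fin n × S j) (Fin n × S j) ℂ),
      star (Tw ι u e S f a) = Tw ι u e S (fun j => star (f j)) (fun j => star (a j)) := by
    intro f a
    unfold Tw
    rw [star_sum]
    exact Finset.sum_congr rfl fun j _ => tstar j (f j) (a j)
  have tpos' : ∀ (f : Fin m → C(X, ℂ)) (a : ∀ j, Matrix (Fin n × S j) (Fin n × S j) ℂ),
      (∀ j x, x ∉ V j → f j x = 0) → (∀ j x, 0 ≤ f j x) → (∀ j, (a j).PosSemidef) →
      0 ≤ Tw ι u e S f a :=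
    fun f a hf hf0 ha => Finset.sum_nonneg fun j _ => tpos j (f j) (a j) (hf j) (hf0 j) (ha j)
  -- functions
  have hstar : ∀ (f : C(X, ℂ)), (∀ x, 0 ≤ f x) → star f = f := by
    intro f hf
    ext x
    rw [ContinuousMap.star_apply]
    exact Complex.conj_eq_iff_im.2 (Complex.nonneg_iff.1 (hf x)).2.symm
  have hηs : ∀ j, star (η j) = η j := fun j => hstar _ fun x => (hη1 j x).1
  have hη's : ∀ j, star (η' j) = η' j := fun j => hstar _ fun x => (hη'1 j x).1
  have hsq0 : ∀ j x, 0 ≤ (η' j * η' j) x := fun j x => mul_nonneg (hη'1 j x).1 (hη'1 j x).1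
  have hsqV : ∀ j x, x ∉ V j → (η' j * η' j) x = 0 := by
    intro j x hx
    rw [ContinuousMap.mul_apply, hη' j x hx, zero_mul]
  have hsq1 : ∀ j x, (η' j * η' j) x ≤ 1 := fun j x =>
    mul_le_one₀ (hη'1 j x).2 (hη'1 j x).1 (hη'1 j x).2
  have hsqηV : ∀ j x, x ∉ V j → (η j * η j) x = 0 := by
    intro j x hx
    rw [ContinuousMap.mul_apply, hη j x hx, zero_mul]
  -- the element `f`
  set f : B := Tw ι u e S (fun j => η' j * η' j) q with hf
  have hf0 : 0 ≤ f := tpos' _ _ hsqV hsq0 fun j => by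
    have := Matrix.posSemidef_conjTranspose_mul_self (q j)
    rw [← Matrix.star_eq_conjTranspose, (hpq j).isSelfAdjoint.star_eq, (hpq j).isIdempotentElem.eq]
      at this
    exact this
  have hqs : ∀ j, star (q j) = q j := fun j => (hpq j).isSelfAdjoint.star_eq
  have hqq : ∀ j, q j * q j = q j := fun j => (hpq j).isIdempotentElem.eq
  have hηηη : ∀ j, η j * (η' j * η' j) * η j = η' j * η' j := by
    intro j
    calc η j * (η' j * η' j) * η j = (η j * η' j) * (η j * η' j) := by ring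
      _ = η' j * η' j := by rw [hηη]
  have hηηη' : ∀ j, η' j * (η j * η j) * η' j = η' j * η' j := by
    intro j
    calc η' j * (η j * η j) * η' j = (η j * η' j) * (η j * η' j) := by ring
      _ = η' j * η' j := by rw [hηη]
  -- real scalars
  have hrc : ∀ (c : ℝ) (x : B), ((c : ℂ)) • x = c • x := fun c x => RCLike.real_smul_eq_coe_smul (K := ℂ) c x ▸ rfl
  -- upper bound
  have hTone : Tw ι u e S (fun j => η' j * η' j)
      (fun j => (1 : Matrix (Fin n × S j) (Fin n × S j) ℂ)) ≤ 1 :=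
    tone _ hsqV fun j x => ⟨hsq0 j x, hsq1 j x⟩
  have hsaT : ∀ (f : Fin m → C(X, ℂ)) (a : ∀ j, Matrix (Fin n × S j) (Fin n × S j) ℂ),
      (∀ j, star (f j) = f j) → (∀ j, (a j).IsHermitian) → IsSelfAdjoint (Tw ι u e S f a) := by
    intro f a hf ha
    rw [isSelfAdjoint_iff, tstar']
    congr 1
    · funext j; exact hf j
    · funext j; exact ha j
  have hsaι : ∀ (f : C(X, ℂ)) (x : B), star f = f → IsSelfAdjoint x →
      IsSelfAdjoint (ι f * x * ι f) := by
    intro f x hf hx
    rw [isSelfAdjoint_iff, star_mul, star_mul, ← map_star, hf, hx.star_eq, mul_assoc]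
  have u1 : a ≤ a' + algebraMap ℝ B κ := by
    have := (le_of_norm (ha.isSelfAdjoint.sub hsa) haa).1
    rwa [sub_le_iff_le_add, add_comm] at this
  have u2 : a' ≤ (ι h1 * a' * ι h1 + ι h1' * a' * ι h1') + algebraMap ℝ B κ := by
    have := (le_of_norm (hsa.sub ((hsaι h1 a' hh1 hsa).add (hsaι h1' a' hh1' hsa))) hCo).1
    rwa [sub_le_iff_le_add, add_comm] at this
  have u3 : ι h1 * a' * ι h1 ≤ Tw ι u e S (fun j => η' j * η' j) α + algebraMap ℝ B κ := by
    have := (le_of_norm ((hsaι h1 a' hh1 hsa).sub (hsaT _ _ (fun j => by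
      rw [star_mul, hη's]) hαs)) hA).1
    rwa [sub_le_iff_le_add, add_comm] at this
  have u4 : Tw ι u e S (fun j => η' j * η' j) α ≤ algebraMap ℝ B ε +
      C • Tw ι u e S (fun j => η' j * η' j) p := by
    have h3 := tpos' _ _ hsqV hsq0 hα
    rw [Tw_sub, Tw_add, Tw_smul, Tw_smul, hrc, hrc, sub_nonneg] at h3
    refine h3.trans (add_le_add_left ?_ _)
    rw [Algebra.algebraMap_eq_smul_one]
    exact smul_le_smul_of_nonneg_left hTone hε
  have hι1 : ∀ f : C(X, ℂ), star f = f → ι f * ι f = ι f * star (ι f) := by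
    intro f hf
    rw [← map_star, hf]
  have u5 : ι h1' * a' * ι h1' ≤ D • ι (h1' * h1') := by
    have h3 : a' ≤ algebraMap ℝ B D := (le_of_norm hsa hD).1
    have h4 := conj_le (x := ι h1') h3
    rwa [← map_star, hh1', ← map_mul] at h4
  have u6 : ι (h1' * h1') = ∑ c, y c * Tw ι u e S (fun j => η' j * η' j) r * star (y c) := by
    rw [hy]
    refine Finset.sum_congr rfl fun c _ => ?_
    rw [← hw, hyw]
  -- the row
  have hTT : ∀ c c', Tw ι u e S η (fun j => vv j c) * f * star (Tw ι u e S η fun j => vv j c') =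
      Tw ι u e S (fun j => η' j * η' j) fun j => vv j c * star (vv j c') := by
    intro c c'
    rw [hf, tstar', tmul' _ _ _ _ hη hsqV, tmul' _ _ _ _ (by
      intro j x hx
      rw [ContinuousMap.mul_apply, hη j x hx, zero_mul]) (by
      intro j x hx
      rw [hηs, hη j x hx])]
    congr 1
    · funext j
      rw [hηs, hηηη]
    · funext j
      rw [hvq]
  let Y : Option (Fin M) → B := fun c => c.elim ((Real.sqrt C) • (1 : B)) fun c => (Real.sqrt D) • y c
  let Z : B := ∑ c, Y c * Tw ι u e S η (fun j => vv j c)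
  have hD0 : 0 ≤ D := (norm_nonneg _).trans hD
  have hZ : Z * f * star Z = C • Tw ι u e S (fun j => η' j * η' j) p +
      D • ∑ c, y c * Tw ι u e S (fun j => η' j * η' j) r * star (y c) := by
    have h3 : Z * f * star Z = ∑ c, Y c * (Tw ι u e S (fun j => η' j * η' j)
        fun j => vv j c * star (vv j c)) * star (Y c) := by
      change (∑ c, Y c * Tw ι u e S η (fun j => vv j c)) * f *
        star (∑ c, Y c * Tw ι u e S η (fun j => vv j c)) = _
      rw [star_sum, Finset.sum_mul, Finset.sum_mul_sum]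
      refine Finset.sum_congr rfl fun c _ => ?_
      rw [Finset.sum_eq_single c]
      · rw [star_mul, ← hTT]
        simp only [mul_assoc]
      · intro c' _ hne
        rw [star_mul]
        have h4 : Y c * Tw ι u e S η (fun j => vv j c) * f *
            (star (Tw ι u e S η fun j => vv j c') * star (Y c')) =
            Y c * (Tw ι u e S η (fun j => vv j c) * f *
            star (Tw ι u e S η fun j => vv j c')) * star (Y c') := by
          simp only [mul_assoc]
        rw [h4, hTT]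
        have h5 : (fun j => vv j c * star (vv j c')) =
            fun j => (0 : Matrix (Fin n × S j) (Fin n × S j) ℂ) := by
          funext j
          exact hvo j c c' (Ne.symm hne)
        rw [h5, Tw_zero, mul_zero, zero_mul]
      · intro hc
        exact absurd (Finset.mem_univ _) hc
    rw [h3, Fintype.sum_option]
    congr 1
    · change (Real.sqrt C • (1 : B)) * _ * star (Real.sqrt C • (1 : B)) = _
      rw [star_smul, star_one, star_trivial, smul_mul_assoc, one_mul, smul_mul_assoc,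
        mul_smul_comm, mul_one, smul_smul, Real.mul_self_sqrt hC]
      simp only [hvp]
    · rw [Finset.smul_sum]
      refine Finset.sum_congr rfl fun c _ => ?_
      change (Real.sqrt D • y c) * _ * star (Real.sqrt D • y c) = _
      rw [star_smul, star_trivial, smul_mul_assoc, smul_mul_assoc,
        mul_smul_comm, smul_smul, Real.mul_self_sqrt hD0]
      simp only [hvr]
  have hup : a ≤ algebraMap ℝ B (ε + 3 * κ) + Z * f * star Z := by
    rw [hZ]
    have h3 : algebraMap ℝ B (ε + 3 * κ) = algebraMap ℝ B ε + algebraMap ℝ B κ +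
        algebraMap ℝ B κ + algebraMap ℝ B κ := by
      rw [← map_add, ← map_add, ← map_add]
      congr 1
      ring
    rw [h3, ← u6]
    calc a ≤ a' + algebraMap ℝ B κ := u1
      _ ≤ (ι h1 * a' * ι h1 + ι h1' * a' * ι h1') + algebraMap ℝ B κ + algebraMap ℝ B κ :=
          add_le_add_left u2 _
      _ ≤ ((Tw ι u e S (fun j => η' j * η' j) α + algebraMap ℝ B κ) + D • ι (h1' * h1')) +
            algebraMap ℝ B κ + algebraMap ℝ B κ :=
          add_le_add_left (add_le_add_left (add_le_add u3 u5) _) _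
      _ ≤ (((algebraMap ℝ B ε + C • Tw ι u e S (fun j => η' j * η' j) p) + algebraMap ℝ B κ) +
            D • ι (h1' * h1')) + algebraMap ℝ B κ + algebraMap ℝ B κ :=
          add_le_add_left (add_le_add_left (add_le_add_left (add_le_add_left u4 _) _) _) _
      _ = _ := by abel
  -- lower bound
  set F : B := Tw ι u e S η' q with hF
  have hFs : star F = F := by
    rw [hF, tstar']
    congr 1
    · funext j; exact hη's j
    · funext j; exact hqs j
  have hFF : F * F = f := by
    rw [hF, hf, tmul' _ _ _ _ hη' hη']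
    congr 1
    funext j
    exact hqq j
  have l2 : F * Tw ι u e S (fun j => η j * η j) β * F =
      Tw ι u e S (fun j => η' j * η' j) fun j => q j * β j * q j := by
    rw [hF, tmul' _ _ _ _ hη' hsqηV, tmul' _ _ _ _ (by
      intro j x hx
      rw [ContinuousMap.mul_apply, hη' j x hx, zero_mul]) hη']
    congr 1
    funext j
    exact hηηη' j
  have l3 : (δ' - κ) • f ≤ Tw ι u e S (fun j => η' j * η' j) fun j => q j * β j * q j := by
    have h3 : ∀ j, (q j * β j * q j + (κ : ℂ) • q j - (δ' : ℂ) • q j).PosSemidef := by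
      intro j
      have h4 := (hβ j).conjTranspose_mul_mul_same (q j)
      rw [← Matrix.star_eq_conjTranspose, hqs] at h4
      have h5 : q j * (β j + (κ : ℂ) • (1 : Matrix (Fin n × S j) (Fin n × S j) ℂ) -
          (δ' : ℂ) • q j) * q j = q j * β j * q j + (κ : ℂ) • q j - (δ' : ℂ) • q j := by
        rw [mul_sub, mul_add, sub_mul, add_mul, mul_smul_comm, mul_one, smul_mul_assoc, hqq,
          mul_smul_comm, hqq, smul_mul_assoc, hqq]
      rwa [h5] at h4
    have h4 := tpos' _ _ hsqV hsq0 h3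
    rw [Tw_sub, Tw_add, Tw_smul, Tw_smul, hrc, hrc, ← hf] at h4
    have h5 : (δ' - κ) • f = δ' • f - κ • f := sub_smul _ _ _
    rw [h5, ← sub_nonneg]
    have h6 : (Tw ι u e S (fun j => η' j * η' j) fun j => q j * β j * q j) - (δ' • f - κ • f) =
        (Tw ι u e S (fun j => η' j * η' j) fun j => q j * β j * q j) + κ • f - δ' • f := by abel
    rw [h6]
    exact h4
  have l1 : F * Tw ι u e S (fun j => η j * η j) β * F ≤ F * (ι h2 * b' * ι h2) * F + κ • f := by
    have h3 := (le_of_norm ((hsaι h2 b' hh2 hsb).sub (hsaT _ _ (fun j => by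
      rw [star_mul, hηs]) hβs)) hB).2
    have h4 := conj_le (x := F) h3
    rw [hFs, hFF] at h4
    rw [← sub_nonneg] at h4 ⊢
    refine h4.trans (le_of_eq ?_)
    noncomm_ring
  have l4 : F * (ι h2 * b' * ι h2) * F ≤ F * (ι h2 * b * ι h2) * F + κ • f := by
    have h3 : -(b - b') ≤ algebraMap ℝ B κ := (le_of_norm (hb.isSelfAdjoint.sub hsb) hbb).2
    have h4 := conj_le (x := F * ι h2) h3
    rw [star_mul, hFs, ← map_star, hh2] at h4
    have h5 : (F * ι h2) * (ι h2 * F) ≤ f := by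
      have h6 : ι h2 * ι h2 ≤ 1 := by
        have h7 : ι h2 * ι h2 = star (ι h2) * ι h2 := by rw [← map_star, hh2]
        rw [h7]
        have h8 : ‖star (ι h2) * ι h2‖ ≤ 1 := by
          rw [CStarRing.norm_star_mul_self]
          have h9 : ‖ι h2‖ ≤ 1 := (NonUnitalStarAlgHom.norm_apply_le ι h2).trans hh2n
          exact mul_le_one₀ h9 (norm_nonneg _) h9
        have h9 := (IsSelfAdjoint.star_mul_self (ι h2)).le_algebraMap_norm_self
        refine h9.trans ?_
        rw [← map_one (algebraMap ℝ B), ← sub_nonneg, ← map_sub]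
        exact algebraMap_nonneg B (sub_nonneg.2 h8)
      have h7 := star_right_conjugate_le_conjugate h6 F
      rw [hFs, mul_one, hFF] at h7
      refine le_trans (le_of_eq ?_) h7
      simp only [mul_assoc]
    have h6 : κ • ((F * ι h2) * (ι h2 * F)) ≤ κ • f := smul_le_smul_of_nonneg_left h5 hκ.le
    have h7 := h4.trans h6
    rw [← sub_nonneg] at h7 ⊢
    refine h7.trans (le_of_eq ?_)
    noncomm_ring
  have hlow : κ • f ≤ (F * ι h2) * b * star (F * ι h2) := by
    rw [star_mul, hFs, ← map_star, hh2]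
    have h3 : (F * ι h2) * b * (ι h2 * F) = F * (ι h2 * b * ι h2) * F := by
      simp only [mul_assoc]
    rw [h3]
    have h4 : (δ' - κ) • f ≤ F * (ι h2 * b * ι h2) * F + κ • f + κ • f :=
      (l3.trans (l2 ▸ l1)).trans (add_le_add_left l4 _)
    have h5 : κ • f ≤ (δ' - 3 * κ) • f :=
      smul_le_smul_of_nonneg_right (by linarith) hf0
    refine h5.trans ?_
    have h6 : (δ' - 3 * κ) • f = (δ' - κ) • f - κ • f - κ • f := by
      rw [← sub_smul, ← sub_smul]
      congr 1
      ring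
    rw [h6, sub_le_iff_le_add, sub_le_iff_le_add]
    exact h4
  -- conclusion
  have c1 : Cz (cut (ε + 3 * κ) a) (Z * f * star Z) := by
    refine t_DOM B a (Z * f * star Z) (ε + 3 * κ) ha ?_ (by positivity) hup
    exact star_right_conjugate_nonneg hf0 Z
  have c2 : Cz (Z * f * star Z) f := Cz.conj Z f
  have c3 : Cz (κ • f) ((F * ι h2) * b * star (F * ι h2)) :=
    le' B _ _ (smul_nonneg hκ.le hf0) hlow
  have c4 : Cz f ((F * ι h2) * b * star (F * ι h2)) := by
    have h3 := Cz.smul_left c3 (c := κ⁻¹) (by positivity)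
    rwa [smul_smul, inv_mul_cancel₀ hκ.ne', one_smul] at h3
  exact tra' B _ _ _ c1 (tra' B _ _ _ c2 (tra' B _ _ _ c4 (Cz.conj _ b)))

end core

end Pool.Agent.H107ZS
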