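import Pool.Agent.H107_ZS.CStubs2

/-!
# GAP from KL
-/

set_option autoImplicit false

namespace Pool.Agent.H107ZS

open Topology Pool.Agent.H327R4.Pure
open scoped CStarAlgebra ComplexOrder

universe u v w

namespace TGAP

theorem phi_anti {B : Type u} [CStarAlgebra B] [PartialOrder B] [StarOrderedRing B] (b : B)
    (hb : 0 ≤ b) {δ δ' : ℝ} (hδ : 0 < δ) (h : δ ≤ δ') : phi δ' b ≤ phi δ b := by
  unfold phi
  refine cfcₙ_mono (fun x hx => ?_) ?_ ?_
  · have hx0 : 0 ≤ x := quasispectrum_nonneg_of_nonneg b hb x hx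
    exact min_le_min le_rfl (div_le_div_of_nonneg_left hx0 hδ h)
  · exact (by fun_prop : Continuous fun x : ℝ => min 1 (x / δ')).continuousOn
  · exact (by fun_prop : Continuous fun x : ℝ => min 1 (x / δ)).continuousOn

end TGAP

theorem t_GAP (hKL : StKL.{u}) : StGAP.{u} := by
  intro G _ _ X _ _ _ _ _ B _ _ _ n ι u e E hE a b ε ha hb hε h
  have hpos : ∀ c : B, 0 ≤ c → ∀ x, 0 ≤ Ft E c x := by
    intro c hc x
    obtain ⟨d, rfl⟩ := CStarAlgebra.nonneg_iff_eq_star_mul_self.1 hc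
    change 0 ≤ (∑ k, E k k (star d * d) x).re
    rw [Complex.re_sum]
    exact Finset.sum_nonneg fun k _ => (Complex.le_def.1 (hE.pos k d x)).1
  have hsub : ∀ c d : B, ∀ x, Ft E (c - d) x = Ft E c x - Ft E d x := by
    intro c d x
    change (∑ k, E k k (c - d) x).re = (∑ k, E k k c x).re - (∑ k, E k k d x).re
    simp only [map_sub, ContinuousMap.sub_apply, Finset.sum_sub_distrib, Complex.sub_re]
  have hmono : ∀ c d : B, c ≤ d → ∀ x, Ft E c x ≤ Ft E d x := by
    intro c d hcd x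
    have := hpos (d - c) (sub_nonneg.2 hcd) x
    rw [hsub] at this
    linarith
  obtain ⟨m, K, ε', γ, hK, hε', hγ, hS⟩ := hKL G X (⊤ : Subgroup G)
    (fun m => Ft E (phi (1 / ((m : ℝ) + 1)) b) - Ft E (phi ε a)) (by
      intro m x
      have h1 := hmono _ _ (TGAP.phi_anti b hb (δ := 1 / (((m + 1 : ℕ) : ℝ) + 1))
        (δ' := 1 / ((m : ℝ) + 1)) (by positivity) (by
          apply one_div_le_one_div_of_le (by positivity)
          push_cast
          linarith)) x
      simp only [ContinuousMap.sub_apply]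
      linarith) (by
      intro Λ hΛ
      obtain ⟨δ, hδ, hlt⟩ := h Λ hΛ
      obtain ⟨m, hm⟩ := exists_nat_one_div_lt hδ
      refine ⟨m, ?_⟩
      have h1 : 0 ≤ Λ (Ft E (phi (1 / ((m : ℝ) + 1)) b) - Ft E (phi δ b)) := by
        apply hΛ.nonneg
        intro x
        have h2 := hmono _ _ (TGAP.phi_anti b hb (δ := 1 / ((m : ℝ) + 1))
          (δ' := δ) (by positivity) hm.le) x
        change (0 : ℝ) ≤ Ft E (phi (1 / ((m : ℝ) + 1)) b) x - Ft E (phi δ b) x
        linarith
      rw [map_sub] at h1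
      rw [map_sub]
      linarith)
  exact ⟨1 / ((m : ℝ) + 1), ε', γ, K, by positivity, hε', hγ, fun S hSF x =>
    hS S (fun g _ => Subgroup.mem_top g) hSF x⟩

end Pool.Agent.H107ZS
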