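import Pool.Agent.H107_ZS.CStubs2

/-!
# Matrices over a crossed product: monomials and products (StMUL)
-/

set_option autoImplicit false
set_option linter.unusedSectionVars false

namespace Pool.Agent.H107ZS

open Topology Pool.Agent.H327R4.Pure
open scoped CStarAlgebra ComplexOrder

universe u v w

section

variable {G : Type u} [Group G] {X : Type v} [TopologicalSpace X] [CompactSpace X]
  [MulAction G X] [ContinuousConstSMul G X] {B : Type w} [CStarAlgebra B] {n : ℕ}
  {ι : C(X, ℂ) →⋆ₐ[ℂ] B} {u : G →* unitary B} {e : Fin n → Fin n → B}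
  {E : Fin n → Fin n → B →L[ℂ] C(X, ℂ)}

theorem u_coe_mul (u : G →* unitary B) (g h : G) : (u (g * h) : B) = (u g : B) * (u h : B) := by
  rw [map_mul]; rfl

theorem u_coe_one (u : G →* unitary B) : (u 1 : B) = 1 := by
  rw [map_one]; rfl

theorem u_star (u : G →* unitary B) (g : G) : star (u g : B) = (u g⁻¹ : B) := by
  rw [map_inv]; rfl

theorem u_star_mul (u : G →* unitary B) (g : G) : star (u g : B) * (u g : B) = 1 :=
  Unitary.coe_star_mul_self _

theorem u_mul_star (u : G →* unitary B) (g : G) : (u g : B) * star (u g : B) = 1 :=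
  Unitary.coe_mul_star_self _

theorem tr_mul (g h : G) : (tr (g * h) : C(X, X)) = (tr g).comp (tr h) := by
  ext x; exact mul_smul g h x

theorem tr_one : (tr (1 : G) : C(X, X)) = ContinuousMap.id X := by
  ext x; exact one_smul G x

theorem IsMCross.u_ι (h : IsMCross ι u e E) (g : G) (f : C(X, ℂ)) :
    (u g : B) * ι f = ι (f.comp (tr g⁻¹)) * (u g : B) := by
  rw [← h.cov g f, mul_assoc _ (star (u g : B)) (u g : B), u_star_mul, mul_one]

/-- a monomial -/
noncomputable def mon (ι : C(X, ℂ) →⋆ₐ[ℂ] B) (u : G →* unitary B) (e : Fin n → Fin n → B) (f : C(X, ℂ))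
    (k l : Fin n) (g : G) : B := ι f * e k l * (u g : B)

theorem IsMCross.E_mon (h : IsMCross ι u e E) (i j k l : Fin n) (f : C(X, ℂ)) (g : G)
    [Decidable (i = k ∧ j = l ∧ g = 1)] :
    E i j (mon ι u e f k l g) = if i = k ∧ j = l ∧ g = 1 then f else 0 := by
  unfold mon
  split_ifs with hc
  · obtain ⟨rfl, rfl, rfl⟩ := hc
    rw [u_coe_one, mul_one, h.coeff]
  · exact h.coeff_ne i j k l g f hc

theorem IsMCross.mon_mul (h : IsMCross ι u e E) (f f' : C(X, ℂ)) (k l k' l' : Fin n) (g g' : G) :
    mon ι u e f k l g * mon ι u e f' k' l' g' =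
      if l = k' then mon ι u e (f * f'.comp (tr g⁻¹)) k l' (g * g') else 0 := by
  unfold mon
  have h1 : ι f * e k l * (u g : B) * (ι f' * e k' l' * (u g' : B)) =
      ι f * e k l * ((u g : B) * ι f') * e k' l' * (u g' : B) := by noncomm_ring
  rw [h1, h.u_ι]
  have h2 : ι f * e k l * (ι (f'.comp (tr g⁻¹)) * (u g : B)) * e k' l' * (u g' : B) =
      ι f * (e k l * ι (f'.comp (tr g⁻¹))) * ((u g : B) * e k' l') * (u g' : B) := by noncomm_ring
  rw [h2, h.e_comm, ← h.e_commu]
  have h3 : ι f * (ι (f'.comp (tr g⁻¹)) * e k l) * (e k' l' * (u g : B)) * (u g' : B) =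
      (ι f * ι (f'.comp (tr g⁻¹))) * (e k l * e k' l') * ((u g : B) * (u g' : B)) := by noncomm_ring
  rw [h3, ← map_mul, h.e_mul, ← u_coe_mul]
  split_ifs
  · rfl
  · simp

theorem IsMCross.star_mon (h : IsMCross ι u e E) (f : C(X, ℂ)) (k l : Fin n) (g : G) :
    star (mon ι u e f k l g) = mon ι u e ((star f).comp (tr g)) l k g⁻¹ := by
  unfold mon
  rw [star_mul, star_mul, h.e_star, u_star, ← map_star, h.e_comm, ← mul_assoc, h.u_ι, inv_inv,
    mul_assoc, ← h.e_commu, ← mul_assoc]

theorem IsMCross.conj_mon (h : IsMCross ι u e E) (f : C(X, ℂ)) (k l : Fin n) (g r s : G) :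
    star (u r : B) * mon ι u e f k l g * (u s : B) =
      mon ι u e (f.comp (tr r)) k l (r⁻¹ * g * s) := by
  unfold mon
  rw [u_star]
  have h1 : (u r⁻¹ : B) * (ι f * e k l * (u g : B)) * (u s : B) =
      ((u r⁻¹ : B) * ι f) * e k l * ((u g : B) * (u s : B)) := by noncomm_ring
  rw [h1, h.u_ι, inv_inv, mul_assoc (ι _) (u r⁻¹ : B), ← h.e_commu]
  have h2 : ι (f.comp (tr r)) * (e k l * (u r⁻¹ : B)) * ((u g : B) * (u s : B)) =
      ι (f.comp (tr r)) * e k l * ((u r⁻¹ : B) * (u g : B) * (u s : B)) := by noncomm_ring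
  rw [h2, ← u_coe_mul, ← u_coe_mul]

theorem IsMCross.induction (h : IsMCross ι u e E) {p : B → Prop} (hz : p 0)
    (hadd : ∀ a b, p a → p b → p (a + b)) (hmon : ∀ f k l g, p (mon ι u e f k l g))
    (hcl : IsClosed {b | p b}) (b : B) : p b := by
  refine isClosed_property h.dense hcl (fun c => ?_) b
  show p (c.sum fun q f => ι f * e q.1 q.2.1 * (u q.2.2 : B))
  induction c using Finsupp.induction_linear with
  | zero => rw [Finsupp.sum_zero_index]; exact hz
  | add c c' hc hc' =>
    rw [Finsupp.sum_add_index']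
    · exact hadd _ _ hc hc'
    · intro a; simp
    · intro a b₁ b₂; rw [map_add, add_mul, add_mul]
  | single a f =>
    rw [Finsupp.sum_single_index (by simp)]
    exact hmon f a.1 a.2.1 a.2.2

theorem Prp.induction {K : Finset G} {b : B} (hb : Prp ι u e K b) {p : B → Prop} (hz : p 0)
    (hadd : ∀ a b, p a → p b → p (a + b)) (hmon : ∀ f k l, ∀ g ∈ K, p (mon ι u e f k l g)) :
    p b := by
  obtain ⟨f, rfl⟩ := hb
  have hsum : ∀ {κ : Type u} (s : Finset κ) (F : κ → B), (∀ i ∈ s, p (F i)) → p (∑ i ∈ s, F i) := by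
    intro κ s F hF
    classical
    induction s using Finset.induction_on with
    | empty => simpa using hz
    | insert i s hi ih =>
      rw [Finset.sum_insert hi]
      exact hadd _ _ (hF i (Finset.mem_insert_self i s))
        (ih fun j hj => hF j (Finset.mem_insert_of_mem hj))
  have hsum' : ∀ {κ : Type} (s : Finset κ) (F : κ → B), (∀ i ∈ s, p (F i)) →
      p (∑ i ∈ s, F i) := by
    intro κ s F hF
    classical
    induction s using Finset.induction_on with
    | empty => simpa using hz
    | insert i s hi ih =>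
      rw [Finset.sum_insert hi]
      exact hadd _ _ (hF i (Finset.mem_insert_self i s))
        (ih fun j hj => hF j (Finset.mem_insert_of_mem hj))
  exact hsum _ _ fun g hg => hsum' _ _ fun k _ => hsum' _ _ fun l _ => hmon _ k l g hg

theorem Prp.zero {K : Finset G} : Prp ι u e K 0 :=
  ⟨fun _ _ _ => 0, by simp⟩

theorem Prp.add {K : Finset G} {a b : B} (ha : Prp ι u e K a) (hb : Prp ι u e K b) :
    Prp ι u e K (a + b) := by
  obtain ⟨f, rfl⟩ := ha
  obtain ⟨f', rfl⟩ := hb
  refine ⟨fun k l g => f k l g + f' k l g, ?_⟩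
  simp only [map_add, add_mul, Finset.sum_add_distrib]

theorem Prp.mono {K L : Finset G} (hKL : K ⊆ L) {a : B} (ha : Prp ι u e K a) :
    Prp ι u e L a := by
  classical
  obtain ⟨f, rfl⟩ := ha
  refine ⟨fun k l g => if g ∈ K then f k l g else 0, ?_⟩
  rw [← Finset.sum_subset hKL]
  · refine Finset.sum_congr rfl fun g hg => ?_
    simp only [if_pos hg]
  · intro g _ hg
    simp only [if_neg hg, map_zero, zero_mul, Finset.sum_const_zero]

theorem Prp.mon {K : Finset G} {g : G} (hg : g ∈ K) (f : C(X, ℂ)) (k l : Fin n) :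
    Prp ι u e K (mon ι u e f k l g) := by
  classical
  refine ⟨fun k' l' g' => if k' = k ∧ l' = l ∧ g' = g then f else 0, ?_⟩
  rw [Finset.sum_eq_single g, Finset.sum_eq_single k, Finset.sum_eq_single l]
  · simp [Pool.Agent.H107ZS.mon]
  · intro l' _ hl'; simp [hl']
  · intro hl; exact absurd (Finset.mem_univ _) hl
  · intro k' _ hk'; simp [hk']
  · intro hk; exact absurd (Finset.mem_univ _) hk
  · intro g' _ hg'; simp [hg']
  · intro hg'; exact absurd hg hg'

theorem isClosed_eq_clm {b₁ b₂ : B → ℂ} (h₁ : Continuous b₁) (h₂ : Continuous b₂) :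
    IsClosed {b | b₁ b = b₂ b} := isClosed_eq h₁ h₂

theorem continuous_E_apply (E : Fin n → Fin n → B →L[ℂ] C(X, ℂ)) (k l : Fin n) (x : X) (a c : B) :
    Continuous fun b : B => E k l (a * b * c) x := by
  have h1 : Continuous fun b : B => E k l (a * b * c) :=
    (E k l).continuous.comp ((continuous_const.mul continuous_id).mul continuous_const)
  exact (continuous_eval_const x).comp h1

theorem IsMCross.E_conj (h : IsMCross ι u e E) (b : B) (k l : Fin n) (s : G) (x : X) :
    E k l (star (u s : B) * b * (u s : B)) x = E k l b (s • x) := by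
  classical
  refine h.induction (p := fun b => E k l (star (u s : B) * b * (u s : B)) x = E k l b (s • x))
    ?_ ?_ ?_ ?_ b
  · simp
  · intro a b ha hb
    rw [mul_add, add_mul, map_add, map_add, ContinuousMap.add_apply, ContinuousMap.add_apply,
      ha, hb]
  · intro f k' l' g
    rw [h.conj_mon, h.E_mon, h.E_mon]
    have h1 : s⁻¹ * g * s = 1 ↔ g = 1 := by
      constructor
      · intro h2
        have h3 := congrArg (fun z => s * z * s⁻¹) h2
        simpa [mul_assoc] using h3
      · rintro rfl; group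
    by_cases hc : k = k' ∧ l = l' ∧ g = 1
    · rw [if_pos hc, if_pos ⟨hc.1, hc.2.1, h1.2 hc.2.2⟩]; rfl
    · rw [if_neg hc, if_neg fun hh => hc ⟨hh.1, hh.2.1, h1.1 hh.2.2⟩]; rfl
  · refine isClosed_eq (continuous_E_apply E k l x _ _) ?_
    exact (continuous_eval_const (s • x)).comp (E k l).continuous

theorem IsMCross.E_unit (h : IsMCross ι u e E) (b : B) (k l k' l' : Fin n) (x : X) :
    E k l (e k k' * b * e l' l) x = E k' l' b x := by
  classical
  refine h.induction (p := fun b => E k l (e k k' * b * e l' l) x = E k' l' b x) ?_ ?_ ?_ ?_ b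
  · simp
  · intro a b ha hb
    rw [mul_add, add_mul, map_add, map_add, ContinuousMap.add_apply, ContinuousMap.add_apply,
      ha, hb]
  · intro f p q g
    have h1 : e k k' * mon ι u e f p q g * e l' l =
        if k' = p ∧ q = l' then mon ι u e f k l g else 0 := by
      unfold mon
      have h2 : e k k' * (ι f * e p q * (u g : B)) * e l' l =
        (e k k' * ι f) * e p q * ((u g : B) * e l' l) := by noncomm_ring
      rw [h2, h.e_comm, ← h.e_commu]
      have h3 : ι f * e k k' * e p q * (e l' l * (u g : B)) =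
        ι f * ((e k k' * e p q) * e l' l) * (u g : B) := by noncomm_ring
      rw [h3, h.e_mul]
      by_cases hc : k' = p
      · rw [if_pos hc, h.e_mul]
        by_cases hc' : q = l'
        · rw [if_pos hc', if_pos ⟨hc, hc'⟩]
        · rw [if_neg hc', if_neg fun hh => hc' hh.2]; simp
      · rw [if_neg hc, if_neg fun hh => hc hh.1]; simp
    rw [h1, h.E_mon k' l' p q f g]
    by_cases hc : k' = p ∧ q = l'
    · rw [if_pos hc, h.E_mon k l k l f g]
      by_cases hg : g = 1
      · rw [if_pos ⟨rfl, rfl, hg⟩, if_pos ⟨hc.1, hc.2.symm, hg⟩]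
      · rw [if_neg fun hh => hg hh.2.2, if_neg fun hh => hg hh.2.2]
    · rw [if_neg hc, if_neg fun hh => hc ⟨hh.1, hh.2.1.symm⟩, map_zero]
  · refine isClosed_eq (continuous_E_apply E k l x _ _) ?_
    exact (continuous_eval_const x).comp (E k' l').continuous

theorem IsMCross.E_star (h : IsMCross ι u e E) (b : B) (k l : Fin n) (x : X) :
    E k l (star b) x = star (E l k b x) := by
  classical
  refine h.induction (p := fun b => E k l (star b) x = star (E l k b x)) ?_ ?_ ?_ ?_ b
  · simp
  · intro a b ha hb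
    rw [star_add, map_add, map_add, ContinuousMap.add_apply, ContinuousMap.add_apply, star_add,
      ha, hb]
  · intro f p q g
    rw [h.star_mon, h.E_mon, h.E_mon]
    by_cases hc : l = p ∧ k = q ∧ g = 1
    · rw [if_pos hc, if_pos ⟨hc.2.1, hc.1, by rw [hc.2.2, inv_one]⟩, hc.2.2, tr_one]; rfl
    · rw [if_neg hc, if_neg fun hh => hc ⟨hh.2.1, hh.1, inv_eq_one.1 hh.2.2⟩]; simp
  · refine isClosed_eq ?_ ?_
    · exact (continuous_eval_const x).comp ((E k l).continuous.comp continuous_star)
    · exact continuous_star.comp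
        ((continuous_eval_const x).comp (E l k).continuous)

theorem IsMCross.E_mul_star (h : IsMCross ι u e E) {b : B} {K : Finset G}
    (hb : Prp ι u e K b) {g : G} (hg : g ∉ K) (k l : Fin n) :
    E k l (b * star (u g : B)) = 0 := by
  classical
  refine hb.induction (p := fun b => E k l (b * star (u g : B)) = 0) (by simp) ?_ ?_
  · intro a b ha hb
    rw [add_mul, map_add, ha, hb, add_zero]
  · intro f p q g' hg'
    have h1 : mon ι u e f p q g' * star (u g : B) = mon ι u e f p q (g' * g⁻¹) := by
      unfold mon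
      rw [u_star, mul_assoc _ (u g' : B), ← u_coe_mul]
    rw [h1, h.E_mon, if_neg]
    rintro ⟨-, -, h2⟩
    exact hg (by rwa [← mul_inv_eq_one.1 h2])

/-- the entries of `b` vanish away from the propagation -/
theorem IsMCross.E_prp (h : IsMCross ι u e E) {b : B} {K : Finset G}
    (hb : Prp ι u e K b) {r s : G} (hrs : r * s⁻¹ ∉ K) (k l : Fin n) :
    E k l (star (u r : B) * b * (u s : B)) = 0 := by
  classical
  refine hb.induction (p := fun b => E k l (star (u r : B) * b * (u s : B)) = 0) (by simp) ?_ ?_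
  · intro a b ha hb
    rw [mul_add, add_mul, map_add, ha, hb, add_zero]
  · intro f p q g' hg'
    rw [h.conj_mon, h.E_mon, if_neg]
    rintro ⟨-, -, h2⟩
    apply hrs
    have : r * s⁻¹ = g' := by
      have h3 := congrArg (fun z => r * z * s⁻¹) h2
      simpa [mul_assoc] using h3.symm
    rwa [this]

theorem IsMCross.E_mul (h : IsMCross ι u e E) (b z : B) (L : Finset G) (hz : Prp ι u e L z)
    (r s : G) (k l : Fin n) (x : X) (S : Finset G) (hS : ∀ g ∈ L, g * s ∈ S) :
    E k l (star (u r : B) * (b * z) * (u s : B)) x =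
      ∑ t ∈ S, ∑ j, E k j (star (u r : B) * b * (u t : B)) x *
        E j l (star (u t : B) * z * (u s : B)) x := by
  classical
  refine hz.induction (p := fun z => E k l (star (u r : B) * (b * z) * (u s : B)) x =
      ∑ t ∈ S, ∑ j, E k j (star (u r : B) * b * (u t : B)) x *
        E j l (star (u t : B) * z * (u s : B)) x) (by simp) ?_ ?_
  · intro z z' hz hz'
    simp only [mul_add, add_mul, map_add, ContinuousMap.add_apply, Finset.sum_add_distrib]
    rw [hz, hz']
  · intro f' p' q' g' hg'
    refine h.induction (p := fun b => E k l (star (u r : B) * (b * mon ι u e f' p' q' g') *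
      (u s : B)) x = ∑ t ∈ S, ∑ j, E k j (star (u r : B) * b * (u t : B)) x *
        E j l (star (u t : B) * mon ι u e f' p' q' g' * (u s : B)) x) (by simp) ?_ ?_ ?_ b
    · intro b b' hb hb'
      simp only [mul_add, add_mul, map_add, ContinuousMap.add_apply, Finset.sum_add_distrib]
      rw [hb, hb']
    · intro f p q g
      rw [h.mon_mul]
      have hR : ∀ t ∈ S, ∀ j, E k j (star (u r : B) * mon ι u e f p q g * (u t : B)) x *
        E j l (star (u t : B) * mon ι u e f' p' q' g' * (u s : B)) x =
        if t = g' * s ∧ j = q then (if k = p ∧ q = p' ∧ l = q' ∧ r = g * (g' * s) then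
          f (r • x) * f' ((g' * s) • x) else 0) else 0 := by
        intro t _ j
        rw [h.conj_mon, h.conj_mon, h.E_mon, h.E_mon]
        have e1 : t⁻¹ * g' * s = 1 ↔ t = g' * s := by
          rw [mul_assoc, inv_mul_eq_one]
        have e2 : r⁻¹ * g * t = 1 ↔ r = g * t := by
          rw [mul_assoc, inv_mul_eq_one]
        rw [e1, e2]
        by_cases h1 : t = g' * s ∧ j = q
        · obtain ⟨rfl, rfl⟩ := h1
          rw [if_pos (⟨rfl, rfl⟩ : g' * s = g' * s ∧ j = j)]
          by_cases h2 : k = p ∧ j = p' ∧ l = q' ∧ r = g * (g' * s)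
          · obtain ⟨rfl, rfl, rfl, rfl⟩ := h2
            simp only [and_self, if_true]
            rfl
          · rw [if_neg h2]
            by_cases h3 : k = p ∧ j = j ∧ r = g * (g' * s)
            · have h4 : ¬ (j = p' ∧ l = q' ∧ g' * s = g' * s) := fun h5 =>
                h2 ⟨h3.1, h5.1, h5.2.1, h3.2.2⟩
              rw [if_neg h4]; simp
            · rw [if_neg h3]; simp
        · rw [if_neg h1]
          by_cases h3 : k = p ∧ j = q ∧ r = g * t
          · have h4 : ¬ (j = p' ∧ l = q' ∧ t = g' * s) := fun h5 => h1 ⟨h5.2.2, h3.2.1⟩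
            rw [if_neg h4]; simp
          · rw [if_neg h3]; simp
      rw [Finset.sum_congr rfl fun t ht => Finset.sum_congr rfl fun j _ => hR t ht j]
      have hS' : ∑ t ∈ S, ∑ j, (if t = g' * s ∧ j = q then
          (if k = p ∧ q = p' ∧ l = q' ∧ r = g * (g' * s) then
          f (r • x) * f' ((g' * s) • x) else 0) else 0 : ℂ) =
          if k = p ∧ q = p' ∧ l = q' ∧ r = g * (g' * s) then
          f (r • x) * f' ((g' * s) • x) else 0 := by
        rw [Finset.sum_eq_single (g' * s), Finset.sum_eq_single q]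
        · simp
        · intro j _ hj; rw [if_neg fun hh => hj hh.2]
        · intro hq; exact absurd (Finset.mem_univ _) hq
        · intro t _ ht
          exact Finset.sum_eq_zero fun j _ => if_neg fun hh => ht hh.1
        · intro hg; exact absurd (hS g' hg') hg
      rw [hS']
      by_cases h1 : q = p'
      · rw [if_pos h1, h.conj_mon, h.E_mon]
        have e1 : r⁻¹ * (g * g') * s = 1 ↔ r = g * (g' * s) := by
          rw [mul_assoc, mul_assoc, inv_mul_eq_one]
        rw [e1]
        by_cases h2 : k = p ∧ l = q' ∧ r = g * (g' * s)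
        · rw [if_pos h2, if_pos ⟨h2.1, h1, h2.2.1, h2.2.2⟩]
          show f (r • x) * f' (g⁻¹ • r • x) = f (r • x) * f' ((g' * s) • x)
          congr 2
          rw [h2.2.2, smul_smul]
          congr 1
          group
        · rw [if_neg h2, if_neg fun hh => h2 ⟨hh.1, hh.2.2.1, hh.2.2.2⟩]; rfl
      · rw [if_neg h1, if_neg fun hh => h1 hh.2.1]; simp
    · refine isClosed_eq ?_ ?_
      · have h1 : Continuous fun b : B => E k l (star (u r : B) * (b * mon ι u e f' p' q' g') *
            (u s : B)) := (E k l).continuous.comp (by fun_prop)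
        exact (continuous_eval_const x).comp h1
      · refine continuous_finsetSum _ fun t _ => continuous_finsetSum _ fun j _ => ?_
        exact (continuous_E_apply E k j x _ _).mul continuous_const

end

/-- MUL: products of elements of finite propagation -/
theorem t_MUL : StMUL.{u} := by
  intro G _ X _ _ _ _ B _ n ι u e E h
  exact ⟨fun b K hb g hg k l => h.E_mul_star hb hg k l,
    fun b z K L _ hz r s k l x S hS => h.E_mul b z L hz r s k l x S hS,
    fun b k l s x => h.E_conj b k l s x, fun b k l k' l' x => h.E_unit b k l k' l' x⟩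

end Pool.Agent.H107ZS
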