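import Pool.Agent.H107_ZS.CStubs2

/-!
# Functional calculus of Hermitian matrices; partial isometries into a projection (StPI)
-/

set_option autoImplicit false

namespace Pool.Agent.H107ZS

open Topology Matrix
open scoped ComplexOrder

universe u v w

section

variable {N : Type u} [Fintype N] [DecidableEq N]

/-- `g(A)` for a Hermitian matrix `A` and a function `g` -/
noncomputable def mfc {A : Matrix N N ℂ} (hA : A.IsHermitian) (g : ℝ → ℝ) : Matrix N N ℂ :=
  (hA.eigenvectorUnitary : Matrix N N ℂ) * diagonal (fun i => ((g (hA.eigenvalues i) : ℝ) : ℂ)) *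
    star (hA.eigenvectorUnitary : Matrix N N ℂ)

theorem mfc_id {A : Matrix N N ℂ} (hA : A.IsHermitian) : mfc hA (fun x => x) = A := by
  conv_rhs => rw [hA.spectral_theorem]
  rw [Unitary.conjStarAlgAut_apply]
  rfl

theorem mfc_mul {A : Matrix N N ℂ} (hA : A.IsHermitian) (g h : ℝ → ℝ) :
    mfc hA g * mfc hA h = mfc hA (fun x => g x * h x) := by
  unfold mfc
  have hU : star (hA.eigenvectorUnitary : Matrix N N ℂ) * (hA.eigenvectorUnitary : Matrix N N ℂ) =
      1 := Unitary.coe_star_mul_self _
  calc _ = (hA.eigenvectorUnitary : Matrix N N ℂ) *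
        diagonal (fun i => ((g (hA.eigenvalues i) : ℝ) : ℂ)) *
        (star (hA.eigenvectorUnitary : Matrix N N ℂ) * (hA.eigenvectorUnitary : Matrix N N ℂ)) *
        diagonal (fun i => ((h (hA.eigenvalues i) : ℝ) : ℂ)) *
        star (hA.eigenvectorUnitary : Matrix N N ℂ) := by noncomm_ring
    _ = _ := by
      rw [hU, mul_one, mul_assoc (hA.eigenvectorUnitary : Matrix N N ℂ), diagonal_mul_diagonal]
      simp only [Complex.ofReal_mul]

theorem mfc_add {A : Matrix N N ℂ} (hA : A.IsHermitian) (g h : ℝ → ℝ) :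
    mfc hA g + mfc hA h = mfc hA (fun x => g x + h x) := by
  unfold mfc
  rw [← add_mul, ← mul_add, diagonal_add]
  simp only [Complex.ofReal_add]

theorem mfc_smul {A : Matrix N N ℂ} (hA : A.IsHermitian) (r : ℝ) (g : ℝ → ℝ) :
    (r : ℂ) • mfc hA g = mfc hA (fun x => r * g x) := by
  unfold mfc
  rw [← smul_mul_assoc, ← mul_smul_comm, ← diagonal_smul]
  congr 3
  ext i
  simp

theorem mfc_sub {A : Matrix N N ℂ} (hA : A.IsHermitian) (g h : ℝ → ℝ) :
    mfc hA g - mfc hA h = mfc hA (fun x => g x - h x) := by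
  unfold mfc
  rw [← sub_mul, ← mul_sub, diagonal_sub]
  simp only [Complex.ofReal_sub]

theorem mfc_const {A : Matrix N N ℂ} (hA : A.IsHermitian) (r : ℝ) :
    mfc hA (fun _ => r) = (r : ℂ) • 1 := by
  unfold mfc
  have hU : (hA.eigenvectorUnitary : Matrix N N ℂ) * star (hA.eigenvectorUnitary : Matrix N N ℂ) =
      1 := Unitary.coe_mul_star_self _
  have : diagonal (fun _ : N => (r : ℂ)) = (r : ℂ) • (1 : Matrix N N ℂ) := by
    rw [← diagonal_one, ← diagonal_smul]
    congr 1
    ext i
    simp
  rw [this, mul_smul_comm, smul_mul_assoc, mul_one, hU]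

theorem mfc_one {A : Matrix N N ℂ} (hA : A.IsHermitian) :
    mfc hA (fun _ => 1) = 1 := by
  rw [mfc_const]; simp

theorem mfc_star {A : Matrix N N ℂ} (hA : A.IsHermitian) (g : ℝ → ℝ) :
    (mfc hA g)ᴴ = mfc hA g := by
  unfold mfc
  rw [conjTranspose_mul, conjTranspose_mul, diagonal_conjTranspose, star_eq_conjTranspose,
    conjTranspose_conjTranspose, mul_assoc]
  congr 3
  ext i
  simp

theorem mfc_posSemidef {A : Matrix N N ℂ} (hA : A.IsHermitian) {g : ℝ → ℝ}
    (hg : ∀ i, 0 ≤ g (hA.eigenvalues i)) : (mfc hA g).PosSemidef := by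
  unfold mfc
  rw [star_eq_conjTranspose]
  exact (PosSemidef.diagonal (fun i => by simpa using hg i)).mul_mul_conjTranspose_same _

theorem mfc_congr {A : Matrix N N ℂ} (hA : A.IsHermitian) {g h : ℝ → ℝ}
    (hg : ∀ i, g (hA.eigenvalues i) = h (hA.eigenvalues i)) : mfc hA g = mfc hA h := by
  unfold mfc
  simp only [hg]

theorem mfc_le {A : Matrix N N ℂ} (hA : A.IsHermitian) {g h : ℝ → ℝ}
    (hg : ∀ i, g (hA.eigenvalues i) ≤ h (hA.eigenvalues i)) :
    (mfc hA h - mfc hA g).PosSemidef := by
  rw [mfc_sub]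
  exact mfc_posSemidef hA fun i => sub_nonneg.2 (hg i)

theorem mfc_pow {A : Matrix N N ℂ} (hA : A.IsHermitian) (n : ℕ) :
    A ^ n = mfc hA (fun x => x ^ n) := by
  induction n with
  | zero => simp [mfc_one]
  | succ n ih =>
    rw [pow_succ, ih]
    have h1 := mfc_mul hA (fun x => x ^ n) (fun x => x)
    rw [mfc_id] at h1
    rw [h1]
    simp only [pow_succ]

theorem mfc_aeval {A : Matrix N N ℂ} (hA : A.IsHermitian) (P : Polynomial ℝ) :
    Polynomial.aeval A P = mfc hA (fun x => P.eval x) := by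
  induction P using Polynomial.induction_on' with
  | add p q hp hq => rw [map_add, hp, hq, mfc_add]; simp only [Polynomial.eval_add]
  | monomial n a =>
    rw [Polynomial.aeval_monomial, mfc_pow hA n]
    simp only [Polynomial.eval_monomial]
    rw [← mfc_smul, Algebra.algebraMap_eq_smul_one, smul_mul_assoc, one_mul]
    rfl

theorem mfc_trace {A : Matrix N N ℂ} (hA : A.IsHermitian) (g : ℝ → ℝ) :
    (mfc hA g).trace = ∑ i, ((g (hA.eigenvalues i) : ℝ) : ℂ) := by
  unfold mfc
  have hU : star (hA.eigenvectorUnitary : Matrix N N ℂ) * (hA.eigenvectorUnitary : Matrix N N ℂ) =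
      1 := Unitary.coe_star_mul_self _
  rw [trace_mul_comm, ← mul_assoc, hU, one_mul, trace_diagonal]

theorem mfc_proj {A : Matrix N N ℂ} (hA : A.IsHermitian) {g : ℝ → ℝ}
    (hg : ∀ i, g (hA.eigenvalues i) = 0 ∨ g (hA.eigenvalues i) = 1) :
    IsStarProjection (mfc hA g) := by
  refine ⟨?_, mfc_star hA g⟩
  show mfc hA g * mfc hA g = mfc hA g
  rw [mfc_mul]
  refine mfc_congr hA fun i => ?_
  rcases hg i with h | h <;> rw [h] <;> norm_num

/-- a projection is `X Xᴴ` for an isometry `X` -/
theorem proj_decomp (r : Matrix N N ℂ) (hr : IsStarProjection r) :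
    ∃ (I : Type u) (_ : Fintype I) (_ : DecidableEq I) (X : Matrix N I ℂ),
      Xᴴ * X = 1 ∧ X * Xᴴ = r ∧ r.trace.re = Fintype.card I := by
  have hA : r.IsHermitian := hr.isSelfAdjoint
  have h01 : ∀ i, hA.eigenvalues i = 0 ∨ hA.eigenvalues i = 1 := by
    have h1 : mfc hA (fun x => x * x - x) = 0 := by
      rw [← mfc_sub, ← mfc_mul, mfc_id, hr.isIdempotentElem.eq, sub_self]
    intro i
    have h2 : diagonal (fun i => (((hA.eigenvalues i * hA.eigenvalues i - hA.eigenvalues i : ℝ)) : ℂ))
        = 0 := by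
      have h3 : star (hA.eigenvectorUnitary : Matrix N N ℂ) * mfc hA (fun x => x * x - x) *
          (hA.eigenvectorUnitary : Matrix N N ℂ) = 0 := by rw [h1]; simp
      unfold mfc at h3
      have hU : star (hA.eigenvectorUnitary : Matrix N N ℂ) *
        (hA.eigenvectorUnitary : Matrix N N ℂ) = 1 := Unitary.coe_star_mul_self _
      rw [← mul_assoc, ← mul_assoc, hU, one_mul, mul_assoc, hU, mul_one] at h3
      exact h3
    have h4 := congrFun (congrFun h2 i) i
    rw [diagonal_apply_eq, Matrix.zero_apply] at h4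
    have h5 : hA.eigenvalues i * hA.eigenvalues i - hA.eigenvalues i = 0 := by
      exact_mod_cast h4
    have h6 : hA.eigenvalues i * (hA.eigenvalues i - 1) = 0 := by linarith
    rcases mul_eq_zero.1 h6 with h | h
    · exact Or.inl h
    · exact Or.inr (by linarith)
  let I := {i : N // hA.eigenvalues i = 1}
  let X : Matrix N I ℂ := fun k i => (hA.eigenvectorUnitary : Matrix N N ℂ) k i
  have hX1 : Xᴴ * X = 1 := by
    ext i j
    have h := congrFun (congrFun (Unitary.coe_star_mul_self hA.eigenvectorUnitary) (i : N)) (j : N)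
    have h2 : (Xᴴ * X) i j = (star (hA.eigenvectorUnitary : Matrix N N ℂ) *
      (hA.eigenvectorUnitary : Matrix N N ℂ)) i j := rfl
    rw [h2]
    refine h.trans ?_
    by_cases hij : i = j
    · subst hij; rw [one_apply_eq, one_apply_eq]
    · rw [one_apply_ne hij, one_apply_ne (fun h => hij (Subtype.ext h))]
  have hX2 : X * Xᴴ = r := by
    refine Eq.trans ?_ (mfc_id hA)
    unfold mfc
    ext k l
    rw [mul_apply, mul_apply]
    have h1 : ∀ j : N, ((hA.eigenvectorUnitary : Matrix N N ℂ) *
        diagonal fun i => ((hA.eigenvalues i : ℝ) : ℂ)) k j =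
        (hA.eigenvectorUnitary : Matrix N N ℂ) k j * (hA.eigenvalues j : ℂ) := fun j => by
      rw [mul_diagonal]
    simp only [h1]
    have h2 : ∀ j : N, (hA.eigenvectorUnitary : Matrix N N ℂ) k j * (hA.eigenvalues j : ℂ) *
        (star (hA.eigenvectorUnitary : Matrix N N ℂ)) j l =
        if hA.eigenvalues j = 1 then (hA.eigenvectorUnitary : Matrix N N ℂ) k j *
        (star (hA.eigenvectorUnitary : Matrix N N ℂ)) j l else 0 := by
      intro j
      rcases h01 j with h | h
      · rw [h, if_neg (by norm_num)]; simp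
      · rw [h, if_pos rfl]; simp
    simp only [h2]
    rw [← Finset.sum_filter]
    exact (Finset.sum_subtype (Finset.univ.filter fun j => hA.eigenvalues j = 1) (fun j => by simp)
      (fun j => (hA.eigenvectorUnitary : Matrix N N ℂ) k j *
        (star (hA.eigenvectorUnitary : Matrix N N ℂ)) j l)).symm
  refine ⟨I, inferInstance, inferInstance, X, hX1, hX2, ?_⟩
  have h1 : r.trace = (X * Xᴴ).trace := by rw [hX2]
  rw [h1, trace_mul_comm, hX1, trace_one]
  simp

end

/-- PI: partial isometries into a projection -/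
theorem t_PI : StPI.{u} := by
  intro N _ _ κ _ _ q r hq hr htr
  obtain ⟨J, _, _, Z, hZ1, hZ2, hZt⟩ := proj_decomp q hq
  have hdec := fun α => proj_decomp (r α) (hr α)
  choose I hI hI' X hX1 hX2 hXt using hdec
  have hcard : Fintype.card (Σ α, I α) ≤ Fintype.card J := by
    rw [Fintype.card_sigma]
    have : ((∑ α, Fintype.card (I α) : ℕ) : ℝ) ≤ (Fintype.card J : ℝ) := by
      push_cast
      rw [← hZt]
      refine le_trans (le_of_eq ?_) htr
      exact Finset.sum_congr rfl fun α _ => (hXt α).symm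
    exact_mod_cast this
  obtain ⟨j⟩ := Function.Embedding.nonempty_of_card_le hcard
  let P : (α : κ) → Matrix (I α) J ℂ := fun α => Matrix.of fun i k => if j ⟨α, i⟩ = k then 1 else 0
  have hPa : ∀ α i k, P α i k = if j ⟨α, i⟩ = k then 1 else 0 := fun _ _ _ => rfl
  have hP : ∀ α, P α * (P α)ᴴ = 1 := by
    intro α
    ext i i'
    rw [mul_apply]
    simp only [conjTranspose_apply, hPa]
    rw [one_apply]
    by_cases h : i = i'
    · subst h; simp
    · rw [if_neg h]
      refine Finset.sum_eq_zero fun k _ => ?_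
      by_cases h1 : j ⟨α, i⟩ = k
      · have : j ⟨α, i'⟩ ≠ k := by
          intro h2
          have := j.injective (h1.trans h2.symm)
          simp at this
          exact h this
        simp [this]
      · simp [h1]
  have hP' : ∀ α β, α ≠ β → P α * (P β)ᴴ = 0 := by
    intro α β hαβ
    ext i i'
    rw [mul_apply]
    simp only [conjTranspose_apply, hPa]
    refine Finset.sum_eq_zero fun k _ => ?_
    by_cases h1 : j ⟨α, i⟩ = k
    · have : j ⟨β, i'⟩ ≠ k := by
        intro h2
        have := j.injective (h1.trans h2.symm)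
        simp at this
        exact hαβ this.1
      simp [this]
    · simp [h1]
  refine ⟨fun α => X α * P α * Zᴴ, fun α β => ?_, fun α => ?_⟩
  · have h1 : X α * P α * Zᴴ * star (X β * P β * Zᴴ) = X α * (P α * (Zᴴ * Z) * (P β)ᴴ) * (X β)ᴴ := by
      rw [star_eq_conjTranspose]
      simp only [conjTranspose_mul, conjTranspose_conjTranspose, Matrix.mul_assoc]
    rw [h1, hZ1, Matrix.mul_one]
    by_cases h : α = β
    · subst h
      rw [if_pos rfl, hP, Matrix.mul_one, hX2]
    · rw [if_neg h, hP' α β h, Matrix.mul_zero, Matrix.zero_mul]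
  · rw [← hZ2]
    have h1 : X α * P α * Zᴴ * (Z * Zᴴ) = X α * P α * (Zᴴ * Z) * Zᴴ := by
      simp only [Matrix.mul_assoc]
    rw [h1, hZ1, Matrix.mul_one]

end Pool.Agent.H107ZS
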