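import Pool.Agent.H107_ZS.CStubs2
import Pool.Agent.H327R4.Pure.All

/-!
# From the comparison of ranks to the comparison of `Λ (Ft ..)`
-/

set_option autoImplicit false

namespace Pool.Agent.H107ZS

open Topology Filter Pool.Agent.H327R4.Pure
open scoped CStarAlgebra ComplexOrder

universe u v w

theorem rank_gap (hTS : StTS.{u}) {G : Type u} [Group G] {X : Type u} [TopologicalSpace X]
    [CompactSpace X] [MulAction G X] [ContinuousConstSMul G X] {A : Type u} [CStarAlgebra A]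
    [PartialOrder A] [StarOrderedRing A] {ι : C(X, ℂ) →⋆ₐ[ℂ] A} {u : G →* unitary A}
    {E : A →L[ℂ] C(X, ℂ)} (h : IsCross ι u E) {n : ℕ} (a b : MM n A) (ha : 0 ≤ a) (hb : 0 ≤ b)
    (hr : ∀ T : Tr A, T.f 1 = 1 → ∃ d d' : ℝ, IsRank (trM T (Fin n)) a d ∧
      IsRank (trM T (Fin n)) b d' ∧ d < d')
    (E' : Fin n → Fin n → MM n A →L[ℂ] C(X, ℂ)) (hE' : ∀ k l M, E' k l M = E (M k l))
    (Λ : C(X, ℝ) →ₗ[ℝ] ℝ) (hΛ : InvState (⊤ : Subgroup G) Λ) (ε : ℝ) (hε : 0 < ε) :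
    ∃ δ : ℝ, 0 < δ ∧ Λ (Ft E' (phi ε a)) < Λ (Ft E' (phi δ b)) := by
  obtain ⟨T, hT1, hT⟩ := hTS G X A ι u E h Λ hΛ
  obtain ⟨d, d', hd, hd', hlt⟩ := hr T hT1
  have hF : ∀ M : MM n A, ((trM T (Fin n)).f M).re = Λ (Ft E' M) := by
    intro M
    rw [trM_apply, Complex.re_sum]
    have h1 : Ft E' M = ∑ k, (⟨fun x => (E (M k k) x).re, by fun_prop⟩ : C(X, ℝ)) := by
      ext x
      rw [ContinuousMap.sum_apply]
      change (∑ k, E' k k M x).re = ∑ k, (E (M k k) x).re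
      rw [Complex.re_sum]
      simp only [hE']
    rw [h1, map_sum]
    exact Finset.sum_congr rfl fun k _ => hT (M k k) _ fun x => rfl
  obtain ⟨ra1, ra2, ra3, ra4⟩ := rk' (MM n A) (trM T (Fin n)) a ha
  obtain ⟨rb1, rb2, rb3, rb4⟩ := rk' (MM n A) (trM T (Fin n)) b hb
  have e1 : d = rk (trM T (Fin n)) a := tendsto_nhds_unique hd ra3
  have e2 : d' = rk (trM T (Fin n)) b := tendsto_nhds_unique hd' rb3
  obtain ⟨δ, hδ, h2⟩ := rb2 (d' - d) (sub_pos.2 hlt)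
  refine ⟨δ, hδ, ?_⟩
  rw [← hF, ← hF]
  have h3 := ra1 ε hε
  linarith

end Pool.Agent.H107ZS
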