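import Pool.Agent.H107_ZS.DStubs2

/-!
# SW: open sets which meet few levels
-/

set_option autoImplicit false

namespace Pool.Agent.H107ZS

open Topology

universe u v w

namespace TSW

/-- an open neighbourhood whose translates are disjoint -/
lemma nbhd {G : Type u} [Group G] {X : Type v} [TopologicalSpace X] [T2Space X] [MulAction G X]
    [ContinuousConstSMul G X] (hfree : FreeAct G X) (x0 : X) (E : Finset G) :
    ∃ W : Set X, IsOpen W ∧ x0 ∈ W ∧ ∀ x : X, ∀ g ∈ E, ∀ h ∈ E, g • x ∈ W → h • x ∈ W → g = h := by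
  classical
  have h2 : ∀ g ∈ E, ∀ h ∈ E, ∀ᶠ p : X × X in 𝓝 x0 ×ˢ 𝓝 x0, g⁻¹ • p.1 = h⁻¹ • p.2 → g = h := by
    intro g _ h _
    by_cases hgh : g = h
    · exact Filter.Eventually.of_forall fun p _ => hgh
    · have h3 : g⁻¹ • x0 ≠ h⁻¹ • x0 := by
        intro h4
        apply hgh
        have h5 : (h * g⁻¹) • x0 = x0 := by rw [mul_smul, h4, smul_inv_smul]
        have h6 := hfree _ _ h5
        rw [mul_inv_eq_one] at h6
        exact h6.symm
      obtain ⟨A, B, hA, hB, hyA, hyB, hAB⟩ := t2_separation h3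
      have h6 : ∀ᶠ x in 𝓝 x0, g⁻¹ • x ∈ A :=
        (hA.preimage (continuous_const_smul g⁻¹)).mem_nhds hyA
      have h7 : ∀ᶠ x in 𝓝 x0, h⁻¹ • x ∈ B :=
        (hB.preimage (continuous_const_smul h⁻¹)).mem_nhds hyB
      filter_upwards [h6.prod_mk h7] with p hp h8
      exact (Set.disjoint_left.1 hAB hp.1 (h8 ▸ hp.2)).elim
  have h3 : ∀ᶠ p : X × X in 𝓝 x0 ×ˢ 𝓝 x0, ∀ g ∈ E, ∀ h ∈ E, g⁻¹ • p.1 = h⁻¹ • p.2 → g = h := by
    rw [Filter.eventually_all_finset]
    intro f hf
    rw [Filter.eventually_all_finset]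
    intro f' hf'
    exact h2 f hf f' hf'
  obtain ⟨A, hA, hA2⟩ := (Filter.eventually_prod_self_iff (la := 𝓝 x0)
    (r := fun a b : X => ∀ g ∈ E, ∀ h ∈ E, g⁻¹ • a = h⁻¹ • b → g = h)).1 h3
  obtain ⟨W, hW, hWo, hxW⟩ := mem_nhds_iff.1 hA
  refine ⟨W, hWo, hxW, fun x g hg h hh hgx hhx => ?_⟩
  exact hA2 _ (hW hgx) _ (hW hhx) g hg h hh (by rw [inv_smul_smul, inv_smul_smul])

end TSW

open TSW in
/-- open sets which meet few levels -/
theorem t_SW : StSW.{u} := by
  classical
  intro G _ _ X _ _ _ _ _ _ hfree β hβ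
  obtain ⟨x0⟩ := ‹Nonempty X›
  obtain ⟨N, hN⟩ := exists_nat_gt (2 / β)
  have hN0 : (0 : ℝ) < N := lt_trans (by positivity) hN
  obtain ⟨E, hE⟩ := Infinite.exists_subset_card_eq G N
  obtain ⟨W1, hW1, hx1, hdis⟩ := nbhd hfree x0 E
  obtain ⟨W, hW, hxW, hWW⟩ : ∃ W : Set X, IsOpen W ∧ x0 ∈ W ∧ closure W ⊆ W1 := by
    obtain ⟨V, hV, hVc, hVW⟩ := exists_mem_nhds_isClosed_subset (hW1.mem_nhds hx1)
    refine ⟨interior V, isOpen_interior, mem_interior_iff_mem_nhds.2 hV, ?_⟩
    exact (closure_minimal interior_subset hVc).trans hVW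
  refine ⟨W, 2, ![W1, (closure W)ᶜ], E.image fun g => g⁻¹, β / 2, hW, ⟨x0, hxW⟩, ?_, ?_,
    by linarith, ?_⟩
  · intro i
    fin_cases i
    · exact hW1
    · exact isClosed_closure.isOpen_compl
  · intro x
    by_cases hx : x ∈ closure W
    · exact ⟨0, hWW hx⟩
    · exact ⟨1, hx⟩
  · intro S hS V T hTS hlev hT
    have hS0 : (0 : ℝ) < S.card := by exact_mod_cast hS.1.card_pos
    rcases T.eq_empty_or_nonempty with rfl | ⟨t0, ht0⟩
    · simp; positivity
    obtain ⟨x, hx, -⟩ := hT t0 ht0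
    -- the levels of `T` are in `W1`
    have h1 : ∀ s ∈ T, s • x ∈ W1 := by
      intro s hs
      obtain ⟨y, hy, hyW⟩ := hT s hs
      obtain ⟨i, hi⟩ := hlev s (hTS hs)
      fin_cases i
      · exact hi x hx
      · exact (hi y hy (subset_closure hyW)).elim
    -- counting
    have h2 : ∀ g ∈ E, (T.card : ℝ) - β / 2 * S.card ≤
        ((S.filter fun s => (g * s) • x ∈ W1).card : ℝ) := by
      intro g hg
      have h3 := hS.2 g⁻¹ (Finset.mem_image_of_mem _ hg)
      have h4 : T ⊆ (S.filter fun s => g⁻¹ * s ∉ S) ∪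
          ((S.filter fun s => (g * s) • x ∈ W1).image fun s => g * s) := by
        intro t ht
        rw [Finset.mem_union, Finset.mem_filter, Finset.mem_image]
        by_cases h5 : g⁻¹ * t ∈ S
        · right
          refine ⟨g⁻¹ * t, Finset.mem_filter.2 ⟨h5, ?_⟩, by group⟩
          rw [mul_inv_cancel_left]
          exact h1 t ht
        · exact Or.inl ⟨hTS ht, h5⟩
      have h5 : T.card ≤ (S.filter fun s => g⁻¹ * s ∉ S).card +
          (S.filter fun s => (g * s) • x ∈ W1).card :=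
        (Finset.card_le_card h4).trans ((Finset.card_union_le _ _).trans
          (Nat.add_le_add_left Finset.card_image_le _))
      have h6 : (T.card : ℝ) ≤ (S.filter fun s => g⁻¹ * s ∉ S).card +
          (S.filter fun s => (g * s) • x ∈ W1).card := by exact_mod_cast h5
      linarith
    have h3 : ∑ g ∈ E, (S.filter fun s => (g * s) • x ∈ W1).card ≤ S.card := by
      rw [← Finset.card_sigma]
      have h4 : ∀ p ∈ E.sigma (fun g => S.filter fun s => (g * s) • x ∈ W1), p.2 ∈ S :=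
        fun p hp => (Finset.mem_filter.1 (Finset.mem_sigma.1 hp).2).1
      refine Finset.card_le_card_of_injOn (fun p => p.2) h4 ?_
      rintro ⟨g, s⟩ hp ⟨h, s'⟩ hq hss
      simp only at hss
      subst hss
      rw [Finset.mem_coe, Finset.mem_sigma, Finset.mem_filter] at hp hq
      have h5 : g = h := by
        refine hdis (s • x) g hp.1 h hq.1 ?_ ?_
        · rw [← mul_smul]; exact hp.2.2
        · rw [← mul_smul]; exact hq.2.2
      rw [h5]
    have h4 : (N : ℝ) * ((T.card : ℝ) - β / 2 * S.card) ≤ S.card := by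
      calc (N : ℝ) * ((T.card : ℝ) - β / 2 * S.card) = ∑ g ∈ E, ((T.card : ℝ) - β / 2 * S.card) := by
            rw [Finset.sum_const, hE, nsmul_eq_mul]
        _ ≤ ∑ g ∈ E, ((S.filter fun s => (g * s) • x ∈ W1).card : ℝ) := Finset.sum_le_sum h2
        _ ≤ S.card := by exact_mod_cast h3
    have h5 : 2 < β * N := by
      rw [div_lt_iff₀ hβ] at hN
      linarith
    by_contra hcon
    push Not at hcon
    have h6 : β / 2 * S.card < (T.card : ℝ) - β / 2 * S.card := by linarith
    have h7 : (N : ℝ) * (β / 2 * S.card) < S.card := by nlinarith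
    have h8 : (1 : ℝ) * S.card < (N * (β / 2)) * S.card := by
      refine mul_lt_mul_of_pos_right ?_ hS0
      linarith
    linarith

end Pool.Agent.H107ZS
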