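import Pool.Agent.H107_ZS.TCORE
import Pool.Agent.H107_ZS.TSC1
import Pool.Agent.H107_ZS.TSW
import Pool.Agent.H107_ZS.TCHI
import Pool.Agent.H107_ZS.TGAP
import Pool.Agent.H107_ZS.TKL
import Pool.Agent.H107_ZS.TAPX

/-!
# Strict comparison of crossed products from castles
-/

set_option autoImplicit false
set_option linter.unusedSectionVars false

namespace Pool.Agent.H107ZS

open Topology Filter Pool.Agent.H327R4.Pure
open scoped CStarAlgebra ComplexOrder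

universe u v w

namespace TSC

section gen

theorem fol_mono {G : Type u} [Group G] {K K' : Finset G} {ε ε' : ℝ} {S : Finset G}
    (h : Fol K ε S) (hK : K' ⊆ K) (hε : ε ≤ ε') : Fol K' ε' S :=
  ⟨h.1, fun g hg => (h.2 g (hK hg)).trans (mul_le_mul_of_nonneg_right hε (Nat.cast_nonneg _))⟩

/-- small covers -/
theorem exists_cover {X : Type u} [TopologicalSpace X] [CompactSpace X] {κ : Type u} [Finite κ]
    (F : κ → C(X, ℂ)) {r : ℝ} (hr : 0 < r) {N : ℕ} (O : Fin N → Set X) (hO : ∀ i, IsOpen (O i))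
    (hcov : ∀ x, ∃ i, x ∈ O i) :
    ∃ (N' : ℕ) (O' : Fin N' → Set X), (∀ i, IsOpen (O' i)) ∧ (∀ x, ∃ i, x ∈ O' i) ∧
      (∀ i, ∃ i', O' i ⊆ O i') ∧ ∀ i, ∀ x ∈ O' i, ∀ y ∈ O' i, ∀ k, ‖F k x - F k y‖ ≤ r := by
  classical
  choose i0 hi0 using hcov
  let U : X → Set X := fun x => O (i0 x) ∩ ⋂ k, {y | ‖F k y - F k x‖ < r / 2}
  have hU : ∀ x, IsOpen (U x) := by
    intro x
    refine (hO _).inter (isOpen_iInter_of_finite fun k => ?_)
    exact isOpen_lt (by fun_prop) continuous_const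
  have hxU : ∀ x, x ∈ U x := by
    intro x
    refine ⟨hi0 x, Set.mem_iInter.2 fun k => ?_⟩
    change ‖F k x - F k x‖ < r / 2
    rw [sub_self, norm_zero]
    positivity
  obtain ⟨t, ht⟩ := CompactSpace.elim_nhds_subcover U fun x => (hU x).mem_nhds (hxU x)
  refine ⟨t.card, fun i => U (t.equivFin.symm i), fun i => hU _, ?_, ?_, ?_⟩
  · intro x
    have hx : x ∈ ⋃ y ∈ t, U y := by rw [ht]; trivial
    obtain ⟨y, hy, hxy⟩ := Set.mem_iUnion₂.1 hx
    exact ⟨t.equivFin ⟨y, hy⟩, by simpa using hxy⟩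
  · intro i
    exact ⟨i0 (t.equivFin.symm i), Set.inter_subset_left⟩
  · intro i x hx y hy k
    have h1 : ‖F k x - F k (t.equivFin.symm i)‖ < r / 2 := Set.mem_iInter.1 hx.2 k
    have h2 : ‖F k y - F k (t.equivFin.symm i)‖ < r / 2 := Set.mem_iInter.1 hy.2 k
    calc ‖F k x - F k y‖ = ‖(F k x - F k (t.equivFin.symm i)) -
          (F k y - F k (t.equivFin.symm i))‖ := by congr 1; ring
      _ ≤ ‖F k x - F k (t.equivFin.symm i)‖ + ‖F k y - F k (t.equivFin.symm i)‖ :=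
          norm_sub_le _ _
      _ ≤ r := by linarith

/-- two-step cut-off functions -/
theorem exists_two {X : Type u} [TopologicalSpace X] [CompactSpace X] [T2Space X] {C V : Set X}
    (hC : IsClosed C) (hV : IsOpen V) (hCV : C ⊆ V) :
    ∃ f g : C(X, ℝ), (∀ x ∈ C, f x = 1) ∧ (∀ x, x ∉ V → f x = 0) ∧ (∀ x, x ∉ V → g x = 0) ∧
      (∀ x, 0 ≤ f x ∧ f x ≤ 1) ∧ (∀ x, 0 ≤ g x ∧ g x ≤ 1) ∧ ∀ x, g x * f x = f x := by
  obtain ⟨O, hO, hCO, hOV⟩ := normal_exists_closure_subset hC hV hCV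
  obtain ⟨f, hf0, hf1, hf⟩ := exists_continuous_zero_one_of_isClosed (hO.isClosed_compl) hC
    (Set.disjoint_left.2 fun x hx hxC => hx (hCO hxC))
  obtain ⟨g, hg0, hg1, hg⟩ := exists_continuous_zero_one_of_isClosed (hV.isClosed_compl)
    isClosed_closure (Set.disjoint_left.2 fun x hx hxC => hx (hOV hxC))
  refine ⟨f, g, fun x hx => hf1 hx, fun x hx => hf0 fun hxO => hx (hOV (subset_closure hxO)),
    fun x hx => hg0 hx, fun x => hf x, fun x => hg x, fun x => ?_⟩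
  by_cases hx : x ∈ O
  · have h1 : g x = 1 := hg1 (subset_closure hx)
    rw [h1, one_mul]
  · have h1 : f x = 0 := hf0 hx
    rw [h1, mul_zero]

end gen

section diag

variable {G : Type u} [Group G] [DecidableEq G] {X : Type u} [TopologicalSpace X] [CompactSpace X]
  [MulAction G X] [ContinuousConstSMul G X] {B : Type u} [CStarAlgebra B] {n : ℕ}
  {ι : C(X, ℂ) →⋆ₐ[ℂ] B} {u : G →* unitary B} {e : Fin n → Fin n → B}
  {E : Fin n → Fin n → B →L[ℂ] C(X, ℂ)}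

theorem Th_diag (h : IsMCross ι u e E) (S : Finset G) (f : C(X, ℂ)) (c : G → ℂ) :
    Th ι u e S f (Matrix.diagonal fun p : Fin n × S => c p.2) =
      ι (∑ s ∈ S, c s • f.comp (tr s⁻¹)) := by
  classical
  rw [Th_eq]
  have h1 : ∀ p : Fin n × S, ∑ q : Fin n × S,
      (Matrix.diagonal fun p : Fin n × S => c p.2) p q • ut ι u e f p.1 q.1 p.2 q.2 =
      c p.2 • ut ι u e f p.1 p.1 p.2 p.2 := by
    intro p
    rw [Finset.sum_eq_single p]
    · rw [Matrix.diagonal_apply_eq]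
    · intro q _ hq; rw [Matrix.diagonal_apply_ne _ hq.symm, zero_smul]
    · intro hp; exact absurd (Finset.mem_univ _) hp
  rw [Finset.sum_congr rfl fun p _ => h1 p, Fintype.sum_prod_type_right, map_sum,
    ← Finset.sum_coe_sort S]
  refine Finset.sum_congr rfl fun s _ => ?_
  simp only [h.ut_eq_mon, mul_inv_cancel]
  unfold mon
  rw [← Finset.smul_sum, ← Finset.sum_mul, ← Finset.mul_sum, h.e_sum, mul_one, u_coe_one, mul_one,
    map_smul]

end diag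

section tower

variable {G : Type u} [Group G] [DecidableEq G] {X : Type u} [TopologicalSpace X] [CompactSpace X]
  [T2Space X] [MulAction G X] [ContinuousConstSMul G X] {B : Type u} [CStarAlgebra B]
  [PartialOrder B] [StarOrderedRing B] {n : ℕ}
  {ι : C(X, ℂ) →⋆ₐ[ℂ] B} {u : G →* unitary B} {e : Fin n → Fin n → B}
  {E : Fin n → Fin n → B →L[ℂ] C(X, ℂ)}

theorem tower (h : IsMCross ι u e E) {a b a' b' : B} (ha : 0 ≤ a) (hb : 0 ≤ b)
    (hsa : IsSelfAdjoint a') (hsb : IsSelfAdjoint b') {κ ε C δ' κ2 : ℝ}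
    (hκ : 0 < κ) (hδ' : 4 * κ ≤ δ') (hε : 0 ≤ ε) (hC : 0 ≤ C) (haa : ‖a - a'‖ ≤ κ)
    (hbb : ‖b - b'‖ ≤ κ) {fa fb : Fin n → Fin n → G → C(X, ℂ)} {K : Finset G}
    (ea : a' = ∑ g ∈ K, ∑ k, ∑ l, ι (fa k l g) * e k l * (u g : B))
    (eb : b' = ∑ g ∈ K, ∑ k, ∑ l, ι (fb k l g) * e k l * (u g : B))
    {N : ℕ} (hN : 0 < N) (hcom : 2 / N * ∑ g ∈ K, ∑ k, ∑ l, ‖fa k l g‖ ≤ κ)
    (hκ2 : 0 ≤ κ2) (hκ2' : K.card * n ^ 2 * κ2 ≤ κ)
    {m : ℕ} {S : Fin m → Finset G} {V Cl : Fin m → Set X} (hV : ∀ j, IsOpen (V j))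
    (hCl : ∀ j, IsClosed (Cl j)) (hCV : ∀ j, Cl j ⊆ V j) (hL : Levels S V)
    (hosa : ∀ j, ∀ s ∈ S j, ∀ x ∈ V j, ∀ y ∈ V j, ∀ g ∈ K, ∀ k l,
      ‖fa k l g (s • x) - fa k l g (s • y)‖ ≤ κ2)
    (hosb : ∀ j, ∀ s ∈ S j, ∀ x ∈ V j, ∀ y ∈ V j, ∀ g ∈ K, ∀ k l,
      ‖fb k l g (s • x) - fb k l g (s • y)‖ ≤ κ2)
    {χ : Fin m → G → ℝ} {T : Fin m → Finset G} (hχ : ∀ j s, 0 ≤ χ j s ∧ χ j s ≤ 1)
    (hχS : ∀ j s, s ∉ S j → χ j s = 0) (hχN : ∀ j, ∀ g ∈ K, ∀ s, |χ j (g * s) - χ j s| ≤ 1 / N)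
    (hχK : ∀ j, ∀ g ∈ K, ∀ s, χ j s ≠ 0 → g * s ∈ S j) (hTS : ∀ j, T j ⊆ S j)
    (hχT : ∀ j, ∀ t ∈ T j, χ j t = 1)
    {v : Fin m → X} (hv : ∀ j, (V j).Nonempty → v j ∈ V j)
    {p q : ∀ j, Matrix (Fin n × S j) (Fin n × S j) ℂ} (hp : ∀ j, IsStarProjection (p j))
    (hq : ∀ j, IsStarProjection (q j))
    (hpα : ∀ j, ((ε : ℂ) • (1 : Matrix (Fin n × S j) (Fin n × S j) ℂ) + (C : ℂ) • p j -
      CmpX u E (S j) (χ j) (v j) a').PosSemidef)
    (hqβ : ∀ j, (CmpX u E (S j) (χ j) (v j) b' +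
      (κ : ℂ) • (1 : Matrix (Fin n × S j) (Fin n × S j) ℂ) - (δ' : ℂ) • q j).PosSemidef)
    {M : ℕ} {W : Set X} {TW : Fin m → Finset G} (hTW : ∀ j s, s ∈ TW j ↔ s ∈ S j ∧
      ∃ x ∈ V j, s • x ∈ W)
    (htr : ∀ j, (p j).trace.re + M * (n * (TW j).card) ≤ (q j).trace.re)
    (hMS : MSub G M {x | ∀ j, ∀ s ∈ T j, s⁻¹ • x ∉ interior (Cl j)}
      {x | x ∈ W ∧ ∃ j, ∃ s ∈ S j, s⁻¹ • x ∈ interior (Cl j)}) :
    Cz (cut (ε + 3 * κ) a) b := by
  classical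
  -- the functions
  choose f g hf1 hfV hgV hf01 hg01 hgf using fun j => exists_two (hCl j) (hV j) (hCV j)
  let η' : Fin m → C(X, ℂ) := fun j => ⟨fun x => (f j x : ℂ), by fun_prop⟩
  let η : Fin m → C(X, ℂ) := fun j => ⟨fun x => (g j x : ℂ), by fun_prop⟩
  have eη' : ∀ j x, η' j x = (f j x : ℂ) := fun _ _ => rfl
  have eη : ∀ j x, η j x = (g j x : ℂ) := fun _ _ => rfl
  have hη'V : ∀ j x, x ∉ V j → η' j x = 0 := by
    intro j x hx; rw [eη', hfV j x hx, Complex.ofReal_zero]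
  have hηV : ∀ j x, x ∉ V j → η j x = 0 := by
    intro j x hx; rw [eη, hgV j x hx, Complex.ofReal_zero]
  have h01 : ∀ t : ℝ, 0 ≤ t ∧ t ≤ 1 → (0 : ℂ) ≤ (t : ℂ) ∧ (t : ℂ) ≤ 1 := by
    intro t ht
    refine ⟨by exact_mod_cast ht.1, by exact_mod_cast ht.2⟩
  have hη'1 : ∀ j x, 0 ≤ η' j x ∧ η' j x ≤ 1 := fun j x => h01 _ (hf01 j x)
  have hη1 : ∀ j x, 0 ≤ η j x ∧ η j x ≤ 1 := fun j x => h01 _ (hg01 j x)
  have hn1 : ∀ t : ℝ, 0 ≤ t ∧ t ≤ 1 → ‖(t : ℂ)‖ ≤ 1 := by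
    intro t ht
    rw [Complex.norm_real, Real.norm_eq_abs, abs_of_nonneg ht.1]
    exact ht.2
  -- cut-off functions
  let h1 : C(X, ℂ) := ∑ j, ∑ s ∈ S j, (χ j s : ℂ) • (η' j).comp (tr s⁻¹)
  let h2 : C(X, ℂ) := ∑ j, ∑ s ∈ S j, (χ j s : ℂ) • (η j).comp (tr s⁻¹)
  have eh1 : ∀ x, h1 x = ∑ j, ∑ s ∈ S j, (χ j s : ℂ) * η' j (s⁻¹ • x) := by
    intro x
    simp only [h1, ContinuousMap.sum_apply]
    rfl
  have eh2 : ∀ x, h2 x = ∑ j, ∑ s ∈ S j, (χ j s : ℂ) * η j (s⁻¹ • x) := by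
    intro x
    simp only [h2, ContinuousMap.sum_apply]
    rfl
  have hval : ∀ (F : Fin m → C(X, ℝ)), (∀ j x, x ∉ V j → F j x = 0) →
      (∀ j x, 0 ≤ F j x ∧ F j x ≤ 1) → ∀ x, ∃ t : ℝ,
      ∑ j, ∑ s ∈ S j, (χ j s : ℂ) * ((F j (s⁻¹ • x) : ℝ) : ℂ) = t ∧ 0 ≤ t ∧ t ≤ 1 := by
    intro F hF hF1 x
    have hF' : ∀ j x, x ∉ V j → ((F j x : ℝ) : ℂ) = 0 := by
      intro j x hx; rw [hF j x hx, Complex.ofReal_zero]
    by_cases hx : ∃ j, ∃ s ∈ S j, s⁻¹ • x ∈ V j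
    · obtain ⟨j, s, hs, hxv⟩ := hx
      obtain ⟨y, hy, rfl⟩ : ∃ y, y ∈ V j ∧ x = s • y := ⟨s⁻¹ • x, hxv, by rw [smul_inv_smul]⟩
      refine ⟨χ j s * F j y, ?_, mul_nonneg (hχ j s).1 (hF1 j y).1,
        mul_le_one₀ (hχ j s).2 (hF1 j y).1 (hF1 j y).2⟩
      rw [lev_apply hL (F := fun j x => ((F j x : ℝ) : ℂ)) hF' (fun j s => (χ j s : ℂ)) hs hy,
        Complex.ofReal_mul]
    · push Not at hx
      exact ⟨0, by rw [lev_zero (F := fun j x => ((F j x : ℝ) : ℂ)) hF'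
        (fun j s => (χ j s : ℂ)) hx, Complex.ofReal_zero], le_rfl, zero_le_one⟩
  have hv1 : ∀ x, ∃ t : ℝ, h1 x = t ∧ 0 ≤ t ∧ t ≤ 1 := by
    intro x
    rw [eh1]
    exact hval f hfV hf01 x
  have hv2 : ∀ x, ∃ t : ℝ, h2 x = t ∧ 0 ≤ t ∧ t ≤ 1 := by
    intro x
    rw [eh2]
    exact hval g hgV hg01 x
  have hreal : ∀ (F : C(X, ℂ)), (∀ x, ∃ t : ℝ, F x = t) → star F = F := by
    intro F hF
    ext x
    obtain ⟨t, ht⟩ := hF x
    rw [ContinuousMap.star_apply, ht]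
    exact Complex.conj_ofReal t
  have hs1 : star h1 = h1 := hreal _ fun x => by obtain ⟨t, ht, _⟩ := hv1 x; exact ⟨t, ht⟩
  have hs2 : star h2 = h2 := hreal _ fun x => by obtain ⟨t, ht, _⟩ := hv2 x; exact ⟨t, ht⟩
  have hn2 : ‖h2‖ ≤ 1 := by
    rw [ContinuousMap.norm_le _ zero_le_one]
    intro x
    obtain ⟨t, ht, ht'⟩ := hv2 x
    rw [ht]
    exact hn1 t ht'
  let ξ : C(X, ℝ) := ⟨fun x => 1 - (h1 x).re ^ 2, by fun_prop⟩
  have eξ : ∀ x, ξ x = 1 - (h1 x).re ^ 2 := fun _ => rfl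
  have hξ0 : ∀ x, 0 ≤ ξ x := by
    intro x
    obtain ⟨t, ht, ht0, ht1⟩ := hv1 x
    rw [eξ, ht, Complex.ofReal_re]
    nlinarith
  let h1' : C(X, ℂ) := ⟨fun x => ((Real.sqrt (ξ x) : ℝ) : ℂ), by fun_prop⟩
  have eh1' : ∀ x, h1' x = ((Real.sqrt (ξ x) : ℝ) : ℂ) := fun _ => rfl
  have hs1' : star h1' = h1' := hreal _ fun x => ⟨_, eh1' x⟩
  have hh1' : h1' * h1' = ⟨fun x => (ξ x : ℂ), by fun_prop⟩ := by
    ext x
    rw [ContinuousMap.mul_apply, eh1', ← Complex.ofReal_mul, Real.mul_self_sqrt (hξ0 x)]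
    rfl
  -- the remainder
  have hRc : IsClosed {x : X | ∀ j, ∀ s ∈ T j, s⁻¹ • x ∉ interior (Cl j)} := by
    have h3 : {x : X | ∀ j, ∀ s ∈ T j, s⁻¹ • x ∉ interior (Cl j)} =
        ⋂ j, ⋂ s ∈ T j, {x : X | s⁻¹ • x ∉ interior (Cl j)} := by
      ext x
      simp only [Set.mem_ofPred_eq, Set.mem_iInter]
    rw [h3]
    refine isClosed_iInter fun j => isClosed_biInter fun s _ => ?_
    exact (isOpen_interior.preimage (continuous_const_smul s⁻¹)).isClosed_compl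
  have hξR : ∀ x, x ∉ {x : X | ∀ j, ∀ s ∈ T j, s⁻¹ • x ∉ interior (Cl j)} → ξ x = 0 := by
    intro x hx
    simp only [Set.mem_ofPred_eq, not_forall, not_not] at hx
    obtain ⟨j, s, hs, hxs⟩ := hx
    have hxC : s⁻¹ • x ∈ Cl j := interior_subset hxs
    have h3 : h1 x = 1 := by
      rw [eh1]
      have h4 := lev_apply hL (F := fun j x => η' j x) hη'V (fun j s => (χ j s : ℂ))
        (hTS j hs) (hCV j hxC)
      rw [smul_inv_smul] at h4
      rw [h4, hχT j s hs, eη', hf1 j _ hxC]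
      simp
    rw [eξ, h3]
    simp
  obtain ⟨y, hy, hyw⟩ := exists_yc h hRc hMS ξ hξ0 hξR
  -- the function `w`
  let cw : Fin m → G → ℂ := fun j s => if s ∈ TW j then 1 else 0
  let w : C(X, ℂ) := ∑ j, ∑ s ∈ S j, cw j s • (η' j * η' j).comp (tr s⁻¹)
  have ew : ∀ x, w x = ∑ j, ∑ s ∈ S j, cw j s * (η' j * η' j) (s⁻¹ • x) := by
    intro x
    simp only [w, ContinuousMap.sum_apply]
    rfl
  have hw1 : ∀ x ∈ {x : X | x ∈ W ∧ ∃ j, ∃ s ∈ S j, s⁻¹ • x ∈ interior (Cl j)}, w x = 1 := by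
    rintro x ⟨hxW, j, s, hs, hxs⟩
    have hxC : s⁻¹ • x ∈ Cl j := interior_subset hxs
    rw [ew]
    have h4 := lev_apply hL (F := fun j x => (η' j * η' j) x) (fun j x hx => by
      rw [ContinuousMap.mul_apply, hη'V j x hx, zero_mul]) cw hs (hCV j hxC)
    rw [smul_inv_smul] at h4
    rw [h4]
    have h5 : s ∈ TW j := (hTW j s).2 ⟨hs, s⁻¹ • x, hCV j hxC, by rw [smul_inv_smul]; exact hxW⟩
    simp only [cw, if_pos h5, ContinuousMap.mul_apply, eη', hf1 j _ hxC]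
    simp
  let r : ∀ j, Matrix (Fin n × S j) (Fin n × S j) ℂ := fun j =>
    Matrix.diagonal fun p : Fin n × S j => cw j p.2
  have hw : ι w = Tw ι u e S (fun j => η' j * η' j) r := by
    unfold Tw
    simp only [r]
    rw [map_sum]
    exact Finset.sum_congr rfl fun j _ => (Th_diag h (S j) (η' j * η' j) (cw j)).symm
  have hrp : ∀ j, IsStarProjection (r j) := by
    intro j
    constructor
    · change r j * r j = r j
      simp only [r]
      rw [Matrix.diagonal_mul_diagonal]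
      congr 1
      funext p
      simp only [cw]
      split_ifs <;> simp
    · change star (r j) = r j
      simp only [r]
      rw [Matrix.star_eq_conjTranspose, Matrix.diagonal_conjTranspose]
      congr 1
      funext p
      simp only [cw, Pi.star_apply]
      split_ifs <;> simp
  have hrt : ∀ j, (r j).trace.re = n * (TW j).card := by
    intro j
    simp only [r, Matrix.trace_diagonal]
    rw [Fintype.sum_prod_type]
    simp only [Finset.sum_const, Finset.card_univ, Fintype.card_fin, nsmul_eq_mul]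
    have h3 : ∑ s : S j, cw j s = ((TW j).card : ℂ) := by
      rw [Finset.sum_coe_sort (S j) (cw j)]
      simp only [cw]
      rw [Finset.sum_ite, Finset.sum_const_zero, add_zero, Finset.sum_const, nsmul_eq_mul, mul_one]
      congr 2
      ext s
      rw [Finset.mem_filter]
      exact ⟨fun hh => hh.2, fun hh => ⟨((hTW j s).1 hh).1, hh⟩⟩
    rw [h3]
    simp
  -- the isometries
  have hPI : ∀ j, ∃ vv : Option (Fin M) → Matrix (Fin n × S j) (Fin n × S j) ℂ,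
      (∀ c c', vv c * star (vv c') = if c = c' then c.elim (p j) (fun _ => r j) else 0) ∧
      ∀ c, vv c * q j = vv c := by
    intro j
    refine t_PI (Fin n × S j) (Option (Fin M)) (q j) (fun c => c.elim (p j) fun _ => r j) (hq j)
      ?_ ?_
    · intro c
      cases c with
      | none => exact hp j
      | some c => exact hrp j
    · rw [Fintype.sum_option]
      simp only [Option.elim_none, Option.elim_some, Finset.sum_const, Finset.card_univ,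
        Fintype.card_fin, nsmul_eq_mul, hrt]
      exact htr j
  choose vv hvv hvq using hPI
  -- errors
  have hA := t_APX G X B n ι u e E h m S V hL fa K χ η' v h1 κ2 hκ2 hχ hχS hχK hη'V hη'1 hv eh1 hosa
  have hB := t_APX G X B n ι u e E h m S V hL fb K χ η v h2 κ2 hκ2 hχ hχS hχK hηV hη1 hv eh2 hosb
  rw [← ea] at hA
  rw [← eb] at hB
  have hCo := t_COM G X B n ι u e E h fa K h1 h1' N hN (by
    intro x
    obtain ⟨t, ht, ht0, ht1⟩ := hv1 x
    refine ⟨t, Real.sqrt (ξ x), ht, eh1' x, ht0, Real.sqrt_nonneg _, ?_⟩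
    rw [Real.sq_sqrt (hξ0 x), eξ, ht, Complex.ofReal_re]
    ring) (by
    intro g hg x
    rw [eh1, eh1]
    exact lev_lip hL (η := fun j x => η' j x) hη'V (fun j x => hn1 _ (hf01 j x)) hχS hχN hχK hg x)
  rw [← ea] at hCo
  have hherm : ∀ {N : Type u} [Fintype N] [DecidableEq N] (x y : Matrix N N ℂ), x.IsHermitian →
      (x - y).IsHermitian → y.IsHermitian := by
    intro N _ _ x y hx hxy
    have h3 : y = x - (x - y) := by abel
    rw [h3]
    exact hx.sub hxy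
  have hprojH : ∀ {N : Type u} [Fintype N] [DecidableEq N] (x : Matrix N N ℂ) (c : ℝ),
      IsStarProjection x → ((c : ℂ) • x).IsHermitian := by
    intro N _ _ x c hx
    have h3 : x.IsHermitian := hx.isSelfAdjoint
    change ((c : ℂ) • x).conjTranspose = _
    rw [Matrix.conjTranspose_smul, h3.eq]
    congr 1
    exact Complex.conj_ofReal c
  refine sc_core h hL (a' := a') (b' := b') (κ := κ) (C := C) (D := ‖a'‖) (δ' := δ')
    (h1 := h1) (h1' := h1') (h2 := h2) (η := η) (η' := η') (α := fun j => CmpX u E (S j) (χ j) (v j) a')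
    (β := fun j => CmpX u E (S j) (χ j) (v j) b') (p := p) (q := q) (r := r) (vv := vv) (y := y)
    (w := w) ha hb hsa hsb hκ hδ' hε hC haa hbb le_rfl hηV hη'V hη1 hη'1 ?_ hs1 hs1' hs2 hn2
    (hA.trans hκ2') (hB.trans hκ2') (hCo.trans hcom) hq hpα ?_ hqβ ?_ ?_ ?_ ?_ hvq ?_ hw ?_
  · intro j
    ext x
    rw [ContinuousMap.mul_apply, eη, eη', ← Complex.ofReal_mul, hgf]
  · intro j
    refine hherm _ _ ?_ (hpα j).isHermitian
    refine Matrix.IsHermitian.add (hprojH _ _ (IsStarProjection.one _)) (hprojH _ _ (hp j))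
  · intro j
    have h3 := (hqβ j).isHermitian
    have h4 : CmpX u E (S j) (χ j) (v j) b' = (CmpX u E (S j) (χ j) (v j) b' +
      (κ : ℂ) • (1 : Matrix (Fin n × S j) (Fin n × S j) ℂ) - (δ' : ℂ) • q j) -
      ((κ : ℂ) • (1 : Matrix (Fin n × S j) (Fin n × S j) ℂ)) + (δ' : ℂ) • q j := by abel
    rw [h4]
    exact (h3.sub (hprojH _ _ (IsStarProjection.one _))).add (hprojH _ _ (hq j))
  · intro j
    rw [hvv, if_pos rfl]
    rfl
  · intro j c
    rw [hvv, if_pos rfl]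
    rfl
  · intro j c c' hne
    rw [hvv, if_neg hne]
  · exact fun c => hyw w hw1 c
  · rw [hh1']
    exact hy

end tower

end TSC

open TSC in
theorem t_SC_of (hTS : StTS.{u}) (hMC : StMC.{u}) (hRANK : StRANK.{u}) : StSC.{u} := by
  classical
  intro G _ _ _ X _ _ _ _ _ _ A _ _ _ ι u E M _ hfree hcastle hcross
  intro n a b ha hb hb0 hr
  rcases Nat.eq_zero_or_pos n with rfl | hn
  · exact absurd (by ext i j; exact i.elim0) hb0
  obtain ⟨ι', u', e, E', hM, hE'⟩ := hMC G X A ι u E n hn hcross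
  refine clo' (MM n A) a b ha fun ε hε => ?_
  have hε0 : (0 : ℝ) < ε / 4 := by positivity
  -- the gap
  obtain ⟨δ, ε1, γ, K1, hδ, hε1, hγ, hgap⟩ := t_GAP t_KL G X (MM n A) n ι' u' e E' hM a b (ε / 4)
    ha hb hε0 fun Λ hΛ => rank_gap hTS hcross a b ha hb hr E' hE' Λ hΛ (ε / 4) hε0
  -- the ranks
  obtain ⟨κ, δ', C, τ, N, hκ, hκδ, hκε, hC, hτ, hrank⟩ := hRANK G X (MM n A) n ι' u' e E' hM a b
    (ε / 4) δ (γ / 4) ha hb hε0 hδ (by positivity)
  -- approximation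
  obtain ⟨Ka, a', hsa, hPa, hna⟩ := exists_prp hM a ha.isSelfAdjoint κ hκ
  obtain ⟨Kb, b', hsb, hPb, hnb⟩ := exists_prp hM b hb.isSelfAdjoint κ hκ
  obtain ⟨K, hKa, hKb⟩ : ∃ K : Finset G, Ka ⊆ K ∧ Kb ⊆ K :=
    ⟨Ka ∪ Kb, Finset.subset_union_left, Finset.subset_union_right⟩
  have hPa' : Prp ι' u' e K a' := hPa.mono hKa
  have hPb' : Prp ι' u' e K b' := hPb.mono hKb
  obtain ⟨fa, ea⟩ := id hPa'
  obtain ⟨fb, eb⟩ := id hPb'
  -- constants
  obtain ⟨N0, hN0⟩ := exists_nat_ge (2 * (∑ g ∈ K, ∑ k, ∑ l, ‖fa k l g‖) / κ)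
  have hs0 : 0 ≤ ∑ g ∈ K, ∑ k, ∑ l, ‖fa k l g‖ :=
    Finset.sum_nonneg fun _ _ => Finset.sum_nonneg fun _ _ => Finset.sum_nonneg fun _ _ =>
      norm_nonneg _
  let Nc : ℕ := max N N0 + 1
  have hNc : 0 < Nc := Nat.succ_pos _
  have hcom : 2 / (Nc : ℝ) * ∑ g ∈ K, ∑ k, ∑ l, ‖fa k l g‖ ≤ κ := by
    have h1 : (N0 : ℝ) ≤ Nc := by
      have : N0 ≤ Nc := (le_max_right _ _).trans (Nat.le_succ _)
      exact_mod_cast this
    have h2 : (0 : ℝ) < Nc := by exact_mod_cast hNc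
    rw [div_mul_eq_mul_div, div_le_iff₀ h2]
    rw [div_le_iff₀ hκ] at hN0
    nlinarith
  -- small open set
  have hβ : (0 : ℝ) < γ / (4 * (n * M + 1)) := by positivity
  obtain ⟨W, nW, OW, KW, εW, hW, hWne, hOW, hOWc, hεW, hSW⟩ := t_SW G X hfree _ hβ
  obtain ⟨ρ, hρ, hcas⟩ := hcastle W hW hWne
  obtain ⟨K', ε2, hε2, hchi⟩ := t_CHI G K Nc (min ρ τ) hNc (lt_min hρ hτ)
  -- the cover
  let κ2 : ℝ := κ / (K.card * n ^ 2 + 1)
  have hκ2 : 0 < κ2 := by positivity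
  have hκ2' : (K.card : ℝ) * n ^ 2 * κ2 ≤ κ := by
    have h1 : (0 : ℝ) < K.card * n ^ 2 + 1 := by positivity
    change (K.card : ℝ) * n ^ 2 * (κ / (K.card * n ^ 2 + 1)) ≤ κ
    rw [mul_div_assoc', div_le_iff₀ h1]
    nlinarith [hκ]
  obtain ⟨nO, O, hO, hOc, hOW', hosc⟩ := exists_cover (X := X)
    (κ := ULift.{u} (Bool × Fin n × Fin n) × K)
    (fun i => if i.1.down.1 then fa i.1.down.2.1 i.1.down.2.2 i.2 else
      fb i.1.down.2.1 i.1.down.2.2 i.2) hκ2 OW hOW hOWc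
  obtain ⟨m, S, V, Cl, hFol, hV, hCl, hCV, hL, hlev, hrem⟩ := hcas (K1 ∪ (KW ∪ K'))
    (min ε1 (min εW ε2)) (lt_min hε1 (lt_min hεW hε2)) nO O hO hOc
  have hF1 : ∀ j, Fol K1 ε1 (S j) := fun j =>
    fol_mono (hFol j) Finset.subset_union_left (min_le_left _ _)
  have hFW : ∀ j, Fol KW εW (S j) := fun j =>
    fol_mono (hFol j) (Finset.subset_union_left.trans Finset.subset_union_right)
      ((min_le_right _ _).trans (min_le_left _ _))
  have hF2 : ∀ j, Fol K' ε2 (S j) := fun j =>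
    fol_mono (hFol j) (Finset.subset_union_right.trans Finset.subset_union_right)
      ((min_le_right _ _).trans (min_le_right _ _))
  choose χ T hχ hχS hχN hχK hTS' hTc hTw using fun j => hchi (S j) (hF2 j)
  have hSc : ∀ j, (0 : ℝ) ≤ (S j).card := fun j => Nat.cast_nonneg _
  -- points
  have hvex : ∀ j, ∃ v : X, (V j).Nonempty → v ∈ V j := by
    intro j
    by_cases h : (V j).Nonempty
    · exact ⟨h.some, fun _ => h.some_mem⟩
    · exact ⟨Classical.arbitrary X, fun h' => absurd h' h⟩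
  choose v hv using hvex
  -- the projections
  have hpq : ∀ j, _ := fun j => hrank a' b' K hsa hsb hPa' hPb' hna hnb (S j) (T j) (χ j) (hTS' j)
    (hχ j) (hχS j) (fun t ht w hwl hwK => hTw j t ht w (hwl.trans
      ((le_max_left _ _).trans (Nat.le_succ _))) hwK)
    (le_trans (by
      have h1 : min ρ τ ≤ τ := min_le_right _ _
      nlinarith [hSc j]) (hTc j)) (v j)
  choose p q hp hq hpα hqβ htr using hpq
  -- the levels which meet `W`
  let TW : Fin m → Finset G := fun j => (S j).filter fun s => ∃ x ∈ V j, s • x ∈ W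
  have hTW : ∀ j s, s ∈ TW j ↔ s ∈ S j ∧ ∃ x ∈ V j, s • x ∈ W := fun j s => Finset.mem_filter
  have hTWc : ∀ j, ((TW j).card : ℝ) ≤ γ / (4 * (n * M + 1)) * (S j).card := by
    intro j
    refine hSW (S j) (hFW j) (V j) (TW j) (Finset.filter_subset _ _) ?_ ?_
    · intro s hs
      obtain ⟨i, hi⟩ := hlev j s hs
      obtain ⟨i', hi'⟩ := hOW' i
      exact ⟨i', fun x hx => hi' (hi x hx)⟩
    · intro s hs
      exact ((hTW j s).1 hs).2
  have hz := tower hM (κ := κ) (ε := ε / 4) (C := C) (δ' := δ') (κ2 := κ2) ha hb hsa hsb hκ hκδ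
    hε0.le hC.le hna hnb ea eb hNc hcom hκ2.le hκ2' hV hCl hCV hL ?_ ?_ hχ hχS hχN hχK hTS'
    (fun j t ht => by
      have h1 := hTw j t ht [] (Nat.zero_le _) (by simp)
      simpa using h1) hv hp hq hpα hqβ (M := M) (W := W) hTW ?_ ?_
  · -- from `ε/4 + 3κ` to `ε`
    have h1 : ε / 4 + 3 * κ ≤ ε := by linarith
    have h2 := (ct' (MM n A) a ha).2.2.1 (ε / 4 + 3 * κ) ε (by positivity) h1
    exact tra' _ _ _ _ (le' _ _ _ ((ct' (MM n A) a ha).1 ε) h2) hz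
  · intro j s hs x hx y hy g hg k l
    obtain ⟨i, hi⟩ := hlev j s hs
    exact hosc i _ (hi x hx) _ (hi y hy) (⟨(true, k, l)⟩, ⟨g, hg⟩)
  · intro j s hs x hx y hy g hg k l
    obtain ⟨i, hi⟩ := hlev j s hs
    exact hosc i _ (hi x hx) _ (hi y hy) (⟨(false, k, l)⟩, ⟨g, hg⟩)
  · intro j
    have h1 := htr j
    have h2 := hgap (S j) (hF1 j) (v j)
    have h3 := hTWc j
    have h4 : (M : ℝ) * (n * (TW j).card) ≤ γ / 4 * (S j).card := by
      have h5 : (0 : ℝ) < n * M + 1 := by positivity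
      calc (M : ℝ) * (n * (TW j).card) = (n * M) * (TW j).card := by ring
        _ ≤ (n * M) * (γ / (4 * (n * M + 1)) * (S j).card) :=
            mul_le_mul_of_nonneg_left h3 (by positivity)
        _ = ((n * M) / (n * M + 1)) * (γ / 4 * (S j).card) := by field_simp
        _ ≤ 1 * (γ / 4 * (S j).card) := by
            refine mul_le_mul_of_nonneg_right ?_ (by positivity)
            rw [div_le_one h5]
            linarith
        _ = γ / 4 * (S j).card := one_mul _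
    nlinarith [hSc j]
  · refine hrem T fun j => ⟨hTS' j, le_trans ?_ (hTc j)⟩
    have h1 : min ρ τ ≤ ρ := min_le_left _ _
    nlinarith [hSc j]

end Pool.Agent.H107ZS
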