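import Pool.Agent.H107_ZS.CStubs3
import Pool.Agent.H107_ZS.TPI

/-!
# Spectral projections of matrices (StSPM)
-/

set_option autoImplicit false
set_option linter.unusedSectionVars false

namespace Pool.Agent.H107ZS

open Topology Matrix
open scoped ComplexOrder

universe u v w

section

variable {N : Type u} [Fintype N] [DecidableEq N]

/-- positivity of `g(A)` gives positivity of `g` on the eigenvalues -/
theorem mfc_nonneg_of_posSemidef {A : Matrix N N ℂ} (hA : A.IsHermitian) {g : ℝ → ℝ}
    (h : (mfc hA g).PosSemidef) (i : N) : 0 ≤ g (hA.eigenvalues i) := by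
  have h1 := h.conjTranspose_mul_mul_same (hA.eigenvectorUnitary : Matrix N N ℂ)
  have hU : star (hA.eigenvectorUnitary : Matrix N N ℂ) *
    (hA.eigenvectorUnitary : Matrix N N ℂ) = 1 := Unitary.coe_star_mul_self _
  unfold mfc at h1
  rw [← star_eq_conjTranspose] at h1
  have h2 : star (hA.eigenvectorUnitary : Matrix N N ℂ) *
      ((hA.eigenvectorUnitary : Matrix N N ℂ) *
        diagonal (fun i => ((g (hA.eigenvalues i) : ℝ) : ℂ)) *
        star (hA.eigenvectorUnitary : Matrix N N ℂ)) * (hA.eigenvectorUnitary : Matrix N N ℂ) =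
      (star (hA.eigenvectorUnitary : Matrix N N ℂ) * (hA.eigenvectorUnitary : Matrix N N ℂ)) *
        diagonal (fun i => ((g (hA.eigenvalues i) : ℝ) : ℂ)) *
      (star (hA.eigenvectorUnitary : Matrix N N ℂ) * (hA.eigenvectorUnitary : Matrix N N ℂ)) := by
    noncomm_ring
  rw [h2, hU, one_mul, mul_one] at h1
  have h3 := h1.diag_nonneg (i := i)
  rw [diagonal_apply_eq] at h3
  exact_mod_cast h3

theorem eigenvalues_le {A : Matrix N N ℂ} (hA : A.IsHermitian) {c : ℝ}
    (h : ((c : ℂ) • (1 : Matrix N N ℂ) - A).PosSemidef) (i : N) : hA.eigenvalues i ≤ c := by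
  have h1 : (c : ℂ) • (1 : Matrix N N ℂ) - A = mfc hA (fun x => c - x) := by
    rw [← mfc_sub, mfc_const, mfc_id]
  rw [h1] at h
  have := mfc_nonneg_of_posSemidef hA h i
  linarith

theorem le_eigenvalues {A : Matrix N N ℂ} (hA : A.IsHermitian) {c : ℝ}
    (h : (A - (c : ℂ) • (1 : Matrix N N ℂ)).PosSemidef) (i : N) : c ≤ hA.eigenvalues i := by
  have h1 : A - (c : ℂ) • (1 : Matrix N N ℂ) = mfc hA (fun x => x - c) := by
    rw [← mfc_sub, mfc_const, mfc_id]
  rw [h1] at h
  have := mfc_nonneg_of_posSemidef hA h i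
  linarith

theorem le_eigenvalues' {A : Matrix N N ℂ} (hA : A.IsHermitian) {c : ℝ}
    (h : (A + (c : ℂ) • (1 : Matrix N N ℂ)).PosSemidef) (i : N) : -c ≤ hA.eigenvalues i := by
  have h1 : A + (c : ℂ) • (1 : Matrix N N ℂ) = mfc hA (fun x => x + c) := by
    rw [← mfc_add, mfc_const, mfc_id]
  rw [h1] at h
  have := mfc_nonneg_of_posSemidef hA h i
  linarith

end

/-- SPM: spectral projections of matrices -/
theorem t_SPM : StSPM.{u} := by
  intro N _ _ α hA s hs
  refine ⟨mfc hA (fun t => if s < t then 1 else 0), mfc_proj hA fun i => ?_, ?_, ?_, ?_⟩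
  · by_cases h : s < hA.eigenvalues i
    · right; simp [h]
    · left; simp [h]
  · intro C hC hCα
    have h1 : (s : ℂ) • (1 : Matrix N N ℂ) + (C : ℂ) • mfc hA (fun t => if s < t then 1 else 0) - α
        = mfc hA (fun t => s + C * (if s < t then 1 else 0) - t) := by
      rw [← mfc_sub, ← mfc_add, ← mfc_smul, mfc_const, mfc_id]
    rw [h1]
    refine mfc_posSemidef hA fun i => ?_
    have h2 := eigenvalues_le hA hCα i
    by_cases h : s < hA.eigenvalues i
    · simp only [if_pos h]; linarith
    · simp only [if_neg h]; linarith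
  · intro κ hκ hκα
    have h1 : α + (κ : ℂ) • (1 : Matrix N N ℂ) - (s : ℂ) • mfc hA (fun t => if s < t then 1 else 0)
        = mfc hA (fun t => t + κ - s * (if s < t then 1 else 0)) := by
      rw [← mfc_sub, ← mfc_add, ← mfc_smul, mfc_const, mfc_id]
    rw [h1]
    refine mfc_posSemidef hA fun i => ?_
    have h2 := le_eigenvalues' hA hκα i
    by_cases h : s < hA.eigenvalues i
    · simp only [if_pos h]; linarith
    · simp only [if_neg h]; linarith
  · intro P lo hi η hlo hhi
    have h1 := fun i => le_eigenvalues hA hlo i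
    have h2 := fun i => eigenvalues_le hA hhi i
    have h3 : (mfc hA (fun t => if s < t then 1 else 0)).trace.re =
        ∑ i, (if s < hA.eigenvalues i then (1:ℝ) else 0) := by
      rw [mfc_trace, Complex.re_sum]
      exact Finset.sum_congr rfl fun i _ => Complex.ofReal_re _
    have h4 : (Polynomial.aeval α P).trace.re = ∑ i, P.eval (hA.eigenvalues i) := by
      rw [mfc_aeval hA, mfc_trace, Complex.re_sum]
      exact Finset.sum_congr rfl fun i _ => Complex.ofReal_re _
    have h5 : η * Fintype.card N = ∑ _i : N, η := by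
      rw [Finset.sum_const, Finset.card_univ, nsmul_eq_mul, mul_comm]
    constructor
    · intro h
      rw [h3, h4, h5, ← Finset.sum_add_distrib]
      exact Finset.sum_le_sum fun i _ => h _ (h1 i) (h2 i)
    · intro h
      rw [h3, h4, h5, ← Finset.sum_add_distrib]
      exact Finset.sum_le_sum fun i _ => h _ (h1 i) (h2 i)

end Pool.Agent.H107ZS
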