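import Pool.Agent.H107_ZS.TKL
import Pool.Agent.H107_ZS.TAM
import Pool.Agent.H107_ZS.TTR
import Pool.Agent.H107_ZS.DStubs2

/-!
# The main step (StSTEP), given the existence of cells
-/

set_option autoImplicit false

namespace Pool.Agent.H107ZS

open Topology

universe u v w

/-! ### splitting a finite family into nearly equal parts -/

theorem hermite (W m : ℕ) (hW : 0 < W) : ∑ i ∈ Finset.range W, (m + i) / W = m := by
  induction m with
  | zero =>
    refine Finset.sum_eq_zero fun i hi => ?_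
    rw [Nat.zero_add]
    exact Nat.div_eq_of_lt (Finset.mem_range.1 hi)
  | succ m ih =>
    have h1 : ∑ i ∈ Finset.range W, (m + 1 + i) / W = ∑ i ∈ Finset.range W, (m + (i + 1)) / W :=
      Finset.sum_congr rfl fun i _ => by rw [show m + 1 + i = m + (i + 1) by ring]
    rw [h1]
    have h2 := Finset.sum_range_succ' (fun i => (m + i) / W) W
    have h3 := Finset.sum_range_succ (fun i => (m + i) / W) W
    rw [ih] at h3
    rw [h3] at h2
    have h4 : (m + W) / W = m / W + 1 := by
      rw [Nat.add_div_right _ hW]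
    simp only [Nat.add_zero] at h2
    rw [h4] at h2
    omega

/-- splitting a family of natural numbers into `W` nearly equal parts -/
theorem exists_split_range (W : ℕ) (hW : 0 < W) (n : ℕ) (p : ℕ → ℕ) :
    ∃ r : ℕ → ℕ → ℕ, (∀ t, ∑ i ∈ Finset.range W, r t i = p t) ∧
      ∀ i, i < W → W * (∑ t ∈ Finset.range n, r t i) ≤ (∑ t ∈ Finset.range n, p t) + W ∧
        (∑ t ∈ Finset.range n, p t) ≤ W * (∑ t ∈ Finset.range n, r t i) + W := by
  let P : ℕ → ℕ := fun t => ∑ t' ∈ Finset.range t, p t'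
  let d : ℕ → ℕ → ℕ := fun m i => (m + i) / W
  have hd : ∀ i m m', m ≤ m' → d m i ≤ d m' i := fun i m m' h =>
    Nat.div_le_div_right (Nat.add_le_add_right h i)
  have hP : ∀ t, P t ≤ P (t + 1) := fun t => by
    simp only [P, Finset.sum_range_succ]; omega
  refine ⟨fun t i => d (P (t + 1)) i - d (P t) i, fun t => ?_, fun i hi => ?_⟩
  · have h1 : ∑ i ∈ Finset.range W, (d (P (t + 1)) i - d (P t) i) =
        ∑ i ∈ Finset.range W, d (P (t + 1)) i - ∑ i ∈ Finset.range W, d (P t) i :=
      Finset.sum_tsub_distrib _ fun i _ => hd i _ _ (hP t)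
    rw [h1, hermite W _ hW, hermite W _ hW]
    simp only [P, Finset.sum_range_succ]; omega
  · have h2 : ∀ n, ∑ t ∈ Finset.range n, (d (P (t + 1)) i - d (P t) i) = d (P n) i := by
      intro n
      induction n with
      | zero =>
        simp only [Finset.range_zero, Finset.sum_empty]
        simp only [d, P, Finset.range_zero, Finset.sum_empty, Nat.zero_add]
        exact (Nat.div_eq_of_lt hi).symm
      | succ n ih =>
        rw [Finset.sum_range_succ, ih]
        have := hd i _ _ (hP n)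
        omega
    rw [h2]
    have h3 := Nat.div_add_mod (P n + i) W
    have h4 := Nat.mod_lt (P n + i) hW
    show W * ((P n + i) / W) ≤ P n + W ∧ P n ≤ W * ((P n + i) / W) + W
    omega

theorem exists_split {κ ι : Type*} [Fintype κ] [Fintype ι] [Nonempty ι] (p : κ → ℕ) :
    ∃ r : κ → ι → ℕ, (∀ t, ∑ i, r t i = p t) ∧
      ∀ i, Fintype.card ι * (∑ t, r t i) ≤ (∑ t, p t) + Fintype.card ι ∧
        (∑ t, p t) ≤ Fintype.card ι * (∑ t, r t i) + Fintype.card ι := by
  classical
  let e := Fintype.equivFin κ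
  let f := Fintype.equivFin ι
  let W := Fintype.card ι
  let n := Fintype.card κ
  have hW : 0 < W := Fintype.card_pos
  let p' : ℕ → ℕ := fun t => if h : t < n then p (e.symm ⟨t, h⟩) else 0
  obtain ⟨r, hr1, hr2⟩ := exists_split_range W hW n p'
  have hp : ∀ t : κ, p' (e t : ℕ) = p t := by
    intro t
    simp only [p', (e t).2, n, dif_pos, Fin.eta, Equiv.symm_apply_apply]
  have hsumκ : ∀ g : ℕ → ℕ, ∑ t : κ, g (e t : ℕ) = ∑ t ∈ Finset.range n, g t := by
    intro g
    rw [← Fin.sum_univ_eq_sum_range]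
    exact Equiv.sum_comp e (fun t : Fin n => g (t : ℕ))
  have hsumι : ∀ g : ℕ → ℕ, ∑ t : ι, g (f t : ℕ) = ∑ t ∈ Finset.range W, g t := by
    intro g
    rw [← Fin.sum_univ_eq_sum_range]
    exact Equiv.sum_comp f (fun t : Fin W => g (t : ℕ))
  refine ⟨fun t i => r (e t) (f i), fun t => ?_, fun i => ?_⟩
  · rw [hsumι (fun i => r (e t) i), hr1, hp]
  · have h1 := hr2 (f i) (f i).2
    rw [hsumκ (fun t => r t (f i))]
    have h2 : ∑ t, p t = ∑ t ∈ Finset.range n, p' t := by
      rw [← hsumκ p']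
      exact Finset.sum_congr rfl fun t _ => (hp t).symm
    rw [h2]
    exact h1

/-! ### cells and states -/

section

variable {G : Type u} [Group G] {Y : Type v} [TopologicalSpace Y] [MulAction G Y]
  [ContinuousConstSMul G Y]

open Classical in
/-- `f` cut down to the set `{c = k}` -/
noncomputable def cellCut (c : Y → G) (hc : IsLocallyConstant c) (k : G) (f : C(Y, ℝ)) : C(Y, ℝ) :=
  ⟨fun y => if c y = k then f y else 0, by
    have h : IsClopen {y | c y = k} := hc.isClopen_fiber k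
    refine Continuous.if ?_ f.continuous continuous_const
    intro y hy
    rw [h.frontier_eq] at hy
    exact absurd hy (Set.notMem_empty y)⟩

open Classical in
theorem cellCut_apply (c : Y → G) (hc : IsLocallyConstant c) (k : G) (f : C(Y, ℝ)) (y : Y) :
    cellCut c hc k f y = if c y = k then f y else 0 := rfl

/-- the sum of `f` over the cell with a given base point -/
noncomputable def cellSum (c : Y → G) (hc : IsLocallyConstant c) (T : Finset G) (f : C(Y, ℝ)) :
    C(Y, ℝ) := ∑ k ∈ T, (cellCut c hc k f).comp (tr k)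

open Classical in
theorem cellSum_apply (c : Y → G) (hc : IsLocallyConstant c) (T : Finset G) (f : C(Y, ℝ)) (v : Y) :
    cellSum c hc T f v = ∑ k ∈ T, if c (k • v) = k then f (k • v) else 0 := by
  unfold cellSum
  rw [ContinuousMap.sum_apply]
  rfl

theorem state_cellSum {K : Subgroup G} {μ : C(Y, ℝ) →ₗ[ℝ] ℝ} (hμ : InvState K μ) {c : Y → G}
    (hc : IsLocallyConstant c) {T : Finset G} (hT : ∀ y, c y ∈ T) (hTK : ∀ k ∈ T, k ∈ K)
    (f : C(Y, ℝ)) : μ (cellSum c hc T f) = μ f := by
  classical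
  have h1 : f = ∑ k ∈ T, cellCut c hc k f := by
    ext y
    rw [ContinuousMap.sum_apply]
    simp only [cellCut_apply]
    rw [Finset.sum_ite_eq T (c y) (fun _ => f y), if_pos (hT y)]
  conv_rhs => rw [h1]
  unfold cellSum
  rw [map_sum, map_sum]
  exact Finset.sum_congr rfl fun k hk => hμ.inv k (hTK k hk) _

theorem InvState.mono {K : Subgroup G} {μ : C(Y, ℝ) →ₗ[ℝ] ℝ} (hμ : InvState K μ) {f g : C(Y, ℝ)}
    (h : ∀ y, f y ≤ g y) : μ f ≤ μ g := by
  have := hμ.nonneg (g - f) (fun y => by simpa using h y)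
  rw [map_sub] at this
  linarith

/-- mass transport: comparison of the sums over the cells -/
theorem state_le_of_cellSum_le {K : Subgroup G} {μ : C(Y, ℝ) →ₗ[ℝ] ℝ} (hμ : InvState K μ)
    {c : Y → G} (hc : IsLocallyConstant c) (hbase : ∀ y, c ((c y)⁻¹ • y) = 1)
    {T : Finset G} (hT : ∀ y, c y ∈ T) (hTK : ∀ k ∈ T, k ∈ K) (f g : C(Y, ℝ))
    (h : ∀ v, c v = 1 → cellSum c hc T f v ≤ cellSum c hc T g v) : μ f ≤ μ g := by
  classical
  have h1 : ∀ v, cellSum c hc T f v ≤ cellSum c hc T g v := by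
    intro v
    by_cases hv : c v = 1
    · exact h v hv
    · have h0 : ∀ k, c (k • v) ≠ k := by
        intro k hk
        have := hbase (k • v)
        rw [hk, inv_smul_smul] at this
        exact hv this
      rw [cellSum_apply, cellSum_apply, Finset.sum_eq_zero, Finset.sum_eq_zero]
      · intro k _; rw [if_neg (h0 k)]
      · intro k _; rw [if_neg (h0 k)]
  have h3 := hμ.mono h1
  rwa [state_cellSum hμ hc hT hTK, state_cellSum hμ hc hT hTK] at h3

omit [TopologicalSpace Y] [ContinuousConstSMul G Y] in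
theorem finsum_cell_eq {M : Type*} [AddCommMonoid M] {c : Y → G} {T : Finset G}
    (hT : ∀ y, c y ∈ T) [DecidableEq G] (v : Y) (F : G → M) :
    ∑ᶠ k ∈ {k : G | c (k • v) = k}, F k = ∑ k ∈ T, if c (k • v) = k then F k else 0 := by
  rw [← Finset.sum_filter]
  have : {k : G | c (k • v) = k} = ((T.filter fun k => c (k • v) = k : Finset G) : Set G) := by
    ext k
    simp only [Set.mem_ofPred_eq, Finset.coe_filter]
    exact ⟨fun h => ⟨h ▸ hT (k • v), h⟩, fun h => h.2⟩
  rw [this, finsum_mem_coe_finset]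

omit [TopologicalSpace Y] [ContinuousConstSMul G Y] in
theorem ncard_cell_eq {c : Y → G} {T : Finset G}
    (hT : ∀ y, c y ∈ T) [DecidableEq G] (v : Y) :
    Set.ncard {k : G | c (k • v) = k} = ∑ k ∈ T, if c (k • v) = k then 1 else 0 := by
  rw [← Finset.sum_filter]
  have : {k : G | c (k • v) = k} = ((T.filter fun k => c (k • v) = k : Finset G) : Set G) := by
    ext k
    simp only [Set.mem_ofPred_eq, Finset.coe_filter]
    exact ⟨fun h => ⟨h ▸ hT (k • v), h⟩, fun h => h.2⟩
  rw [this, Set.ncard_coe_finset, Finset.card_eq_sum_ones]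

end

/-- the finite set of values of a cell structure -/
theorem Cell.exists_range {G : Type u} [Group G] {Y : Type u}
    [TopologicalSpace Y] [CompactSpace Y] [MulAction G Y] {K : Subgroup G} {c : Y → G}
    (hc : Cell K c) : ∃ T : Finset G, (∀ y, c y ∈ T) ∧ ∀ k ∈ T, k ∈ K := by
  classical
  have hfin : (Set.range c).Finite := hc.cont.range_finite
  refine ⟨hfin.toFinset, fun y => by simp, fun k hk => ?_⟩
  rw [Set.Finite.mem_toFinset] at hk
  obtain ⟨y, rfl⟩ := hk
  exact hc.mem y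

/-- INT: an invariant state is determined by the sums over the cells -/
theorem t_INT : StINT.{u} := by
  intro G _ Y _ _ _ _ K c hc Λ hΛ f g h
  classical
  obtain ⟨T, hT, hTK⟩ := hc.exists_range
  refine state_le_of_cellSum_le hΛ hc.cont hc.base hT hTK f g fun v hv => ?_
  have := h v hv
  rw [finsum_cell_eq hT v (fun k => f (k • v)), finsum_cell_eq hT v (fun k => g (k • v))] at this
  rw [cellSum_apply, cellSum_apply]
  exact this

/-- SPL: equidistributed splitting in the cells -/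
theorem t_SPL : StSPL.{u} := by
  intro G _ Y _ _ _ _ K c hc a W hW
  classical
  obtain ⟨T, hT, hTK⟩ := hc.exists_range
  have : Nonempty (Fin W) := ⟨⟨0, hW⟩⟩
  have hex : ∀ p : T → ℕ, ∃ r : T → Fin W → ℕ, (∀ t, ∑ i, r t i = p t) ∧
      ∀ i, Fintype.card (Fin W) * (∑ t, r t i) ≤ (∑ t, p t) + Fintype.card (Fin W) ∧
        (∑ t, p t) ≤ Fintype.card (Fin W) * (∑ t, r t i) + Fintype.card (Fin W) :=
    fun p => exists_split p
  choose r hr1 hr2 using hex
  simp only [Fintype.card_fin] at hr2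
  -- the data of a cell
  let D : Y → T → ℕ := fun v k => if c ((k : G) • v) = k then a ((k : G) • v) else 0
  have hD : IsLocallyConstant D := by
    rw [IsLocallyConstant.iff_continuous]
    refine continuous_pi fun k => ?_
    have h1 : IsClopen {v : Y | c ((k : G) • v) = k} :=
      (hc.cont.isClopen_fiber (k : G)).preimage (continuous_const_smul (k : G))
    refine Continuous.if ?_ (a.continuous.comp (continuous_const_smul (k : G))) continuous_const
    intro y hy
    rw [h1.frontier_eq] at hy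
    exact absurd hy (Set.notMem_empty y)
  have hbc : IsLocallyConstant fun y => ((⟨c y, hT y⟩ : T), D ((c y)⁻¹ • y)) := by
    rw [IsLocallyConstant.iff_eventually_eq]
    intro y
    have h1 := (IsLocallyConstant.iff_eventually_eq c).1 hc.cont y
    have h2 : Continuous fun z : Y => (c y)⁻¹ • z := continuous_const_smul _
    have h3 := h2.continuousAt (x := y) |>.eventually
      ((IsLocallyConstant.iff_eventually_eq D).1 hD ((c y)⁻¹ • y))
    filter_upwards [h1, h3] with z hz1 hz3
    refine Prod.ext (Subtype.ext hz1) ?_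
    show D ((c z)⁻¹ • z) = D ((c y)⁻¹ • y)
    rw [hz1]
    exact hz3
  have hsum : ∀ v, ∑ k : T, D v k = ∑ᶠ k ∈ {k : G | c (k • v) = k}, a (k • v) := by
    intro v
    rw [finsum_cell_eq hT v (fun k => a (k • v))]
    exact Finset.sum_coe_sort T (fun k => if c (k • v) = k then a (k • v) else 0)
  refine ⟨fun i => ⟨fun y => r (D ((c y)⁻¹ • y)) ⟨c y, hT y⟩ i, ?_⟩, fun y => ?_, fun i v hv => ?_⟩
  · exact (hbc.comp (fun q : T × (T → ℕ) => r q.2 q.1 i)).continuous
  · show ∑ i, r (D ((c y)⁻¹ • y)) ⟨c y, hT y⟩ i = a y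
    rw [hr1]
    show (if c (c y • (c y)⁻¹ • y) = c y then a (c y • (c y)⁻¹ • y) else 0) = a y
    rw [smul_inv_smul, if_pos rfl]
  · have h1 : ∑ᶠ k ∈ {k : G | c (k • v) = k}, r (D ((c (k • v))⁻¹ • k • v)) ⟨c (k • v), hT _⟩ i =
        ∑ k : T, r (D v) k i := by
      rw [finsum_cell_eq hT v (fun k => r (D ((c (k • v))⁻¹ • k • v)) ⟨c (k • v), hT _⟩ i)]
      rw [← Finset.sum_coe_sort T]
      refine Finset.sum_congr rfl fun k _ => ?_
      by_cases hk : c ((k : G) • v) = k
      · rw [if_pos hk]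
        have h2 : (⟨c ((k : G) • v), hT _⟩ : T) = k := Subtype.ext hk
        rw [h2]
        have h3 : (c ((k : G) • v))⁻¹ • (k : G) • v = v := by rw [hk, inv_smul_smul]
        rw [h3]
      · rw [if_neg hk]
        have h2 : D v k = 0 := if_neg hk
        have h3 := hr1 (D v) k
        rw [h2] at h3
        exact ((Finset.sum_eq_zero_iff.1 h3) i (Finset.mem_univ i)).symm
    have h4 := hr2 (D v) i
    rw [hsum v] at h4
    show W * ∑ᶠ k ∈ {k : G | c (k • v) = k}, r (D ((c (k • v))⁻¹ • k • v)) ⟨c (k • v), hT _⟩ i ≤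
          ∑ᶠ k ∈ {k : G | c (k • v) = k}, a (k • v) + W ∧
      ∑ᶠ k ∈ {k : G | c (k • v) = k}, a (k • v) ≤
          W * ∑ᶠ k ∈ {k : G | c (k • v) = k}, r (D ((c (k • v))⁻¹ • k • v)) ⟨c (k • v), hT _⟩ i + W
    rw [h1]
    exact h4

/-! ### the step -/

section

variable {G : Type u} [Group G] {Y : Type v} [TopologicalSpace Y] [MulAction G Y]
  [ContinuousConstSMul G Y]

theorem toR_apply (a : C(Y, ℕ)) (y : Y) : toR a y = (a y : ℝ) := rfl

theorem Sub.mono {H N : Subgroup G} (h : N ≤ H) {a b : C(Y, ℕ)} (hs : Sub N a b) : Sub H a b := by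
  obtain ⟨n, t, c, ht, h1, h2⟩ := hs
  exact ⟨n, t, c, fun i => h (ht i), h1, h2⟩

theorem InvState.conj {K N : Subgroup G} {ν : C(Y, ℝ) →ₗ[ℝ] ℝ} (hν : InvState N ν) (s : G)
    (hs : ∀ k ∈ K, s⁻¹ * k * s ∈ N) :
    ∃ μ : C(Y, ℝ) →ₗ[ℝ] ℝ, InvState K μ ∧ ∀ f, μ f = ν (f.comp (tr s)) := by
  refine ⟨{ toFun := fun f => ν (f.comp (tr s))
            map_add' := fun f g => ?_
            map_smul' := fun r f => ?_ }, ⟨?_, ?_, ?_⟩, fun f => rfl⟩
  · rw [← map_add]; rfl
  · rw [← map_smul]; rfl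
  · exact hν.one
  · intro f hf
    exact hν.nonneg _ fun y => hf (s • y)
  · intro k hk f
    show ν ((f.comp (tr k)).comp (tr s)) = ν (f.comp (tr s))
    rw [← hν.inv _ (hs k hk) (f.comp (tr s))]
    congr 1
    ext y
    show f (k • s • y) = f (s • (s⁻¹ * k * s) • y)
    simp only [smul_smul]
    congr 2
    group

end

/-- STEP: the main step, given the existence of cells -/
theorem t_STEP_of (hCE : StCE.{u}) : StSTEP.{u} := by
  intro G _ _ Y _ _ _ _ _ _ hG hfree H hH a b hab
  classical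
  rcases isEmpty_or_nonempty Y with hY | hY
  · exact ⟨0, fun i => i.elim0, fun i => i.elim0, fun i => i.elim0, fun y => hY.elim y,
      fun y => hY.elim y⟩
  -- the uniform gap
  obtain ⟨_, K₀, ε, γ, hK₀, hε, hγ, hKL⟩ := t_KL G Y H (fun _ => toR b - toR a)
    (fun _ _ => le_rfl) (fun Λ hΛ => ⟨0, by
      have := hab Λ hΛ
      rw [map_sub]; linarith⟩)
  obtain ⟨S, hSH, hSF⟩ := t_AM G hG H K₀ ε hε hK₀
  have hgap : ∀ y, ∑ s ∈ S, a (s • y) + 1 ≤ ∑ s ∈ S, b (s • y) := by
    intro y
    have h1 := hKL S hSH hSF y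
    have h2 : (0:ℝ) < S.card := by exact_mod_cast hSF.1.card_pos
    have h3 : (0:ℝ) < γ * S.card := by positivity
    have h4 : ∑ s ∈ S, (toR b - toR a) (s • y) =
        ((∑ s ∈ S, b (s • y) : ℕ) : ℝ) - ((∑ s ∈ S, a (s • y) : ℕ) : ℝ) := by
      push_cast
      rw [← Finset.sum_sub_distrib]
      rfl
    rw [h4] at h1
    have h5 : ((∑ s ∈ S, a (s • y) : ℕ) : ℝ) < ((∑ s ∈ S, b (s • y) : ℕ) : ℝ) := by linarith
    exact_mod_cast h5
  let W := S.card
  have hW : 0 < W := hSF.1.card_pos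
  let s : Fin W → G := fun i => (S.equivFin.symm i : G)
  have hs : ∀ i, s i ∈ S := fun i => (S.equivFin.symm i).2
  have hsum : ∀ {M : Type} [AddCommMonoid M] (f : G → M), ∑ i, f (s i) = ∑ g ∈ S, f g := by
    intro M _ f
    rw [← Finset.sum_coe_sort S]
    exact Equiv.sum_comp S.equivFin.symm (fun g : S => f g)
  -- the subgroups `K` and `N`
  let L := 2 * W * W + 1
  obtain ⟨K, N, hKH, hNH, ⟨E, hEK, hEL⟩, hN, hKN⟩ := hH (S.image fun g => g⁻¹) L (by
    intro x hx
    obtain ⟨g, hg, rfl⟩ := Finset.mem_image.1 (Finset.mem_coe.1 hx)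
    exact H.inv_mem (hSH hg))
  have hEne : E.Nonempty := Finset.card_pos.1 (by omega)
  obtain ⟨c, hc, hcL⟩ := hCE G Y hfree K E hEK hEne
  obtain ⟨a', ha1, ha2⟩ := t_SPL G Y K c hc a W hW
  obtain ⟨b', hb1, hb2⟩ := t_SPL G Y K c hc b W hW
  obtain ⟨T, hT, hTK⟩ := hc.exists_range
  have hWr : (0:ℝ) < W := by exact_mod_cast hW
  have hLr : (0:ℝ) < L := by positivity
  -- sums over the cells, as real numbers
  have hcast : ∀ (f : C(Y, ℕ)) (v : Y), ((∑ᶠ k ∈ {k : G | c (k • v) = k}, f (k • v) : ℕ) : ℝ) =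
      ∑ᶠ k ∈ {k : G | c (k • v) = k}, toR f (k • v) := by
    intro f v
    rw [finsum_cell_eq hT v (fun k => f (k • v)), finsum_cell_eq hT v (fun k => toR f (k • v))]
    push_cast
    rfl
  have hlin : ∀ (r r' : ℝ) (f g : C(Y, ℝ)) (v : Y),
      ∑ᶠ k ∈ {k : G | c (k • v) = k}, (r • f + r' • g) (k • v) =
      r * ∑ᶠ k ∈ {k : G | c (k • v) = k}, f (k • v) +
      r' * ∑ᶠ k ∈ {k : G | c (k • v) = k}, g (k • v) := by
    intro r r' f g v
    rw [finsum_cell_eq hT v (fun k => (r • f + r' • g) (k • v)),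
      finsum_cell_eq hT v (fun k => f (k • v)), finsum_cell_eq hT v (fun k => g (k • v)),
      Finset.mul_sum, Finset.mul_sum, ← Finset.sum_add_distrib]
    refine Finset.sum_congr rfl fun k _ => ?_
    by_cases hk : c (k • v) = k
    · simp only [if_pos hk, ContinuousMap.add_apply, ContinuousMap.smul_apply, smul_eq_mul]
    · simp only [if_neg hk, mul_zero, add_zero]
  have hone : ∀ v, c v = 1 →
      (L : ℝ) ≤ ∑ᶠ k ∈ {k : G | c (k • v) = k}, (1 : C(Y, ℝ)) (k • v) := by
    intro v hv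
    have h1 := hcL v hv
    have h2 : ∑ᶠ k ∈ {k : G | c (k • v) = k}, (1 : C(Y, ℝ)) (k • v) =
        ((Set.ncard {k : G | c (k • v) = k} : ℕ) : ℝ) := by
      rw [finsum_cell_eq hT v (fun k => (1 : C(Y, ℝ)) (k • v)), ncard_cell_eq hT v]
      push_cast
      rfl
    rw [h2]
    exact_mod_cast le_trans hEL h1
  -- estimates for invariant states of `K`
  have hA : ∀ μ : C(Y, ℝ) →ₗ[ℝ] ℝ, InvState K μ → ∀ i,
      W * μ (toR (a' i)) ≤ μ (toR a) + W / L := by
    intro μ hμ i
    have h1 := t_INT G Y K c hc μ hμ ((W : ℝ) • toR (a' i) + (0:ℝ) • 1)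
      ((1:ℝ) • toR a + (W / L : ℝ) • 1) (by
        intro v hv
        rw [hlin, hlin, ← hcast, ← hcast]
        have h2 : (W : ℝ) * ((∑ᶠ k ∈ {k : G | c (k • v) = k}, a' i (k • v) : ℕ) : ℝ) ≤
            ((∑ᶠ k ∈ {k : G | c (k • v) = k}, a (k • v) : ℕ) : ℝ) + W := by
          exact_mod_cast (ha2 i v hv).1
        have h3 := hone v hv
        have h4 : (W : ℝ) ≤ W / L * ∑ᶠ k ∈ {k : G | c (k • v) = k}, (1 : C(Y, ℝ)) (k • v) := by
          calc (W : ℝ) = W / L * L := by field_simp
            _ ≤ _ := mul_le_mul_of_nonneg_left h3 (by positivity)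
        linarith)
    rw [map_add, map_add, map_smul, map_smul, map_smul, map_smul, hμ.one] at h1
    simpa using h1
  have hB : ∀ μ : C(Y, ℝ) →ₗ[ℝ] ℝ, InvState K μ → ∀ i,
      μ (toR b) ≤ W * μ (toR (b' i)) + W / L := by
    intro μ hμ i
    have h1 := t_INT G Y K c hc μ hμ ((1:ℝ) • toR b + (0:ℝ) • 1)
      ((W : ℝ) • toR (b' i) + (W / L : ℝ) • 1) (by
        intro v hv
        rw [hlin, hlin, ← hcast, ← hcast]
        have h2 : ((∑ᶠ k ∈ {k : G | c (k • v) = k}, b (k • v) : ℕ) : ℝ) ≤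
            (W : ℝ) * ((∑ᶠ k ∈ {k : G | c (k • v) = k}, b' i (k • v) : ℕ) : ℝ) + W := by
          exact_mod_cast (hb2 i v hv).2
        have h3 := hone v hv
        have h4 : (W : ℝ) ≤ W / L * ∑ᶠ k ∈ {k : G | c (k • v) = k}, (1 : C(Y, ℝ)) (k • v) := by
          calc (W : ℝ) = W / L * L := by field_simp
            _ ≤ _ := mul_le_mul_of_nonneg_left h3 (by positivity)
        linarith)
    rw [map_add, map_add, map_smul, map_smul, map_smul, map_smul, hμ.one] at h1
    simpa using h1
  -- the functions `α` and `β`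
  let α : C(Y, ℕ) := ∑ i, (a' i).comp (tr (s i))
  let β : C(Y, ℕ) := ∑ i, (b' i).comp (tr (s i))
  have hα : ∀ y, α y = ∑ i, a' i (s i • y) := fun y => by
    simp only [α, ContinuousMap.sum_apply]; rfl
  have hβ : ∀ y, β y = ∑ i, b' i (s i • y) := fun y => by
    simp only [β, ContinuousMap.sum_apply]; rfl
  have hαβ : ∀ ν : C(Y, ℝ) →ₗ[ℝ] ℝ, InvState N ν → ν (toR α) < ν (toR β) := by
    intro ν hν
    have hconj := fun i : Fin W => hν.conj (K := K) (s i) (by
      intro k hk
      have := hKN (s i)⁻¹ (Finset.mem_image_of_mem _ (hs i)) k hk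
      rwa [inv_inv] at this)
    choose μ hμ hμν using hconj
    have h1 : ν (toR α) = ∑ i, μ i (toR (a' i)) := by
      have : toR α = ∑ i, (toR (a' i)).comp (tr (s i)) := by
        ext y
        rw [toR_apply, hα, ContinuousMap.sum_apply]
        push_cast
        rfl
      rw [this, map_sum]
      exact Finset.sum_congr rfl fun i _ => (hμν i _).symm
    have h2 : ν (toR β) = ∑ i, μ i (toR (b' i)) := by
      have : toR β = ∑ i, (toR (b' i)).comp (tr (s i)) := by
        ext y
        rw [toR_apply, hβ, ContinuousMap.sum_apply]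
        push_cast
        rfl
      rw [this, map_sum]
      exact Finset.sum_congr rfl fun i _ => (hμν i _).symm
    have h3 : ∑ i, μ i (toR a) + 1 ≤ ∑ i, μ i (toR b) := by
      have h4 : ∑ i, μ i (toR a) + 1 = ν (∑ i, (toR a).comp (tr (s i)) + 1) := by
        rw [map_add, map_sum, hν.one]
        congr 1
        exact Finset.sum_congr rfl fun i _ => hμν i _
      have h5 : ∑ i, μ i (toR b) = ν (∑ i, (toR b).comp (tr (s i))) := by
        rw [map_sum]
        exact Finset.sum_congr rfl fun i _ => hμν i _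
      rw [h4, h5]
      refine hν.mono fun y => ?_
      rw [ContinuousMap.add_apply, ContinuousMap.sum_apply, ContinuousMap.sum_apply]
      show ∑ i, ((a (s i • y) : ℕ) : ℝ) + 1 ≤ ∑ i, ((b (s i • y) : ℕ) : ℝ)
      rw [hsum (fun g => ((a (g • y) : ℕ) : ℝ)), hsum (fun g => ((b (g • y) : ℕ) : ℝ))]
      exact_mod_cast hgap y
    have h6 : W * ν (toR α) ≤ ∑ i, μ i (toR a) + W * (W / L) := by
      rw [h1, Finset.mul_sum]
      refine le_trans (Finset.sum_le_sum fun i _ => hA (μ i) (hμ i) i) ?_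
      rw [Finset.sum_add_distrib, Finset.sum_const, Finset.card_univ, Fintype.card_fin,
        nsmul_eq_mul]
    have h7 : ∑ i, μ i (toR b) ≤ W * ν (toR β) + W * (W / L) := by
      rw [h2, Finset.mul_sum]
      refine le_trans (Finset.sum_le_sum fun i _ => hB (μ i) (hμ i) i) ?_
      rw [Finset.sum_add_distrib, Finset.sum_const, Finset.card_univ, Fintype.card_fin,
        nsmul_eq_mul]
    have h8 : 2 * (W * (W / L : ℝ)) < 1 := by
      have : 2 * (W * (W / L : ℝ)) = (2 * W * W) / L := by ring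
      rw [this, div_lt_one hLr]
      simp only [L]
      push_cast
      linarith
    have h9 : W * ν (toR α) < W * ν (toR β) := by linarith
    exact lt_of_mul_lt_mul_left h9 hWr.le
  have hsub : Sub H α β := (hN α β hαβ).mono hNH
  have hsa : Sub H a α := by
    refine Sub.of_fintype (κ := Fin W) (fun i => (s i)⁻¹) a' (fun i => H.inv_mem (hSH (hs i)))
      ha1 fun y => ?_
    rw [hα]
    exact le_of_eq (Finset.sum_congr rfl fun i _ => by rw [inv_inv])
  have hsb : Sub H β b := by
    refine Sub.of_fintype (κ := Fin W) s (fun i => (b' i).comp (tr (s i)))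
      (fun i => hSH (hs i)) (fun y => ?_) fun y => ?_
    · rw [hβ]; rfl
    · rw [← hb1 y]
      refine le_of_eq (Finset.sum_congr rfl fun i _ => ?_)
      show b' i (s i • (s i)⁻¹ • y) = b' i y
      rw [smul_inv_smul]
  exact t_TR G Y H a α b hsa (t_TR G Y H α β b hsub hsb)

end Pool.Agent.H107ZS
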