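import Pool.Agent.H107_ZS.DStubs5

/-!
# Amenable groups have approximately invariant measures
-/

set_option autoImplicit false

namespace Pool.Agent.H107ZS

open Topology

universe u v w

theorem t_TA : StTA.{u, v} := by
  classical
  intro G _ Y _ _ hG D ε hε
  obtain ⟨S, hSne, hS⟩ := hG D ε hε
  refine ⟨S.image fun s => s⁻¹, fun _ s => if s⁻¹ ∈ S then (1 : ℝ) / S.card else 0, fun s => IsLocallyConstant.const _,
    fun y s => ?_, fun y s hs => ?_, fun y => ?_, fun d hd y => ?_⟩
  · dsimp only
    split_ifs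
    · positivity
    · exact le_rfl
  · dsimp only
    rw [if_neg]
    intro h
    exact hs (Finset.mem_image.2 ⟨s⁻¹, h, inv_inv s⟩)
  · rw [Finset.sum_image (fun a _ b _ h => inv_injective h)]
    have : ∀ s ∈ S, (if s⁻¹⁻¹ ∈ S then (1 : ℝ) / S.card else 0) = 1 / S.card := by
      intro s hs
      rw [inv_inv, if_pos hs]
    rw [Finset.sum_congr rfl this, Finset.sum_const, nsmul_eq_mul]
    have : (S.card : ℝ) ≠ 0 := by
      have := Finset.card_pos.2 hSne
      positivity
    field_simp
  · rw [Finset.sum_image (fun a _ b _ h => inv_injective h)]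
    have hc : (0 : ℝ) < S.card := by
      have := Finset.card_pos.2 hSne
      positivity
    have h1 : ∀ s ∈ S, |(if s⁻¹⁻¹ ∈ S then (1 : ℝ) / S.card else 0) -
        (if (s⁻¹ * d⁻¹)⁻¹ ∈ S then (1 : ℝ) / S.card else 0)| = if d * s ∉ S then 1 / (S.card : ℝ) else 0 := by
      intro s hs
      rw [inv_inv, if_pos hs, mul_inv_rev, inv_inv, inv_inv]
      by_cases h : d * s ∈ S
      · rw [if_pos h, if_neg (not_not.2 h), sub_self, abs_zero]
      · rw [if_neg h, if_pos h, sub_zero, abs_of_pos (by positivity)]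
    rw [Finset.sum_congr rfl h1, ← Finset.sum_filter, Finset.sum_const, nsmul_eq_mul, mul_one_div,
      div_le_iff₀ hc]
    convert hS d hd using 3

end Pool.Agent.H107ZS
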