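import Pool.Agent.H107_ZS.TLOC
import Pool.Agent.H107_ZS.TPI

/-!
# The tower algebras (StTH), almost central cut-offs (StCOM), approximation (StAPX)
-/

set_option autoImplicit false
set_option linter.unusedSectionVars false

namespace Pool.Agent.H107ZS

open Topology Pool.Agent.H327R4.Pure
open scoped CStarAlgebra ComplexOrder

universe u v w

/-- a positive semidefinite matrix is of the form `cᴴ c` -/
theorem exists_star_mul_self {N : Type u} [Fintype N] [DecidableEq N] {a : Matrix N N ℂ}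
    (ha : a.PosSemidef) : ∃ c : Matrix N N ℂ, star c * c = a := by
  refine ⟨mfc ha.isHermitian Real.sqrt, ?_⟩
  rw [Matrix.star_eq_conjTranspose, mfc_star, mfc_mul]
  refine Eq.trans (mfc_congr _ fun i => ?_) (mfc_id ha.isHermitian)
  exact Real.mul_self_sqrt (ha.eigenvalues_nonneg i)

section

variable {X : Type v} [TopologicalSpace X]

/-- square root of a nonnegative function -/
theorem exists_sqrt_fun (f : C(X, ℂ)) (hf : ∀ x, 0 ≤ f x) :
    ∃ g : C(X, ℂ), g * g = f ∧ star g = g ∧ ∀ x, f x = 0 → g x = 0 := by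
  refine ⟨⟨fun x => ((Real.sqrt (f x).re : ℝ) : ℂ), by fun_prop⟩, ?_, ?_, ?_⟩
  · ext x
    have h1 := hf x
    have h2 := Complex.nonneg_iff.1 h1
    show ((Real.sqrt (f x).re : ℝ) : ℂ) * ((Real.sqrt (f x).re : ℝ) : ℂ) = f x
    rw [← Complex.ofReal_mul, Real.mul_self_sqrt h2.1]
    exact Complex.ext rfl h2.2
  · ext x
    exact Complex.conj_ofReal _
  · intro x hx
    show ((Real.sqrt (f x).re : ℝ) : ℂ) = 0
    rw [hx]; simp

end

section

variable {G : Type u} [Group G] {X : Type v} [TopologicalSpace X] [CompactSpace X]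
  [MulAction G X] [ContinuousConstSMul G X] {B : Type w} [CStarAlgebra B] {n : ℕ}
  {ι : C(X, ℂ) →⋆ₐ[ℂ] B} {u : G →* unitary B} {e : Fin n → Fin n → B}
  {E : Fin n → Fin n → B →L[ℂ] C(X, ℂ)}

theorem IsMCross.norm_e_le (h : IsMCross ι u e E) (k l : Fin n) : ‖e k l‖ ≤ 1 := by
  have h1 : ‖e l l‖ ≤ 1 := by
    have h2 : ‖star (e l l) * e l l‖ = ‖e l l‖ * ‖e l l‖ := CStarRing.norm_star_mul_self
    rw [h.e_star, h.e_mul, if_pos rfl] at h2
    by_contra hcon
    push Not at hcon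
    nlinarith
  have h2 : ‖star (e k l) * e k l‖ = ‖e k l‖ * ‖e k l‖ := CStarRing.norm_star_mul_self
  rw [h.e_star, h.e_mul, if_pos rfl] at h2
  by_contra hcon
  push Not at hcon
  nlinarith

theorem IsMCross.norm_mon_le (h : IsMCross ι u e E) (f : C(X, ℂ)) (k l : Fin n) (g : G) :
    ‖mon ι u e f k l g‖ ≤ ‖f‖ := by
  unfold mon
  rw [CStarRing.norm_mul_coe_unitary]
  calc ‖ι f * e k l‖ ≤ ‖ι f‖ * ‖e k l‖ := norm_mul_le _ _
    _ ≤ ‖f‖ * 1 := mul_le_mul (NonUnitalStarAlgHom.norm_apply_le ι f) (h.norm_e_le k l)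
        (norm_nonneg _) (norm_nonneg _)
    _ = ‖f‖ := mul_one _

theorem IsMCross.ι_mon_ι (h : IsMCross ι u e E) (a c f : C(X, ℂ)) (k l : Fin n) (g : G) :
    ι a * mon ι u e f k l g * ι c = mon ι u e (a * f * c.comp (tr g⁻¹)) k l g := by
  unfold mon
  have h1 : ι a * (ι f * e k l * (u g : B)) * ι c = ι a * ι f * e k l * ((u g : B) * ι c) := by
    noncomm_ring
  rw [h1, h.u_ι]
  have h2 : ι a * ι f * e k l * (ι (c.comp (tr g⁻¹)) * (u g : B)) =
      ι a * ι f * (e k l * ι (c.comp (tr g⁻¹))) * (u g : B) := by noncomm_ring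
  rw [h2, h.e_comm, map_mul, map_mul]
  noncomm_ring

theorem mon_add (f f' : C(X, ℂ)) (k l : Fin n) (g : G) :
    mon ι u e (f + f') k l g = mon ι u e f k l g + mon ι u e f' k l g := by
  unfold mon
  rw [map_add, add_mul, add_mul]

theorem mon_sub (f f' : C(X, ℂ)) (k l : Fin n) (g : G) :
    mon ι u e (f - f') k l g = mon ι u e f k l g - mon ι u e f' k l g := by
  unfold mon
  rw [map_sub, sub_mul, sub_mul]

theorem mon_sum {κ : Type*} (s : Finset κ) (f : κ → C(X, ℂ)) (k l : Fin n) (g : G) :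
    mon ι u e (∑ i ∈ s, f i) k l g = ∑ i ∈ s, mon ι u e (f i) k l g := by
  unfold mon
  rw [map_sum, Finset.sum_mul, Finset.sum_mul]

theorem mon_smul (r : ℂ) (f : C(X, ℂ)) (k l : Fin n) (g : G) :
    mon ι u e (r • f) k l g = r • mon ι u e f k l g := by
  unfold mon
  rw [map_smul, smul_mul_assoc, smul_mul_assoc]

/-- the matrix units of a tower, with coefficient `f` -/
noncomputable def ut (ι : C(X, ℂ) →⋆ₐ[ℂ] B) (u : G →* unitary B) (e : Fin n → Fin n → B)
    (f : C(X, ℂ)) (k l : Fin n) (s t : G) : B := (u s : B) * ι f * e k l * star (u t : B)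

theorem IsMCross.ut_eq_mon (h : IsMCross ι u e E) (f : C(X, ℂ)) (k l : Fin n) (s t : G) :
    ut ι u e f k l s t = mon ι u e (f.comp (tr s⁻¹)) k l (s * t⁻¹) := by
  unfold ut mon
  rw [h.u_ι, mul_assoc (ι _) (u s : B), ← h.e_commu, u_star, u_coe_mul]
  noncomm_ring

theorem IsMCross.star_ut (h : IsMCross ι u e E) (f : C(X, ℂ)) (k l : Fin n) (s t : G) :
    star (ut ι u e f k l s t) = ut ι u e (star f) l k t s := by
  unfold ut
  rw [star_mul, star_mul, star_mul, star_star, h.e_star, ← map_star, ← mul_assoc (e l k),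
    h.e_comm]
  noncomm_ring

theorem IsMCross.ut_mul_ut (h : IsMCross ι u e E) (f f' : C(X, ℂ)) (k l k' l' : Fin n)
    (s t s' t' : G) : ut ι u e f k l s t * ut ι u e f' k' l' s' t' =
      if l = k' then mon ι u e ((f * f'.comp (tr (s'⁻¹ * t))).comp (tr s⁻¹)) k l'
        (s * t⁻¹ * (s' * t'⁻¹)) else 0 := by
  rw [h.ut_eq_mon, h.ut_eq_mon, h.mon_mul]
  congr 2
  ext x
  show f (s⁻¹ • x) * f' (s'⁻¹ • (s * t⁻¹)⁻¹ • x) = f (s⁻¹ • x) * f' ((s'⁻¹ * t) • s⁻¹ • x)
  congr 2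
  rw [smul_smul, smul_smul]
  congr 1
  group

theorem IsMCross.ut_mul_same (h : IsMCross ι u e E) (f f' : C(X, ℂ)) (k l k' l' : Fin n)
    (s t t' : G) : ut ι u e f k l s t * ut ι u e f' k' l' t t' =
      if l = k' then ut ι u e (f * f') k l' s t' else 0 := by
  rw [h.ut_mul_ut, h.ut_eq_mon]
  have h1 : (f * f'.comp (tr (t⁻¹ * t))).comp (tr s⁻¹) = (f * f').comp (tr s⁻¹) := by
    rw [inv_mul_cancel, tr_one]; rfl
  have h2 : s * t⁻¹ * (t * t'⁻¹) = s * t'⁻¹ := by group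
  rw [h1, h2]

theorem IsMCross.ut_mul_zero (h : IsMCross ι u e E) (f f' : C(X, ℂ)) (k l k' l' : Fin n)
    (s t s' t' : G) (V V' : Set X) (hf : ∀ x, x ∉ V → f x = 0) (hf' : ∀ x, x ∉ V' → f' x = 0)
    (hV : ∀ x ∈ V, ∀ x' ∈ V', t • x ≠ s' • x') :
    ut ι u e f k l s t * ut ι u e f' k' l' s' t' = 0 := by
  rw [h.ut_mul_ut]
  have h1 : f * f'.comp (tr (s'⁻¹ * t)) = 0 := by
    ext x
    show f x * f' ((s'⁻¹ * t) • x) = 0
    by_cases hx : x ∈ V
    · by_cases hx' : (s'⁻¹ * t) • x ∈ V'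
      · exfalso
        refine hV x hx _ hx' ?_
        rw [smul_smul, mul_inv_cancel_left]
      · rw [hf' _ hx', mul_zero]
    · rw [hf _ hx, zero_mul]
  rw [h1]
  split_ifs
  · unfold mon
    have : (0 : C(X, ℂ)).comp (tr s⁻¹ : C(X, X)) = 0 := rfl
    rw [this, map_zero, zero_mul, zero_mul]
  · rfl

theorem Th_eq (S : Finset G) (f : C(X, ℂ)) (m : Matrix (Fin n × S) (Fin n × S) ℂ) :
    Th ι u e S f m = ∑ p : Fin n × S, ∑ q : Fin n × S,
      m p q • ut ι u e f p.1 q.1 p.2 q.2 := rfl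

theorem IsMCross.Th_mul_same (h : IsMCross ι u e E) (S : Finset G) (V : Set X) (f f' : C(X, ℂ))
    (m m' : Matrix (Fin n × S) (Fin n × S) ℂ) (hf : ∀ x, x ∉ V → f x = 0)
    (hf' : ∀ x, x ∉ V → f' x = 0)
    (hV : ∀ s ∈ S, ∀ s' ∈ S, ∀ x ∈ V, ∀ x' ∈ V, s • x = s' • x' → s = s') :
    Th ι u e S f m * Th ι u e S f' m' = Th ι u e S (f * f') (m * m') := by
  classical
  rw [Th_eq, Th_eq, Th_eq, Finset.sum_mul]
  refine Finset.sum_congr rfl fun p _ => ?_
  rw [Finset.sum_mul]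
  have h1 : ∀ q : Fin n × S, m p q • ut ι u e f p.1 q.1 p.2 q.2 *
      ∑ p' : Fin n × S, ∑ q' : Fin n × S, m' p' q' • ut ι u e f' p'.1 q'.1 p'.2 q'.2 =
      ∑ q' : Fin n × S, (m p q * m' q q') • ut ι u e (f * f') p.1 q'.1 p.2 q'.2 := by
    intro q
    rw [Finset.mul_sum, Finset.sum_eq_single q]
    · rw [Finset.mul_sum]
      refine Finset.sum_congr rfl fun q' _ => ?_
      rw [smul_mul_smul_comm, h.ut_mul_same, if_pos rfl]
    · intro p' _ hp'
      rw [Finset.mul_sum]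
      refine Finset.sum_eq_zero fun q' _ => ?_
      rw [smul_mul_smul_comm]
      by_cases h2 : (q.2 : G) = p'.2
      · rw [← h2, h.ut_mul_same, if_neg, smul_zero]
        intro h3
        exact hp' (Prod.ext h3.symm (Subtype.ext h2.symm))
      · rw [h.ut_mul_zero f f' p.1 q.1 p'.1 q'.1 p.2 q.2 p'.2 q'.2 V V hf hf'
          (fun x hx x' hx' hh => h2 (hV _ q.2.2 _ p'.2.2 x hx x' hx' hh)), smul_zero]
    · intro hq; exact absurd (Finset.mem_univ _) hq
  rw [Finset.sum_congr rfl fun q _ => h1 q, Finset.sum_comm]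
  refine Finset.sum_congr rfl fun q' _ => ?_
  rw [← Finset.sum_smul, Matrix.mul_apply]

theorem IsMCross.Th_mul_ne (h : IsMCross ι u e E) (S S' : Finset G) (V V' : Set X)
    (f f' : C(X, ℂ)) (m : Matrix (Fin n × S) (Fin n × S) ℂ)
    (m' : Matrix (Fin n × S') (Fin n × S') ℂ) (hf : ∀ x, x ∉ V → f x = 0)
    (hf' : ∀ x, x ∉ V' → f' x = 0)
    (hV : ∀ s ∈ S, ∀ s' ∈ S', ∀ x ∈ V, ∀ x' ∈ V', s • x ≠ s' • x') :
    Th ι u e S f m * Th ι u e S' f' m' = 0 := by
  rw [Th_eq, Th_eq, Finset.sum_mul]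
  refine Finset.sum_eq_zero fun p _ => ?_
  rw [Finset.sum_mul]
  refine Finset.sum_eq_zero fun q _ => ?_
  rw [Finset.mul_sum]
  refine Finset.sum_eq_zero fun p' _ => ?_
  rw [Finset.mul_sum]
  refine Finset.sum_eq_zero fun q' _ => ?_
  rw [smul_mul_smul_comm, h.ut_mul_zero f f' p.1 q.1 p'.1 q'.1 p.2 q.2 p'.2 q'.2 V V' hf hf'
    (hV _ q.2.2 _ p'.2.2), smul_zero]

theorem IsMCross.star_Th (h : IsMCross ι u e E) (S : Finset G) (f : C(X, ℂ))
    (m : Matrix (Fin n × S) (Fin n × S) ℂ) :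
    star (Th ι u e S f m) = Th ι u e S (star f) (star m) := by
  rw [Th_eq, Th_eq, star_sum]
  simp only [star_sum, star_smul, h.star_ut]
  rw [Finset.sum_comm]
  rfl

/-- `Th` at the identity matrix -/
theorem IsMCross.Th_one (h : IsMCross ι u e E) (S : Finset G) (f : C(X, ℂ)) [DecidableEq G] :
    Th ι u e S f (1 : Matrix (Fin n × S) (Fin n × S) ℂ) = ι (∑ s ∈ S, f.comp (tr s⁻¹)) := by
  classical
  rw [Th_eq]
  have h1 : ∀ p : Fin n × S, ∑ q : Fin n × S, (1 : Matrix (Fin n × S) (Fin n × S) ℂ) p q •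
      ut ι u e f p.1 q.1 p.2 q.2 = ut ι u e f p.1 p.1 p.2 p.2 := by
    intro p
    rw [Finset.sum_eq_single p]
    · rw [Matrix.one_apply_eq, one_smul]
    · intro q _ hq; rw [Matrix.one_apply_ne hq.symm, zero_smul]
    · intro hp; exact absurd (Finset.mem_univ _) hp
  rw [Finset.sum_congr rfl fun p _ => h1 p, Fintype.sum_prod_type_right, map_sum,
    ← Finset.sum_coe_sort S]
  refine Finset.sum_congr rfl fun s _ => ?_
  simp only [h.ut_eq_mon, mul_inv_cancel]
  unfold mon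
  rw [← Finset.sum_mul, ← Finset.mul_sum, h.e_sum, mul_one, u_coe_one, mul_one]

end

section levels

variable {G : Type u} [Group G] {X : Type v} [MulAction G X]

/-- at most one level contains a given point -/
theorem levels_cases {m : ℕ} {S : Fin m → Finset G} {V : Fin m → Set X} (hL : Levels S V) (x : X) :
    (∀ j, ∀ s ∈ S j, s⁻¹ • x ∉ V j) ∨ ∃ j₀ s₀, s₀ ∈ S j₀ ∧ s₀⁻¹ • x ∈ V j₀ ∧
      ∀ j, ∀ s ∈ S j, s⁻¹ • x ∈ V j → j = j₀ ∧ s = s₀ := by
  by_cases hc : ∀ j, ∀ s ∈ S j, s⁻¹ • x ∉ V j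
  · exact Or.inl hc
  · right
    push Not at hc
    obtain ⟨j₀, s₀, hs₀, hx⟩ := hc
    refine ⟨j₀, s₀, hs₀, hx, fun j s hs hx' => ?_⟩
    exact hL j j₀ s s₀ hs hs₀ _ hx' _ hx (by rw [smul_inv_smul, smul_inv_smul])

end levels

/-- TH: the calculus of the tower algebras -/
theorem t_TH : StTH.{u} := by
  intro G _ _ X _ _ _ _ B _ _ _ n ι u e E h m S V hL
  classical
  have hne : ∀ j j', j ≠ j' → ∀ s ∈ S j, ∀ s' ∈ S j', ∀ x ∈ V j, ∀ x' ∈ V j', s • x ≠ s' • x' :=
    fun j j' hjj' s hs s' hs' x hx x' hx' hh => hjj' (hL j j' s s' hs hs' x hx x' hx' hh).1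
  have hsame : ∀ j, ∀ s ∈ S j, ∀ s' ∈ S j, ∀ x ∈ V j, ∀ x' ∈ V j, s • x = s' • x' → s = s' :=
    fun j s hs s' hs' x hx x' hx' hh => (hL j j s s' hs hs' x hx x' hx' hh).2
  refine ⟨?_, ?_, ?_, ?_⟩
  · intro f f' a a' hf hf'
    rw [Finset.sum_mul]
    refine Finset.sum_congr rfl fun j _ => ?_
    rw [Finset.mul_sum, Finset.sum_eq_single j]
    · exact h.Th_mul_same (S j) (V j) _ _ _ _ (hf j) (hf' j) (hsame j)
    · intro j' _ hj'
      exact h.Th_mul_ne (S j) (S j') (V j) (V j') _ _ _ _ (hf j) (hf' j')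
        (hne j j' (Ne.symm hj'))
    · intro hj; exact absurd (Finset.mem_univ _) hj
  · intro j f a
    exact h.star_Th (S j) f a
  · intro j f a hf hf0 ha
    obtain ⟨c, hc⟩ := exists_star_mul_self ha
    obtain ⟨g, hg1, hg2, hg3⟩ := exists_sqrt_fun f hf0
    have h1 : Th ι u e (S j) f a = star (Th ι u e (S j) g c) * Th ι u e (S j) g c := by
      rw [h.star_Th, hg2, h.Th_mul_same (S j) (V j) g g (star c) c (fun x hx => hg3 x (hf x hx))
        (fun x hx => hg3 x (hf x hx)) (hsame j), hg1, hc]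
    rw [h1]
    exact star_mul_self_nonneg _
  · intro f hf hf0
    have h1 : ∑ j, Th ι u e (S j) (f j) (1 : Matrix (Fin n × S j) (Fin n × S j) ℂ) =
        ι (∑ j, ∑ s ∈ S j, (f j).comp (tr s⁻¹)) := by
      rw [map_sum]
      exact Finset.sum_congr rfl fun j _ => h.Th_one (S j) (f j)
    rw [h1]
    let F : C(X, ℂ) := ∑ j, ∑ s ∈ S j, (f j).comp (tr s⁻¹)
    have hF : ∀ x, F x = ∑ j, ∑ s ∈ S j, f j (s⁻¹ • x) := by
      intro x
      simp only [F, ContinuousMap.sum_apply]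
      rfl
    have hF1 : ∀ x, 0 ≤ (1 - F) x := by
      intro x
      rw [ContinuousMap.sub_apply, hF, ContinuousMap.one_apply, sub_nonneg]
      rcases levels_cases hL x with hc | ⟨j₀, s₀, hs₀, hx₀, hu⟩
      · rw [Finset.sum_eq_zero]
        · exact zero_le_one
        · intro j _
          exact Finset.sum_eq_zero fun s hs => hf j _ (hc j s hs)
      · rw [Finset.sum_eq_single j₀, Finset.sum_eq_single s₀]
        · exact (hf0 j₀ _).2
        · intro s hs hs'
          exact hf j₀ _ fun hx => hs' (hu j₀ s hs hx).2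
        · intro hs; exact absurd hs₀ hs
        · intro j _ hj
          exact Finset.sum_eq_zero fun s hs => hf j _ fun hx => hj (hu j s hs hx).1
        · intro hj; exact absurd (Finset.mem_univ _) hj
    obtain ⟨g, hg1, hg2, -⟩ := exists_sqrt_fun (1 - F) hF1
    have h2 : (1 : B) - ι F = star (ι g) * ι g := by
      rw [← map_star, hg2, ← map_mul, hg1, map_sub, map_one]
    have h3 : 0 ≤ (1 : B) - ι F := by rw [h2]; exact star_mul_self_nonneg _
    exact sub_nonneg.1 h3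

/-- COM: almost central cut-offs -/
theorem t_COM : StCOM.{u} := by
  intro G _ X _ _ _ _ B _ n ι u e E h f K a a' N hN haa hK
  classical
  have h1 : (∑ g ∈ K, ∑ k, ∑ l, ι (f k l g) * e k l * (u g : B)) -
      (ι a * (∑ g ∈ K, ∑ k, ∑ l, ι (f k l g) * e k l * (u g : B)) * ι a +
       ι a' * (∑ g ∈ K, ∑ k, ∑ l, ι (f k l g) * e k l * (u g : B)) * ι a') =
      ∑ g ∈ K, ∑ k, ∑ l, mon ι u e (f k l g - (a * f k l g * a.comp (tr g⁻¹) +
        a' * f k l g * a'.comp (tr g⁻¹))) k l g := by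
    simp only [Finset.mul_sum, Finset.sum_mul, ← Finset.sum_add_distrib, ← Finset.sum_sub_distrib]
    refine Finset.sum_congr rfl fun g _ => Finset.sum_congr rfl fun k _ =>
      Finset.sum_congr rfl fun l _ => ?_
    rw [mon_sub, mon_add, ← h.ι_mon_ι, ← h.ι_mon_ι]
    rfl
  rw [h1, Finset.mul_sum]
  refine (norm_sum_le _ _).trans (Finset.sum_le_sum fun g hg => ?_)
  rw [Finset.mul_sum]
  refine (norm_sum_le _ _).trans (Finset.sum_le_sum fun k _ => ?_)
  rw [Finset.mul_sum]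
  refine (norm_sum_le _ _).trans (Finset.sum_le_sum fun l _ => ?_)
  refine (h.norm_mon_le _ _ _ _).trans ?_
  have hNr : (1:ℝ) ≤ N := by exact_mod_cast hN
  rw [ContinuousMap.norm_le _ (by positivity)]
  intro x
  obtain ⟨t, t', h2, h3, h4, h5, h6⟩ := haa x
  obtain ⟨r, r', h7, h8, h9, h10, h11⟩ := haa (g⁻¹ • x)
  have h12 := hK g hg x
  rw [h2, h7, ← Complex.ofReal_sub, Complex.norm_real, Real.norm_eq_abs] at h12
  have h13 : (f k l g - (a * f k l g * a.comp (tr g⁻¹) + a' * f k l g * a'.comp (tr g⁻¹))) x =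
      ((1 - (t * r + t' * r') : ℝ) : ℂ) * f k l g x := by
    show f k l g x - (a x * f k l g x * a (g⁻¹ • x) + a' x * f k l g x * a' (g⁻¹ • x)) = _
    rw [h2, h3, h7, h8]
    push_cast
    ring
  rw [h13, norm_mul, Complex.norm_real, Real.norm_eq_abs]
  refine mul_le_mul ?_ ((f k l g).norm_coe_le_norm x) (norm_nonneg _) (by positivity)
  -- `|1 - (t r + t' r')| ≤ 2 / N`
  have h14 : 1 - (t * r + t' * r') = ((t - r) ^ 2 + (t' - r') ^ 2) / 2 := by nlinarith
  have h15 : (t - r) ^ 2 ≤ 1 / N := by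
    have h16 : (t - r) ^ 2 = |t - r| * |t - r| := by rw [← abs_mul, ← sq, abs_of_nonneg (sq_nonneg _)]
    have h17 : |t - r| ≤ 1 := h12.trans (by rw [div_le_one (by linarith)]; exact hNr)
    rw [h16]
    calc |t - r| * |t - r| ≤ 1 * (1 / N) := mul_le_mul h17 h12 (abs_nonneg _) zero_le_one
      _ = 1 / N := one_mul _
  have h18 : (t' - r') ^ 2 ≤ 2 / N := by
    have h19 : (t' - r') ^ 2 ≤ |t' ^ 2 - r' ^ 2| := by
      have : t' ^ 2 - r' ^ 2 = (t' - r') * (t' + r') := by ring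
      rw [this, abs_mul, abs_of_nonneg (by linarith : 0 ≤ t' + r')]
      have h20 : (t' - r') ^ 2 = |t' - r'| * |t' - r'| := by
        rw [← abs_mul, ← sq, abs_of_nonneg (sq_nonneg _)]
      rw [h20]
      refine mul_le_mul_of_nonneg_left ?_ (abs_nonneg _)
      rw [abs_le]; constructor <;> linarith
    have h21 : t' ^ 2 - r' ^ 2 = (r - t) * (r + t) := by nlinarith
    rw [h21, abs_mul, abs_of_nonneg (by linarith : 0 ≤ r + t), abs_sub_comm] at h19
    have h22 : r + t ≤ 2 := by nlinarith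
    calc (t' - r') ^ 2 ≤ |t - r| * (r + t) := h19
      _ ≤ (1 / N) * 2 := mul_le_mul h12 h22 (by linarith) (by positivity)
      _ = 2 / N := by ring
  have h23 : 0 ≤ 1 - (t * r + t' * r') := by rw [h14]; positivity
  rw [abs_of_nonneg h23, h14]
  have h24 : (1:ℝ) / N = (1 / 2) * (2 / N) := by ring
  have h25 : (0:ℝ) < 2 / N := by positivity
  nlinarith

end Pool.Agent.H107ZS
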